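import Pool.Agent.Work.MP_70ab54_kt.InterfaceG

/-!
# MP_70ab54: the amalgam over a tree is an absolute extensor (helper64)
-/

set_option autoImplicit false

namespace Pool.KT

open Set Topology

theorem AEG (hEXH : Stmt_EXH) : Stmt_AEG := by
  intro V P R Z I J W _ _ _ _ _ C p r c T lam mu a b q aP aR aZ hlam hmu hW
  rw [ae_univ_iff] at aP aR aZ
  -- the parent of a node of the second kind
  have hpar : ∀ u : T.NR, T.dP (T.th.symm (u, none)).1 < T.dR u := by
    intro u
    rcases h : T.th.symm (u, none) with ⟨v, i⟩
    have h1 : T.th (v, i) = (u, none) := by rw [← h, Equiv.apply_symm_apply]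
    show T.dP v < T.dR u
    cases i with
    | some i =>
      have := T.lt_up v i
      rw [h1] at this
      exact this
    | none =>
      have hv : v = T.root := by
        by_contra hv
        exact T.down v hv (by rw [h1])
      have := T.lt_root
      rw [← hv, h1] at this
      exact this
  have hedge : ∀ (v : T.NP) (i : Option I) (u : T.NR), (T.th (v, i)).1 = u →
      T.dP v ≤ T.dR u → T.th (v, i) = (u, none) := by
    intro v i u h1 h2
    refine Prod.ext h1 ?_
    show (T.th (v, i)).2 = none
    cases i with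
    | some i => exact T.up v i
    | none =>
      by_cases hv : v = T.root
      · rw [hv]; exact T.root_none
      · have := T.lt_down v hv
        rw [h1] at this
        omega
  have hedge2 : ∀ (v : T.NP) (i : Option I) (u : T.NR), (T.th (v, i)).1 = u →
      T.dR u ≤ T.dP v → i = none ∧ v ≠ T.root := by
    intro v i u h1 h2
    cases i with
    | some i =>
      have := T.lt_up v i
      rw [h1] at this
      omega
    | none =>
      refine ⟨rfl, ?_⟩
      intro hv
      have := T.lt_root
      rw [← hv, h1] at this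
      omega
  refine hEXH W (T.NP ⊕ T.NR) (fun n => Sum.elim (fun v => range (a v)) (fun u => range (b u)) n)
    (fun n => Sum.elim T.dP T.dR n)
    (fun n => Sum.elim (fun v => Sum.inr (T.th (v, none)).1)
      (fun u => Sum.inl (T.th.symm (u, none)).1) n) (Sum.inl T.root) ?_ ?_ ?_ ?_ ?_ ?_
  · rintro (v | u)
    · exact (hW.ea v).isOpen_range
    · exact (hW.eb u).isOpen_range
  · rintro (v | u)
    · exact aP.range_embedding (hW.ea v).isEmbedding
    · exact aR.range_embedding (hW.eb u).isEmbedding
  · refine eq_univ_of_forall fun w => ?_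
    rcases hW.cover w with ⟨v, x, h⟩ | ⟨u, y, h⟩
    · exact mem_iUnion.2 ⟨Sum.inl v, ⟨x, h.symm⟩⟩
    · exact mem_iUnion.2 ⟨Sum.inr u, ⟨y, h.symm⟩⟩
  · rintro (v | u) hn
    · exact T.lt_down v (fun h => hn (by rw [h]))
    · exact hpar u
  · rintro (v | u) (v' | u') hne hle ⟨w, hw, hw'⟩
    · exfalso
      obtain ⟨x, hx⟩ := hw
      obtain ⟨x', hx'⟩ := hw'
      have h1 : a v x = w := hx
      have h2 : a v' x' = w := hx'
      have := hW.ia v v' x x' (h1.trans h2.symm)
      exact hne (by rw [this])
    · obtain ⟨x, hx⟩ := hw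
      obtain ⟨y, hy⟩ := hw'
      have h1 : a v x = w := hx
      have h2 : b u' y = w := hy
      obtain ⟨i, z, -, h3, -⟩ := hW.only v x u' y (h1.trans h2.symm)
      obtain ⟨hi, hv⟩ := hedge2 v i u' h3 hle
      refine ⟨fun h => hv (Sum.inl_injective h), ?_⟩
      rw [hi] at h3
      show Sum.inr u' = Sum.inr (T.th (v, none)).1
      rw [h3]
    · obtain ⟨y, hy⟩ := hw
      obtain ⟨x, hx⟩ := hw'
      have h1 : a v' x = w := hx
      have h2 : b u y = w := hy
      obtain ⟨i, z, -, h3, -⟩ := hW.only v' x u y (h1.trans h2.symm)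
      have h4 := hedge v' i u h3 hle
      refine ⟨fun h => (Sum.inr_ne_inl h), ?_⟩
      show Sum.inl v' = Sum.inl (T.th.symm (u, none)).1
      rw [← h4, Equiv.symm_apply_apply]
    · exfalso
      obtain ⟨y, hy⟩ := hw
      obtain ⟨y', hy'⟩ := hw'
      have h1 : b u y = w := hy
      have h2 : b u' y' = w := hy'
      have := hW.ib u u' y y' (h1.trans h2.symm)
      exact hne (by rw [this])
  · rintro (v | u) hn
    · have hv : v ≠ T.root := fun h => hn (by rw [h])
      have e : range (a v) ∩ range (b (T.th (v, none)).1) = range (a v ∘ lam none) := by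
        ext w
        constructor
        · rintro ⟨⟨x, hx⟩, ⟨y, hy⟩⟩
          obtain ⟨i, z, h1, h2, -⟩ := hW.only v x _ y (hx.trans hy.symm)
          obtain ⟨hi, -⟩ := hedge2 v i _ h2 (T.lt_down v hv).le
          rw [hi] at h1
          exact ⟨z, by rw [← hx, h1]; rfl⟩
        · rintro ⟨z, hz⟩
          refine ⟨⟨lam none z, hz⟩, ⟨mu (T.th (v, none)).2 z, ?_⟩⟩
          rw [← hW.glue v none z]
          exact hz
      show AE ↥(range (a v) ∩ range (b (T.th (v, none)).1))
      rw [e]
      exact aZ.range_embedding ((hW.ea v).isEmbedding.comp (hlam.emb none).isEmbedding)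
    · rcases hs : T.th.symm (u, none) with ⟨v, i0⟩
      have h0 : T.th (v, i0) = (u, none) := by rw [← hs, Equiv.apply_symm_apply]
      have hlt : T.dP v < T.dR u := by
        have := hpar u
        rw [hs] at this
        exact this
      have e : range (b u) ∩ range (a v) = range (a v ∘ lam i0) := by
        ext w
        constructor
        · rintro ⟨⟨y, hy⟩, ⟨x, hx⟩⟩
          obtain ⟨i, z, h1, h2, -⟩ := hW.only v x u y (hx.trans hy.symm)
          have h4 := hedge v i u h2 hlt.le
          have h5 : (v, i) = (v, i0) := T.th.injective (h4.trans h0.symm)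
          have hi : i = i0 := (Prod.mk.inj h5).2
          rw [hi] at h1
          exact ⟨z, by rw [← hx, h1]; rfl⟩
        · rintro ⟨z, hz⟩
          refine ⟨⟨mu (T.th (v, i0)).2 z, ?_⟩, ⟨lam i0 z, hz⟩⟩
          have h6 := hW.glue v i0 z
          have h7 : (T.th (v, i0)).1 = u := by rw [h0]
          rw [h7] at h6
          rw [← h6]
          exact hz
      show AE ↥(range (b u) ∩ range (a (T.th.symm (u, none)).1))
      rw [hs, e]
      exact aZ.range_embedding ((hW.ea v).isEmbedding.comp (hlam.emb i0).isEmbedding)

end Pool.KT
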