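import Pool.Agent.Work.MP_70ab54_kt.InterfaceG

/-!
# MP_70ab54: block AMG, existence of the amalgam (helper55)
-/

set_option autoImplicit false

namespace Pool.KT

open Set Topology

theorem AMG_emb {P Z I N K : Type} [TopologicalSpace P] [TopologicalSpace Z] (lam : I → Z → P)
    (hl : ∀ i, IsOpenEmbedding (lam i)) (hi : ∀ i i' z z', lam i z = lam i' z' → i = i')
    (t : K → N × I) (ht : Function.Injective t) :
    IsOpenEmbedding (fun d : (Σ _ : K, Z) => (⟨(t d.1).1, lam (t d.1).2 d.2⟩ : Σ _ : N, P)) := by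
  refine IsOpenEmbedding.of_continuous_injective_isOpenMap ?_ ?_ ?_
  · rw [continuous_sigma_iff]
    intro k
    exact (continuous_sigmaMk (σ := fun _ : N => P) (i := (t k).1)).comp
      (hl (t k).2).continuous
  · rintro ⟨k, z⟩ ⟨k', z'⟩ h
    have h0 := Sigma.mk.inj_iff.1 h
    have h1 : (t k).1 = (t k').1 := h0.1
    have h2 : lam (t k).2 z = lam (t k').2 z' := eq_of_heq h0.2
    have h3 : (t k).2 = (t k').2 := hi _ _ _ _ h2
    have h4 : k = k' := ht (Prod.ext h1 h3)
    subst h4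
    have h5 : z = z' := (hl _).injective h2
    rw [h5]
  · rw [isOpenMap_sigma]
    intro k
    exact (isOpenMap_sigmaMk (σ := fun _ : N => P) (i := (t k).1)).comp
      (hl (t k).2).isOpenMap

theorem AMG (h : Stmt_GLG) : Stmt_AMG := by
  intro V P R Z I J NP NR _ _ _ _ C p r c lam mu th hp hr hL hM
  have hf := AMG_emb (N := NP) (K := NP × I) lam hL.emb hL.inj id Function.injective_id
  have hg := AMG_emb (N := NR) (K := NP × I) mu hM.emb hM.inj th th.injective
  obtain ⟨W, tW, a, b, ha, hb, hab, hcov, honly⟩ := h (Σ _ : NP × I, Z) (Σ _ : NP, P)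
    (Σ _ : NR, R) _ _ hf hg
  have hq : ∀ w, ∃ v, (∀ x, w = a x → v = p x.2) ∧ ∀ y, w = b y → v = r y.2 := by
    have key : ∀ x y, a x = b y → p x.2 = r y.2 := by
      intro x y hxy
      obtain ⟨⟨k, z⟩, hx, hy⟩ := honly x y hxy
      rw [hx, hy]
      show p (lam k.2 z) = r (mu (th k).2 z)
      rw [hL.proj, hM.proj]
    intro w
    rcases hcov w with ⟨x0, rfl⟩ | ⟨y0, rfl⟩
    · exact ⟨p x0.2, fun x hx => by rw [ha.injective hx], fun y hy => key _ _ hy⟩
    · exact ⟨r y0.2, fun x hx => (key _ _ hx.symm).symm, fun y hy => by rw [hb.injective hy]⟩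
  choose q hq1 hq2 using hq
  have qa : ∀ x, q (a x) = p x.2 := fun x => hq1 _ x rfl
  have qb : ∀ y, q (b y) = r y.2 := fun y => hq2 _ y rfl
  refine ⟨W, tW, fun v x => a ⟨v, x⟩, fun u y => b ⟨u, y⟩, q, ?_⟩
  refine
  { ea := fun v => ha.comp (IsOpenEmbedding.sigmaMk (σ := fun _ : NP => P) (i := v))
    eb := fun u => hb.comp (IsOpenEmbedding.sigmaMk (σ := fun _ : NR => R) (i := u))
    ia := fun v v' x x' e => (Sigma.mk.inj_iff.1 (ha.injective e)).1
    ib := fun u u' y y' e => (Sigma.mk.inj_iff.1 (hb.injective e)).1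
    glue := fun v i z => hab ⟨(v, i), z⟩
    only := ?_
    cover := ?_
    cont := ?_
    qa := fun v x => qa ⟨v, x⟩
    qb := fun u y => qb ⟨u, y⟩ }
  · intro v x u y e
    obtain ⟨⟨⟨v', i⟩, z⟩, hx, hy⟩ := honly _ _ e
    have hx' := Sigma.mk.inj_iff.1 hx
    have hy' := Sigma.mk.inj_iff.1 hy
    have e1 : v = v' := hx'.1
    subst e1
    exact ⟨i, z, eq_of_heq hx'.2, hy'.1.symm, eq_of_heq hy'.2⟩
  · intro w
    rcases hcov w with ⟨⟨v, x⟩, hx⟩ | ⟨⟨u, y⟩, hy⟩
    · exact Or.inl ⟨v, x, hx⟩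
    · exact Or.inr ⟨u, y, hy⟩
  · rw [continuous_iff_continuousAt]
    intro w
    rcases hcov w with ⟨x, rfl⟩ | ⟨y, rfl⟩
    · rw [← ha.continuousAt_iff]
      have : q ∘ a = fun x => p x.2 := funext qa
      rw [this]
      have : Continuous (fun x : (Σ _ : NP, P) => p x.2) := by
        rw [continuous_sigma_iff]
        exact fun _ => hp
      exact this.continuousAt
    · rw [← hb.continuousAt_iff]
      have : q ∘ b = fun y => r y.2 := funext qb
      rw [this]
      have : Continuous (fun y : (Σ _ : NR, R) => r y.2) := by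
        rw [continuous_sigma_iff]
        exact fun _ => hr
      exact this.continuousAt

end Pool.KT
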