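import Pool.Agent.Work.MP_70ab54_kt.KDefs

/-!
# MP_70ab54: the link of five tori, the chamber and the four charts (helper91)

Everything is written for open CONES of `E5 = R^5`; `u = x^2` (coordinatewise).

* `qf m u`, `m : Fin 5`: for `m = 0` the quadratic form
  `(u1+u4)^2 - (u2+u3)^2 + 3/2 (u1-u4)(u2-u3)`, for `m ≠ 0` the LINEAR form
  `64 (u_0 + u_{2m}) - 49 u_{3m} - 36 u_{4m}` (indices multiplied in `Fin 5`, i.e. modulo 5).
* `Tor m`: the cone over the torus `T_m = {x_m = 0, qf m (x^2) = 0}`.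
* `Mt`: `R^5 - 0` minus the five cones.
* mirrors: `s = (m, b) : Fin 5 × Bool`, `mir s = {x ∈ Qc, x_m = 0, qf m > 0 (b = true), < 0 (false)}`.
  `edge s` is the edge of `K_5` attached to the mirror; two mirrors meet iff `adj`.
* the chart of `T_m`, `m ≠ 0`: `w = 7 x_{3m} + 6 i x_{4m}`, `v = 8 (x_{2m} + i x_0)/|w|`,
  `s = x_m/|w|`; in it `T_m = {|v| = 1, s = 0}`.
-/

set_option autoImplicit false

namespace Pool.KT

open Set Topology

/-- the ambient space -/
abbrev E5 : Type := EuclideanSpace ℝ (Fin 5)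

/-- the function whose zero set cuts the facet `u_m = 0` -/
noncomputable def qf (m : Fin 5) (u : Fin 5 → ℝ) : ℝ :=
  if m = 0 then (u 1 + u 4) ^ 2 - (u 2 + u 3) ^ 2 + 3 / 2 * ((u 1 - u 4) * (u 2 - u 3))
  else 64 * (u 0 + u (2 * m)) - 49 * u (3 * m) - 36 * u (4 * m)

/-- squares of the coordinates -/
def sq (x : E5) : Fin 5 → ℝ := fun i => x i ^ 2

/-- the cone over the torus `T_m` -/
def Tor (m : Fin 5) : Set E5 := {x | x ≠ 0 ∧ x m = 0 ∧ qf m (sq x) = 0}

/-- the cone over the complement of the five tori -/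
def Mt : Set E5 := {x | x ≠ 0 ∧ ∀ m, x ∉ Tor m}

/-- the chamber -/
def Qc : Set E5 := {x | x ∈ Mt ∧ ∀ i, 0 ≤ x i}

/-- index set of the ten mirrors: `(m, b)` lies on the facet `x_m = 0` -/
abbrev Mir : Type := Fin 5 × Bool

/-- the ten mirrors -/
def mir (s : Mir) : Set E5 :=
  {x | x ∈ Qc ∧ x s.1 = 0 ∧ (if s.2 then 0 < qf s.1 (sq x) else qf s.1 (sq x) < 0)}

/-- the edge of `K_5` belonging to a mirror -/
def edge (s : Mir) : Finset (Fin 5) :=
  if s.1 = 0 then (if s.2 then {1, 4} else {2, 3})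
  else (if s.2 then {0, 2 * s.1} else {3 * s.1, 4 * s.1})

/-- the graph of the mirrors: two mirrors are adjacent iff they lie on different facets and
their edges of `K_5` share a vertex -/
def adj (s t : Mir) : Prop := s.1 ≠ t.1 ∧ ¬ Disjoint (edge s) (edge t)

instance (s t : Mir) : Decidable (adj s t) := by unfold adj; infer_instance

/-- cliques of mirrors -/
def Clq (A : Finset Mir) : Prop := ∀ s ∈ A, ∀ t ∈ A, s ≠ t → adj s t

/-- reflection in the coordinate `i` -/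
noncomputable def refl (i : Fin 5) (x : E5) : E5 :=
  WithLp.toLp 2 (fun j => if j = i then - x j else x j)

/-! ### strata in the coordinates `u`, indexed by patterns -/

/-- the stratum with pattern `τ`: `τ m = some b`: on the mirror `(m, b)`; `τ m = none`: no
condition (only not on `T_m`) -/
def StrU (τ : Fin 5 → Option Bool) : Set (Fin 5 → ℝ) :=
  {u | (∀ i, 0 ≤ u i) ∧ u ≠ 0 ∧
    (∀ m, τ m = none → ¬ (u m = 0 ∧ qf m u = 0)) ∧
    (∀ m, τ m = some true → u m = 0 ∧ 0 < qf m u) ∧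
    (∀ m, τ m = some false → u m = 0 ∧ qf m u < 0)}

/-- the pattern is a clique -/
def PClq (τ : Fin 5 → Option Bool) : Prop :=
  ∀ m n : Fin 5, ∀ b c : Bool, m ≠ n → τ m = some b → τ n = some c → adj (m, b) (n, c)

/-! ### charts -/

/-- `w`-coordinate of the chart of `T_m` (meant for `m ≠ 0`) -/
noncomputable def Wc (m : Fin 5) (x : E5) : ℂ := ⟨7 * x (3 * m), 6 * x (4 * m)⟩

/-- the `R^3`-coordinate of the chart of `T_m` -/
noncomputable def Pc (m : Fin 5) (x : E5) : R3 :=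
  (⟨8 * x (2 * m) / ‖Wc m x‖, 8 * x 0 / ‖Wc m x‖⟩, x m / ‖Wc m x‖)

/-- inverse of the chart -/
noncomputable def Psi (m : Fin 5) (w : ℂ) (p : R3) : E5 :=
  WithLp.toLp 2 (fun i =>
    if i = 0 then ‖w‖ * p.1.im / 8
    else if i = 2 * m then ‖w‖ * p.1.re / 8
    else if i = 3 * m then w.re / 7
    else if i = 4 * m then w.im / 6
    else ‖w‖ * p.2)

/-- thin chart region: `|v| < 1 + d`, `|s| < d` -/
def Om (m : Fin 5) (d : ℝ) : Set E5 :=
  {x | Wc m x ≠ 0 ∧ ‖(Pc m x).1‖ < 1 + d ∧ |(Pc m x).2| < d}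

/-- thick neighbourhood of `T_m`: `1 - d < |v| < 1 + d`, `|s| < d` -/
def Nn (m : Fin 5) (d : ℝ) : Set E5 :=
  {x | Wc m x ≠ 0 ∧ 1 - d < ‖(Pc m x).1‖ ∧ ‖(Pc m x).1‖ < 1 + d ∧ |(Pc m x).2| < d}

/-- the end of `Mt` at `T_m`: punctured round tube of radius `e` in the chart -/
def EndS (m : Fin 5) (e : ℝ) : Set E5 := {x | Wc m x ≠ 0 ∧ Pc m x ∈ nu e \ Ucirc}

/-- the thickness used everywhere -/
noncomputable def dd : ℝ := 1 / 100

/-! ### the torus `T_0` -/

/-- `g = |(x_1,x_4)|^2 / |(x_2,x_3)|^2` on `T_0`, `C = cos 2a cos 2b` -/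
noncomputable def gg (C : ℝ) : ℝ := (- (3 / 2 * C) + Real.sqrt ((3 / 2 * C) ^ 2 + 4)) / 2

/-- parametrisation of `T_0 ∩ S^4` -/
noncomputable def f0 (a b : ℝ) : E5 :=
  WithLp.toLp 2 (fun i =>
    let g := gg (Real.cos (2 * a) * Real.cos (2 * b))
    if i = 0 then 0
    else if i = 1 then Real.sqrt (g / (1 + g)) * Real.cos a
    else if i = 4 then Real.sqrt (g / (1 + g)) * Real.sin a
    else if i = 2 then Real.sqrt (1 / (1 + g)) * Real.cos b
    else Real.sqrt (1 / (1 + g)) * Real.sin b)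

end Pool.KT
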