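import Mathlib

/-!
# MP_70ab54: the torus `T₀` and its parametrisation (helper25)

`T0` is the open cone over the torus `x₀ = 0`,
`(x₁² + x₄²)² - (x₂² + x₃²)² + (3/2) (x₁² - x₄²) (x₂² - x₃²) = 0`.  It is parametrised by
`t • F0 (u, v)`, `t > 0`, `u`, `v` on the unit circle.
-/

set_option autoImplicit false

namespace Pool.KT

open Set Topology
open scoped ContDiff

/-- the positive root `g` of `g² + (3/2) y g - 1 = 0` -/
noncomputable def gfun (y : ℝ) : ℝ := (-(3 / 2) * y + Real.sqrt ((3 / 2 * y) ^ 2 + 4)) / 2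

lemma gfun_sqrt_pos (y : ℝ) : 0 < (3 / 2 * y) ^ 2 + 4 := by positivity

lemma gfun_pos (y : ℝ) : 0 < gfun y := by
  unfold gfun
  have h : |3 / 2 * y| < Real.sqrt ((3 / 2 * y) ^ 2 + 4) := by
    rw [← Real.sqrt_sq_eq_abs]
    exact Real.sqrt_lt_sqrt (sq_nonneg _) (by linarith)
  have := le_abs_self (3 / 2 * y)
  linarith

lemma gfun_eq (y : ℝ) : gfun y ^ 2 + 3 / 2 * y * gfun y - 1 = 0 := by
  unfold gfun
  have h := Real.sq_sqrt (gfun_sqrt_pos y).le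
  nlinarith [h]

lemma gfun_unique {y h : ℝ} (hp : 0 < h) (he : h ^ 2 + 3 / 2 * y * h - 1 = 0) : h = gfun y := by
  have h1 := gfun_pos y
  have h2 := gfun_eq y
  have h3 : (h - gfun y) * (h * gfun y + 1) = 0 := by
    have : (h - gfun y) * (h * gfun y + 1) =
      gfun y * (h ^ 2 + 3 / 2 * y * h - 1) - h * (gfun y ^ 2 + 3 / 2 * y * gfun y - 1) := by ring
    rw [this, he, h2]; ring
  rcases mul_eq_zero.1 h3 with h4 | h4
  · linarith
  · have : 0 < h * gfun y := mul_pos hp h1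
    linarith

lemma gfun_contDiff : ContDiff ℝ ∞ gfun := by
  unfold gfun
  refine ContDiff.div_const (ContDiff.add (by fun_prop) ?_) 2
  refine ContDiff.sqrt (by fun_prop) ?_
  intro x
  exact (gfun_sqrt_pos x).ne'

/-- the radius of the first circle -/
noncomputable def rfun (p : ℂ × ℂ) : ℝ := Real.sqrt (gfun ((p.1 ^ 2).re * (p.2 ^ 2).re))

lemma rfun_pos (p : ℂ × ℂ) : 0 < rfun p := Real.sqrt_pos.2 (gfun_pos _)

lemma rfun_sq (p : ℂ × ℂ) : rfun p ^ 2 = gfun ((p.1 ^ 2).re * (p.2 ^ 2).re) :=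
  Real.sq_sqrt (gfun_pos _).le

lemma rfun_contDiff : ContDiff ℝ ∞ rfun := by
  unfold rfun
  refine ContDiff.sqrt (gfun_contDiff.comp ?_) (fun x => (gfun_pos _).ne')
  have h1 : ContDiff ℝ ∞ (fun p : ℂ × ℂ => (p.1 ^ 2).re) :=
    Complex.reCLM.contDiff.comp (contDiff_fst.pow 2)
  have h2 : ContDiff ℝ ∞ (fun p : ℂ × ℂ => (p.2 ^ 2).re) :=
    Complex.reCLM.contDiff.comp (contDiff_snd.pow 2)
  exact h1.mul h2

/-- the parametrisation of `T₀` -/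
noncomputable def F0 (p : ℂ × ℂ) : EuclideanSpace ℝ (Fin 5) :=
  !₂[0, rfun p * p.1.re, p.2.re, p.2.im, rfun p * p.1.im]

@[simp] lemma F0_0 (p : ℂ × ℂ) : F0 p 0 = 0 := rfl
@[simp] lemma F0_1 (p : ℂ × ℂ) : F0 p 1 = rfun p * p.1.re := rfl
@[simp] lemma F0_2 (p : ℂ × ℂ) : F0 p 2 = p.2.re := rfl
@[simp] lemma F0_3 (p : ℂ × ℂ) : F0 p 3 = p.2.im := rfl
@[simp] lemma F0_4 (p : ℂ × ℂ) : F0 p 4 = rfun p * p.1.im := rfl

lemma F0_contDiff : ContDiff ℝ ∞ F0 := by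
  rw [contDiff_euclidean]
  have h1 : ContDiff ℝ ∞ (fun p : ℂ × ℂ => p.1.re) := Complex.reCLM.contDiff.comp contDiff_fst
  have h2 : ContDiff ℝ ∞ (fun p : ℂ × ℂ => p.1.im) := Complex.imCLM.contDiff.comp contDiff_fst
  have h3 : ContDiff ℝ ∞ (fun p : ℂ × ℂ => p.2.re) := Complex.reCLM.contDiff.comp contDiff_snd
  have h4 : ContDiff ℝ ∞ (fun p : ℂ × ℂ => p.2.im) := Complex.imCLM.contDiff.comp contDiff_snd
  intro i
  fin_cases i
  · exact contDiff_const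
  · exact rfun_contDiff.mul h1
  · exact h3
  · exact h4
  · exact rfun_contDiff.mul h2

/-- the open cone over the torus `T₀` -/
def T0 : Set (EuclideanSpace ℝ (Fin 5)) :=
  {x | x ≠ 0 ∧ x 0 = 0 ∧ ((x 1) ^ 2 + (x 4) ^ 2) ^ 2 - ((x 2) ^ 2 + (x 3) ^ 2) ^ 2 +
    3 / 2 * ((x 1) ^ 2 - (x 4) ^ 2) * ((x 2) ^ 2 - (x 3) ^ 2) = 0}

lemma circle_sq (u : Circle) : (u : ℂ).re ^ 2 + (u : ℂ).im ^ 2 = 1 := by
  have := Circle.normSq_coe u
  rw [Complex.normSq_apply] at this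
  nlinarith

lemma sq_re (z : ℂ) : (z ^ 2).re = z.re ^ 2 - z.im ^ 2 := by
  rw [sq, Complex.mul_re]; ring

lemma F0_mem {t : ℝ} (ht : 0 < t) (u v : Circle) : t • F0 (u, v) ∈ T0 := by
  have hu := circle_sq u
  have hv := circle_sq v
  have hg := gfun_eq (((u : ℂ) ^ 2).re * ((v : ℂ) ^ 2).re)
  have hr := rfun_sq ((u : ℂ), (v : ℂ))
  simp only at hr
  rw [sq_re, sq_re] at hg hr
  refine ⟨?_, by simp, ?_⟩
  · intro h0
    have h2 : (t • F0 (u, v)) 2 = 0 := by rw [h0]; rfl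
    have h3 : (t • F0 (u, v)) 3 = 0 := by rw [h0]; rfl
    simp only [PiLp.smul_apply, F0_2, F0_3, smul_eq_mul, mul_eq_zero, ht.ne', false_or] at h2 h3
    rw [h2, h3] at hv
    norm_num at hv
  · simp only [PiLp.smul_apply, F0_1, F0_2, F0_3, F0_4, smul_eq_mul]
    set r := rfun ((u : ℂ), (v : ℂ)) with hrdef
    set a := (u : ℂ).re
    set b := (u : ℂ).im
    set c := (v : ℂ).re
    set d := (v : ℂ).im
    rw [← hr] at hg
    have e1 : ((t * (r * a)) ^ 2 + (t * (r * b)) ^ 2) ^ 2 - ((t * c) ^ 2 + (t * d) ^ 2) ^ 2 +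
      3 / 2 * ((t * (r * a)) ^ 2 - (t * (r * b)) ^ 2) * ((t * c) ^ 2 - (t * d) ^ 2) =
      t ^ 4 * ((r ^ 2) ^ 2 * (a ^ 2 + b ^ 2) ^ 2 - (c ^ 2 + d ^ 2) ^ 2 +
        3 / 2 * ((a ^ 2 - b ^ 2) * (c ^ 2 - d ^ 2)) * r ^ 2) := by ring
    rw [e1, hu, hv]
    have : (r ^ 2) ^ 2 * 1 ^ 2 - 1 ^ 2 + 3 / 2 * ((a ^ 2 - b ^ 2) * (c ^ 2 - d ^ 2)) * r ^ 2 =
      (r ^ 2) ^ 2 + 3 / 2 * ((a ^ 2 - b ^ 2) * (c ^ 2 - d ^ 2)) * r ^ 2 - 1 := by ring
    rw [this, hg, mul_zero]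

/-- a pair of real numbers in polar coordinates -/
lemma exists_polar {a b : ℝ} (h : 0 < a ^ 2 + b ^ 2) :
    ∃ (t : ℝ) (u : Circle), 0 < t ∧ t ^ 2 = a ^ 2 + b ^ 2 ∧ a = t * (u : ℂ).re ∧
      b = t * (u : ℂ).im := by
  have hz : (⟨a, b⟩ : ℂ) ≠ 0 := by
    intro h0
    have h1 : a = 0 := congrArg Complex.re h0
    have h2 : b = 0 := congrArg Complex.im h0
    rw [h1, h2] at h; norm_num at h
  have hn : 0 < ‖(⟨a, b⟩ : ℂ)‖ := norm_pos_iff.2 hz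
  have hsq : ‖(⟨a, b⟩ : ℂ)‖ ^ 2 = a ^ 2 + b ^ 2 := by
    rw [← Complex.normSq_eq_norm_sq, Complex.normSq_mk]; ring
  have hu : ‖(⟨a, b⟩ : ℂ) / (‖(⟨a, b⟩ : ℂ)‖ : ℂ)‖ = 1 := by
    rw [norm_div, Complex.norm_real, norm_norm, div_self hn.ne']
  refine ⟨‖(⟨a, b⟩ : ℂ)‖, ⟨(⟨a, b⟩ : ℂ) / (‖(⟨a, b⟩ : ℂ)‖ : ℂ), mem_sphere_zero_iff_norm.2 hu⟩,
    hn, hsq, ?_, ?_⟩
  · show a = ‖(⟨a, b⟩ : ℂ)‖ * ((⟨a, b⟩ : ℂ) / (‖(⟨a, b⟩ : ℂ)‖ : ℂ)).re
    rw [Complex.div_ofReal_re]; field_simp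
  · show b = ‖(⟨a, b⟩ : ℂ)‖ * ((⟨a, b⟩ : ℂ) / (‖(⟨a, b⟩ : ℂ)‖ : ℂ)).im
    rw [Complex.div_ofReal_im]; field_simp

lemma T0_exists {x : EuclideanSpace ℝ (Fin 5)} (hx : x ∈ T0) :
    ∃ (t : ℝ) (u v : Circle), 0 < t ∧ x = t • F0 (u, v) := by
  obtain ⟨hx0, h0, he⟩ := hx
  have hR : 0 < (x 2) ^ 2 + (x 3) ^ 2 := by
    by_contra hc
    have h2 : x 2 = 0 := by nlinarith [sq_nonneg (x 2), sq_nonneg (x 3)]
    have h3 : x 3 = 0 := by nlinarith [sq_nonneg (x 2), sq_nonneg (x 3)]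
    have h4 : (x 1) ^ 2 + (x 4) ^ 2 = 0 := by
      rw [h2, h3] at he
      have : ((x 1) ^ 2 + (x 4) ^ 2) ^ 2 = 0 := by nlinarith
      exact pow_eq_zero_iff (two_ne_zero) |>.1 this
    have h5 : x 1 = 0 := by nlinarith [sq_nonneg (x 1), sq_nonneg (x 4)]
    have h6 : x 4 = 0 := by nlinarith [sq_nonneg (x 1), sq_nonneg (x 4)]
    apply hx0
    ext i
    fin_cases i
    · exact h0
    · exact h5
    · exact h2
    · exact h3
    · exact h6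
  have hP : 0 < (x 1) ^ 2 + (x 4) ^ 2 := by
    by_contra hc
    have h1 : x 1 = 0 := by nlinarith [sq_nonneg (x 1), sq_nonneg (x 4)]
    have h4 : x 4 = 0 := by nlinarith [sq_nonneg (x 1), sq_nonneg (x 4)]
    rw [h1, h4] at he
    have : 0 < ((x 2) ^ 2 + (x 3) ^ 2) ^ 2 := by positivity
    nlinarith
  obtain ⟨s, u, hs, hs2, e1, e4⟩ := exists_polar hP
  obtain ⟨t, v, ht, ht2, e2, e3⟩ := exists_polar hR
  refine ⟨t, u, v, ht, ?_⟩
  have hu := circle_sq u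
  have hv := circle_sq v
  have hq : s ^ 2 / t ^ 2 = gfun (((u : ℂ) ^ 2).re * ((v : ℂ) ^ 2).re) := by
    refine gfun_unique (by positivity) ?_
    rw [sq_re, sq_re]
    have he' : (s ^ 2) ^ 2 - (t ^ 2) ^ 2 + 3 / 2 * ((u : ℂ).re ^ 2 - (u : ℂ).im ^ 2) *
        ((v : ℂ).re ^ 2 - (v : ℂ).im ^ 2) * s ^ 2 * t ^ 2 = 0 := by
      rw [e1, e2, e3, e4] at he
      have : ((s * (u : ℂ).re) ^ 2 + (s * (u : ℂ).im) ^ 2) ^ 2 -
          ((t * (v : ℂ).re) ^ 2 + (t * (v : ℂ).im) ^ 2) ^ 2 +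
          3 / 2 * ((s * (u : ℂ).re) ^ 2 - (s * (u : ℂ).im) ^ 2) *
          ((t * (v : ℂ).re) ^ 2 - (t * (v : ℂ).im) ^ 2) =
          s ^ 4 * ((u : ℂ).re ^ 2 + (u : ℂ).im ^ 2) ^ 2 -
          t ^ 4 * ((v : ℂ).re ^ 2 + (v : ℂ).im ^ 2) ^ 2 +
          3 / 2 * ((u : ℂ).re ^ 2 - (u : ℂ).im ^ 2) *
          ((v : ℂ).re ^ 2 - (v : ℂ).im ^ 2) * s ^ 2 * t ^ 2 := by ring
      rw [this, hu, hv] at he
      linarith
    field_simp
    linarith
  have hr : s = t * rfun ((u : ℂ), (v : ℂ)) := by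
    have h1 : rfun ((u : ℂ), (v : ℂ)) ^ 2 = s ^ 2 / t ^ 2 := by rw [rfun_sq, hq]
    have h2 : s ^ 2 = (t * rfun ((u : ℂ), (v : ℂ))) ^ 2 := by
      rw [mul_pow, h1]; field_simp
    exact (pow_left_inj₀ hs.le (mul_pos ht (rfun_pos _)).le two_ne_zero).1 h2
  ext i
  fin_cases i
  · show x 0 = (t • F0 (u, v)) 0
    simp [h0]
  · show x 1 = (t • F0 (u, v)) 1
    rw [PiLp.smul_apply, F0_1, smul_eq_mul, e1, hr]; ring
  · show x 2 = (t • F0 (u, v)) 2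
    rw [PiLp.smul_apply, F0_2, smul_eq_mul, e2]
  · show x 3 = (t • F0 (u, v)) 3
    rw [PiLp.smul_apply, F0_3, smul_eq_mul, e3]
  · show x 4 = (t • F0 (u, v)) 4
    rw [PiLp.smul_apply, F0_4, smul_eq_mul, e4, hr]; ring

lemma T0_iff (x : EuclideanSpace ℝ (Fin 5)) :
    x ∈ T0 ↔ ∃ (t : ℝ) (u v : Circle), 0 < t ∧ x = t • F0 (u, v) := by
  refine ⟨T0_exists, ?_⟩
  rintro ⟨t, u, v, ht, rfl⟩
  exact F0_mem ht u v

/-- injectivity of the parametrisation of the cone -/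
lemma F0_inj {t t' : ℝ} (ht : 0 < t) (ht' : 0 < t') {u v u' v' : Circle}
    (h : t • F0 (u, v) = t' • F0 (u', v')) : t = t' ∧ u = u' ∧ v = v' := by
  have h2 : t * (v : ℂ).re = t' * (v' : ℂ).re := by
    have := congrArg (fun z : EuclideanSpace ℝ (Fin 5) => z 2) h
    simpa using this
  have h3 : t * (v : ℂ).im = t' * (v' : ℂ).im := by
    have := congrArg (fun z : EuclideanSpace ℝ (Fin 5) => z 3) h
    simpa using this
  have h1 : t * (rfun (u, v) * (u : ℂ).re) = t' * (rfun (u', v') * (u' : ℂ).re) := by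
    have := congrArg (fun z : EuclideanSpace ℝ (Fin 5) => z 1) h
    simpa using this
  have h4 : t * (rfun (u, v) * (u : ℂ).im) = t' * (rfun (u', v') * (u' : ℂ).im) := by
    have := congrArg (fun z : EuclideanSpace ℝ (Fin 5) => z 4) h
    simpa using this
  have key : ∀ (a b : ℝ) (w w' : Circle), 0 < a → 0 < b → a * (w : ℂ).re = b * (w' : ℂ).re →
      a * (w : ℂ).im = b * (w' : ℂ).im → a = b ∧ w = w' := by
    intro a b w w' ha hb e1 e2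
    have hw := circle_sq w
    have hw' := circle_sq w'
    have hab : a ^ 2 = b ^ 2 := by
      have : a ^ 2 * ((w : ℂ).re ^ 2 + (w : ℂ).im ^ 2) = b ^ 2 * ((w' : ℂ).re ^ 2 + (w' : ℂ).im ^ 2) := by
        have e3 : (a * (w : ℂ).re) ^ 2 = (b * (w' : ℂ).re) ^ 2 := by rw [e1]
        have e4 : (a * (w : ℂ).im) ^ 2 = (b * (w' : ℂ).im) ^ 2 := by rw [e2]
        nlinarith
      rw [hw, hw'] at this
      linarith
    have hab' : a = b := (pow_left_inj₀ ha.le hb.le two_ne_zero).1 hab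
    subst hab'
    refine ⟨rfl, ?_⟩
    apply Circle.ext
    apply Complex.ext
    · exact mul_left_cancel₀ ha.ne' e1
    · exact mul_left_cancel₀ ha.ne' e2
  obtain ⟨htt, hvv⟩ := key t t' v v' ht ht' h2 h3
  obtain ⟨-, huu⟩ := key (t * rfun (u, v)) (t' * rfun (u', v')) u u'
    (mul_pos ht (rfun_pos _)) (mul_pos ht' (rfun_pos _)) (by rw [mul_assoc, h1, mul_assoc])
    (by rw [mul_assoc, h4, mul_assoc])
  exact ⟨htt, huu, hvv⟩

/-- the cone immersion property: tangent vectors `a` at `u` and `b` at `v` to the circles with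
`F0' (a, b)` proportional to `F0` vanish -/
lemma F0_immersion {u v : Circle} {a b : ℂ} {c : ℝ} (ha : a.re * (u : ℂ).re + a.im * (u : ℂ).im = 0)
    (hb : b.re * (v : ℂ).re + b.im * (v : ℂ).im = 0)
    (h : fderiv ℝ F0 (u, v) (a, b) = c • F0 (u, v)) : a = 0 ∧ b = 0 := by
  have hd : DifferentiableAt ℝ F0 ((u : ℂ), (v : ℂ)) :=
    F0_contDiff.differentiable (by simp) _
  have hco : ∀ i, fderiv ℝ F0 (u, v) (a, b) i = fderiv ℝ (fun p => F0 p i) ((u : ℂ), (v : ℂ)) (a, b) := by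
    intro i
    have h1 : HasFDerivAt (fun p => F0 p i)
        ((EuclideanSpace.proj i : EuclideanSpace ℝ (Fin 5) →L[ℝ] ℝ).comp
          (fderiv ℝ F0 ((u : ℂ), (v : ℂ)))) ((u : ℂ), (v : ℂ)) :=
      (EuclideanSpace.proj i : EuclideanSpace ℝ (Fin 5) →L[ℝ] ℝ).hasFDerivAt.comp
        ((u : ℂ), (v : ℂ)) hd.hasFDerivAt
    rw [h1.fderiv]; rfl
  have hrd : DifferentiableAt ℝ rfun ((u : ℂ), (v : ℂ)) := rfun_contDiff.differentiable (by simp) _
  have hre : HasFDerivAt (fun p : ℂ × ℂ => p.1.re)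
      (Complex.reCLM.comp (ContinuousLinearMap.fst ℝ ℂ ℂ)) ((u : ℂ), (v : ℂ)) :=
    (Complex.reCLM.comp (ContinuousLinearMap.fst ℝ ℂ ℂ)).hasFDerivAt
  have him : HasFDerivAt (fun p : ℂ × ℂ => p.1.im)
      (Complex.imCLM.comp (ContinuousLinearMap.fst ℝ ℂ ℂ)) ((u : ℂ), (v : ℂ)) :=
    (Complex.imCLM.comp (ContinuousLinearMap.fst ℝ ℂ ℂ)).hasFDerivAt
  have hre2 : HasFDerivAt (fun p : ℂ × ℂ => p.2.re)
      (Complex.reCLM.comp (ContinuousLinearMap.snd ℝ ℂ ℂ)) ((u : ℂ), (v : ℂ)) :=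
    (Complex.reCLM.comp (ContinuousLinearMap.snd ℝ ℂ ℂ)).hasFDerivAt
  have him2 : HasFDerivAt (fun p : ℂ × ℂ => p.2.im)
      (Complex.imCLM.comp (ContinuousLinearMap.snd ℝ ℂ ℂ)) ((u : ℂ), (v : ℂ)) :=
    (Complex.imCLM.comp (ContinuousLinearMap.snd ℝ ℂ ℂ)).hasFDerivAt
  have e2 : b.re = c * (v : ℂ).re := by
    have := congrArg (fun z : EuclideanSpace ℝ (Fin 5) => z 2) h
    simp only [hco, F0_2, PiLp.smul_apply, smul_eq_mul] at this
    rw [hre2.fderiv] at this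
    simpa using this
  have e3 : b.im = c * (v : ℂ).im := by
    have := congrArg (fun z : EuclideanSpace ℝ (Fin 5) => z 3) h
    simp only [hco, F0_3, PiLp.smul_apply, smul_eq_mul] at this
    rw [him2.fderiv] at this
    simpa using this
  have hv := circle_sq v
  have hu := circle_sq u
  have hc : c = 0 := by
    rw [e2, e3] at hb
    nlinarith
  have hb0 : b = 0 := by
    apply Complex.ext
    · rw [e2, hc]; simp
    · rw [e3, hc]; simp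
  refine ⟨?_, hb0⟩
  set r' : ℝ := fderiv ℝ rfun (u, v) (a, b) with hr'
  have e1 : r' * (u : ℂ).re + rfun (u, v) * a.re = 0 := by
    have := congrArg (fun z : EuclideanSpace ℝ (Fin 5) => z 1) h
    simp only [hco, F0_1, PiLp.smul_apply, smul_eq_mul, hc, zero_mul] at this
    have hm : HasFDerivAt (fun p : ℂ × ℂ => rfun p * p.1.re) _ ((u : ℂ), (v : ℂ)) :=
      hrd.hasFDerivAt.mul hre
    rw [hm.fderiv] at this
    simp at this
    linarith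
  have e4 : r' * (u : ℂ).im + rfun (u, v) * a.im = 0 := by
    have := congrArg (fun z : EuclideanSpace ℝ (Fin 5) => z 4) h
    simp only [hco, F0_4, PiLp.smul_apply, smul_eq_mul, hc, zero_mul] at this
    have hm : HasFDerivAt (fun p : ℂ × ℂ => rfun p * p.1.im) _ ((u : ℂ), (v : ℂ)) :=
      hrd.hasFDerivAt.mul him
    rw [hm.fderiv] at this
    simp at this
    linarith
  have hr0 : r' = 0 := by
    have : r' * ((u : ℂ).re ^ 2 + (u : ℂ).im ^ 2) +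
      rfun (u, v) * (a.re * (u : ℂ).re + a.im * (u : ℂ).im) = 0 := by
      have := congrArg (fun z => z * (u : ℂ).re) e1
      have := congrArg (fun z => z * (u : ℂ).im) e4
      nlinarith
    rw [hu, ha] at this
    linarith
  rw [hr0] at e1 e4
  have hrp := rfun_pos ((u : ℂ), (v : ℂ))
  apply Complex.ext
  · have : rfun (u, v) * a.re = 0 := by linarith
    simpa [hrp.ne'] using this
  · have : rfun (u, v) * a.im = 0 := by linarith
    simpa [hrp.ne'] using this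

end Pool.KT
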