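import Pool.Agent.Work.MP_70ab54_kt.Knotted
import Pool.Agent.Work.MP_70ab54_kt.TorusZero
import Pool.Agent.Work.MP_70ab54_kt.Geo

/-!
# MP_70ab54: the final statement (helper25)

`Stmt_J` (the output of the composition of the four surgeries) implies the theorem.
-/

set_option autoImplicit false

namespace Pool.KT

open Set Metric Topology Function
open scoped ContDiff Manifold

/-- the output of the four surgeries: a homogeneous smooth open embedding `J` of a neighbourhood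
`D` of the cone over `T₀` such that the complement of the cone over the image torus has a covering
by an absolute extensor -/
def Stmt_J : Prop :=
  ∃ (J : E5 → E5) (D : Set E5), IsOpen D ∧ Tor 0 ⊆ D ∧ ContDiffOn ℝ ∞ J D ∧ InjOn J D ∧
    (∀ x ∈ D, J x ≠ 0 ∧ Injective (fderiv ℝ J x)) ∧
    (∀ x ∈ D, ∀ t : ℝ, 0 < t → t • x ∈ D ∧ J (t • x) = t • J x) ∧
    GoodCover ({x : E5 | x ≠ 0} \ J '' Tor 0) (fun _ : Empty => (∅ : Set E5))

/-- the answer -/
def Answer : Prop :=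
  ∃ f : Circle × Circle → S4,
    ContMDiff ((𝓡 1).prod (𝓡 1)) (𝓡 4) ∞ f ∧ Injective f ∧
    (∀ p, Injective (mfderiv ((𝓡 1).prod (𝓡 1)) (𝓡 4) f p)) ∧
    PathConnectedSpace ↥(range f)ᶜ ∧
    (∀ n : ℕ, 2 ≤ n → ∀ x : ↥(range f)ᶜ, Subsingleton (HomotopyGroup.Pi n ↥(range f)ᶜ x)) ∧
    ¬ ∃ h : S4 ≃ₜ S4, h '' stdTorus = range f

lemma Tor0_eq : Tor 0 = T0 := by
  ext x
  simp only [Tor, T0, mem_ofPred_eq, qf, sq, if_true]
  constructor
  · rintro ⟨h1, h2, h3⟩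
    exact ⟨h1, h2, by linarith⟩
  · rintro ⟨h1, h2, h3⟩
    exact ⟨h1, h2, by linarith⟩

/-- radial projection -/
noncomputable def rad (x : E5) : E5 := ‖x‖⁻¹ • x

lemma rad_norm {x : E5} (hx : x ≠ 0) : ‖rad x‖ = 1 := by
  unfold rad
  rw [norm_smul, norm_inv, norm_norm, inv_mul_cancel₀ (norm_ne_zero_iff.2 hx)]

lemma rad_contDiffAt {x : E5} (hx : x ≠ 0) : ContDiffAt ℝ ∞ rad x :=
  ContDiffAt.smul ((contDiffAt_norm ℝ hx).inv (norm_ne_zero_iff.2 hx)) contDiffAt_id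

/-- the kernel of the derivative of the radial projection -/
lemma rad_fderiv {x y : E5} (hx : x ≠ 0) (h : fderiv ℝ rad x y = 0) : ∃ c : ℝ, y = c • x := by
  have hn : ‖x‖ ≠ 0 := norm_ne_zero_iff.2 hx
  have hd : HasFDerivAt (fun z : E5 => ‖z‖⁻¹) (fderiv ℝ (fun z : E5 => ‖z‖⁻¹) x) x :=
    (((contDiffAt_norm ℝ (n := ∞) hx).inv hn).differentiableAt (by simp)).hasFDerivAt
  have h2 : HasFDerivAt rad _ x := hd.smul (hasFDerivAt_id x)
  rw [h2.fderiv] at h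
  simp at h
  refine ⟨-(‖x‖ * (fderiv ℝ (fun z : E5 => ‖z‖⁻¹) x) y), ?_⟩
  have h3 : ‖x‖⁻¹ • y = -((fderiv ℝ (fun z : E5 => ‖z‖⁻¹) x) y • x) := by
    rw [eq_neg_iff_add_eq_zero]; exact h
  calc y = ‖x‖ • (‖x‖⁻¹ • y) := by rw [smul_smul, mul_inv_cancel₀ hn, one_smul]
    _ = _ := by rw [h3, smul_neg, smul_smul, neg_smul]

section main

attribute [local instance] finrank_real_complex_fact'

lemma coe_circle_contMDiff :
    ContMDiff (𝓡 1) 𝓘(ℝ, ℂ) ∞ (fun u : Circle => (u : ℂ)) :=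
  contMDiff_coe_sphere (E := ℂ)

/-- tangent vectors of the circle -/
lemma coe_circle_mfderiv (u : Circle) (a : TangentSpace (𝓡 1) u) (z : ℂ)
    (hz : z = mfderiv (𝓡 1) 𝓘(ℝ, ℂ) (fun u : Circle => (u : ℂ)) u a) :
    z.re * (u : ℂ).re + z.im * (u : ℂ).im = 0 := by
  have h := range_mvfderiv_subtypeVal (E := ℂ) (n := 1) u
  have h2 : z ∈ (Submodule.span ℝ {(u : ℂ)})ᗮ := by
    rw [← h]
    exact ⟨a, hz.symm⟩
  have h3 : inner ℝ (u : ℂ) z = 0 :=
    Submodule.mem_orthogonal_singleton_iff_inner_right.1 h2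
  rw [Complex.inner] at h3
  simp only [Complex.mul_re, Complex.conj_re, Complex.conj_im] at h3
  linarith

lemma coe_circle_mfderiv_inj (u : Circle) :
    Injective (mfderiv (𝓡 1) 𝓘(ℝ, ℂ) (fun u : Circle => (u : ℂ)) u) :=
  injective_mvfderiv_subtypeVal_sphere (E := ℂ) (n := 1) u

/-- the inclusion of the torus -/
def iot (p : Circle × Circle) : ℂ × ℂ := (p.1, p.2)

lemma iot_contMDiff : ContMDiff ((𝓡 1).prod (𝓡 1)) 𝓘(ℝ, ℂ × ℂ) ∞ iot :=
  ContMDiff.prodMk_space (coe_circle_contMDiff.comp contMDiff_fst)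
    (coe_circle_contMDiff.comp contMDiff_snd)

/-- derivative of the inclusion of the torus -/
lemma iot_hasMFDerivAt (u v : Circle) :
    HasMFDerivAt ((𝓡 1).prod (𝓡 1)) 𝓘(ℝ, ℂ × ℂ) iot (u, v)
      (((mfderiv (𝓡 1) 𝓘(ℝ, ℂ) (fun u : Circle => (u : ℂ)) u).comp
        (ContinuousLinearMap.fst ℝ (TangentSpace (𝓡 1) u) (TangentSpace (𝓡 1) v))).prod
      ((mfderiv (𝓡 1) 𝓘(ℝ, ℂ) (fun u : Circle => (u : ℂ)) v).comp
        (ContinuousLinearMap.snd ℝ (TangentSpace (𝓡 1) u) (TangentSpace (𝓡 1) v)))) := by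
  have h1 := HasMFDerivAt.comp (I := (𝓡 1).prod (𝓡 1)) (I' := 𝓡 1) (I'' := 𝓘(ℝ, ℂ))
    (f := (Prod.fst : Circle × Circle → Circle))
    (g := fun u : Circle => (u : ℂ)) (u, v)
    (((coe_circle_contMDiff u).mdifferentiableAt (by simp)).hasMFDerivAt)
    (hasMFDerivAt_fst (u, v))
  have h2 := HasMFDerivAt.comp (I := (𝓡 1).prod (𝓡 1)) (I' := 𝓡 1) (I'' := 𝓘(ℝ, ℂ))
    (f := (Prod.snd : Circle × Circle → Circle))
    (g := fun u : Circle => (u : ℂ)) (u, v)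
    (((coe_circle_contMDiff v).mdifferentiableAt (by simp)).hasMFDerivAt)
    (hasMFDerivAt_snd (u, v))
  exact ⟨h1.1.prodMk h2.1, h1.2.prodMk h2.2⟩

theorem answer_of_J (hJ : Stmt_J) : Answer := by
  obtain ⟨J, D, hD, hTD, hJs, hJi, hJ0, hJh, R, tR, q, cov, hsurj, hR, -⟩ := hJ
  have : Fact (Module.finrank ℝ E5 = 4 + 1) := ⟨finrank_euclideanSpace_fin⟩
  have hmem : ∀ u v : Circle, F0 (u, v) ∈ Tor 0 := by
    intro u v
    rw [Tor0_eq]
    have := F0_mem one_pos u v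
    rwa [one_smul] at this
  have hJat : ∀ x ∈ D, ContDiffAt ℝ ∞ J x := fun x hx => (hJs x hx).contDiffAt (hD.mem_nhds hx)
  -- the big map
  set Φ : ℂ × ℂ → E5 := fun p => rad (J (F0 p)) with hΦ
  have hΦs : ∀ u v : Circle, ContDiffAt ℝ ∞ Φ ((u : ℂ), (v : ℂ)) := by
    intro u v
    have h1 : ContDiffAt ℝ ∞ (fun p => J (F0 p)) ((u : ℂ), (v : ℂ)) :=
      (hJat _ (hTD (hmem u v))).comp (f := F0) (g := J) _ F0_contDiff.contDiffAt
    exact (rad_contDiffAt (hJ0 _ (hTD (hmem u v))).1).comp (f := fun p => J (F0 p)) (g := rad)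
      ((u : ℂ), (v : ℂ)) h1
  have hF : ContMDiff ((𝓡 1).prod (𝓡 1)) 𝓘(ℝ, E5) ∞ (Φ ∘ iot) := by
    intro p
    exact ((hΦs p.1 p.2).contMDiffAt).comp p (iot_contMDiff p)
  have hFn : ∀ p, (Φ ∘ iot) p ∈ sphere (0 : E5) 1 := by
    intro p
    rw [mem_sphere_zero_iff_norm]
    exact rad_norm (hJ0 _ (hTD (hmem p.1 p.2))).1
  set f : Circle × Circle → S4 := codRestrict (Φ ∘ iot) _ hFn with hf
  have hfc : ContMDiff ((𝓡 1).prod (𝓡 1)) (𝓡 4) ∞ f := hF.codRestrict_sphere hFn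
  have hfv : ∀ p, (f p : E5) = Φ (iot p) := fun p => rfl
  -- injectivity
  have hfi : Injective f := by
    rintro ⟨u, v⟩ ⟨u', v'⟩ h
    have h1 : rad (J (F0 (u, v))) = rad (J (F0 (u', v'))) := congrArg Subtype.val h
    have h2 := hJh _ (hTD (hmem u v)) _ (inv_pos.2 (norm_pos_iff.2 (hJ0 _ (hTD (hmem u v))).1))
    have h3 := hJh _ (hTD (hmem u' v')) _
      (inv_pos.2 (norm_pos_iff.2 (hJ0 _ (hTD (hmem u' v'))).1))
    have h4 : ‖J (F0 (u, v))‖⁻¹ • F0 (u, v) = ‖J (F0 (u', v'))‖⁻¹ • F0 (u', v') := by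
      apply hJi h2.1 h3.1
      rw [h2.2, h3.2]
      exact h1
    obtain ⟨-, h5, h6⟩ := F0_inj (inv_pos.2 (norm_pos_iff.2 (hJ0 _ (hTD (hmem u v))).1))
      (inv_pos.2 (norm_pos_iff.2 (hJ0 _ (hTD (hmem u' v'))).1)) h4
    rw [h5, h6]
  -- the range
  have hrange : ∀ x : S4, x ∈ range f ↔ (x : E5) ∈ J '' Tor 0 := by
    intro x
    constructor
    · rintro ⟨⟨u, v⟩, rfl⟩
      have hp := inv_pos.2 (norm_pos_iff.2 (hJ0 _ (hTD (hmem u v))).1)
      have h2 := hJh _ (hTD (hmem u v)) _ hp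
      refine ⟨‖J (F0 (u, v))‖⁻¹ • F0 (u, v), ?_, h2.2⟩
      rw [Tor0_eq]
      exact F0_mem hp u v
    · rintro ⟨y, hy, hyx⟩
      rw [Tor0_eq] at hy
      obtain ⟨t, u, v, ht, rfl⟩ := T0_exists hy
      refine ⟨(u, v), Subtype.ext ?_⟩
      show rad (J (F0 (u, v))) = x
      have h2 := (hJh _ (hTD (hmem u v)) t ht).2
      rw [h2] at hyx
      have hx1 : ‖(x : E5)‖ = 1 := mem_sphere_zero_iff_norm.1 x.2
      rw [← hyx, norm_smul, Real.norm_eq_abs, abs_of_pos ht] at hx1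
      rw [← hyx]
      unfold rad
      congr 1
      exact (eq_inv_of_mul_eq_one_left hx1).symm
  -- immersion
  have hfd : ∀ p, Injective (mfderiv ((𝓡 1).prod (𝓡 1)) (𝓡 4) f p) := by
    rintro ⟨u, v⟩
    rw [injective_iff_map_eq_zero]
    intro w hw
    have h1 : mfderiv ((𝓡 1).prod (𝓡 1)) 𝓘(ℝ, E5) (Φ ∘ iot) (u, v) w = 0 := by
      have h2 : (Φ ∘ iot) = (Subtype.val : S4 → E5) ∘ f := rfl
      rw [h2, mfderiv_comp_apply (I' := 𝓡 4) (u, v)
        ((contMDiff_coe_sphere (E := E5) (m := 1) (f (u, v))).mdifferentiableAt one_ne_zero)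
        ((hfc (u, v)).mdifferentiableAt (by simp)), hw, map_zero]
    have h3 : mfderiv ((𝓡 1).prod (𝓡 1)) 𝓘(ℝ, E5) (Φ ∘ iot) (u, v) w =
        fderiv ℝ Φ ((u : ℂ), (v : ℂ))
          (mfderiv (𝓡 1) 𝓘(ℝ, ℂ) (fun u : Circle => (u : ℂ)) u w.1,
           mfderiv (𝓡 1) 𝓘(ℝ, ℂ) (fun u : Circle => (u : ℂ)) v w.2) := by
      rw [mfderiv_comp_apply (I' := 𝓘(ℝ, ℂ × ℂ)) (u, v)
        ((hΦs u v).contMDiffAt.mdifferentiableAt (by simp))
        ((iot_contMDiff (u, v)).mdifferentiableAt (by simp)), mfderiv_eq_fderiv,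
        (iot_hasMFDerivAt u v).mfderiv]
      rfl
    obtain ⟨a, ha⟩ : ∃ a : ℂ, a = mfderiv (𝓡 1) 𝓘(ℝ, ℂ) (fun u : Circle => (u : ℂ)) u w.1 :=
      ⟨_, rfl⟩
    obtain ⟨b, hb⟩ : ∃ b : ℂ, b = mfderiv (𝓡 1) 𝓘(ℝ, ℂ) (fun u : Circle => (u : ℂ)) v w.2 :=
      ⟨_, rfl⟩
    have h4 : fderiv ℝ Φ ((u : ℂ), (v : ℂ)) (a, b) = 0 := by
      rw [ha, hb]
      exact h3.symm.trans h1
    have ha' := coe_circle_mfderiv u w.1 a ha
    have hb' := coe_circle_mfderiv v w.2 b hb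
    -- the kernel
    have hx := hTD (hmem u v)
    have hy0 := (hJ0 _ hx).1
    have hJd : DifferentiableAt ℝ J (F0 (u, v)) := (hJat _ hx).differentiableAt (by simp)
    have hFd : DifferentiableAt ℝ F0 ((u : ℂ), (v : ℂ)) :=
      F0_contDiff.contDiffAt.differentiableAt (by simp)
    have h5 : HasFDerivAt Φ ((fderiv ℝ rad (J (F0 (u, v)))).comp
        ((fderiv ℝ J (F0 (u, v))).comp (fderiv ℝ F0 ((u : ℂ), (v : ℂ))))) ((u : ℂ), (v : ℂ)) :=
      HasFDerivAt.comp (f := fun p => J (F0 p)) (g := rad) ((u : ℂ), (v : ℂ))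
        ((rad_contDiffAt hy0).differentiableAt (by simp)).hasFDerivAt
        (HasFDerivAt.comp (f := F0) (g := J) ((u : ℂ), (v : ℂ)) hJd.hasFDerivAt hFd.hasFDerivAt)
    rw [h5.fderiv] at h4
    obtain ⟨c, hc⟩ := rad_fderiv hy0 h4
    -- Euler's relation
    have h6 : fderiv ℝ J (F0 (u, v)) (F0 (u, v)) = J (F0 (u, v)) := by
      have e1 : HasDerivAt (fun t : ℝ => t • F0 ((u : ℂ), (v : ℂ))) (F0 (u, v)) 1 := by
        have := (hasDerivAt_id (1 : ℝ)).smul_const (F0 ((u : ℂ), (v : ℂ)))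
        simpa using this
      have e2 : HasDerivAt (fun t : ℝ => J (t • F0 ((u : ℂ), (v : ℂ))))
          (fderiv ℝ J (F0 (u, v)) (F0 (u, v))) 1 := by
        refine HasFDerivAt.comp_hasDerivAt_of_eq (1 : ℝ) hJd.hasFDerivAt e1 (by simp)
      have e3 : HasDerivAt (fun t : ℝ => t • J (F0 ((u : ℂ), (v : ℂ)))) (J (F0 (u, v))) 1 := by
        have := (hasDerivAt_id (1 : ℝ)).smul_const (J (F0 ((u : ℂ), (v : ℂ))))
        simpa using this
      have e4 : (fun t : ℝ => J (t • F0 ((u : ℂ), (v : ℂ)))) =ᶠ[𝓝 1]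
          (fun t : ℝ => t • J (F0 ((u : ℂ), (v : ℂ)))) := by
        filter_upwards [lt_mem_nhds (zero_lt_one : (0 : ℝ) < 1)] with t ht
        exact (hJh _ hx t ht).2
      exact e2.unique (e3.congr_of_eventuallyEq e4)
    have h7 : fderiv ℝ F0 ((u : ℂ), (v : ℂ)) (a, b) = c • F0 (u, v) := by
      apply (hJ0 _ hx).2
      rw [map_smul, h6]
      exact hc
    obtain ⟨ha0, hb0⟩ := F0_immersion ha' hb' h7
    rw [ha0] at ha
    rw [hb0] at hb
    have hw1 : w.1 = 0 :=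
      (injective_iff_map_eq_zero _).1 (coe_circle_mfderiv_inj u) w.1 ha.symm
    have hw2 : w.2 = 0 :=
      (injective_iff_map_eq_zero _).1 (coe_circle_mfderiv_inj v) w.2 hb.symm
    exact Prod.ext hw1 hw2
  -- the retraction of the cone over the complement
  set X : Set E5 := {x : E5 | x ≠ 0} \ J '' Tor 0 with hX
  have hin : ∀ y : ↥(range f)ᶜ, (y.1.1 : E5) ∈ X := by
    intro y
    refine ⟨?_, fun h => y.2 ((hrange y.1).2 h)⟩
    have := mem_sphere_zero_iff_norm.1 y.1.2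
    intro h0
    have h1 : (y.1.1 : E5) = 0 := h0
    rw [h1, norm_zero] at this
    norm_num at this
  let i : C(↥(range f)ᶜ, X) := ⟨fun y => ⟨y.1.1, hin y⟩,
    Continuous.subtype_mk (continuous_subtype_val.comp continuous_subtype_val) _⟩
  have hrad : ∀ x : X, rad x.1 ∈ sphere (0 : E5) 1 := fun x =>
    mem_sphere_zero_iff_norm.2 (rad_norm x.2.1)
  have hout : ∀ x : X, (⟨rad x.1, hrad x⟩ : S4) ∈ (range f)ᶜ := by
    intro x h
    rw [hrange] at h
    obtain ⟨y, hy, hyx⟩ := h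
    have hyx' : J y = ‖x.1‖⁻¹ • x.1 := hyx
    apply x.2.2
    have hn : 0 < ‖x.1‖ := norm_pos_iff.2 x.2.1
    refine ⟨‖x.1‖ • y, ?_, ?_⟩
    · rw [Tor0_eq] at hy ⊢
      obtain ⟨t, u, v, ht, rfl⟩ := T0_exists hy
      rw [smul_smul]
      exact F0_mem (mul_pos hn ht) u v
    · rw [(hJh y (hTD hy) _ hn).2, hyx', smul_smul, mul_inv_cancel₀ hn.ne', one_smul]
  let r : C(X, ↥(range f)ᶜ) := ⟨fun x => ⟨⟨rad x.1, hrad x⟩, hout x⟩, by
    refine Continuous.subtype_mk (Continuous.subtype_mk ?_ _) _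
    have : Continuous fun x : X => ‖x.1‖⁻¹ • x.1 :=
      (continuous_subtype_val.norm.inv₀ (fun x => norm_ne_zero_iff.2 x.2.1)).smul
        continuous_subtype_val
    exact this⟩
  have hri : ∀ y, r (i y) = y := by
    intro y
    apply Subtype.ext
    apply Subtype.ext
    show ‖(y.1.1 : E5)‖⁻¹ • y.1.1 = y.1.1
    rw [mem_sphere_zero_iff_norm.1 y.1.2]; simp
  refine ⟨f, hfc, hfi, hfd, ?_, ?_, ?_⟩
  · have : PathConnectedSpace R := hR.pathConnectedSpace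
    have h1 : PathConnectedSpace X := hsurj.pathConnectedSpace cov.continuous
    have h2 : Surjective r := fun y => ⟨i y, hri y⟩
    exact h2.pathConnectedSpace r.continuous
  · intro n hn y
    have h1 : Subsingleton (HomotopyGroup.Pi n X (i y)) :=
      pi_trivial_of_lae_cover cov hsurj hR.lae n hn (i y)
    have key : ∀ g : GenLoop (Fin n) ↥(range f)ᶜ y, GenLoop.Homotopic g GenLoop.const := by
      intro g
      let g' : GenLoop (Fin n) X (i y) := ⟨i.comp g.1, fun t ht => by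
        show i (g.1 t) = i y
        rw [g.2 t ht]⟩
      have h2 : (Quotient.mk _ g' : HomotopyGroup.Pi n X (i y)) =
          Quotient.mk _ GenLoop.const := h1.elim _ _
      have h3 : GenLoop.Homotopic g' GenLoop.const := Quotient.exact h2
      have h4 := ContinuousMap.HomotopicRel.comp_continuousMap h3 r
      have e1 : r.comp g'.1 = g.1 := by
        ext1 t; exact hri _
      have e2 : r.comp (GenLoop.const : GenLoop (Fin n) X (i y)).1 =
          (GenLoop.const : GenLoop (Fin n) ↥(range f)ᶜ y).1 := by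
        ext1 t; exact hri _
      rw [e1, e2] at h4
      exact h4
    constructor
    intro a b
    induction a using Quotient.inductionOn with
    | _ a =>
      induction b using Quotient.inductionOn with
      | _ b => exact Quotient.sound ((key a).trans (key b).symm)
  · rintro ⟨h, hh⟩
    have h1 : SphExt ↥(range f)ᶜ := (SphExt.of_cover cov hsurj hR).of_retract i r hri
    apply not_sphExt_std
    have h2 : ∀ x : S4, x ∈ (stdTorusᶜ : Set S4) ↔ h x ∈ (range f)ᶜ := by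
      intro x
      rw [mem_compl_iff, mem_compl_iff, ← hh, h.injective.mem_set_image]
    exact h1.homeomorph (h.subtype h2).symm

end main

end Pool.KT
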