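import Pool.Agent.Work.MP_70ab54_kt.Geo

/-!
# MP_70ab54: Interface C (charts, disjointness table, parametrisation of `T_0`) (helper91)

Every block proves `theorem xx : Stmt_xx` (plus the Stmts listed in `uses`) in its own file.
Lean tip: `m : Fin 5`, `m ≠ 0`: `fin_cases m` gives four cases; `Fin 5` products such as `2 * 3`
reduce by `decide` / `simp`/`norm_num [Fin.ext_iff]`.  In the chart `m`:
`u_{3m}, u_{4m}` come from `w`, `u_{2m}, u_0` from `v`, `u_m` from `s`.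
-/

set_option autoImplicit false

namespace Pool.KT

open Set Topology

/-! ### algebra of the charts -/

/-- the chart and its inverse -/
def Stmt_C1 : Prop := ∀ m : Fin 5, m ≠ 0 → ∀ w : ℂ, w ≠ 0 → ∀ p : R3,
  Wc m (Psi m w p) = w ∧ Pc m (Psi m w p) = p ∧ Psi m w p ≠ 0

def Stmt_C2 : Prop := ∀ m : Fin 5, m ≠ 0 → ∀ x : E5, Wc m x ≠ 0 → Psi m (Wc m x) (Pc m x) = x

/-- homogeneity -/
def Stmt_C3 : Prop := ∀ m : Fin 5, m ≠ 0 → ∀ t : ℝ, 0 < t →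
  (∀ (w : ℂ) (p : R3), Psi m (t • w) p = t • Psi m w p) ∧
  (∀ x : E5, Wc m (t • x) = t • Wc m x ∧ Pc m (t • x) = Pc m x)

/-- smoothness -/
def Stmt_C4 : Prop := ∀ m : Fin 5, m ≠ 0 →
  ContDiffOn ℝ ((⊤ : ℕ∞) : WithTop ℕ∞) (fun q : ℂ × R3 => Psi m q.1 q.2) {q | q.1 ≠ 0} ∧
  ContDiff ℝ ((⊤ : ℕ∞) : WithTop ℕ∞) (Wc m) ∧
  ContDiffOn ℝ ((⊤ : ℕ∞) : WithTop ℕ∞) (Pc m) {x | Wc m x ≠ 0}

/-- the torus in its chart -/
def Stmt_C5 : Prop := ∀ m : Fin 5, m ≠ 0 → ∀ x : E5,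
  (Wc m x ≠ 0 → qf m (sq x) = ‖Wc m x‖ ^ 2 * (‖(Pc m x).1‖ ^ 2 - 1)) ∧
  (x ∈ Tor m ↔ Wc m x ≠ 0 ∧ Pc m x ∈ Ucirc)

/-- squares in the chart: the regions `Om`, `Nn` are given by inequalities linear in `u = sq x` -/
def Stmt_C6 : Prop := ∀ m : Fin 5, m ≠ 0 → ∀ x : E5, Wc m x ≠ 0 →
  ‖Wc m x‖ ^ 2 = 49 * sq x (3 * m) + 36 * sq x (4 * m) ∧
  0 < 49 * sq x (3 * m) + 36 * sq x (4 * m) ∧
  ‖(Pc m x).1‖ ^ 2 * (49 * sq x (3 * m) + 36 * sq x (4 * m)) = 64 * (sq x 0 + sq x (2 * m)) ∧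
  (Pc m x).2 ^ 2 * (49 * sq x (3 * m) + 36 * sq x (4 * m)) = sq x m

/-- the round tube in the chart, in the coordinates `u`: with `A = 64 (u_0 + u_{2m})`,
`B = 49 u_{3m} + 36 u_{4m}`: `(1 - e^2) (A + B + u_m)^2 < 4 A B` (a convex condition) -/
def Stmt_C18 : Prop := ∀ m : Fin 5, m ≠ 0 → ∀ e : ℝ, 0 < e → e < 1 → ∀ x : E5,
  (Wc m x ≠ 0 ∧ Pc m x ∈ nu e) ↔
  (1 - e ^ 2) * (64 * (sq x 0 + sq x (2 * m)) + (49 * sq x (3 * m) + 36 * sq x (4 * m)) +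
      sq x m) ^ 2 <
    4 * (64 * (sq x 0 + sq x (2 * m))) * (49 * sq x (3 * m) + 36 * sq x (4 * m))

/-! ### the disjointness table, thickness `dd = 1/100` (use C6, then `nlinarith`/`linarith` in `u`) -/

/-- (a), (b): `N_m` and `N_{4m}` are disjoint -/
def Stmt_C7 : Prop := ∀ m : Fin 5, m ≠ 0 → Disjoint (Om m dd) (Om (4 * m) dd)

/-- (c), (d), (e), (f): `N_m` is disjoint from a thick neighbourhood of `T_{3m}` -/
def Stmt_C8 : Prop := ∀ m : Fin 5, m ≠ 0 → Disjoint (Om m dd) (Nn (3 * m) dd)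

/-- (g'), (h'): separation of slices: on `N_m ∩ N_{2m}` the coordinate `3m` dominates -/
def Stmt_C9 : Prop := ∀ m : Fin 5, m ≠ 0 → ∀ x ∈ Om m dd ∩ Om (2 * m) dd,
  ∀ j : Fin 5, j ≠ 3 * m → x j ^ 2 < x (3 * m) ^ 2

/-- signs of the other functions near `T_m` -/
def Stmt_C10 : Prop := ∀ m : Fin 5, m ≠ 0 → ∀ x ∈ Nn m dd, ∀ j : Fin 5, j ≠ m → x j = 0 →
  (m ∉ edge (j, true) → 0 < qf j (sq x)) ∧ (m ∈ edge (j, true) → qf j (sq x) < 0)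

/-- the five cones are pairwise disjoint, and the other ones avoid `Nn m dd` -/
def Stmt_C11 : Prop := (∀ m n : Fin 5, m ≠ n → Disjoint (Tor m) (Tor n)) ∧
  (∀ m : Fin 5, m ≠ 0 → Tor m ⊆ Nn m dd) ∧
  (∀ m n : Fin 5, m ≠ 0 → m ≠ n → Disjoint (Nn m dd) (Tor n)) ∧
  (∀ m n : Fin 5, m ≠ 0 → n ≠ 0 → m ≠ n → Disjoint (Nn m dd) (Nn n dd))

/-- topology: the cones are closed in `x ≠ 0`, `Mt` is open, the regions are open -/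
def Stmt_C12 : Prop := (∀ m : Fin 5, IsClosed (Tor m ∪ {0})) ∧ IsOpen Mt ∧
  (∀ m : Fin 5, m ≠ 0 → ∀ d : ℝ, IsOpen (Om m d) ∧ IsOpen (Nn m d)) ∧
  (∀ m : Fin 5, m ≠ 0 → ∀ d d' : ℝ, 0 < d → d < d' →
    closure (Om m d) ⊆ Om m d' ∪ {0})

/-! ### the reflections -/

/-- the reflections preserve everything -/
def Stmt_C13 : Prop := ∀ i : Fin 5,
  (∀ x, refl i (refl i x) = x) ∧ (∀ x, sq (refl i x) = sq x) ∧
  (∀ x, refl i x = x ↔ x i = 0) ∧ (∀ x, ‖refl i x‖ = ‖x‖) ∧ Continuous (refl i) ∧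
  (∀ m : Fin 5, ∀ x, x ∈ Tor m ↔ refl i x ∈ Tor m) ∧ (∀ x, x ∈ Mt ↔ refl i x ∈ Mt) ∧
  (∀ m : Fin 5, m ≠ 0 → ∀ x, ‖Wc m (refl i x)‖ = ‖Wc m x‖ ∧
    ‖(Pc m (refl i x)).1‖ = ‖(Pc m x).1‖ ∧ |(Pc m (refl i x)).2| = |(Pc m x).2|)

/-! ### the parametrisation of `T_0` -/

/-- `g` solves `g^2 + (3/2) C g = 1`, is positive and smooth -/
def Stmt_C14 : Prop := (∀ C : ℝ, 0 < gg C ∧ gg C ^ 2 + 3 / 2 * C * gg C = 1) ∧
  ContDiff ℝ ((⊤ : ℕ∞) : WithTop ℕ∞) gg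

/-- `f0` is smooth, periodic, of norm one, with cone image `T_0` -/
def Stmt_C15 : Prop :=
  ContDiff ℝ ((⊤ : ℕ∞) : WithTop ℕ∞) (fun p : ℝ × ℝ => f0 p.1 p.2) ∧
  (∀ a b, ‖f0 a b‖ = 1) ∧
  (∀ a b, f0 (a + 2 * Real.pi) b = f0 a b ∧ f0 a (b + 2 * Real.pi) = f0 a b) ∧
  (∀ a b, f0 a b ∈ Tor 0) ∧
  (∀ x ∈ Tor 0, ∃ a b, x = ‖x‖ • f0 a b)

/-- injectivity modulo the periods (written with cosines and sines) -/
def Stmt_C16 : Prop := ∀ a b a' b' : ℝ, f0 a b = f0 a' b' →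
  Real.cos a = Real.cos a' ∧ Real.sin a = Real.sin a' ∧
  Real.cos b = Real.cos b' ∧ Real.sin b = Real.sin b'

/-- immersion: the derivative is injective -/
def Stmt_C17 : Prop := ∀ a b : ℝ,
  Function.Injective (fderiv ℝ (fun p : ℝ × ℝ => f0 p.1 p.2) (a, b))

/-- cone immersion: `f0` and its partial derivatives are linearly independent -/
def Stmt_C19 : Prop := ∀ a b c : ℝ, ∀ h : ℝ × ℝ,
  c • f0 a b + fderiv ℝ (fun p : ℝ × ℝ => f0 p.1 p.2) (a, b) h = 0 → c = 0 ∧ h = 0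

end Pool.KT
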