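import Pool.Agent.Work.MP_70ab54_kt.Geo

/-!
# MP_70ab54: Interface Q (the chamber, its strata, the ends) (helper91)

Strata are treated in the coordinates `u = x^2` (`StrU τ`, `τ : Fin 5 → Option Bool`).
They are star shaped: `(1 - t) x + t y` for a suitable `y` with `y_j > 0` for all free `j`;
the linear sign conditions are convex, the tori `T_k` with `k` free are avoided because all free
coordinates become positive, and for `qf 0` one needs that the polar form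
`B(x, y) = P P' - R R' + 3/4 (D E' + E D')`, `P = u1+u4, R = u2+u3, D = u1-u4, E = u2-u3`,
has the sign of the mirror on the stratum.  Points `y` (u0,u1,u2,u3,u4), checked numerically:
patterns without class 0: all edges of the clique have a common vertex `a` (or no mirror, `a = 0`):
`y_a = 1`, `y_j = 1/8` for the other free `j`; triangles `a b c`: `y_a = y_b`-type point of the
middle interval (for example 02,04,24: (3,0,0,0,4); 02,01,12: (7,0,11,0,0) and images under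
`j -> 2j`); with class 0 (P-side, edge 14): `14`: (0,4,1,1,4); `14,01`: (0,8,1,0,1);
`14,12`: (0,8,1,1,0); `14,13`: (0,8,0,1,6); `14,01,12`: (0,8,1,0,0); `14,01,13`: (0,8,0,0,1);
`14,12,13`: (0,8,0,1,0); `14,01,04`: (0,1,0,0,1); `14,12,24`: (0,17,32,0,0);
`14,01,12,13`: (0,1,0,0,0); the others are images under `j -> 4j` (1 <-> 4, 2 <-> 3), and for the
edge 23 under `j -> 2j` (1 -> 2, 2 -> 4, 3 -> 1, 4 -> 3).
-/

set_option autoImplicit false

namespace Pool.KT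

open Set Topology

/-- structure of the mirrors -/
def Stmt_Q1 : Prop :=
  (∀ i : Fin 5, Qc ∩ {x | x i = 0} = mir (i, true) ∪ mir (i, false)) ∧
  (∀ i : Fin 5, Disjoint (mir (i, true)) (mir (i, false))) ∧
  (∀ s : Mir, ∃ C : Set E5, IsClosed C ∧ mir s = Mt ∩ C) ∧
  (∃ C : Set E5, IsClosed C ∧ Qc = Mt ∩ C)

/-- nonempty strata belong to cliques -/
def Stmt_Q2 : Prop := ∀ τ : Fin 5 → Option Bool, (StrU τ).Nonempty → PClq τ

/-- consequence for the mirrors -/
def Stmt_Q2m : Prop := ∀ s t : Mir, s ≠ t → (mir s ∩ mir t).Nonempty → adj s t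

/-- strata without the curved condition are star shaped -/
def Stmt_Q3a : Prop := ∀ τ : Fin 5 → Option Bool, PClq τ → τ 0 = none →
  ∃ y ∈ StrU τ, (∀ m, τ m = none → 0 < y m) ∧
    ∀ x ∈ StrU τ, ∀ t : ℝ, 0 ≤ t → t ≤ 1 → (1 - t) • x + t • y ∈ StrU τ

/-- strata on the mirror `14` are star shaped -/
def Stmt_Q3b : Prop := ∀ τ : Fin 5 → Option Bool, PClq τ → τ 0 = some true →
  ∃ y ∈ StrU τ, (∀ m, τ m = none → 0 < y m) ∧
    ∀ x ∈ StrU τ, ∀ t : ℝ, 0 ≤ t → t ≤ 1 → (1 - t) • x + t • y ∈ StrU τ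

/-- strata on the mirror `23` are star shaped (image of Q3b under `j -> 2j`) -/
def Stmt_Q3c : Prop := ∀ τ : Fin 5 → Option Bool, PClq τ → τ 0 = some false →
  ∃ y ∈ StrU τ, (∀ m, τ m = none → 0 < y m) ∧
    ∀ x ∈ StrU τ, ∀ t : ℝ, 0 ≤ t → t ≤ 1 → (1 - t) • x + t • y ∈ StrU τ

/-- the chamber and all intersections of mirrors over cliques are absolute extensors -/
def Stmt_Q4 : Prop := ∀ A : Finset Mir, Clq A → AE ↥{x : E5 | x ∈ Qc ∧ ∀ s ∈ A, x ∈ mir s}

/-- the ends: inside `Mt`, open, invariant, path connected -/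
def Stmt_Q5 : Prop := ∀ m : Fin 5, m ≠ 0 → ∀ e : ℝ, 0 < e → e < 1 → nu e ⊆ Bd dd →
  EndS m e ⊆ Mt ∩ Nn m dd ∧ IsOpen (EndS m e) ∧ (∀ i x, x ∈ EndS m e ↔ refl i x ∈ EndS m e) ∧
  IsPathConnected (EndS m e)

/-- strata of the ends: star shaped in `u` (the tube is the convex condition of `Stmt_C18`), or
empty if some edge of the clique contains `m` -/
def Stmt_Q6 : Prop := ∀ m : Fin 5, m ≠ 0 → ∀ e : ℝ, 0 < e → e < 1 → nu e ⊆ Bd dd →
  ∀ A : Finset Mir, Clq A →
    ((∀ s ∈ A, m ∉ edge s) → AE ↥{x : E5 | (x ∈ Qc ∧ ∀ s ∈ A, x ∈ mir s) ∧ x ∈ EndS m e}) ∧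
    ((∃ s ∈ A, m ∈ edge s) → {x : E5 | (x ∈ Qc ∧ ∀ s ∈ A, x ∈ mir s) ∧ x ∈ EndS m e} = ∅)

/-- OUTPUT: the good cover of `Mt` with its four ends (from Theorem D, Q1, Q2m, Q4, Q5, Q6) -/
def Stmt_Q7 : Prop := ∀ e : ℝ, 0 < e → e < 1 → nu e ⊆ Bd dd →
  GoodCover Mt (fun m : {m : Fin 5 // m ≠ 0} => EndS m.1 e)

end Pool.KT
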