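import Pool.Agent.Work.MP_70ab54_kt.InterfaceS
import Pool.Agent.Work.MP_70ab54_kt.InterfaceC
import Pool.Agent.Work.MP_70ab54_kt.InterfaceQ
import Pool.Agent.Work.MP_70ab54_kt.Final

/-!
# MP_70ab54: assembly (helper25)

The geometric statements (`C`, `Q`), the surgery statement `Stmt_S_COMP` and the knot part imply
`Stmt_J`.
-/

set_option autoImplicit false

namespace Pool.KT

open Set Metric Topology Function
open scoped ContDiff

/-- the four charts -/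
noncomputable def ChF (m : Fin 5) (q : ℂ × R3) : E5 := Psi m q.1 q.2

lemma mem_reg_ChF (h1 : Stmt_C1) (h2 : Stmt_C2) {m : Fin 5} (hm : m ≠ 0) (S : Set R3) (x : E5) :
    x ∈ reg (ChF m) S ↔ Wc m x ≠ 0 ∧ Pc m x ∈ S := by
  constructor
  · rintro ⟨⟨w, p⟩, ⟨hw, hp⟩, rfl⟩
    obtain ⟨e1, e2, -⟩ := h1 m hm w hw p
    show Wc m (Psi m w p) ≠ 0 ∧ Pc m (Psi m w p) ∈ S
    rw [e1, e2]
    exact ⟨hw, hp⟩
  · rintro ⟨hw, hp⟩
    exact ⟨(Wc m x, Pc m x), ⟨hw, hp⟩, h2 m hm x hw⟩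

lemma isOpen_Bd (d : ℝ) : IsOpen (Bd d) := by
  have h1 : IsOpen {x : R3 | ‖x.1‖ < 1 + d} := isOpen_lt (by fun_prop) continuous_const
  have h2 : IsOpen {x : R3 | |x.2| < d} :=
    isOpen_lt (continuous_abs.comp continuous_snd) continuous_const
  exact h1.inter h2

lemma isOpen_cyl {S : Set R3} (hS : IsOpen S) : IsOpen (cyl S) := by
  have h1 : IsOpen {q : ℂ × R3 | q.1 ≠ 0} := isOpen_ne_fun continuous_fst continuous_const
  exact h1.inter (hS.preimage continuous_snd)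

lemma chart_ChF (h1 : Stmt_C1) (h3 : Stmt_C3) (h4 : Stmt_C4) {m : Fin 5}
    (hm : m ≠ 0) {d : ℝ} (hd : 0 < d) : Chart d (ChF m) := by
  obtain ⟨c1, c2, c3⟩ := h4 m hm
  refine ⟨hd, ?_, ?_, ?_, ?_⟩
  · refine locDiffOn_of_leftInv (g := fun x => (Wc m x, Pc m x)) ?_ (isOpen_cyl (isOpen_Bd d))
      ?_ ?_ ?_
    · rw [finrank_euclideanSpace_fin, Module.finrank_prod, Module.finrank_prod,
        Complex.finrank_real_complex, Module.finrank_self]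
    · exact c1.mono (fun q hq => hq.1)
    · rintro ⟨w, p⟩ ⟨hw, hp⟩
      have e1 := (h1 m hm w hw p).1
      have hne : Wc m (Psi m w p) ≠ 0 := by rw [e1]; exact hw
      have ho : IsOpen {x : E5 | Wc m x ≠ 0} := isOpen_ne_fun c2.continuous continuous_const
      have d1 : DifferentiableAt ℝ (Wc m) (Psi m w p) := c2.differentiable (by simp) _
      have d2 : DifferentiableAt ℝ (Pc m) (Psi m w p) :=
        (c3.contDiffAt (ho.mem_nhds hne)).differentiableAt (by simp)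
      exact d1.prodMk d2
    · rintro ⟨w, p⟩ ⟨hw, hp⟩
      obtain ⟨e1, e2, -⟩ := h1 m hm w hw p
      show (Wc m (Psi m w p), Pc m (Psi m w p)) = (w, p)
      rw [e1, e2]
  · rintro ⟨w, p⟩ ⟨hw, hp⟩ ⟨w', p'⟩ ⟨hw', hp'⟩ h
    have h' : Psi m w p = Psi m w' p' := h
    obtain ⟨e1, e2, -⟩ := h1 m hm w hw p
    obtain ⟨e1', e2', -⟩ := h1 m hm w' hw' p'
    rw [h'] at e1 e2
    rw [← e1, ← e2, e1', e2']
  · intro t ht q hq
    exact (h3 m hm t ht).1 q.1 q.2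
  · rintro ⟨w, p⟩ ⟨hw, hp⟩
    exact (h1 m hm w hw p).2.2

theorem table_ChF (h1 : Stmt_C1) (h2 : Stmt_C2) (h3 : Stmt_C3) (h4 : Stmt_C4) (h5 : Stmt_C5)
    (h7 : Stmt_C7) (h8 : Stmt_C8) (h9 : Stmt_C9) (h11 : Stmt_C11) (h12 : Stmt_C12)
    (q5 : Stmt_Q5) {e : ℝ} (he : 0 < e) (he1 : e < 1) (hnu : nu e ⊆ Bd dd) :
    Table dd e ChF (Tor 0) := by
  have hdd : (0 : ℝ) < dd := by unfold dd; norm_num
  have hOm : ∀ m : Fin 5, m ≠ 0 → reg (ChF m) (Bd dd) = Om m dd := by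
    intro m hm
    ext x
    rw [mem_reg_ChF h1 h2 hm]
    rfl
  have hNn : ∀ m : Fin 5, m ≠ 0 → reg (ChF m) (nu e) ⊆ Nn m dd := by
    intro m hm x hx
    rw [mem_reg_ChF h1 h2 hm] at hx
    by_cases hU : Pc m x ∈ Ucirc
    · exact h11.2.1 m hm (((h5 m hm x).2).2 ⟨hx.1, hU⟩)
    · exact ((q5 m hm e he he1 hnu).1 ⟨hx.1, hx.2, hU⟩).2
  have hdis : ∀ a b : Fin 5, a ≠ 0 → b ≠ 0 → b = 4 * a →
      Disjoint (reg (ChF a) (Bd dd)) (reg (ChF b) (Bd dd)) := by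
    intro a b ha hb hab
    rw [hOm a ha, hOm b hb, hab]
    exact h7 a ha
  have hdis2 : ∀ a b : Fin 5, a ≠ 0 → b ≠ 0 → b = 3 * a →
      Disjoint (reg (ChF a) (Bd dd)) (reg (ChF b) (nu e)) := by
    intro a b ha hb hab
    have h := h8 a ha
    rw [← hab, ← hOm a ha] at h
    exact h.mono_right (hNn b hb)
  refine ⟨fun m hm => chart_ChF h1 h3 h4 hm hdd, ?_, ?_, ?_, ?_, ?_, ?_, ?_, ?_, ?_, ?_, ?_⟩
  · exact hdis 1 4 (by decide) (by decide) (by decide)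
  · exact hdis 2 3 (by decide) (by decide) (by decide)
  · exact hdis2 2 1 (by decide) (by decide) (by decide)
  · exact hdis2 3 4 (by decide) (by decide) (by decide)
  · exact hdis2 1 3 (by decide) (by decide) (by decide)
  · exact hdis2 4 2 (by decide) (by decide) (by decide)
  · refine ⟨{w | (w.re / 7) ^ 2 < (w.im / 6) ^ 2}, ?_, ?_⟩
    · rintro ⟨w, p⟩ ⟨hw, hp⟩ hx
      have hx3 : ChF 1 (w, p) ∈ Om 3 dd := by rw [← hOm 3 (by decide)]; exact hx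
      have hx1 : ChF 1 (w, p) ∈ Om 1 dd := by
        rw [← hOm 1 (by decide)]; exact ⟨(w, p), ⟨hw, hp⟩, rfl⟩
      have h := h9 3 (by decide) (ChF 1 (w, p)) ⟨hx3, hx1⟩ 3 (by decide)
      have e1 : Wc 1 (ChF 1 (w, p)) = w := (h1 1 (by decide) w hw p).1
      have e2 : 7 * (ChF 1 (w, p)) 3 = w.re := congrArg Complex.re e1
      have e3 : 6 * (ChF 1 (w, p)) 4 = w.im := congrArg Complex.im e1
      show (w.re / 7) ^ 2 < (w.im / 6) ^ 2
      rw [← e2, ← e3, mul_div_cancel_left₀ _ (by norm_num : (7 : ℝ) ≠ 0),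
        mul_div_cancel_left₀ _ (by norm_num : (6 : ℝ) ≠ 0)]
      exact h
    · rintro ⟨w, p⟩ ⟨hw, hp⟩ hx
      have hx2 : ChF 1 (w, p) ∈ Om 2 dd := by rw [← hOm 2 (by decide)]; exact hx
      have hx1 : ChF 1 (w, p) ∈ Om 1 dd := by
        rw [← hOm 1 (by decide)]; exact ⟨(w, p), ⟨hw, hp⟩, rfl⟩
      have h := h9 1 (by decide) (ChF 1 (w, p)) ⟨hx1, hx2⟩ 4 (by decide)
      have e1 : Wc 1 (ChF 1 (w, p)) = w := (h1 1 (by decide) w hw p).1
      have e2 : 7 * (ChF 1 (w, p)) 3 = w.re := congrArg Complex.re e1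
      have e3 : 6 * (ChF 1 (w, p)) 4 = w.im := congrArg Complex.im e1
      show ¬ (w.re / 7) ^ 2 < (w.im / 6) ^ 2
      rw [← e2, ← e3, mul_div_cancel_left₀ _ (by norm_num : (7 : ℝ) ≠ 0),
        mul_div_cancel_left₀ _ (by norm_num : (6 : ℝ) ≠ 0)]
      exact not_lt.2 (le_of_lt h)
  · refine ⟨{w | (w.re / 7) ^ 2 < (w.im / 6) ^ 2}, ?_, ?_⟩
    · rintro ⟨w, p⟩ ⟨hw, hp⟩ hx
      have hx2 : ChF 4 (w, p) ∈ Om 2 dd := by rw [← hOm 2 (by decide)]; exact hx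
      have hx4 : ChF 4 (w, p) ∈ Om 4 dd := by
        rw [← hOm 4 (by decide)]; exact ⟨(w, p), ⟨hw, hp⟩, rfl⟩
      have h := h9 2 (by decide) (ChF 4 (w, p)) ⟨hx2, hx4⟩ 2 (by decide)
      have e1 : Wc 4 (ChF 4 (w, p)) = w := (h1 4 (by decide) w hw p).1
      have e2 : 7 * (ChF 4 (w, p)) 2 = w.re := congrArg Complex.re e1
      have e3 : 6 * (ChF 4 (w, p)) 1 = w.im := congrArg Complex.im e1
      show (w.re / 7) ^ 2 < (w.im / 6) ^ 2
      rw [← e2, ← e3, mul_div_cancel_left₀ _ (by norm_num : (7 : ℝ) ≠ 0),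
        mul_div_cancel_left₀ _ (by norm_num : (6 : ℝ) ≠ 0)]
      exact h
    · rintro ⟨w, p⟩ ⟨hw, hp⟩ hx
      have hx3 : ChF 4 (w, p) ∈ Om 3 dd := by rw [← hOm 3 (by decide)]; exact hx
      have hx4 : ChF 4 (w, p) ∈ Om 4 dd := by
        rw [← hOm 4 (by decide)]; exact ⟨(w, p), ⟨hw, hp⟩, rfl⟩
      have h := h9 4 (by decide) (ChF 4 (w, p)) ⟨hx4, hx3⟩ 1 (by decide)
      have e1 : Wc 4 (ChF 4 (w, p)) = w := (h1 4 (by decide) w hw p).1
      have e2 : 7 * (ChF 4 (w, p)) 2 = w.re := congrArg Complex.re e1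
      have e3 : 6 * (ChF 4 (w, p)) 1 = w.im := congrArg Complex.im e1
      show ¬ (w.re / 7) ^ 2 < (w.im / 6) ^ 2
      rw [← e2, ← e3, mul_div_cancel_left₀ _ (by norm_num : (7 : ℝ) ≠ 0),
        mul_div_cancel_left₀ _ (by norm_num : (6 : ℝ) ≠ 0)]
      exact not_lt.2 (le_of_lt h)
  · intro m hm
    exact ((h11.2.2.1 m 0 hm hm).mono_left (hNn m hm)).symm
  · intro h0
    exact h0.1 rfl
  · rw [union_comm]
    exact h12.1 0

theorem Lset_ChF (h1 : Stmt_C1) (h2 : Stmt_C2) (h5 : Stmt_C5) : Lset ChF \ Tor 0 = Mt := by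
  ext x
  simp only [Lset, Mt, mem_sdiff, mem_ofPred_eq]
  constructor
  · rintro ⟨⟨h0, h⟩, hT⟩
    refine ⟨h0, fun m => ?_⟩
    by_cases hm : m = 0
    · rw [hm]; exact hT
    · intro hx
      exact h m hm ((mem_reg_ChF h1 h2 hm _ _).2 (((h5 m hm x).2).1 hx))
  · rintro ⟨h0, h⟩
    exact ⟨⟨h0, fun m hm hx => h m (((h5 m hm x).2).2 ((mem_reg_ChF h1 h2 hm _ _).1 hx))⟩, h 0⟩

theorem stmt_J (h1 : Stmt_C1) (h2 : Stmt_C2) (h3 : Stmt_C3) (h4 : Stmt_C4) (h5 : Stmt_C5)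
    (h7 : Stmt_C7) (h8 : Stmt_C8) (h9 : Stmt_C9) (h11 : Stmt_C11) (h12 : Stmt_C12)
    (q5 : Stmt_Q5) (q7 : Stmt_Q7) (hK : Stmt_K) (hKN : Stmt_S_KN) (hS : Stmt_S_COMP) :
    Stmt_J := by
  have hdd : (0 : ℝ) < dd := by unfold dd; norm_num
  obtain ⟨j, e, he, he1, hj⟩ := hKN hK (dd / 2) (by linarith)
  have hknot := hj e he le_rfl
  have hnu : nu e ⊆ Bd dd := by
    intro x hx
    have := hknot.sub hx
    exact ⟨by linarith [this.1], by linarith [this.2]⟩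
  have htab := table_ChF h1 h2 h3 h4 h5 h7 h8 h9 h11 h12 q5 he he1 hnu
  have hL := Lset_ChF h1 h2 h5
  have hgood : GoodCover (Lset ChF \ Tor 0)
      (fun i : Fin 4 => reg (ChF i.succ) (nu e \ Ucirc)) := by
    rw [hL]
    obtain ⟨R, tR, q, cov, hs, hR, hE⟩ := q7 e he he1 hnu
    refine ⟨R, tR, q, cov, hs, hR, fun i => ?_⟩
    have h := hE ⟨i.succ, Fin.succ_ne_zero i⟩
    have e1 : reg (ChF i.succ) (nu e \ Ucirc) = EndS i.succ e := by
      ext x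
      rw [mem_reg_ChF h1 h2 (Fin.succ_ne_zero i)]
      rfl
    show LAE ↥{r | (q r : E5) ∈ reg (ChF i.succ) (nu e \ Ucirc)}
    rw [e1]
    exact h
  have hout := hS dd (dd / 2) e ChF (Tor 0) j (by linarith) (by linarith) hknot htab hgood
  refine ⟨Jtot dd j ChF, Lset ChF, hout.loc.1, ?_, hout.loc.2.1, hout.inj, ?_, ?_, ?_⟩
  · intro x hx
    refine ⟨hx.1, fun m hm hr => ?_⟩
    have hxm : x ∈ Tor m := ((h5 m hm x).2).2 ((mem_reg_ChF h1 h2 hm _ _).1 hr)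
    exact disjoint_left.1 (h11.1 0 m (Ne.symm hm)) hx hxm
  · intro x hx
    exact ⟨hout.ne x hx, (hout.loc.2.2 x hx).1⟩
  · intro x hx t ht
    refine ⟨⟨smul_ne_zero ht.ne' hx.1, fun m hm hr => ?_⟩, hout.hom t ht x hx⟩
    apply hx.2 m hm
    rw [mem_reg_ChF h1 h2 hm] at hr ⊢
    rw [((h3 m hm t ht).2 x).1, ((h3 m hm t ht).2 x).2] at hr
    exact ⟨fun h0 => hr.1 (by rw [h0, smul_zero]), hr.2⟩
  · have e1 : ({x : E5 | x ≠ 0} \ Jtot dd j ChF '' Tor 0) = ({0} ∪ Jtot dd j ChF '' Tor 0)ᶜ := by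
      ext x
      simp only [mem_sdiff, mem_ofPred_eq, mem_compl_iff, mem_union, mem_singleton_iff, not_or,
        ne_eq]
    rw [e1]
    exact hout.good

end Pool.KT
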