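import Pool.Agent.Work.MP_70ab54_kt.InterfaceC

/-!
# MP_70ab54, blocks C1, C2, C3: the charts and their inverses (helper83)
-/

set_option autoImplicit false

namespace Pool.KT

open Set Topology

/-- the coordinates of the inverse chart -/
theorem C1_coord (m : Fin 5) (hm : m ≠ 0) (w : ℂ) (p : R3) :
    Psi m w p 0 = ‖w‖ * p.1.im / 8 ∧ Psi m w p (2 * m) = ‖w‖ * p.1.re / 8 ∧
    Psi m w p (3 * m) = w.re / 7 ∧ Psi m w p (4 * m) = w.im / 6 ∧ Psi m w p m = ‖w‖ * p.2 := by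
  have h2 : 2 * m ≠ 0 := by revert m; decide
  have h3 : 3 * m ≠ 0 := by revert m; decide
  have h4 : 4 * m ≠ 0 := by revert m; decide
  have h32 : 3 * m ≠ 2 * m := by revert m; decide
  have h42 : 4 * m ≠ 2 * m := by revert m; decide
  have h43 : 4 * m ≠ 3 * m := by revert m; decide
  have h12 : m ≠ 2 * m := by revert m; decide
  have h13 : m ≠ 3 * m := by revert m; decide
  have h14 : m ≠ 4 * m := by revert m; decide
  refine ⟨?_, ?_, ?_, ?_, ?_⟩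
  · simp [Psi]
  · simp [Psi, h2]
  · simp [Psi, h3, h32]
  · simp [Psi, h4, h42, h43]
  · simp [Psi, hm, h12, h13, h14]

theorem C1_Wc (m : Fin 5) (hm : m ≠ 0) (w : ℂ) (p : R3) : Wc m (Psi m w p) = w := by
  obtain ⟨-, -, e3, e4, -⟩ := C1_coord m hm w p
  apply Complex.ext
  · simp only [Wc, e3]; ring
  · simp only [Wc, e4]; ring

theorem C1_Pc (m : Fin 5) (hm : m ≠ 0) (w : ℂ) (hw : w ≠ 0) (p : R3) :
    Pc m (Psi m w p) = p := by
  obtain ⟨e0, e2, -, -, e1⟩ := C1_coord m hm w p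
  have hn : ‖w‖ ≠ 0 := norm_ne_zero_iff.2 hw
  simp only [Pc, C1_Wc m hm w p, e0, e2, e1]
  refine Prod.ext (Complex.ext ?_ ?_) ?_
  · show 8 * (‖w‖ * p.1.re / 8) / ‖w‖ = p.1.re
    field_simp
  · show 8 * (‖w‖ * p.1.im / 8) / ‖w‖ = p.1.im
    field_simp
  · show ‖w‖ * p.2 / ‖w‖ = p.2
    field_simp

theorem Wc_zero (m : Fin 5) : Wc m 0 = 0 := by
  apply Complex.ext <;> simp [Wc]

theorem stmt_C1 : Stmt_C1 := by
  intro m hm w hw p
  refine ⟨C1_Wc m hm w p, C1_Pc m hm w hw p, ?_⟩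
  intro h
  apply hw
  rw [← C1_Wc m hm w p, h, Wc_zero]

theorem C1_five (m : Fin 5) (hm : m ≠ 0) (i : Fin 5) :
    i = 0 ∨ i = m ∨ i = 2 * m ∨ i = 3 * m ∨ i = 4 * m := by
  revert m i
  decide

theorem stmt_C2 : Stmt_C2 := by
  intro m hm x hw
  have hn : ‖Wc m x‖ ≠ 0 := norm_ne_zero_iff.2 hw
  obtain ⟨e0, e2, e3, e4, e1⟩ := C1_coord m hm (Wc m x) (Pc m x)
  ext i
  rcases C1_five m hm i with rfl | rfl | rfl | rfl | rfl
  · rw [e0]
    show ‖Wc m x‖ * (8 * x 0 / ‖Wc m x‖) / 8 = x 0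
    field_simp
  · rw [e1]
    show ‖Wc i x‖ * (x i / ‖Wc i x‖) = x i
    field_simp
  · rw [e2]
    show ‖Wc m x‖ * (8 * x (2 * m) / ‖Wc m x‖) / 8 = x (2 * m)
    field_simp
  · rw [e3]
    show 7 * x (3 * m) / 7 = x (3 * m)
    ring
  · rw [e4]
    show 6 * x (4 * m) / 6 = x (4 * m)
    ring

theorem C3_Wc (m : Fin 5) (t : ℝ) (x : E5) : Wc m (t • x) = t • Wc m x := by
  apply Complex.ext
  · simp only [Wc, PiLp.smul_apply, smul_eq_mul, Complex.smul_re]; ring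
  · simp only [Wc, PiLp.smul_apply, smul_eq_mul, Complex.smul_im]; ring

theorem C3_Pc (m : Fin 5) (t : ℝ) (ht : 0 < t) (x : E5) : Pc m (t • x) = Pc m x := by
  have hn : ‖Wc m (t • x)‖ = t * ‖Wc m x‖ := by
    rw [C3_Wc, norm_smul, Real.norm_of_nonneg ht.le]
  have key : ∀ a : ℝ, t * a / (t * ‖Wc m x‖) = a / ‖Wc m x‖ := fun a =>
    mul_div_mul_left _ _ ht.ne'
  simp only [Pc, hn, PiLp.smul_apply, smul_eq_mul]
  refine Prod.ext (Complex.ext ?_ ?_) ?_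
  · show 8 * (t * x (2 * m)) / (t * ‖Wc m x‖) = 8 * x (2 * m) / ‖Wc m x‖
    rw [← key]; ring_nf
  · show 8 * (t * x 0) / (t * ‖Wc m x‖) = 8 * x 0 / ‖Wc m x‖
    rw [← key]; ring_nf
  · show t * x m / (t * ‖Wc m x‖) = x m / ‖Wc m x‖
    rw [← key]

theorem stmt_C3 : Stmt_C3 := by
  intro m hm t ht
  refine ⟨?_, fun x => ⟨C3_Wc m t x, C3_Pc m t ht x⟩⟩
  intro w p
  obtain ⟨e0, e2, e3, e4, e1⟩ := C1_coord m hm (t • w) p
  obtain ⟨f0, f2, f3, f4, f1⟩ := C1_coord m hm w p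
  have hn : ‖t • w‖ = t * ‖w‖ := by rw [norm_smul, Real.norm_of_nonneg ht.le]
  ext i
  rcases C1_five m hm i with rfl | rfl | rfl | rfl | rfl
  · rw [PiLp.smul_apply, e0, f0, hn, smul_eq_mul]; ring
  · rw [PiLp.smul_apply, e1, f1, hn, smul_eq_mul]; ring
  · rw [PiLp.smul_apply, e2, f2, hn, smul_eq_mul]; ring
  · rw [PiLp.smul_apply, e3, f3, smul_eq_mul, Complex.smul_re, smul_eq_mul]; ring
  · rw [PiLp.smul_apply, e4, f4, smul_eq_mul, Complex.smul_im, smul_eq_mul]; ring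

end Pool.KT
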