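import Pool.Agent.Work.MP_70ab54_kt.C7

/-!
# MP_70ab54, blocks C10, C11: signs near the tori, disjointness of the tori (helper83)
-/

set_option autoImplicit false

namespace Pool.KT

open Set Topology

/-- the curved form near a torus, negative case; `u2` is the large coordinate on the side of
`R`, `u1` is small -/
theorem C10_neg (u1 u2 u3 u4 : ℝ) (h1 : 0 ≤ u1) (h2 : 0 ≤ u2) (h3 : 0 ≤ u3) (h4 : 0 ≤ u4)
    (hB : 0 < 49 * u3 + 36 * u4)
    (ha : 9801 / 10000 * (49 * u3 + 36 * u4) < 64 * u2)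
    (hb : u1 < 1 / 10000 * (49 * u3 + 36 * u4)) :
    (u1 + u4) ^ 2 - (u2 + u3) ^ 2 + 3 / 2 * ((u1 - u4) * (u2 - u3)) < 0 := by
  have a2 := mul_nonneg (sub_nonneg.2 ha.le) h2
  have a3 := mul_nonneg (sub_nonneg.2 ha.le) h3
  have a4 := mul_nonneg (sub_nonneg.2 ha.le) h4
  have b1 := mul_nonneg (sub_nonneg.2 hb.le) h1
  have b2 := mul_nonneg (sub_nonneg.2 hb.le) h2
  have b3 := mul_nonneg (sub_nonneg.2 hb.le) h3
  have b4 := mul_nonneg (sub_nonneg.2 hb.le) h4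
  have c13 := mul_nonneg h1 h3
  have c14 := mul_nonneg h1 h4
  have c34 := mul_nonneg h3 h4
  have c23 := mul_nonneg h2 h3
  have c24 := mul_nonneg h2 h4
  have hp : 0 < u3 ^ 2 + u4 ^ 2 := by
    rcases h3.lt_or_eq with h | h
    · positivity
    · rcases h4.lt_or_eq with h' | h'
      · positivity
      · rw [← h, ← h'] at hB; norm_num at hB
  nlinarith

theorem qf_zero (u : Fin 5 → ℝ) :
    qf 0 u = (u 1 + u 4) ^ 2 - (u 2 + u 3) ^ 2 + 3 / 2 * ((u 1 - u 4) * (u 2 - u 3)) := by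
  simp [qf]

theorem qf_one (u : Fin 5 → ℝ) : qf 1 u = 64 * (u 0 + u 2) - 49 * u 3 - 36 * u 4 := by
  rw [qf_of_ne (by decide)]; rfl

theorem qf_two (u : Fin 5 → ℝ) : qf 2 u = 64 * (u 0 + u 4) - 49 * u 1 - 36 * u 3 := by
  rw [qf_of_ne (by decide)]; rfl

theorem qf_three (u : Fin 5 → ℝ) : qf 3 u = 64 * (u 0 + u 1) - 49 * u 4 - 36 * u 2 := by
  rw [qf_of_ne (by decide)]; rfl

theorem qf_four (u : Fin 5 → ℝ) : qf 4 u = 64 * (u 0 + u 3) - 49 * u 2 - 36 * u 1 := by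
  rw [qf_of_ne (by decide)]; rfl

theorem sq_zero' {x : E5} {i : Fin 5} (h : x i = 0) : sq x i = 0 := by
  unfold sq; rw [h]; norm_num

theorem C10_zero (m : Fin 5) (hm : m ≠ 0) (x : E5) (hx : x ∈ Nn m dd) (h0 : x 0 = 0) :
    (m ∉ edge (0, true) → 0 < qf 0 (sq x)) ∧ (m ∈ edge (0, true) → qf 0 (sq x) < 0) := by
  have e0 := sq_zero' h0
  obtain ⟨-, u1, u2, u3, u4⟩ := C7_nn x
  have hN := C7_Nn hx
  revert hN hm
  have key : ∀ m : Fin 5, m ≠ 0 → (0 < 49 * sq x (3 * m) + 36 * sq x (4 * m) ∧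
    9801 / 10000 * (49 * sq x (3 * m) + 36 * sq x (4 * m)) < 64 * (sq x 0 + sq x (2 * m)) ∧
    64 * (sq x 0 + sq x (2 * m)) <
      10201 / 10000 * (49 * sq x (3 * m) + 36 * sq x (4 * m)) ∧
    sq x m < 1 / 10000 * (49 * sq x (3 * m) + 36 * sq x (4 * m))) →
    (m ∉ edge (0, true) → 0 < qf 0 (sq x)) ∧ (m ∈ edge (0, true) → qf 0 (sq x) < 0) := by
    refine C7_cases ?_ ?_ ?_ ?_
    · rintro ⟨b1, b2, b3, b4⟩
      simp only [C7_m1, e0, zero_add] at b1 b2 b3 b4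
      refine ⟨fun h => absurd (by decide) h, fun _ => ?_⟩
      rw [qf_zero]
      exact C10_neg _ _ _ _ u1 u2 u3 u4 b1 b2 b4
    · rintro ⟨b1, b2, b3, b4⟩
      simp only [C7_m2, e0, zero_add] at b1 b2 b3 b4
      refine ⟨fun _ => ?_, fun h => absurd h (by decide)⟩
      rw [qf_zero]
      have := C10_neg _ _ _ _ u2 u4 u1 u3 b1 b2 b4
      linarith
    · rintro ⟨b1, b2, b3, b4⟩
      simp only [C7_m3, e0, zero_add] at b1 b2 b3 b4
      refine ⟨fun _ => ?_, fun h => absurd h (by decide)⟩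
      rw [qf_zero]
      have := C10_neg _ _ _ _ u3 u1 u4 u2 b1 b2 b4
      linarith
    · rintro ⟨b1, b2, b3, b4⟩
      simp only [C7_m4, e0, zero_add] at b1 b2 b3 b4
      refine ⟨fun h => absurd (by decide) h, fun _ => ?_⟩
      rw [qf_zero]
      have := C10_neg _ _ _ _ u4 u3 u2 u1 b1 b2 b4
      linarith
  exact fun hm hN => key m hm hN

theorem C10_key (j : Fin 5) (hj : j ≠ 0) (x : E5) (h0 : x j = 0) (m : Fin 5) (hm : m ≠ 0)
    (hmj : j ≠ m) (hx : x ∈ Nn m dd) :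
    (m ∉ edge (j, true) → 0 < qf j (sq x)) ∧ (m ∈ edge (j, true) → qf j (sq x) < 0) := by
  have e0 := sq_zero' h0
  obtain ⟨u0, u1, u2, u3, u4⟩ := C7_nn x
  have hN := C7_Nn hx
  clear hx h0
  revert m
  revert j
  refine C7_cases ?_ ?_ ?_ ?_
  · intro e0
    refine C7_cases ?_ ?_ ?_ ?_
    · exact fun h => absurd rfl h
    · rintro - ⟨b1, b2, b3, b4⟩
      simp only [C7_m2] at b1 b2 b3 b4
      refine ⟨fun h => absurd (by decide) h, fun _ => ?_⟩
      rw [qf_one]; linarith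
    · rintro - ⟨b1, b2, b3, b4⟩
      simp only [C7_m3] at b1 b2 b3 b4
      refine ⟨fun _ => ?_, fun h => absurd h (by decide)⟩
      rw [qf_one]; linarith
    · rintro - ⟨b1, b2, b3, b4⟩
      simp only [C7_m4] at b1 b2 b3 b4
      refine ⟨fun _ => ?_, fun h => absurd h (by decide)⟩
      rw [qf_one]; linarith
  · intro e0
    refine C7_cases ?_ ?_ ?_ ?_
    · rintro - ⟨b1, b2, b3, b4⟩
      simp only [C7_m1] at b1 b2 b3 b4
      refine ⟨fun _ => ?_, fun h => absurd h (by decide)⟩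
      rw [qf_two]; linarith
    · exact fun h => absurd rfl h
    · rintro - ⟨b1, b2, b3, b4⟩
      simp only [C7_m3] at b1 b2 b3 b4
      refine ⟨fun _ => ?_, fun h => absurd h (by decide)⟩
      rw [qf_two]; linarith
    · rintro - ⟨b1, b2, b3, b4⟩
      simp only [C7_m4] at b1 b2 b3 b4
      refine ⟨fun h => absurd (by decide) h, fun _ => ?_⟩
      rw [qf_two]; linarith
  · intro e0
    refine C7_cases ?_ ?_ ?_ ?_
    · rintro - ⟨b1, b2, b3, b4⟩
      simp only [C7_m1] at b1 b2 b3 b4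
      refine ⟨fun h => absurd (by decide) h, fun _ => ?_⟩
      rw [qf_three]; linarith
    · rintro - ⟨b1, b2, b3, b4⟩
      simp only [C7_m2] at b1 b2 b3 b4
      refine ⟨fun _ => ?_, fun h => absurd h (by decide)⟩
      rw [qf_three]; linarith
    · exact fun h => absurd rfl h
    · rintro - ⟨b1, b2, b3, b4⟩
      simp only [C7_m4] at b1 b2 b3 b4
      refine ⟨fun _ => ?_, fun h => absurd h (by decide)⟩
      rw [qf_three]; linarith
  · intro e0
    refine C7_cases ?_ ?_ ?_ ?_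
    · rintro - ⟨b1, b2, b3, b4⟩
      simp only [C7_m1] at b1 b2 b3 b4
      refine ⟨fun _ => ?_, fun h => absurd h (by decide)⟩
      rw [qf_four]; linarith
    · rintro - ⟨b1, b2, b3, b4⟩
      simp only [C7_m2] at b1 b2 b3 b4
      refine ⟨fun _ => ?_, fun h => absurd h (by decide)⟩
      rw [qf_four]; linarith
    · rintro - ⟨b1, b2, b3, b4⟩
      simp only [C7_m3] at b1 b2 b3 b4
      refine ⟨fun h => absurd (by decide) h, fun _ => ?_⟩
      rw [qf_four]; linarith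
    · exact fun h => absurd rfl h

theorem stmt_C10 : Stmt_C10 := by
  intro m hm x hx j hj h0
  rcases eq_or_ne j 0 with rfl | hj0
  · exact C10_zero m hm x hx h0
  · exact C10_key j hj0 x h0 m hm hj hx

theorem C11_sub (m : Fin 5) (hm : m ≠ 0) : Tor m ⊆ Nn m dd := by
  intro x hx
  obtain ⟨hw, h1, h2⟩ := ((stmt_C5 m hm x).2).1 hx
  refine ⟨hw, ?_, ?_, ?_⟩
  · rw [h1]; unfold dd; norm_num
  · rw [h1]; unfold dd; norm_num
  · rw [h2]; unfold dd; norm_num

theorem C11_Nn_Tor (m n : Fin 5) (hm : m ≠ 0) (hmn : m ≠ n) :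
    Disjoint (Nn m dd) (Tor n) := by
  rw [Set.disjoint_left]
  rintro x hx ⟨-, h0, hq⟩
  obtain ⟨g1, g2⟩ := stmt_C10 m hm x hx n hmn.symm h0
  by_cases h : m ∈ edge (n, true)
  · exact absurd hq (g2 h).ne
  · exact absurd hq (g1 h).ne'

theorem Nn_sub_Om (m : Fin 5) (d : ℝ) : Nn m d ⊆ Om m d := fun _ hx => ⟨hx.1, hx.2.2.1, hx.2.2.2⟩

theorem stmt_C11 : Stmt_C11 := by
  refine ⟨?_, C11_sub, C11_Nn_Tor, ?_⟩
  · intro m n hmn
    rcases eq_or_ne m 0 with rfl | hm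
    · exact (C11_Nn_Tor n 0 hmn.symm hmn.symm).symm.mono_right (C11_sub n hmn.symm)
    · exact (C11_Nn_Tor m n hm hmn).mono_left (C11_sub m hm)
  · intro m n hm hn hmn
    have : n = 2 * m ∨ n = 3 * m ∨ n = 4 * m := by revert m n; decide
    rcases this with rfl | rfl | rfl
    · have h1 := stmt_C8 (2 * m) hn
      have e : ∀ k : Fin 5, 3 * (2 * k) = k := by decide
      rw [e m] at h1
      exact h1.symm.mono_right (Nn_sub_Om _ _)
    · exact (stmt_C8 m hm).mono_left (Nn_sub_Om _ _)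
    · exact ((stmt_C7 m hm).mono_left (Nn_sub_Om _ _)).mono_right (Nn_sub_Om _ _)

end Pool.KT
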