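import Pool.Agent.Work.MP_70ab54_kt.InterfaceC

set_option autoImplicit false

namespace Pool.KT

open Set Topology

/-- numerator of the `v`-coordinate -/
noncomputable def C12F (m : Fin 5) (x : E5) : ℂ := ⟨8 * x (2 * m), 8 * x 0⟩

lemma C12_mk_cont {f g : E5 → ℝ} (hf : Continuous f) (hg : Continuous g) :
    Continuous (fun x => (⟨f x, g x⟩ : ℂ)) := by
  have : (fun x => (⟨f x, g x⟩ : ℂ)) = fun x => ((f x : ℝ) : ℂ) + ((g x : ℝ) : ℂ) * Complex.I := by
    funext x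
    exact Complex.mk_eq_add_mul_I _ _
  rw [this]
  fun_prop

lemma C12_W_cont (m : Fin 5) : Continuous (Wc m) := by
  unfold Wc
  exact C12_mk_cont (by fun_prop) (by fun_prop)

lemma C12_F_cont (m : Fin 5) : Continuous (C12F m) := by
  unfold C12F
  exact C12_mk_cont (by fun_prop) (by fun_prop)

lemma C12_P1 (m : Fin 5) (x : E5) : ‖(Pc m x).1‖ = ‖C12F m x‖ / ‖Wc m x‖ := by
  have h : (Pc m x).1 = C12F m x / ((‖Wc m x‖ : ℝ) : ℂ) := by
    apply Complex.ext
    · rw [Complex.div_ofReal_re]; rfl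
    · rw [Complex.div_ofReal_im]; rfl
  rw [h, norm_div, Complex.norm_real, norm_norm]

lemma C12_P2 (m : Fin 5) (x : E5) : |(Pc m x).2| = |x m| / ‖Wc m x‖ := by
  show |x m / ‖Wc m x‖| = _
  rw [abs_div, abs_norm]

lemma C12_Om (m : Fin 5) (d : ℝ) : Om m d = {x | Wc m x ≠ 0 ∧ ‖C12F m x‖ < (1 + d) * ‖Wc m x‖ ∧
    |x m| < d * ‖Wc m x‖} := by
  ext x
  simp only [Om, mem_ofPred_eq, C12_P1, C12_P2]
  constructor
  · rintro ⟨h, h1, h2⟩
    have hp : 0 < ‖Wc m x‖ := norm_pos_iff.2 h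
    exact ⟨h, (div_lt_iff₀ hp).1 h1, (div_lt_iff₀ hp).1 h2⟩
  · rintro ⟨h, h1, h2⟩
    have hp : 0 < ‖Wc m x‖ := norm_pos_iff.2 h
    exact ⟨h, (div_lt_iff₀ hp).2 h1, (div_lt_iff₀ hp).2 h2⟩

lemma C12_Nn (m : Fin 5) (d : ℝ) : Nn m d = {x | Wc m x ≠ 0 ∧
    (1 - d) * ‖Wc m x‖ < ‖C12F m x‖ ∧ ‖C12F m x‖ < (1 + d) * ‖Wc m x‖ ∧
    |x m| < d * ‖Wc m x‖} := by
  ext x
  simp only [Nn, mem_ofPred_eq, C12_P1, C12_P2]
  constructor
  · rintro ⟨h, h0, h1, h2⟩
    have hp : 0 < ‖Wc m x‖ := norm_pos_iff.2 h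
    exact ⟨h, (lt_div_iff₀ hp).1 h0, (div_lt_iff₀ hp).1 h1, (div_lt_iff₀ hp).1 h2⟩
  · rintro ⟨h, h0, h1, h2⟩
    have hp : 0 < ‖Wc m x‖ := norm_pos_iff.2 h
    exact ⟨h, (lt_div_iff₀ hp).2 h0, (div_lt_iff₀ hp).2 h1, (div_lt_iff₀ hp).2 h2⟩

lemma C12_qf_cont (m : Fin 5) : Continuous (fun x : E5 => qf m (sq x)) := by
  unfold qf sq
  by_cases hm : m = 0
  · simp only [hm, if_true]; fun_prop
  · simp only [hm, if_false]; fun_prop

lemma C12_tor (m : Fin 5) : Tor m ∪ {0} = {x | x m = 0 ∧ qf m (sq x) = 0} := by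
  ext x
  simp only [Tor, mem_union, mem_ofPred_eq, mem_singleton_iff]
  constructor
  · rintro (⟨_, h⟩ | h)
    · exact h
    · subst h
      refine ⟨rfl, ?_⟩
      unfold qf sq
      split_ifs <;> simp
  · intro h
    by_cases hx : x = 0
    · exact Or.inr hx
    · exact Or.inl ⟨hx, h⟩

lemma C12_torc (m : Fin 5) : IsClosed (Tor m ∪ {0}) := by
  rw [C12_tor]
  have h1 : IsClosed {x : E5 | x m = 0} :=
    isClosed_eq (by fun_prop) continuous_const
  have h2 : IsClosed {x : E5 | qf m (sq x) = 0} := isClosed_eq (C12_qf_cont m) continuous_const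
  exact h1.inter h2

lemma C12_Mt : IsOpen Mt := by
  have h : Mt = ⋂ m : Fin 5, (Tor m ∪ {0})ᶜ := by
    ext x
    simp only [Mt, mem_ofPred_eq, mem_iInter, mem_compl_iff, mem_union, mem_singleton_iff, not_or]
    constructor
    · rintro ⟨h1, h2⟩ m
      exact ⟨h2 m, h1⟩
    · intro h
      exact ⟨(h 0).2, fun m => (h m).1⟩
  rw [h]
  exact isOpen_iInter_of_finite fun m => (C12_torc m).isOpen_compl

/-- all coordinates vanish -/
lemma C12_zero (m : Fin 5) (hm : m ≠ 0) (x : E5) (hW : Wc m x = 0) (hF : C12F m x = 0)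
    (h : x m = 0) : x = 0 := by
  have a1 := congrArg Complex.re hW
  have a2 := congrArg Complex.im hW
  have a3 := congrArg Complex.re hF
  have a4 := congrArg Complex.im hF
  simp only [Wc, C12F, Complex.zero_re, Complex.zero_im] at a1 a2 a3 a4
  have b1 : x (3 * m) = 0 := by linarith
  have b2 : x (4 * m) = 0 := by linarith
  have b3 : x (2 * m) = 0 := by linarith
  have b4 : x 0 = 0 := by linarith
  have key : ∀ m : Fin 5, m ≠ 0 → ∀ i : Fin 5, i = 0 ∨ i = m ∨ i = 2 * m ∨ i = 3 * m ∨ i = 4 * m := by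
    decide
  ext i
  rcases key m hm i with hi | hi | hi | hi | hi <;> rw [hi]
  · exact b4
  · exact h
  · exact b3
  · exact b1
  · exact b2

theorem stmt_C12 : Stmt_C12 := by
  refine ⟨C12_torc, C12_Mt, ?_, ?_⟩
  · intro m _ d
    have hW := (C12_W_cont m)
    have hF := (C12_F_cont m)
    have h0 : IsOpen {x : E5 | Wc m x ≠ 0} := isOpen_ne_fun hW continuous_const
    have h1 : IsOpen {x : E5 | ‖C12F m x‖ < (1 + d) * ‖Wc m x‖} :=
      isOpen_lt hF.norm (continuous_const.mul hW.norm)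
    have h2 : IsOpen {x : E5 | |x m| < d * ‖Wc m x‖} :=
      isOpen_lt (by fun_prop) (continuous_const.mul hW.norm)
    have h3 : IsOpen {x : E5 | (1 - d) * ‖Wc m x‖ < ‖C12F m x‖} :=
      isOpen_lt (continuous_const.mul hW.norm) hF.norm
    rw [C12_Om, C12_Nn]
    exact ⟨h0.inter (h1.inter h2), h0.inter (h3.inter (h1.inter h2))⟩
  · intro m hm d d' hd hdd
    have hW := (C12_W_cont m)
    have hF := (C12_F_cont m)
    have hc : IsClosed ({x : E5 | ‖C12F m x‖ ≤ (1 + d) * ‖Wc m x‖} ∩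
        {x : E5 | |x m| ≤ d * ‖Wc m x‖}) :=
      (isClosed_le hF.norm (continuous_const.mul hW.norm)).inter
        (isClosed_le (by fun_prop) (continuous_const.mul hW.norm))
    have hsub : Om m d ⊆ ({x : E5 | ‖C12F m x‖ ≤ (1 + d) * ‖Wc m x‖} ∩
        {x : E5 | |x m| ≤ d * ‖Wc m x‖}) := by
      rw [C12_Om]
      rintro x ⟨_, h1, h2⟩
      exact ⟨h1.le, h2.le⟩
    intro x hx
    obtain ⟨h1, h2⟩ := closure_minimal hsub hc hx
    simp only [mem_ofPred_eq] at h1 h2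
    by_cases hw : Wc m x = 0
    · right
      rw [hw, norm_zero, mul_zero] at h1 h2
      exact C12_zero m hm x hw (norm_le_zero_iff.1 h1) (abs_nonpos_iff.1 h2)
    · left
      have hp : 0 < ‖Wc m x‖ := norm_pos_iff.2 hw
      rw [C12_Om]
      refine ⟨hw, ?_, ?_⟩
      · calc _ ≤ _ := h1
          _ < _ := by nlinarith
      · calc _ ≤ _ := h2
          _ < _ := by nlinarith

end Pool.KT
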