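import Pool.Agent.Work.MP_70ab54_kt.InterfaceC

set_option autoImplicit false

namespace Pool.KT

open Set Topology

lemma C13_apply (i j : Fin 5) (x : E5) : refl i x j = if j = i then - x j else x j := rfl

lemma C13_sq (i : Fin 5) (x : E5) : sq (refl i x) = sq x := by
  funext j
  simp only [sq, C13_apply]
  split_ifs <;> ring

lemma C13_invol (i : Fin 5) (x : E5) : refl i (refl i x) = x := by
  ext j
  simp only [C13_apply]
  split_ifs <;> ring

lemma C13_fix (i : Fin 5) (x : E5) : refl i x = x ↔ x i = 0 := by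
  constructor
  · intro h
    have h1 := congrArg (fun y : E5 => y i) h
    simp only [C13_apply, if_true] at h1
    linarith
  · intro h
    ext j
    simp only [C13_apply]
    split_ifs with hj
    · subst hj; rw [h]; ring
    · rfl

lemma C13_norm (i : Fin 5) (x : E5) : ‖refl i x‖ = ‖x‖ := by
  rw [EuclideanSpace.norm_eq, EuclideanSpace.norm_eq]
  congr 1
  refine Finset.sum_congr rfl fun j _ => ?_
  rw [Real.norm_eq_abs, Real.norm_eq_abs, sq_abs, sq_abs]
  exact congrFun (C13_sq i x) j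

lemma C13_cont (i : Fin 5) : Continuous (refl i) := by
  unfold refl
  refine (PiLp.continuous_toLp 2 _).comp (continuous_pi fun j => ?_)
  by_cases hj : j = i
  · simp only [hj, if_true]; fun_prop
  · simp only [hj, if_false]; fun_prop

lemma C13_ne (i : Fin 5) (x : E5) : refl i x ≠ 0 ↔ x ≠ 0 := by
  have h : ‖refl i x‖ ≠ 0 ↔ ‖x‖ ≠ 0 := by rw [C13_norm]
  rwa [norm_ne_zero_iff, norm_ne_zero_iff] at h

lemma C13_tor (i m : Fin 5) (x : E5) : x ∈ Tor m ↔ refl i x ∈ Tor m := by
  have h1 : refl i x m = 0 ↔ x m = 0 := by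
    rw [C13_apply]; split_ifs <;> simp
  simp only [Tor, mem_ofPred_eq, C13_ne, h1, C13_sq]

lemma C13_w (i m : Fin 5) (x : E5) : ‖Wc m (refl i x)‖ = ‖Wc m x‖ := by
  rw [Complex.norm_def, Complex.norm_def]
  congr 1
  simp only [Complex.normSq_apply, Wc, C13_apply]
  split_ifs <;> ring

lemma C13_p (i m : Fin 5) (x : E5) : ‖(Pc m (refl i x)).1‖ = ‖(Pc m x).1‖ ∧
    |(Pc m (refl i x)).2| = |(Pc m x).2| := by
  constructor
  · rw [Complex.norm_def, Complex.norm_def]
    congr 1
    simp only [Complex.normSq_apply, Pc, C13_w, C13_apply]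
    split_ifs <;> ring
  · simp only [Pc, C13_w, C13_apply]
    split_ifs
    · rw [neg_div, abs_neg]
    · rfl

theorem stmt_C13 : Stmt_C13 := by
  intro i
  refine ⟨C13_invol i, C13_sq i, C13_fix i, C13_norm i, C13_cont i, fun m x => C13_tor i m x, ?_,
    fun m _ x => ⟨C13_w i m x, (C13_p i m x).1, (C13_p i m x).2⟩⟩
  intro x
  simp only [Mt, mem_ofPred_eq, C13_ne]
  constructor
  · rintro ⟨h1, h2⟩
    exact ⟨h1, fun m hm => h2 m ((C13_tor i m x).2 hm)⟩
  · rintro ⟨h1, h2⟩
    exact ⟨h1, fun m hm => h2 m ((C13_tor i m x).1 hm)⟩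

end Pool.KT
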