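import Pool.Agent.Work.MP_70ab54_kt.InterfaceC

/-!
# Block C4: smoothness of the charts
-/

set_option autoImplicit false

namespace Pool.KT

open Set Topology

theorem C4_mk {E : Type} [NormedAddCommGroup E] [NormedSpace ℝ E] {f g : E → ℝ} {s : Set E}
    (hf : ContDiffOn ℝ ((⊤ : ℕ∞) : WithTop ℕ∞) f s)
    (hg : ContDiffOn ℝ ((⊤ : ℕ∞) : WithTop ℕ∞) g s) :
    ContDiffOn ℝ ((⊤ : ℕ∞) : WithTop ℕ∞) (fun x => (⟨f x, g x⟩ : ℂ)) s :=
  (Complex.equivRealProdCLM.symm.contDiff).comp_contDiffOn (hf.prodMk hg)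

theorem C4_coord (i : Fin 5) (s : Set E5) :
    ContDiffOn ℝ ((⊤ : ℕ∞) : WithTop ℕ∞) (fun x : E5 => x i) s :=
  (contDiff_euclidean.mp contDiff_id i).contDiffOn

theorem C4_W (m : Fin 5) (s : Set E5) :
    ContDiffOn ℝ ((⊤ : ℕ∞) : WithTop ℕ∞) (Wc m) s :=
  C4_mk (contDiffOn_const.mul (C4_coord _ s)) (contDiffOn_const.mul (C4_coord _ s))

theorem stmt_C4 : Stmt_C4 := by
  intro m _
  refine ⟨?_, ?_, ?_⟩
  · rw [contDiffOn_euclidean]
    intro i
    have hn : ContDiffOn ℝ ((⊤ : ℕ∞) : WithTop ℕ∞) (fun q : ℂ × R3 => ‖q.1‖) {q | q.1 ≠ 0} := by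
      intro q hq
      exact ((contDiffAt_norm ℝ hq).comp q contDiffAt_fst).contDiffWithinAt
    have h1 : ContDiff ℝ ((⊤ : ℕ∞) : WithTop ℕ∞) (fun q : ℂ × R3 => q.2.1) :=
      contDiff_fst.comp contDiff_snd
    have h2 : ContDiff ℝ ((⊤ : ℕ∞) : WithTop ℕ∞) (fun q : ℂ × R3 => q.2.2) :=
      contDiff_snd.comp contDiff_snd
    have hre : ContDiff ℝ ((⊤ : ℕ∞) : WithTop ℕ∞) (fun z : ℂ => z.re) := Complex.reCLM.contDiff
    have him : ContDiff ℝ ((⊤ : ℕ∞) : WithTop ℕ∞) (fun z : ℂ => z.im) := Complex.imCLM.contDiff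
    by_cases c0 : i = 0
    · refine ContDiffOn.congr ((hn.mul (him.comp h1).contDiffOn).div_const 8) fun q _ => ?_
      simp [Psi, c0]
    by_cases c1 : i = 2 * m
    · refine ContDiffOn.congr ((hn.mul (hre.comp h1).contDiffOn).div_const 8) fun q _ => ?_
      have : ¬ (2 * m = 0) := fun h => c0 (c1.trans h)
      simp [Psi, c1, this]
    by_cases c2 : i = 3 * m
    · refine ContDiffOn.congr (((hre.comp contDiff_fst).contDiffOn).div_const 7) fun q _ => ?_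
      have e0 : ¬ (3 * m = 0) := fun h => c0 (c2.trans h)
      have e1 : ¬ (3 * m = 2 * m) := fun h => c1 (c2.trans h)
      simp [Psi, c2, e0, e1]
    by_cases c3 : i = 4 * m
    · refine ContDiffOn.congr (((him.comp contDiff_fst).contDiffOn).div_const 6) fun q _ => ?_
      have e0 : ¬ (4 * m = 0) := fun h => c0 (c3.trans h)
      have e1 : ¬ (4 * m = 2 * m) := fun h => c1 (c3.trans h)
      have e2 : ¬ (4 * m = 3 * m) := fun h => c2 (c3.trans h)
      simp [Psi, c3, e0, e1, e2]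
    · refine ContDiffOn.congr (hn.mul h2.contDiffOn) fun q _ => ?_
      simp [Psi, c0, c1, c2, c3]
  · rw [← contDiffOn_univ]
    exact C4_W m univ
  · have hn : ContDiffOn ℝ ((⊤ : ℕ∞) : WithTop ℕ∞) (fun x : E5 => ‖Wc m x‖)
        {x | Wc m x ≠ 0} := by
      intro x hx
      have h1 := (C4_W m univ).contDiffAt (x := x) Filter.univ_mem
      exact ((contDiffAt_norm ℝ hx).comp x h1).contDiffWithinAt
    have hne : ∀ x ∈ {x : E5 | Wc m x ≠ 0}, ‖Wc m x‖ ≠ 0 := fun x hx => norm_ne_zero_iff.mpr hx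
    exact (C4_mk ((contDiffOn_const.mul (C4_coord _ _)).div hn hne)
      ((contDiffOn_const.mul (C4_coord _ _)).div hn hne)).prodMk ((C4_coord _ _).div hn hne)

end Pool.KT
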