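import Pool.Agent.Work.MP_70ab54_kt.InterfaceC

/-!
# MP_70ab54, blocks C6, C5, C18: squares in the charts (helper83)
-/

set_option autoImplicit false

namespace Pool.KT

open Set Topology

theorem C6_norm_Wc (m : Fin 5) (x : E5) :
    ‖Wc m x‖ ^ 2 = 49 * sq x (3 * m) + 36 * sq x (4 * m) := by
  rw [Complex.sq_norm, Complex.normSq_apply]
  simp only [Wc, sq]
  ring

theorem C6_norm_Pc (m : Fin 5) (x : E5) (hw : Wc m x ≠ 0) :
    ‖(Pc m x).1‖ ^ 2 * ‖Wc m x‖ ^ 2 = 64 * (sq x 0 + sq x (2 * m)) := by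
  have hn : ‖Wc m x‖ ≠ 0 := norm_ne_zero_iff.2 hw
  rw [Complex.sq_norm, Complex.normSq_apply]
  simp only [Pc, sq]
  field_simp
  ring

theorem C6_snd_Pc (m : Fin 5) (x : E5) (hw : Wc m x ≠ 0) :
    (Pc m x).2 ^ 2 * ‖Wc m x‖ ^ 2 = sq x m := by
  have hn : ‖Wc m x‖ ≠ 0 := norm_ne_zero_iff.2 hw
  simp only [Pc, sq]
  field_simp

theorem stmt_C6 : Stmt_C6 := by
  intro m _ x hw
  have hn : 0 < ‖Wc m x‖ ^ 2 := by
    have := norm_pos_iff.2 hw
    positivity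
  have h1 := C6_norm_Wc m x
  refine ⟨h1, by rw [← h1]; exact hn, ?_, ?_⟩
  · rw [← h1]; exact C6_norm_Pc m x hw
  · rw [← h1]; exact C6_snd_Pc m x hw

theorem qf_of_ne {m : Fin 5} (hm : m ≠ 0) (u : Fin 5 → ℝ) :
    qf m u = 64 * (u 0 + u (2 * m)) - 49 * u (3 * m) - 36 * u (4 * m) := by
  simp [qf, hm]

theorem C6_five (m : Fin 5) (hm : m ≠ 0) (i : Fin 5) :
    i = 0 ∨ i = m ∨ i = 2 * m ∨ i = 3 * m ∨ i = 4 * m := by
  revert m i
  decide

theorem stmt_C5 : Stmt_C5 := by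
  intro m hm x
  have hq : qf m (sq x) = 64 * (sq x 0 + sq x (2 * m)) - ‖Wc m x‖ ^ 2 := by
    rw [qf_of_ne hm, C6_norm_Wc]; ring
  refine ⟨?_, ?_⟩
  · intro hw
    rw [hq, ← C6_norm_Pc m x hw]; ring
  constructor
  · rintro ⟨hx, hm0, hqz⟩
    have hw : Wc m x ≠ 0 := by
      intro hw
      rw [hq, hw] at hqz
      have h0 : 0 ≤ sq x 0 := sq_nonneg _
      have h2 : 0 ≤ sq x (2 * m) := sq_nonneg _
      rw [norm_zero] at hqz
      have e0 : sq x 0 = 0 := by linarith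
      have e2 : sq x (2 * m) = 0 := by linarith
      have e3 := congrArg Complex.re hw
      have e4 := congrArg Complex.im hw
      simp only [Wc, Complex.zero_re, Complex.zero_im, mul_eq_zero] at e3 e4
      apply hx
      ext i
      simp only [sq] at e0 e2
      rcases C6_five m hm i with rfl | rfl | rfl | rfl | rfl
      · simpa using e0
      · simpa using hm0
      · simpa using e2
      · simpa using e3
      · simpa using e4
    refine ⟨hw, ?_, ?_⟩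
    · have h1 : ‖Wc m x‖ ^ 2 * (‖(Pc m x).1‖ ^ 2 - 1) = 0 := by
        rw [← hqz, hq, ← C6_norm_Pc m x hw]; ring
      have hn : ‖Wc m x‖ ^ 2 ≠ 0 := pow_ne_zero 2 (norm_ne_zero_iff.2 hw)
      have h2 : ‖(Pc m x).1‖ ^ 2 - 1 = 0 := (mul_eq_zero.1 h1).resolve_left hn
      have h3 : 0 ≤ ‖(Pc m x).1‖ := norm_nonneg _
      nlinarith
    · show x m / ‖Wc m x‖ = 0
      rw [hm0, zero_div]
  · rintro ⟨hw, h1, h2⟩
    have hn : ‖Wc m x‖ ≠ 0 := norm_ne_zero_iff.2 hw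
    refine ⟨?_, ?_, ?_⟩
    · rintro rfl
      apply hw
      apply Complex.ext <;> simp [Wc]
    · have h2' : x m / ‖Wc m x‖ = 0 := h2
      exact (div_eq_zero_iff.1 h2').resolve_right hn
    · rw [hq, ← C6_norm_Pc m x hw, h1]; ring

/-- the tube in terms of `A = |v|^2 B`, `B = |w|^2`, `S = s^2 B` -/
theorem C18_aux (e P S B : ℝ) (hB : 0 < B) (v s : ℝ) (hP : P = v ^ 2 * B) (hS : S = s ^ 2 * B) :
    ((2 * s) ^ 2 + (v ^ 2 + s ^ 2 - 1) ^ 2 < e ^ 2 * (v ^ 2 + s ^ 2 + 1) ^ 2) ↔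
      (1 - e ^ 2) * (P + B + S) ^ 2 < 4 * P * B := by
  subst hP hS
  have key : 4 * (v ^ 2 * B) * B - (1 - e ^ 2) * (v ^ 2 * B + B + s ^ 2 * B) ^ 2 =
      B ^ 2 * (e ^ 2 * (v ^ 2 + s ^ 2 + 1) ^ 2 - ((2 * s) ^ 2 + (v ^ 2 + s ^ 2 - 1) ^ 2)) := by
    ring
  have hB2 : 0 < B ^ 2 := by positivity
  constructor
  · intro h
    have h1 := mul_pos hB2 (sub_pos.2 h)
    rw [← key] at h1
    linarith
  · intro h
    have h1 : 0 < B ^ 2 * (e ^ 2 * (v ^ 2 + s ^ 2 + 1) ^ 2 -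
        ((2 * s) ^ 2 + (v ^ 2 + s ^ 2 - 1) ^ 2)) := by
      rw [← key]; linarith
    have h2 := (mul_pos_iff_of_pos_left hB2).1 h1
    linarith

theorem stmt_C18 : Stmt_C18 := by
  intro m _ e he he1 x
  have hn : ‖Wc m x‖ ^ 2 = 49 * sq x (3 * m) + 36 * sq x (4 * m) := C6_norm_Wc m x
  by_cases hw : Wc m x = 0
  · constructor
    · rintro ⟨h, -⟩
      exact absurd hw h
    · intro h
      exfalso
      have h1 : 49 * sq x (3 * m) + 36 * sq x (4 * m) = 0 := by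
        rw [← hn, hw, norm_zero]; norm_num
      rw [h1, mul_zero] at h
      have h2 : 0 ≤ (1 - e ^ 2) := by nlinarith
      have h3 := mul_nonneg h2 (sq_nonneg (64 * (sq x 0 + sq x (2 * m)) + 0 + sq x m))
      linarith
  · have hB : 0 < ‖Wc m x‖ ^ 2 := by
      have := norm_pos_iff.2 hw
      positivity
    have h1 := C18_aux e (64 * (sq x 0 + sq x (2 * m))) (sq x m) (‖Wc m x‖ ^ 2) hB
      ‖(Pc m x).1‖ (Pc m x).2 (C6_norm_Pc m x hw).symm (C6_snd_Pc m x hw).symm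
    rw [← hn, ← h1]
    constructor
    · rintro ⟨-, h⟩
      exact h
    · intro h
      exact ⟨hw, h⟩

end Pool.KT
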