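import Pool.Agent.Work.MP_70ab54_kt.C6

/-!
# MP_70ab54, blocks C7, C8, C9: the disjointness table (helper83)
-/

set_option autoImplicit false

namespace Pool.KT

open Set Topology

/-- the region `Om m dd` in linear form -/
theorem C7_Om {m : Fin 5} {x : E5} (hx : x ∈ Om m dd) :
    0 < 49 * sq x (3 * m) + 36 * sq x (4 * m) ∧
    64 * (sq x 0 + sq x (2 * m)) <
      10201 / 10000 * (49 * sq x (3 * m) + 36 * sq x (4 * m)) ∧
    sq x m < 1 / 10000 * (49 * sq x (3 * m) + 36 * sq x (4 * m)) := by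
  obtain ⟨hw, h1, h2⟩ := hx
  have hn : 0 < ‖Wc m x‖ ^ 2 := by
    have := norm_pos_iff.2 hw
    positivity
  have e1 := C6_norm_Wc m x
  have e2 := C6_norm_Pc m x hw
  have e3 := C6_snd_Pc m x hw
  rw [← e1]
  refine ⟨hn, ?_, ?_⟩
  · rw [← e2]
    refine mul_lt_mul_of_pos_right ?_ hn
    have h3 : 0 ≤ ‖(Pc m x).1‖ := norm_nonneg _
    have h4 : ‖(Pc m x).1‖ < 101 / 100 := by
      have : (1 : ℝ) + dd = 101 / 100 := by unfold dd; norm_num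
      rwa [this] at h1
    nlinarith
  · rw [← e3]
    refine mul_lt_mul_of_pos_right ?_ hn
    have h4 : |(Pc m x).2| < 1 / 100 := h2
    have h5 := abs_nonneg (Pc m x).2
    rw [← sq_abs]
    nlinarith

/-- the region `Nn m dd` in linear form -/
theorem C7_Nn {m : Fin 5} {x : E5} (hx : x ∈ Nn m dd) :
    0 < 49 * sq x (3 * m) + 36 * sq x (4 * m) ∧
    9801 / 10000 * (49 * sq x (3 * m) + 36 * sq x (4 * m)) < 64 * (sq x 0 + sq x (2 * m)) ∧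
    64 * (sq x 0 + sq x (2 * m)) <
      10201 / 10000 * (49 * sq x (3 * m) + 36 * sq x (4 * m)) ∧
    sq x m < 1 / 10000 * (49 * sq x (3 * m) + 36 * sq x (4 * m)) := by
  obtain ⟨hw, h0, h1, h2⟩ := hx
  obtain ⟨g1, g2, g3⟩ := C7_Om (m := m) (x := x) ⟨hw, h1, h2⟩
  refine ⟨g1, ?_, g2, g3⟩
  rw [← C6_norm_Wc m x] at g1 ⊢
  rw [← C6_norm_Pc m x hw]
  refine mul_lt_mul_of_pos_right ?_ g1
  have h4 : 99 / 100 < ‖(Pc m x).1‖ := by
    have : (1 : ℝ) - dd = 99 / 100 := by unfold dd; norm_num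
    rwa [this] at h0
  nlinarith

theorem sq_nonneg' (x : E5) (i : Fin 5) : 0 ≤ sq x i := by
  unfold sq; positivity

/-- all sign conditions -/
theorem C7_nn (x : E5) : 0 ≤ sq x 0 ∧ 0 ≤ sq x 1 ∧ 0 ≤ sq x 2 ∧ 0 ≤ sq x 3 ∧ 0 ≤ sq x 4 :=
  ⟨sq_nonneg' x 0, sq_nonneg' x 1, sq_nonneg' x 2, sq_nonneg' x 3, sq_nonneg' x 4⟩

theorem C7_m1 : (2 * 1 : Fin 5) = 2 ∧ (3 * 1 : Fin 5) = 3 ∧ (4 * 1 : Fin 5) = 4 := by decide
theorem C7_m2 : (2 * 2 : Fin 5) = 4 ∧ (3 * 2 : Fin 5) = 1 ∧ (4 * 2 : Fin 5) = 3 := by decide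
theorem C7_m3 : (2 * 3 : Fin 5) = 1 ∧ (3 * 3 : Fin 5) = 4 ∧ (4 * 3 : Fin 5) = 2 := by decide
theorem C7_m4 : (2 * 4 : Fin 5) = 3 ∧ (3 * 4 : Fin 5) = 2 ∧ (4 * 4 : Fin 5) = 1 := by decide

theorem C7_cases {P : Fin 5 → Prop} (h1 : P 1) (h2 : P 2) (h3 : P 3) (h4 : P 4) :
    ∀ m : Fin 5, m ≠ 0 → P m := by
  intro m hm
  have : m = 1 ∨ m = 2 ∨ m = 3 ∨ m = 4 := by revert m; decide
  rcases this with rfl | rfl | rfl | rfl
  exacts [h1, h2, h3, h4]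

theorem stmt_C7 : Stmt_C7 := by
  unfold Stmt_C7
  refine C7_cases ?_ ?_ ?_ ?_ <;>
  · rw [Set.disjoint_left]
    intro x h h'
    have a := C7_Om h
    have b := C7_Om h'
    simp only [C7_m1, C7_m2, C7_m3, C7_m4] at a b
    obtain ⟨a1, a2, a3⟩ := a
    obtain ⟨b1, b2, b3⟩ := b
    obtain ⟨u0, u1, u2, u3, u4⟩ := C7_nn x
    linarith

theorem stmt_C8 : Stmt_C8 := by
  unfold Stmt_C8
  refine C7_cases ?_ ?_ ?_ ?_ <;>
  · rw [Set.disjoint_left]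
    intro x h h'
    have a := C7_Om h
    have b := C7_Nn h'
    simp only [C7_m1, C7_m2, C7_m3, C7_m4] at a b
    obtain ⟨a1, a2, a3⟩ := a
    obtain ⟨b1, b2, b3, b4⟩ := b
    obtain ⟨u0, u1, u2, u3, u4⟩ := C7_nn x
    linarith

theorem stmt_C9 : Stmt_C9 := by
  unfold Stmt_C9
  refine C7_cases ?_ ?_ ?_ ?_ <;>
  · intro x ⟨h, h'⟩ j hj
    have a := C7_Om h
    have b := C7_Om h'
    simp only [C7_m1, C7_m2, C7_m3, C7_m4] at a b hj ⊢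
    obtain ⟨a1, a2, a3⟩ := a
    obtain ⟨b1, b2, b3⟩ := b
    obtain ⟨u0, u1, u2, u3, u4⟩ := C7_nn x
    have hs : ∀ i, x i ^ 2 = sq x i := fun i => rfl
    rw [hs, hs]
    fin_cases j
    all_goals first
      | exact absurd rfl hj
      | (simp only [Fin.mk_one, Fin.zero_eta, Fin.reduceFinMk]; linarith)

end Pool.KT
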