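import Pool.Agent.Work.MP_70ab54_kt.InterfaceQ

set_option autoImplicit false

namespace Pool.KT

open Set Topology

lemma Q1_qf_cont (m : Fin 5) : Continuous (fun x : E5 => qf m (sq x)) := by
  unfold qf sq
  by_cases hm : m = 0
  · simp only [hm, if_true]; fun_prop
  · simp only [hm, if_false]; fun_prop

lemma Q1_ne (x : E5) (hx : x ∈ Mt) (m : Fin 5) (h : x m = 0) : qf m (sq x) ≠ 0 := fun h0 =>
  hx.2 m ⟨hx.1, h, h0⟩

lemma Q1_pos : IsClosed {x : E5 | ∀ i, 0 ≤ x i} := by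
  have : {x : E5 | ∀ i, 0 ≤ x i} = ⋂ i : Fin 5, {x : E5 | 0 ≤ x i} := by ext x; simp
  rw [this]
  exact isClosed_iInter fun i => isClosed_le continuous_const (by fun_prop)

theorem stmt_Q1 : Stmt_Q1 := by
  refine ⟨?_, ?_, ?_, ?_⟩
  · intro i
    ext x
    simp only [mir, mem_inter_iff, mem_union, mem_ofPred_eq, if_true, Bool.false_eq_true, if_false]
    constructor
    · rintro ⟨hx, h0⟩
      rcases lt_trichotomy (qf i (sq x)) 0 with h | h | h
      · exact Or.inr ⟨hx, h0, h⟩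
      · exact absurd h (Q1_ne x hx.1 i h0)
      · exact Or.inl ⟨hx, h0, h⟩
    · rintro (⟨hx, h0, _⟩ | ⟨hx, h0, _⟩) <;> exact ⟨hx, h0⟩
  · intro i
    rw [Set.disjoint_left]
    rintro x ⟨_, _, h1⟩ ⟨_, _, h2⟩
    simp only [if_true, Bool.false_eq_true, if_false] at h1 h2
    exact lt_asymm h1 h2
  · rintro ⟨m, b⟩
    cases b
    · refine ⟨{x : E5 | ∀ i, 0 ≤ x i} ∩ ({x : E5 | x m = 0} ∩ {x : E5 | qf m (sq x) ≤ 0}),
        Q1_pos.inter ((isClosed_eq (by fun_prop) continuous_const).inter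
          (isClosed_le (Q1_qf_cont m) continuous_const)), ?_⟩
      ext x
      simp only [mir, Qc, mem_inter_iff, mem_ofPred_eq, Bool.false_eq_true, if_false]
      constructor
      · rintro ⟨⟨hx, hp⟩, h0, h1⟩
        exact ⟨hx, hp, h0, h1.le⟩
      · rintro ⟨hx, hp, h0, h1⟩
        exact ⟨⟨hx, hp⟩, h0, lt_of_le_of_ne h1 (Q1_ne x hx m h0)⟩
    · refine ⟨{x : E5 | ∀ i, 0 ≤ x i} ∩ ({x : E5 | x m = 0} ∩ {x : E5 | 0 ≤ qf m (sq x)}),
        Q1_pos.inter ((isClosed_eq (by fun_prop) continuous_const).inter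
          (isClosed_le continuous_const (Q1_qf_cont m))), ?_⟩
      ext x
      simp only [mir, Qc, mem_inter_iff, mem_ofPred_eq, if_true]
      constructor
      · rintro ⟨⟨hx, hp⟩, h0, h1⟩
        exact ⟨hx, hp, h0, h1.le⟩
      · rintro ⟨hx, hp, h0, h1⟩
        exact ⟨⟨hx, hp⟩, h0, lt_of_le_of_ne h1 (Ne.symm (Q1_ne x hx m h0))⟩
  · refine ⟨{x : E5 | ∀ i, 0 ≤ x i}, Q1_pos, ?_⟩
    ext x
    simp only [Qc, mem_inter_iff, mem_ofPred_eq]

end Pool.KT
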