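import Pool.Agent.Work.MP_70ab54_kt.StrataC
import Pool.Agent.Work.MP_70ab54_kt.InterfaceQ

/-!
# MP_70ab54: blocks Q2, Q2m, Q3a, Q3b, Q3c, Q4 (helper81)
-/

set_option autoImplicit false

namespace Pool.KT

open Set Topology

theorem stmt_Q2 : Stmt_Q2 := by
  intro τ hne
  by_contra h
  rw [strU_empty τ h] at hne
  exact not_nonempty_empty hne

theorem mem_mir {s : Mir} {x : E5} (h : x ∈ mir s) :
    (∀ i, 0 ≤ sq x i) ∧ sq x s.1 = 0 ∧ sgnc s.2 (qf s.1 (sq x)) := by
  refine ⟨fun i => sq_nonneg _, ?_, h.2.2⟩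
  show x s.1 ^ 2 = 0
  rw [h.2.1]
  norm_num

theorem stmt_Q2m : Stmt_Q2m := by
  rintro ⟨m, b⟩ ⟨n, c⟩ hst ⟨x, h1, h2⟩
  obtain ⟨hx, m0, mq⟩ := mem_mir h1
  obtain ⟨-, n0, nq⟩ := mem_mir h2
  simp only at m0 mq n0 nq
  by_contra hadj
  by_cases hmn : m = n
  · subst hmn
    have hbc : b ≠ c := fun h => hst (by rw [h])
    rcases b with _ | _ <;> rcases c with _ | _
    · exact hbc rfl
    · have a1 : qf m (sq x) < 0 := mq
      have a2 : 0 < qf m (sq x) := nq
      linarith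
    · have a1 : 0 < qf m (sq x) := mq
      have a2 : qf m (sq x) < 0 := nq
      linarith
    · exact hbc rfl
  · rcases lt_or_gt_of_ne hmn with hlt | hgt
    · exact pair_empty m n b c hlt hadj _ hx m0 n0 mq nq
    · exact pair_empty n m c b hgt (fun h' => hadj (adj_symm h')) _ hx n0 m0 nq mq

theorem stmt_Q3a : Stmt_Q3a := fun τ h _ => hasCenter τ h

theorem stmt_Q3b : Stmt_Q3b := fun τ h _ => hasCenter τ h

theorem stmt_Q3c : Stmt_Q3c := fun τ h _ => hasCenter τ h

/-- square roots of the coordinates -/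
noncomputable def qrt (u : Fin 5 → ℝ) : E5 := WithLp.toLp 2 (fun i => Real.sqrt (u i))

theorem continuous_sq' : Continuous (sq : E5 → Fin 5 → ℝ) := by
  unfold sq
  fun_prop

theorem continuous_qrt : Continuous qrt := by
  unfold qrt
  exact (PiLp.continuous_toLp 2 _).comp (continuous_pi fun i =>
    Real.continuous_sqrt.comp (continuous_apply i))

theorem qrt_apply (u : Fin 5 → ℝ) (i : Fin 5) : qrt u i = Real.sqrt (u i) := rfl

theorem qrt_sq {x : E5} (h : ∀ i, 0 ≤ x i) : qrt (sq x) = x := by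
  ext i
  rw [qrt_apply]
  exact Real.sqrt_sq (h i)

theorem sq_qrt {u : Fin 5 → ℝ} (h : ∀ i, 0 ≤ u i) : sq (qrt u) = u := by
  funext i
  show (qrt u i) ^ 2 = u i
  rw [qrt_apply]
  exact Real.sq_sqrt (h i)

/-- from the coordinates `u = x^2` to the coordinates `x` -/
theorem AE.of_sq {S : Set (Fin 5 → ℝ)} (hS : AE S) (h0 : ∀ u ∈ S, ∀ i, 0 ≤ u i) :
    AE ↥{x : E5 | (∀ i, 0 ≤ x i) ∧ sq x ∈ S} := by
  refine AE.of_retract_set hS sq qrt continuous_sq'.continuousOn (fun x hx => hx.2)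
    continuous_qrt.continuousOn (fun u hu => ⟨fun i => Real.sqrt_nonneg _, ?_⟩)
    (fun x hx => qrt_sq hx.1)
  show sq (qrt u) ∈ S
  rw [sq_qrt (h0 u hu)]
  exact hu

/-- the pattern of a set of mirrors -/
noncomputable def pat (A : Finset Mir) (m : Fin 5) : Option Bool :=
  if (m, true) ∈ A then some true else if (m, false) ∈ A then some false else none

theorem pat_some {A : Finset Mir} {m : Fin 5} {b : Bool} (h : pat A m = some b) : (m, b) ∈ A := by
  unfold pat at h
  split_ifs at h with h1 h2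
  · rw [← Option.some.inj h]
    exact h1
  · rw [← Option.some.inj h]
    exact h2

theorem pat_none {A : Finset Mir} {m : Fin 5} (h : pat A m = none) (b : Bool) : (m, b) ∉ A := by
  unfold pat at h
  split_ifs at h with h1 h2
  rcases b with _ | _
  · exact h2
  · exact h1

theorem pat_mem {A : Finset Mir} (hA : Clq A) {m : Fin 5} {b : Bool} (h : (m, b) ∈ A) :
    pat A m = some b := by
  rcases b with _ | _
  · have h1 : (m, true) ∉ A := by
      intro h1
      exact (hA _ h _ h1 (by simp)).1 rfl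
    unfold pat
    rw [if_neg h1, if_pos h]
  · unfold pat
    rw [if_pos h]

theorem pat_clq {A : Finset Mir} (hA : Clq A) : PClq (pat A) := by
  intro m n b c hmn hm hn
  exact hA _ (pat_some hm) _ (pat_some hn) (fun h => hmn (congrArg Prod.fst h))

theorem sq_zero_iff {x : E5} {i : Fin 5} : sq x i = 0 ↔ x i = 0 := by
  show x i ^ 2 = 0 ↔ x i = 0
  exact pow_eq_zero_iff two_ne_zero

theorem sq_ne_zero' {x : E5} : sq x ≠ 0 ↔ x ≠ 0 := by
  constructor
  · rintro h rfl
    refine h ?_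
    funext i
    show (0 : E5) i ^ 2 = 0
    simp
  · intro h h0
    refine h ?_
    ext i
    exact sq_zero_iff.1 (congrFun h0 i)

/-- intersections of mirrors in terms of strata -/
theorem strat_eq {A : Finset Mir} (hA : Clq A) :
    {x : E5 | x ∈ Qc ∧ ∀ s ∈ A, x ∈ mir s} = {x : E5 | (∀ i, 0 ≤ x i) ∧ sq x ∈ StrU (pat A)} := by
  ext x
  constructor
  · rintro ⟨⟨⟨hx0, hxT⟩, hpos⟩, hm⟩
    refine ⟨hpos, fun i => sq_nonneg _, sq_ne_zero'.2 hx0, ?_, ?_, ?_⟩
    · rintro m - ⟨h1, h2⟩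
      exact hxT m ⟨hx0, sq_zero_iff.1 h1, h2⟩
    · intro m h
      exact (mem_mir (hm _ (pat_some h))).2
    · intro m h
      exact (mem_mir (hm _ (pat_some h))).2
  · rintro ⟨hpos, h1, h2, h3, h4, h5⟩
    have hQ : x ∈ Qc := by
      refine ⟨⟨sq_ne_zero'.1 h2, ?_⟩, hpos⟩
      rintro m ⟨-, t1, t2⟩
      rcases hp : pat A m with _ | b
      · exact h3 m hp ⟨sq_zero_iff.2 t1, t2⟩
      · rcases b with _ | _
        · have := (h5 m hp).2
          rw [t2] at this
          exact lt_irrefl _ this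
        · have := (h4 m hp).2
          rw [t2] at this
          exact lt_irrefl _ this
    refine ⟨hQ, ?_⟩
    rintro ⟨m, b⟩ hs
    have hp := pat_mem hA hs
    rcases b with _ | _
    · obtain ⟨a1, a2⟩ := h5 m hp
      exact ⟨hQ, sq_zero_iff.1 a1, a2⟩
    · obtain ⟨a1, a2⟩ := h4 m hp
      exact ⟨hQ, sq_zero_iff.1 a1, a2⟩

theorem stmt_Q4 : Stmt_Q4 := by
  intro A hA
  rw [strat_eq hA]
  exact AE.of_sq (strU_ae _ (pat_clq hA)) (fun u hu => hu.1)

end Pool.KT
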