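import Pool.Agent.Work.MP_70ab54_kt.Q2
import Pool.Agent.Work.MP_70ab54_kt.InterfaceC

/-!
# MP_70ab54: block Q6, the strata of the ends are absolute extensors (helper81)

In the coordinates `u = x^2` the round tube is the convex condition
`(1 - e^2) (P + R + S)^2 < 4 P R`.
-/

set_option autoImplicit false

namespace Pool.KT

open Set Topology

/-- first side -/
noncomputable def PPm (m : Fin 5) (u : Fin 5 → ℝ) : ℝ := 64 * (u 0 + u (2 * m))

/-- second side -/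
noncomputable def RRm (m : Fin 5) (u : Fin 5 → ℝ) : ℝ := 49 * u (3 * m) + 36 * u (4 * m)

/-- the convex condition -/
def EUc (m : Fin 5) (e : ℝ) : Set (Fin 5 → ℝ) :=
  {u | (1 - e ^ 2) * (PPm m u + RRm m u + u m) ^ 2 < 4 * PPm m u * RRm m u}

theorem isOpen_EUc (m : Fin 5) (e : ℝ) : IsOpen (EUc m e) := by
  unfold EUc PPm RRm
  exact isOpen_lt (by fun_prop) (by fun_prop)

theorem Q6_conv {k P R S P' R' S' a b : ℝ} (hk : 0 < k) (hP : 0 ≤ P) (hR : 0 ≤ R) (hS : 0 ≤ S)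
    (hP' : 0 ≤ P') (hR' : 0 ≤ R') (hS' : 0 ≤ S') (ha : 0 < a) (hb : 0 ≤ b)
    (h1 : k * (P + R + S) ^ 2 < 4 * P * R) (h2 : k * (P' + R' + S') ^ 2 < 4 * P' * R') :
    k * ((a * P + b * P') + (a * R + b * R') + (a * S + b * S')) ^ 2 <
      4 * (a * P + b * P') * (a * R + b * R') := by
  set L := P + R + S with hL
  set L' := P' + R' + S' with hL'
  have hL0 : 0 ≤ L := by linarith
  have hL0' : 0 ≤ L' := by linarith
  have hPR := mul_nonneg hP hR
  have hPR' := mul_nonneg hP' hR'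
  have hx := mul_nonneg hP hR'
  have hy := mul_nonneg hP' hR
  have e1 : (k * (L * L')) ^ 2 ≤ (2 * (P * R' + P' * R)) ^ 2 := by
    have e2 : (k * L ^ 2) * (k * L' ^ 2) ≤ (4 * P * R) * (4 * P' * R') :=
      mul_le_mul h1.le h2.le (mul_nonneg hk.le (sq_nonneg _)) (by positivity)
    have e3 : (4 * P * R) * (4 * P' * R') ≤ (2 * (P * R' + P' * R)) ^ 2 := by
      nlinarith [sq_nonneg (P * R' - P' * R)]
    calc (k * (L * L')) ^ 2 = (k * L ^ 2) * (k * L' ^ 2) := by ring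
      _ ≤ _ := e2
      _ ≤ _ := e3
  have e4 : k * (L * L') ≤ 2 * (P * R' + P' * R) :=
    le_of_sq_le_sq e1 (by positivity)
  have e5 := mul_pos (pow_pos ha 2) (sub_pos.2 h1)
  have e6 := mul_nonneg (pow_nonneg hb 2) (sub_nonneg.2 h2.le)
  have e7 := mul_nonneg (mul_nonneg ha.le hb) (sub_nonneg.2 e4)
  have e8 : (a * P + b * P') + (a * R + b * R') + (a * S + b * S') = a * L + b * L' := by
    rw [hL, hL']
    ring
  rw [e8]
  nlinarith [e5, e6, e7]

theorem EUc_comb {m : Fin 5} {e : ℝ} (he : e < 1) (he0 : 0 < e) {c y : Fin 5 → ℝ}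
    (hc : ∀ i, 0 ≤ c i) (hy : ∀ i, 0 ≤ y i) (h1 : c ∈ EUc m e) (h2 : y ∈ EUc m e) {a b : ℝ}
    (ha : 0 < a) (hb : 0 ≤ b) : a • c + b • y ∈ EUc m e := by
  have hk : 0 < 1 - e ^ 2 := by nlinarith
  have key := Q6_conv (S := c m) (S' := y m) hk (P := PPm m c) (R := RRm m c) (P' := PPm m y)
    (R' := RRm m y)
    (by unfold PPm; have := hc 0; have := hc (2 * m); linarith)
    (by unfold RRm; have := hc (3 * m); have := hc (4 * m); linarith) (hc m)
    (by unfold PPm; have := hy 0; have := hy (2 * m); linarith)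
    (by unfold RRm; have := hy (3 * m); have := hy (4 * m); linarith) (hy m) ha hb h1 h2
  show (1 - e ^ 2) * (PPm m (a • c + b • y) + RRm m (a • c + b • y) + (a • c + b • y) m) ^ 2 <
    4 * PPm m (a • c + b • y) * RRm m (a • c + b • y)
  have e1 : PPm m (a • c + b • y) = a * PPm m c + b * PPm m y := by
    simp only [PPm, Pi.add_apply, Pi.smul_apply, smul_eq_mul]
    ring
  have e2 : RRm m (a • c + b • y) = a * RRm m c + b * RRm m y := by
    simp only [RRm, Pi.add_apply, Pi.smul_apply, smul_eq_mul]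
    ring
  have e3 : (a • c + b • y) m = a * c m + b * y m := rfl
  rw [e1, e2, e3]
  exact key

/-- membership in the closed tube in terms of `u` -/
theorem EUc_iff (h18 : Stmt_C18) {m : Fin 5} (hm : m ≠ 0) {e : ℝ} (he0 : 0 < e) (he : e < 1)
    (x : E5) : sq x ∈ EUc m e ↔ (Wc m x ≠ 0 ∧ Pc m x ∈ nu e) :=
  (h18 m hm e he0 he x).symm

/-- sign lemma in the coordinates `u` -/
theorem Q6_sign (h5 : Stmt_Q5) (h10 : Stmt_C10) (h18 : Stmt_C18) {m : Fin 5} (hm : m ≠ 0) {e : ℝ}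
    (he0 : 0 < e) (he : e < 1) (hnu : nu e ⊆ Bd dd) {u : Fin 5 → ℝ} (hu : ∀ i, 0 ≤ u i)
    (hE : u ∈ EUc m e) {j : Fin 5} (hj : j ≠ m) (hj0 : u j = 0) :
    (m ∉ edge (j, true) → 0 < qf j u) ∧ (m ∈ edge (j, true) → qf j u < 0) := by
  have hsq : sq (qrt u) = u := sq_qrt hu
  have h1 : Wc m (qrt u) ≠ 0 ∧ Pc m (qrt u) ∈ nu e := by
    rw [← EUc_iff h18 hm he0 he, hsq]
    exact hE
  have hN : qrt u ∈ Nn m dd := by
    by_cases hU : Pc m (qrt u) ∈ Ucirc
    · have hd : (0 : ℝ) < dd := by norm_num [dd]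
      obtain ⟨a1, a2⟩ := hU
      refine ⟨h1.1, ?_, ?_, ?_⟩
      · rw [a1]; linarith
      · rw [a1]; linarith
      · rw [a2, abs_zero]; exact hd
    · exact ((h5 m hm e he0 he hnu).1 ⟨h1.1, h1.2, hU⟩).2
  have hz : (qrt u) j = 0 := by
    rw [qrt_apply, hj0, Real.sqrt_zero]
  have h2 := h10 m hm _ hN j hj hz
  rw [hsq] at h2
  exact h2

/-- membership criterion for the strata of the ends -/
theorem Q6_mem (h5 : Stmt_Q5) (h10 : Stmt_C10) (h18 : Stmt_C18) {m : Fin 5} (hm : m ≠ 0) {e : ℝ}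
    (he0 : 0 < e) (he : e < 1) (hnu : nu e ⊆ Bd dd) {τ : Fin 5 → Option Bool}
    (hτ : ∀ j b, τ j = some b → m ∉ edge (j, b)) {u : Fin 5 → ℝ}
    (h1 : ∀ i, τ i = none → 0 < u i) (h2 : ∀ i, τ i ≠ none → u i = 0) (hE : u ∈ EUc m e)
    (h3 : τ m = some true → 0 < qf m u) (h4 : τ m = some false → qf m u < 0) :
    u ∈ StrU τ := by
  have hu : ∀ i, 0 ≤ u i := by
    intro i
    by_cases h : τ i = none
    · exact (h1 i h).le
    · exact (h2 i h).ge
  have hcomp : ∀ m j : Fin 5, j ≠ m → m ∉ edge (j, false) → m ∈ edge (j, true) := by decide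
  refine mem_StrU h1 h2 (fun j hj => ?_) (fun j hj => ?_)
  · by_cases hjm : j = m
    · subst hjm
      exact h3 hj
    · exact (Q6_sign h5 h10 h18 hm he0 he hnu hu hE hjm
        (h2 j (by rw [hj]; exact Option.some_ne_none _))).1 (hτ j true hj)
  · by_cases hjm : j = m
    · subst hjm
      exact h4 hj
    · exact (Q6_sign h5 h10 h18 hm he0 he hnu hu hE hjm
        (h2 j (by rw [hj]; exact Option.some_ne_none _))).2 (hcomp m j hjm (hτ j false hj))

/-- splitting a positive number -/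
theorem Q6_split {o1 o2 : Prop} (h : ¬ (¬ o1 ∧ ¬ o2)) {α β P : ℝ} (hα : 0 < α) (hβ : 0 < β)
    (hP : 0 < P) : ∃ a b : ℝ, (o1 → 0 < a) ∧ (¬ o1 → a = 0) ∧ (o2 → 0 < b) ∧ (¬ o2 → b = 0) ∧
      0 ≤ a ∧ 0 ≤ b ∧ α * a + β * b = P := by
  by_cases h1 : o1
  · by_cases h2 : o2
    · refine ⟨P / (2 * α), P / (2 * β), fun _ => by positivity, fun h' => absurd h1 h',
        fun _ => by positivity, fun h' => absurd h2 h', by positivity, by positivity, ?_⟩
      field_simp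
      ring
    · refine ⟨P / α, 0, fun _ => by positivity, fun h' => absurd h1 h',
        fun h' => absurd h' h2, fun _ => rfl, by positivity, le_rfl, ?_⟩
      field_simp
      ring
  · have h2 : o2 := by
      by_contra h2
      exact h ⟨h1, h2⟩
    refine ⟨0, P / β, fun h' => absurd h' h1, fun _ => rfl,
        fun _ => by positivity, fun h' => absurd h2 h', le_rfl, by positivity, ?_⟩
    field_simp
    ring

/-- existence of centers -/
theorem Q6_center {m : Fin 5} (hm : m ≠ 0) {e : ℝ} (he0 : 0 < e) (he : e < 1)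
    {τ : Fin 5 → Option Bool} (n1 : ¬ (τ 0 ≠ none ∧ τ (2 * m) ≠ none))
    (n2 : ¬ (τ (3 * m) ≠ none ∧ τ (4 * m) ≠ none)) :
    ∃ c : Fin 5 → ℝ, (∀ i, τ i = none → 0 < c i) ∧ (∀ i, τ i ≠ none → c i = 0) ∧
      c ∈ EUc m e ∧ (τ m = some true → 0 < qf m c) ∧ (τ m = some false → qf m c < 0) := by
  -- values of P, R, S
  obtain ⟨P, R, S, hP, hR, hS, hS1, hS0, hE, ht, hf⟩ : ∃ P R S : ℝ, 0 < P ∧ 0 < R ∧ 0 ≤ S ∧
      (τ m = none → 0 < S) ∧ (τ m ≠ none → S = 0) ∧
      (1 - e ^ 2) * (P + R + S) ^ 2 < 4 * P * R ∧ (τ m = some true → R < P) ∧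
      (τ m = some false → P < R) := by
    have hsq : 0 < e ^ 2 := pow_pos he0 2
    have hq : 0 < e ^ 3 := pow_pos he0 3
    have hqq : 0 < e ^ 4 := pow_pos he0 4
    rcases hτ : τ m with _ | b
    · refine ⟨1, 1, e ^ 2 / 2, one_pos, one_pos, by positivity, fun _ => by positivity,
        fun h => absurd rfl h, ?_, fun h => by simp at h, fun h => by simp at h⟩
      have h1 : 0 < e ^ 2 * (1 - e ^ 2) := by
        have : e ^ 2 < 1 := by nlinarith
        exact mul_pos hsq (by linarith)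
      have h6 : 0 < e ^ 6 := pow_pos he0 6
      nlinarith [h1, h6, hqq]
    · rcases b with _ | _
      · refine ⟨1, 1 + e, 0, one_pos, by linarith, le_rfl, fun h => by simp at h,
          fun _ => rfl, ?_, fun h => by simp at h, fun _ => by linarith⟩
        nlinarith [hsq, hq, hqq]
      · refine ⟨1 + e, 1, 0, by linarith, one_pos, le_rfl, fun h => by simp at h,
          fun _ => rfl, ?_, fun _ => by linarith, fun h => by simp at h⟩
        nlinarith [hsq, hq, hqq]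
  obtain ⟨a, b, a1, a0, b1, b0, a2, b2, hab⟩ := Q6_split (o1 := τ 0 = none)
    (o2 := τ (2 * m) = none) n1 (α := 64) (β := 64) (P := P) (by norm_num) (by norm_num) hP
  obtain ⟨a', b', a1', a0', b1', b0', a2', b2', hab'⟩ := Q6_split (o1 := τ (3 * m) = none)
    (o2 := τ (4 * m) = none) n2 (α := 49) (β := 36) (P := R) (by norm_num) (by norm_num) hR
  have d : ∀ m : Fin 5, m ≠ 0 → 2 * m ≠ 0 ∧ 3 * m ≠ 0 ∧ 3 * m ≠ 2 * m ∧ 4 * m ≠ 0 ∧
      4 * m ≠ 2 * m ∧ 4 * m ≠ 3 * m ∧ m ≠ 2 * m ∧ m ≠ 3 * m ∧ m ≠ 4 * m := by decide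
  have dc : ∀ m : Fin 5, m ≠ 0 → ∀ i : Fin 5, i = 0 ∨ i = 2 * m ∨ i = 3 * m ∨ i = 4 * m ∨
      i = m := by decide
  obtain ⟨d1, d2, d3, d4, d5, d6, d7, d8, d9⟩ := d m hm
  set c : Fin 5 → ℝ := fun i => if i = 0 then a else if i = 2 * m then b else
    if i = 3 * m then a' else if i = 4 * m then b' else S with hcdef
  have c0 : c 0 = a := by simp only [hcdef, if_true]
  have c2 : c (2 * m) = b := by simp only [hcdef, d1, if_false, if_true]
  have c3 : c (3 * m) = a' := by simp only [hcdef, d2, d3, if_false, if_true]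
  have c4 : c (4 * m) = b' := by simp only [hcdef, d4, d5, d6, if_false, if_true]
  have cm : c m = S := by simp only [hcdef, hm, d7, d8, d9, if_false]
  have hPP : PPm m c = P := by
    unfold PPm
    rw [c0, c2]
    linarith
  have hRR : RRm m c = R := by
    unfold RRm
    rw [c3, c4]
    exact hab'
  have hq : qf m c = P - R := by
    have : qf m c = PPm m c - RRm m c := by
      unfold qf PPm RRm
      rw [if_neg hm]
      ring
    rw [this, hPP, hRR]
  refine ⟨c, fun i hi => ?_, fun i hi => ?_, ?_, fun h => ?_, fun h => ?_⟩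
  · rcases dc m hm i with h | h | h | h | h
    · rw [h] at hi ⊢
      rw [c0]
      exact a1 hi
    · rw [h] at hi ⊢
      rw [c2]
      exact b1 hi
    · rw [h] at hi ⊢
      rw [c3]
      exact a1' hi
    · rw [h] at hi ⊢
      rw [c4]
      exact b1' hi
    · rw [h] at hi ⊢
      rw [cm]
      exact hS1 hi
  · rcases dc m hm i with h | h | h | h | h
    · rw [h] at hi ⊢
      rw [c0]
      exact a0 hi
    · rw [h] at hi ⊢
      rw [c2]
      exact b0 hi
    · rw [h] at hi ⊢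
      rw [c3]
      exact a0' hi
    · rw [h] at hi ⊢
      rw [c4]
      exact b0' hi
    · rw [h] at hi ⊢
      rw [cm]
      exact hS0 hi
  · show (1 - e ^ 2) * (PPm m c + RRm m c + c m) ^ 2 < 4 * PPm m c * RRm m c
    rw [hPP, hRR, cm]
    exact hE
  · rw [hq]
    exact sub_pos.2 (ht h)
  · rw [hq]
    exact sub_neg.2 (hf h)

/-- the strata of the ends in the coordinates `u` -/
theorem Q6_ae (h5 : Stmt_Q5) (h10 : Stmt_C10) (h18 : Stmt_C18) {m : Fin 5} (hm : m ≠ 0) {e : ℝ}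
    (he0 : 0 < e) (he : e < 1) (hnu : nu e ⊆ Bd dd) {τ : Fin 5 → Option Bool}
    (hτ : ∀ j b, τ j = some b → m ∉ edge (j, b))
    (n1 : ¬ (τ 0 ≠ none ∧ τ (2 * m) ≠ none)) (n2 : ¬ (τ (3 * m) ≠ none ∧ τ (4 * m) ≠ none)) :
    AE ↥(StrU τ ∩ EUc m e) := by
  obtain ⟨c, h1, h2, hE, h3, h4⟩ := Q6_center hm he0 he n1 n2
  have hcS := Q6_mem h5 h10 h18 hm he0 he hnu hτ h1 h2 hE h3 h4
  have heq : StrU τ ∩ EUc m e = Fac τ ∩ (OpU τ ∩ EUc m e) := by
    rw [StrU_eq, inter_assoc]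
  have hc : c ∈ Fac τ ∩ (OpU τ ∩ EUc m e) := by
    rw [← heq]
    exact ⟨hcS, hE⟩
  rw [heq]
  refine ae_fac τ ((isOpen_OpU τ).inter (isOpen_EUc m e)) hc ?_
  intro y hy a b ha hb hab
  rw [← heq] at hy ⊢
  rcases ha.eq_or_lt with ha0 | ha0
  · have hb1 : b = 1 := by linarith
    rw [← ha0, hb1, zero_smul, one_smul, zero_add]
    exact hy
  · have hzE : a • c + b • y ∈ EUc m e :=
      EUc_comb he he0 hcS.1 hy.1.1 hE hy.2 ha0 hb
    refine ⟨Q6_mem h5 h10 h18 hm he0 he hnu hτ (fun i hi => ?_) (fun i hi => ?_) hzE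
      (fun h => ?_) (fun h => ?_), hzE⟩
    · have e1 := mul_pos ha0 (h1 i hi)
      have e2 := mul_nonneg hb (hy.1.1 i)
      show 0 < a * c i + b * y i
      linarith
    · have hy' : y ∈ Fac τ ∩ OpU τ := by
        rw [← StrU_eq]
        exact hy.1
      show a * c i + b * y i = 0
      rw [h2 i hi, hy'.1.2 i hi]
      ring
    · rw [qf_comb hm]
      have e1 := mul_pos ha0 (h3 h)
      have e2 := mul_nonneg hb (hy.1.2.2.2.1 m h).2.le
      linarith
    · rw [qf_comb hm]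
      have e1 := mul_pos ha0 (neg_pos.2 (h4 h))
      have e2 := mul_nonneg hb (neg_nonneg.2 (hy.1.2.2.2.2 m h).2.le)
      linarith

theorem stmt_Q6 (hc5 : Stmt_C5) (h10 : Stmt_C10) (h18 : Stmt_C18) (h5 : Stmt_Q5) : Stmt_Q6 := by
  intro m hm e he0 he hnu A hA
  constructor
  · intro hAm
    have hset : {x : E5 | (x ∈ Qc ∧ ∀ s ∈ A, x ∈ mir s) ∧ x ∈ EndS m e} =
        {x : E5 | (∀ i, 0 ≤ x i) ∧ sq x ∈ StrU (pat A) ∩ EUc m e} := by
      have hs := strat_eq hA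
      ext x
      constructor
      · rintro ⟨hx, hxE⟩
        have hx' : x ∈ {x : E5 | (∀ i, 0 ≤ x i) ∧ sq x ∈ StrU (pat A)} := by
          rw [← hs]
          exact hx
        exact ⟨hx'.1, hx'.2, (EUc_iff h18 hm he0 he x).2 ⟨hxE.1, hxE.2.1⟩⟩
      · rintro ⟨hx0, hx1, hx2⟩
        have hx' : x ∈ {x : E5 | x ∈ Qc ∧ ∀ s ∈ A, x ∈ mir s} := by
          rw [hs]
          exact ⟨hx0, hx1⟩
        obtain ⟨e1, e2⟩ := (EUc_iff h18 hm he0 he x).1 hx2
        exact ⟨hx', e1, e2, fun hU => hx'.1.1.2 m ((hc5 m hm x).2.2 ⟨e1, hU⟩)⟩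
    rw [hset]
    refine AE.of_sq ?_ (fun u hu => hu.1.1)
    have hτ : ∀ j b, pat A j = some b → m ∉ edge (j, b) := fun j b h => hAm _ (pat_some h)
    have hcl := pat_clq hA
    have q1 : ∀ m : Fin 5, m ≠ 0 → ∀ b c : Bool, m ∉ edge (0, b) → m ∉ edge (2 * m, c) →
        ¬ adj (0, b) (2 * m, c) := by decide
    have q2 : ∀ m : Fin 5, m ≠ 0 → ∀ b c : Bool, m ∉ edge (3 * m, b) → m ∉ edge (4 * m, c) →
        ¬ adj (3 * m, b) (4 * m, c) := by decide
    have d : ∀ m : Fin 5, m ≠ 0 → 0 ≠ 2 * m ∧ 3 * m ≠ 4 * m := by decide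
    refine Q6_ae h5 h10 h18 hm he0 he hnu hτ ?_ ?_
    · rintro ⟨a1, a2⟩
      obtain ⟨b, hb⟩ := Option.ne_none_iff_exists'.1 a1
      obtain ⟨c, hc⟩ := Option.ne_none_iff_exists'.1 a2
      exact q1 m hm b c (hτ _ _ hb) (hτ _ _ hc) (hcl _ _ _ _ (d m hm).1 hb hc)
    · rintro ⟨a1, a2⟩
      obtain ⟨b, hb⟩ := Option.ne_none_iff_exists'.1 a1
      obtain ⟨c, hc⟩ := Option.ne_none_iff_exists'.1 a2
      exact q2 m hm b c (hτ _ _ hb) (hτ _ _ hc) (hcl _ _ _ _ (d m hm).2 hb hc)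
  · rintro ⟨⟨j, b⟩, hsA, hsm⟩
    by_contra hne
    obtain ⟨x, ⟨hxQ, hxA⟩, hxE⟩ := nonempty_iff_ne_empty.2 hne
    have hxm := hxA _ hsA
    have hjm : j ≠ m := by
      rintro rfl
      have : ∀ j : Fin 5, j ≠ 0 → ∀ b : Bool, j ∉ edge (j, b) := by decide
      exact this j hm b hsm
    have hN := ((h5 m hm e he0 he hnu).1 hxE).2
    obtain ⟨k1, k2⟩ := h10 m hm x hN j hjm hxm.2.1
    rcases b with _ | _
    · have : ∀ m j : Fin 5, j ≠ m → m ∈ edge (j, false) → m ∉ edge (j, true) := by decide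
      have a1 := k1 (this m j hjm hsm)
      have a2 : qf j (sq x) < 0 := hxm.2.2
      linarith
    · have a1 := k2 hsm
      have a2 : 0 < qf j (sq x) := hxm.2.2
      linarith

end Pool.KT
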