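import Pool.Agent.Work.MP_70ab54_gt.AE3

/-!
# MP_70ab54: the homotopy statement exchanged between the parts (helper44)

`GoodCover X E`: the subspace `X` has a covering with total space an absolute extensor (`AE`),
such that the preimage of every end `E i` is `LAE` (all components are clopen and `AE`).
`AE`, `LAE` (for types, sets are coerced) are in `MP_70ab54_gt/Defs.lean` (helper64).
-/

set_option autoImplicit false

namespace Pool.KT

open Set Topology

/-- the subspace `X` of `V` has a covering with absolute extensor total space for which the
preimages of all the ends `E i` are `LAE` -/
def GoodCover {V : Type*} [TopologicalSpace V] (X : Set V) {ι : Type} (E : ι → Set V) : Prop :=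
  ∃ (R : Type) (_ : TopologicalSpace R) (q : R → X), IsCoveringMap q ∧ Function.Surjective q ∧
    AE R ∧ ∀ i, LAE ↥{r : R | (q r : V) ∈ E i}

end Pool.KT
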