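import Pool.Agent.Work.MP_70ab54_gt.AE3
import Pool.Agent.Work.MP_70ab54_kt.Cover

/-!
# MP_70ab54: Theorem D, the universal cover of a reflection space (helper53)

`ReflData V ι`: an action of the sign vectors `ι → ℤˣ` on `V` with coordinates `h i`.
`MirrorData`: an invariant subset `X` of `V` and the mirrors `m s`, `s : S`, of type `ty s`; these
are subsets of the fundamental domain `{h i ≥ 0 for all i}` of `X`.
`Gal ty cm`: the right angled Coxeter group on `S` as a chamber system (right multiplications `R s`,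
signs `sg w`, length, descents).
`Dev`: the development, a space over `X`.
`thmD` (block D_FIN): `GoodCover X E`.
-/

set_option autoImplicit false

namespace Pool.KT

open Set Topology

variable {V : Type} [TopologicalSpace V] {ι S W : Type}

/-- an action of the sign vectors on a space with coordinates `h i` -/
structure ReflData (V : Type) [TopologicalSpace V] (ι : Type) where
  act : (ι → ℤˣ) → V → V
  h : ι → V → ℝ
  act_cont : ∀ g, Continuous (act g)
  h_cont : ∀ i, Continuous (h i)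
  act_mul : ∀ g g' x, act g (act g' x) = act (g * g') x
  h_act : ∀ g i x, h i (act g x) = ((g i : ℤ) : ℝ) * h i x
  act_fix : ∀ g x, (∀ i, h i x ≠ 0 → g i = 1) → act g x = x

/-- the fundamental domain -/
def ReflData.Q (D : ReflData V ι) : Set V := {x | ∀ i, 0 ≤ D.h i x}

/-- the signs of a point (positive when zero) -/
noncomputable def ReflData.sgv (D : ReflData V ι) (x : V) : ι → ℤˣ :=
  fun i => if D.h i x < 0 then -1 else 1

/-- the folding map onto the fundamental domain -/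
noncomputable def ReflData.fold (D : ReflData V ι) (x : V) : V := D.act (D.sgv x) x

/-- an invariant subset and its mirrors -/
structure MirrorData (D : ReflData V ι) (ty : S → ι) (cm : S → S → Prop) (X : Set V)
    (m : S → Set V) : Prop where
  inv : ∀ g, ∀ x ∈ X, D.act g x ∈ X
  ty_surj : Function.Surjective ty
  sub : ∀ s, ∀ x ∈ m s, x ∈ X ∧ x ∈ D.Q ∧ D.h (ty s) x = 0
  closed : ∀ s, ∃ C : Set V, IsClosed C ∧ m s = X ∩ C
  cover : ∀ x ∈ X, x ∈ D.Q → ∀ i, D.h i x = 0 → ∃ s, ty s = i ∧ x ∈ m s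
  disj : ∀ s t, ty s = ty t → ∀ x ∈ m s, x ∈ m t → s = t
  comm : ∀ s t, s ≠ t → ∀ x ∈ m s, x ∈ m t → cm s t
  symm : ∀ s t, cm s t → cm t s

/-- cliques -/
def Cliq (cm : S → S → Prop) (A : Finset S) : Prop := ∀ s ∈ A, ∀ t ∈ A, s ≠ t → cm s t

/-- the intersection of `X`, the fundamental domain and the mirrors in `A` -/
def Strat (D : ReflData V ι) (X : Set V) (m : S → Set V) (A : Finset S) : Set V :=
  {x | x ∈ X ∧ x ∈ D.Q ∧ ∀ s ∈ A, x ∈ m s}

/-! ### The right angled Coxeter group -/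

/-- one step in the orbit -/
def gstep (R : S → W → W) (T : Set S) (u v : W) : Prop := ∃ s ∈ T, v = R s u

/-- the orbit (coset) of `w` under the generators in `T` -/
def gorb (R : S → W → W) (T : Set S) (w : W) : Set W :=
  {w' | Relation.ReflTransGen (gstep R T) w w'}

/-- the right angled Coxeter group as a chamber system -/
structure Gal (ty : S → ι) (cm : S → S → Prop) where
  W : Type
  one : W
  R : S → W → W
  sg : W → ι → ℤˣ
  len : W → ℕ
  des : W → S → Prop
  R_R : ∀ s w, R s (R s w) = w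
  R_comm : ∀ s t w, cm s t → R s (R t w) = R t (R s w)
  gen : ∀ w, w ∈ gorb R univ one
  sg_one : ∀ i, sg one i = 1
  sg_R : ∀ s w, sg (R s w) (ty s) = -sg w (ty s)
  sg_R_ne : ∀ s w i, i ≠ ty s → sg (R s w) i = sg w i
  len_des : ∀ s w, des w s → len (R s w) + 1 = len w
  len_ndes : ∀ s w, ¬ des w s → len (R s w) = len w + 1
  des_cm : ∀ w s t, des w s → des w t → s ≠ t → cm s t
  orb : ∀ (T : Set S) (w w' : W), (∀ s ∈ T, ¬ des w s) → w' ∈ gorb R T w → w' ≠ w →
    len w < len w' ∧ ∃ s ∈ T, des w' s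

/-- BLOCK D_GAL -/
def Stmt_D_GAL : Prop :=
  ∀ (S ι : Type) (ty : S → ι) (cm : S → S → Prop), (∀ s t, cm s t → cm t s) →
    Nonempty (Gal ty cm)

/-! ### The development -/

/-- the mirrors containing the folded point -/
noncomputable def stp (D : ReflData V ι) (m : S → Set V) (x : V) : Set S := {s | D.fold x ∈ m s}

/-- `x` lies in the chamber with signs `g` -/
def Adm (D : ReflData V ι) (g : ι → ℤˣ) (x : V) : Prop := ∀ i, 0 ≤ ((g i : ℤ) : ℝ) * D.h i x

/-- the development: pairs (point of `X`, coset of chambers) -/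
def Dev (D : ReflData V ι) {ty : S → ι} {cm : S → S → Prop} (G : Gal ty cm) (X : Set V)
    (m : S → Set V) : Type :=
  {y : V × Set G.W // y.1 ∈ X ∧ ∃ w, Adm D (G.sg w) y.1 ∧ y.2 = gorb G.R (stp D m y.1) w}

variable {D : ReflData V ι} {ty : S → ι} {cm : S → S → Prop} {G : Gal ty cm} {X : Set V}
  {m : S → Set V}

/-- the topology of the development -/
instance Dev.top : TopologicalSpace (Dev D G X m) where
  IsOpen O := ∀ y ∈ O, ∃ U : Set V, IsOpen U ∧ y.1.1 ∈ U ∧
    ∀ y' : Dev D G X m, y'.1.1 ∈ U → y'.1.2 ⊆ y.1.2 → y' ∈ O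
  isOpen_univ := fun y _ => ⟨univ, isOpen_univ, mem_univ _, fun _ _ _ => mem_univ _⟩
  isOpen_inter := by
    rintro O O' h h' y ⟨hy, hy'⟩
    obtain ⟨U, hU, hyU, hs⟩ := h y hy
    obtain ⟨U', hU', hyU', hs'⟩ := h' y hy'
    exact ⟨U ∩ U', hU.inter hU', ⟨hyU, hyU'⟩, fun y' hy1 hy2 =>
      ⟨hs y' hy1.1 hy2, hs' y' hy1.2 hy2⟩⟩
  isOpen_sUnion := by
    rintro F h y ⟨O, hO, hy⟩
    obtain ⟨U, hU, hyU, hs⟩ := h O hO y hy
    exact ⟨U, hU, hyU, fun y' hy1 hy2 => ⟨O, hO, hs y' hy1 hy2⟩⟩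

/-- the projection of the development -/
def Dev.p (y : Dev D G X m) : X := ⟨y.1.1, y.2.1⟩

/-- BLOCK D_COV -/
def Stmt_D_COV : Prop :=
  ∀ (V ι S : Type) [TopologicalSpace V] [Finite ι] [Finite S] (D : ReflData V ι) (ty : S → ι)
    (cm : S → S → Prop) (X : Set V) (m : S → Set V) (G : Gal ty cm), MirrorData D ty cm X m →
    IsCoveringMap (Dev.p : Dev D G X m → X) ∧ Function.Surjective (Dev.p : Dev D G X m → X)

/-- the chamber `w` of the development -/
def Dev.ch (w : G.W) : Set (Dev D G X m) := {y | w ∈ y.1.2}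

/-- BLOCK D_CH: the strata of a chamber over an invariant set `E` -/
def Stmt_D_CH : Prop :=
  ∀ (V ι S : Type) [TopologicalSpace V] [Finite ι] [Finite S] (D : ReflData V ι) (ty : S → ι)
    (cm : S → S → Prop) (X : Set V) (m : S → Set V) (G : Gal ty cm), MirrorData D ty cm X m →
    ∀ (E : Set V), (∀ g, ∀ x ∈ E, D.act g x ∈ E) → ∀ (A : Finset S),
    AE (E ∩ Strat D X m A : Set V) → ∀ w : G.W,
    AE ({y | y.1.1 ∈ E ∧ y ∈ Dev.ch w ∧ ∀ s ∈ A, s ∈ stp D m y.1.1} : Set (Dev D G X m))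

/-- BLOCK D_UN: the part of the preimage of `E` in the chambers of one coset is an absolute
extensor -/
def Stmt_D_UN : Prop :=
  ∀ (V ι S : Type) [TopologicalSpace V] [Finite ι] [Finite S] (D : ReflData V ι) (ty : S → ι)
    (cm : S → S → Prop) (X : Set V) (m : S → Set V) (G : Gal ty cm), MirrorData D ty cm X m →
    ∀ (E : Set V), (∀ g, ∀ x ∈ E, D.act g x ∈ E) → ∀ (T : Set S),
    (∀ s, s ∉ T → ∀ x ∈ m s, x ∉ E) →
    (∀ A : Finset S, Cliq cm A → (∀ s ∈ A, s ∈ T) → AE (E ∩ Strat D X m A : Set V)) →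
    ∀ w : G.W, AE ({y | y.1.1 ∈ E ∧ y.1.2 ⊆ gorb G.R T w} : Set (Dev D G X m))

/-- THEOREM D (BLOCK D_FIN) -/
def Stmt_D : Prop :=
  ∀ (V ι S : Type) [TopologicalSpace V] [Finite ι] [Finite S] (D : ReflData V ι) (ty : S → ι)
    (cm : S → S → Prop) (X : Set V) (m : S → Set V), MirrorData D ty cm X m →
    (∀ A : Finset S, Cliq cm A → AE (Strat D X m A)) →
    ∀ (κ : Type) (E : κ → Set V) (T : κ → Set S), (∀ k g, ∀ x ∈ E k, D.act g x ∈ E k) →
    (∀ k s, s ∉ T k → ∀ x ∈ m s, x ∉ E k) →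
    (∀ k, ∀ A : Finset S, Cliq cm A → (∀ s ∈ A, s ∈ T k) →
      AE (E k ∩ Strat D X m A : Set V)) →
    GoodCover X E

end Pool.KT
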