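import Pool.Agent.Work.MP_70ab54_kt.InterfaceQ
import Pool.Agent.Work.MP_70ab54_kt.InterfaceD

/-!
# Block Q7: the good cover of the complement of the five cones, from Theorem D (helper53)
-/

set_option autoImplicit false

namespace Pool.KT

open Set Topology

/-- the sign changes of the coordinates -/
noncomputable def Q7_act (g : Fin 5 → ℤˣ) (x : E5) : E5 :=
  WithLp.toLp 2 (fun j => ((g j : ℤ) : ℝ) * x j)

theorem Q7_act_apply (g : Fin 5 → ℤˣ) (x : E5) (i : Fin 5) :
    Q7_act g x i = ((g i : ℤ) : ℝ) * x i := rfl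

/-- the reflection structure of `R^5` -/
noncomputable def Q7_D : ReflData E5 (Fin 5) where
  act := Q7_act
  h := fun i x => x i
  act_cont := fun g => by
    unfold Q7_act
    fun_prop
  h_cont := fun i => by fun_prop
  act_mul := fun g g' x => by
    ext i
    simp only [Q7_act_apply, Pi.mul_apply, Units.val_mul, Int.cast_mul]
    ring
  h_act := fun g i x => rfl
  act_fix := fun g x h => by
    ext i
    rw [Q7_act_apply]
    by_cases hi : x i = 0
    · rw [hi, mul_zero]
    · rw [h i hi]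
      simp

theorem Q7_sq (g : Fin 5 → ℤˣ) (x : E5) : sq (Q7_act g x) = sq x := by
  funext i
  show (Q7_act g x i) ^ 2 = x i ^ 2
  rw [Q7_act_apply]
  rcases Int.units_eq_one_or (g i) with h | h <;> rw [h] <;> simp

theorem Q7_zero (g : Fin 5 → ℤˣ) (x : E5) (h : Q7_act g x = 0) : x = 0 := by
  ext i
  have h1 : sq (Q7_act g x) i = 0 := by
    rw [h]
    show (0 : ℝ) ^ 2 = 0
    norm_num
  rw [Q7_sq] at h1
  exact pow_eq_zero_iff (two_ne_zero) |>.1 h1

theorem Q7_coord (g : Fin 5 → ℤˣ) (x : E5) (i : Fin 5) (h : Q7_act g x i = 0) : x i = 0 := by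
  have h1 : sq (Q7_act g x) i = 0 := by
    show (Q7_act g x i) ^ 2 = 0
    rw [h]
    norm_num
  rw [Q7_sq] at h1
  exact pow_eq_zero_iff (two_ne_zero) |>.1 h1

theorem Q7_Mt (g : Fin 5 → ℤˣ) (x : E5) (hx : x ∈ Mt) : Q7_act g x ∈ Mt := by
  refine ⟨fun h => hx.1 (Q7_zero g x h), fun m hm => hx.2 m ⟨hx.1, Q7_coord g x m hm.2.1, ?_⟩⟩
  rw [← Q7_sq g x]
  exact hm.2.2

theorem Q7_mir (h1 : Stmt_Q1) (h2 : Stmt_Q2m) :
    MirrorData Q7_D (Prod.fst : Mir → Fin 5) adj Mt mir where
  inv := fun g x hx => Q7_Mt g x hx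
  ty_surj := fun i => ⟨(i, true), rfl⟩
  sub := fun s x hx => ⟨hx.1.1, fun i => hx.1.2 i, hx.2.1⟩
  closed := fun s => h1.2.2.1 s
  cover := by
    intro x hx hQ i hi
    have : x ∈ Qc ∩ {x | x i = 0} := ⟨⟨hx, fun j => hQ j⟩, hi⟩
    rw [h1.1 i] at this
    rcases this with h | h
    · exact ⟨(i, true), rfl, h⟩
    · exact ⟨(i, false), rfl, h⟩
  disj := by
    rintro ⟨i, b⟩ ⟨j, c⟩ hij x hx hy
    have hij' : i = j := hij
    subst hij'
    have := disjoint_left.1 (h1.2.1 i)
    cases b <;> cases c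
    · rfl
    · exact absurd hx (this hy)
    · exact absurd hy (this hx)
    · rfl
  comm := fun s t hst x hx hy => h2 s t hst ⟨x, hx, hy⟩
  symm := fun s t h => ⟨Ne.symm h.1, fun h' => h.2 h'.symm⟩

theorem Q7_strat (A : Finset Mir) :
    Strat Q7_D Mt mir A = {x : E5 | x ∈ Qc ∧ ∀ s ∈ A, x ∈ mir s} := by
  ext x
  constructor
  · rintro ⟨h1, h2, h3⟩
    exact ⟨⟨h1, fun i => h2 i⟩, h3⟩
  · rintro ⟨h1, h3⟩
    exact ⟨h1.1, fun i => h1.2 i, h3⟩

/-- invariance under all sign changes from invariance under the reflections -/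
theorem Q7_inv (E : Set E5) (hE : ∀ i x, x ∈ E → refl i x ∈ E) (g : Fin 5 → ℤˣ) :
    ∀ x ∈ E, Q7_act g x ∈ E := by
  classical
  have key : ∀ F : Finset (Fin 5), ∀ x ∈ E,
      Q7_act (fun i => if i ∈ F then -1 else 1) x ∈ E := by
    intro F
    induction F using Finset.induction_on with
    | empty =>
      intro x hx
      have : Q7_act (fun i => if i ∈ (∅ : Finset (Fin 5)) then -1 else 1) x = x := by
        ext i
        rw [Q7_act_apply]
        simp
      rw [this]
      exact hx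
    | insert a F ha ih =>
      intro x hx
      have : Q7_act (fun i => if i ∈ insert a F then -1 else 1) x =
          refl a (Q7_act (fun i => if i ∈ F then -1 else 1) x) := by
        ext i
        show ((((if i ∈ insert a F then -1 else 1 : ℤˣ)) : ℤ) : ℝ) * x i =
          if i = a then - (((((if i ∈ F then -1 else 1 : ℤˣ)) : ℤ) : ℝ) * x i) else
            ((((if i ∈ F then -1 else 1 : ℤˣ)) : ℤ) : ℝ) * x i
        by_cases hia : i = a
        · subst hia
          rw [if_pos (Finset.mem_insert_self _ _), if_neg ha, if_pos rfl]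
          simp
        · rw [if_neg hia]
          by_cases hiF : i ∈ F
          · rw [if_pos (Finset.mem_insert_of_mem hiF), if_pos hiF]
          · rw [if_neg (fun h => (Finset.mem_insert.1 h).elim hia hiF), if_neg hiF]
      rw [this]
      exact hE a _ (ih x hx)
  intro x hx
  have e : g = fun i => if i ∈ Finset.univ.filter (fun i => g i = -1) then -1 else 1 := by
    funext i
    simp only [Finset.mem_filter, Finset.mem_univ, true_and]
    rcases Int.units_eq_one_or (g i) with h | h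
    · rw [h]
      simp
    · rw [h]
      simp
  rw [e]
  exact key _ x hx

theorem Q7 (hD : Stmt_D) (h1 : Stmt_Q1) (h2 : Stmt_Q2m) (h4 : Stmt_Q4) (h5 : Stmt_Q5)
    (h6 : Stmt_Q6) : Stmt_Q7 := by
  intro e he he1 hnu
  refine hD E5 (Fin 5) Mir Q7_D Prod.fst adj Mt mir (Q7_mir h1 h2) ?_ {m : Fin 5 // m ≠ 0}
    (fun m => EndS m.1 e) (fun m => {s | m.1 ∉ edge s}) ?_ ?_ ?_
  · intro A hA
    rw [Q7_strat]
    exact h4 A hA
  · intro m g
    exact Q7_inv _ (fun i x hx => ((h5 m.1 m.2 e he he1 hnu).2.2.1 i x).1 hx) g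
  · intro m s hs x hx hxE
    have hs' : m.1 ∈ edge s := not_not.1 hs
    have h7 := (h6 m.1 m.2 e he he1 hnu {s} (by
      intro a ha b hb hab
      rw [Finset.mem_singleton] at ha hb
      exact absurd (ha.trans hb.symm) hab)).2 ⟨s, Finset.mem_singleton_self s, hs'⟩
    have h8 : x ∈ {x : E5 | (x ∈ Qc ∧ ∀ s' ∈ ({s} : Finset Mir), x ∈ mir s') ∧
        x ∈ EndS m.1 e} := by
      refine ⟨⟨hx.1, fun s' hs' => ?_⟩, hxE⟩
      rw [Finset.mem_singleton.1 hs']
      exact hx
    rw [h7] at h8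
    exact h8
  · intro m A hA hAT
    have h7 := (h6 m.1 m.2 e he he1 hnu A hA).1 hAT
    have h8 : EndS m.1 e ∩ Strat Q7_D Mt mir A =
        {x : E5 | (x ∈ Qc ∧ ∀ s ∈ A, x ∈ mir s) ∧ x ∈ EndS m.1 e} := by
      rw [Q7_strat]
      ext x
      exact ⟨fun h => ⟨h.2, h.1⟩, fun h => ⟨h.2, h.1⟩⟩
    rw [h8]
    exact h7

end Pool.KT
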