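import Pool.Agent.Work.MP_70ab54_kt.InterfaceS

set_option autoImplicit false

namespace Pool.KT

open Set Topology
open scoped ContDiff

/-! ### Generalities -/

theorem S_COMP_reg_mono {Φ : ℂ × R3 → E5} {S S' : Set R3} (h : S ⊆ S') : reg Φ S ⊆ reg Φ S' := by
  rintro _ ⟨q, hq, rfl⟩
  exact ⟨q, ⟨hq.1, h hq.2⟩, rfl⟩

theorem S_COMP_reg_comp (J : E5 → E5) (Φ : ℂ × R3 → E5) (S : Set R3) :
    reg (J ∘ Φ) S = J '' reg Φ S := by
  unfold reg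
  rw [image_image]
  rfl

theorem S_COMP_Bd_mono {a b : ℝ} (h : a ≤ b) : Bd a ⊆ Bd b := by
  rintro x ⟨h1, h2⟩
  exact ⟨by linarith, by linarith⟩

theorem S_COMP_U_nu {e : ℝ} (he : 0 < e) : Ucirc ⊆ nu e := by
  intro x hx
  show (2 * x.2) ^ 2 + (nsq x - 1) ^ 2 < e ^ 2 * (nsq x + 1) ^ 2
  have e1 : x.2 = 0 := hx.2
  have e2 : nsq x = 1 := by
    unfold nsq
    rw [hx.1, e1]; norm_num
  rw [e1, e2]
  have : 0 < e ^ 2 := by positivity
  nlinarith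

theorem S_COMP_maps {d' e : ℝ} {j : R3 → R3} (hk : Knot d' e j) {D : ℝ} (hD : d' ≤ D) {x : R3}
    (hx : x ∈ Bd D) (hxU : x ∉ Ucirc) : j x ∈ Bd D := by
  by_contra hcon
  have h1 : j x ∉ Bd d' := fun h => hcon (S_COMP_Bd_mono hD h)
  have h2 : j (j x) = j x := hk.out _ h1
  have h3 : j x ∉ Ucirc := fun h => h1 (hk.sub (S_COMP_U_nu hk.e_pos h))
  have h4 : j x = x := hk.inj h3 hxU h2
  rw [h4] at hcon
  exact hcon hx

section sp

variable {Φ : ℂ × R3 → E5} {d d' e : ℝ} {j : R3 → R3} {J : E5 → E5}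

theorem S_COMP_off (hJ : SP Φ d d' j J) (hd : d' < d) {y : E5} (hy : y ∉ reg Φ (Bd d)) :
    J y = y :=
  hJ.off y fun h => hy (S_COMP_reg_mono (S_COMP_Bd_mono hd.le) h)

theorem S_COMP_on (hJ : SP Φ d d' j J) (hk : Knot d' e j) (hd : d' < d) {q : ℂ × R3}
    (hq : q ∈ cyl (Bd d)) (hy : Φ q ∉ reg Φ Ucirc) :
    (q.1, j q.2) ∈ cyl (Bd d) ∧ J (Φ q) = Φ (q.1, j q.2) := by
  have hU : q.2 ∉ Ucirc := fun h => hy ⟨q, ⟨hq.1, h⟩, rfl⟩
  exact ⟨⟨hq.1, S_COMP_maps hk hd.le hq.2 hU⟩, hJ.on q hq⟩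

theorem S_COMP_mem (hJ : SP Φ d d' j J) (hk : Knot d' e j) (hd : d' < d) {y : E5}
    (hy : y ∉ reg Φ Ucirc) : J y ∈ reg Φ (Bd d) ↔ y ∈ reg Φ (Bd d) := by
  constructor
  · intro h
    by_contra hcon
    rw [S_COMP_off hJ hd hcon] at h
    exact hcon h
  · rintro ⟨q, hq, rfl⟩
    obtain ⟨h1, h2⟩ := S_COMP_on hJ hk hd hq hy
    rw [h2]
    exact ⟨_, h1, rfl⟩

end sp

/-- reindexing the ends -/
theorem S_COMP_reindex {V : Type} [TopologicalSpace V] {X : Set V} {ι κ : Type} {E : ι → Set V}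
    {E' : κ → Set V} (h : GoodCover X E) (hE : ∀ k, ∃ i, E' k = E i) : GoodCover X E' := by
  obtain ⟨R, tR, q, h1, h2, h3, h4⟩ := h
  refine ⟨R, tR, q, h1, h2, h3, fun k => ?_⟩
  obtain ⟨i, hi⟩ := hE k
  rw [hi]
  exact h4 i

/-- images of ends stay in the complement -/
theorem S_COMP_sub {Φ : ℂ × R3 → E5} {d d' : ℝ} {j : R3 → R3} {J : E5 → E5}
    (hJ : SP Φ d d' j J) {K E : Set E5} (hK : Disjoint K (reg Φ Ucirc))
    (hE : E ⊆ ({0} ∪ reg Φ Ucirc ∪ K)ᶜ) : J '' E ⊆ ({0} ∪ J '' K)ᶜ := by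
  rintro _ ⟨y, hy, rfl⟩ h
  have hy' := hE hy
  have hy0 : y ≠ 0 := fun h0 => hy' (Or.inl (Or.inl h0))
  have hyT : y ∉ reg Φ Ucirc := fun h0 => hy' (Or.inl (Or.inr h0))
  have hyK : y ∉ K := fun h0 => hy' (Or.inr h0)
  rcases h with h | ⟨z, hz, hzy⟩
  · exact hJ.ne y hyT hy0 h
  · have hzT : z ∉ reg Φ Ucirc := fun h0 => (Set.disjoint_left.1 hK) hz h0
    have := hJ.inj hzT hyT hzy
    rw [this] at hz
    exact hyK hz

theorem stmt_S_COMP (hSP : Stmt_S_SP) (hCON : Stmt_S_CON) (hSTEP : Stmt_S_STEP) :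
    Stmt_S_COMP := by
  intro d d' e Φ T0 j hd' hd hk tab hG
  have he := hk.e_pos
  have hUB : Ucirc ⊆ nu e := S_COMP_U_nu he
  have hBd : nu e ⊆ Bd d := hk.sub.trans (S_COMP_Bd_mono hd.le)
  have c1 := tab.ch 1 (by decide)
  have c2 := tab.ch 2 (by decide)
  have c3 := tab.ch 3 (by decide)
  have c4 := tab.ch 4 (by decide)
  -- abbreviations
  set J1 := surg (Φ 1) d j with hJ1def
  set J4 := surg (Φ 4) d j with hJ4def
  have s1 : SP (Φ 1) d d' j J1 := hSP d d' e (Φ 1) j hd' hd c1 hk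
  have s4 : SP (Φ 4) d d' j J4 := hSP d d' e (Φ 4) j hd' hd c4 hk
  have s2o : SP (Φ 2) d d' j (surg (Φ 2) d j) := hSP d d' e (Φ 2) j hd' hd c2 hk
  have s3o : SP (Φ 3) d d' j (surg (Φ 3) d j) := hSP d d' e (Φ 3) j hd' hd c3 hk
  have tb : ∀ m, reg (Φ m) Ucirc ⊆ reg (Φ m) (nu e) := fun m => S_COMP_reg_mono hUB
  have bn : ∀ m, reg (Φ m) (nu e) ⊆ reg (Φ m) (Bd d) := fun m => S_COMP_reg_mono hBd
  have n14 := Set.disjoint_left.1 tab.n14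
  have n23 := Set.disjoint_left.1 tab.n23
  have n2t1 := Set.disjoint_left.1 tab.n2t1
  have n3t4 := Set.disjoint_left.1 tab.n3t4
  have n1t3 := Set.disjoint_left.1 tab.n1t3
  have n4t2 := Set.disjoint_left.1 tab.n4t2
  have c2' : Chart d (J1 ∘ Φ 2) := hCON d d' d (Φ 1) (Φ 2) j J1 s1 c2
    (Set.disjoint_left.2 fun x hx hx' => n2t1 hx (tb 1 hx'))
  have c3' : Chart d (J4 ∘ Φ 3) := hCON d d' d (Φ 4) (Φ 3) j J4 s4 c3
    (Set.disjoint_left.2 fun x hx hx' => n3t4 hx (tb 4 hx'))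
  set J2 := surg (J1 ∘ Φ 2) d j with hJ2def
  set J3 := surg (J4 ∘ Φ 3) d j with hJ3def
  have s2 : SP (J1 ∘ Φ 2) d d' j J2 := hSP d d' e (J1 ∘ Φ 2) j hd' hd c2' hk
  have s3 : SP (J4 ∘ Φ 3) d d' j J3 := hSP d d' e (J4 ∘ Φ 3) j hd' hd c3' hk
  have r2 : ∀ S, reg (J1 ∘ Φ 2) S = J1 '' reg (Φ 2) S := S_COMP_reg_comp J1 (Φ 2)
  have r3 : ∀ S, reg (J4 ∘ Φ 3) S = J4 '' reg (Φ 3) S := S_COMP_reg_comp J4 (Φ 3)
  -- separation of the two new regions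
  have slices : ∀ a ∈ reg (Φ 2) (Bd d), ∀ b ∈ reg (Φ 3) (Bd d), J1 a ≠ J4 b := by
    intro a ha b hb hab
    have haT : a ∉ reg (Φ 1) Ucirc := fun h => n2t1 ha (tb 1 h)
    have hbT : b ∉ reg (Φ 4) Ucirc := fun h => n3t4 hb (tb 4 h)
    by_cases ha1 : a ∈ reg (Φ 1) (Bd d)
    · have hz1 : J1 a ∈ reg (Φ 1) (Bd d) := (S_COMP_mem s1 hk hd haT).2 ha1
      have hb4 : b ∉ reg (Φ 4) (Bd d) := by
        intro h
        have := (S_COMP_mem s4 hk hd hbT).2 h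
        rw [← hab] at this
        exact n14 hz1 this
      rw [S_COMP_off s4 hd hb4] at hab
      obtain ⟨S, hS1, hS2⟩ := tab.sep1
      obtain ⟨q, hq, rfl⟩ := ha1
      obtain ⟨h1, h2⟩ := S_COMP_on s1 hk hd hq haT
      rw [h2] at hab
      exact hS2 q hq ha (hS1 (q.1, j q.2) h1 (by rw [hab]; exact hb))
    · rw [S_COMP_off s1 hd ha1] at hab
      by_cases hb4 : b ∈ reg (Φ 4) (Bd d)
      · obtain ⟨S, hS1, hS2⟩ := tab.sep4
        obtain ⟨q, hq, rfl⟩ := hb4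
        obtain ⟨h1, h2⟩ := S_COMP_on s4 hk hd hq hbT
        rw [h2] at hab
        exact hS2 q hq hb (hS1 (q.1, j q.2) h1 (by rw [← hab]; exact ha))
      · rw [S_COMP_off s4 hd hb4] at hab
        rw [hab] at ha
        exact n23 ha hb
  -- pointwise facts
  have f13 : ∀ y ∈ reg (Φ 3) (nu e), J1 y = y := fun y hy =>
    S_COMP_off s1 hd fun h => n1t3 h hy
  have f14 : ∀ y ∈ reg (Φ 4) (Bd d), J1 y = y := fun y hy =>
    S_COMP_off s1 hd fun h => n14 h hy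
  have k14 : ∀ y, y ∉ reg (Φ 1) Ucirc → J1 y ∈ reg (Φ 4) (Bd d) → J1 y = y := by
    intro y hy h
    have : J1 y ∉ reg (Φ 1) (Bd d) := fun h' => n14 h' h
    rw [S_COMP_mem s1 hk hd hy] at this
    exact S_COMP_off s1 hd this
  have f2 : ∀ y ∈ reg (Φ 2) (nu e), J4 (J1 y) = J1 y := by
    intro y hy
    apply S_COMP_off s4 hd
    intro h
    have hyT : y ∉ reg (Φ 1) Ucirc := fun h => n2t1 (bn 2 hy) (tb 1 h)
    rw [k14 y hyT h] at h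
    exact n4t2 h hy
  have f3 : ∀ y ∈ reg (Φ 3) (Bd d), J2 (J4 y) = J4 y := by
    intro y hy
    apply S_COMP_off s2 hd
    rw [r2]
    rintro ⟨a, ha, hab⟩
    exact slices a ha y hy hab
  -- T0 and the tori
  have t0 : ∀ m, m ≠ 0 → ∀ y ∈ T0, y ∉ reg (Φ m) (nu e) := fun m hm y hy h =>
    (Set.disjoint_left.1 (tab.t0 m hm)) hy h
  -- closedness of the cones
  have cl : ∀ (Ψ : ℂ × R3 → E5) (J : E5 → E5), SP Ψ d d' j J → IsClosed ({0} ∪ reg Ψ Ucirc) :=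
    fun Ψ J h => isOpen_compl_iff.1 h.loc.1
  -- pairwise disjointness of the tori
  have d12 : ∀ y ∈ reg (Φ 2) (Bd d), y ∉ reg (Φ 1) Ucirc := fun y hy h => n2t1 hy (tb 1 h)
  have d13 : ∀ y ∈ reg (Φ 3) (nu e), y ∉ reg (Φ 1) Ucirc := fun y hy h =>
    n1t3 (bn 1 (tb 1 h)) hy
  have d14 : ∀ y ∈ reg (Φ 4) (Bd d), y ∉ reg (Φ 1) Ucirc := fun y hy h =>
    n14 (bn 1 (tb 1 h)) hy
  -- the domain
  set L := Lset Φ with hL
  have mem_ne : ∀ m : Fin 5, m ≠ 0 → m = 1 ∨ m = 2 ∨ m = 3 ∨ m = 4 := by decide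
  have memL : ∀ y, y ∈ L ↔ y ≠ 0 ∧ y ∉ reg (Φ 1) Ucirc ∧ y ∉ reg (Φ 2) Ucirc ∧
      y ∉ reg (Φ 3) Ucirc ∧ y ∉ reg (Φ 4) Ucirc := by
    intro y
    constructor
    · rintro ⟨h0, h⟩
      exact ⟨h0, h 1 (by decide), h 2 (by decide), h 3 (by decide), h 4 (by decide)⟩
    · rintro ⟨h0, h1, h2, h3, h4⟩
      refine ⟨h0, fun m hm => ?_⟩
      rcases mem_ne m hm with rfl | rfl | rfl | rfl <;> assumption
  have openL : IsOpen L := by
    have : L = ({0} ∪ reg (Φ 1) Ucirc)ᶜ ∩ ({0} ∪ reg (Φ 2) Ucirc)ᶜ ∩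
        (({0} ∪ reg (Φ 3) Ucirc)ᶜ ∩ ({0} ∪ reg (Φ 4) Ucirc)ᶜ) := by
      ext y
      rw [memL]
      constructor
      · rintro ⟨h0, h1, h2, h3, h4⟩
        refine ⟨⟨?_, ?_⟩, ?_, ?_⟩ <;> rintro (h | h) <;> first | exact h0 h | skip
        · exact h1 h
        · exact h2 h
        · exact h3 h
        · exact h4 h
      · rintro ⟨⟨h1, h2⟩, h3, h4⟩
        exact ⟨fun h => h1 (Or.inl h), fun h => h1 (Or.inr h), fun h => h2 (Or.inr h),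
          fun h => h3 (Or.inr h), fun h => h4 (Or.inr h)⟩
    rw [this]
    exact ((s1.loc.1).inter (s2o.loc.1)).inter ((s3o.loc.1).inter (s4.loc.1))
  -- images in the domains of the next maps
  have a1 : ∀ y, y ≠ 0 → y ∉ reg (Φ 1) Ucirc → y ∉ reg (Φ 4) Ucirc →
      J1 y ≠ 0 ∧ J1 y ∉ reg (Φ 4) Ucirc := by
    intro y h0 h1 h4
    refine ⟨s1.ne y h1 h0, fun h => ?_⟩
    rw [k14 y h1 (bn 4 (tb 4 h))] at h
    exact h4 h
  have a2 : ∀ y, y ≠ 0 → y ∉ reg (Φ 1) Ucirc → y ∉ reg (Φ 4) Ucirc →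
      ∀ S ⊆ nu e, y ∉ reg (Φ 2) S → J4 (J1 y) ∉ reg (J1 ∘ Φ 2) S := by
    intro y h0 h1 h4 S hS h2 h
    rw [r2] at h
    obtain ⟨z, hz, hzy⟩ := h
    have hzB : z ∈ reg (Φ 2) (nu e) := S_COMP_reg_mono hS hz
    rw [← f2 z hzB] at hzy
    have hz1 : z ∉ reg (Φ 1) Ucirc := d12 z (bn 2 hzB)
    have hz4 : z ∉ reg (Φ 4) Ucirc := fun h => n4t2 (bn 4 (tb 4 h)) hzB
    have hz0 : z ≠ 0 := by
      obtain ⟨q, hq, rfl⟩ := bn 2 hzB
      exact c2.ne q hq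
    have e1 := s4.inj (a1 z hz0 hz1 hz4).2 (a1 y h0 h1 h4).2 hzy
    have e2 := s1.inj hz1 h1 e1
    rw [e2] at hz
    exact h2 hz
  have a3 : ∀ y ∈ L, J4 (J1 y) ≠ 0 ∧ J4 (J1 y) ∉ reg (J1 ∘ Φ 2) Ucirc := by
    intro y hy
    rw [memL] at hy
    obtain ⟨h0, h1, h2, h3, h4⟩ := hy
    obtain ⟨b1, b2⟩ := a1 y h0 h1 h4
    exact ⟨s4.ne _ b2 b1, a2 y h0 h1 h4 Ucirc hUB h2⟩
  have inj24 : ∀ y ∈ L, ∀ z, z ≠ 0 → z ∉ reg (Φ 1) Ucirc → z ∉ reg (Φ 4) Ucirc →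
      z ∉ reg (Φ 2) Ucirc → J2 (J4 (J1 z)) = J2 (J4 (J1 y)) → z = y := by
    intro y hy z z0 z1 z4 z2 h
    have e1 := s2.inj (a2 z z0 z1 z4 Ucirc hUB z2) (a3 y hy).2 h
    rw [memL] at hy
    have e2 := s4.inj (a1 z z0 z1 z4).2 (a1 y hy.1 hy.2.1 hy.2.2.2.2).2 e1
    exact s1.inj z1 hy.2.1 e2
  have a4 : ∀ y ∈ L, ∀ S ⊆ nu e, y ∉ reg (Φ 3) S →
      J2 (J4 (J1 y)) ∉ reg (J4 ∘ Φ 3) S := by
    intro y hy S hS h3 h
    rw [r3] at h
    obtain ⟨z, hz, hzy⟩ := h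
    have hzB : z ∈ reg (Φ 3) (nu e) := S_COMP_reg_mono hS hz
    rw [← f3 z (bn 3 hzB)] at hzy
    have hzy' : J2 (J4 (J1 z)) = J2 (J4 (J1 y)) := by rw [f13 z hzB]; exact hzy
    have hz0 : z ≠ 0 := by
      obtain ⟨q, hq, rfl⟩ := bn 3 hzB
      exact c3.ne q hq
    have := inj24 y hy z hz0 (d13 z hzB) (fun h => n3t4 (bn 3 hzB) (tb 4 h))
      (fun h => n23 (bn 2 (tb 2 h)) (bn 3 hzB)) hzy'
    rw [this] at hz
    exact h3 hz
  have a5 : ∀ y ∈ L, J2 (J4 (J1 y)) ≠ 0 ∧ J2 (J4 (J1 y)) ∉ reg (J4 ∘ Φ 3) Ucirc := by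
    intro y hy
    exact ⟨s2.ne _ (a3 y hy).2 (a3 y hy).1, a4 y hy Ucirc hUB ((memL y).1 hy).2.2.2.1⟩
  -- T0 lies in the domain
  have t0L : ∀ y ∈ T0, y ∈ L := by
    intro y hy
    rw [memL]
    exact ⟨fun h => tab.t0_zero (by rw [← h]; exact hy),
      fun h => t0 1 (by decide) y hy (tb 1 h), fun h => t0 2 (by decide) y hy (tb 2 h),
      fun h => t0 3 (by decide) y hy (tb 3 h), fun h => t0 4 (by decide) y hy (tb 4 h)⟩
  have hJt : ∀ y, Jtot d j Φ y = J3 (J2 (J4 (J1 y))) := fun y => rfl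
  -- the four steps
  have step4 : IsClosed ({0} ∪ J3 '' (J2 '' (J4 '' (J1 '' T0)))) ∧
      GoodCover ({0} ∪ J3 '' (J2 '' (J4 '' (J1 '' T0))))ᶜ (fun _ : Empty => (∅ : Set E5)) := by
    -- first step
    have K1 : Disjoint (reg (Φ 2) Ucirc ∪ reg (Φ 3) Ucirc ∪ reg (Φ 4) Ucirc ∪ T0)
        (reg (Φ 1) (nu e)) := by
      rw [Set.disjoint_left]
      rintro y (((h | h) | h) | h) h'
      · exact n2t1 (bn 2 (tb 2 h)) h'
      · exact n1t3 (bn 1 h') (tb 3 h)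
      · exact n14 (bn 1 h') (bn 4 (tb 4 h))
      · exact t0 1 (by decide) y h h'
    have X1 : (Lset Φ \ T0) = ({0} ∪ reg (Φ 1) Ucirc ∪
        (reg (Φ 2) Ucirc ∪ reg (Φ 3) Ucirc ∪ reg (Φ 4) Ucirc ∪ T0))ᶜ := by
      ext y
      constructor
      · rintro ⟨hy, hyT⟩
        rw [← hL, memL] at hy
        rintro ((h | h) | (((h | h) | h) | h))
        · exact hy.1 h
        · exact hy.2.1 h
        · exact hy.2.2.1 h
        · exact hy.2.2.2.1 h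
        · exact hy.2.2.2.2 h
        · exact hyT h
      · intro h
        refine ⟨?_, fun h' => h (Or.inr (Or.inr h'))⟩
        rw [← hL, memL]
        exact ⟨fun h' => h (Or.inl (Or.inl h')), fun h' => h (Or.inl (Or.inr h')),
          fun h' => h (Or.inr (Or.inl (Or.inl (Or.inl h')))),
          fun h' => h (Or.inr (Or.inl (Or.inl (Or.inr h')))),
          fun h' => h (Or.inr (Or.inl (Or.inr h')))⟩
    have cl1 : IsClosed ({0} ∪ reg (Φ 1) Ucirc ∪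
        (reg (Φ 2) Ucirc ∪ reg (Φ 3) Ucirc ∪ reg (Φ 4) Ucirc ∪ T0)) := by
      have e1 : ({0} ∪ reg (Φ 1) Ucirc ∪
        (reg (Φ 2) Ucirc ∪ reg (Φ 3) Ucirc ∪ reg (Φ 4) Ucirc ∪ T0)) =
          (({0} ∪ reg (Φ 1) Ucirc) ∪ ({0} ∪ reg (Φ 2) Ucirc)) ∪
          (({0} ∪ reg (Φ 3) Ucirc) ∪ ({0} ∪ reg (Φ 4) Ucirc)) ∪ ({0} ∪ T0) := by
        ext y
        simp only [mem_union]
        tauto
      rw [e1]
      exact (((cl _ _ s1).union (cl _ _ s2o)).union ((cl _ _ s3o).union (cl _ _ s4))).union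
        tab.t0_closed
    -- the ends avoid everything
    have sub1 : ∀ i : Fin 3, ![reg (Φ 2) (nu e \ Ucirc), reg (Φ 3) (nu e \ Ucirc),
        reg (Φ 4) (nu e \ Ucirc)] i ⊆ ({0} ∪ reg (Φ 1) Ucirc ∪
        (reg (Φ 2) Ucirc ∪ reg (Φ 3) Ucirc ∪ reg (Φ 4) Ucirc ∪ T0))ᶜ := by
      have own : ∀ (m : Fin 5), m ≠ 0 → ∀ y ∈ reg (Φ m) (nu e \ Ucirc),
          y ∉ reg (Φ m) Ucirc := by
        rintro m hm _ ⟨q, hq, rfl⟩ ⟨q', hq', h⟩
        have := (tab.ch m hm).inj (⟨hq'.1, hBd (hUB hq'.2)⟩) (⟨hq.1, hBd hq.2.1⟩) h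
        rw [this] at hq'
        exact hq.2.2 hq'.2
      have nz : ∀ (m : Fin 5), m ≠ 0 → ∀ y ∈ reg (Φ m) (nu e \ Ucirc), y ≠ 0 := by
        rintro m hm _ ⟨q, hq, rfl⟩
        exact (tab.ch m hm).ne q ⟨hq.1, hBd hq.2.1⟩
      have eb : ∀ (m : Fin 5), reg (Φ m) (nu e \ Ucirc) ⊆ reg (Φ m) (nu e) :=
        fun m => S_COMP_reg_mono diff_subset
      have g : ∀ y, (y ≠ 0 ∧ y ∉ reg (Φ 1) Ucirc ∧ y ∉ reg (Φ 2) Ucirc ∧
          y ∉ reg (Φ 3) Ucirc ∧ y ∉ reg (Φ 4) Ucirc ∧ y ∉ T0) → y ∈ ({0} ∪ reg (Φ 1) Ucirc ∪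
        (reg (Φ 2) Ucirc ∪ reg (Φ 3) Ucirc ∪ reg (Φ 4) Ucirc ∪ T0))ᶜ := by
        rintro y ⟨g0, g1, g2, g3, g4, g5⟩
        rintro ((h | h) | (((h | h) | h) | h))
        · exact g0 h
        · exact g1 h
        · exact g2 h
        · exact g3 h
        · exact g4 h
        · exact g5 h
      intro i
      fin_cases i
      · intro y hy
        have hy : y ∈ reg (Φ 2) (nu e \ Ucirc) := hy
        exact g y ⟨nz 2 (by decide) y hy, fun h => n2t1 (bn 2 (eb 2 hy)) (tb 1 h),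
          own 2 (by decide) y hy, fun h => n23 (bn 2 (eb 2 hy)) (bn 3 (tb 3 h)),
          fun h => n4t2 (bn 4 (tb 4 h)) (eb 2 hy), fun h => t0 2 (by decide) y h (eb 2 hy)⟩
      · intro y hy
        have hy : y ∈ reg (Φ 3) (nu e \ Ucirc) := hy
        exact g y ⟨nz 3 (by decide) y hy, fun h => n1t3 (bn 1 (tb 1 h)) (eb 3 hy),
          fun h => n23 (bn 2 (tb 2 h)) (bn 3 (eb 3 hy)), own 3 (by decide) y hy,
          fun h => n3t4 (bn 3 (eb 3 hy)) (tb 4 h), fun h => t0 3 (by decide) y h (eb 3 hy)⟩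
      · intro y hy
        have hy : y ∈ reg (Φ 4) (nu e \ Ucirc) := hy
        exact g y ⟨nz 4 (by decide) y hy, fun h => n14 (bn 1 (tb 1 h)) (bn 4 (eb 4 hy)),
          fun h => n4t2 (bn 4 (eb 4 hy)) (tb 2 h), fun h => n3t4 (bn 3 (tb 3 h)) (eb 4 hy),
          own 4 (by decide) y hy, fun h => t0 4 (by decide) y h (eb 4 hy)⟩
    have g1 := hSTEP d d' e (Φ 1) j J1 hd c1 hk s1 _ (Fin 3) _ cl1 K1 sub1 (by
      rw [← X1]
      refine S_COMP_reindex hG ?_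
      rintro (_ | i)
      · exact ⟨0, rfl⟩
      · fin_cases i
        · exact ⟨1, rfl⟩
        · exact ⟨2, rfl⟩
        · exact ⟨3, rfl⟩)
    -- images which do not move
    have im13 : ∀ S ⊆ nu e, J1 '' reg (Φ 3) S = reg (Φ 3) S := fun S hS =>
      (image_congr fun y hy => f13 y (S_COMP_reg_mono hS hy)).trans (image_id _)
    have im14 : ∀ S ⊆ Bd d, J1 '' reg (Φ 4) S = reg (Φ 4) S := fun S hS =>
      (image_congr fun y hy => f14 y (S_COMP_reg_mono hS hy)).trans (image_id _)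
    have im2 : ∀ S ⊆ nu e, J4 '' (J1 '' reg (Φ 2) S) = reg (J1 ∘ Φ 2) S := fun S hS => by
      rw [r2, image_image]
      exact image_congr fun y hy => f2 y (S_COMP_reg_mono hS hy)
    have im3 : ∀ S ⊆ Bd d, J2 '' reg (J4 ∘ Φ 3) S = reg (J4 ∘ Φ 3) S := fun S hS => by
      rw [r3, image_image]
      exact image_congr fun y hy => f3 y (S_COMP_reg_mono hS hy)
    have hdn : nu e \ Ucirc ⊆ nu e := diff_subset
    -- second step
    have K2 : Disjoint (J1 '' reg (Φ 2) Ucirc ∪ reg (Φ 3) Ucirc ∪ J1 '' T0)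
        (reg (Φ 4) (nu e)) := by
      rw [Set.disjoint_left]
      rintro y ((⟨z, hz, rfl⟩ | h) | ⟨z, hz, rfl⟩) h'
      · have := k14 z (d12 z (bn 2 (tb 2 hz))) (bn 4 h')
        rw [this] at h'
        exact n4t2 (bn 4 h') (tb 2 hz)
      · exact n3t4 (bn 3 (tb 3 h)) h'
      · have := k14 z (fun h => t0 1 (by decide) z hz (tb 1 h)) (bn 4 h')
        rw [this] at h'
        exact t0 4 (by decide) z hz h'
    have X2 : {0} ∪ J1 '' (reg (Φ 2) Ucirc ∪ reg (Φ 3) Ucirc ∪ reg (Φ 4) Ucirc ∪ T0) =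
        {0} ∪ reg (Φ 4) Ucirc ∪ (J1 '' reg (Φ 2) Ucirc ∪ reg (Φ 3) Ucirc ∪ J1 '' T0) := by
      rw [image_union, image_union, image_union, im13 _ hUB, im14 _ (hUB.trans hBd)]
      ext y
      simp only [mem_union]
      tauto
    have K1' : Disjoint (reg (Φ 2) Ucirc ∪ reg (Φ 3) Ucirc ∪ reg (Φ 4) Ucirc ∪ T0)
        (reg (Φ 1) Ucirc) := K1.mono_right (tb 1)
    have sub2 : ∀ i : Fin 2, ![J1 '' reg (Φ 2) (nu e \ Ucirc), reg (Φ 3) (nu e \ Ucirc)] i ⊆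
        ({0} ∪ reg (Φ 4) Ucirc ∪ (J1 '' reg (Φ 2) Ucirc ∪ reg (Φ 3) Ucirc ∪ J1 '' T0))ᶜ := by
      intro i
      rw [← X2]
      fin_cases i
      · exact S_COMP_sub s1 K1' (sub1 0)
      · have := S_COMP_sub s1 K1' (sub1 1)
        have e : J1 '' (![reg (Φ 2) (nu e \ Ucirc), reg (Φ 3) (nu e \ Ucirc),
          reg (Φ 4) (nu e \ Ucirc)] 1) = reg (Φ 3) (nu e \ Ucirc) := im13 _ hdn
        rw [e] at this
        exact this
    rw [X2] at g1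
    have g2 := hSTEP d d' e (Φ 4) j J4 hd c4 hk s4 _ (Fin 2) _ g1.1 K2 sub2 (by
      refine S_COMP_reindex g1.2 ?_
      rintro (_ | i)
      · exact ⟨2, (im14 _ (hdn.trans hBd)).symm⟩
      · fin_cases i
        · exact ⟨0, rfl⟩
        · exact ⟨1, (im13 _ hdn).symm⟩)
    -- third step
    have K3 : Disjoint (reg (J4 ∘ Φ 3) Ucirc ∪ J4 '' (J1 '' T0)) (reg (J1 ∘ Φ 2) (nu e)) := by
      rw [Set.disjoint_left]
      rintro y (h | ⟨z, ⟨w, hw, rfl⟩, rfl⟩) h'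
      · rw [r3] at h
        rw [r2] at h'
        obtain ⟨b, hb, rfl⟩ := h
        obtain ⟨a, ha, hab⟩ := h'
        exact slices a (bn 2 ha) b (bn 3 (tb 3 hb)) hab
      · have hw' := (memL w).1 (t0L w hw)
        exact a2 w hw'.1 hw'.2.1 hw'.2.2.2.2 (nu e) subset_rfl (t0 2 (by decide) w hw) h'
    have X3 : {0} ∪ J4 '' (J1 '' reg (Φ 2) Ucirc ∪ reg (Φ 3) Ucirc ∪ J1 '' T0) =
        {0} ∪ reg (J1 ∘ Φ 2) Ucirc ∪ (reg (J4 ∘ Φ 3) Ucirc ∪ J4 '' (J1 '' T0)) := by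
      rw [image_union, image_union, im2 _ hUB, ← r3]
      ext y
      simp only [mem_union]
      tauto
    have sub3 : ∀ i : Fin 1, ![reg (J4 ∘ Φ 3) (nu e \ Ucirc)] i ⊆
        ({0} ∪ reg (J1 ∘ Φ 2) Ucirc ∪ (reg (J4 ∘ Φ 3) Ucirc ∪ J4 '' (J1 '' T0)))ᶜ := by
      intro i
      rw [← X3]
      fin_cases i
      have := S_COMP_sub s4 (K2.mono_right (tb 4)) (sub2 1)
      have e : J4 '' (![J1 '' reg (Φ 2) (nu e \ Ucirc), reg (Φ 3) (nu e \ Ucirc)] 1) =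
        reg (J4 ∘ Φ 3) (nu e \ Ucirc) := (r3 _).symm
      rw [e] at this
      exact this
    rw [X3] at g2
    have g3 := hSTEP d d' e (J1 ∘ Φ 2) j J2 hd c2' hk s2 _ (Fin 1) _ g2.1 K3 sub3 (by
      refine S_COMP_reindex g2.2 ?_
      rintro (_ | i)
      · exact ⟨0, (im2 _ hdn).symm⟩
      · fin_cases i
        exact ⟨1, r3 _⟩)
    -- fourth step
    have K4 : Disjoint (J2 '' (J4 '' (J1 '' T0))) (reg (J4 ∘ Φ 3) (nu e)) := by
      rw [Set.disjoint_left]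
      rintro y ⟨x, ⟨z, ⟨w, hw, rfl⟩, rfl⟩, rfl⟩ h'
      exact a4 w (t0L w hw) (nu e) subset_rfl (t0 3 (by decide) w hw) h'
    have X4 : {0} ∪ J2 '' (reg (J4 ∘ Φ 3) Ucirc ∪ J4 '' (J1 '' T0)) =
        {0} ∪ reg (J4 ∘ Φ 3) Ucirc ∪ J2 '' (J4 '' (J1 '' T0)) := by
      rw [image_union, im3 _ (hUB.trans hBd)]
      ext y
      simp only [mem_union]
      tauto
    rw [X4] at g3
    have g4 := hSTEP d d' e (J4 ∘ Φ 3) j J3 hd c3' hk s3 _ Empty (fun _ => (∅ : Set E5)) g3.1 K4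
      (fun i => i.elim) (by
      refine S_COMP_reindex g3.2 ?_
      rintro (_ | i)
      · exact ⟨0, (im3 _ (hdn.trans hBd)).symm⟩
      · exact i.elim)
    exact ⟨g4.1, S_COMP_reindex g4.2 fun k => k.elim⟩
  refine ⟨?_, ?_, ?_, ?_, ?_, ?_⟩
  · -- loc
    have l1 : LocDiffOn J1 L := s1.loc.mono openL (fun y hy => by
      rw [memL] at hy
      rintro (h | h)
      · exact hy.1 h
      · exact hy.2.1 h)
    have l2 : LocDiffOn (fun y => J4 (J1 y)) L := s4.loc.comp l1 (fun y hy => by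
      rw [memL] at hy
      have := a1 y hy.1 hy.2.1 hy.2.2.2.2
      rintro (h | h)
      · exact this.1 h
      · exact this.2 h)
    have l3 : LocDiffOn (fun y => J2 (J4 (J1 y))) L := s2.loc.comp l2 (fun y hy => by
      have := a3 y hy
      rintro (h | h)
      · exact this.1 h
      · exact this.2 h)
    exact s3.loc.comp l3 (fun y hy => by
      have := a5 y hy
      rintro (h | h)
      · exact this.1 h
      · exact this.2 h)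
  · -- inj
    intro y hy z hz h
    rw [hJt, hJt] at h
    have e1 := s3.inj (a5 y hy).2 (a5 z hz).2 h
    have hy' := (memL y).1 hy
    exact inj24 z hz y hy'.1 hy'.2.1 hy'.2.2.2.2 hy'.2.2.1 e1
  · -- hom
    intro t ht y hy
    rw [hJt, hJt]
    have hy' := (memL y).1 hy
    rw [s1.hom t ht y hy'.2.1, s4.hom t ht _ (a1 y hy'.1 hy'.2.1 hy'.2.2.2.2).2,
      s2.hom t ht _ (a3 y hy).2, s3.hom t ht _ (a5 y hy).2]
  · -- ne
    intro y hy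
    rw [hJt]
    exact s3.ne _ (a5 y hy).2 (a5 y hy).1
  · have e1 : Jtot d j Φ '' T0 = J3 '' (J2 '' (J4 '' (J1 '' T0))) := by
      rw [image_image, image_image, image_image]
      rfl
    rw [e1]
    exact step4.1
  · have e1 : Jtot d j Φ '' T0 = J3 '' (J2 '' (J4 '' (J1 '' T0))) := by
      rw [image_image, image_image, image_image]
      rfl
    rw [e1]
    exact step4.2

end Pool.KT
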