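import Pool.Agent.Work.MP_70ab54_kt.AllS
import Pool.Agent.Work.MP_70ab54_kt.Assembly
import Pool.Agent.Work.MP_70ab54_kt.C1
import Pool.Agent.Work.MP_70ab54_kt.C4
import Pool.Agent.Work.MP_70ab54_kt.C6
import Pool.Agent.Work.MP_70ab54_kt.C7
import Pool.Agent.Work.MP_70ab54_kt.C10
import Pool.Agent.Work.MP_70ab54_kt.C12
import Pool.Agent.Work.MP_70ab54_kt.C13
import Pool.Agent.Work.MP_70ab54_kt.Q1
import Pool.Agent.Work.MP_70ab54_kt.Q2
import Pool.Agent.Work.MP_70ab54_kt.Q5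
import Pool.Agent.Work.MP_70ab54_kt.Q6
import Pool.Agent.Work.MP_70ab54_kt.Q7
import Pool.Agent.Work.MP_70ab54_kt.S_COMP

/-!
# MP_70ab54: everything assembled (helper25)
-/

set_option autoImplicit false

namespace Pool.KT

theorem all_Q5 : Stmt_Q5 := stmt_Q5 all_NUC

theorem all_Q6 : Stmt_Q6 := stmt_Q6 stmt_C5 stmt_C10 stmt_C18 all_Q5

theorem all_Q7 : Stmt_Q7 := Q7 all_D stmt_Q1 stmt_Q2m stmt_Q4 all_Q5 all_Q6

theorem all_COMP : Stmt_S_COMP := stmt_S_COMP all_SP S_CON all_STEP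

theorem all_answer : Answer :=
  answer_of_J (stmt_J stmt_C1 stmt_C2 stmt_C3 stmt_C4 stmt_C5 stmt_C7 stmt_C8 stmt_C9 stmt_C11
    stmt_C12 all_Q5 all_Q7 all_K S_KN all_COMP)

end Pool.KT
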