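import Pool.Agent.Work.MP_70ab54_kt.InterfaceD

/-!
# Block D_CH of MP_70ab54 (helper23): the strata of a chamber of the development
-/

set_option autoImplicit false

namespace Pool.KT

open Set Topology

variable {V : Type} [TopologicalSpace V] {ι S : Type} {D : ReflData V ι} {ty : S → ι}
  {cm : S → S → Prop} {G : Gal ty cm} {X : Set V} {m : S → Set V}

theorem DCH_sq (g : ι → ℤˣ) : g * g = 1 := by
  funext i
  exact Int.units_mul_self (g i)

theorem DCH_sq_real (u : ℤˣ) : ((u : ℤ) : ℝ) * ((u : ℤ) : ℝ) = 1 := by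
  rcases Int.units_eq_one_or u with h | h <;> rw [h] <;> norm_num

theorem DCH_act_one (D : ReflData V ι) (x : V) : D.act 1 x = x :=
  D.act_fix 1 x (fun _ _ => rfl)

theorem DCH_act_act (D : ReflData V ι) (g : ι → ℤˣ) (x : V) : D.act g (D.act g x) = x := by
  rw [D.act_mul, DCH_sq, DCH_act_one]

theorem DCH_adm_iff (D : ReflData V ι) (g : ι → ℤˣ) (x : V) : Adm D g x ↔ D.act g x ∈ D.Q := by
  constructor
  · intro h i
    rw [D.h_act]
    exact h i
  · intro h i
    have := h i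
    rw [D.h_act] at this
    exact this

theorem DCH_sgv_adm (D : ReflData V ι) (x : V) : Adm D (D.sgv x) x := by
  intro i
  unfold ReflData.sgv
  split_ifs with h
  · have : (((-1 : ℤˣ) : ℤ) : ℝ) = -1 := by norm_num
    rw [this]
    linarith
  · have : (((1 : ℤˣ) : ℤ) : ℝ) = 1 := by norm_num
    rw [this]
    linarith

/-- signs are determined where the coordinates do not vanish -/
theorem DCH_adm_unique {D : ReflData V ι} {g g' : ι → ℤˣ} {x : V} (h : Adm D g x)
    (h' : Adm D g' x) : D.act g x = D.act g' x := by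
  have key : D.act (g * g') x = x := by
    refine D.act_fix _ _ (fun i hi => ?_)
    have a := h i
    have b := h' i
    show g i * g' i = 1
    rcases Int.units_eq_one_or (g i) with e | e <;> rcases Int.units_eq_one_or (g' i) with e' | e'
    · rw [e, e']; rfl
    · exfalso
      rw [e] at a
      rw [e'] at b
      apply hi
      push_cast at a b
      linarith
    · exfalso
      rw [e] at a
      rw [e'] at b
      apply hi
      push_cast at a b
      linarith
    · rw [e, e']; rfl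
  calc D.act g x = D.act (g * (g' * g')) x := by rw [DCH_sq, mul_one]
    _ = D.act (g' * (g * g')) x := by rw [← mul_assoc, mul_comm (g * g') g']
    _ = D.act g' (D.act (g * g') x) := (D.act_mul _ _ _).symm
    _ = D.act g' x := by rw [key]

theorem DCH_fold_eq {D : ReflData V ι} {g : ι → ℤˣ} {x : V} (h : Adm D g x) :
    D.fold x = D.act g x := DCH_adm_unique (DCH_sgv_adm D x) h

theorem DCH_fold_Q (D : ReflData V ι) (x : V) : D.fold x ∈ D.Q :=
  (DCH_adm_iff D _ _).1 (DCH_sgv_adm D x)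

theorem DCH_stp_h {x : V} (M : MirrorData D ty cm X m) {s : S} (hs : s ∈ stp D m x) :
    D.h (ty s) x = 0 := by
  have h1 : D.fold x ∈ m s := hs
  have h2 := (M.sub s _ h1).2.2
  unfold ReflData.fold at h2
  rw [D.h_act] at h2
  rcases mul_eq_zero.1 h2 with h3 | h3
  · exfalso
    have h4 : ((D.sgv x (ty s) : ℤˣ) : ℤ) = 0 := by exact_mod_cast h3
    exact (D.sgv x (ty s)).ne_zero h4
  · exact h3

/-- orbits are equivalence classes -/
theorem DCH_gorb_refl {W : Type} (R : S → W → W) (T : Set S) (w : W) : w ∈ gorb R T w :=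
  Relation.ReflTransGen.refl

theorem DCH_gorb_step {W : Type} {R : S → W → W} {T : Set S} {w u : W} (h : u ∈ gorb R T w)
    {s : S} (hs : s ∈ T) : R s u ∈ gorb R T w :=
  Relation.ReflTransGen.tail h ⟨s, hs, rfl⟩

theorem DCH_gorb_trans {W : Type} {R : S → W → W} {T : Set S} {w u v : W} (h : u ∈ gorb R T w)
    (h' : v ∈ gorb R T u) : v ∈ gorb R T w :=
  Relation.ReflTransGen.trans h h'

theorem DCH_gorb_symm {W : Type} {R : S → W → W} (hR : ∀ s w, R s (R s w) = w) {T : Set S}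
    {w u : W} (h : u ∈ gorb R T w) : w ∈ gorb R T u := by
  have h' : Relation.ReflTransGen (gstep R T) w u := h
  clear h
  induction h' with
  | refl => exact DCH_gorb_refl R T w
  | @tail b c h1 h2 ih =>
    obtain ⟨s, hs, rfl⟩ := h2
    refine DCH_gorb_trans ?_ ih
    have h3 : R s (R s b) ∈ gorb R T (R s b) := DCH_gorb_step (DCH_gorb_refl R T _) hs
    rw [hR] at h3
    exact h3

theorem DCH_gorb_eq {W : Type} {R : S → W → W} (hR : ∀ s w, R s (R s w) = w) {T : Set S}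
    {w u : W} (h : u ∈ gorb R T w) : gorb R T u = gorb R T w := by
  ext v
  exact ⟨fun hv => DCH_gorb_trans h hv, fun hv => DCH_gorb_trans (DCH_gorb_symm hR h) hv⟩

theorem DCH_gorb_mono {W : Type} {R : S → W → W} {T T' : Set S} (h : T ⊆ T') (w : W) :
    gorb R T w ⊆ gorb R T' w := by
  intro u hu
  have h' : Relation.ReflTransGen (gstep R T) w u := hu
  clear hu
  induction h' with
  | refl => exact DCH_gorb_refl R T' w
  | tail h1 h2 ih =>
    obtain ⟨s, hs, rfl⟩ := h2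
    exact DCH_gorb_step ih (h hs)

/-- admissibility is constant on the coset of a point -/
theorem DCH_adm_orb {x : V} (M : MirrorData D ty cm X m) {w u : G.W} (h : Adm D (G.sg w) x)
    (hu : u ∈ gorb G.R (stp D m x) w) : Adm D (G.sg u) x := by
  have h' : Relation.ReflTransGen (gstep G.R (stp D m x)) w u := hu
  clear hu
  induction h' with
  | refl => exact h
  | tail h1 h2 ih =>
    obtain ⟨s, hs, rfl⟩ := h2
    intro i
    by_cases hi : i = ty s
    · rw [hi, DCH_stp_h M hs, mul_zero]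
    · rw [G.sg_R_ne _ _ _ hi]
      exact ih i

theorem DCH_adm_mem (M : MirrorData D ty cm X m) (y : Dev D G X m) {w : G.W}
    (h : w ∈ y.1.2) : Adm D (G.sg w) y.1.1 := by
  obtain ⟨w0, h0, h1⟩ := y.2.2
  rw [h1] at h
  exact DCH_adm_orb M h0 h

theorem DCH_orb_mem (y : Dev D G X m) {w : G.W} (h : w ∈ y.1.2) :
    y.1.2 = gorb G.R (stp D m y.1.1) w := by
  obtain ⟨w0, h0, h1⟩ := y.2.2
  rw [h1] at h
  rw [h1]
  exact (DCH_gorb_eq G.R_R h).symm

theorem DCH_continuous : Continuous (fun y : Dev D G X m => y.1.1) := by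
  refine continuous_def.2 (fun U hU => ?_)
  intro y hy
  exact ⟨U, hU, hy, fun y' hy' _ => hy'⟩

theorem DCH_stp_act (g : ι → ℤˣ) (x : V) (hx : x ∈ D.Q) (s : S) :
    s ∈ stp D m (D.act g x) ↔ x ∈ m s := by
  have h1 : Adm D g (D.act g x) := by
    rw [DCH_adm_iff, DCH_act_act]
    exact hx
  show D.fold (D.act g x) ∈ m s ↔ x ∈ m s
  rw [DCH_fold_eq h1, DCH_act_act]

/-- the point of the chamber `w` over `x` -/
def DCH_mk (M : MirrorData D ty cm X m) (G : Gal ty cm) (w : G.W) (x : V) (hx : x ∈ X)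
    (hQ : x ∈ D.Q) : Dev D G X m :=
  ⟨(D.act (G.sg w) x, gorb G.R (stp D m (D.act (G.sg w) x)) w), M.inv _ _ hx, w, by
    rw [DCH_adm_iff, DCH_act_act]; exact hQ, rfl⟩

theorem stmt_D_CH : Stmt_D_CH := by
  classical
  intro V ι S _ _ _ D ty cm X m G M E hE A hA w
  obtain ⟨x0, hx0⟩ := hA.set_nonempty
  have hYX : ∀ x ∈ E ∩ Strat D X m A, x ∈ X ∧ x ∈ D.Q := fun x hx => ⟨hx.2.1, hx.2.2.1⟩
  let r : V → Dev D G X m := fun x =>
    if h : x ∈ X ∧ x ∈ D.Q then DCH_mk M G w x h.1 h.2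
    else DCH_mk M G w x0 (hYX x0 hx0).1 (hYX x0 hx0).2
  have hr : ∀ x (hx : x ∈ X) (hQ : x ∈ D.Q), r x = DCH_mk M G w x hx hQ := by
    intro x hx hQ
    show (if h : x ∈ X ∧ x ∈ D.Q then DCH_mk M G w x h.1 h.2
    else DCH_mk M G w x0 (hYX x0 hx0).1 (hYX x0 hx0).2) = _
    rw [dif_pos ⟨hx, hQ⟩]
  choose C hC1 hC2 using M.closed
  refine AE.of_retract_set hA (fun y : Dev D G X m => D.act (G.sg w) y.1.1) r ?_ ?_ ?_ ?_ ?_
  · exact ((D.act_cont _).comp DCH_continuous).continuousOn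
  · rintro y ⟨hy1, hy2, hy3⟩
    have ha := DCH_adm_mem M y hy2
    refine ⟨hE _ _ hy1, M.inv _ _ y.2.1, (DCH_adm_iff D _ _).1 ha, fun s hs => ?_⟩
    have h3 : D.fold y.1.1 ∈ m s := hy3 s hs
    rw [DCH_fold_eq ha] at h3
    exact h3
  · intro x hx
    obtain ⟨hxX, hxQ⟩ := hYX x hx
    intro O hO
    rw [Filter.mem_map]
    obtain ⟨O', hO'O, hO'o, hxO'⟩ := mem_nhds_iff.1 hO
    obtain ⟨U, hUo, hxU, hU⟩ := hO'o _ hxO'
    rw [hr x hxX hxQ] at hxU hU
    have hN : IsOpen (⋂ s ∈ {s : S | x ∉ m s}, (C s)ᶜ) :=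
      (Set.toFinite _).isOpen_biInter (fun s _ => (hC1 s).isOpen_compl)
    have hxN : x ∈ (⋂ s ∈ {s : S | x ∉ m s}, (C s)ᶜ) := by
      refine mem_iInter₂.2 (fun s hs hxC => hs ?_)
      rw [hC2 s]
      exact ⟨hxX, hxC⟩
    have hUo' : IsOpen (D.act (G.sg w) ⁻¹' U) := hUo.preimage (D.act_cont _)
    refine mem_nhdsWithin.2 ⟨_, hN.inter hUo', ⟨hxN, hxU⟩, ?_⟩
    rintro x' ⟨⟨h1, h2⟩, h3⟩
    obtain ⟨hxX', hxQ'⟩ := hYX x' h3
    apply hO'O
    rw [hr x' hxX' hxQ']
    refine hU _ h2 ?_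
    refine DCH_gorb_mono (fun s hs => ?_) w
    rw [DCH_stp_act _ _ hxQ'] at hs
    rw [DCH_stp_act _ _ hxQ]
    by_contra hcon
    have h4 := mem_iInter₂.1 h1 s hcon
    rw [hC2 s] at hs
    exact h4 hs.2
  · intro x hx
    obtain ⟨hxX, hxQ⟩ := hYX x hx
    rw [hr x hxX hxQ]
    refine ⟨hE _ _ hx.1, DCH_gorb_refl _ _ _, fun s hs => ?_⟩
    exact (DCH_stp_act _ _ hxQ _).2 (hx.2.2.2 s hs)
  · rintro y ⟨hy1, hy2, hy3⟩
    have ha := DCH_adm_mem M y hy2
    have hXi : D.act (G.sg w) y.1.1 ∈ X := M.inv _ _ y.2.1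
    have hQi : D.act (G.sg w) y.1.1 ∈ D.Q := (DCH_adm_iff D _ _).1 ha
    show r (D.act (G.sg w) y.1.1) = y
    rw [hr _ hXi hQi]
    apply Subtype.ext
    refine Prod.ext ?_ ?_
    · exact DCH_act_act D _ _
    · show gorb G.R (stp D m (D.act (G.sg w) (D.act (G.sg w) y.1.1))) w = y.1.2
      rw [DCH_act_act]
      exact (DCH_orb_mem y hy2).symm

end Pool.KT
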