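import Pool.Agent.Work.MP_70ab54_kt.DLem

/-!
# Block D_COV: the development is a covering space (helper53)
-/

set_option autoImplicit false

namespace Pool.KT

open Set Topology

variable {V : Type} [TopologicalSpace V] {ι S : Type} {D : ReflData V ι} {ty : S → ι}
  {cm : S → S → Prop} {G : Gal ty cm} {X : Set V} {m : S → Set V}

theorem D_COV_cont : Continuous (fun y : Dev D G X m => y.1.1) := by
  refine continuous_def.2 fun U hU => ?_
  intro y hy
  exact ⟨U, hU, hy, fun y' hy' _ => hy'⟩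

theorem D_COV_p_cont : Continuous (Dev.p : Dev D G X m → X) :=
  D_COV_cont.subtype_mk _

theorem D_COV_exists [Finite S] (hM : MirrorData D ty cm X m) {x₀ x : V} (hx₀ : x₀ ∈ X)
    (hs : ∀ i, D.h i x₀ ≠ 0 → 0 < D.h i x * D.h i x₀) {w : G.W} (hw : Adm D (G.sg w) x₀) :
    ∃ w' ∈ gorb G.R (stp D m x₀) w, Adm D (G.sg w') x := by
  classical
  obtain ⟨w', h1, h2, h3⟩ := D_exists_sg (G := G) (Set.toFinite (stp D m x₀)).toFinset
    (fun a ha b hb h => D_stp_inj hM ((Set.Finite.mem_toFinset _).1 ha)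
      ((Set.Finite.mem_toFinset _).1 hb) h) (D.sgv x) w
  rw [Set.Finite.coe_toFinset] at h1
  refine ⟨w', h1, fun i => ?_⟩
  by_cases hi : D.h i x₀ = 0
  · obtain ⟨s, hs1, hs2⟩ := D_stp_cover hM hx₀ hi
    have := h2 s ((Set.Finite.mem_toFinset _).2 hs1)
    rw [hs2] at this
    rw [this]
    exact D_adm_sgv x i
  · rw [h3 i (fun s hs1 hs2 => hi (hs2 ▸ D_stp_h hM ((Set.Finite.mem_toFinset _).1 hs1)))]
    have h4 := hw i
    have h5 := hs i hi
    rcases D_unit_cases (G.sg w i) with h6 | h6 <;> rw [h6] at h4 ⊢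
    · have h7 : 0 < D.h i x₀ := lt_of_le_of_ne (by linarith) (Ne.symm hi)
      nlinarith [(pos_iff_pos_of_mul_pos h5).2 h7]
    · have h7 : D.h i x₀ < 0 := lt_of_le_of_ne (by linarith) hi
      nlinarith [(neg_iff_neg_of_mul_pos h5).2 h7]

theorem D_COV_uniq [Finite S] (hM : MirrorData D ty cm X m) {x₀ x : V} (hx : x ∈ X)
    (hs : stp D m x ⊆ stp D m x₀) {w w' : G.W} (h : w' ∈ gorb G.R (stp D m x₀) w)
    (hw : Adm D (G.sg w) x) (hw' : Adm D (G.sg w') x) : w' ∈ gorb G.R (stp D m x) w := by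
  classical
  have h1 := D_uniq (G := G) (A := stp D m x₀) (fun a ha b hb h => D_stp_cm hM ha hb h)
    (fun a ha b hb h => D_stp_inj hM ha hb h) h (Set.toFinite (stp D m x₀ \ stp D m x)).toFinset
    (by
      intro s hs1 hs2
      rw [Set.Finite.mem_toFinset] at hs1
      refine D_unit_eq_of_nonneg (t := D.h (ty s) x) ?_ (hw' _) (hw _)
      intro h0
      obtain ⟨t, ht1, ht2⟩ := D_stp_cover hM hx h0
      have := D_stp_inj hM hs1.1 (hs ht1) ht2.symm
      rw [this] at hs1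
      exact hs1.2 ht1)
  refine gorb_mono ?_ h1
  intro s hs1
  by_contra h2
  exact hs1.2 (by
    rw [Set.Finite.coe_toFinset]
    exact ⟨hs1.1, h2⟩)

/-- the coset of the big stabiliser containing a given coset -/
def D_COV_ext (R : S → G.W → G.W) (A : Set S) (c : Set G.W) : Set G.W :=
  {w' | ∃ w ∈ c, w' ∈ gorb R A w}

theorem D_COV_ext_eq {A : Set S} {c : Set G.W} {w : G.W} (hw : w ∈ c)
    (hc : c ⊆ gorb G.R A w) : D_COV_ext G.R A c = gorb G.R A w := by
  ext u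
  constructor
  · rintro ⟨v, hv, hu⟩
    exact gorb_trans (hc hv) hu
  · intro hu
    exact ⟨w, hw, hu⟩

theorem D_COV_ev [Finite ι] [Finite S] (hM : MirrorData D ty cm X m) (x₀ : X) :
    IsEvenlyCovered (Dev.p : Dev D G X m → X) x₀ (Dev.p ⁻¹' {x₀} : Set (Dev D G X m)) := by
  classical
  set A : Set S := stp D m x₀.1 with hA
  let I : Type := {c : Set G.W // ∃ w, Adm D (G.sg w) x₀.1 ∧ c = gorb G.R A w}
  let _ : TopologicalSpace I := ⊥
  have : DiscreteTopology I := ⟨rfl⟩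
  let U : Set X := {x | stp D m x ⊆ A ∧ ∀ i, D.h i x₀.1 ≠ 0 → 0 < D.h i x.1 * D.h i x₀.1}
  have hU : IsOpen U := by
    have h1 : U = {x : X | stp D m x ⊆ A} ∩
        ⋂ i, {x : X | D.h i x₀.1 ≠ 0 → 0 < D.h i x.1 * D.h i x₀.1} := by
      ext x
      simp only [mem_inter_iff, mem_iInter]
      exact Iff.rfl
    rw [h1]
    refine (D_isOpen_stp hM A).inter (isOpen_iInter_of_finite fun i => ?_)
    by_cases hi : D.h i x₀.1 ≠ 0
    · have : {x : X | D.h i x₀.1 ≠ 0 → 0 < D.h i x.1 * D.h i x₀.1} =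
          {x : X | 0 < D.h i x.1 * D.h i x₀.1} := by
        ext x
        exact ⟨fun h => h hi, fun h _ => h⟩
      rw [this]
      exact isOpen_lt continuous_const
        (((D.h_cont i).comp continuous_subtype_val).mul continuous_const)
    · have : {x : X | D.h i x₀.1 ≠ 0 → 0 < D.h i x.1 * D.h i x₀.1} = univ :=
        eq_univ_of_forall fun x h => absurd h hi
      rw [this]
      exact isOpen_univ
  have hx₀U : x₀ ∈ U := ⟨subset_rfl, fun i hi => mul_self_pos.2 hi⟩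
  -- the coset of the point `y`
  have key : ∀ y : Dev D G X m, y.p ∈ U → ∃ w, w ∈ y.1.2 ∧ Adm D (G.sg w) y.1.1 ∧
      y.1.2 = gorb G.R (stp D m y.1.1) w ∧ D_COV_ext G.R A y.1.2 = gorb G.R A w := by
    intro y hy
    obtain ⟨w, hw1, hw2⟩ := y.2.2
    have hw3 : w ∈ y.1.2 := by
      rw [hw2]
      exact gorb_refl _ _ _
    refine ⟨w, hw3, hw1, hw2, D_COV_ext_eq hw3 ?_⟩
    rw [hw2]
    exact gorb_mono hy.1
  have hAdm : ∀ y : Dev D G X m, y.p ∈ U → ∀ w, Adm D (G.sg w) y.1.1 →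
      ∃ w' ∈ gorb G.R A w, Adm D (G.sg w') x₀.1 := by
    intro y hy w hw
    refine ⟨w, gorb_refl _ _ _, fun i => ?_⟩
    by_cases hi : D.h i x₀.1 = 0
    · rw [hi, mul_zero]
    · have h4 := hw i
      have h5 : 0 < D.h i y.1.1 * D.h i x₀.1 := hy.2 i hi
      have h8 : D.h i y.1.1 ≠ 0 := by
        intro h
        rw [h, zero_mul] at h5
        exact lt_irrefl _ h5
      rcases D_unit_cases (G.sg w i) with h6 | h6 <;> rw [h6] at h4 ⊢
      · have h7 : 0 < D.h i y.1.1 := lt_of_le_of_ne (by linarith) (Ne.symm h8)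
        nlinarith [(pos_iff_pos_of_mul_pos h5).1 h7]
      · have h7 : D.h i y.1.1 < 0 := lt_of_le_of_ne (by linarith) h8
        nlinarith [(neg_iff_neg_of_mul_pos h5).1 h7]
  -- the cosets over `x`
  have key2 : ∀ (x : X), x ∈ U → ∀ d : I, ∃ w ∈ d.1, Adm D (G.sg w) x.1 ∧ d.1 = gorb G.R A w ∧
      {u | u ∈ d.1 ∧ Adm D (G.sg u) x.1} = gorb G.R (stp D m x.1) w := by
    intro x hx d
    obtain ⟨w₀, hw1, hw2⟩ := d.2
    obtain ⟨w, h1, h2⟩ := D_COV_exists hM x₀.2 hx.2 hw1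
    have h3 : d.1 = gorb G.R A w := by
      rw [hw2]
      exact (gorb_eq G.R_R h1).symm
    refine ⟨w, ?_, h2, h3, ?_⟩
    · rw [hw2]
      exact h1
    · ext u
      constructor
      · rintro ⟨hu1, hu2⟩
        rw [h3] at hu1
        exact D_COV_uniq hM x.2 hx.1 hu1 h2 hu2
      · intro hu
        refine ⟨?_, D_adm_orb (fun s hs => D_stp_h hM hs) hu h2⟩
        rw [h3]
        exact gorb_mono hx.1 hu
  refine IsEvenlyCovered.to_isEvenlyCovered_preimage (I := I) ⟨inferInstance, U, hx₀U, hU,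
    hU.preimage D_COV_p_cont, ?_⟩
  let F : (Dev.p : Dev D G X m → X) ⁻¹' U → U × I := fun y =>
    (⟨y.1.p, y.2⟩, ⟨D_COV_ext G.R A y.1.1.2, by
      obtain ⟨w, hw1, hw2, hw3, hw4⟩ := key y.1 y.2
      obtain ⟨w', hw'1, hw'2⟩ := hAdm y.1 y.2 w hw2
      refine ⟨w', hw'2, ?_⟩
      rw [hw4]
      exact (gorb_eq G.R_R hw'1).symm⟩)
  let K : U × I → (Dev.p : Dev D G X m → X) ⁻¹' U := fun q =>
    ⟨⟨(q.1.1.1, {u | u ∈ q.2.1 ∧ Adm D (G.sg u) q.1.1.1}), q.1.1.2, by
      obtain ⟨w, hw1, hw2, hw3, hw4⟩ := key2 q.1.1 q.1.2 q.2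
      exact ⟨w, hw2, hw4⟩⟩, q.1.2⟩
  have hF : Continuous F := by
    refine (Continuous.subtype_mk (D_COV_p_cont.comp continuous_subtype_val) _).prodMk ?_
    refine (IsLocallyConstant.iff_exists_open _).2 ?_ |>.continuous
    intro y
    refine ⟨{y' | y'.1.1.2 ⊆ y.1.1.2}, ?_, ?_, ?_⟩
    · have : IsOpen {y' : Dev D G X m | y'.1.2 ⊆ y.1.1.2} := by
        intro y' hy'
        exact ⟨univ, isOpen_univ, mem_univ _, fun y'' _ h => h.trans hy'⟩
      exact this.preimage continuous_subtype_val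
    · show y.1.1.2 ⊆ y.1.1.2
      exact subset_rfl
    · intro y' hy'
      refine Subtype.ext ?_
      show D_COV_ext G.R A y'.1.1.2 = D_COV_ext G.R A y.1.1.2
      obtain ⟨w, hw1, hw2, hw3, hw4⟩ := key y'.1 y'.2
      obtain ⟨v, hv1, hv2, hv3, hv4⟩ := key y.1 y.2
      rw [hw4, hv4]
      refine gorb_eq G.R_R ?_
      rw [← hv4]
      exact ⟨w, hy' hw1, gorb_refl _ _ _⟩
  have hK : Continuous K := by
    refine Continuous.subtype_mk ?_ _
    refine continuous_def.2 fun O hO => ?_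
    rw [isOpen_prod_iff]
    rintro x d hxd
    obtain ⟨B, hB, hxB, hs⟩ := hO _ hxd
    let N : Set U := {x' | x'.1.1 ∈ B ∧ ∀ i, D.h i x.1.1 ≠ 0 → 0 < D.h i x'.1.1 * D.h i x.1.1}
    have hcont : Continuous (fun x' : U => x'.1.1) :=
      continuous_subtype_val.comp continuous_subtype_val
    have hN : IsOpen N := by
      have h1 : N = {x' : U | x'.1.1 ∈ B} ∩
          ⋂ i, {x' : U | D.h i x.1.1 ≠ 0 → 0 < D.h i x'.1.1 * D.h i x.1.1} := by
        ext x'
        simp only [mem_inter_iff, mem_iInter]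
        exact Iff.rfl
      rw [h1]
      refine (hB.preimage hcont).inter (isOpen_iInter_of_finite fun i => ?_)
      by_cases hi : D.h i x.1.1 ≠ 0
      · have : {x' : U | D.h i x.1.1 ≠ 0 → 0 < D.h i x'.1.1 * D.h i x.1.1} =
            {x' : U | 0 < D.h i x'.1.1 * D.h i x.1.1} := by
          ext x'
          exact ⟨fun h => h hi, fun h _ => h⟩
        rw [this]
        exact isOpen_lt continuous_const (((D.h_cont i).comp hcont).mul continuous_const)
      · have : {x' : U | D.h i x.1.1 ≠ 0 → 0 < D.h i x'.1.1 * D.h i x.1.1} = univ :=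
          eq_univ_of_forall fun x' h => absurd h hi
        rw [this]
        exact isOpen_univ
    refine ⟨N, {d}, hN, isOpen_discrete _, ⟨hxB, fun i hi => mul_self_pos.2 hi⟩, rfl, ?_⟩
    rintro ⟨x', d'⟩ ⟨hx', hd'⟩
    have hd'' : d' = d := hd'
    subst hd''
    refine hs _ hx'.1 ?_
    rintro u ⟨hu1, hu2⟩
    refine ⟨hu1, fun i => ?_⟩
    by_cases hi : D.h i x.1.1 = 0
    · show 0 ≤ ((G.sg u i : ℤ) : ℝ) * D.h i x.1.1
      rw [hi, mul_zero]
    · have h4 : 0 ≤ ((G.sg u i : ℤ) : ℝ) * D.h i x'.1.1 := hu2 i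
      have h5 : 0 < D.h i x'.1.1 * D.h i x.1.1 := hx'.2 i hi
      show 0 ≤ ((G.sg u i : ℤ) : ℝ) * D.h i x.1.1
      have h8 : D.h i x'.1.1 ≠ 0 := by
        intro h
        rw [h, zero_mul] at h5
        exact lt_irrefl _ h5
      rcases D_unit_cases (G.sg u i) with h6 | h6 <;> rw [h6] at h4 ⊢
      · have h7 : 0 < D.h i x'.1.1 := lt_of_le_of_ne (by linarith) (Ne.symm h8)
        nlinarith [(pos_iff_pos_of_mul_pos h5).1 h7]
      · have h7 : D.h i x'.1.1 < 0 := lt_of_le_of_ne (by linarith) h8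
        nlinarith [(neg_iff_neg_of_mul_pos h5).1 h7]
  refine ⟨⟨⟨F, K, ?_, ?_⟩, hF, hK⟩, fun y => rfl⟩
  · intro y
    refine Subtype.ext (Subtype.ext (Prod.ext rfl ?_))
    obtain ⟨w, hw1, hw2, hw3, hw4⟩ := key y.1 y.2
    show {u | u ∈ D_COV_ext G.R A y.1.1.2 ∧ Adm D (G.sg u) y.1.1.1} = y.1.1.2
    rw [hw4]
    ext u
    constructor
    · rintro ⟨hu1, hu2⟩
      rw [hw3]
      exact D_COV_uniq hM y.1.2.1 y.2.1 hu1 hw2 hu2
    · intro hu
      rw [hw3] at hu
      exact ⟨gorb_mono y.2.1 hu, D_adm_orb (fun s hs => D_stp_h hM hs) hu hw2⟩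
  · rintro ⟨x, d⟩
    refine Prod.ext (Subtype.ext (Subtype.ext rfl)) (Subtype.ext ?_)
    obtain ⟨w, hw1, hw2, hw3, hw4⟩ := key2 x.1 x.2 d
    show D_COV_ext G.R A {u | u ∈ d.1 ∧ Adm D (G.sg u) x.1.1} = d.1
    have hmem : w ∈ {u | u ∈ d.1 ∧ Adm D (G.sg u) x.1.1} := ⟨hw1, hw2⟩
    have hsub : {u | u ∈ d.1 ∧ Adm D (G.sg u) x.1.1} ⊆ gorb G.R A w := by
      rintro u ⟨hu1, hu2⟩
      rw [← hw3]
      exact hu1
    rw [D_COV_ext_eq hmem hsub, ← hw3]

theorem D_COV_surj [Finite ι] [Finite S] (hM : MirrorData D ty cm X m) :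
    Function.Surjective (Dev.p : Dev D G X m → X) := by
  classical
  intro x
  have := Fintype.ofFinite ι
  choose σ hσ using hM.ty_surj
  obtain ⟨w, -, h2, -⟩ := D_exists_sg (G := G) (Finset.univ.image σ) (by
    intro a ha b hb h
    obtain ⟨i, -, rfl⟩ := Finset.mem_image.1 ha
    obtain ⟨j, -, rfl⟩ := Finset.mem_image.1 hb
    rw [hσ, hσ] at h
    rw [h]) (D.sgv x.1) G.one
  refine ⟨⟨(x.1, gorb G.R (stp D m x.1) w), x.2, w, ?_, rfl⟩, rfl⟩
  intro i
  have := h2 (σ i) (Finset.mem_image_of_mem _ (Finset.mem_univ i))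
  rw [hσ] at this
  rw [this]
  exact D_adm_sgv x.1 i

theorem stmt_D_COV : Stmt_D_COV := by
  intro V ι S _ _ _ D ty cm X m G hM
  refine And.intro ?_ (D_COV_surj hM)
  intro x
  exact D_COV_ev hM x

end Pool.KT
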