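import Pool.Agent.Work.MP_70ab54_kt.InterfaceD

/-!
# MP_70ab54: block D_GAL, the right angled Coxeter group as a chamber system (helper92)

Elements are reduced words modulo shuffles; the head of the list is the last letter.
-/

set_option autoImplicit false

namespace Pool.KT.GalAux

open Set

variable {S ι : Type} (cm : S → S → Prop)

/-- commuting and different -/
def cm1 (s t : S) : Prop := s ≠ t ∧ cm s t

/-- shuffle equivalence -/
inductive Shuf : List S → List S → Prop
  | refl (l : List S) : Shuf l l
  | swap (s t : S) (l : List S) : cm1 cm s t → Shuf (s :: t :: l) (t :: s :: l)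
  | cons (s : S) (l l' : List S) : Shuf l l' → Shuf (s :: l) (s :: l')
  | trans (l l' l'' : List S) : Shuf l l' → Shuf l' l'' → Shuf l l''

open Classical in
/-- cancel the last letter `s` if possible -/
noncomputable def cancel (s : S) : List S → Option (List S)
  | [] => none
  | t :: l => if t = s then some l else if cm1 cm s t then (cancel s l).map (fun m => t :: m)
      else none

/-- reduced words -/
def Red : List S → Prop
  | [] => True
  | s :: l => Red l ∧ cancel cm s l = none

/-- right multiplication on words -/
noncomputable def push (s : S) (l : List S) : List S :=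
  match cancel cm s l with
  | some l' => l'
  | none => s :: l

variable {cm}

theorem cm1_symm (hs : ∀ s t, cm s t → cm t s) {s t : S} (h : cm1 cm s t) : cm1 cm t s :=
  ⟨fun h1 => h.1 h1.symm, hs _ _ h.2⟩

theorem Shuf.symm (hs : ∀ s t, cm s t → cm t s) {l l' : List S} (h : Shuf cm l l') :
    Shuf cm l' l := by
  induction h with
  | refl l => exact Shuf.refl l
  | swap s t l h => exact Shuf.swap t s l (cm1_symm hs h)
  | cons s l l' _ ih => exact Shuf.cons s _ _ ih
  | trans l l' l'' _ _ ih1 ih2 => exact Shuf.trans _ _ _ ih2 ih1

theorem Shuf.length {l l' : List S} (h : Shuf cm l l') : l.length = l'.length := by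
  induction h with
  | refl l => rfl
  | swap s t l h => simp
  | cons s l l' _ ih => simp [ih]
  | trans l l' l'' _ _ ih1 ih2 => exact ih1.trans ih2

theorem cancel_nil (s : S) : cancel cm s [] = none := rfl

theorem cancel_self (s : S) (l : List S) : cancel cm s (s :: l) = some l := by
  simp [cancel]

theorem cancel_cm {s t : S} (h : cm1 cm s t) (l : List S) :
    cancel cm s (t :: l) = (cancel cm s l).map (fun m => t :: m) := by
  have h1 : t ≠ s := fun h1 => h.1 h1.symm
  simp [cancel, h1, h]

theorem cancel_ncm {s t : S} (h1 : t ≠ s) (h : ¬ cm1 cm s t) (l : List S) :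
    cancel cm s (t :: l) = none := by
  simp [cancel, h1, h]

/-- the two results of a cancellation agree up to shuffles -/
def ORel (a b : Option (List S)) : Prop :=
  (a = none ∧ b = none) ∨ ∃ l l', a = some l ∧ b = some l' ∧ Shuf cm l l'

theorem ORel.refl (a : Option (List S)) : ORel (cm := cm) a a := by
  cases a with
  | none => exact Or.inl ⟨rfl, rfl⟩
  | some l => exact Or.inr ⟨l, l, rfl, rfl, Shuf.refl l⟩

theorem ORel.trans {a b c : Option (List S)} (h1 : ORel (cm := cm) a b) (h2 : ORel (cm := cm) b c) :
    ORel (cm := cm) a c := by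
  rcases h1 with ⟨h1, h1'⟩ | ⟨l, l', h1, h1', h1''⟩
  · rcases h2 with ⟨h2, h2'⟩ | ⟨m, m', h2, h2', h2''⟩
    · exact Or.inl ⟨h1, h2'⟩
    · rw [h1'] at h2
      exact absurd h2 (by simp)
  · rcases h2 with ⟨h2, h2'⟩ | ⟨m, m', h2, h2', h2''⟩
    · rw [h1'] at h2
      exact absurd h2 (by simp)
    · rw [h1'] at h2
      obtain rfl := Option.some.inj h2
      exact Or.inr ⟨l, m', h1, h2', Shuf.trans _ _ _ h1'' h2''⟩

theorem ORel.map {a b : Option (List S)} (h : ORel (cm := cm) a b) (t : S) :
    ORel (cm := cm) (a.map (fun m => t :: m)) (b.map (fun m => t :: m)) := by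
  rcases h with ⟨h1, h1'⟩ | ⟨l, l', h1, h1', h1''⟩
  · subst h1 h1'
    exact Or.inl ⟨rfl, rfl⟩
  · subst h1 h1'
    exact Or.inr ⟨_, _, rfl, rfl, Shuf.cons t _ _ h1''⟩

theorem cancel_shuf (hs : ∀ s t, cm s t → cm t s) (s : S) {l l' : List S} (h : Shuf cm l l') :
    ORel (cm := cm) (cancel cm s l) (cancel cm s l') := by
  induction h with
  | refl l => exact ORel.refl _
  | trans l l' l'' _ _ ih1 ih2 => exact ih1.trans ih2
  | cons t l l' h ih =>
    by_cases h1 : t = s
    · subst h1
      rw [cancel_self, cancel_self]
      exact Or.inr ⟨_, _, rfl, rfl, h⟩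
    · by_cases h2 : cm1 cm s t
      · rw [cancel_cm h2, cancel_cm h2]
        exact ih.map t
      · rw [cancel_ncm h1 h2, cancel_ncm h1 h2]
        exact Or.inl ⟨rfl, rfl⟩
  | swap t u l h =>
    by_cases h1 : t = s
    · subst h1
      rw [cancel_self, cancel_cm h, cancel_self]
      exact ORel.refl _
    · by_cases h2 : u = s
      · subst h2
        rw [cancel_self, cancel_cm (cm1_symm hs h), cancel_self]
        exact ORel.refl _
      · by_cases h3 : cm1 cm s t
        · by_cases h4 : cm1 cm s u
          · rw [cancel_cm h3, cancel_cm h4, cancel_cm h4, cancel_cm h3]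
            cases hc : cancel cm s l with
            | none => exact Or.inl ⟨rfl, rfl⟩
            | some m => exact Or.inr ⟨_, _, rfl, rfl, Shuf.swap t u m h⟩
          · rw [cancel_cm h3, cancel_ncm h2 h4, cancel_ncm h2 h4]
            exact Or.inl ⟨rfl, rfl⟩
        · by_cases h4 : cm1 cm s u
          · rw [cancel_ncm h1 h3, cancel_cm h4, cancel_ncm h1 h3]
            exact Or.inl ⟨rfl, rfl⟩
          · rw [cancel_ncm h1 h3, cancel_ncm h2 h4]
            exact Or.inl ⟨rfl, rfl⟩

theorem shuf_of_cancel (hs : ∀ s t, cm s t → cm t s) (s : S) :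
    ∀ (l l' : List S), cancel cm s l = some l' → Shuf cm l (s :: l')
  | [], l', h => by simp [cancel] at h
  | t :: l, l', h => by
    by_cases h1 : t = s
    · subst h1
      rw [cancel_self] at h
      obtain rfl := Option.some.inj h
      exact Shuf.refl _
    · by_cases h2 : cm1 cm s t
      · rw [cancel_cm h2] at h
        obtain ⟨m, hm, rfl⟩ := Option.map_eq_some_iff.1 h
        have ih := shuf_of_cancel hs s l m hm
        exact Shuf.trans _ _ _ (Shuf.cons t _ _ ih) (Shuf.swap t s m (cm1_symm hs h2))
      · rw [cancel_ncm h1 h2] at h
        exact absurd h (by simp)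

theorem none_iff (hs : ∀ s t, cm s t → cm t s) (s : S) {l l' : List S} (h : Shuf cm l l') :
    cancel cm s l = none ↔ cancel cm s l' = none := by
  rcases cancel_shuf hs s h with ⟨h1, h1'⟩ | ⟨m, m', h1, h1', h1''⟩
  · simp [h1, h1']
  · simp [h1, h1']

theorem red_shuf (hs : ∀ s t, cm s t → cm t s) {l l' : List S} (h : Shuf cm l l') :
    Red cm l ↔ Red cm l' := by
  induction h with
  | refl l => exact Iff.rfl
  | trans l l' l'' _ _ ih1 ih2 => exact ih1.trans ih2
  | cons t l l' h ih =>
    show Red cm l ∧ cancel cm t l = none ↔ Red cm l' ∧ cancel cm t l' = none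
    rw [ih, none_iff hs t h]
  | swap t u l h =>
    show (Red cm l ∧ cancel cm u l = none) ∧ cancel cm t (u :: l) = none ↔
      (Red cm l ∧ cancel cm t l = none) ∧ cancel cm u (t :: l) = none
    rw [cancel_cm h, cancel_cm (cm1_symm hs h), Option.map_eq_none_iff, Option.map_eq_none_iff]
    tauto

theorem push_none {s : S} {l : List S} (h : cancel cm s l = none) : push cm s l = s :: l := by
  simp [push, h]

theorem push_some {s : S} {l l' : List S} (h : cancel cm s l = some l') : push cm s l = l' := by
  simp [push, h]

theorem red_push (hs : ∀ s t, cm s t → cm t s) (s : S) {l : List S} (h : Red cm l) :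
    Red cm (push cm s l) := by
  cases hc : cancel cm s l with
  | none =>
    rw [push_none hc]
    exact ⟨h, hc⟩
  | some l' =>
    rw [push_some hc]
    exact ((red_shuf hs (shuf_of_cancel hs s l l' hc)).1 h).1

theorem push_shuf (hs : ∀ s t, cm s t → cm t s) (s : S) {l l' : List S} (h : Shuf cm l l') :
    Shuf cm (push cm s l) (push cm s l') := by
  rcases cancel_shuf hs s h with ⟨h1, h1'⟩ | ⟨m, m', h1, h1', h1''⟩
  · rw [push_none h1, push_none h1']
    exact Shuf.cons s _ _ h
  · rw [push_some h1, push_some h1']
    exact h1''

theorem push_push (hs : ∀ s t, cm s t → cm t s) (s : S) {l : List S} (h : Red cm l) :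
    Shuf cm (push cm s (push cm s l)) l := by
  cases hc : cancel cm s l with
  | none =>
    rw [push_none hc, push_some (cancel_self s l)]
    exact Shuf.refl _
  | some l' =>
    have h1 := shuf_of_cancel hs s l l' hc
    have h2 := (red_shuf hs h1).1 h
    rw [push_some hc, push_none h2.2]
    exact h1.symm hs

theorem push_comm (hs : ∀ s t, cm s t → cm t s) {s t : S} (hst : cm1 cm s t) (l : List S) :
    Shuf cm (push cm s (push cm t l)) (push cm t (push cm s l)) := by
  have hts := cm1_symm hs hst
  cases ha : cancel cm s l with
  | none =>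
    cases hb : cancel cm t l with
    | none =>
      rw [push_none ha, push_none hb, push_none (by rw [cancel_cm hst, ha]; rfl),
        push_none (by rw [cancel_cm hts, hb]; rfl)]
      exact Shuf.swap s t l hst
    | some l'' =>
      have h1 := shuf_of_cancel hs t l l'' hb
      have h2 : cancel cm s l'' = none := by
        have h3 := (none_iff hs s h1).1 ha
        rw [cancel_cm hst, Option.map_eq_none_iff] at h3
        exact h3
      have h3 : cancel cm t (s :: l) = some (s :: l'') := by rw [cancel_cm hts, hb]; rfl
      rw [push_none ha, push_some hb, push_none h2, push_some h3]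
      exact Shuf.refl _
  | some l' =>
    have h1 := shuf_of_cancel hs s l l' ha
    cases hb : cancel cm t l with
    | none =>
      have h2 : cancel cm t l' = none := by
        have h3 := (none_iff hs t h1).1 hb
        rw [cancel_cm hts, Option.map_eq_none_iff] at h3
        exact h3
      have h3 : cancel cm s (t :: l) = some (t :: l') := by rw [cancel_cm hst, ha]; rfl
      rw [push_some ha, push_none hb, push_none h2, push_some h3]
      exact Shuf.refl _
    | some l'' =>
      rw [push_some ha, push_some hb]
      rcases cancel_shuf hs t h1 with ⟨h2, _⟩ | ⟨m, m', h2, h2', h2''⟩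
      · rw [hb] at h2
        exact absurd h2 (by simp)
      · rw [hb] at h2
        obtain rfl := Option.some.inj h2
        rw [cancel_cm hts] at h2'
        obtain ⟨n, hn, rfl⟩ := Option.map_eq_some_iff.1 h2'
        rw [push_some hn]
        rcases cancel_shuf hs s h2'' with ⟨_, h3⟩ | ⟨k, k', h3, h3', h3''⟩
        · rw [cancel_self] at h3
          exact absurd h3 (by simp)
        · rw [cancel_self] at h3'
          obtain rfl := Option.some.inj h3'
          rw [push_some h3]
          exact h3''

theorem des_comm (hs : ∀ s t, cm s t → cm t s) {s t : S} (hst : s ≠ t) :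
    ∀ l : List S, cancel cm s l ≠ none → cancel cm t l ≠ none → cm s t
  | [], h, _ => absurd rfl h
  | u :: l, h, h' => by
    by_cases h1 : u = s
    · subst h1
      by_cases h2 : cm1 cm t u
      · exact hs _ _ h2.2
      · exact absurd (cancel_ncm hst h2 l) h'
    · by_cases h2 : u = t
      · subst h2
        by_cases h3 : cm1 cm s u
        · exact h3.2
        · exact absurd (cancel_ncm h1 h3 l) h
      · by_cases h3 : cm1 cm s u
        · by_cases h4 : cm1 cm t u
          · rw [cancel_cm h3, Ne, Option.map_eq_none_iff] at h
            rw [cancel_cm h4, Ne, Option.map_eq_none_iff] at h'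
            exact des_comm hs hst l h h'
          · exact absurd (cancel_ncm h2 h4 l) h'
        · exact absurd (cancel_ncm h1 h3 l) h

open Classical in
/-- signs of a word -/
noncomputable def sgl (ty : S → ι) : List S → ι → ℤˣ
  | [], _ => 1
  | s :: l, i => (if ty s = i then -1 else 1) * sgl ty l i

theorem sgl_shuf (ty : S → ι) {l l' : List S} (h : Shuf cm l l') (i : ι) :
    sgl ty l i = sgl ty l' i := by
  induction h with
  | refl l => rfl
  | trans l l' l'' _ _ ih1 ih2 => exact ih1.trans ih2
  | cons t l l' h ih => simp only [sgl, ih]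
  | swap t u l h =>
    simp only [sgl]
    exact mul_left_comm _ _ _

theorem cancel_append {s : S} {l1 : List S} (h : cancel cm s l1 = none) :
    ∀ lh : List S, cancel cm s (lh ++ l1) = (cancel cm s lh).map (fun m => m ++ l1)
  | [] => by simpa [cancel] using h
  | t :: lh => by
    have ih := cancel_append h lh
    by_cases h1 : t = s
    · subst h1
      rw [List.cons_append, cancel_self, cancel_self]
      rfl
    · by_cases h2 : cm1 cm s t
      · rw [List.cons_append, cancel_cm h2, cancel_cm h2, ih, Option.map_map, Option.map_map]
        rfl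
      · rw [List.cons_append, cancel_ncm h1 h2, cancel_ncm h1 h2]
        rfl

theorem cancel_mem {s : S} : ∀ (l l' : List S), cancel cm s l = some l' → ∀ x ∈ l', x ∈ l
  | [], l', h => by simp [cancel] at h
  | t :: l, l', h => by
    by_cases h1 : t = s
    · subst h1
      rw [cancel_self] at h
      obtain rfl := Option.some.inj h
      exact fun x hx => List.mem_cons_of_mem _ hx
    · by_cases h2 : cm1 cm s t
      · rw [cancel_cm h2] at h
        obtain ⟨m, hm, rfl⟩ := Option.map_eq_some_iff.1 h
        intro x hx
        rcases List.mem_cons.1 hx with rfl | hx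
        · exact List.mem_cons_self
        · exact List.mem_cons_of_mem _ (cancel_mem l m hm x hx)
      · rw [cancel_ncm h1 h2] at h
        exact absurd h (by simp)

/-- the setoid of shuffles -/
def stoid (hs : ∀ s t, cm s t → cm t s) : Setoid {l : List S // Red cm l} where
  r a b := Shuf cm a.1 b.1
  iseqv := ⟨fun _ => Shuf.refl _, fun h => h.symm hs, fun h1 h2 => Shuf.trans _ _ _ h1 h2⟩

end Pool.KT.GalAux

namespace Pool.KT

open Set GalAux

/-- the right angled Coxeter group -/
noncomputable def galOf {S ι : Type} (ty : S → ι) (cm : S → S → Prop)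
    (hs : ∀ s t, cm s t → cm t s) : Gal ty cm where
  W := Quotient (stoid hs)
  one := Quotient.mk (stoid hs) ⟨[], trivial⟩
  R s := Quotient.map' (s₁ := stoid hs) (s₂ := stoid hs)
    (fun l => ⟨push cm s l.1, red_push hs s l.2⟩) (fun _ _ h => push_shuf hs s h)
  sg w i := Quotient.liftOn w (fun l => sgl ty l.1 i) (fun _ _ h => sgl_shuf ty h i)
  len w := Quotient.liftOn w (fun l => l.1.length) (fun _ _ h => h.length)
  des w s := Quotient.liftOn w (fun l => cancel cm s l.1 ≠ none)
    (fun _ _ h => propext (not_congr (none_iff hs s h)))
  R_R := by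
    intro s w
    induction w using Quotient.inductionOn with | _ l =>
    exact Quotient.sound (s := stoid hs) (push_push hs s l.2)
  R_comm := by
    intro s t w hst
    by_cases h : s = t
    · subst h
      rfl
    · induction w using Quotient.inductionOn with | _ l =>
      exact Quotient.sound (s := stoid hs) (push_comm hs ⟨h, hst⟩ l.1)
  gen := by
    intro w
    induction w using Quotient.inductionOn with | _ l =>
    obtain ⟨l, hl⟩ := l
    induction l with
    | nil => exact Relation.ReflTransGen.refl
    | cons s l ih =>
      refine Relation.ReflTransGen.tail (ih hl.1) ⟨s, mem_univ _, ?_⟩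
      refine Quotient.sound (s := stoid hs) ?_
      show Shuf cm (s :: l) (push cm s l)
      rw [push_none hl.2]
      exact Shuf.refl _
  sg_one := fun i => rfl
  sg_R := by
    intro s w
    induction w using Quotient.inductionOn with | _ l =>
    show sgl ty (push cm s l.1) (ty s) = -sgl ty l.1 (ty s)
    cases hc : cancel cm s l.1 with
    | none =>
      rw [push_none hc]
      simp [sgl]
    | some l' =>
      rw [push_some hc, sgl_shuf ty (shuf_of_cancel hs s _ _ hc)]
      simp [sgl]
  sg_R_ne := by
    intro s w i hi
    induction w using Quotient.inductionOn with | _ l =>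
    show sgl ty (push cm s l.1) i = sgl ty l.1 i
    cases hc : cancel cm s l.1 with
    | none =>
      rw [push_none hc]
      simp [sgl, Ne.symm hi]
    | some l' =>
      rw [push_some hc, sgl_shuf ty (shuf_of_cancel hs s _ _ hc)]
      simp [sgl, Ne.symm hi]
  len_des := by
    intro s w
    induction w using Quotient.inductionOn with | _ l =>
    intro h
    show (push cm s l.1).length + 1 = l.1.length
    have h : cancel cm s l.1 ≠ none := h
    cases hc : cancel cm s l.1 with
    | none => exact absurd hc h
    | some l' =>
      rw [push_some hc, (shuf_of_cancel hs s _ _ hc).length]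
      simp
  len_ndes := by
    intro s w
    induction w using Quotient.inductionOn with | _ l =>
    intro h
    show (push cm s l.1).length = l.1.length + 1
    have h : ¬ cancel cm s l.1 ≠ none := h
    rw [push_none (not_not.1 h)]
    simp
  des_cm := by
    intro w s t
    induction w using Quotient.inductionOn with | _ l =>
    intro h h' hst
    exact des_comm hs hst l.1 h h'
  orb := by
    intro T w w'
    induction w using Quotient.inductionOn with | _ l1 =>
    intro hT hw' hne
    have hT' : ∀ s ∈ T, cancel cm s l1.1 = none := fun s hsT => not_not.1 (hT s hsT)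
    have key : ∀ v : Quotient (stoid hs), Relation.ReflTransGen
        (gstep (fun s => Quotient.map' (s₁ := stoid hs) (s₂ := stoid hs)
          (fun l => (⟨push cm s l.1, red_push hs s l.2⟩ : {l : List S // Red cm l}))
          (fun _ _ h => push_shuf hs s h)) T) (Quotient.mk (stoid hs) l1) v →
        ∃ (lh : List S) (hr : Red cm (lh ++ l1.1)), (∀ x ∈ lh, x ∈ T) ∧
          v = Quotient.mk (stoid hs) ⟨lh ++ l1.1, hr⟩ := by
      intro v hv
      induction hv with
      | refl => exact ⟨[], l1.2, by simp, rfl⟩
      | tail _ hst ih =>
        obtain ⟨lh, hr, hx, rfl⟩ := ih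
        obtain ⟨s, hsT, rfl⟩ := hst
        have hca := cancel_append (hT' s hsT) lh
        cases hc : cancel cm s lh with
        | none =>
          rw [hc] at hca
          have hca : cancel cm s (lh ++ l1.1) = none := hca
          refine ⟨s :: lh, ⟨hr, hca⟩, ?_, ?_⟩
          · intro x hxm
            rcases List.mem_cons.1 hxm with rfl | hxm
            · exact hsT
            · exact hx x hxm
          · refine Quotient.sound (s := stoid hs) ?_
            show Shuf cm (push cm s (lh ++ l1.1)) (s :: lh ++ l1.1)
            rw [push_none hca]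
            exact Shuf.refl _
        | some lh' =>
          rw [hc] at hca
          have hca : cancel cm s (lh ++ l1.1) = some (lh' ++ l1.1) := hca
          have hr' : Red cm (lh' ++ l1.1) :=
            ((red_shuf hs (shuf_of_cancel hs s _ _ hca)).1 hr).1
          refine ⟨lh', hr', fun x hxm => hx x (cancel_mem _ _ hc x hxm), ?_⟩
          refine Quotient.sound (s := stoid hs) ?_
          show Shuf cm (push cm s (lh ++ l1.1)) (lh' ++ l1.1)
          rw [push_some hca]
          exact Shuf.refl _
    obtain ⟨lh, hr, hx, rfl⟩ := key w' hw'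
    cases lh with
    | nil => exact absurd rfl hne
    | cons x lh =>
      refine ⟨?_, x, hx x List.mem_cons_self, ?_⟩
      · show l1.1.length < (x :: lh ++ l1.1).length
        simp only [List.cons_append, List.length_cons, List.length_append]
        omega
      · show cancel cm x (x :: (lh ++ l1.1)) ≠ none
        rw [cancel_self]
        simp

theorem stmt_D_GAL : Stmt_D_GAL := fun _ _ ty cm hs => ⟨galOf ty cm hs⟩

end Pool.KT
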