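import Pool.Agent.Work.MP_70ab54_kt.D_CH

/-!
# Block D_UN of MP_70ab54 (helper23): unions of chambers of the development
-/

set_option autoImplicit false

namespace Pool.KT

open Set Topology

variable {V : Type} [TopologicalSpace V] {ι S : Type} {D : ReflData V ι} {ty : S → ι}
  {cm : S → S → Prop} {G : Gal ty cm} {X : Set V} {m : S → Set V}

/-- orbits of finite cliques are finite -/
theorem DUN_finite_orb (G : Gal ty cm) (A : Finset S) : Cliq cm A → ∀ w : G.W,
    (gorb G.R (A : Set S) w).Finite := by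
  classical
  induction A using Finset.induction_on with
  | empty =>
    intro _ w
    refine (Set.finite_singleton w).subset (fun u hu => ?_)
    have h' : Relation.ReflTransGen (gstep G.R ((∅ : Finset S) : Set S)) w u := hu
    clear hu
    induction h' with
    | refl => exact Set.mem_singleton w
    | tail h1 h2 ih =>
      obtain ⟨s, hs, rfl⟩ := h2
      simp at hs
  | insert s A hs ih =>
    intro hcl w
    have hA : Cliq cm A := fun a ha b hb hab =>
      hcl a (Finset.mem_insert_of_mem ha) b (Finset.mem_insert_of_mem hb) hab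
    have hf := ih hA w
    refine (hf.union (hf.image (G.R s))).subset (fun u hu => ?_)
    have h' : Relation.ReflTransGen (gstep G.R ((insert s A : Finset S) : Set S)) w u := hu
    clear hu
    induction h' with
    | refl => exact Or.inl (DCH_gorb_refl _ _ _)
    | @tail b c h1 h2 ih2 =>
      obtain ⟨t, ht, rfl⟩ := h2
      have ht' : t = s ∨ t ∈ A := by simpa using ht
      rcases ht' with rfl | htA
      · rcases ih2 with h3 | ⟨v, hv, rfl⟩
        · exact Or.inr ⟨b, h3, rfl⟩
        · left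
          rw [G.R_R]
          exact hv
      · have hcomm : cm t s := hcl t (Finset.mem_insert_of_mem htA) s
          (Finset.mem_insert_self _ _) (fun e => hs (e ▸ htA))
        rcases ih2 with h3 | ⟨v, hv, rfl⟩
        · exact Or.inl (DCH_gorb_step h3 htA)
        · right
          refine ⟨G.R t v, DCH_gorb_step hv htA, ?_⟩
          exact (G.R_comm t s v hcomm).symm

/-- balls in a coset are finite -/
theorem DUN_ball [Finite S] (G : Gal ty cm) (T : Set S) (w1 : G.W)
    (hw1 : ∀ s ∈ T, ¬ G.des w1 s) (n : ℕ) :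
    {w | w ∈ gorb G.R T w1 ∧ G.len w ≤ n}.Finite := by
  classical
  have hstep : ∀ w ∈ gorb G.R T w1, w ≠ w1 → ∃ s ∈ T, G.des w s :=
    fun w hw hne => (G.orb T w1 w hw1 hw hne).2
  induction n with
  | zero =>
    refine (Set.finite_singleton w1).subset (fun w hw => ?_)
    by_contra hne
    obtain ⟨s, hs, hd⟩ := hstep w hw.1 hne
    have := G.len_des _ _ hd
    have h2 := hw.2
    omega
  | succ n ih =>
    refine ((Set.finite_singleton w1).union
      (Set.finite_iUnion (fun s : S => ih.image (G.R s)))).subset (fun w hw => ?_)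
    by_cases hne : w = w1
    · exact Or.inl hne
    · right
      obtain ⟨s, hs, hd⟩ := hstep w hw.1 hne
      refine mem_iUnion.2 ⟨s, G.R s w, ⟨DCH_gorb_step hw.1 hs, ?_⟩, G.R_R _ _⟩
      have := G.len_des _ _ hd
      have h2 := hw.2
      omega

theorem DUN_stp_clique (M : MirrorData D ty cm X m) [Finite S] (x : V) :
    Cliq cm (Set.toFinite (stp D m x)).toFinset := by
  intro s hs t ht hst
  rw [Set.Finite.mem_toFinset] at hs ht
  exact M.comm s t hst _ hs ht

theorem DUN_fiber_finite (M : MirrorData D ty cm X m) [Finite S] (y : Dev D G X m) :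
    y.1.2.Finite := by
  obtain ⟨w0, h0, h1⟩ := y.2.2
  rw [h1]
  have := DUN_finite_orb G _ (DUN_stp_clique M y.1.1) w0
  rwa [Set.Finite.coe_toFinset] at this

/-- the chambers of the development are closed -/
theorem DUN_chamber_closed (w : G.W) : IsClosed {y : Dev D G X m | w ∈ y.1.2} := by
  refine ⟨fun y hy => ⟨univ, isOpen_univ, mem_univ _, fun y' _ h h2 => hy (h h2)⟩⟩

/-- the mirrors of the development are closed -/
theorem DUN_mirror_closed [Finite ι] (M : MirrorData D ty cm X m) (s : S) :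
    IsClosed {y : Dev D G X m | s ∈ stp D m y.1.1} := by
  obtain ⟨C, hC, hmC⟩ := M.closed s
  have hcl : IsClosed (⋃ g : ι → ℤˣ, {x : V | Adm D g x} ∩ D.act g ⁻¹' C) := by
    refine isClosed_iUnion_of_finite (fun g => IsClosed.inter ?_ (hC.preimage (D.act_cont g)))
    have : {x : V | Adm D g x} = ⋂ i, {x : V | 0 ≤ ((g i : ℤ) : ℝ) * D.h i x} := by
      ext x
      constructor
      · intro h
        exact mem_iInter.2 (fun i => h i)
      · intro h i
        exact mem_iInter.1 h i
    rw [this]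
    exact isClosed_iInter (fun i => isClosed_le continuous_const
      (continuous_const.mul (D.h_cont i)))
  have e : {y : Dev D G X m | s ∈ stp D m y.1.1} =
      (fun y : Dev D G X m => y.1.1) ⁻¹' (⋃ g : ι → ℤˣ, {x : V | Adm D g x} ∩ D.act g ⁻¹' C) := by
    ext y
    constructor
    · intro hy
      have h1 : D.fold y.1.1 ∈ m s := hy
      rw [hmC] at h1
      exact mem_iUnion.2 ⟨D.sgv y.1.1, DCH_sgv_adm D _, h1.2⟩
    · intro hy
      obtain ⟨g, hg1, hg2⟩ := mem_iUnion.1 hy
      show D.fold y.1.1 ∈ m s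
      rw [DCH_fold_eq hg1, hmC]
      exact ⟨M.inv _ _ y.2.1, hg2⟩
  rw [e]
  exact hcl.preimage DCH_continuous

theorem stmt_D_UN (hCH : Stmt_D_CH) : Stmt_D_UN := by
  classical
  intro V ι S _ _ _ D ty cm X m G M E hE T hT hA w
  -- the minimal element of the coset
  obtain ⟨w1, hw1, hmin⟩ : ∃ w1 ∈ gorb G.R T w, ∀ u ∈ gorb G.R T w, G.len w1 ≤ G.len u := by
    have hne : ∃ n, ∃ u ∈ gorb G.R T w, G.len u = n := ⟨_, w, DCH_gorb_refl _ _ _, rfl⟩
    obtain ⟨u, hu, hun⟩ := Nat.find_spec hne
    refine ⟨u, hu, fun v hv => ?_⟩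
    rw [hun]
    exact Nat.find_min' hne ⟨v, hv, rfl⟩
  rw [← DCH_gorb_eq G.R_R hw1] at hmin ⊢
  have hnd : ∀ s ∈ T, ¬ G.des w1 s := by
    intro s hs hd
    have h1 := hmin _ (DCH_gorb_step (DCH_gorb_refl G.R T w1) hs)
    have h2 := G.len_des _ _ hd
    omega
  -- the space
  let Z := ↥({y | y.1.1 ∈ E ∧ y.1.2 ⊆ gorb G.R T w1} : Set (Dev D G X m))
  show AE Z
  have hval : Continuous (fun z : Z => z.1) := continuous_subtype_val
  let Ch : G.W → Set Z := fun u => {z | u ∈ z.1.1.2}
  let Mi : S → Set Z := fun s => {z | s ∈ stp D m z.1.1.1}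
  have hChc : ∀ u, IsClosed (Ch u) := fun u => (DUN_chamber_closed u).preimage hval
  have hMic : ∀ s, IsClosed (Mi s) := fun s => (DUN_mirror_closed M s).preimage hval
  have hstpT : ∀ z : Z, stp D m z.1.1.1 ⊆ T := by
    intro z s hs
    by_contra hcon
    have h1 : D.fold z.1.1.1 ∈ m s := hs
    exact hT s hcon _ h1 (hE _ _ z.2.1)
  have hstp : ∀ y : Dev D G X m, y.1.1 ∈ E → stp D m y.1.1 ⊆ T := by
    intro y hy s hs
    by_contra hcon
    have h1 : D.fold y.1.1 ∈ m s := hs
    exact hT s hcon _ h1 (hE _ _ hy)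
  -- strata of a chamber
  have hStr : ∀ u ∈ gorb G.R T w1, ∀ A : Finset S, Cliq cm A → (∀ s ∈ A, s ∈ T) →
      AE ↥(Ch u ∩ ⋂ s ∈ A, Mi s) := by
    intro u hu A hcl hAT
    have h1 := hCH V ι S D ty cm X m G M E hE A (hA A hcl hAT) u
    have h2 := AE.preimage_embedding (f := (Subtype.val : Z → Dev D G X m))
      IsEmbedding.subtypeVal h1 (by
        rintro y ⟨hy1, hy2, hy3⟩
        rw [Subtype.range_coe]
        refine ⟨hy1, ?_⟩
        rw [DCH_orb_mem y hy2]
        exact (DCH_gorb_mono (hstp y hy1) u).trans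
          (fun v hv => DCH_gorb_trans hu hv))
    have e : (Subtype.val : Z → Dev D G X m) ⁻¹'
        {y | y.1.1 ∈ E ∧ y ∈ Dev.ch u ∧ ∀ s ∈ A, s ∈ stp D m y.1.1} =
        Ch u ∩ ⋂ s ∈ A, Mi s := by
      ext z
      constructor
      · rintro ⟨_, h4, h5⟩
        exact ⟨h4, mem_iInter₂.2 h5⟩
      · rintro ⟨h4, h5⟩
        refine ⟨z.2.1, h4, fun s hs => ?_⟩
        have h6 : z ∈ Mi s := mem_iInter₂.1 h5 s hs
        exact h6
    rw [e] at h2
    exact h2
  have hCh : ∀ u ∈ gorb G.R T w1, AE ↥(Ch u) := by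
    intro u hu
    have h1 := hStr u hu ∅ (fun s hs => by simp at hs) (fun s hs => by simp at hs)
    have e0 : Ch u ∩ ⋂ s ∈ (∅ : Finset S), Mi s = Ch u := by
      ext z
      constructor
      · exact fun h => h.1
      · exact fun h => ⟨h, mem_iInter₂.2 (fun s hs => by simp at hs)⟩
    rw [e0] at h1
    exact h1
  -- finite unions
  have hF : ∀ n : ℕ, ∀ F : Finset G.W, F.card = n + 1 → (∀ u ∈ F, u ∈ gorb G.R T w1) →
      (∀ u ∈ F, ∀ s ∈ T, G.des u s → G.R s u ∈ F) → w1 ∈ F → AE ↥(⋃ u ∈ F, Ch u) := by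
    intro n
    induction n with
    | zero =>
      intro F hc hF1 hF2 hF3
      have hc' : F.card = 1 := by omega
      obtain ⟨a, rfl⟩ := Finset.card_eq_one.1 hc'
      have : w1 = a := by simpa using hF3
      subst this
      have h1 := hCh w1 (DCH_gorb_refl _ _ _)
      have e0 : (⋃ u ∈ ({w1} : Finset G.W), Ch u) = Ch w1 := by
        rw [Finset.set_biUnion_singleton]
      rw [e0]
      exact h1
    | succ n ih =>
      intro F hc hF1 hF2 hF3
      obtain ⟨u, huF, hu⟩ := Finset.exists_max_image F G.len ⟨w1, hF3⟩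
      have hne : u ≠ w1 := by
        intro e
        have hex : ∃ v ∈ F, v ≠ w1 := by
          by_contra hcon
          push Not at hcon
          have : F ⊆ {w1} := fun v hv => Finset.mem_singleton.2 (hcon v hv)
          have := Finset.card_le_card this
          rw [Finset.card_singleton] at this
          omega
        obtain ⟨v, hv, hvne⟩ := hex
        have h1 := (G.orb T w1 v hnd (hF1 v hv) hvne).1
        have h2 := hu v hv
        rw [e] at h2
        omega
      have huo := hF1 u huF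
      have h1 : AE ↥(⋃ v ∈ F.erase u, Ch v) := by
        refine ih (F.erase u) ?_ ?_ ?_ ?_
        · rw [Finset.card_erase_of_mem huF]
          omega
        · intro v hv
          exact hF1 v (Finset.mem_of_mem_erase hv)
        · intro v hv s hs hd
          refine Finset.mem_erase.2 ⟨?_, hF2 v (Finset.mem_of_mem_erase hv) s hs hd⟩
          intro e
          have h2 := G.len_des _ _ hd
          have h3 := hu v (Finset.mem_of_mem_erase hv)
          rw [e] at h2
          omega
        · exact Finset.mem_erase.2 ⟨hne.symm, hF3⟩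
      -- the descents
      let P : Finset S := (Set.toFinite {s : S | s ∈ T ∧ G.des u s}).toFinset
      have hP : ∀ s, s ∈ P ↔ s ∈ T ∧ G.des u s := fun s => Set.Finite.mem_toFinset _
      have hPne : P.Nonempty := by
        obtain ⟨s, hs, hd⟩ := (G.orb T w1 u hnd huo hne).2
        exact ⟨s, (hP s).2 ⟨hs, hd⟩⟩
      have h2 : AE ↥(Ch u ∩ ⋃ s ∈ P, Mi s) := by
        refine AE.biUnion_inter Mi hMic P (Ch u) (hChc u) hPne (fun t ht _ => ?_)
        refine hStr u huo t (fun a ha b hb hab => ?_) (fun s hs => ((hP s).1 (ht hs)).1)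
        exact G.des_cm u a b ((hP a).1 (ht ha)).2 ((hP b).1 (ht hb)).2 hab
      have e1 : Ch u ∩ ⋃ s ∈ P, Mi s = Ch u ∩ ⋃ v ∈ F.erase u, Ch v := by
        ext z
        constructor
        · rintro ⟨hz, hz2⟩
          obtain ⟨s, hs, hz3⟩ := mem_iUnion₂.1 hz2
          obtain ⟨hsT, hd⟩ := (hP s).1 hs
          refine ⟨hz, mem_iUnion₂.2 ⟨G.R s u, ?_, ?_⟩⟩
          · refine Finset.mem_erase.2 ⟨?_, hF2 u huF s hsT hd⟩
            intro e
            have h3 := G.len_des _ _ hd
            rw [e] at h3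
            omega
          · show G.R s u ∈ z.1.1.2
            rw [DCH_orb_mem z.1 hz]
            exact DCH_gorb_step (DCH_gorb_refl _ _ _) hz3
        · rintro ⟨hz, hz2⟩
          obtain ⟨v, hv, hz3⟩ := mem_iUnion₂.1 hz2
          refine ⟨hz, ?_⟩
          have h3 : v ∈ gorb G.R (stp D m z.1.1.1) u := by
            rw [← DCH_orb_mem z.1 hz]
            exact hz3
          by_contra hcon
          have h4 : ∀ s ∈ stp D m z.1.1.1, ¬ G.des u s := by
            intro s hs hd
            exact hcon (mem_iUnion₂.2 ⟨s, (hP s).2 ⟨hstpT z hs, hd⟩, hs⟩)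
          have h5 := (G.orb _ u v h4 h3 (Finset.ne_of_mem_erase hv)).1
          have h6 := hu v (Finset.mem_of_mem_erase hv)
          omega
      have e2 : (⋃ v ∈ F, Ch v) = Ch u ∪ ⋃ v ∈ F.erase u, Ch v := by
        rw [← Finset.set_biUnion_insert, Finset.insert_erase huF]
      rw [e2]
      refine (hCh u huo).union_closed h1 ?_ (hChc u) ?_
      · rw [← e1]
        exact h2
      · exact (F.erase u).finite_toSet.isClosed_biUnion (fun v _ => hChc v)
  -- exhaustion
  refine AE.of_mono (fun n => ⋃ u ∈ (DUN_ball G T w1 hnd (n + G.len w1)).toFinset, Ch u)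
    ?_ ?_ ?_
  · intro a b hab z hz
    obtain ⟨u, hu, hz2⟩ := mem_iUnion₂.1 hz
    refine mem_iUnion₂.2 ⟨u, ?_, hz2⟩
    rw [Set.Finite.mem_toFinset] at hu ⊢
    refine ⟨hu.1, hu.2.trans ?_⟩
    omega
  · intro n
    have hmem : w1 ∈ (DUN_ball G T w1 hnd (n + G.len w1)).toFinset := by
      rw [Set.Finite.mem_toFinset]
      exact ⟨DCH_gorb_refl _ _ _, by omega⟩
    have hpos : 0 < (DUN_ball G T w1 hnd (n + G.len w1)).toFinset.card :=
      Finset.card_pos.2 ⟨w1, hmem⟩
    refine hF ((DUN_ball G T w1 hnd (n + G.len w1)).toFinset.card - 1) _ (by omega) ?_ ?_ hmem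
    · intro u hu
      rw [Set.Finite.mem_toFinset] at hu
      exact hu.1
    · intro u hu s hs hd
      rw [Set.Finite.mem_toFinset] at hu ⊢
      refine ⟨DCH_gorb_step hu.1 hs, ?_⟩
      have h1 := G.len_des _ _ hd
      have h2 := hu.2
      omega
  · intro z
    have hfin := DUN_fiber_finite M z.1
    obtain ⟨n, hn⟩ : ∃ n : ℕ, ∀ u ∈ z.1.1.2, G.len u ≤ n := by
      obtain ⟨n, hn⟩ := (hfin.image G.len).bddAbove
      exact ⟨n, fun u hu => hn ⟨u, hu, rfl⟩⟩
    refine ⟨n, ?_⟩
    have hopen : IsOpen {y : Dev D G X m | y.1.2 ⊆ z.1.1.2} :=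
      fun y hy => ⟨univ, isOpen_univ, mem_univ _, fun y' _ h => h.trans hy⟩
    have hzz : z ∈ (fun z : Z => z.1) ⁻¹' {y : Dev D G X m | y.1.2 ⊆ z.1.1.2} := fun u hu => hu
    refine Filter.mem_of_superset ((hopen.preimage hval).mem_nhds hzz) ?_
    intro z' hz'
    obtain ⟨u, _, hu⟩ := z'.1.2.2
    have hu2 : u ∈ z'.1.1.2 := by
      rw [hu]
      exact DCH_gorb_refl _ _ _
    refine mem_iUnion₂.2 ⟨u, ?_, hu2⟩
    rw [Set.Finite.mem_toFinset]
    exact ⟨z.2.2 (hz' hu2), (hn u (hz' hu2)).trans (by omega)⟩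

end Pool.KT
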