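import Pool.Agent.Work.MP_70ab54_kt.InterfaceK

set_option autoImplicit false

namespace Pool.KT

open Set Topology

theorem K_COMP_aux {E Y X : Type} [TopologicalSpace E] [TopologicalSpace Y] [TopologicalSpace X]
    {p : E → Y} {q : Y → X} (hp : IsCoveringMap p) (hq : IsCoveringMap q)
    (hfin : ∀ x, (q ⁻¹' {x}).Finite) : IsCoveringMap (q ∘ p) := by
  intro x
  obtain ⟨hdI, U, hxU, hU, hqU, H, hH⟩ := hq x
  have hfinI : Finite ↥(q ⁻¹' {x}) := (hfin x).to_subtype
  -- the points over x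
  let y : ↥(q ⁻¹' {x}) → Y := fun i => (H.symm (⟨x, hxU⟩, i) : Y)
  choose hdJ V hyV hV hpV K hK using fun i => hp (y i)
  -- the neighbourhood
  let s : ↥(q ⁻¹' {x}) → ↥U → Y := fun i u => (H.symm (u, i) : Y)
  have hs : ∀ i, Continuous (s i) := fun i =>
    continuous_subtype_val.comp (H.symm.continuous.comp (by fun_prop))
  have hqs : ∀ i u, q (s i u) = u := by
    intro i u
    have h := hH (H.symm (u, i))
    rw [H.apply_symm_apply] at h
    exact h.symm
  let W' : Set ↥U := ⋂ i, s i ⁻¹' V i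
  have hW' : IsOpen W' := isOpen_iInter_of_finite fun i => (hV i).preimage (hs i)
  let W : Set X := Subtype.val '' W'
  have hW : IsOpen W := hU.isOpenMap_subtype_val _ hW'
  have hxW : x ∈ W := ⟨⟨x, hxU⟩, mem_iInter.2 fun i => hyV i, rfl⟩
  have hWU : W ⊆ U := by rintro _ ⟨u, _, rfl⟩; exact u.2
  have hWV : ∀ (w : ↥W) (i : ↥(q ⁻¹' {x})), s i ⟨w, hWU w.2⟩ ∈ V i := by
    rintro ⟨_, u, hu, rfl⟩ i
    exact mem_iInter.1 hu i
  let J : Type := Σ i : ↥(q ⁻¹' {x}), ↥(p ⁻¹' {y i})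
  have hdJ' : DiscreteTopology J := inferInstance
  let G : ↥W × J → E := fun wj =>
    ((K wj.2.1).symm (⟨s wj.2.1 ⟨wj.1, hWU wj.1.2⟩, hWV wj.1 wj.2.1⟩, wj.2.2) : E)
  have hG1 : ∀ wj, p (G wj) = s wj.2.1 ⟨wj.1, hWU wj.1.2⟩ := by
    intro wj
    have h := hK wj.2.1 ((K wj.2.1).symm (⟨s wj.2.1 ⟨wj.1, hWU wj.1.2⟩, hWV wj.1 wj.2.1⟩, wj.2.2))
    rw [Homeomorph.apply_symm_apply] at h
    exact h.symm
  have hG2 : ∀ wj, q (p (G wj)) = wj.1 := fun wj => by rw [hG1, hqs]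
  have hGc : Continuous G := by
    rw [continuous_prod_of_discrete_right]
    intro b
    have h1 : Continuous fun w : ↥W => (⟨(w : X), hWU w.2⟩ : ↥U) :=
      Continuous.subtype_mk continuous_subtype_val _
    have h2 : Continuous fun w : ↥W => (⟨s b.1 ⟨(w : X), hWU w.2⟩, hWV w b.1⟩ : ↥(V b.1)) :=
      Continuous.subtype_mk ((hs b.1).comp h1) _
    have h3 : Continuous fun w : ↥W =>
        ((⟨s b.1 ⟨(w : X), hWU w.2⟩, hWV w b.1⟩, b.2) : ↥(V b.1) × ↥(p ⁻¹' {y b.1})) :=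
      h2.prodMk continuous_const
    exact continuous_subtype_val.comp ((K b.1).symm.continuous.comp h3)
  have hGinj : Function.Injective G := by
    rintro ⟨w, i, j⟩ ⟨w', i', j'⟩ h
    have hw : w = w' := by
      apply Subtype.ext
      rw [← hG2 (w, ⟨i, j⟩), ← hG2 (w', ⟨i', j'⟩), h]
    subst hw
    have hi : i = i' := by
      have h1 : s i ⟨w, hWU w.2⟩ = s i' ⟨w, hWU w.2⟩ := by
        rw [← hG1 (w, ⟨i, j⟩), ← hG1 (w, ⟨i', j'⟩), h]
      have h2 := H.symm.injective (Subtype.ext h1)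
      exact (Prod.ext_iff.1 h2).2
    subst hi
    have h3 := (K i).symm.injective (Subtype.ext h)
    have h5 : j = j' := (Prod.ext_iff.1 h3).2
    rw [h5]
  have hlh : IsLocalHomeomorph (q ∘ p) := hq.isLocalHomeomorph.comp hp.isLocalHomeomorph
  have hGo : IsOpenMap G := by
    intro O hO
    have hb : ∀ b : J, IsOpenMap fun w : ↥W => G (w, b) := by
      intro b
      have hc : Continuous fun w : ↥W => G (w, b) := hGc.comp (by fun_prop)
      refine (IsLocalHomeomorph.of_comp ?_ hlh hc).isOpenMap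
      have he : (q ∘ p) ∘ (fun w : ↥W => G (w, b)) = Subtype.val := by
        funext w; exact hG2 (w, b)
      rw [he]
      exact hW.isOpenEmbedding_subtypeVal.isLocalHomeomorph
    have hE : G '' O = ⋃ b : J, (fun w : ↥W => G (w, b)) '' ((fun w => (w, b)) ⁻¹' O) := by
      ext e
      simp only [mem_image, mem_iUnion, mem_preimage]
      constructor
      · rintro ⟨⟨w, b⟩, h, rfl⟩; exact ⟨b, w, h, rfl⟩
      · rintro ⟨b, w, h, rfl⟩; exact ⟨(w, b), h, rfl⟩
    rw [hE]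
    exact isOpen_iUnion fun b => hb b _ (hO.preimage (by fun_prop))
  have hrange : range G = (q ∘ p) ⁻¹' W := by
    ext e
    constructor
    · rintro ⟨wj, rfl⟩
      show q (p (G wj)) ∈ W
      rw [hG2]; exact wj.1.2
    · intro he
      have he' : q (p e) ∈ W := he
      have hpe : p e ∈ q ⁻¹' U := hWU he'
      let i := (H ⟨p e, hpe⟩).2
      have h1 : s i ⟨q (p e), hWU he'⟩ = p e := by
        have h2 : ((⟨q (p e), hWU he'⟩ : ↥U), i) = H ⟨p e, hpe⟩ :=
          Prod.ext (Subtype.ext (hH ⟨p e, hpe⟩).symm) rfl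
        show ((H.symm (⟨q (p e), hWU he'⟩, i) : ↥(q ⁻¹' U)) : Y) = p e
        rw [h2, H.symm_apply_apply]
      have h3 : p e ∈ V i := by
        have := hWV ⟨q (p e), he'⟩ i
        rwa [h1] at this
      refine ⟨(⟨q (p e), he'⟩, ⟨i, (K i ⟨e, h3⟩).2⟩), ?_⟩
      have h4 : ((⟨s i ⟨q (p e), hWU he'⟩, hWV ⟨q (p e), he'⟩ i⟩ : ↥(V i)), (K i ⟨e, h3⟩).2)
          = K i ⟨e, h3⟩ := Prod.ext (Subtype.ext (h1.trans (hK i ⟨e, h3⟩).symm)) rfl
      show (((K i).symm (⟨s i ⟨q (p e), hWU he'⟩, hWV ⟨q (p e), he'⟩ i⟩,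
        (K i ⟨e, h3⟩).2) : ↥(p ⁻¹' V i)) : E) = e
      rw [h4, Homeomorph.symm_apply_apply]
  have hemb : IsOpenEmbedding G := .of_continuous_injective_isOpenMap hGc hGinj hGo
  have hev : IsEvenlyCovered (q ∘ p) x J :=
    ⟨hdJ', W, hxW, hW, hrange ▸ hGo.isOpen_range,
      (Homeomorph.setCongr hrange.symm).trans hemb.toIsEmbedding.toHomeomorph.symm, by
        intro e
        obtain ⟨e', rfl⟩ := (hemb.toIsEmbedding.toHomeomorph.trans
          (Homeomorph.setCongr hrange)).surjective e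
        have : ((Homeomorph.setCongr hrange.symm).trans hemb.toIsEmbedding.toHomeomorph.symm)
          ((hemb.toIsEmbedding.toHomeomorph.trans (Homeomorph.setCongr hrange)) e') = e' := by
          apply hemb.toIsEmbedding.toHomeomorph.symm_apply_eq.2
          rfl
        rw [this]
        exact (hG2 e').symm⟩
  exact hev.to_isEvenlyCovered_preimage

theorem stmt_K_COMP : Stmt_K_COMP :=
  fun _ _ _ _ _ _ _ _ hp hq hfin => K_COMP_aux hp hq hfin

end Pool.KT
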