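import Pool.Agent.Work.MP_70ab54_kt.KDefs

/-!
# MP_70ab54: basic facts on `LocDiffOn` (helper44)

`LocDiffOn.comp`, `LocDiffOn.mono`, `LocDiffOn.isOpen_image`, `IsDiffeo3.locDiffOn`,
`locDiffOn_of_leftInv` (a smooth map with a smooth left inverse between spaces of the same
dimension), `LocDiffOn.congr`.
-/

set_option autoImplicit false

namespace Pool.KT

open Set Topology Filter
open scoped ContDiff

variable {E F G : Type} [NormedAddCommGroup E] [NormedSpace ℝ E] [NormedAddCommGroup F]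
  [NormedSpace ℝ F] [NormedAddCommGroup G] [NormedSpace ℝ G]

theorem LocDiffOn.contDiffAt {f : E → F} {W : Set E} (h : LocDiffOn f W) {x : E} (hx : x ∈ W) :
    ContDiffAt ℝ ∞ f x := h.2.1.contDiffAt (h.1.mem_nhds hx)

theorem LocDiffOn.differentiableAt {f : E → F} {W : Set E} (h : LocDiffOn f W) {x : E}
    (hx : x ∈ W) : DifferentiableAt ℝ f x := (h.contDiffAt hx).differentiableAt (by simp)

theorem LocDiffOn.continuousOn {f : E → F} {W : Set E} (h : LocDiffOn f W) : ContinuousOn f W :=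
  h.2.1.continuousOn

theorem LocDiffOn.mono {f : E → F} {W W' : Set E} (h : LocDiffOn f W) (hW' : IsOpen W')
    (hs : W' ⊆ W) : LocDiffOn f W' :=
  ⟨hW', h.2.1.mono hs, fun x hx => h.2.2 x (hs hx)⟩

theorem LocDiffOn.congr {f g : E → F} {W : Set E} (h : LocDiffOn f W) (hfg : EqOn g f W) :
    LocDiffOn g W := by
  refine ⟨h.1, h.2.1.congr hfg, fun x hx => ?_⟩
  have : g =ᶠ[𝓝 x] f := by
    filter_upwards [h.1.mem_nhds hx] with y hy using hfg hy
  rw [this.fderiv_eq]
  exact h.2.2 x hx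

theorem LocDiffOn.comp {f : E → F} {g : F → G} {W : Set E} {W' : Set F} (hg : LocDiffOn g W')
    (hf : LocDiffOn f W) (hm : MapsTo f W W') : LocDiffOn (fun x => g (f x)) W := by
  refine ⟨hf.1, hg.2.1.comp hf.2.1 hm, fun x hx => ?_⟩
  have h1 := hf.differentiableAt hx
  have h2 := hg.differentiableAt (hm hx)
  have : fderiv ℝ (fun x => g (f x)) x = (fderiv ℝ g (f x)).comp (fderiv ℝ f x) :=
    fderiv_comp x h2 h1
  rw [this]
  exact (hg.2.2 _ (hm hx)).comp (hf.2.2 x hx)

/-- smooth maps with a smooth left inverse -/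
theorem locDiffOn_of_leftInv [FiniteDimensional ℝ E] [FiniteDimensional ℝ F]
    (hdim : Module.finrank ℝ E = Module.finrank ℝ F) {f : E → F} {g : F → E} {W : Set E}
    (hW : IsOpen W) (hf : ContDiffOn ℝ ∞ f W) (hg : ∀ x ∈ W, DifferentiableAt ℝ g (f x))
    (hgf : ∀ x ∈ W, g (f x) = x) : LocDiffOn f W := by
  refine ⟨hW, hf, fun x hx => ?_⟩
  have h1 : DifferentiableAt ℝ f x :=
    (hf.contDiffAt (hW.mem_nhds hx)).differentiableAt (by simp)
  have h2 : (fderiv ℝ g (f x)).comp (fderiv ℝ f x) = ContinuousLinearMap.id ℝ E := by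
    rw [← fderiv_comp x (hg x hx) h1]
    have : (g ∘ f) =ᶠ[𝓝 x] id := by
      filter_upwards [hW.mem_nhds hx] with y hy using hgf y hy
    rw [this.fderiv_eq, fderiv_id]
  have hinj : Function.Injective (fderiv ℝ f x) := by
    intro a b hab
    have := congrArg (fun L : E →L[ℝ] E => L a) h2
    have h' := congrArg (fun L : E →L[ℝ] E => L b) h2
    simp only [ContinuousLinearMap.comp_apply, ContinuousLinearMap.id_apply] at this h'
    rw [← this, ← h', hab]
  refine ⟨hinj, ?_⟩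
  exact (LinearMap.injective_iff_surjective_of_finrank_eq_finrank hdim
    (f := (fderiv ℝ f x : E →ₗ[ℝ] F))).1 hinj

theorem LocDiffOn.isOpen_image [CompleteSpace E] [CompleteSpace F] {f : E → F} {W : Set E}
    (h : LocDiffOn f W) : IsOpen (f '' W) := by
  rw [isOpen_iff_mem_nhds]
  rintro _ ⟨x, hx, rfl⟩
  have hs : HasStrictFDerivAt f (fderiv ℝ f x) x :=
    (h.contDiffAt hx).hasStrictFDerivAt (by simp)
  have hb := h.2.2 x hx
  let L := ContinuousLinearEquiv.ofBijective (fderiv ℝ f x)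
    (LinearMap.ker_eq_bot.2 hb.1) (LinearMap.range_eq_top.2 hb.2)
  have hL : (L : E →L[ℝ] F) = fderiv ℝ f x := by
    ext v; rfl
  have := (hL ▸ hs : HasStrictFDerivAt f (L : E →L[ℝ] F) x).map_nhds_eq_of_equiv
  rw [← this]
  exact image_mem_map (h.1.mem_nhds hx)

theorem IsDiffeo3.locDiffOn {H : R3 ≃ₜ R3} (hH : IsDiffeo3 H) :
    LocDiffOn (fun x => H x) univ :=
  locDiffOn_of_leftInv rfl isOpen_univ hH.1.contDiffOn (g := fun x => H.symm x)
    (fun x _ => (hH.2.contDiffAt).differentiableAt (by simp)) (fun x _ => H.symm_apply_apply x)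

theorem IsDiffeo3.symm {H : R3 ≃ₜ R3} (hH : IsDiffeo3 H) : IsDiffeo3 H.symm :=
  ⟨hH.2, hH.1⟩

end Pool.KT
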