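import Pool.Agent.Work.MP_70ab54_kt.InterfaceK
import Pool.Agent.Work.MP_70ab54_kt.KLoc

set_option autoImplicit false

namespace Pool.KT

open Set Complex Topology Filter
open scoped ContDiff

theorem K_FIN_isOpen_Bd (δ : ℝ) : IsOpen (Bd δ) := by
  have : Bd δ = {x : R3 | ‖x.1‖ < 1 + δ} ∩ {x : R3 | |x.2| < δ} := by
    ext x; rfl
  rw [this]
  exact (isOpen_lt (continuous_norm.comp continuous_fst) continuous_const).inter
    (isOpen_lt (continuous_abs.comp continuous_snd) continuous_const)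

theorem K_FIN_compact_box (δ : ℝ) : IsCompact {x : R3 | ‖x.1‖ ≤ 1 + δ ∧ |x.2| ≤ δ} := by
  have : {x : R3 | ‖x.1‖ ≤ 1 + δ ∧ |x.2| ≤ δ} =
      (Metric.closedBall (0 : ℂ) (1 + δ)) ×ˢ (Metric.closedBall (0 : ℝ) δ) := by
    ext x
    simp [Real.norm_eq_abs]
  rw [this]
  exact (isCompact_closedBall _ _).prod (isCompact_closedBall _ _)

theorem K_FIN_Ucirc_Bd {δ : ℝ} (hδ : 0 < δ) : Ucirc ⊆ Bd δ := by
  rintro x ⟨h1, h2⟩
  refine ⟨by rw [h1]; linarith, by rw [h2]; simpa using hδ⟩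

/-- a map which is the identity off a bounded open set, continuous on a closed set `C` maps `C`
to a closed set -/
theorem K_FIN_closed_image {j : R3 → R3} {δ : ℝ} {C : Set R3} (hC : IsClosed C)
    (hj : ContinuousOn j C) (hid : ∀ x ∉ Bd δ, j x = x) : IsClosed (j '' C) := by
  have hK := K_FIN_compact_box δ
  have h1 : IsCompact (C ∩ {x : R3 | ‖x.1‖ ≤ 1 + δ ∧ |x.2| ≤ δ}) := hK.inter_left hC
  have h2 : IsClosed (j '' (C ∩ {x : R3 | ‖x.1‖ ≤ 1 + δ ∧ |x.2| ≤ δ})) :=
    (h1.image_of_continuousOn (hj.mono inter_subset_left)).isClosed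
  have h3 : IsClosed (C ∩ (Bd δ)ᶜ) := hC.inter (K_FIN_isOpen_Bd δ).isClosed_compl
  have : j '' C = j '' (C ∩ {x : R3 | ‖x.1‖ ≤ 1 + δ ∧ |x.2| ≤ δ}) ∪ (C ∩ (Bd δ)ᶜ) := by
    ext y
    constructor
    · rintro ⟨x, hx, rfl⟩
      by_cases hb : x ∈ Bd δ
      · exact Or.inl ⟨x, ⟨hx, hb.1.le, hb.2.le⟩, rfl⟩
      · rw [hid x hb]; exact Or.inr ⟨hx, hb⟩
    · rintro (⟨x, hx, rfl⟩ | ⟨hy, hb⟩)
      · exact ⟨x, hx.1, rfl⟩
      · exact ⟨y, hy, hid y hb⟩
  rw [this]
  exact h2.union h3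

theorem stmt_K_FIN (h1 : Stmt_K_NU) (h2 : Stmt_K_FM) (h3 : Stmt_K_G) (h4 : Stmt_K_J1)
    (h5 : Stmt_K_H) (h6 : Stmt_K_TOP) (h7 : Stmt_K_EXP) (h8 : Stmt_K_GCH) (h9 : Stmt_K_COV) :
    Stmt_K := by
  intro δ hδ
  obtain ⟨nuOpen, -, -, clU, nuSmall⟩ := h1
  have h0U : (0 : R3) ∈ Ucircᶜ := by
    intro h
    have := h.1
    simp at this
  obtain ⟨G, hG, hGf⟩ := h3 fh Ucircᶜ h0U h2.2
  obtain ⟨hjL, hjI, -, R, hR1, hjR⟩ := h4 G hG hGf
  set j1 : R3 → R3 := fun x => inv3 (G (fm x)) with hj1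
  obtain ⟨h, hh, ⟨W, hWo, hUW, hhW⟩, hhR⟩ := h5 δ R hδ
  obtain ⟨ε, hε0, hε1, hεW⟩ := nuSmall (W ∩ Bd δ) (hWo.inter (K_FIN_isOpen_Bd δ))
    (subset_inter hUW (K_FIN_Ucirc_Bd hδ))
  -- the homeomorphism fixes the circle and the small tubes
  have hfixsymm : ∀ x ∈ W, h.symm x = x := by
    intro x hx
    rw [Homeomorph.symm_apply_eq, hhW x hx]
  have hsU : ∀ x, x ∉ Ucirc → h.symm x ∉ Ucirc := by
    intro x hx hx'
    apply hx
    have : h (h.symm x) = h.symm x := hhW _ (hUW hx')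
    rw [Homeomorph.apply_symm_apply] at this
    rw [this]; exact hx'
  have himU : h.symm '' Ucircᶜ = Ucircᶜ := by
    ext x
    constructor
    · rintro ⟨y, hy, rfl⟩
      exact hsU y hy
    · intro hx
      refine ⟨h x, ?_, h.symm_apply_apply x⟩
      intro hx'
      apply hx
      have : h.symm (h x) = h x := hfixsymm _ (hUW hx')
      rw [Homeomorph.symm_apply_apply] at this
      rw [this]; exact hx'
  have himnu : ∀ ε' : ℝ, 0 < ε' → ε' ≤ ε → h.symm '' (nu ε')ᶜ = (nu ε')ᶜ := by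
    intro ε' h0' h1'
    have hsub : nu ε' ⊆ W := (hεW ε' h0' h1').trans inter_subset_left
    ext x
    constructor
    · rintro ⟨y, hy, rfl⟩ hx'
      apply hy
      have : h (h.symm y) = h.symm y := hhW _ (hsub hx')
      rw [Homeomorph.apply_symm_apply] at this
      rw [this]; exact hx'
    · intro hx
      refine ⟨h x, ?_, h.symm_apply_apply x⟩
      intro hx'
      apply hx
      have : h.symm (h x) = h x := hfixsymm _ (hsub hx')
      rw [Homeomorph.symm_apply_apply] at this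
      rw [this]; exact hx'
  let j : R3 → R3 := fun x => h (j1 (h.symm x))
  have hjimg : ∀ C : Set R3, j '' C = h '' (j1 '' (h.symm '' C)) := by
    intro C
    rw [image_image, image_image]
  have hjloc : LocDiffOn j Ucircᶜ := by
    have a1 : LocDiffOn (fun x => h.symm x) (Ucircᶜ) :=
      hh.symm.locDiffOn.mono clU.isOpen_compl (subset_univ _)
    have a2 := hjL.comp a1 (fun x hx => hsU x hx)
    exact hh.locDiffOn.comp a2 (fun x _ => mem_univ _)
  have hjid : ∀ x ∉ Bd δ, j x = x := by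
    intro x hx
    have hn : R < ‖h.symm x‖ := by
      by_contra hcon
      apply hx
      have := hhR (h.symm x) (not_lt.1 hcon)
      rwa [Homeomorph.apply_symm_apply] at this
    show h (inv3 (G (fm (h.symm x)))) = x
    rw [hjR _ hn, Homeomorph.apply_symm_apply]
  refine ⟨j, ε, hε0, hε1, hjloc, ?_, hjid, ?_, hjloc.isOpen_image, ?_⟩
  · intro x hx y hy hxy
    have a : j1 (h.symm x) = j1 (h.symm y) := h.injective hxy
    exact h.symm.injective (hjI (hsU x hx) (hsU y hy) a)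
  · exact (hεW ε hε0 le_rfl).trans inter_subset_right
  · intro ε' h0' h1'
    have hcl : IsClosed (j '' (nu ε')ᶜ) := by
      refine K_FIN_closed_image (nuOpen ε').isClosed_compl ?_ hjid
      refine hjloc.continuousOn.mono ?_
      intro x hx hxU
      apply hx
      -- the circle lies in every tube
      show (2 * x.2) ^ 2 + (nsq x - 1) ^ 2 < ε' ^ 2 * (nsq x + 1) ^ 2
      have e1 : x.2 = 0 := hxU.2
      have e2 : nsq x = 1 := by
        unfold nsq
        rw [hxU.1, e1]; norm_num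
      rw [e1, e2]
      have : 0 < ε' ^ 2 := by positivity
      nlinarith
    refine ⟨hcl.isOpen_compl, ?_⟩
    -- good cover by transport
    obtain ⟨Φ, hΦ⟩ := h6 G hG hGf ε' h0' (h1'.trans_lt hε1)
    have hr0 : 0 ≤ Real.sqrt (1 - ε' ^ 2) := Real.sqrt_nonneg _
    have hr1 : Real.sqrt (1 - ε' ^ 2) < 1 := by
      rw [Real.sqrt_lt' one_pos]
      nlinarith [h0']
    generalize Real.sqrt (1 - ε' ^ 2) = r at Φ hr0 hr1
    obtain ⟨e, he⟩ := h7 r hr0 hr1
    have c1 : GoodCover (S3 \ ctube r) (fun _ : Unit => ptube r) :=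
      h8 (ℂ × ℂ) (ℂ × ℂ) (S3 \ ctube 0) (S3 \ ctube r) Unit (fun _ => ptube 0)
        (fun _ => ptube r) e.symm (fun _ x => by
          have := he (e.symm x)
          rw [Homeomorph.apply_symm_apply] at this
          exact this.symm) h9
    have c2 : GoodCover (Oset j1 ε') (fun _ : Unit => j1 '' Ucircᶜ) :=
      h8 (ℂ × ℂ) R3 (S3 \ ctube r) (Oset j1 ε') Unit (fun _ => ptube r)
        (fun _ => j1 '' Ucircᶜ) Φ.symm (fun _ x => by
          have := hΦ (Φ.symm x)
          rw [Homeomorph.apply_symm_apply] at this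
          exact this.symm) c1
    have hO : Oset j ε' = h '' (Oset j1 ε') := by
      unfold Oset
      rw [hjimg, himnu ε' h0' h1', ← image_compl_eq h.bijective]
    have hE : j '' Ucircᶜ = h '' (j1 '' Ucircᶜ) := by
      rw [hjimg, himU]
    rw [hO, hE]
    refine h8 R3 R3 (Oset j1 ε') (h '' (Oset j1 ε')) Unit (fun _ => j1 '' Ucircᶜ)
        (fun _ => h '' (j1 '' Ucircᶜ)) (h.image (Oset j1 ε')) (fun _ x => ?_) c2
    constructor
    · intro hx
      exact ⟨x, hx, rfl⟩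
    · rintro ⟨y, hy, hyx⟩
      have : y = (x : R3) := h.injective hyx
      rw [← this]; exact hy

end Pool.KT
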