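import Pool.Agent.Work.MP_70ab54_kt.InterfaceK

/-!
# MP_70ab54: block K_FM (helper47): the tube maps are local diffeomorphisms
-/

set_option autoImplicit false

namespace Pool.KT

open Set Complex Topology
open scoped ContDiff

namespace FM

variable {E F G : Type} [NormedAddCommGroup E] [NormedSpace ℝ E] [NormedAddCommGroup F]
    [NormedSpace ℝ F] [NormedAddCommGroup G] [NormedSpace ℝ G]

theorem differentiableAt_of {f : E → F} {W : Set E} (hW : IsOpen W) (hf : ContDiffOn ℝ ∞ f W)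
    {x : E} (hx : x ∈ W) : DifferentiableAt ℝ f x :=
  (hf.contDiffAt (hW.mem_nhds hx)).differentiableAt (by simp)

theorem locDiffOn_comp {f : E → F} {g : F → G} {W : Set E} {V : Set F} (hf : LocDiffOn f W)
    (hg : LocDiffOn g V) (h : MapsTo f W V) : LocDiffOn (g ∘ f) W := by
  obtain ⟨hW, hf1, hf2⟩ := hf
  obtain ⟨hV, hg1, hg2⟩ := hg
  refine ⟨hW, hg1.comp hf1 h, fun x hx => ?_⟩
  rw [fderiv_comp x (differentiableAt_of hV hg1 (h hx)) (differentiableAt_of hW hf1 hx)]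
  exact (hg2 _ (h hx)).comp (hf2 x hx)

theorem ist_snd_ne {x : R3} (hx : x ∉ Ucirc) : (ist x).2 ≠ 0 := by
  intro h
  apply hx
  have hN : 0 ≤ nsq x := by unfold nsq; positivity
  have hd : ((nsq x + 1 : ℝ) : ℂ) ≠ 0 := by
    norm_cast
    positivity
  have h1 : 2 * (x.2 : ℂ) + I * ((nsq x - 1 : ℝ) : ℂ) = 0 := by
    have := (div_eq_zero_iff.1 h)
    exact this.resolve_right hd
  have hre := congrArg Complex.re h1
  have him := congrArg Complex.im h1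
  simp at hre him
  refine ⟨?_, hre⟩
  unfold nsq at him
  rw [hre] at him
  have : ‖x.1‖ ^ 2 = 1 := by linarith
  nlinarith [norm_nonneg x.1]

theorem rho_smul (p : ℂ × ℂ) {t : ℝ} (ht : 0 ≤ t) : rho (t • p) = t * rho p := by
  unfold rho
  rw [Prod.smul_fst, Prod.smul_snd, norm_smul, norm_smul, Real.norm_of_nonneg ht]
  rw [show (t * ‖p.1‖) ^ 2 + (t * ‖p.2‖) ^ 2 = t ^ 2 * (‖p.1‖ ^ 2 + ‖p.2‖ ^ 2) by ring,
    Real.sqrt_mul (by positivity), Real.sqrt_sq ht]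

theorem Th_tub_smul (l η : ℂ) {t : ℝ} (ht : 0 ≤ t) :
    Th (tub (t * l) η) = (t ^ 3) • Th (tub l η) := by
  unfold Th tub
  have h1 : ‖((t : ℂ) * l) ^ 2 * (3 + η)‖ = t ^ 2 * ‖l ^ 2 * (3 + η)‖ := by
    rw [mul_pow, mul_assoc, norm_mul, norm_pow, Complex.norm_real, Real.norm_of_nonneg ht]
  refine Prod.ext ?_ ?_
  · simp only [h1, Prod.smul_fst, Complex.real_smul]
    rw [Real.sqrt_mul (by positivity), Real.sqrt_sq ht]
    push_cast
    ring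
  · simp only [Prod.smul_snd, Complex.real_smul]
    push_cast
    ring

theorem norm_lt_rho {p : ℂ × ℂ} (h : p.2 ≠ 0) : ‖p.1‖ < rho p := by
  unfold rho
  apply Real.lt_sqrt_of_sq_lt
  have : 0 < ‖p.2‖ := norm_pos_iff.2 h
  nlinarith

theorem im_lt_rho {p : ℂ × ℂ} (h : p.1 ≠ 0) : 0 < rho p - p.2.im := by
  have : ‖p.2‖ < rho p := by
    unfold rho
    apply Real.lt_sqrt_of_sq_lt
    have : 0 < ‖p.1‖ := norm_pos_iff.2 h
    nlinarith
  have h2 := Complex.abs_im_le_norm p.2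
  have h3 := le_abs_self p.2.im
  linarith

theorem polar_fst_ne {p : ℂ × ℂ} (h : p.2 ≠ 0) : (polar p).1 ≠ 0 := by
  unfold polar
  have : (((‖p.2‖ : ℝ) : ℂ)) ≠ 0 := by
    norm_cast
    exact (norm_pos_iff.2 h).ne'
  exact div_ne_zero h this

theorem polar_snd_lt {p : ℂ × ℂ} (h : p.2 ≠ 0) : ‖(polar p).2‖ < 1 := by
  unfold polar
  have h1 := norm_lt_rho h
  have h0 : 0 < rho p := lt_of_le_of_lt (norm_nonneg _) h1
  simp only [norm_div, Complex.norm_real, Real.norm_of_nonneg h0.le]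
  rw [div_lt_one h0]
  exact h1

theorem tub_fst_ne {l η : ℂ} (hl : l ≠ 0) (hη : ‖η‖ < 1) : (tub l η).1 ≠ 0 := by
  unfold tub
  refine mul_ne_zero (pow_ne_zero _ hl) ?_
  intro h
  have : η = -3 := by linear_combination h
  rw [this] at hη
  norm_num at hη

theorem Th_fst_ne {p : ℂ × ℂ} (h : p.1 ≠ 0) : (Th p).1 ≠ 0 := by
  unfold Th
  refine mul_ne_zero h ?_
  norm_cast
  exact (Real.sqrt_pos.2 (norm_pos_iff.2 h)).ne'

theorem rho_pos {p : ℂ × ℂ} (h : p.1 ≠ 0) : 0 < rho p := by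
  unfold rho
  have : 0 < ‖p.1‖ := norm_pos_iff.2 h
  apply Real.sqrt_pos.2
  positivity

/-- the main step -/
theorem locDiffOn_Fm (hST : Stmt_K_ST) (hSTD : Stmt_K_STD) (hTUBD : Stmt_K_TUBD)
    (hPOL : Stmt_K_POL) (φ : R3 → ℂ × ℂ) (hφ : φ = ist ∨ φ = fun x => cj (ist x)) :
    LocDiffOn (fun x => Fm (φ x)) Ucircᶜ := by
  have hne : ∀ x : R3, x ∉ Ucirc → (φ x).2 ≠ 0 := by
    intro x hx
    rcases hφ with rfl | rfl
    · exact ist_snd_ne hx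
    · intro h
      apply ist_snd_ne hx
      simpa [cj] using h
  have hP := hPOL φ hφ
  obtain ⟨hT, hTh⟩ := hTUBD
  have hRS := hSTD.1
  have hst := hST.2.2.1
  have m1 : MapsTo (fun q : ℝ × R3 =>
      (((q.1 : ℂ) * (polar (φ q.2)).1, (polar (φ q.2)).2) : ℂ × ℂ))
      {q | 0 < q.1 ∧ q.2 ∉ Ucirc} {q | q.1 ≠ 0 ∧ ‖q.2‖ < 1} := by
    rintro q ⟨hq1, hq2⟩
    refine ⟨mul_ne_zero ?_ (polar_fst_ne (hne _ hq2)), polar_snd_lt (hne _ hq2)⟩
    norm_cast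
    exact hq1.ne'
  have hc1 := locDiffOn_comp hP hT m1
  have m2 : MapsTo ((fun q : ℂ × ℂ => tub q.1 q.2) ∘ fun q : ℝ × R3 =>
      (((q.1 : ℂ) * (polar (φ q.2)).1, (polar (φ q.2)).2) : ℂ × ℂ))
      {q | 0 < q.1 ∧ q.2 ∉ Ucirc} {p | p.1 ≠ 0} := fun q hq =>
    tub_fst_ne (m1 hq).1 (m1 hq).2
  have hc2 := locDiffOn_comp hc1 hTh m2
  have m3 : MapsTo (Th ∘ ((fun q : ℂ × ℂ => tub q.1 q.2) ∘ fun q : ℝ × R3 =>
      (((q.1 : ℂ) * (polar (φ q.2)).1, (polar (φ q.2)).2) : ℂ × ℂ)))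
      {q | 0 < q.1 ∧ q.2 ∉ Ucirc} {p | 0 < rho p - p.2.im} := fun q hq =>
    im_lt_rho (Th_fst_ne (m2 hq))
  have hc3 := locDiffOn_comp hc2 hRS m3
  set Ψ : ℝ × R3 → ℝ × R3 := (fun p : ℂ × ℂ => ((rho p, st p) : ℝ × R3)) ∘
    (Th ∘ ((fun q : ℂ × ℂ => tub q.1 q.2) ∘ fun q : ℝ × R3 =>
      (((q.1 : ℂ) * (polar (φ q.2)).1, (polar (φ q.2)).2) : ℂ × ℂ))) with hΨ
  set g : R3 → ℝ := fun x => rho (Th (tub (polar (φ x)).1 (polar (φ x)).2)) with hg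
  set f : R3 → R3 := fun x => Fm (φ x) with hf
  have hEq : ∀ q : ℝ × R3, 0 < q.1 → Ψ q = (q.1 ^ 3 * g q.2, f q.2) := by
    intro q hq
    have e1 : Ψ q = (rho (Th (tub ((q.1 : ℂ) * (polar (φ q.2)).1) (polar (φ q.2)).2)),
      st (Th (tub ((q.1 : ℂ) * (polar (φ q.2)).1) (polar (φ q.2)).2))) := rfl
    rw [e1, Th_tub_smul _ _ hq.le, rho_smul _ (by positivity), hst _ _ (by positivity)]
    rfl
  obtain ⟨hW, hΨ1, hΨ2⟩ := hc3
  have hι : ContDiffOn ℝ ∞ (fun x : R3 => ((1, x) : ℝ × R3)) Ucircᶜ := by fun_prop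
  have hmι : MapsTo (fun x : R3 => ((1, x) : ℝ × R3)) Ucircᶜ {q | 0 < q.1 ∧ q.2 ∉ Ucirc} :=
    fun x hx => ⟨one_pos, hx⟩
  have hΨι := hΨ1.comp hι hmι
  have hopen : IsOpen (Ucircᶜ : Set R3) := by
    have := hW.preimage (f := fun x : R3 => ((1, x) : ℝ × R3)) (by fun_prop)
    convert this using 1
    ext x
    simp
  have hfc : ContDiffOn ℝ ∞ f Ucircᶜ := by
    refine (contDiff_snd.comp_contDiffOn hΨι).congr fun x hx => ?_
    simp only [Function.comp]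
    rw [hEq (1, x) one_pos]
  have hgc : ContDiffOn ℝ ∞ g Ucircᶜ := by
    refine (contDiff_fst.comp_contDiffOn hΨι).congr fun x hx => ?_
    simp only [Function.comp]
    rw [hEq (1, x) one_pos]
    simp
  refine ⟨hopen, hfc, fun x hx => ?_⟩
  have hdf : HasFDerivAt f (fderiv ℝ f x) x := (differentiableAt_of hopen hfc hx).hasFDerivAt
  have hdg : HasFDerivAt g (fderiv ℝ g x) x := (differentiableAt_of hopen hgc hx).hasFDerivAt
  have hdΨ : HasFDerivAt Ψ (fderiv ℝ Ψ (1, x)) (1, x) :=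
    (differentiableAt_of hW hΨ1 (hmι hx)).hasFDerivAt
  have hfst : HasFDerivAt (fun q : ℝ × R3 => q.1) (ContinuousLinearMap.fst ℝ ℝ R3) (1, x) :=
    hasFDerivAt_fst
  have hsnd : HasFDerivAt (fun q : ℝ × R3 => q.2) (ContinuousLinearMap.snd ℝ ℝ R3) (1, x) :=
    hasFDerivAt_snd
  have h1 : HasFDerivAt (fun q : ℝ × R3 => g q.2)
      ((fderiv ℝ g x).comp (ContinuousLinearMap.snd ℝ ℝ R3)) (1, x) :=
    HasFDerivAt.comp ((1, x) : ℝ × R3) (show HasFDerivAt g (fderiv ℝ g x) ((1, x) : ℝ × R3).2 from hdg) hsnd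
  have h2 : HasFDerivAt (fun q : ℝ × R3 => f q.2)
      ((fderiv ℝ f x).comp (ContinuousLinearMap.snd ℝ ℝ R3)) (1, x) :=
    HasFDerivAt.comp ((1, x) : ℝ × R3) (show HasFDerivAt f (fderiv ℝ f x) ((1, x) : ℝ × R3).2 from hdf) hsnd
  have h3 := ((hfst.pow 3).mul h1).prodMk h2
  have hee : Ψ =ᶠ[𝓝 ((1, x) : ℝ × R3)] fun q => (q.1 ^ 3 * g q.2, f q.2) := by
    filter_upwards [hW.mem_nhds (hmι hx)] with q hq
    exact hEq q hq.1
  have h4 := (hdΨ.congr_of_eventuallyEq hee.symm).unique h3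
  have hg0 : 0 < g x :=
    rho_pos (Th_fst_ne (tub_fst_ne (polar_fst_ne (hne x hx)) (polar_snd_lt (hne x hx))))
  have hinj : Function.Injective (fderiv ℝ f x) := by
    rw [injective_iff_map_eq_zero]
    intro v hv
    have h5 : fderiv ℝ Ψ (1, x) (-(fderiv ℝ g x v) / (3 * g x), v) = 0 := by
      rw [h4]
      refine Prod.ext ?_ ?_
      · simp
        field_simp
        ring
      · simp [hv]
    have h6 := (injective_iff_map_eq_zero _).1 (hΨ2 (1, x) (hmι hx)).1 _ h5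
    exact (Prod.ext_iff.1 h6).2
  exact ⟨hinj, LinearMap.surjective_of_injective (f := (fderiv ℝ f x : R3 →ₗ[ℝ] R3)) hinj⟩

end FM

theorem stmt_K_FM (hST : Stmt_K_ST) (hSTD : Stmt_K_STD) (hTUBD : Stmt_K_TUBD)
    (hPOL : Stmt_K_POL) : Stmt_K_FM :=
  ⟨FM.locDiffOn_Fm hST hSTD hTUBD hPOL ist (Or.inl rfl),
    FM.locDiffOn_Fm hST hSTD hTUBD hPOL (fun x => cj (ist x)) (Or.inr rfl)⟩

end Pool.KT
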