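import Pool.Agent.Work.MP_70ab54_kt.InterfaceK

/-!
# MP_70ab54, block K_G (helper86): straightening a germ by a global diffeomorphism

The inverse function theorem gives a local inverse `g` of `A⁻¹ (f - f 0)`, `A = D f (0)`; cut it
off by `Stmt_K_G2`, extend it to a global diffeomorphism by `Stmt_K_G1`, and compose with the
affine map.
-/

set_option autoImplicit false

namespace Pool.KT

open Set Topology Filter
open scoped ContDiff

theorem stmt_K_G (h1 : Stmt_K_G1) (h2 : Stmt_K_G2) : Stmt_K_G := by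
  intro f W h0 hf
  obtain ⟨hWo, hfC, hfb⟩ := hf
  -- derivatives as equivalences
  have hequiv : ∀ x ∈ W, ∃ A : R3 ≃L[ℝ] R3, (A : R3 →L[ℝ] R3) = fderiv ℝ f x := by
    intro x hx
    refine ⟨(LinearEquiv.ofBijective (fderiv ℝ f x : R3 →ₗ[ℝ] R3)
      (hfb x hx)).toContinuousLinearEquiv, ?_⟩
    ext v <;> rfl
  have hfat : ∀ x ∈ W, ContDiffAt ℝ ∞ f x := fun x hx => hfC.contDiffAt (hWo.mem_nhds hx)
  obtain ⟨A, hA⟩ := hequiv 0 h0
  -- normalised map
  set f1 : R3 → R3 := fun y => A.symm (f y - f 0) with hf1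
  have hf1at : ∀ x ∈ W, ContDiffAt ℝ ∞ f1 x := by
    intro x hx
    have := (hfat x hx).sub (contDiffAt_const (c := f 0))
    exact A.symm.contDiff.contDiffAt.comp x this
  have hf1d : ∀ x ∈ W, HasFDerivAt f1 ((A.symm : R3 →L[ℝ] R3).comp (fderiv ℝ f x)) x := by
    intro x hx
    have hd : HasFDerivAt f (fderiv ℝ f x) x :=
      ((hfat x hx).differentiableAt (by simp)).hasFDerivAt
    have hd2 : HasFDerivAt (fun y => f y - f 0) (fderiv ℝ f x) x := by
      simpa using hd.sub_const (f 0)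
    exact (A.symm : R3 →L[ℝ] R3).hasFDerivAt.comp x hd2
  have hf1e : ∀ x ∈ W, ∃ B : R3 ≃L[ℝ] R3, HasFDerivAt f1 (B : R3 →L[ℝ] R3) x := by
    intro x hx
    obtain ⟨C, hC⟩ := hequiv x hx
    refine ⟨C.trans A.symm, ?_⟩
    have := hf1d x hx
    rw [← hC] at this
    convert this using 1
    ext v <;> rfl
  have hf10 : f1 0 = 0 := by simp [hf1]
  have hf1id : HasFDerivAt f1 ((ContinuousLinearEquiv.refl ℝ R3 : R3 ≃L[ℝ] R3) : R3 →L[ℝ] R3)
      (0 : R3) := by
    have := hf1d 0 h0
    rw [← hA] at this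
    convert this using 1
    ext v <;> simp
  have hone : (∞ : WithTop ℕ∞) ≠ 0 := by simp
  set e := (hf1at 0 h0).toOpenPartialHomeomorph f1 hf1id hone with he
  have hecoe : (e : R3 → R3) = f1 := rfl
  have h0s : (0 : R3) ∈ e.source :=
    (hf1at 0 h0).mem_toOpenPartialHomeomorph_source hf1id hone
  have h0t : (0 : R3) ∈ e.target := by
    have := e.map_source h0s
    rw [hecoe, hf10] at this
    exact this
  have he0 : e.symm 0 = 0 := by
    have := e.left_inv h0s
    rw [hecoe, hf10] at this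
    exact this
  -- the open set on which the inverse is smooth
  set V : Set R3 := e.target ∩ e.symm ⁻¹' W with hV
  have hVo : IsOpen V := e.symm.isOpen_inter_preimage hWo
  have h0V : (0 : R3) ∈ V := ⟨h0t, by simpa [he0] using h0⟩
  have hgC : ContDiffOn ℝ ∞ (fun y => e.symm y) V := by
    intro y hy
    obtain ⟨B, hB⟩ := hf1e (e.symm y) hy.2
    have := e.contDiffAt_symm (n := ∞) hy.1 (f₀' := B) (by rw [hecoe]; exact hB)
      (by rw [hecoe]; exact hf1at _ hy.2)
    exact this.contDiffWithinAt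
  have hgd : fderiv ℝ (fun y => e.symm y) 0 = ContinuousLinearMap.id ℝ R3 := by
    have := e.hasFDerivAt_symm (a := (0 : R3)) (f' := ContinuousLinearEquiv.refl ℝ R3) h0t
      (by rw [hecoe, he0]; exact hf1id)
    have h3 := this.fderiv
    rw [show (fun y => e.symm y) = (e.symm : R3 → R3) from rfl, h3]
    ext v <;> simp
  obtain ⟨p, hpC, hpL, hpb, hpe⟩ := h2 (fun y => e.symm y) V hVo h0V hgC (by simpa using he0) hgd
  obtain ⟨H, hH, hHp⟩ := h1 p hpC hpL hpb
  -- the affine homeomorphism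
  set T : R3 ≃ₜ R3 := (Homeomorph.subRight (f 0)).trans A.symm.toHomeomorph with hT
  refine ⟨T.trans H, ⟨?_, ?_⟩, ?_⟩
  · have hTC : ContDiff ℝ ∞ (fun x : R3 => A.symm (x - f 0)) :=
      A.symm.contDiff.comp (contDiff_id.sub contDiff_const)
    exact hH.1.comp hTC
  · have hTC : ContDiff ℝ ∞ (fun x : R3 => A x + f 0) :=
      A.contDiff.add contDiff_const
    have h8 := hTC.comp hH.2
    have h9 : (fun x => (T.trans H).symm x) = (fun x : R3 => A x + f 0) ∘ fun x => H.symm x := by
      funext x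
      simp [hT, Homeomorph.subRight]
    rw [h9]
    exact h8
  · have hsrc : ∀ᶠ y in 𝓝 (0 : R3), y ∈ e.source := e.open_source.mem_nhds h0s
    have hcont : ContinuousAt f1 0 := (hf1at 0 h0).continuousAt
    have hten : Tendsto f1 (𝓝 0) (𝓝 0) := by
      have := hcont.tendsto
      rwa [hf10] at this
    have hpe2 := hten.eventually hpe
    filter_upwards [hsrc, hpe2] with y hy1 hy2
    have h5 : (T.trans H) (f y) = H (f1 y) := rfl
    rw [h5, hHp, hy2]
    have h6 := e.left_inv hy1
    rw [hecoe] at h6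
    exact h6

end Pool.KT
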