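import Pool.Agent.Work.MP_70ab54_kt.InterfaceK

/-!
# MP_70ab54, block K_G1: small perturbations of the identity are diffeomorphisms (helper83)
-/

set_option autoImplicit false

namespace Pool.KT

open Set Topology Filter
open scoped ContDiff NNReal

theorem K_G1_general {E : Type} [NormedAddCommGroup E] [NormedSpace ℝ E] [CompleteSpace E]
    [Nontrivial E] (p : E → E) (hp : ContDiff ℝ ∞ p) (hL : LipschitzWith (1 / 2) p) :
    ∃ H : E ≃ₜ E, ContDiff ℝ ∞ (fun x => H x) ∧ ContDiff ℝ ∞ (fun x => H.symm x) ∧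
      ∀ x, H x = x + p x := by
  have happ : ApproximatesLinearOn (fun x => x + p x)
      ((ContinuousLinearEquiv.refl ℝ E : E ≃L[ℝ] E) : E →L[ℝ] E) univ (1 / 2 : ℝ≥0) := by
    intro x _ y _
    have h1 : x + p x - (y + p y) - ((ContinuousLinearEquiv.refl ℝ E : E ≃L[ℝ] E) : E →L[ℝ] E)
        (x - y) = p x - p y := by
      simp only [ContinuousLinearEquiv.coe_refl, ContinuousLinearMap.coe_id', id_eq]
      abel
    rw [h1]
    have h2 := hL.dist_le_mul x y
    rwa [dist_eq_norm, dist_eq_norm] at h2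
  have hN : Subsingleton E ∨ (1 / 2 : ℝ≥0) <
      ‖((ContinuousLinearEquiv.refl ℝ E : E ≃L[ℝ] E).symm : E →L[ℝ] E)‖₊⁻¹ := by
    right
    have h1 : ‖((ContinuousLinearEquiv.refl ℝ E : E ≃L[ℝ] E).symm : E →L[ℝ] E)‖₊ = 1 := by
      rw [ContinuousLinearEquiv.refl_symm, ContinuousLinearEquiv.coe_refl]
      exact ContinuousLinearMap.nnnorm_id
    rw [h1, inv_one]
    exact NNReal.half_lt_self one_ne_zero
  set H : E ≃ₜ E := happ.toHomeomorph (fun x => x + p x) hN with hH
  have hHx : ∀ x, H x = x + p x := fun x => rfl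
  have hsm : ContDiff ℝ ∞ (fun x => x + p x) := contDiff_id.add hp
  have hder : ∀ a : E, ∃ f' : E ≃L[ℝ] E, HasFDerivAt (fun x => x + p x) (f' : E →L[ℝ] E) a := by
    intro a
    have hd : HasFDerivAt p (fderiv ℝ p a) a :=
      (hp.differentiable (by simp)).differentiableAt.hasFDerivAt
    have hn : ‖fderiv ℝ p a‖ ≤ 1 / 2 := by
      have h3 := norm_fderiv_le_of_lipschitz ℝ hL (x₀ := a)
      simpa using h3
    have hu : IsUnit (1 + fderiv ℝ p a : E →L[ℝ] E) := by
      have h4 : ‖-(fderiv ℝ p a)‖ < 1 := by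
        rw [norm_neg]; linarith
      have h5 := (Units.oneSub (-(fderiv ℝ p a)) h4).isUnit
      rw [Units.val_oneSub] at h5
      rwa [sub_neg_eq_add] at h5
    obtain ⟨v, hv⟩ := hu
    refine ⟨ContinuousLinearEquiv.unitsEquiv ℝ E v, ?_⟩
    have h6 : ((ContinuousLinearEquiv.unitsEquiv ℝ E v : E ≃L[ℝ] E) : E →L[ℝ] E)
        = ContinuousLinearMap.id ℝ E + fderiv ℝ p a := by
      ext x
      show (v : E →L[ℝ] E) x = _
      rw [hv]
      rfl
    rw [h6]
    exact (hasFDerivAt_id a).add hd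
  choose f' hf' using hder
  refine ⟨H, hsm, ?_, hHx⟩
  exact H.contDiff_symm (f₀' := f') hf' hsm

theorem stmt_K_G1 : Stmt_K_G1 := by
  intro p hp hL _
  obtain ⟨H, h1, h2, h3⟩ := K_G1_general p hp hL
  exact ⟨H, ⟨h1, h2⟩, h3⟩

end Pool.KT
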