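import Pool.Agent.Work.MP_70ab54_kt.InterfaceK

/-!
# MP_70ab54, block K_G2: cutting off a germ which is tangent to the identity (helper40)
-/

set_option autoImplicit false

namespace Pool.KT

open Set Topology Filter
open scoped ContDiff NNReal

theorem K_G2_general {E : Type} [NormedAddCommGroup E] [NormedSpace ℝ E] [FiniteDimensional ℝ E]
    (q : E → E) (W : Set E) (hW : IsOpen W) (h0 : (0 : E) ∈ W) (hq : ContDiffOn ℝ ∞ q W)
    (hq0 : q 0 = 0) (hd : fderiv ℝ q 0 = 0) :
    ∃ p : E → E, ContDiff ℝ ∞ p ∧ LipschitzWith (1 / 2) p ∧ (∃ C : ℝ, ∀ x, ‖p x‖ ≤ C) ∧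
      ∀ᶠ y in 𝓝 (0 : E), p y = q y := by
  -- the bump function
  let f : ContDiffBump (0 : E) := ⟨1, 2, one_pos, by norm_num⟩
  have hf1 : ∀ x : E, ‖x‖ ≤ 1 → f x = 1 := by
    intro x hx
    refine f.one_of_mem_closedBall ?_
    rw [Metric.mem_closedBall, dist_zero_right]
    exact hx
  have hf0 : ∀ x : E, 2 ≤ ‖x‖ → f x = 0 := by
    intro x hx
    refine f.zero_of_le_dist ?_
    rw [dist_zero_right]
    exact hx
  obtain ⟨K, hK⟩ : ∃ K, LipschitzWith K f :=
    (f.contDiff (n := 1)).lipschitzWith_of_hasCompactSupport f.hasCompactSupport one_ne_zero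
  have hK' : ∀ x y : E, |f x - f y| ≤ K * ‖x - y‖ := by
    intro x y
    have := hK.dist_le_mul x y
    rwa [Real.dist_eq, dist_eq_norm] at this
  set ε : ℝ := 1 / (2 * (3 * K + 2)) with hε
  have hε0 : 0 < ε := by positivity
  have hcont : ContinuousAt (fderiv ℝ q) 0 :=
    (hq.continuousOn_fderiv_of_isOpen hW (by simp)).continuousAt (hW.mem_nhds h0)
  have hev : ∀ᶠ x in 𝓝 (0 : E), x ∈ W ∧ ‖fderiv ℝ q x‖ ≤ ε := by
    have h9 : ∀ᶠ x in 𝓝 (0 : E), x ∈ W := hW.mem_nhds h0
    refine h9.and ?_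
    have h1 : Tendsto (fun x => ‖fderiv ℝ q x‖) (𝓝 0) (𝓝 0) := by
      have h2 : Tendsto (fun x => ‖fderiv ℝ q x‖) (𝓝 0) (𝓝 ‖fderiv ℝ q 0‖) := hcont.norm
      rwa [hd, norm_zero] at h2
    exact (h1.eventually (gt_mem_nhds hε0)).mono fun x hx => le_of_lt hx
  obtain ⟨δ, hδ, hball⟩ := Metric.eventually_nhds_iff_ball.mp hev
  have hdiff : ∀ x ∈ Metric.ball (0 : E) δ, DifferentiableAt ℝ q x := fun x hx =>
    (hq.contDiffAt (hW.mem_nhds (hball x hx).1)).differentiableAt (by simp)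
  have hlip : ∀ x ∈ Metric.ball (0 : E) δ, ∀ y ∈ Metric.ball (0 : E) δ,
      ‖q x - q y‖ ≤ ε * ‖x - y‖ := by
    intro x hx y hy
    exact Convex.norm_image_sub_le_of_norm_fderiv_le hdiff (fun z hz => (hball z hz).2)
      (convex_ball _ _) hy hx
  have hqn : ∀ x ∈ Metric.ball (0 : E) δ, ‖q x‖ ≤ ε * ‖x‖ := by
    intro x hx
    have := hlip x hx 0 (Metric.mem_ball_self hδ)
    rwa [hq0, sub_zero, sub_zero] at this
  set e : ℝ := δ / 3 with he
  have he0 : 0 < e := by positivity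
  have hns : ∀ x : E, ‖e⁻¹ • x‖ = ‖x‖ / e := by
    intro x
    rw [norm_smul, norm_inv, Real.norm_of_nonneg he0.le, div_eq_inv_mul]
  have hp0 : ∀ x : E, 2 * e ≤ ‖x‖ → f (e⁻¹ • x) = 0 := by
    intro x hx
    refine hf0 _ ?_
    rw [hns, le_div_iff₀ he0]
    exact hx
  have hin : ∀ x : E, ‖x‖ < 3 * e → x ∈ Metric.ball (0 : E) δ := by
    intro x hx
    rw [Metric.mem_ball, dist_zero_right]
    rw [he] at hx
    linarith
  have hfle : ∀ x, |f x| ≤ 1 := by
    intro x
    rw [abs_of_nonneg f.nonneg]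
    exact f.le_one
  have hbound : ∀ x : E, ‖f (e⁻¹ • x) • q x‖ ≤ 2 * e * ε := by
    intro x
    by_cases hx : 2 * e ≤ ‖x‖
    · rw [hp0 x hx, zero_smul, norm_zero]
      positivity
    · push Not at hx
      rw [norm_smul, Real.norm_eq_abs]
      have h1 := hqn x (hin x (by linarith))
      have h2 : ε * ‖x‖ ≤ ε * (2 * e) := mul_le_mul_of_nonneg_left hx.le hε0.le
      have h3 := hfle (e⁻¹ • x)
      have h4 := norm_nonneg (q x)
      nlinarith
  refine ⟨fun x => f (e⁻¹ • x) • q x, ?_, ?_, ⟨_, hbound⟩, ?_⟩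
  · rw [contDiff_iff_contDiffAt]
    intro x
    by_cases hx : ‖x‖ < 3 * e
    · refine ContDiffAt.smul ?_ ?_
      · exact (f.contDiff.comp (contDiff_const_smul _)).contDiffAt
      · exact hq.contDiffAt (hW.mem_nhds (hball x (hin x hx)).1)
    · push Not at hx
      have h1 : (fun x => f (e⁻¹ • x) • q x) =ᶠ[𝓝 x] fun _ => (0 : E) := by
        have h2 : ∀ᶠ y in 𝓝 x, 2 * e < ‖y‖ :=
          (continuous_norm.tendsto x).eventually (lt_mem_nhds (by linarith))
        filter_upwards [h2] with y hy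
        rw [hp0 y hy.le, zero_smul]
      exact contDiffAt_const.congr_of_eventuallyEq h1
  · -- Lipschitz
    have hside : ∀ x y : E, 2 * e ≤ ‖y‖ → ‖x‖ < 3 * e →
        ‖f (e⁻¹ • x) • q x - f (e⁻¹ • y) • q y‖ ≤ 1 / 2 * ‖x - y‖ := by
      intro x y hy hx
      have hxy := hK' (e⁻¹ • x) (e⁻¹ • y)
      rw [hp0 y hy, sub_zero, ← smul_sub, hns] at hxy
      rw [hp0 y hy, zero_smul, sub_zero, norm_smul, Real.norm_eq_abs]
      have h1 := hqn x (hin x hx)
      have h2 : ‖q x‖ ≤ ε * (3 * e) := h1.trans (mul_le_mul_of_nonneg_left hx.le hε0.le)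
      calc |f (e⁻¹ • x)| * ‖q x‖ ≤ (K * (‖x - y‖ / e)) * (ε * (3 * e)) :=
            mul_le_mul hxy h2 (norm_nonneg _) (by positivity)
        _ = (3 * K * ε) * ‖x - y‖ := by field_simp
        _ ≤ 1 / 2 * ‖x - y‖ := by
            refine mul_le_mul_of_nonneg_right ?_ (norm_nonneg _)
            rw [hε, mul_one_div, div_le_div_iff₀ (by positivity) (by norm_num)]
            nlinarith [K.coe_nonneg]
    have hmain : ∀ x y : E, ‖f (e⁻¹ • x) • q x - f (e⁻¹ • y) • q y‖ ≤ 1 / 2 * ‖x - y‖ := by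
      intro x y
      by_cases hy : 2 * e ≤ ‖y‖
      · by_cases hx : 2 * e ≤ ‖x‖
        · rw [hp0 x hx, hp0 y hy, zero_smul, zero_smul, sub_zero, norm_zero]
          positivity
        · exact hside x y hy (by push Not at hx; linarith)
      · push Not at hy
        by_cases hx : 2 * e ≤ ‖x‖
        · rw [norm_sub_rev, norm_sub_rev x y]
          exact hside y x hx (by linarith)
        · push Not at hx
          have hx' := hin x (by linarith)
          have hy' := hin y (by linarith)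
          have hxy := hK' (e⁻¹ • x) (e⁻¹ • y)
          rw [← smul_sub, hns] at hxy
          have h1 := hqn x hx'
          have h2 : ‖q x‖ ≤ ε * (2 * e) := h1.trans (mul_le_mul_of_nonneg_left hx.le hε0.le)
          have h3 := hlip x hx' y hy'
          have h4 : f (e⁻¹ • x) • q x - f (e⁻¹ • y) • q y
              = (f (e⁻¹ • x) - f (e⁻¹ • y)) • q x + f (e⁻¹ • y) • (q x - q y) := by
            rw [sub_smul, smul_sub]
            abel
          rw [h4]
          calc ‖(f (e⁻¹ • x) - f (e⁻¹ • y)) • q x + f (e⁻¹ • y) • (q x - q y)‖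
              ≤ ‖(f (e⁻¹ • x) - f (e⁻¹ • y)) • q x‖ + ‖f (e⁻¹ • y) • (q x - q y)‖ :=
                norm_add_le _ _
            _ ≤ (K * (‖x - y‖ / e)) * (ε * (2 * e)) + 1 * (ε * ‖x - y‖) := by
                rw [norm_smul, norm_smul, Real.norm_eq_abs, Real.norm_eq_abs]
                exact add_le_add (mul_le_mul hxy h2 (norm_nonneg _) (by positivity))
                  (mul_le_mul (hfle _) h3 (norm_nonneg _) zero_le_one)
            _ = ((2 * K + 1) * ε) * ‖x - y‖ := by field_simp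
            _ ≤ 1 / 2 * ‖x - y‖ := by
                refine mul_le_mul_of_nonneg_right ?_ (norm_nonneg _)
                rw [hε, mul_one_div, div_le_div_iff₀ (by positivity) (by norm_num)]
                nlinarith [K.coe_nonneg]
    refine LipschitzWith.of_dist_le_mul fun x y => ?_
    rw [dist_eq_norm, dist_eq_norm]
    have := hmain x y
    simpa using this
  · have h2 : ∀ᶠ y in 𝓝 (0 : E), ‖y‖ < e := by
      have h3 : ‖(0 : E)‖ < e := by
        rw [norm_zero]
        exact he0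
      exact (continuous_norm.tendsto (0 : E)).eventually (gt_mem_nhds h3)
    filter_upwards [h2] with y hy
    rw [hf1 _ (by rw [hns, div_le_one he0]; exact hy.le), one_smul]

theorem stmt_K_G2 : Stmt_K_G2 := by
  intro g W hW h0 hg hg0 hd
  have hga : DifferentiableAt ℝ g 0 := (hg.contDiffAt (hW.mem_nhds h0)).differentiableAt (by simp)
  obtain ⟨p, h1, h2, h3, h4⟩ := K_G2_general (fun x : R3 => g x - x) W hW h0
    (hg.sub contDiffOn_id) (by simp [hg0]) (by
      have h5 : HasFDerivAt (fun x : R3 => g x - x)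
          (fderiv ℝ g 0 - ContinuousLinearMap.id ℝ R3) 0 :=
        hga.hasFDerivAt.sub (hasFDerivAt_id 0)
      rw [h5.fderiv, hd, sub_self])
  refine ⟨p, h1, h2, h3, ?_⟩
  filter_upwards [h4] with y hy
  rw [hy]
  abel

end Pool.KT
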