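import Pool.Agent.Work.MP_70ab54_kt.InterfaceK

/-!
# MP_70ab54: transport of good covers by homeomorphisms (helper89)
-/

set_option autoImplicit false

namespace Pool.KT

open Set Topology

theorem stmt_K_GCH : Stmt_K_GCH := by
  intro V V' _ _ X X' ι E E' h hE hG
  obtain ⟨R, tR, q, hq, hs, hR, hL⟩ := hG
  refine ⟨R, tR, h ∘ q, hq.homeomorph_comp h, h.surjective.comp hs, hR, ?_⟩
  intro i
  have hset : {r : R | ((h ∘ q) r : V') ∈ E' i} = {r : R | (q r : V) ∈ E i} := by
    ext r
    exact (hE i (q r)).symm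
  rw [hset]
  exact hL i

end Pool.KT
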