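import Pool.Agent.Work.MP_70ab54_kt.InterfaceK

/-!
# Block K_H: squeezing a large ball into a thin box, identity near the circle
-/

set_option autoImplicit false

namespace Pool.KT

open Set Complex Topology Filter
open scoped ContDiff

/-- radial map of the plane -/
noncomputable def K_H_rad (γ : ℝ → ℝ) (v : ℂ) : ℂ := (γ ‖v‖ / ‖v‖ : ℝ) • v

theorem K_H_rad_id {γ : ℝ → ℝ} {a : ℝ} (h : ∀ t, |t| ≤ a → γ t = t) {v : ℂ} (hv : ‖v‖ ≤ a) :
    K_H_rad γ v = v := by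
  unfold K_H_rad
  rw [h ‖v‖ (by rwa [abs_of_nonneg (norm_nonneg v)])]
  by_cases h0 : v = 0
  · rw [h0, smul_zero]
  · rw [div_self (norm_ne_zero_iff.mpr h0), one_smul]

theorem K_H_norm_rad {γ : ℝ → ℝ} {a : ℝ} (ha : 0 < a) (hm : StrictMono γ)
    (h : ∀ t, |t| ≤ a → γ t = t) (v : ℂ) : ‖K_H_rad γ v‖ = γ ‖v‖ := by
  have h0 : γ 0 = 0 := h 0 (by rw [abs_zero]; exact ha.le)
  by_cases hv : v = 0
  · rw [hv]
    unfold K_H_rad
    rw [smul_zero, norm_zero, h0]
  · have hpos : 0 < ‖v‖ := norm_pos_iff.mpr hv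
    have h1 : 0 < γ ‖v‖ := by
      rw [← h0]
      exact hm hpos
    unfold K_H_rad
    rw [norm_smul, Real.norm_eq_abs, abs_of_pos (div_pos h1 hpos)]
    field_simp

theorem K_H_rad_rad {γ γ' : ℝ → ℝ} {a : ℝ} (ha : 0 < a) (hm : StrictMono γ)
    (h : ∀ t, |t| ≤ a → γ t = t) (hinv : ∀ t, γ' (γ t) = t) (v : ℂ) :
    K_H_rad γ' (K_H_rad γ v) = v := by
  have h0 : γ 0 = 0 := h 0 (by rw [abs_zero]; exact ha.le)
  have hn := K_H_norm_rad ha hm h v
  by_cases hv : v = 0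
  · rw [hv]
    unfold K_H_rad
    rw [smul_zero, smul_zero]
  · have hpos : 0 < ‖v‖ := norm_pos_iff.mpr hv
    have h1 : 0 < γ ‖v‖ := by
      rw [← h0]
      exact hm hpos
    have h2 : K_H_rad γ' (K_H_rad γ v) = (γ' ‖K_H_rad γ v‖ / ‖K_H_rad γ v‖ : ℝ) • K_H_rad γ v :=
      rfl
    rw [h2, hn, hinv]
    unfold K_H_rad
    rw [smul_smul]
    have : ‖v‖ / γ ‖v‖ * (γ ‖v‖ / ‖v‖) = 1 := by
      field_simp
    rw [this, one_smul]

theorem K_H_rad_smooth {γ : ℝ → ℝ} {a : ℝ} (ha : 0 < a) (hγ : ContDiff ℝ ∞ γ)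
    (h : ∀ t, |t| ≤ a → γ t = t) : ContDiff ℝ ∞ (K_H_rad γ) := by
  rw [contDiff_iff_contDiffAt]
  intro v
  by_cases hv : v = 0
  · have h1 : K_H_rad γ =ᶠ[𝓝 v] id := by
      have h2 : ∀ᶠ w in 𝓝 v, ‖w‖ < a := by
        refine (continuous_norm.tendsto v).eventually (gt_mem_nhds ?_)
        rw [hv, norm_zero]
        exact ha
      filter_upwards [h2] with w hw
      exact K_H_rad_id h hw.le
    exact contDiffAt_id.congr_of_eventuallyEq h1
  · have h1 : ContDiffAt ℝ ∞ (fun w : ℂ => ‖w‖) v := contDiffAt_norm ℝ hv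
    have h2 : ContDiffAt ℝ ∞ (fun w : ℂ => γ ‖w‖ / ‖w‖) v :=
      (hγ.contDiffAt.comp v h1).div h1 (norm_ne_zero_iff.mpr hv)
    exact h2.smul contDiffAt_id

theorem stmt_K_H (h1 : Stmt_K_H1) : Stmt_K_H := by
  intro δ R hδ
  obtain ⟨γ, hγ, hγ', hm, hodd, hid, hb⟩ := h1 (1 + δ / 4) (1 + δ / 2) (max R (1 + δ))
    (by linarith) (by linarith) (lt_max_of_lt_right (by linarith))
  obtain ⟨κ, hκ, hκ', hmκ, hoddκ, hidκ, hbκ⟩ := h1 (δ / 4) (δ / 2) (max R δ)
    (by linarith) (by linarith) (lt_max_of_lt_right (by linarith))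
  have ha : 0 < 1 + δ / 4 := by linarith
  have hid' : ∀ t, |t| ≤ 1 + δ / 4 → γ.symm t = t := by
    intro t ht
    rw [Homeomorph.symm_apply_eq]
    exact (hid t ht).symm
  have hm' : StrictMono (fun t => γ.symm t) := by
    intro s t hst
    by_contra hcon
    push Not at hcon
    have h2 : γ (γ.symm t) ≤ γ (γ.symm s) := hm.monotone hcon
    rw [γ.apply_symm_apply, γ.apply_symm_apply] at h2
    linarith
  let g : ℂ ≃ₜ ℂ :=
    { toFun := K_H_rad (fun t => γ t)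
      invFun := K_H_rad (fun t => γ.symm t)
      left_inv := K_H_rad_rad ha hm hid (fun t => γ.symm_apply_apply t)
      right_inv := K_H_rad_rad ha hm' hid' (fun t => γ.apply_symm_apply t)
      continuous_toFun := (K_H_rad_smooth ha hγ hid).continuous
      continuous_invFun := (K_H_rad_smooth ha hγ' hid').continuous }
  refine ⟨g.prodCongr κ, ⟨?_, ?_⟩, ?_, ?_⟩
  · exact ((K_H_rad_smooth ha hγ hid).comp contDiff_fst).prodMk (hκ.comp contDiff_snd)
  · exact ((K_H_rad_smooth ha hγ' hid').comp contDiff_fst).prodMk (hκ'.comp contDiff_snd)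
  · refine ⟨{x : R3 | ‖x.1‖ < 1 + δ / 4 ∧ |x.2| < δ / 4}, ?_, ?_, ?_⟩
    · exact (isOpen_lt (continuous_norm.comp continuous_fst) continuous_const).inter
        (isOpen_lt (continuous_abs.comp continuous_snd) continuous_const)
    · rintro x ⟨hx1, hx2⟩
      refine ⟨?_, ?_⟩
      · rw [hx1]; linarith
      · rw [hx2, abs_zero]; linarith
    · rintro x ⟨hx1, hx2⟩
      have e1 : g x.1 = x.1 := K_H_rad_id hid hx1.le
      have e2 : κ x.2 = x.2 := hidκ x.2 hx2.le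
      exact Prod.ext e1 e2
  · intro x hx
    have hx1 : ‖x.1‖ ≤ R := (norm_fst_le x).trans hx
    have hx2 : |x.2| ≤ R := by
      rw [← Real.norm_eq_abs]
      exact (norm_snd_le x).trans hx
    refine ⟨?_, ?_⟩
    · have e1 : ‖g x.1‖ = γ ‖x.1‖ := K_H_norm_rad ha hm hid x.1
      have e2 : |γ ‖x.1‖| < 1 + δ / 2 := by
        apply hb
        rw [abs_of_nonneg (norm_nonneg _)]
        exact hx1.trans (le_max_left _ _)
      have e3 : ‖(g.prodCongr κ x).1‖ = γ ‖x.1‖ := e1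
      rw [e3]
      have := (le_abs_self (γ ‖x.1‖)).trans_lt e2
      linarith
    · have e2 : |κ x.2| < δ / 2 := hbκ _ (hx2.trans (le_max_left _ _))
      have e3 : (g.prodCongr κ x).2 = κ x.2 := rfl
      rw [e3]
      linarith

end Pool.KT
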