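import Pool.Agent.Work.MP_70ab54_kt.InterfaceK

set_option autoImplicit false

namespace Pool.KT

open Set Topology MeasureTheory intervalIntegral
open scoped ContDiff

theorem stmt_K_H1 : Stmt_K_H1 := by
  intro a b R ha hab hbR
  have hR : 0 < R := by linarith
  obtain ⟨a', ha', ha'b⟩ : ∃ a', a < a' ∧ a' < b := ⟨(a + b) / 2, by linarith, by linarith⟩
  have ha'0 : 0 < a' := ha.trans ha'
  obtain ⟨c, hc0, hc1, hcR⟩ : ∃ c : ℝ, 0 < c ∧ c ≤ 1 / 2 ∧ c * R < b - a' := by
    refine ⟨min (1 / 2) ((b - a') / (2 * R)), lt_min (by norm_num) (by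
      apply div_pos <;> linarith), min_le_left _ _, ?_⟩
    have h1 : min (1 / 2) ((b - a') / (2 * R)) * R ≤ (b - a') / (2 * R) * R :=
      mul_le_mul_of_nonneg_right (min_le_right _ _) hR.le
    have h2 : (b - a') / (2 * R) * R = (b - a') / 2 := by field_simp
    linarith
  let f : ContDiffBump (0 : ℝ) := ⟨a, a', ha, ha'⟩
  let g : ℝ → ℝ := fun t => c + (1 - c) * f t
  have hgs : ContDiff ℝ ∞ g := contDiff_const.add (contDiff_const.mul f.contDiff)
  have hgc : Continuous g := hgs.continuous
  have hgpos : ∀ t, c ≤ g t := fun t => by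
    have h1 : 0 ≤ f t := f.nonneg
    have h2 : 0 ≤ (1 - c) * f t := mul_nonneg (by linarith) h1
    show c ≤ c + (1 - c) * f t
    linarith
  have hgle : ∀ t, g t ≤ 1 := fun t => by
    have h1 : f t ≤ 1 := f.le_one
    have h2 : (1 - c) * f t ≤ (1 - c) * 1 := mul_le_mul_of_nonneg_left h1 (by linarith)
    show c + (1 - c) * f t ≤ 1
    linarith
  have hg1 : ∀ t, |t| ≤ a → g t = 1 := fun t ht => by
    have h1 : f t = 1 := f.one_of_mem_closedBall (by
      rw [Metric.mem_closedBall, dist_zero_right, Real.norm_eq_abs]; exact ht)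
    show c + (1 - c) * f t = 1
    rw [h1]; ring
  have hgc' : ∀ t, a' ≤ |t| → g t = c := fun t ht => by
    have h1 : f t = 0 := f.zero_of_le_dist (by
      rw [dist_zero_right, Real.norm_eq_abs]; exact ht)
    show c + (1 - c) * f t = c
    rw [h1]; ring
  have hgn : ∀ t, g (-t) = g t := fun t => by
    show c + (1 - c) * f (-t) = c + (1 - c) * f t
    rw [f.neg]
  let γ : ℝ → ℝ := fun t => ∫ x in (0 : ℝ)..t, g x
  have hint : ∀ u v, IntervalIntegrable g volume u v := fun u v => hgc.intervalIntegrable u v
  have hder : ∀ t, HasDerivAt γ (g t) t := fun t =>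
    intervalIntegral.integral_hasDerivAt_right (hint 0 t)
      (hgc.stronglyMeasurableAtFilter _ _) hgc.continuousAt
  have hderiv : deriv γ = g := funext fun t => (hder t).deriv
  have hγs : ContDiff ℝ ∞ γ := by
    rw [contDiff_infty_iff_deriv]
    exact ⟨fun t => (hder t).differentiableAt, hderiv ▸ hgs⟩
  have hmono : StrictMono γ := strictMono_of_deriv_pos fun t => by
    rw [hderiv]; exact hc0.trans_le (hgpos t)
  have hodd : ∀ t, γ (-t) = -γ t := by
    intro t
    show (∫ x in (0 : ℝ)..(-t), g x) = -∫ x in (0 : ℝ)..t, g x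
    have h1 : (∫ x in (0 : ℝ)..t, g (-x)) = ∫ x in (-t)..(-0), g x :=
      intervalIntegral.integral_comp_neg (fun x => g x)
    simp only [hgn, neg_zero] at h1
    rw [h1, intervalIntegral.integral_symm]
  have hlow : ∀ t, 0 ≤ t → c * t ≤ γ t := by
    intro t ht
    have h1 : (∫ _ in (0 : ℝ)..t, c) ≤ ∫ x in (0 : ℝ)..t, g x :=
      intervalIntegral.integral_mono_on ht (by simp) (hint 0 t) fun x _ => hgpos x
    rw [intervalIntegral.integral_const, smul_eq_mul, sub_zero] at h1
    linarith [mul_comm c t]
  have hsurj : Function.Surjective γ := by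
    have htop : Filter.Tendsto γ Filter.atTop Filter.atTop := by
      refine Filter.tendsto_atTop_mono' _ ?_ (Filter.tendsto_id.const_mul_atTop hc0)
      filter_upwards [Filter.eventually_ge_atTop (0 : ℝ)] with t ht using hlow t ht
    have hbot : Filter.Tendsto γ Filter.atBot Filter.atBot := by
      have h1 : Filter.Tendsto (fun t => -γ (-t)) Filter.atBot Filter.atBot :=
        Filter.tendsto_neg_atTop_atBot.comp (htop.comp Filter.tendsto_neg_atBot_atTop)
      refine h1.congr fun t => ?_
      rw [hodd, neg_neg]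
    exact hγs.continuous.surjective htop hbot
  let e : ℝ ≃ₜ ℝ := (StrictMono.orderIsoOfSurjective γ hmono hsurj).toHomeomorph
  have he : ∀ t, e t = γ t := fun t => rfl
  have hfun : (fun t => e t) = γ := rfl
  refine ⟨e, hfun ▸ hγs, ?_, hmono, hodd, ?_, ?_⟩
  · exact e.contDiff_symm_deriv (f' := g) (fun t => (hc0.trans_le (hgpos t)).ne')
      (fun t => hder t) hγs
  · intro t ht
    show (∫ x in (0 : ℝ)..t, g x) = t
    have h1 : (∫ x in (0 : ℝ)..t, g x) = ∫ _ in (0 : ℝ)..t, (1 : ℝ) := by
      refine intervalIntegral.integral_congr fun x hx => ?_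
      refine hg1 x ?_
      rcases le_total 0 t with h0 | h0
      · rw [uIcc_of_le h0] at hx
        rw [abs_of_nonneg hx.1]
        rw [abs_of_nonneg h0] at ht
        linarith [hx.2]
      · rw [uIcc_of_ge h0] at hx
        rw [abs_of_nonpos hx.2]
        rw [abs_of_nonpos h0] at ht
        linarith [hx.1]
    rw [h1, intervalIntegral.integral_const, smul_eq_mul, sub_zero, mul_one]
  · -- the bound
    have hup : ∀ t, 0 ≤ t → t ≤ R → γ t < b := by
      intro t ht htR
      have hn : ∀ u v, |∫ x in u..v, g x| ≤ 1 * |v - u| := by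
        intro u v
        have := intervalIntegral.norm_integral_le_of_norm_le_const (a := u) (b := v) (f := g)
          (C := 1) fun x _ => by
            rw [Real.norm_eq_abs, abs_of_nonneg (hc0.le.trans (hgpos x))]; exact hgle x
        rwa [Real.norm_eq_abs] at this
      rcases le_total t a' with h | h
      · have h1 := hn 0 t
        rw [sub_zero, abs_of_nonneg ht, one_mul] at h1
        have h2 : γ t ≤ t := (le_abs_self _).trans h1
        linarith
      · have h1 := hn 0 a'
        rw [sub_zero, abs_of_pos ha'0, one_mul] at h1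
        have h2 : |∫ x in a'..t, g x| ≤ c * |t - a'| := by
          have := intervalIntegral.norm_integral_le_of_norm_le_const (a := a') (b := t) (f := g)
            (C := c) fun x hx => by
              rw [uIoc_of_le h] at hx
              have hx0 : 0 ≤ x := ha'0.le.trans hx.1.le
              rw [hgc' x (by rw [abs_of_nonneg hx0]; exact hx.1.le), Real.norm_eq_abs,
                abs_of_pos hc0]
          rwa [Real.norm_eq_abs] at this
        rw [abs_of_nonneg (by linarith : 0 ≤ t - a')] at h2
        have h3 : γ t = (∫ x in (0 : ℝ)..a', g x) + ∫ x in a'..t, g x :=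
          (intervalIntegral.integral_add_adjacent_intervals (hint 0 a') (hint a' t)).symm
        have h4 := (le_abs_self _).trans h1
        have h5 := (le_abs_self _).trans h2
        have h6 : c * (t - a') ≤ c * R := mul_le_mul_of_nonneg_left (by linarith) hc0.le
        rw [h3]
        linarith
    intro t ht
    rw [he]
    rcases le_total 0 t with h | h
    · rw [abs_of_nonneg h] at ht
      have h1 := hlow t h
      have h2 : 0 ≤ c * t := mul_nonneg hc0.le h
      rw [abs_of_nonneg (by linarith)]
      exact hup t h ht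
    · rw [abs_of_nonpos h] at ht
      have h0 : 0 ≤ -t := by linarith
      have h1 := hlow (-t) h0
      have h2 : 0 ≤ c * (-t) := mul_nonneg hc0.le h0
      have h3 := hup (-t) h0 ht
      rw [hodd] at h1 h3
      rw [abs_of_nonpos (by linarith)]
      exact h3

end Pool.KT
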