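import Pool.Agent.Work.MP_70ab54_kt.InterfaceK

/-! # MP_70ab54: block K_TOP, topology of the complement (helper74) -/

set_option autoImplicit false

namespace Pool.KT

open Set Complex Topology Filter
open scoped ContDiff

theorem K_TOP_nsq_le (x : R3) : nsq x ≤ 2 * ‖x‖ ^ 2 := by
  unfold nsq
  have h1 : ‖x.1‖ ≤ ‖x‖ := norm_fst_le x
  have h2 : |x.2| ≤ ‖x‖ := norm_snd_le x
  have h3 : ‖x.1‖ ^ 2 ≤ ‖x‖ ^ 2 := by gcongr
  have h4 : x.2 ^ 2 ≤ ‖x‖ ^ 2 := by rw [← sq_abs x.2]; gcongr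
  linarith

theorem K_TOP_le_nsq (x : R3) : ‖x‖ ^ 2 ≤ nsq x := by
  unfold nsq
  rw [Prod.norm_def]
  rcases le_total ‖x.1‖ ‖x.2‖ with h | h
  · rw [max_eq_right h, Real.norm_eq_abs, sq_abs]
    linarith [sq_nonneg ‖x.1‖]
  · rw [max_eq_left h]
    linarith [sq_nonneg x.2]

theorem K_TOP_nsq_pos {x : R3} (hx : x ≠ 0) : 0 < nsq x :=
  lt_of_lt_of_le (by have := norm_pos_iff.2 hx; positivity) (K_TOP_le_nsq x)

theorem K_TOP_inv3 (x : R3) : inv3 x = (nsq x)⁻¹ • x := by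
  unfold inv3
  ext1
  · rw [Prod.smul_fst, Complex.real_smul]
    push_cast
    rw [div_eq_inv_mul]
  · rw [Prod.smul_snd, smul_eq_mul, ← div_eq_inv_mul]

theorem K_TOP_norm_inv3 {x : R3} (hx : x ≠ 0) : ‖inv3 x‖ = ‖x‖ / nsq x := by
  rw [K_TOP_inv3, norm_smul, norm_inv, Real.norm_eq_abs, abs_of_pos (K_TOP_nsq_pos hx),
    div_eq_inv_mul]

theorem K_TOP_continuous_nsq : Continuous nsq := by
  unfold nsq
  fun_prop

theorem K_TOP_contAt {x : R3} (hx : x ≠ 0) : ContinuousAt inv3 x := by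
  have h : inv3 = fun x : R3 => (nsq x)⁻¹ • x := funext K_TOP_inv3
  rw [h]
  exact (K_TOP_continuous_nsq.continuousAt.inv₀ (K_TOP_nsq_pos hx).ne').smul continuousAt_id

theorem K_TOP_inf : Tendsto inv3 (cocompact R3) (𝓝 0) := by
  have h1 : Tendsto (fun x : R3 => ‖x‖⁻¹) (cocompact R3) (𝓝 0) :=
    tendsto_inv_atTop_zero.comp tendsto_norm_cocompact_atTop
  refine squeeze_zero_norm' ?_ h1
  have h2 : ∀ᶠ x : R3 in cocompact R3, x ≠ 0 :=
    (isCompact_singleton (x := (0 : R3))).compl_mem_cocompact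
  filter_upwards [h2] with x hx
  rw [K_TOP_norm_inv3 hx]
  have h3 := norm_pos_iff.2 hx
  rw [div_le_iff₀ (K_TOP_nsq_pos hx)]
  calc ‖x‖ = ‖x‖⁻¹ * ‖x‖ ^ 2 := by field_simp
    _ ≤ ‖x‖⁻¹ * nsq x := by
      have := K_TOP_le_nsq x
      gcongr

theorem K_TOP_zero : Tendsto inv3 (𝓝[≠] 0) (cocompact R3) := by
  rw [← Metric.cobounded_eq_cocompact, ← tendsto_norm_atTop_iff_cobounded]
  have h1 : Tendsto (fun x : R3 => ‖x‖⁻¹ / 2) (𝓝[≠] 0) atTop :=
    (tendsto_norm_nhdsNE_zero.inv_tendsto_nhdsGT_zero).atTop_div_const two_pos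
  refine tendsto_atTop_mono' _ ?_ h1
  filter_upwards [self_mem_nhdsWithin] with x hx
  have hx0 : x ≠ 0 := hx
  have h3 := norm_pos_iff.2 hx0
  rw [K_TOP_norm_inv3 hx0, le_div_iff₀ (K_TOP_nsq_pos hx0)]
  calc ‖x‖⁻¹ / 2 * nsq x ≤ ‖x‖⁻¹ / 2 * (2 * ‖x‖ ^ 2) := by
        have := K_TOP_nsq_le x
        gcongr
    _ = ‖x‖ := by field_simp

open Classical in
/-- the map to the sphere -/
noncomputable def K_TOP_F (G : R3 ≃ₜ R3) (x : R3) : ℂ × ℂ :=
  if x = 0 then pole else ist (G.symm (inv3 x))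

theorem K_TOP_F_zero (G : R3 ≃ₜ R3) : K_TOP_F G 0 = pole := if_pos rfl

theorem K_TOP_F_ne (G : R3 ≃ₜ R3) {x : R3} (hx : x ≠ 0) :
    K_TOP_F G x = ist (G.symm (inv3 x)) := if_neg hx

theorem stmt_K_TOP (hST : Stmt_K_ST) (hNU : Stmt_K_NU) (hKAP : Stmt_K_KAP) (hJ1 : Stmt_K_J1) :
    Stmt_K_TOP := by
  intro G hG hGh ε hε0 hε1
  obtain ⟨hST1, hST2, -, hST4, hST5, hSTc, -, -, hSTt⟩ := hST
  obtain ⟨hK1, hK2, -, -, hK5, hK6⟩ := hKAP
  obtain ⟨-, hNU2, hNU3, -, -⟩ := hNU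
  obtain ⟨-, -, hJne, -⟩ := hJ1 G hG hGh
  have hpoleS : pole ∈ S3 := by
    change ‖(0 : ℂ)‖ ^ 2 + ‖I‖ ^ 2 = 1
    norm_num
  have hI : ‖(I : ℂ)‖ = 1 := Complex.norm_I
  have h0 : ‖(0 : ℂ)‖ < 1 := by rw [norm_zero]; exact one_pos
  -- the missing point
  have hG0 : G (fh 0) = 0 := hGh.self_of_nhds
  have ha : ist (G.symm 0) = kap I 0 := by
    rw [← hG0, Homeomorph.symm_apply_apply]
    unfold fh
    rw [hST5, hK5 pole hpoleS Complex.I_ne_zero]
    change kap (I / ((‖(I : ℂ)‖ : ℝ) : ℂ)) 0 = kap I 0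
    rw [hI, Complex.ofReal_one, div_one]
  have hpk : pole ≠ kap I 0 := by
    intro h
    apply (hK1 I 0 hI h0).2
    rw [← h]
    rfl
  have histinj : Function.Injective ist := fun x y h => by
    rw [← (hST1 x).2.2, ← (hST1 y).2.2, h]
  set F := K_TOP_F G with hF
  have hFS : ∀ x, F x ∈ S3 := by
    intro x
    by_cases hx : x = 0
    · rw [hx, hF, K_TOP_F_zero]; exact hpoleS
    · rw [hF, K_TOP_F_ne G hx]; exact (hST1 _).1
  have hFa : ∀ x, F x ≠ kap I 0 := by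
    intro x
    by_cases hx : x = 0
    · rw [hx, hF, K_TOP_F_zero]; exact hpk
    · rw [hF, K_TOP_F_ne G hx, ← ha]
      intro h
      exact (hST4 x hx).2.2 (G.symm.injective (histinj h))
  have hFinj : Function.Injective F := by
    intro x y h
    by_cases hx : x = 0
    · by_cases hy : y = 0
      · rw [hx, hy]
      · exfalso
        rw [hx, hF, K_TOP_F_zero, K_TOP_F_ne G hy] at h
        exact (hST1 _).2.1 h.symm
    · by_cases hy : y = 0
      · exfalso
        rw [hy, hF, K_TOP_F_zero, K_TOP_F_ne G hx] at h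
        exact (hST1 _).2.1 h
      · rw [hF, K_TOP_F_ne G hx, K_TOP_F_ne G hy] at h
        have h1 : inv3 x = inv3 y := G.symm.injective (histinj h)
        rw [← (hST4 x hx).2.1, ← (hST4 y hy).2.1, h1]
  have hFsurj : ∀ q ∈ S3, q ≠ kap I 0 → ∃ x, F x = q := by
    intro q hq hqa
    by_cases hqp : q = pole
    · exact ⟨0, by rw [hF, K_TOP_F_zero, hqp]⟩
    · have h1 : ist (st q) = q := hST2 q hq hqp
      have h2 : G (st q) ≠ 0 := by
        intro h
        apply hqa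
        rw [← ha, ← h1, ← h, Homeomorph.symm_apply_apply]
      refine ⟨inv3 (G (st q)), ?_⟩
      rw [hF, K_TOP_F_ne G (hST4 _ h2).2.2, (hST4 _ h2).2.1, Homeomorph.symm_apply_apply, h1]
  -- continuity
  have hGt : Tendsto G.symm (cocompact R3) (cocompact R3) :=
    G.symm.isClosedEmbedding.tendsto_cocompact
  have hFc : Continuous F := by
    rw [continuous_iff_continuousAt]
    intro x
    by_cases hx : x = 0
    · subst hx
      rw [continuousAt_iff_punctured_nhds]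
      have h1 : Tendsto (fun x => ist (G.symm (inv3 x))) (𝓝[≠] 0) (𝓝 pole) :=
        hSTt.comp (hGt.comp K_TOP_zero)
      have h2 : F 0 = pole := by rw [hF, K_TOP_F_zero]
      rw [h2]
      refine h1.congr' ?_
      filter_upwards [self_mem_nhdsWithin] with x hx
      rw [hF, K_TOP_F_ne G hx]
    · have h1 : ContinuousAt (fun x => ist (G.symm (inv3 x))) x :=
        (hSTc.comp G.symm.continuous).continuousAt.comp (K_TOP_contAt hx)
      refine h1.congr ?_
      filter_upwards [isOpen_ne.mem_nhds hx] with y hy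
      rw [hF, K_TOP_F_ne G hy]
  have hFt : Tendsto F (cocompact R3) (𝓝 (kap I 0)) := by
    have h1 : Tendsto (fun x => ist (G.symm (inv3 x))) (cocompact R3) (𝓝 (ist (G.symm 0))) :=
      ((hSTc.comp G.symm.continuous).tendsto 0).comp K_TOP_inf
    rw [ha] at h1
    refine h1.congr' ?_
    have h2 : ∀ᶠ x : R3 in cocompact R3, x ≠ 0 :=
      (isCompact_singleton (x := (0 : R3))).compl_mem_cocompact
    filter_upwards [h2] with x hx
    rw [hF, K_TOP_F_ne G hx]
  -- the one point compactification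
  have hemb : IsEmbedding F := by
    let f : OnePoint R3 → ℂ × ℂ := fun x => x.elim (kap I 0) F
    have hfc : Continuous f := by
      rw [OnePoint.continuous_iff]
      refine ⟨?_, hFc⟩
      rw [coclosedCompact_eq_cocompact]
      exact hFt
    have hfinj : Function.Injective f := by
      intro x y h
      induction x using OnePoint.rec with
      | infty =>
        induction y using OnePoint.rec with
        | infty => rfl
        | coe y => exact absurd (show F y = kap I 0 from h.symm) (hFa y)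
      | coe x =>
        induction y using OnePoint.rec with
        | infty => exact absurd (show F x = kap I 0 from h) (hFa x)
        | coe y => exact congrArg _ (hFinj (show F x = F y from h))
    have h1 : IsEmbedding f := (hfc.isClosedEmbedding hfinj).isEmbedding
    exact h1.comp OnePoint.isOpenEmbedding_coe.isEmbedding
  -- values
  set j : R3 → R3 := fun x => inv3 (G (fm x)) with hj
  have hFj : ∀ x ∉ Ucirc, F (j x) = kap ((ist x).2 / ((‖(ist x).2‖ : ℝ) : ℂ)) (ist x).1 := by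
    intro x hx
    have h1 : G (fm x) ≠ 0 := hJne x hx
    have h2 : (ist x).2 ≠ 0 := fun h => hx ((hNU3 x).2 h)
    rw [hF, hj, K_TOP_F_ne G (hST4 _ h1).2.2, (hST4 _ h1).2.1, Homeomorph.symm_apply_apply]
    exact hK5 (ist x) (hST1 x).1 h2
  have hnuU : ∀ x ∉ nu ε, x ∉ Ucirc := by
    intro x hx hxU
    apply hx
    rw [hNU2 ε x hε0, (hNU3 x).1 hxU, norm_zero]
    exact hε0
  set r := Real.sqrt (1 - ε ^ 2) with hr
  have hr2 : r ^ 2 = 1 - ε ^ 2 := Real.sq_sqrt (by nlinarith)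
  have hr0 : 0 ≤ r := Real.sqrt_nonneg _
  have hr1 : r < 1 := by nlinarith
  -- points of the tube
  have hpt : ∀ l η : ℂ, ‖l‖ = 1 → ‖η‖ < 1 → kap l η ≠ kap I 0 →
      ∃ x ∉ Ucirc, F (j x) = kap l η ∧ ‖(ist x).2‖ = Real.sqrt (1 - ‖η‖ ^ 2) := by
    intro l η hl hη hne
    obtain ⟨p, hpS, hp2, hpl, hpη, hpn⟩ := hK6 l η hl hη
    have hpp : p ≠ pole := by
      intro h
      apply hne
      rw [← hpl, ← hpη, h]
      change kap (I / ((‖(I : ℂ)‖ : ℝ) : ℂ)) 0 = kap I 0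
      rw [hI, Complex.ofReal_one, div_one]
    have h1 : ist (st p) = p := hST2 p hpS hpp
    have h2 : st p ∉ Ucirc := fun h => hp2 (by rw [← h1]; exact (hNU3 _).1 h)
    refine ⟨st p, h2, ?_, ?_⟩
    · rw [hFj _ h2, h1, hpl, hpη]
    · rw [h1, hpn]
  have himg : F '' Oset j ε = S3 \ ctube r := by
    ext q
    constructor
    · rintro ⟨x, hx, rfl⟩
      refine ⟨hFS x, ?_⟩
      rintro ⟨l, η, hl, hη, hq⟩
      apply hx
      obtain ⟨y, hyU, hFy, hyn⟩ := hpt l η hl (hη.trans_lt hr1) (hq ▸ hFa x)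
      refine ⟨y, ?_, hFinj (hFy.trans hq.symm)⟩
      intro hy
      rw [hNU2 ε y hε0, hyn] at hy
      have h1 : ε ≤ Real.sqrt (1 - ‖η‖ ^ 2) := by
        apply Real.le_sqrt_of_sq_le
        have : ‖η‖ ^ 2 ≤ r ^ 2 := by gcongr
        linarith
      linarith
    · rintro ⟨hqS, hq⟩
      have hqa : q ≠ kap I 0 := by
        intro h
        exact hq ⟨I, 0, hI, by rw [norm_zero]; exact hr0, h⟩
      obtain ⟨x, rfl⟩ := hFsurj q hqS hqa
      refine ⟨x, ?_, rfl⟩
      rintro ⟨y, hy, rfl⟩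
      have hyU := hnuU y hy
      apply hq
      have h2 : (ist y).2 ≠ 0 := fun h => hyU ((hNU3 y).2 h)
      have h3 : ε ≤ ‖(ist y).2‖ := by
        by_contra h
        exact hy ((hNU2 ε y hε0).2 (not_le.1 h))
      have h4 : ‖(ist y).1‖ ^ 2 + ‖(ist y).2‖ ^ 2 = 1 := (hST1 y).1
      refine ⟨_, _, ?_, ?_, hFj y hyU⟩
      · rw [norm_div, Complex.norm_real, norm_norm, div_self (norm_ne_zero_iff.2 h2)]
      · rw [hr]
        apply Real.le_sqrt_of_sq_le
        nlinarith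
  refine ⟨(hemb.homeomorphImage (Oset j ε)).trans (Homeomorph.setCongr himg), fun x => ?_⟩
  have hval : ((((hemb.homeomorphImage (Oset j ε)).trans (Homeomorph.setCongr himg)) x : ↥(S3 \ ctube r)) :
      ℂ × ℂ) = F x := rfl
  rw [hval]
  have hxc : F x ∉ ctube r := by
    have : F x ∈ F '' Oset j ε := ⟨x, x.2, rfl⟩
    rw [himg] at this
    exact this.2
  constructor
  · rintro ⟨y, hy, hyx⟩
    have hyU : y ∉ Ucirc := hy
    have h1 := hFj y hyU
    rw [hyx] at h1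
    have h2 : (ist y).2 ≠ 0 := fun h => hyU ((hNU3 y).2 h)
    have h4 : ‖(ist y).1‖ ^ 2 + ‖(ist y).2‖ ^ 2 = 1 := (hST1 y).1
    have h5 : ‖(ist y).2 / ((‖(ist y).2‖ : ℝ) : ℂ)‖ = 1 := by
      rw [norm_div, Complex.norm_real, norm_norm, div_self (norm_ne_zero_iff.2 h2)]
    have h6 := norm_pos_iff.2 h2
    refine ⟨_, _, h5, ?_, ?_, h1⟩
    · by_contra h
      exact hxc ⟨_, _, h5, not_lt.1 h, h1⟩
    · nlinarith [norm_nonneg (ist y).1]
  · rintro ⟨l, η, hl, hη0, hη1, hx⟩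
    obtain ⟨y, hyU, hFy, -⟩ := hpt l η hl hη1 (hx ▸ hFa x)
    exact ⟨y, hyU, hFinj (hFy.trans hx.symm)⟩

end Pool.KT
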