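import Pool.Agent.Work.MP_70ab54_kt.InterfaceK
import Pool.Agent.Work.MP_70ab54_kt.KLoc
import Pool.Agent.Work.MP_70ab54_kt.K_TOP

/-! # MP_70ab54: block K_J1, the map `j` is the identity off a large ball (helper74) -/

set_option autoImplicit false

namespace Pool.KT

open Set Complex Topology Filter
open scoped ContDiff

theorem K_J1_circ {x : R3} (h : (ist x).2 = 0) : x ∈ Ucirc := by
  have hN : 0 < nsq x + 1 := by unfold nsq; positivity
  have hN0 : ((nsq x + 1 : ℝ) : ℂ) ≠ 0 := by exact_mod_cast hN.ne'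
  unfold ist at h
  simp only at h
  rw [div_eq_zero_iff] at h
  have h1 := h.resolve_right hN0
  have h2 := congrArg Complex.re h1
  have h3 := congrArg Complex.im h1
  simp at h2 h3
  refine ⟨?_, h2⟩
  have h4 : nsq x = 1 := by
    rw [sub_eq_zero] at h3
    exact_mod_cast h3
  unfold nsq at h4
  rw [h2] at h4
  have h5 : ‖x.1‖ ^ 2 = 1 := by linarith
  nlinarith [norm_nonneg x.1]

theorem stmt_K_J1 (hST : Stmt_K_ST) (hSTD : Stmt_K_STD) (hFM : Stmt_K_FM) (hKAP : Stmt_K_KAP) :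
    Stmt_K_J1 := by
  intro G hG hGh
  obtain ⟨hST1, hST2, -, hST4, hST5, -, -, -, -⟩ := hST
  obtain ⟨hK1, hK2, -, -, hK5, hK6⟩ := hKAP
  have hpoleS : pole ∈ S3 := by
    change ‖(0 : ℂ)‖ ^ 2 + ‖I‖ ^ 2 = 1
    norm_num
  have hI : ‖(I : ℂ)‖ = 1 := Complex.norm_I
  have h0 : ‖(0 : ℂ)‖ < 1 := by rw [norm_zero]; exact one_pos
  have hG0 : G (fh 0) = 0 := hGh.self_of_nhds
  have hfh0 : ist (fh 0) = kap I 0 := by
    unfold fh
    rw [hST5, hK5 pole hpoleS Complex.I_ne_zero]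
    change kap (I / ((‖(I : ℂ)‖ : ℝ) : ℂ)) 0 = kap I 0
    rw [hI, Complex.ofReal_one, div_one]
  -- data of a point off the circle
  have hdat : ∀ x ∉ Ucirc, (ist x).2 ≠ 0 ∧ ‖(ist x).2 / ((‖(ist x).2‖ : ℝ) : ℂ)‖ = 1 ∧
      ‖(ist x).1‖ < 1 ∧ ‖(ist x).1‖ ^ 2 + ‖(ist x).2‖ ^ 2 = 1 ∧
      ist (fm x) = kap ((ist x).2 / ((‖(ist x).2‖ : ℝ) : ℂ)) (ist x).1 := by
    intro x hx
    have h2 : (ist x).2 ≠ 0 := fun h => hx (K_J1_circ h)
    have h6 := norm_pos_iff.2 h2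
    have h4 : ‖(ist x).1‖ ^ 2 + ‖(ist x).2‖ ^ 2 = 1 := (hST1 x).1
    refine ⟨h2, ?_, ?_, h4, hK5 (ist x) (hST1 x).1 h2⟩
    · rw [norm_div, Complex.norm_real, norm_norm, div_self h6.ne']
    · nlinarith [norm_nonneg (ist x).1]
  have hne : ∀ x ∉ Ucirc, G (fm x) ≠ 0 := by
    intro x hx h
    obtain ⟨h2, h5, h7, h4, h8⟩ := hdat x hx
    have h9 : fm x = fh 0 := G.injective (h.trans hG0.symm)
    rw [h9, hfh0] at h8
    obtain ⟨h10, h11⟩ := hK2 _ _ _ _ hI h5 h0 h7 h8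
    rw [← h11, norm_zero] at h4
    have h12 : ‖(ist x).2‖ = 1 := by nlinarith [norm_nonneg (ist x).2]
    rw [h12, Complex.ofReal_one, div_one] at h10
    exact (hST1 x).2.1 (Prod.ext h11.symm h10.symm)
  refine ⟨?_, ?_, hne, ?_⟩
  · have h1 : LocDiffOn (fun x => G (fm x)) Ucircᶜ :=
      LocDiffOn.comp (g := fun x => G x) hG.locDiffOn hFM.1 (fun x _ => mem_univ _)
    exact LocDiffOn.comp hSTD.2.1 h1 (fun x hx => hne x hx)
  · intro x hx y hy h
    have h1 : inv3 (inv3 (G (fm x))) = inv3 (inv3 (G (fm y))) := congrArg inv3 h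
    rw [(hST4 _ (hne x hx)).2.1, (hST4 _ (hne y hy)).2.1] at h1
    have h2 : fm x = fm y := G.injective h1
    obtain ⟨hx2, hx5, hx7, hx4, hx8⟩ := hdat x hx
    obtain ⟨hy2, hy5, hy7, hy4, hy8⟩ := hdat y hy
    rw [h2, hy8] at hx8
    obtain ⟨h10, h11⟩ := hK2 _ _ _ _ hy5 hx5 hy7 hx7 hx8
    have h12 : ‖(ist x).2‖ = ‖(ist y).2‖ := by
      rw [h11] at hy4
      have h13 : ‖(ist x).2‖ ^ 2 = ‖(ist y).2‖ ^ 2 := by linarith
      exact (pow_left_inj₀ (norm_nonneg _) (norm_nonneg _) two_ne_zero).1 h13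
    have h14 : (ist x).2 = (ist y).2 := by
      rw [h12] at h10
      have h15 : ((‖(ist y).2‖ : ℝ) : ℂ) ≠ 0 := by
        have := norm_ne_zero_iff.2 hy2
        exact_mod_cast this
      rw [div_left_inj' h15] at h10
      exact h10.symm
    have h16 : ist x = ist y := Prod.ext h11.symm h14
    rw [← (hST1 x).2.2, ← (hST1 y).2.2, h16]
  · obtain ⟨δ, hδ, hball⟩ := Metric.eventually_nhds_iff.1 hGh
    refine ⟨max 2 (δ⁻¹ + 1), lt_of_lt_of_le one_lt_two (le_max_left _ _), fun x hx => ?_⟩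
    have hx1 : 2 < ‖x‖ := (le_max_left _ _).trans_lt hx
    have hx2 : δ⁻¹ < ‖x‖ := by
      have := (le_max_right 2 (δ⁻¹ + 1)).trans_lt hx
      linarith
    have hx0 : x ≠ 0 := by
      rw [← norm_pos_iff]; linarith
    have hn : 0 < ‖x‖ := by linarith
    obtain ⟨h1, h2, h3⟩ := hST4 x hx0
    have h4 : fh (inv3 x) = fm x := by
      unfold fh fm
      congr 1
      have h5 := (hST4 (inv3 x) h3).1
      rw [h2] at h5
      exact h5.symm
    have h6 : G (fh (inv3 x)) = inv3 x := by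
      apply hball
      rw [dist_zero_right, K_TOP_norm_inv3 hx0, div_lt_iff₀ (K_TOP_nsq_pos hx0)]
      have h7 := K_TOP_le_nsq x
      have h8 : 1 < δ * ‖x‖ := by
        rw [inv_lt_iff_one_lt_mul₀ hδ] at hx2
        linarith
      calc ‖x‖ < ‖x‖ * (δ * ‖x‖) := by nlinarith
        _ = δ * ‖x‖ ^ 2 := by ring
        _ ≤ δ * nsq x := by gcongr
    rw [← h4, h6, h2]

end Pool.KT
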