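import Pool.Agent.Work.MP_70ab54_kt.InterfaceK

/-! # MP_70ab54: block K_KAP, the tube in the sphere (helper74) -/

set_option autoImplicit false

namespace Pool.KT

open Set Complex Topology Filter
open scoped ContDiff

theorem K_KAP_tub_smul (t : ℝ) (l η : ℂ) :
    tub ((t : ℂ) * l) η = ((t : ℂ) ^ 2 * (tub l η).1, (t : ℂ) ^ 3 * (tub l η).2) := by
  unfold tub
  ext1 <;> simp only <;> ring

theorem K_KAP_Th_smul {t : ℝ} (ht : 0 < t) (p : ℂ × ℂ) :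
    Th ((t : ℂ) ^ 2 * p.1, (t : ℂ) ^ 3 * p.2) = (t ^ 3 : ℝ) • Th p := by
  have h1 : Real.sqrt ‖(t : ℂ) ^ 2 * p.1‖ = t * Real.sqrt ‖p.1‖ := by
    rw [norm_mul, norm_pow, Complex.norm_real, Real.norm_eq_abs, abs_of_pos ht,
      Real.sqrt_mul (sq_nonneg t), Real.sqrt_sq ht.le]
  unfold Th
  ext1
  · simp only [Prod.smul_fst, Complex.real_smul]
    rw [h1]
    push_cast
    ring
  · simp only [Prod.smul_snd, Complex.real_smul]
    push_cast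
    ring

theorem K_KAP_Thtub {t : ℝ} (ht : 0 < t) (l η : ℂ) :
    Th (tub ((t : ℂ) * l) η) = (t ^ 3 : ℝ) • Th (tub l η) := by
  rw [K_KAP_tub_smul, K_KAP_Th_smul ht]

theorem K_KAP_rho_smul {t : ℝ} (ht : 0 < t) (p : ℂ × ℂ) : rho (t • p) = t * rho p := by
  unfold rho
  rw [Prod.smul_fst, Prod.smul_snd, norm_smul, norm_smul, Real.norm_eq_abs, abs_of_pos ht]
  have h : (t * ‖p.1‖) ^ 2 + (t * ‖p.2‖) ^ 2 = t ^ 2 * (‖p.1‖ ^ 2 + ‖p.2‖ ^ 2) := by ring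
  rw [h, Real.sqrt_mul (sq_nonneg t), Real.sqrt_sq ht.le]

theorem K_KAP_nrm_eq (p : ℂ × ℂ) : nrm p = (rho p)⁻¹ • p := by
  unfold nrm
  ext1
  · rw [Prod.smul_fst, Complex.real_smul]
    push_cast
    rw [div_eq_inv_mul]
  · rw [Prod.smul_snd, Complex.real_smul]
    push_cast
    rw [div_eq_inv_mul]

theorem K_KAP_nrm_smul {t : ℝ} (ht : 0 < t) (p : ℂ × ℂ) : nrm (t • p) = nrm p := by
  rw [K_KAP_nrm_eq, K_KAP_nrm_eq, K_KAP_rho_smul ht, smul_smul]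
  congr 1
  rw [mul_inv, mul_right_comm, inv_mul_cancel₀ ht.ne', one_mul]

theorem K_KAP_rho_pos {p : ℂ × ℂ} (hp : p.1 ≠ 0) : 0 < rho p := by
  unfold rho
  have := norm_pos_iff.2 hp
  positivity

theorem K_KAP_tub_ne {l η : ℂ} (hl : l ≠ 0) (hη : ‖η‖ < 1) : (tub l η).1 ≠ 0 := by
  unfold tub
  refine mul_ne_zero (pow_ne_zero 2 hl) fun h => ?_
  have h1 : η = -3 := by linear_combination h
  rw [h1] at hη
  norm_num at hη

theorem K_KAP_Th_ne {p : ℂ × ℂ} (hp : p.1 ≠ 0) : (Th p).1 ≠ 0 := by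
  unfold Th
  have h : 0 < Real.sqrt ‖p.1‖ := Real.sqrt_pos.2 (norm_pos_iff.2 hp)
  exact mul_ne_zero hp (by exact_mod_cast h.ne')

theorem K_KAP_Th_inj {p q : ℂ × ℂ} (h : Th p = Th q) : p = q := by
  unfold Th at h
  rw [Prod.mk.injEq] at h
  obtain ⟨h1, h2⟩ := h
  refine Prod.ext ?_ h2
  have h3 : ‖p.1‖ * Real.sqrt ‖p.1‖ = ‖q.1‖ * Real.sqrt ‖q.1‖ := by
    have := congrArg norm h1
    rwa [norm_mul, norm_mul, Complex.norm_real, Complex.norm_real, Real.norm_eq_abs,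
      Real.norm_eq_abs, abs_of_nonneg (Real.sqrt_nonneg _), abs_of_nonneg (Real.sqrt_nonneg _)]
      at this
  have h4 : ‖p.1‖ = ‖q.1‖ := by
    rcases lt_trichotomy ‖p.1‖ ‖q.1‖ with hlt | heq | hlt
    · exfalso
      have h5 : Real.sqrt ‖p.1‖ ≤ Real.sqrt ‖q.1‖ := Real.sqrt_le_sqrt hlt.le
      have h6 : 0 < Real.sqrt ‖q.1‖ := Real.sqrt_pos.2 ((norm_nonneg _).trans_lt hlt)
      have h7 : ‖p.1‖ * Real.sqrt ‖p.1‖ ≤ ‖p.1‖ * Real.sqrt ‖q.1‖ :=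
        mul_le_mul_of_nonneg_left h5 (norm_nonneg _)
      have h8 : ‖p.1‖ * Real.sqrt ‖q.1‖ < ‖q.1‖ * Real.sqrt ‖q.1‖ :=
        mul_lt_mul_of_pos_right hlt h6
      linarith
    · exact heq
    · exfalso
      have h5 : Real.sqrt ‖q.1‖ ≤ Real.sqrt ‖p.1‖ := Real.sqrt_le_sqrt hlt.le
      have h6 : 0 < Real.sqrt ‖p.1‖ := Real.sqrt_pos.2 ((norm_nonneg _).trans_lt hlt)
      have h7 : ‖q.1‖ * Real.sqrt ‖q.1‖ ≤ ‖q.1‖ * Real.sqrt ‖p.1‖ :=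
        mul_le_mul_of_nonneg_left h5 (norm_nonneg _)
      have h8 : ‖q.1‖ * Real.sqrt ‖p.1‖ < ‖p.1‖ * Real.sqrt ‖p.1‖ :=
        mul_lt_mul_of_pos_right hlt h6
      linarith
  rw [h4] at h1
  by_cases h5 : ‖q.1‖ = 0
  · rw [norm_eq_zero.1 (h4.trans h5), norm_eq_zero.1 h5]
  · have h6 : ((Real.sqrt ‖q.1‖ : ℝ) : ℂ) ≠ 0 := by
      have : 0 < Real.sqrt ‖q.1‖ := Real.sqrt_pos.2 (lt_of_le_of_ne (norm_nonneg _) (Ne.symm h5))
      exact_mod_cast this.ne'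
    exact mul_right_cancel₀ h6 h1

theorem K_KAP_rho_nrm {p : ℂ × ℂ} (hp : 0 < rho p) : rho (nrm p) = 1 := by
  rw [K_KAP_nrm_eq, K_KAP_rho_smul (inv_pos.2 hp), inv_mul_cancel₀ hp.ne']

theorem K_KAP_mem_S3 {p : ℂ × ℂ} : p ∈ S3 ↔ rho p = 1 := by
  unfold S3 rho
  rw [mem_ofPred_eq, Real.sqrt_eq_one]

theorem K_KAP_open {E F : Type} [NormedAddCommGroup E] [NormedSpace ℝ E] [CompleteSpace E]
    [NormedAddCommGroup F] [NormedSpace ℝ F] [CompleteSpace F] {f : E → F} {W : Set E}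
    (h : LocDiffOn f W) {U : Set E} (hU : IsOpen U) (hUW : U ⊆ W) : IsOpen (f '' U) := by
  rw [isOpen_iff_mem_nhds]
  rintro _ ⟨x, hx, rfl⟩
  have h1 : ContDiffAt ℝ ∞ f x := h.2.1.contDiffAt (h.1.mem_nhds (hUW hx))
  have h2 : HasStrictFDerivAt f (fderiv ℝ f x) x := h1.hasStrictFDerivAt (by simp)
  have h3 : map f (𝓝 x) = 𝓝 (f x) :=
    h2.map_nhds_eq_of_surj (LinearMap.range_eq_top.2 (h.2.2 x (hUW hx)).2)
  rw [← h3]
  exact image_mem_map (hU.mem_nhds hx)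

theorem K_KAP_mem {l η : ℂ} (hl : ‖l‖ = 1) (hη : ‖η‖ < 1) :
    kap l η ∈ S3 ∧ (kap l η).1 ≠ 0 := by
  have hl0 : l ≠ 0 := by rw [← norm_ne_zero_iff, hl]; exact one_ne_zero
  have h1 := K_KAP_Th_ne (K_KAP_tub_ne hl0 hη)
  have h2 := K_KAP_rho_pos h1
  refine ⟨K_KAP_mem_S3.2 (K_KAP_rho_nrm h2), ?_⟩
  unfold kap nrm
  exact div_ne_zero h1 (by exact_mod_cast h2.ne')

/-- the cube root of a positive number -/
theorem K_KAP_cbrt {r : ℝ} (hr : 0 < r) : ∃ t : ℝ, 0 < t ∧ t ^ 3 = r :=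
  ⟨r ^ ((3 : ℝ)⁻¹), Real.rpow_pos_of_pos hr _, by
    rw [← Real.rpow_natCast, ← Real.rpow_mul hr.le]
    norm_num⟩

theorem stmt_K_KAP (hST : Stmt_K_ST) (hTUBI : Stmt_K_TUBI) (hTUBD : Stmt_K_TUBD) : Stmt_K_KAP := by
  refine ⟨fun l η hl hη => K_KAP_mem hl hη, ?_, ?_, ?_, ?_, ?_⟩
  · -- injectivity
    intro l l' η η' hl hl' hη hη' h
    have hl0 : l ≠ 0 := by rw [← norm_ne_zero_iff, hl]; exact one_ne_zero
    have hl0' : l' ≠ 0 := by rw [← norm_ne_zero_iff, hl']; exact one_ne_zero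
    have h1 := K_KAP_rho_pos (K_KAP_Th_ne (K_KAP_tub_ne hl0 hη))
    have h1' := K_KAP_rho_pos (K_KAP_Th_ne (K_KAP_tub_ne hl0' hη'))
    unfold kap at h
    rw [K_KAP_nrm_eq, K_KAP_nrm_eq] at h
    set a := Th (tub l η) with ha
    set b := Th (tub l' η') with hb
    obtain ⟨t, ht, ht3⟩ := K_KAP_cbrt (r := rho a * (rho b)⁻¹) (by positivity)
    have h2 : a = (t ^ 3 : ℝ) • b := by
      rw [ht3, mul_smul, ← h, smul_smul, mul_inv_cancel₀ h1.ne', one_smul]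
    rw [ha, hb, ← K_KAP_Thtub ht] at h2
    have h3 := hTUBI _ _ _ _ hl0 (mul_ne_zero (by exact_mod_cast ht.ne') hl0') hη hη'
      (K_KAP_Th_inj h2)
    have h4 : t = 1 := by
      have := congrArg norm h3.1
      rw [norm_mul, hl, hl', Complex.norm_real, Real.norm_eq_abs, abs_of_pos ht, mul_one] at this
      exact this.symm
    rw [h4] at h3
    exact ⟨by simpa using h3.1, h3.2⟩
  · -- continuity
    have h1 : Continuous fun q : ℂ × ℂ => Th (tub q.1 q.2) := by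
      unfold Th tub
      fun_prop
    have h2 : Continuous rho := by
      unfold rho
      fun_prop
    have h3 : ContinuousOn (fun q : ℂ × ℂ => (rho (Th (tub q.1 q.2)))⁻¹ • Th (tub q.1 q.2))
        {q | ‖q.1‖ = 1 ∧ ‖q.2‖ < 1} := by
      refine ContinuousOn.smul (ContinuousOn.inv₀ (h2.comp h1).continuousOn ?_) h1.continuousOn
      rintro q ⟨hq1, hq2⟩
      have hl0 : q.1 ≠ 0 := by rw [← norm_ne_zero_iff, hq1]; exact one_ne_zero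
      exact (K_KAP_rho_pos (K_KAP_Th_ne (K_KAP_tub_ne hl0 hq2))).ne'
    refine h3.congr fun q _ => ?_
    exact K_KAP_nrm_eq _
  · -- openness
    intro W hW
    set D : Set (ℂ × ℂ) := {q | q.1 ≠ 0 ∧ ‖q.2‖ < 1} with hD
    have hDo : IsOpen D := hTUBD.1.1
    set f : ℂ × ℂ → ℂ × ℂ := fun q => (q.1 / ((‖q.1‖ : ℝ) : ℂ), q.2) with hf
    have hfc : ContinuousOn f D := by
      refine ContinuousOn.prodMk (ContinuousOn.div continuousOn_fst ?_ ?_) continuousOn_snd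
      · fun_prop
      · intro q hq
        have := norm_ne_zero_iff.2 hq.1
        exact_mod_cast this
    have hUo : IsOpen (D ∩ f ⁻¹' W) := hfc.isOpen_inter_preimage hDo hW
    have hT1 : IsOpen ((fun q : ℂ × ℂ => tub q.1 q.2) '' (D ∩ f ⁻¹' W)) :=
      K_KAP_open hTUBD.1 hUo inter_subset_left
    have hT2 : IsOpen (Th '' ((fun q : ℂ × ℂ => tub q.1 q.2) '' (D ∩ f ⁻¹' W))) := by
      refine K_KAP_open hTUBD.2 hT1 ?_
      rintro _ ⟨q, hq, rfl⟩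
      exact K_KAP_tub_ne hq.1.1 hq.1.2
    refine ⟨_, hT2, ?_⟩
    ext p
    constructor
    · rintro ⟨q, ⟨hqW, hq1, hq2⟩, rfl⟩
      have hl0 : q.1 ≠ 0 := by rw [← norm_ne_zero_iff, hq1]; exact one_ne_zero
      have h1 := K_KAP_rho_pos (K_KAP_Th_ne (K_KAP_tub_ne hl0 hq2))
      refine ⟨?_, (K_KAP_mem hq1 hq2).1⟩
      obtain ⟨t, ht, ht3⟩ := K_KAP_cbrt (inv_pos.2 h1)
      have ht0 : (t : ℂ) ≠ 0 := by exact_mod_cast ht.ne'
      refine ⟨_, ⟨((t : ℂ) * q.1, q.2), ⟨⟨mul_ne_zero ht0 hl0, hq2⟩, ?_⟩, rfl⟩, ?_⟩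
      · have h2 : f ((t : ℂ) * q.1, q.2) = q := by
          simp only [hf]
          rw [norm_mul, hq1, mul_one, Complex.norm_real, Real.norm_eq_abs, abs_of_pos ht,
            mul_div_cancel_left₀ _ ht0]
        rw [mem_preimage, h2]
        exact hqW
      · simp only
        rw [K_KAP_Thtub ht, ht3]
        exact (K_KAP_nrm_eq _).symm
    · rintro ⟨⟨_, ⟨q, ⟨⟨hq1, hq2⟩, hqW⟩, rfl⟩, rfl⟩, hp⟩
      have hn : 0 < ‖q.1‖ := norm_pos_iff.2 hq1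
      have hn0 : ((‖q.1‖ : ℝ) : ℂ) ≠ 0 := by exact_mod_cast hn.ne'
      refine ⟨f q, ⟨hqW, ?_, hq2⟩, ?_⟩
      · simp only [hf]
        rw [norm_div, Complex.norm_real, norm_norm, div_self hn.ne']
      · simp only at hp ⊢
        have h1 : (f q).1 = ((‖q.1‖⁻¹ : ℝ) : ℂ) * q.1 := by
          simp only [hf]
          push_cast
          rw [div_eq_inv_mul]
        have h2 : (f q).2 = q.2 := rfl
        unfold kap
        rw [h1, h2, K_KAP_Thtub (inv_pos.2 hn), K_KAP_nrm_smul (by positivity), K_KAP_nrm_eq,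
          K_KAP_mem_S3.1 hp, inv_one, one_smul]
  · -- the tube map
    intro p hp hp2
    have hr : rho p = 1 := K_KAP_mem_S3.1 hp
    have hn : 0 < ‖p.2‖ := norm_pos_iff.2 hp2
    have h1 : ‖p.2 / ((‖p.2‖ : ℝ) : ℂ)‖ = 1 := by
      rw [norm_div, Complex.norm_real, norm_norm, div_self hn.ne']
    have h2 : ‖p.1‖ < 1 := by
      have h3 : ‖p.1‖ ^ 2 + ‖p.2‖ ^ 2 = 1 := hp
      nlinarith [norm_nonneg p.1]
    have hl0 : p.2 / ((‖p.2‖ : ℝ) : ℂ) ≠ 0 := by rw [← norm_ne_zero_iff, h1]; exact one_ne_zero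
    have h3 := K_KAP_rho_pos (K_KAP_Th_ne (K_KAP_tub_ne hl0 h2))
    have h4 : Fm p = st (kap (p.2 / ((‖p.2‖ : ℝ) : ℂ)) p.1) := by
      unfold Fm polar kap
      simp only
      rw [hr, Complex.ofReal_one, div_one, K_KAP_nrm_eq]
      exact (hST.2.2.1 _ _ (inv_pos.2 h3)).symm
    rw [h4]
    obtain ⟨h5, h6⟩ := K_KAP_mem h1 h2
    refine hST.2.1 _ h5 fun h => h6 ?_
    rw [h]
    rfl
  · intro l η hl hη
    have h1 : 0 < 1 - ‖η‖ ^ 2 := by nlinarith [norm_nonneg η]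
    have h2 : 0 < Real.sqrt (1 - ‖η‖ ^ 2) := Real.sqrt_pos.2 h1
    have h3 : ‖((Real.sqrt (1 - ‖η‖ ^ 2) : ℝ) : ℂ) * l‖ = Real.sqrt (1 - ‖η‖ ^ 2) := by
      rw [norm_mul, hl, mul_one, Complex.norm_real, Real.norm_eq_abs, abs_of_pos h2]
    have h4 : ((Real.sqrt (1 - ‖η‖ ^ 2) : ℝ) : ℂ) ≠ 0 := by exact_mod_cast h2.ne'
    have hl0 : l ≠ 0 := by rw [← norm_ne_zero_iff, hl]; exact one_ne_zero
    refine ⟨(η, ((Real.sqrt (1 - ‖η‖ ^ 2) : ℝ) : ℂ) * l), ?_, mul_ne_zero h4 hl0, ?_, rfl, h3⟩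
    · change ‖η‖ ^ 2 + ‖((Real.sqrt (1 - ‖η‖ ^ 2) : ℝ) : ℂ) * l‖ ^ 2 = 1
      rw [h3, Real.sq_sqrt h1.le]
      ring
    · simp only
      rw [h3, mul_div_cancel_left₀ _ h4]

end Pool.KT
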