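import Pool.Agent.Work.MP_70ab54_kt.InterfaceK
import Pool.Agent.Work.MP_70ab54_kt.InterfaceD

set_option autoImplicit false

namespace Pool.KT

open Set Complex Topology Filter

/-- the part of an open convex set in the closed upper half plane, minus real points -/
theorem K_LAM_L1 {D F : Set ℂ} (hD : IsOpen D) (hc : Convex ℝ D) (hF : IsClosed F)
    (hF0 : ∀ z ∈ F, z.im = 0) {p : ℂ} (hp : p ∈ D) (hp0 : 0 < p.im) {Y : Set ℂ}
    (hY : ∀ z, z ∈ Y ↔ 0 ≤ z.im ∧ z ∈ D ∧ z ∉ F) : AE Y := by
  have e : Y = {z : ℂ | 0 ≤ z.im} ∩ (D ∩ Fᶜ) := by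
    ext z
    rw [hY]
    rfl
  rw [e]
  refine ae_of_retr_starConvex (fun z : ℂ => ((z.re : ℂ) + (max z.im 0 : ℝ) * I)) ?_ ?_ ?_
    (hD.inter hF.isOpen_compl) (p := p) ⟨hp0.le, hp, fun h => hp0.ne' (hF0 p h)⟩ ?_
  · fun_prop
  · intro z
    show 0 ≤ ((z.re : ℂ) + (max z.im 0 : ℝ) * I).im
    simp
  · intro z hz
    have hz' : 0 ≤ z.im := hz
    apply Complex.ext <;> simp [hz']
  · rw [starConvex_iff_forall_pos (by exact ⟨hp0.le, hp, fun h => hp0.ne' (hF0 p h)⟩)]
    intro y hy a b ha hb hab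
    obtain ⟨hy1, hy2, -⟩ := hy
    have hy1' : 0 ≤ y.im := hy1
    have him : 0 < (a • p + b • y).im := by
      simp only [Complex.add_im, Complex.real_smul, Complex.mul_im, Complex.ofReal_re,
        Complex.ofReal_im, zero_mul, add_zero]
      have := mul_pos ha hp0
      have := mul_nonneg hb.le hy1'
      linarith
    exact ⟨him.le, hc hp hy2 ha.le hb.le hab, fun h => him.ne' (hF0 _ h)⟩

/-- convex pieces of the real line -/
theorem K_LAM_L2 {D : Set ℂ} (hD : IsOpen D) (hc : Convex ℝ D) {p : ℂ} (hp : p ∈ D)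
    (hp0 : p.im = 0) {Y : Set ℂ} (hY : ∀ z, z ∈ Y ↔ z.im = 0 ∧ z ∈ D) : AE Y := by
  have e : Y = {z : ℂ | z.im = 0} ∩ D := by
    ext z
    rw [hY]
    rfl
  rw [e]
  refine ae_of_retr_starConvex (fun z : ℂ => (z.re : ℂ)) (by fun_prop) (fun z => ?_)
    (fun z hz => ?_) hD (p := p) ⟨hp0, hp⟩ ?_
  · show ((z.re : ℂ)).im = 0
    simp
  · have hz' : z.im = 0 := hz
    apply Complex.ext <;> simp [hz']
  · intro y hy a b ha hb hab
    obtain ⟨hy1, hy2⟩ := hy
    have hy1' : y.im = 0 := hy1
    refine ⟨?_, hc hp hy2 ha hb hab⟩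
    show (a • p + b • y).im = 0
    simp [hp0, hy1']

/-- complex conjugation as a reflection -/
noncomputable def K_LAM_D : ReflData ℂ Unit where
  act g z := if g () = 1 then z else (starRingEnd ℂ) z
  h _ z := z.im
  act_cont g := by
    by_cases hg : g () = 1
    · simp only [hg, if_true]; exact continuous_id
    · simp only [hg, if_false]; exact Complex.continuous_conj
  h_cont _ := Complex.continuous_im
  act_mul g g' x := by
    rcases Int.units_eq_one_or (g ()) with h | h <;> rcases Int.units_eq_one_or (g' ()) with h' | h' <;>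
      simp [h, h', Pi.mul_apply]
  h_act g i x := by
    rcases Int.units_eq_one_or (g i) with h | h
    · have : g () = 1 := h
      simp [this, h]
    · have : g () = -1 := h
      simp [this, h]
  act_fix g x hx := by
    by_cases hg : g () = 1
    · simp [hg]
    · have him : x.im = 0 := by
        by_contra h0
        exact hg (hx () h0)
      simp only [hg, if_false]
      apply Complex.ext <;> simp [him]

/-- the three mirrors -/
def K_LAM_m (s : Fin 3) : Set ℂ :=
  if s = 0 then {z | z.im = 0 ∧ z.re < 0}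
  else if s = 1 then {z | z.im = 0 ∧ 0 < z.re ∧ z.re < 1}
  else {z | z.im = 0 ∧ 1 < z.re}

theorem K_LAM_m0 : K_LAM_m 0 = {z | z.im = 0 ∧ z.re < 0} := by simp [K_LAM_m]
theorem K_LAM_m1 : K_LAM_m 1 = {z | z.im = 0 ∧ 0 < z.re ∧ z.re < 1} := by simp [K_LAM_m]
theorem K_LAM_m2 : K_LAM_m 2 = {z | z.im = 0 ∧ 1 < z.re} := by simp [K_LAM_m]
theorem K_LAM_e0 : endA 0 = {z | ‖z + 1 / 4‖ < 3 / 4} ∩ {z | z ≠ 0} := by simp [endA]
theorem K_LAM_e1 : endA 1 = {z | ‖z - 5 / 4‖ < 3 / 4} ∩ {z | z ≠ 1} := by simp [endA]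
theorem K_LAM_e2 : endA 2 = {z | 3 / 2 < ‖z - 1 / 2‖} := by simp [endA]

theorem K_LAM_C01 {z : ℂ} (h : z ∈ C01) (him : z.im = 0) : z.re ≠ 0 ∧ z.re ≠ 1 := by
  constructor
  · intro h0; exact h.1 (Complex.ext h0 him)
  · intro h0; exact h.2 (Complex.ext h0 him)

theorem K_LAM_C01' {z : ℂ} (h0 : z.re ≠ 0) (h1 : z.re ≠ 1) : z ∈ C01 := by
  refine ⟨fun h => h0 (by rw [h]; rfl), fun h => h1 (by rw [h]; rfl)⟩

theorem K_LAM_mir : MirrorData K_LAM_D (fun _ : Fin 3 => ()) (fun _ _ => False) C01 K_LAM_m where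
  inv g x hx := by
    show (if g () = 1 then x else (starRingEnd ℂ) x) ∈ C01
    split_ifs
    · exact hx
    · refine ⟨fun h => hx.1 ?_, fun h => hx.2 ?_⟩
      · simpa using h
      · have := congrArg (starRingEnd ℂ) h
        simpa using this
  ty_surj := fun _ => ⟨0, rfl⟩
  sub s x hx := by
    have key : x.im = 0 ∧ x.re ≠ 0 ∧ x.re ≠ 1 := by
      fin_cases s
      · have : x ∈ K_LAM_m 0 := hx
        rw [K_LAM_m0] at this
        exact ⟨this.1, this.2.ne, (this.2.trans one_pos).ne⟩
      · have : x ∈ K_LAM_m 1 := hx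
        rw [K_LAM_m1] at this
        exact ⟨this.1, this.2.1.ne', this.2.2.ne⟩
      · have : x ∈ K_LAM_m 2 := hx
        rw [K_LAM_m2] at this
        exact ⟨this.1, (one_pos.trans this.2).ne', this.2.ne'⟩
    exact ⟨K_LAM_C01' key.2.1 key.2.2, fun _ => key.1.ge, key.1⟩
  closed s := by
    have hre := Complex.continuous_re
    have him := Complex.continuous_im
    have him0 : IsClosed {z : ℂ | z.im = 0} := isClosed_eq him continuous_const
    fin_cases s
    · refine ⟨{z | z.im = 0} ∩ {z | z.re ≤ 0}, him0.inter (isClosed_le hre continuous_const), ?_⟩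
      show K_LAM_m 0 = _
      rw [K_LAM_m0]
      ext z
      constructor
      · rintro ⟨h1, h2⟩
        exact ⟨K_LAM_C01' h2.ne (h2.trans one_pos).ne, h1, h2.le⟩
      · rintro ⟨h0, h1, h2⟩
        exact ⟨h1, lt_of_le_of_ne h2 (K_LAM_C01 h0 h1).1⟩
    · refine ⟨{z | z.im = 0} ∩ ({z | 0 ≤ z.re} ∩ {z | z.re ≤ 1}), him0.inter
        ((isClosed_le continuous_const hre).inter (isClosed_le hre continuous_const)), ?_⟩
      show K_LAM_m 1 = _
      rw [K_LAM_m1]
      ext z
      constructor
      · rintro ⟨h1, h2, h3⟩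
        exact ⟨K_LAM_C01' h2.ne' h3.ne, h1, h2.le, h3.le⟩
      · rintro ⟨h0, h1, h2, h3⟩
        exact ⟨h1, lt_of_le_of_ne h2 (K_LAM_C01 h0 h1).1.symm,
          lt_of_le_of_ne h3 (K_LAM_C01 h0 h1).2⟩
    · refine ⟨{z | z.im = 0} ∩ {z | 1 ≤ z.re}, him0.inter (isClosed_le continuous_const hre), ?_⟩
      show K_LAM_m 2 = _
      rw [K_LAM_m2]
      ext z
      constructor
      · rintro ⟨h1, h2⟩
        exact ⟨K_LAM_C01' (one_pos.trans h2).ne' h2.ne', h1, h2.le⟩
      · rintro ⟨h0, h1, h2⟩
        exact ⟨h1, lt_of_le_of_ne h2 (K_LAM_C01 h0 h1).2.symm⟩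
  cover x hx _ i hi := by
    have him : x.im = 0 := hi
    obtain ⟨n0, n1⟩ := K_LAM_C01 hx him
    rcases lt_or_gt_of_ne n0 with h | h
    · exact ⟨0, rfl, by rw [K_LAM_m0]; exact ⟨him, h⟩⟩
    · rcases lt_or_gt_of_ne n1 with h' | h'
      · exact ⟨1, rfl, by rw [K_LAM_m1]; exact ⟨him, h, h'⟩⟩
      · exact ⟨2, rfl, by rw [K_LAM_m2]; exact ⟨him, h'⟩⟩
  disj s t _ x hs ht := by
    have h0 : ∀ y : ℂ, y ∈ K_LAM_m 0 → y.re < 0 := fun y hy => by rw [K_LAM_m0] at hy; exact hy.2
    have h1 : ∀ y : ℂ, y ∈ K_LAM_m 1 → 0 < y.re ∧ y.re < 1 := fun y hy => by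
      rw [K_LAM_m1] at hy; exact hy.2
    have h2 : ∀ y : ℂ, y ∈ K_LAM_m 2 → 1 < y.re := fun y hy => by rw [K_LAM_m2] at hy; exact hy.2
    fin_cases s <;> fin_cases t <;> first
      | rfl
      | (exfalso
         first
           | (have a := h0 x hs; have b := h1 x ht; linarith [b.1])
           | (have a := h0 x hs; have b := h2 x ht; linarith)
           | (have a := h1 x hs; have b := h0 x ht; linarith [a.1])
           | (have a := h1 x hs; have b := h2 x ht; linarith [a.2])
           | (have a := h2 x hs; have b := h0 x ht; linarith)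
           | (have a := h2 x hs; have b := h1 x ht; linarith [b.2]))
  comm s t hst x hs ht := by
    have h0 : ∀ y : ℂ, y ∈ K_LAM_m 0 → y.re < 0 := fun y hy => by rw [K_LAM_m0] at hy; exact hy.2
    have h1 : ∀ y : ℂ, y ∈ K_LAM_m 1 → 0 < y.re ∧ y.re < 1 := fun y hy => by
      rw [K_LAM_m1] at hy; exact hy.2
    have h2 : ∀ y : ℂ, y ∈ K_LAM_m 2 → 1 < y.re := fun y hy => by rw [K_LAM_m2] at hy; exact hy.2
    fin_cases s <;> fin_cases t <;> first
      | exact hst rfl
      | (first
           | (have a := h0 x hs; have b := h1 x ht; linarith [b.1])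
           | (have a := h0 x hs; have b := h2 x ht; linarith)
           | (have a := h1 x hs; have b := h0 x ht; linarith [a.1])
           | (have a := h1 x hs; have b := h2 x ht; linarith [a.2])
           | (have a := h2 x hs; have b := h0 x ht; linarith)
           | (have a := h2 x hs; have b := h1 x ht; linarith [b.2]))
  symm s t h := h.elim

/-- cliques have at most one element -/
theorem K_LAM_cliq {A : Finset (Fin 3)} (hA : Cliq (fun _ _ : Fin 3 => False) A) :
    A = ∅ ∨ ∃ s, A = {s} := by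
  rcases A.eq_empty_or_nonempty with h | ⟨s, hs⟩
  · exact Or.inl h
  · refine Or.inr ⟨s, ?_⟩
    ext t
    rw [Finset.mem_singleton]
    constructor
    · intro ht
      by_contra hne
      exact hA t ht s hs hne
    · intro h
      rw [h]; exact hs

theorem K_LAM_strat0 (z : ℂ) : z ∈ Strat K_LAM_D C01 K_LAM_m ∅ ↔ z ∈ C01 ∧ 0 ≤ z.im := by
  constructor
  · rintro ⟨h1, h2, -⟩
    exact ⟨h1, h2 ()⟩
  · rintro ⟨h1, h2⟩
    exact ⟨h1, fun _ => h2, by simp⟩

theorem K_LAM_strat1 (z : ℂ) (s : Fin 3) : z ∈ Strat K_LAM_D C01 K_LAM_m {s} ↔ z ∈ K_LAM_m s := by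
  constructor
  · rintro ⟨-, -, h3⟩
    exact h3 s (by simp)
  · intro h
    obtain ⟨a, b, -⟩ := K_LAM_mir.sub s z h
    refine ⟨a, b, fun t ht => ?_⟩
    rw [Finset.mem_singleton] at ht
    rw [ht]; exact h

theorem K_LAM_hre : Convex ℝ {z : ℂ | z.re < 0} := convex_halfSpace_re_lt 0

theorem stmt_K_LAM (hD : Stmt_D) : Stmt_K_LAM := by
  have oRe : ∀ c : ℝ, IsOpen {z : ℂ | z.re < c} := fun c =>
    isOpen_lt Complex.continuous_re continuous_const
  have oRe' : ∀ c : ℝ, IsOpen {z : ℂ | c < z.re} := fun c =>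
    isOpen_lt continuous_const Complex.continuous_re
  have cRe : ∀ c : ℝ, Convex ℝ {z : ℂ | z.re < c} := convex_halfSpace_re_lt
  have cRe' : ∀ c : ℝ, Convex ℝ {z : ℂ | c < z.re} := convex_halfSpace_re_gt
  have ball0 : {z : ℂ | ‖z + 1 / 4‖ < 3 / 4} = Metric.ball (-(1 / 4) : ℂ) (3 / 4) := by
    ext z; simp [dist_eq_norm]
  have ball1 : {z : ℂ | ‖z - 5 / 4‖ < 3 / 4} = Metric.ball (5 / 4 : ℂ) (3 / 4) := by
    ext z; simp [dist_eq_norm]
  have cl01 : IsClosed ({0, 1} : Set ℂ) := (Set.toFinite _).isClosed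
  have im01 : ∀ z ∈ ({0, 1} : Set ℂ), z.im = 0 := by
    rintro z (h | h)
    · rw [h]; rfl
    · rw [h]; rfl
  have hC01 : ∀ z : ℂ, z ∈ C01 ↔ z ∉ ({0, 1} : Set ℂ) := by
    intro z
    constructor
    · rintro ⟨h1, h2⟩ (h | h)
      · exact h1 h
      · exact h2 h
    · intro h
      exact ⟨fun h0 => h (Or.inl h0), fun h1 => h (Or.inr h1)⟩
  refine hD ℂ Unit (Fin 3) K_LAM_D (fun _ => ()) (fun _ _ => False) C01 K_LAM_m K_LAM_mir ?_
    (Fin 3) endA (fun k => if k = 0 then {0, 1} else if k = 1 then {1, 2} else {0, 2}) ?_ ?_ ?_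
  · -- strata
    intro A hA
    rcases K_LAM_cliq hA with h | ⟨s, h⟩
    · subst h
      refine K_LAM_L1 (D := univ) (F := {0, 1}) isOpen_univ convex_univ cl01 im01 (p := I)
        (mem_univ _) (by simp) (fun z => ?_)
      rw [K_LAM_strat0, hC01]
      simp [and_comm]
    · subst h
      fin_cases s
      · refine K_LAM_L2 (D := {z | z.re < 0}) (oRe 0) (cRe 0) (p := -1) (by simp) (by simp)
          (fun z => ?_)
        show z ∈ Strat K_LAM_D C01 K_LAM_m {0} ↔ _
        rw [K_LAM_strat1, K_LAM_m0]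
        rfl
      · refine K_LAM_L2 (D := {z | 0 < z.re} ∩ {z | z.re < 1}) ((oRe' 0).inter (oRe 1))
          ((cRe' 0).inter (cRe 1)) (p := ((1 / 2 : ℝ) : ℂ)) (by constructor <;> simp; norm_num)
          (by simp) (fun z => ?_)
        show z ∈ Strat K_LAM_D C01 K_LAM_m {1} ↔ _
        rw [K_LAM_strat1, K_LAM_m1]
        rfl
      · refine K_LAM_L2 (D := {z | 1 < z.re}) (oRe' 1) (cRe' 1) (p := 2) (by simp) (by simp)
          (fun z => ?_)
        show z ∈ Strat K_LAM_D C01 K_LAM_m {2} ↔ _
        rw [K_LAM_strat1, K_LAM_m2]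
        rfl
  · -- invariance of the ends
    intro k g x hx
    show (if g () = 1 then x else (starRingEnd ℂ) x) ∈ endA k
    split_ifs
    · exact hx
    · fin_cases k
      · have hx' : x ∈ endA 0 := hx
        show (starRingEnd ℂ) x ∈ endA 0
        rw [K_LAM_e0] at hx' ⊢
        refine ⟨?_, ?_⟩
        · have h1 : ‖x + 1 / 4‖ < 3 / 4 := hx'.1
          show ‖(starRingEnd ℂ) x + 1 / 4‖ < 3 / 4
          have : (starRingEnd ℂ) x + 1 / 4 = (starRingEnd ℂ) (x + 1 / 4) := by
            apply Complex.ext <;> simp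
          rw [this, Complex.norm_conj]; exact h1
        · have h2 : x ≠ 0 := hx'.2
          show (starRingEnd ℂ) x ≠ 0
          simpa using h2
      · have hx' : x ∈ endA 1 := hx
        show (starRingEnd ℂ) x ∈ endA 1
        rw [K_LAM_e1] at hx' ⊢
        refine ⟨?_, ?_⟩
        · have h1 : ‖x - 5 / 4‖ < 3 / 4 := hx'.1
          show ‖(starRingEnd ℂ) x - 5 / 4‖ < 3 / 4
          have c5 : (starRingEnd ℂ) (5 / 4) = 5 / 4 := by
            rw [show (5 / 4 : ℂ) = ((5 / 4 : ℝ) : ℂ) by push_cast; ring]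
            exact Complex.conj_ofReal _
          have : (starRingEnd ℂ) x - 5 / 4 = (starRingEnd ℂ) (x - 5 / 4) := by
            rw [map_sub, c5]
          rw [this, Complex.norm_conj]; exact h1
        · have h2 : x ≠ 1 := hx'.2
          show (starRingEnd ℂ) x ≠ 1
          intro h
          apply h2
          have := congrArg (starRingEnd ℂ) h
          simpa using this
      · have hx' : x ∈ endA 2 := hx
        show (starRingEnd ℂ) x ∈ endA 2
        rw [K_LAM_e2] at hx' ⊢
        have h1 : 3 / 2 < ‖x - 1 / 2‖ := hx'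
        show 3 / 2 < ‖(starRingEnd ℂ) x - 1 / 2‖
        have : (starRingEnd ℂ) x - 1 / 2 = (starRingEnd ℂ) (x - 1 / 2) := by
          apply Complex.ext <;> simp
        rw [this, Complex.norm_conj]; exact h1
  · -- mirrors missing an end
    intro k s hs x hx hxE
    fin_cases k
    · have hs' : s = 2 := by
        have : s ∉ ({0, 1} : Set (Fin 3)) := hs
        fin_cases s <;> simp_all
      subst hs'
      rw [K_LAM_m2] at hx
      have hE : x ∈ endA 0 := hxE
      rw [K_LAM_e0] at hE
      have h1 : ‖x + 1 / 4‖ < 3 / 4 := hE.1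
      have h2 := Complex.re_le_norm (x + 1 / 4)
      have h3 : (x + 1 / 4).re = x.re + 1 / 4 := by simp
      linarith [hx.2]
    · have hs' : s = 0 := by
        have : s ∉ ({1, 2} : Set (Fin 3)) := hs
        fin_cases s <;> simp_all
      subst hs'
      rw [K_LAM_m0] at hx
      have hE : x ∈ endA 1 := hxE
      rw [K_LAM_e1] at hE
      have h1 : ‖x - 5 / 4‖ < 3 / 4 := hE.1
      have h2 := Complex.abs_re_le_norm (x - 5 / 4)
      have h3 : (x - 5 / 4).re = x.re - 5 / 4 := by simp
      rw [h3] at h2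
      have := (abs_le.1 h2).1
      linarith [hx.2]
    · have hs' : s = 1 := by
        have : s ∉ ({0, 2} : Set (Fin 3)) := hs
        fin_cases s <;> simp_all
      subst hs'
      rw [K_LAM_m1] at hx
      have hE : x ∈ endA 2 := hxE
      rw [K_LAM_e2] at hE
      have h1 : 3 / 2 < ‖x - 1 / 2‖ := hE
      have h2 : x - 1 / 2 = ((x.re - 1 / 2 : ℝ) : ℂ) := by
        apply Complex.ext <;> simp [hx.1]
      rw [h2, Complex.norm_real, Real.norm_eq_abs] at h1
      have : |x.re - 1 / 2| ≤ 1 / 2 := abs_le.2 ⟨by linarith [hx.2.1], by linarith [hx.2.2]⟩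
      linarith
  · -- strata of the ends
    intro k A hA hAT
    rcases K_LAM_cliq hA with h | ⟨s, h⟩
    · subst h
      fin_cases k
      · refine K_LAM_L1 (D := {z | ‖z + 1 / 4‖ < 3 / 4}) (F := {0, 1})
          (by rw [ball0]; exact Metric.isOpen_ball) (by rw [ball0]; exact convex_ball _ _)
          cl01 im01 (p := -(1 / 4) + I / 4) ?_ (by simp) (fun z => ?_)
        · show ‖-(1 / 4) + I / 4 + 1 / 4‖ < 3 / 4
          have : (-(1 / 4) + I / 4 + 1 / 4 : ℂ) = I / 4 := by ring
          rw [this]; simp; norm_num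
        · show z ∈ endA 0 ∩ Strat K_LAM_D C01 K_LAM_m ∅ ↔ _
          rw [K_LAM_e0, mem_inter_iff, K_LAM_strat0, hC01]
          constructor
          · rintro ⟨⟨h1, -⟩, h2, h3⟩
            exact ⟨h3, h1, h2⟩
          · rintro ⟨h1, h2, h3⟩
            exact ⟨⟨h2, fun h => h3 (Or.inl h)⟩, h3, h1⟩
      · refine K_LAM_L1 (D := {z | ‖z - 5 / 4‖ < 3 / 4}) (F := {0, 1})
          (by rw [ball1]; exact Metric.isOpen_ball) (by rw [ball1]; exact convex_ball _ _)
          cl01 im01 (p := 5 / 4 + I / 4) ?_ (by simp) (fun z => ?_)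
        · show ‖5 / 4 + I / 4 - 5 / 4‖ < 3 / 4
          have : (5 / 4 + I / 4 - 5 / 4 : ℂ) = I / 4 := by ring
          rw [this]; simp; norm_num
        · show z ∈ endA 1 ∩ Strat K_LAM_D C01 K_LAM_m ∅ ↔ _
          rw [K_LAM_e1, mem_inter_iff, K_LAM_strat0, hC01]
          constructor
          · rintro ⟨⟨h1, -⟩, h2, h3⟩
            exact ⟨h3, h1, h2⟩
          · rintro ⟨h1, h2, h3⟩
            exact ⟨⟨h2, fun h => h3 (Or.inr h)⟩, h3, h1⟩
      · -- inversion
        have hY : AE ({w : ℂ | 0 ≤ w.im ∧ ‖w‖ < 2 / 3 ∧ w ∉ ({0} : Set ℂ)} : Set ℂ) := by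
          refine K_LAM_L1 (D := {w | ‖w‖ < 2 / 3}) (F := {0}) ?_ ?_ isClosed_singleton ?_
            (p := I / 3) ?_ (by simp) (fun z => Iff.rfl)
          · exact isOpen_lt continuous_norm continuous_const
          · have : {w : ℂ | ‖w‖ < 2 / 3} = Metric.ball 0 (2 / 3) := by ext z; simp
            rw [this]; exact convex_ball _ _
          · intro z hz
            have : z = 0 := hz
            rw [this]; rfl
          · show ‖I / 3‖ < 2 / 3
            simp; norm_num
        show AE ↥(endA 2 ∩ Strat K_LAM_D C01 K_LAM_m ∅)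
        rw [K_LAM_e2]
        have hmem : ∀ z : ℂ, z ∈ {z : ℂ | 3 / 2 < ‖z - 1 / 2‖} ∩ Strat K_LAM_D C01 K_LAM_m ∅ ↔
            3 / 2 < ‖z - 1 / 2‖ ∧ 0 ≤ z.im := by
          intro z
          rw [mem_inter_iff, K_LAM_strat0]
          constructor
          · rintro ⟨h1, -, h3⟩
            exact ⟨h1, h3⟩
          · rintro ⟨h1, h3⟩
            refine ⟨h1, ⟨?_, ?_⟩, h3⟩
            · rintro rfl
              have : ‖(0 : ℂ) - 1 / 2‖ = 1 / 2 := by
                have : (0 : ℂ) - 1 / 2 = ((-(1 / 2) : ℝ) : ℂ) := by apply Complex.ext <;> simp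
                rw [this, Complex.norm_real]; norm_num
              linarith
            · rintro rfl
              have : ‖(1 : ℂ) - 1 / 2‖ = 1 / 2 := by
                have : (1 : ℂ) - 1 / 2 = ((1 / 2 : ℝ) : ℂ) := by
                  apply Complex.ext <;> simp; norm_num
                rw [this, Complex.norm_real]; norm_num
              linarith
        have him : ∀ u : ℂ, (-u⁻¹).im = u.im / Complex.normSq u := by
          intro u
          rw [Complex.neg_im, Complex.inv_im]; ring
        refine hY.of_retract_set (fun z => -(z - 1 / 2)⁻¹) (fun w => 1 / 2 - w⁻¹) ?_ ?_ ?_ ?_ ?_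
        · intro z hz
          rw [hmem] at hz
          have hne : z - 1 / 2 ≠ 0 := by
            intro h0
            rw [h0, norm_zero] at hz
            linarith [hz.1]
          exact ((continuousAt_id.sub continuousAt_const).inv₀ hne).neg.continuousWithinAt
        · intro z hz
          rw [hmem] at hz
          have hn : 0 < ‖z - 1 / 2‖ := by linarith [hz.1]
          have hne : z - 1 / 2 ≠ 0 := norm_pos_iff.1 hn
          refine ⟨?_, ?_, ?_⟩
          · show 0 ≤ (-(z - 1 / 2)⁻¹).im
            rw [him]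
            refine div_nonneg ?_ (Complex.normSq_nonneg _)
            simpa using hz.2
          · show ‖-(z - 1 / 2)⁻¹‖ < 2 / 3
            rw [norm_neg, norm_inv]
            rw [inv_lt_comm₀ hn (by norm_num)]
            linarith [hz.1]
          · show -(z - 1 / 2)⁻¹ ∉ ({0} : Set ℂ)
            intro h0
            have h0' : -(z - 1 / 2)⁻¹ = 0 := h0
            exact hne (inv_eq_zero.1 (neg_eq_zero.1 h0'))
        · intro w hw
          have hne : w ≠ 0 := fun h0 => hw.2.2 h0
          exact (continuousAt_const.sub (continuousAt_id.inv₀ hne)).continuousWithinAt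
        · intro w hw
          have hne : w ≠ 0 := fun h0 => hw.2.2 h0
          rw [hmem]
          have e1 : (1 / 2 - w⁻¹) - 1 / 2 = -w⁻¹ := by ring
          constructor
          · rw [e1, norm_neg, norm_inv]
            have h1 : ‖w‖ < 2 / 3 := hw.2.1
            have h2 : 0 < ‖w‖ := norm_pos_iff.2 hne
            rw [lt_inv_comm₀ (by norm_num) h2]
            linarith
          · have e2 : (1 / 2 - w⁻¹ : ℂ).im = (-w⁻¹).im := by simp
            rw [e2, him]
            exact div_nonneg hw.1 (Complex.normSq_nonneg _)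
        · intro z hz
          show 1 / 2 - (-(z - 1 / 2)⁻¹)⁻¹ = z
          rw [inv_neg, inv_inv]; ring
    · subst h
      have hsT := hAT s (Finset.mem_singleton_self s)
      have nre : ∀ z : ℂ, z.im = 0 → ∀ c : ℝ, ‖z - (c : ℂ)‖ = |z.re - c| := by
        intro z hz c
        have : z - (c : ℂ) = ((z.re - c : ℝ) : ℂ) := by apply Complex.ext <;> simp [hz]
        rw [this, Complex.norm_real, Real.norm_eq_abs]
      have q0 : ∀ z : ℂ, z + 1 / 4 = z - ((-(1 / 4) : ℝ) : ℂ) := by intro z; push_cast; ring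
      have q1 : ∀ z : ℂ, z - 5 / 4 = z - ((5 / 4 : ℝ) : ℂ) := by intro z; push_cast; ring
      have q2 : ∀ z : ℂ, z - 1 / 2 = z - ((1 / 2 : ℝ) : ℂ) := by intro z; push_cast; ring
      fin_cases k
      · -- end 0
        fin_cases s
        · show AE ↥(endA 0 ∩ Strat K_LAM_D C01 K_LAM_m {0})
          refine K_LAM_L2 (D := {z | -1 < z.re} ∩ {z | z.re < 0}) ((oRe' _).inter (oRe 0))
            ((cRe' _).inter (cRe 0)) (p := ((-(1 / 2) : ℝ) : ℂ))
            (by constructor <;> simp; norm_num) (by simp) (fun z => ?_)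
          rw [K_LAM_e0, mem_inter_iff, K_LAM_strat1, K_LAM_m0]
          constructor
          · rintro ⟨⟨h1, -⟩, h2, h3⟩
            have h1' : ‖z + 1 / 4‖ < 3 / 4 := h1
            rw [q0, nre z h2, abs_lt] at h1'
            exact ⟨h2, by show -1 < z.re; linarith [h1'.1], h3⟩
          · rintro ⟨h2, h3, h4⟩
            have h3' : -1 < z.re := h3
            have h4' : z.re < 0 := h4
            refine ⟨⟨?_, ?_⟩, h2, h4⟩
            · show ‖z + 1 / 4‖ < 3 / 4
              rw [q0, nre z h2, abs_lt]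
              constructor <;> linarith
            · rintro rfl; simp at h4'
        · show AE ↥(endA 0 ∩ Strat K_LAM_D C01 K_LAM_m {1})
          refine K_LAM_L2 (D := {z | 0 < z.re} ∩ {z | z.re < 1 / 2}) ((oRe' _).inter (oRe _))
            ((cRe' _).inter (cRe _)) (p := ((1 / 4 : ℝ) : ℂ))
            (by constructor <;> simp; norm_num) (by simp) (fun z => ?_)
          rw [K_LAM_e0, mem_inter_iff, K_LAM_strat1, K_LAM_m1]
          constructor
          · rintro ⟨⟨h1, -⟩, h2, h3, h4⟩
            have h1' : ‖z + 1 / 4‖ < 3 / 4 := h1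
            rw [q0, nre z h2, abs_lt] at h1'
            exact ⟨h2, h3, by show z.re < 1 / 2; linarith [h1'.2]⟩
          · rintro ⟨h2, h3, h4⟩
            have h3' : 0 < z.re := h3
            have h4' : z.re < 1 / 2 := h4
            refine ⟨⟨?_, ?_⟩, h2, h3, by show z.re < 1; linarith⟩
            · show ‖z + 1 / 4‖ < 3 / 4
              rw [q0, nre z h2, abs_lt]
              constructor <;> linarith
            · rintro rfl; simp at h3'
        · exact absurd hsT (by simp)
      · -- end 1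
        fin_cases s
        · exact absurd hsT (by simp)
        · show AE ↥(endA 1 ∩ Strat K_LAM_D C01 K_LAM_m {1})
          refine K_LAM_L2 (D := {z | 1 / 2 < z.re} ∩ {z | z.re < 1}) ((oRe' _).inter (oRe _))
            ((cRe' _).inter (cRe _)) (p := ((3 / 4 : ℝ) : ℂ))
            (by constructor <;> simp <;> norm_num) (by simp) (fun z => ?_)
          rw [K_LAM_e1, mem_inter_iff, K_LAM_strat1, K_LAM_m1]
          constructor
          · rintro ⟨⟨h1, -⟩, h2, h3, h4⟩
            have h1' : ‖z - 5 / 4‖ < 3 / 4 := h1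
            rw [q1, nre z h2, abs_lt] at h1'
            exact ⟨h2, by show 1 / 2 < z.re; linarith [h1'.1], h4⟩
          · rintro ⟨h2, h3, h4⟩
            have h3' : 1 / 2 < z.re := h3
            have h4' : z.re < 1 := h4
            refine ⟨⟨?_, ?_⟩, h2, by show 0 < z.re; linarith, h4⟩
            · show ‖z - 5 / 4‖ < 3 / 4
              rw [q1, nre z h2, abs_lt]
              constructor <;> linarith
            · rintro rfl; simp at h4'
        · show AE ↥(endA 1 ∩ Strat K_LAM_D C01 K_LAM_m {2})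
          refine K_LAM_L2 (D := {z | 1 < z.re} ∩ {z | z.re < 2}) ((oRe' _).inter (oRe _))
            ((cRe' _).inter (cRe _)) (p := ((3 / 2 : ℝ) : ℂ))
            (by constructor <;> simp <;> norm_num) (by simp) (fun z => ?_)
          rw [K_LAM_e1, mem_inter_iff, K_LAM_strat1, K_LAM_m2]
          constructor
          · rintro ⟨⟨h1, -⟩, h2, h3⟩
            have h1' : ‖z - 5 / 4‖ < 3 / 4 := h1
            rw [q1, nre z h2, abs_lt] at h1'
            exact ⟨h2, h3, by show z.re < 2; linarith [h1'.2]⟩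
          · rintro ⟨h2, h3, h4⟩
            have h3' : 1 < z.re := h3
            have h4' : z.re < 2 := h4
            refine ⟨⟨?_, ?_⟩, h2, h3⟩
            · show ‖z - 5 / 4‖ < 3 / 4
              rw [q1, nre z h2, abs_lt]
              constructor <;> linarith
            · rintro rfl; simp at h3'
      · -- end 2
        fin_cases s
        · show AE ↥(endA 2 ∩ Strat K_LAM_D C01 K_LAM_m {0})
          refine K_LAM_L2 (D := {z | z.re < -1}) (oRe _) (cRe _) (p := ((-2 : ℝ) : ℂ))
            (by show (((-2 : ℝ) : ℂ)).re < -1; simp) (by simp) (fun z => ?_)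
          rw [K_LAM_e2, mem_inter_iff, K_LAM_strat1, K_LAM_m0]
          constructor
          · rintro ⟨h1, h2, h3⟩
            have h1' : 3 / 2 < ‖z - 1 / 2‖ := h1
            have h3' : z.re < 0 := h3
            rw [q2, nre z h2, lt_abs] at h1'
            refine ⟨h2, ?_⟩
            show z.re < -1
            rcases h1' with h | h <;> linarith
          · rintro ⟨h2, h3⟩
            have h3' : z.re < -1 := h3
            refine ⟨?_, h2, by show z.re < 0; linarith⟩
            show 3 / 2 < ‖z - 1 / 2‖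
            rw [q2, nre z h2, lt_abs]
            exact Or.inr (by linarith)
        · exact absurd hsT (by simp)
        · show AE ↥(endA 2 ∩ Strat K_LAM_D C01 K_LAM_m {2})
          refine K_LAM_L2 (D := {z | 2 < z.re}) (oRe' _) (cRe' _) (p := ((3 : ℝ) : ℂ))
            (by show 2 < (((3 : ℝ) : ℂ)).re; simp; norm_num) (by simp) (fun z => ?_)
          rw [K_LAM_e2, mem_inter_iff, K_LAM_strat1, K_LAM_m2]
          constructor
          · rintro ⟨h1, h2, h3⟩
            have h1' : 3 / 2 < ‖z - 1 / 2‖ := h1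
            have h3' : 1 < z.re := h3
            rw [q2, nre z h2, lt_abs] at h1'
            refine ⟨h2, ?_⟩
            show 2 < z.re
            rcases h1' with h | h <;> linarith
          · rintro ⟨h2, h3⟩
            have h3' : 2 < z.re := h3
            refine ⟨?_, h2, by show 1 < z.re; linarith⟩
            show 3 / 2 < ‖z - 1 / 2‖
            rw [q2, nre z h2, lt_abs]
            exact Or.inl (by linarith)

end Pool.KT
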