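import Pool.Agent.Work.MP_70ab54_kt.InterfaceK

/-!
# MP_70ab54: the six sheeted covering with total space `E6` (helper35)
-/

set_option autoImplicit false

namespace Pool.KT

open Set Complex Topology Filter
open scoped ContDiff

/-- the inverse of `e6` -/
noncomputable def i6 (p : ℂ × ℂ) : ℂ × ℂ := (p.2 - p.1, (-2 * p.1 - p.2) / (p.2 - p.1))

theorem disc_sy (p : ℂ × ℂ) : 4 * (sy p).1 ^ 3 - 27 * (sy p).2 ^ 2 =
    ((p.2 - p.1) * (-2 * p.1 - p.2) * (-p.1 - 2 * p.2)) ^ 2 := by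
  simp only [sy]
  ring

theorem sy_mem_iff (p : ℂ × ℂ) : sy p ∈ Dset ↔
    p.2 - p.1 ≠ 0 ∧ -2 * p.1 - p.2 ≠ 0 ∧ -p.1 - 2 * p.2 ≠ 0 := by
  have h := disc_sy p
  have h2 : sy p ∈ Dset ↔ 4 * (sy p).1 ^ 3 - 27 * (sy p).2 ^ 2 ≠ 0 := by
    simp only [Dset, mem_ofPred_eq, ne_eq, sub_eq_zero]
  rw [h2, h]
  simp only [ne_eq, pow_eq_zero_iff, OfNat.ofNat_ne_zero, not_false_eq_true, mul_eq_zero,
    not_or, and_assoc]

theorem e6_mem (q : ℂ × ℂ) (hq : q ∈ E6) : sy (e6 q) ∈ Dset := by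
  obtain ⟨h1, h2, h3⟩ := hq
  rw [sy_mem_iff]
  have e1 : (e6 q).2 - (e6 q).1 = q.1 := by simp only [e6]; ring
  have e2 : -2 * (e6 q).1 - (e6 q).2 = q.1 * q.2 := by simp only [e6]; ring
  have e3 : -(e6 q).1 - 2 * (e6 q).2 = q.1 * (q.2 - 1) := by simp only [e6]; ring
  rw [e1, e2, e3]
  exact ⟨h1, mul_ne_zero h1 h2, mul_ne_zero h1 (sub_ne_zero.2 h3)⟩

theorem i6_mem (p : ℂ × ℂ) (hp : sy p ∈ Dset) : i6 p ∈ E6 := by
  obtain ⟨h1, h2, h3⟩ := (sy_mem_iff p).1 hp
  refine ⟨h1, div_ne_zero h2 h1, ?_⟩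
  simp only [i6]
  intro h
  rw [div_eq_one_iff_eq h1] at h
  apply h3
  linear_combination h

theorem i6_e6 (q : ℂ × ℂ) (hq : q ∈ E6) : i6 (e6 q) = q := by
  have h1 : q.1 ≠ 0 := hq.1
  have e1 : (e6 q).2 - (e6 q).1 = q.1 := by simp only [e6]; ring
  have e2 : -2 * (e6 q).1 - (e6 q).2 = q.1 * q.2 := by simp only [e6]; ring
  simp only [i6, e1, e2]
  ext1
  · rfl
  · simp only
    field_simp

theorem e6_i6 (p : ℂ × ℂ) (hp : sy p ∈ Dset) : e6 (i6 p) = p := by
  obtain ⟨h1, h2, h3⟩ := (sy_mem_iff p).1 hp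
  simp only [i6, e6]
  ext1
  · simp only
    field_simp
    ring
  · simp only
    field_simp
    ring

/-- `E6` is the space of ordered triples of distinct roots with sum zero -/
noncomputable def h6 : ↥E6 ≃ₜ ↥(sy ⁻¹' Dset) where
  toFun q := ⟨e6 q, e6_mem q q.2⟩
  invFun p := ⟨i6 p, i6_mem p p.2⟩
  left_inv q := Subtype.ext (i6_e6 q q.2)
  right_inv p := Subtype.ext (e6_i6 p p.2)
  continuous_toFun := by
    refine Continuous.subtype_mk ?_ _
    simp only [e6]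
    fun_prop
  continuous_invFun := by
    refine Continuous.subtype_mk ?_ _
    simp only [i6]
    refine Continuous.prodMk (by fun_prop) ?_
    refine Continuous.div (by fun_prop) (by fun_prop) ?_
    intro p
    exact ((sy_mem_iff p).1 p.2).1

theorem stmt_K_M6 (hSY : Stmt_K_SY) : Stmt_K_M6 := by
  obtain ⟨c1, c2⟩ := hSY
  have c3 := c1.isCoveringMap_restrictPreimage
  have c4 := c3.comp_homeomorph h6
  refine ⟨Dset.restrictPreimage sy ∘ h6, fun q => rfl, c4, ?_, ?_⟩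
  · intro y
    obtain ⟨p, hp⟩ := (c2 y y.2).2
    have hp' : sy p = y := hp
    have hp2 : sy p ∈ Dset := by rw [hp']; exact y.2
    refine ⟨h6.symm ⟨p, hp2⟩, ?_⟩
    apply Subtype.ext
    simp only [Function.comp_apply, Homeomorph.apply_symm_apply, restrictPreimage_coe]
    exact hp'
  · intro y
    have hf := (c2 y y.2).1
    have hinj : Function.Injective (fun q : ↥E6 => e6 q) := by
      intro a b hab
      apply h6.injective
      exact Subtype.ext hab
    refine (hf.preimage (f := fun q : ↥E6 => e6 q) hinj.injOn).subset ?_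
    intro q hq
    have hq' : Dset.restrictPreimage sy (h6 q) = y := hq
    show sy (e6 q) = y
    rw [← hq']
    rfl

end Pool.KT
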