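import Pool.Agent.Work.MP_70ab54_kt.InterfaceK

/-!
# MP_70ab54, block K_NU (helper68)

The round tubes in spherical coordinates.
-/

set_option autoImplicit false

namespace Pool.KT

open Set Complex Topology Filter
open scoped ContDiff

lemma K_NU_nonneg (x : R3) : 0 ≤ nsq x := by
  unfold nsq; positivity

lemma K_NU_pos (x : R3) : 0 < nsq x + 1 := by
  have := K_NU_nonneg x; linarith

lemma K_NU_cont : Continuous nsq := by
  unfold nsq
  fun_prop

lemma K_NU_snd_sq (x : R3) :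
    ‖(ist x).2‖ ^ 2 = ((2 * x.2) ^ 2 + (nsq x - 1) ^ 2) / (nsq x + 1) ^ 2 := by
  have h0 : (nsq x + 1) ≠ 0 := (K_NU_pos x).ne'
  have e : (ist x).2 = (2 * (x.2 : ℂ) + I * ((nsq x - 1 : ℝ) : ℂ)) / ((nsq x + 1 : ℝ) : ℂ) := rfl
  rw [e, norm_div, div_pow]
  congr 1
  · rw [← Complex.normSq_eq_norm_sq, Complex.normSq_apply]
    simp
    ring
  · rw [Complex.norm_real, Real.norm_eq_abs, sq_abs]

lemma K_NU_mem (ε : ℝ) (x : R3) (hε : 0 < ε) : x ∈ nu ε ↔ ‖(ist x).2‖ < ε := by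
  have h0 := K_NU_pos x
  rw [← sq_lt_sq₀ (norm_nonneg _) hε.le, K_NU_snd_sq, div_lt_iff₀ (by positivity)]
  rfl

lemma K_NU_ucirc (x : R3) : x ∈ Ucirc ↔ (ist x).2 = 0 := by
  have h0 := K_NU_pos x
  rw [← norm_eq_zero, ← pow_eq_zero_iff (two_ne_zero), K_NU_snd_sq, div_eq_zero_iff]
  constructor
  · rintro ⟨h1, h2⟩
    left
    have : nsq x = 1 := by unfold nsq; rw [h1, h2]; norm_num
    rw [this, h2]; norm_num
  · rintro (h | h)
    · have h1 : x.2 = 0 := by nlinarith [sq_nonneg (2 * x.2), sq_nonneg (nsq x - 1)]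
      have h2 : nsq x = 1 := by nlinarith [sq_nonneg (2 * x.2), sq_nonneg (nsq x - 1)]
      refine ⟨?_, h1⟩
      unfold nsq at h2
      rw [h1] at h2
      have h3 : ‖x.1‖ ^ 2 = 1 := by linarith
      exact (pow_eq_one_iff_of_nonneg (norm_nonneg _) two_ne_zero).1 h3
    · exfalso
      have : 0 < (nsq x + 1) ^ 2 := by positivity
      linarith

lemma K_NU_open (ε : ℝ) : IsOpen (nu ε) := by
  have h1 : Continuous fun x : R3 => (2 * x.2) ^ 2 + (nsq x - 1) ^ 2 :=
    ((continuous_const.mul continuous_snd).pow 2).add ((K_NU_cont.sub continuous_const).pow 2)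
  have h2 : Continuous fun x : R3 => ε ^ 2 * (nsq x + 1) ^ 2 :=
    continuous_const.mul ((K_NU_cont.add continuous_const).pow 2)
  exact isOpen_lt h1 h2

lemma K_NU_closed : IsClosed Ucirc := by
  have h1 : IsClosed {x : R3 | ‖x.1‖ = 1} :=
    isClosed_eq (continuous_norm.comp continuous_fst) continuous_const
  have h2 : IsClosed {x : R3 | x.2 = 0} := isClosed_eq continuous_snd continuous_const
  exact h1.inter h2

lemma K_NU_norm_sq_le (x : R3) : ‖x‖ ^ 2 ≤ nsq x := by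
  have h : ‖x‖ = max ‖x.1‖ ‖x.2‖ := rfl
  rw [h]
  rcases le_total ‖x.1‖ ‖x.2‖ with h1 | h1
  · rw [max_eq_right h1, Real.norm_eq_abs, sq_abs]
    unfold nsq
    nlinarith [sq_nonneg ‖x.1‖]
  · rw [max_eq_left h1]
    unfold nsq
    nlinarith [sq_nonneg x.2]

theorem stmt_K_NU (h1 : Stmt_K_ST) : Stmt_K_NU := by
  obtain ⟨-, -, -, -, -, hist, -, -, -⟩ := h1
  refine ⟨K_NU_open, K_NU_mem, K_NU_ucirc, K_NU_closed, ?_⟩
  intro W hW hU
  have hcont : Continuous fun x : R3 => ‖(ist x).2‖ := continuous_norm.comp (hist.snd)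
  set K : Set R3 := {x : R3 | ‖(ist x).2‖ ≤ 1 / 2} \ W with hK
  have hKc : IsClosed K := (isClosed_le hcont continuous_const).sdiff hW
  have hKb : K ⊆ Metric.closedBall (0 : R3) 2 := by
    intro x hx
    have h2 : ‖(ist x).2‖ ≤ 1 / 2 := hx.1
    rw [mem_closedBall_zero_iff]
    have h3 : ‖(ist x).2‖ ^ 2 ≤ (1 / 2) ^ 2 := by
      exact pow_le_pow_left₀ (norm_nonneg _) h2 2
    have h0 := K_NU_pos x
    rw [K_NU_snd_sq, div_le_iff₀ (by positivity)] at h3
    have h4 := K_NU_norm_sq_le x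
    have h5 : nsq x ≤ 3 := by nlinarith [sq_nonneg (2 * x.2), K_NU_nonneg x]
    nlinarith [norm_nonneg x]
  have hcomp : IsCompact K := (isCompact_closedBall (0 : R3) 2).of_isClosed_subset hKc hKb
  rcases K.eq_empty_or_nonempty with he | hne
  · refine ⟨1 / 2, by norm_num, by norm_num, ?_⟩
    intro ε hε hε2 x hx
    by_contra hcon
    have : x ∈ K := ⟨((K_NU_mem ε x hε).1 hx).le.trans hε2, hcon⟩
    rw [he] at this
    exact this
  · obtain ⟨x0, hx0, hmin⟩ := hcomp.exists_isMinOn hne hcont.continuousOn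
    have hm : 0 < ‖(ist x0).2‖ := by
      rw [norm_pos_iff]
      intro h
      exact hx0.2 (hU ((K_NU_ucirc x0).2 h))
    refine ⟨min (1 / 2) ‖(ist x0).2‖, lt_min (by norm_num) hm,
      (min_le_left _ _).trans_lt (by norm_num), ?_⟩
    intro ε hε hε2 x hx
    by_contra hcon
    have h6 := (K_NU_mem ε x hε).1 hx
    have h7 : x ∈ K := ⟨h6.le.trans (hε2.trans (min_le_left _ _)), hcon⟩
    have h8 : ‖(ist x0).2‖ ≤ ‖(ist x).2‖ := hmin h7
    have h9 := hε2.trans (min_le_right (1 / 2) ‖(ist x0).2‖)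
    linarith

end Pool.KT
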