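import Pool.Agent.Work.MP_70ab54_kt.InterfaceK

/-!
# MP_70ab54: the punctured tube is path connected (helper35)
-/

set_option autoImplicit false

namespace Pool.KT

open Set Complex Topology Filter
open scoped ContDiff

theorem stmt_K_NUC (hST : Stmt_K_ST) (hNU : Stmt_K_NU) : Stmt_K_NUC := by
  obtain ⟨s1, s2, -, -, -, -, s7, s8, -⟩ := hST
  obtain ⟨-, n2, n3, -, -⟩ := hNU
  intro ε h0 h1
  have key : nu ε \ Ucirc = st '' ((fun q : (ℂ × ℂ) × ℝ =>
      (((Real.sqrt (1 - q.2 ^ 2) : ℝ) : ℂ) * q.1.1, (q.2 : ℂ) * q.1.2)) ''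
      ((Metric.sphere (0 : ℂ) 1 ×ˢ Metric.sphere (0 : ℂ) 1) ×ˢ Ioo (0 : ℝ) ε)) := by
    ext x
    constructor
    · rintro ⟨hx1, hx2⟩
      have a1 : ‖(ist x).2‖ < ε := (n2 ε x h0).1 hx1
      have a2 : (ist x).2 ≠ 0 := fun h => hx2 ((n3 x).2 h)
      have a3 : ‖(ist x).1‖ ^ 2 + ‖(ist x).2‖ ^ 2 = 1 := (s1 x).1
      have a4 : 0 < ‖(ist x).2‖ := norm_pos_iff.2 a2
      have a5 : 0 < ‖(ist x).1‖ := by
        rcases (norm_nonneg (ist x).1).lt_or_eq with h | h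
        · exact h
        · rw [← h] at a3
          nlinarith
      have a6 : Real.sqrt (1 - ‖(ist x).2‖ ^ 2) = ‖(ist x).1‖ := by
        rw [show 1 - ‖(ist x).2‖ ^ 2 = ‖(ist x).1‖ ^ 2 by linarith]
        exact Real.sqrt_sq a5.le
      refine ⟨ist x, ⟨(((ist x).1 / (‖(ist x).1‖ : ℂ), (ist x).2 / (‖(ist x).2‖ : ℂ)),
        ‖(ist x).2‖), ⟨⟨?_, ?_⟩, a4, a1⟩, ?_⟩, (s1 x).2.2⟩
      · simp only [mem_sphere_zero_iff_norm, norm_div, Complex.norm_real, norm_norm]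
        exact div_self a5.ne'
      · simp only [mem_sphere_zero_iff_norm, norm_div, Complex.norm_real, norm_norm]
        exact div_self a4.ne'
      · simp only [a6]
        have b1 : ((‖(ist x).1‖ : ℝ) : ℂ) ≠ 0 := by exact_mod_cast a5.ne'
        have b2 : ((‖(ist x).2‖ : ℝ) : ℂ) ≠ 0 := by exact_mod_cast a4.ne'
        ext1
        · simp only
          field_simp
        · simp only
          field_simp
    · rintro ⟨p, ⟨⟨⟨u, v⟩, t⟩, ⟨⟨hu, hv⟩, ht⟩, rfl⟩, rfl⟩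
      simp only [mem_sphere_zero_iff_norm, mem_Ioo] at hu hv ht
      set p : ℂ × ℂ := (((Real.sqrt (1 - t ^ 2) : ℝ) : ℂ) * u, (t : ℂ) * v) with hp
      have c1 : ‖p.2‖ = t := by
        simp only [hp, norm_mul, Complex.norm_real, hv, mul_one, Real.norm_eq_abs]
        exact abs_of_pos ht.1
      have c2 : ‖p.1‖ ^ 2 = 1 - t ^ 2 := by
        simp only [hp, norm_mul, Complex.norm_real, hu, mul_one, Real.norm_eq_abs, sq_abs]
        exact Real.sq_sqrt (by nlinarith [ht.1, ht.2])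
      have c3 : p ∈ S3 := by
        show ‖p.1‖ ^ 2 + ‖p.2‖ ^ 2 = 1
        rw [c1, c2]
        ring
      have c4 : p ≠ pole := by
        intro h
        have : ‖p.2‖ = 1 := by rw [h]; simp [pole]
        linarith [ht.2]
      have c5 : ist (st p) = p := s2 p c3 c4
      refine ⟨(n2 ε _ h0).2 ?_, fun h => ?_⟩
      · show ‖(ist (st p)).2‖ < ε
        rw [c5, c1]
        exact ht.2
      · have h' : (ist (st p)).2 = 0 := (n3 _).1 h
        rw [c5] at h'
        rw [h', norm_zero] at c1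
        linarith [ht.1]
  rw [key]
  have r1 : 1 < Module.rank ℝ ℂ := by
    rw [Complex.rank_real_complex]
    norm_num
  have pc : IsPathConnected (Metric.sphere (0 : ℂ) 1) := isPathConnected_sphere r1 0 zero_le_one
  have pc2 : IsPathConnected ((Metric.sphere (0 : ℂ) 1 ×ˢ Metric.sphere (0 : ℂ) 1) ×ˢ
      Ioo (0 : ℝ) ε) :=
    (pc.prod pc).prod ((convex_Ioo 0 ε).isPathConnected ⟨ε / 2, by constructor <;> linarith⟩)
  have pc3 := pc2.image' (f := fun q : (ℂ × ℂ) × ℝ =>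
      (((Real.sqrt (1 - q.2 ^ 2) : ℝ) : ℂ) * q.1.1, (q.2 : ℂ) * q.1.2)) (by
    apply Continuous.continuousOn
    fun_prop)
  refine pc3.image' (s7.mono ?_)
  rintro p ⟨⟨⟨u, v⟩, t⟩, ⟨⟨hu, hv⟩, ht⟩, rfl⟩
  simp only [mem_sphere_zero_iff_norm, mem_Ioo] at hu hv ht
  apply s8
  · show ‖_‖ ^ 2 + ‖_‖ ^ 2 = (1 : ℝ)
    simp only [norm_mul, Complex.norm_real, hu, hv, mul_one, Real.norm_eq_abs, sq_abs]
    rw [Real.sq_sqrt (by nlinarith [ht.1, ht.2])]
    ring
  · intro h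
    have h2 := congrArg (fun z : ℂ × ℂ => ‖z.2‖) h
    simp only [norm_mul, Complex.norm_real, hv, mul_one, Real.norm_eq_abs, pole,
      Complex.norm_I, abs_of_pos ht.1] at h2
    linarith [ht.2]

end Pool.KT
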