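import Pool.Agent.Work.MP_70ab54_kt.K_STD

/-! # MP_70ab54: block K_POL (helper57) -/

set_option autoImplicit false

namespace Pool.KT

open Set Complex Topology Filter
open scoped ContDiff

theorem Ucirc_closed_h57 : IsClosed Ucirc := by
  have h1 : IsClosed {x : R3 | ‖x.1‖ = 1} :=
    isClosed_eq (continuous_norm.comp continuous_fst) continuous_const
  have h2 : IsClosed {x : R3 | x.2 = 0} := isClosed_eq continuous_snd continuous_const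
  exact h1.inter h2

theorem ist_snd_ne_h57 (x : R3) (hx : x ∉ Ucirc) : (ist x).2 ≠ 0 := by
  intro h
  have h' : (2 * (x.2 : ℂ) + I * ((nsq x - 1 : ℝ) : ℂ)) / ((nsq x + 1 : ℝ) : ℂ) = 0 := h
  have hn := nsq_nonneg_h57 x
  have hne : ((nsq x + 1 : ℝ) : ℂ) ≠ 0 := by
    exact_mod_cast (by linarith : (0:ℝ) < nsq x + 1).ne'
  have h2 : 2 * (x.2 : ℂ) + I * ((nsq x - 1 : ℝ) : ℂ) = 0 := by
    rcases div_eq_zero_iff.1 h' with h3 | h3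
    · exact h3
    · exact absurd h3 hne
  have hre := congrArg Complex.re h2
  have him := congrArg Complex.im h2
  simp at hre him
  have hs : x.2 = 0 := hre
  have hN : nsq x = 1 := by linarith
  refine hx ⟨?_, hs⟩
  unfold nsq at hN
  rw [hs] at hN
  have h4 : ‖x.1‖ ^ 2 = 1 := by linarith
  have h5 : 0 ≤ ‖x.1‖ := norm_nonneg _
  nlinarith

/-- general form -/
theorem pol_aux_h57 (φ : R3 → ℂ × ℂ) (ψ : ℂ × ℂ → R3) (hφ : ContDiff ℝ ∞ φ)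
    (hS : ∀ x, φ x ∈ S3) (h2 : ∀ x ∉ Ucirc, (φ x).2 ≠ 0)
    (hψ : ∀ x, DifferentiableAt ℝ ψ (φ x)) (hψφ : ∀ x, ψ (φ x) = x) :
    LocDiffOn (fun q : ℝ × R3 => (((q.1 : ℂ) * (polar (φ q.2)).1, (polar (φ q.2)).2) : ℂ × ℂ))
      {q | 0 < q.1 ∧ q.2 ∉ Ucirc} := by
  have hrho : ∀ x, rho (φ x) = 1 := by
    intro x
    have : ‖(φ x).1‖ ^ 2 + ‖(φ x).2‖ ^ 2 = 1 := hS x
    unfold rho
    rw [this, Real.sqrt_one]
  have hne : ∀ x, φ x ≠ 0 := by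
    intro x h0
    have h1 := hrho x
    rw [h0] at h1
    simp [rho] at h1
  have hWo : IsOpen {q : ℝ × R3 | 0 < q.1 ∧ q.2 ∉ Ucirc} :=
    (isOpen_lt continuous_const continuous_fst).inter
      (Ucirc_closed_h57.isOpen_compl.preimage continuous_snd)
  -- value of the map on the set
  have hval : ∀ q : ℝ × R3, 0 < q.1 → q.2 ∉ Ucirc →
      ‖(q.1 : ℂ) * ((φ q.2).2 / ((‖(φ q.2).2‖ : ℝ) : ℂ))‖ = q.1 := by
    intro q hq hq2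
    have hb : 0 < ‖(φ q.2).2‖ := norm_pos_iff.2 (h2 _ hq2)
    rw [norm_mul, norm_div, Complex.norm_real, Complex.norm_real, Real.norm_eq_abs,
      Real.norm_eq_abs, abs_of_pos hq, abs_of_pos hb, div_self hb.ne', mul_one]
  refine locDiffOn_of_leftInv
    (g := fun p : ℂ × ℂ => ((‖p.1‖, ψ (p.2, p.1 / ((‖p.1‖ : ℝ) : ℂ) *
      ((Real.sqrt (1 - ‖p.2‖ ^ 2) : ℝ) : ℂ))) : ℝ × R3)) ?_ hWo ?_ ?_ ?_
  · simp [Complex.finrank_real_complex]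
  · rintro q ⟨hq, hq2⟩
    have hb := h2 _ hq2
    have hφ2 : ContDiffAt ℝ ∞ (fun q : ℝ × R3 => φ q.2) q :=
      (hφ.comp contDiff_snd).contDiffAt
    have b1 : ContDiffAt ℝ ∞ (fun q : ℝ × R3 => (φ q.2).1) q := contDiffAt_fst.comp q hφ2
    have b2 : ContDiffAt ℝ ∞ (fun q : ℝ × R3 => (φ q.2).2) q := contDiffAt_snd.comp q hφ2
    have b3 : ContDiffAt ℝ ∞ (fun q : ℝ × R3 => ‖(φ q.2).2‖) q := b2.norm ℝ hb
    have b4 : ContDiffAt ℝ ∞ (fun q : ℝ × R3 => ((‖(φ q.2).2‖ : ℝ) : ℂ)) q :=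
      ofReal_smooth_h57.contDiffAt.comp q b3
    have b5 : ((‖(φ q.2).2‖ : ℝ) : ℂ) ≠ 0 := by
      exact_mod_cast (norm_pos_iff.2 hb).ne'
    have b6 : ContDiffAt ℝ ∞ (fun q : ℝ × R3 => (q.1 : ℂ)) q :=
      (ofReal_smooth_h57.comp contDiff_fst).contDiffAt
    have b7 : ContDiffAt ℝ ∞ (fun q : ℝ × R3 => rho (φ q.2)) q :=
      ContDiffAt.comp (g := rho) (f := fun q : ℝ × R3 => φ q.2) q
        (rho_smoothAt_h57 (φ q.2) (hne _)) hφ2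
    have b8 : ContDiffAt ℝ ∞ (fun q : ℝ × R3 => ((rho (φ q.2) : ℝ) : ℂ)) q :=
      ofReal_smooth_h57.contDiffAt.comp q b7
    have b9 : ((rho (φ q.2) : ℝ) : ℂ) ≠ 0 := by rw [hrho]; simp
    exact ((b6.mul (divc_h57 b2 b4 b5)).prodMk (divc_h57 b1 b8 b9)).contDiffWithinAt
  · rintro q ⟨hq, hq2⟩
    have hb := h2 _ hq2
    have hbp : 0 < ‖(φ q.2).2‖ := norm_pos_iff.2 hb
    have hl : ‖(q.1 : ℂ) * ((φ q.2).2 / ((‖(φ q.2).2‖ : ℝ) : ℂ))‖ = q.1 := hval q hq hq2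
    set l : ℂ := (q.1 : ℂ) * ((φ q.2).2 / ((‖(φ q.2).2‖ : ℝ) : ℂ)) with hldef
    have hl0 : l ≠ 0 := by
      rw [← norm_pos_iff, hl]; exact hq
    set η : ℂ := (φ q.2).1 / ((rho (φ q.2) : ℝ) : ℂ) with hηdef
    have hη : η = (φ q.2).1 := by rw [hηdef, hrho]; simp
    have hS' : ‖(φ q.2).1‖ ^ 2 + ‖(φ q.2).2‖ ^ 2 = 1 := hS q.2
    have hη1 : 0 < 1 - ‖η‖ ^ 2 := by
      rw [hη]
      have : 0 < ‖(φ q.2).2‖ ^ 2 := by positivity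
      linarith
    have hsq : Real.sqrt (1 - ‖η‖ ^ 2) = ‖(φ q.2).2‖ := by
      rw [hη]
      have : 1 - ‖(φ q.2).1‖ ^ 2 = ‖(φ q.2).2‖ ^ 2 := by linarith
      rw [this, Real.sqrt_sq hbp.le]
    have hpt : (η, l / ((‖l‖ : ℝ) : ℂ) * ((Real.sqrt (1 - ‖η‖ ^ 2) : ℝ) : ℂ)) = φ q.2 := by
      refine Prod.ext hη ?_
      show l / ((‖l‖ : ℝ) : ℂ) * ((Real.sqrt (1 - ‖η‖ ^ 2) : ℝ) : ℂ) = (φ q.2).2
      rw [hsq, hl, hldef]
      have h1 : (q.1 : ℂ) ≠ 0 := by exact_mod_cast hq.ne'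
      have h3 : ((‖(φ q.2).2‖ : ℝ) : ℂ) ≠ 0 := by exact_mod_cast hbp.ne'
      field_simp
    have c1 : DifferentiableAt ℝ (fun p : ℂ × ℂ => ‖p.1‖) ((l, η) : ℂ × ℂ) := by
      have : ContDiffAt ℝ ∞ (fun p : ℂ × ℂ => ‖p.1‖) ((l, η) : ℂ × ℂ) :=
        contDiffAt_fst.norm ℝ hl0
      exact this.differentiableAt (by simp)
    have c2 : DifferentiableAt ℝ (fun p : ℂ × ℂ => ((p.2, p.1 / ((‖p.1‖ : ℝ) : ℂ) *
        ((Real.sqrt (1 - ‖p.2‖ ^ 2) : ℝ) : ℂ)) : ℂ × ℂ)) ((l, η) : ℂ × ℂ) := by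
      have d1 : ContDiffAt ℝ ∞ (fun p : ℂ × ℂ => ‖p.1‖) ((l, η) : ℂ × ℂ) :=
        contDiffAt_fst.norm ℝ hl0
      have d2 : ContDiffAt ℝ ∞ (fun p : ℂ × ℂ => ((‖p.1‖ : ℝ) : ℂ)) ((l, η) : ℂ × ℂ) :=
        ofReal_smooth_h57.contDiffAt.comp _ d1
      have d3 : ((‖((l, η) : ℂ × ℂ).1‖ : ℝ) : ℂ) ≠ 0 := by
        exact_mod_cast (norm_pos_iff.2 hl0).ne'
      have d4 : ContDiffAt ℝ ∞ (fun p : ℂ × ℂ => 1 - ‖p.2‖ ^ 2) ((l, η) : ℂ × ℂ) := by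
        have : ContDiff ℝ ∞ (fun p : ℂ × ℂ => ‖p.2‖ ^ 2) :=
          (contDiff_norm_sq ℝ).comp contDiff_snd
        exact (contDiff_const.sub this).contDiffAt
      have d5 : ContDiffAt ℝ ∞ (fun p : ℂ × ℂ => Real.sqrt (1 - ‖p.2‖ ^ 2))
          ((l, η) : ℂ × ℂ) := d4.sqrt hη1.ne'
      have d6 : ContDiffAt ℝ ∞ (fun p : ℂ × ℂ => ((Real.sqrt (1 - ‖p.2‖ ^ 2) : ℝ) : ℂ))
          ((l, η) : ℂ × ℂ) := ofReal_smooth_h57.contDiffAt.comp _ d5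
      have d7 := contDiffAt_snd.prodMk ((divc_h57 contDiffAt_fst d2 d3).mul d6)
      exact d7.differentiableAt (by simp)
    have c3 : DifferentiableAt ℝ ψ (η, l / ((‖l‖ : ℝ) : ℂ) *
        ((Real.sqrt (1 - ‖η‖ ^ 2) : ℝ) : ℂ)) := by
      rw [hpt]; exact hψ q.2
    have c4 : DifferentiableAt ℝ (fun p : ℂ × ℂ => ψ (p.2, p.1 / ((‖p.1‖ : ℝ) : ℂ) *
        ((Real.sqrt (1 - ‖p.2‖ ^ 2) : ℝ) : ℂ))) ((l, η) : ℂ × ℂ) :=
      DifferentiableAt.comp ((l, η) : ℂ × ℂ) c3 c2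
    exact c1.prodMk c4
  · rintro q ⟨hq, hq2⟩
    have hb := h2 _ hq2
    have hbp : 0 < ‖(φ q.2).2‖ := norm_pos_iff.2 hb
    have hl := hval q hq hq2
    have hS' : ‖(φ q.2).1‖ ^ 2 + ‖(φ q.2).2‖ ^ 2 = 1 := hS q.2
    refine Prod.ext hl ?_
    show ψ ((φ q.2).1 / ((rho (φ q.2) : ℝ) : ℂ),
      ((q.1 : ℂ) * ((φ q.2).2 / ((‖(φ q.2).2‖ : ℝ) : ℂ))) /
      ((‖(q.1 : ℂ) * ((φ q.2).2 / ((‖(φ q.2).2‖ : ℝ) : ℂ))‖ : ℝ) : ℂ) *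
        ((Real.sqrt (1 - ‖(φ q.2).1 / ((rho (φ q.2) : ℝ) : ℂ)‖ ^ 2) : ℝ) : ℂ)) = q.2
    have hη : (φ q.2).1 / ((rho (φ q.2) : ℝ) : ℂ) = (φ q.2).1 := by rw [hrho]; simp
    have hsq : Real.sqrt (1 - ‖(φ q.2).1‖ ^ 2) = ‖(φ q.2).2‖ := by
      have : 1 - ‖(φ q.2).1‖ ^ 2 = ‖(φ q.2).2‖ ^ 2 := by linarith
      rw [this, Real.sqrt_sq hbp.le]
    rw [hl, hη, hsq]
    have h1 : (q.1 : ℂ) ≠ 0 := by exact_mod_cast hq.ne'
    have h3 : ((‖(φ q.2).2‖ : ℝ) : ℂ) ≠ 0 := by exact_mod_cast hbp.ne'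
    have e1 : ((q.1 : ℂ) * ((φ q.2).2 / ((‖(φ q.2).2‖ : ℝ) : ℂ))) / (q.1 : ℂ) *
        ((‖(φ q.2).2‖ : ℝ) : ℂ) = (φ q.2).2 := by
      field_simp
    rw [e1]
    exact hψφ q.2

theorem cj_smooth_h57 : ContDiff ℝ ∞ cj := by
  have : ContDiff ℝ ∞ (fun p : ℂ × ℂ => (starRingEnd ℂ) p.2) :=
    (Complex.conjCLE.contDiff).comp contDiff_snd
  exact contDiff_fst.prodMk this

theorem cj_cj_h57 (p : ℂ × ℂ) : cj (cj p) = p := by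
  simp [cj]

theorem stmt_K_POL (h : Stmt_K_ST) : Stmt_K_POL := by
  have hist : ∀ x, DifferentiableAt ℝ st (ist x) := by
    intro x
    have h1 := h.1 x
    exact (st_smoothAt_h57 _ (h.2.2.2.2.2.2.2.1 _ h1.1 h1.2.1)).differentiableAt (by simp)
  rintro φ (rfl | rfl)
  · exact pol_aux_h57 ist st ist_smooth_h57 (fun x => (h.1 x).1) ist_snd_ne_h57 hist
      (fun x => (h.1 x).2.2)
  · refine pol_aux_h57 (fun x => cj (ist x)) (fun p => st (cj p))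
      (cj_smooth_h57.comp ist_smooth_h57) ?_ ?_ ?_ ?_
    · intro x
      have : ‖(ist x).1‖ ^ 2 + ‖(ist x).2‖ ^ 2 = 1 := (h.1 x).1
      show ‖(ist x).1‖ ^ 2 + ‖(starRingEnd ℂ) (ist x).2‖ ^ 2 = 1
      rw [RCLike.norm_conj]
      exact this
    · intro x hx h0
      have h1 : (starRingEnd ℂ) (ist x).2 = 0 := h0
      exact ist_snd_ne_h57 x hx (by simpa using h1)
    · intro x
      have h1 : DifferentiableAt ℝ st (cj (cj (ist x))) := by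
        rw [cj_cj_h57]; exact hist x
      exact DifferentiableAt.comp (cj (ist x)) h1
        ((cj_smooth_h57.differentiable (by simp)) _)
    · intro x
      show st (cj (cj (ist x))) = x
      rw [cj_cj_h57]
      exact (h.1 x).2.2

end Pool.KT
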