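import Pool.Agent.Work.MP_70ab54_kt.InterfaceK

/-! Block K_PROD (helper29): products of covering maps. -/

set_option autoImplicit false

namespace Pool.KT

open Set Topology

theorem stmt_K_PROD : Stmt_K_PROD := by
  intro E Y E' Y' _ _ _ _ p q hp hq x
  obtain ⟨x, x'⟩ := x
  obtain ⟨i1, U, hxU, hU, hpU, H, hH⟩ := hp x
  obtain ⟨i2, V, hxV, hV, hqV, K, hK⟩ := hq x'
  refine IsEvenlyCovered.to_isEvenlyCovered_preimage (I := (p ⁻¹' {x}) × (q ⁻¹' {x'})) ?_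
  refine ⟨inferInstance, U ×ˢ V, ⟨hxU, hxV⟩, hU.prod hV, hpU.prod hqV, ?_⟩
  refine ⟨{ toFun := fun e => (⟨((H ⟨e.1.1, e.2.1⟩).1.1, (K ⟨e.1.2, e.2.2⟩).1.1),
              (H ⟨e.1.1, e.2.1⟩).1.2, (K ⟨e.1.2, e.2.2⟩).1.2⟩,
              ((H ⟨e.1.1, e.2.1⟩).2, (K ⟨e.1.2, e.2.2⟩).2))
            invFun := fun z => ⟨((H.symm (⟨z.1.1.1, z.1.2.1⟩, z.2.1)).1,
              (K.symm (⟨z.1.1.2, z.1.2.2⟩, z.2.2)).1),
              (H.symm (⟨z.1.1.1, z.1.2.1⟩, z.2.1)).2, (K.symm (⟨z.1.1.2, z.1.2.2⟩, z.2.2)).2⟩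
            left_inv := ?_
            right_inv := ?_
            continuous_toFun := ?_
            continuous_invFun := ?_ }, ?_⟩
  · intro e
    simp
  · intro z
    simp
  · fun_prop
  · fun_prop
  · intro e
    simp only [Homeomorph.homeomorph_mk_coe, Equiv.coe_fn_mk, hH, hK]
    rfl

end Pool.KT
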