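import Pool.Agent.Work.MP_70ab54_kt.InterfaceK

/-!
# MP_70ab54: block K_Q1 (helper47): good cover of the discriminant complement
-/

set_option autoImplicit false

namespace Pool.KT

open Set Complex Topology

/-- nonzero numbers times the doubly punctured plane -/
def e6homeo : {z : ℂ // z ≠ 0} × ↥C01 ≃ₜ ↥E6 where
  toFun x := ⟨(x.1.1, x.2.1), x.1.2, x.2.2.1, x.2.2.2⟩
  invFun y := (⟨y.1.1, y.2.1⟩, ⟨y.1.2, y.2.2.1, y.2.2.2⟩)
  left_inv _ := rfl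
  right_inv _ := rfl
  continuous_toFun := by
    apply Continuous.subtype_mk
    fun_prop
  continuous_invFun := by
    apply Continuous.prodMk
    · apply Continuous.subtype_mk
      fun_prop
    · apply Continuous.subtype_mk
      fun_prop

theorem stmt_K_Q1 (hC : Stmt_K_COMP) (hP : Stmt_K_PROD) (hM : Stmt_K_M6) (hT : Stmt_K_TA)
    (hL : Stmt_K_LAM) : Stmt_K_Q1 := by
  obtain ⟨R₀, iR, q₀, hq, hqs, hR, hE⟩ := hL
  obtain ⟨m, hm, hmc, hms, hmf⟩ := hM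
  obtain ⟨h1, h2, h3, h4⟩ := hT
  let p1 : ℂ × R₀ → {z : ℂ // z ≠ 0} × ↥C01 :=
    Prod.map (fun z : ℂ ↦ (⟨_, z.exp_ne_zero⟩ : {z : ℂ // z ≠ 0})) q₀
  have hp1 : IsCoveringMap p1 := hP ℂ {z : ℂ // z ≠ 0} R₀ ↥C01 _ q₀ Complex.isCoveringMap_exp hq
  have hp2 : IsCoveringMap (e6homeo ∘ p1) := hp1.homeomorph_comp e6homeo
  have hp3 : IsCoveringMap (m ∘ (e6homeo ∘ p1)) :=
    hC (ℂ × R₀) ↥E6 ↥Dset (e6homeo ∘ p1) m hp2 hmc hmf
  have hs1 : Function.Surjective p1 := by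
    rintro ⟨z, w⟩
    obtain ⟨r, rfl⟩ := hqs w
    exact ⟨(Complex.log z, r), Prod.ext (Subtype.ext (Complex.exp_log z.2)) rfl⟩
  refine ⟨ℂ × R₀, inferInstance, m ∘ (e6homeo ∘ p1), hp3,
    hms.comp (e6homeo.surjective.comp hs1), AE.prod (ae_of_tietze ℂ) hR, fun _ => ?_⟩
  have key : ∀ x : ℂ × R₀, (((m ∘ (e6homeo ∘ p1)) x : ↥Dset) : ℂ × ℂ) ∈ tcone ↔
      ∃ i, ((q₀ x.2 : ↥C01) : ℂ) ∈ endA i := by
    intro x
    have := h1 _ (e6homeo (p1 x)).2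
    rw [← hm] at this
    exact this
  apply LAE.of_cover
  rintro ⟨x, hx⟩
  obtain ⟨i, hi⟩ := (key x).1 hx
  set T : Set (ℂ × R₀) := {r : ℂ × R₀ | (((m ∘ (e6homeo ∘ p1)) r : ↥Dset) : ℂ × ℂ) ∈ tcone} with hT
  have hcont : Continuous (fun y : ↥T => ((q₀ (y : ℂ × R₀).2 : ↥C01) : ℂ)) :=
    continuous_subtype_val.comp (hq.continuous.comp (continuous_snd.comp continuous_subtype_val))
  refine ⟨{y : ↥T | ((q₀ (y : ℂ × R₀).2 : ↥C01) : ℂ) ∈ endA i}, hi, ⟨?_, ?_⟩, ?_⟩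
  · rw [← isOpen_compl_iff]
    have hc : {y : ↥T | ((q₀ (y : ℂ × R₀).2 : ↥C01) : ℂ) ∈ endA i}ᶜ =
        ⋃ j : {j : Fin 3 // j ≠ i}, (fun y : ↥T => ((q₀ (y : ℂ × R₀).2 : ↥C01) : ℂ)) ⁻¹' endA j := by
      ext y
      simp only [mem_compl_iff, mem_setOf_eq, mem_iUnion, mem_preimage]
      constructor
      · intro hy
        obtain ⟨j, hj⟩ := (key y).1 y.2
        refine ⟨⟨j, ?_⟩, hj⟩
        rintro rfl
        exact hy hj
      · rintro ⟨⟨j, hji⟩, hj⟩ hy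
        exact (h4 j i hji).le_bot ⟨hj, hy⟩
    rw [hc]
    exact isOpen_iUnion fun j => (h2 j).preimage hcont
  · exact (h2 i).preimage hcont
  · let e : ℂ × ↥{r : R₀ | ((q₀ r : ↥C01) : ℂ) ∈ endA i} ≃ₜ
        ↥{y : ↥T | ((q₀ (y : ℂ × R₀).2 : ↥C01) : ℂ) ∈ endA i} :=
      { toFun := fun x => ⟨⟨(x.1, x.2.1), (key _).2 ⟨i, x.2.2⟩⟩, x.2.2⟩
        invFun := fun y => (y.1.1.1, ⟨y.1.1.2, y.2⟩)
        left_inv := fun _ => rfl
        right_inv := fun _ => rfl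
        continuous_toFun := by
          apply Continuous.subtype_mk
          apply Continuous.subtype_mk
          fun_prop
        continuous_invFun := by
          apply Continuous.prodMk
          · fun_prop
          · apply Continuous.subtype_mk
            fun_prop }
    exact (LAE.prod (ae_of_tietze ℂ).lae (hE i)).homeomorph e

end Pool.KT
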