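import Pool.Agent.Work.MP_70ab54_kt.InterfaceK

/-!
# MP_70ab54, block K_SL: slicing a good cover of `X × ℝ` (helper36)
-/

set_option autoImplicit false

namespace Pool.KT

open Set Topology unitInterval

/-- the slice at height zero -/
def K_SL_T {V : Type} (X : Set V) : Set ↥(X ×ˢ univ : Set (V × ℝ)) := {y | (y : V × ℝ).2 = 0}

/-- the slice at height zero is `X` -/
def K_SL_g {V : Type} [TopologicalSpace V] (X : Set V) : ↥(K_SL_T X) ≃ₜ ↥X where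
  toFun y := ⟨y.1.1.1, y.1.2.1⟩
  invFun x := ⟨⟨((x : V), (0 : ℝ)), ⟨x.2, mem_univ _⟩⟩, rfl⟩
  left_inv y := by
    obtain ⟨⟨⟨v, s⟩, hv⟩, hs⟩ := y
    have : s = 0 := hs
    subst this
    rfl
  right_inv x := rfl
  continuous_toFun := by fun_prop
  continuous_invFun := by fun_prop

theorem stmt_K_SL : Stmt_K_SL := by
  intro V _ X ι E hG
  obtain ⟨R, tR, q, hq, hsurj, hAE, hLAE⟩ := hG
  have hqc : Continuous q := hq.continuous
  let q0 : ↥(q ⁻¹' K_SL_T X) → ↥X := K_SL_g X ∘ (K_SL_T X).restrictPreimage q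
  have hq0 : IsCoveringMap q0 := (hq.restrictPreimage (K_SL_T X)).homeomorph_comp (K_SL_g X)
  have hq0v : ∀ a, (q0 a : V) = (q a.1 : V × ℝ).1 := fun a => rfl
  let H : C(I × R, ↥(X ×ˢ univ : Set (V × ℝ))) :=
    ⟨fun z => ⟨((q z.2 : V × ℝ).1, (1 - (z.1 : ℝ)) * (q z.2 : V × ℝ).2),
      ⟨(q z.2).2.1, mem_univ _⟩⟩, by fun_prop⟩
  have H0 : ∀ a, H (0, a) = q a := by
    intro a
    refine Subtype.ext (Prod.ext rfl ?_)
    simp [H]
  let L : C(I × R, R) := hq.liftHomotopy H (ContinuousMap.id R) H0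
  have hL : ∀ z, q (L z) = H z := fun z => congrFun (hq.liftHomotopy_lifts H _ H0) z
  have hL0 : ∀ a, L (0, a) = a := fun a => hq.liftHomotopy_zero H _ H0 a
  have hLc : ∀ a : R, (q a : V × ℝ).2 = 0 → L (1, a) = a := by
    intro a ha
    have hc := hq.const_of_comp (g := fun s : I => L (s, a)) (by fun_prop)
      (fun s s' => by
        rw [hL, hL]
        refine Subtype.ext (Prod.ext rfl ?_)
        simp [H, ha]) 1 0
    simpa [hL0] using hc
  have hL1 : ∀ z, (q (L z) : V × ℝ).1 = (q z.2 : V × ℝ).1 := by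
    intro z; rw [hL]; rfl
  have hL2 : ∀ a, (q (L (1, a)) : V × ℝ).2 = 0 := by
    intro a; rw [hL]; simp [H]
  let i : C(↥(q ⁻¹' K_SL_T X), R) := ⟨Subtype.val, continuous_subtype_val⟩
  let r : C(R, ↥(q ⁻¹' K_SL_T X)) := ⟨fun a => ⟨L (1, a), hL2 a⟩, by fun_prop⟩
  have hri : ∀ y, r (i y) = y := fun y => Subtype.ext (hLc y.1 y.2)
  refine ⟨↥(q ⁻¹' K_SL_T X), inferInstance, q0, hq0, ?_, hAE.of_retract i r hri, ?_⟩
  · intro x
    obtain ⟨a, ha⟩ := hsurj ⟨((x : V), (0 : ℝ)), ⟨x.2, mem_univ _⟩⟩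
    refine ⟨⟨a, ?_⟩, ?_⟩
    · show (q a : V × ℝ).2 = 0
      rw [ha]
    · refine Subtype.ext ?_
      rw [hq0v, ha]
  · intro k
    refine (hLAE k).of_retract (Z' := ↥{r : ↥(q ⁻¹' K_SL_T X) | (q0 r : V) ∈ E k})
      ⟨fun y => ⟨y.1.1, ⟨y.2, mem_univ _⟩⟩, by fun_prop⟩
      ⟨fun a => ⟨r a.1, by
        show (q0 (r a.1) : V) ∈ E k
        rw [hq0v]
        show (q (L (1, a.1)) : V × ℝ).1 ∈ E k
        rw [hL1]
        exact a.2.1⟩, by fun_prop⟩ ?_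
    intro y
    exact Subtype.ext (hri y.1)

end Pool.KT
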