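import Pool.Agent.Work.MP_70ab54_kt.InterfaceK

/-!
# MP_70ab54: the discriminant complement is a product (helper89)

`p` is sent to `(nrm (Th p), log (rho (Th p)))`; the inverse is `(q, t) ↦ Th⁻¹ (e ^ t q)`.
-/

set_option autoImplicit false

namespace Pool.KT

open Set Complex Topology Filter

/-- inverse of `Th` -/
noncomputable def K_SLH_inv (p : ℂ × ℂ) : ℂ × ℂ := (p.1 * ((‖p.1‖ ^ (-(1 / 3) : ℝ) : ℝ) : ℂ), p.2)

theorem K_SLH_rho_nonneg (p : ℂ × ℂ) : 0 ≤ rho p := Real.sqrt_nonneg _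

theorem K_SLH_rho_pos {p : ℂ × ℂ} (hp : p ≠ 0) : 0 < rho p := by
  unfold rho
  apply Real.sqrt_pos.2
  by_contra hcon
  push Not at hcon
  have h1 : ‖p.1‖ ^ 2 = 0 := le_antisymm (by nlinarith [sq_nonneg ‖p.2‖]) (sq_nonneg _)
  have h2 : ‖p.2‖ ^ 2 = 0 := le_antisymm (by nlinarith [sq_nonneg ‖p.1‖]) (sq_nonneg _)
  apply hp
  have h3 : p.1 = 0 := by simpa using h1
  have h4 : p.2 = 0 := by simpa using h2
  exact Prod.ext h3 h4

theorem K_SLH_rho_smul (t : ℝ) (ht : 0 < t) (p : ℂ × ℂ) : rho (t • p) = t * rho p := by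
  unfold rho
  rw [Prod.smul_fst, Prod.smul_snd, norm_smul, norm_smul, Real.norm_of_nonneg ht.le]
  rw [show (t * ‖p.1‖) ^ 2 + (t * ‖p.2‖) ^ 2 = t ^ 2 * (‖p.1‖ ^ 2 + ‖p.2‖ ^ 2) by ring,
    Real.sqrt_mul (sq_nonneg t), Real.sqrt_sq ht.le]

theorem K_SLH_nrm_eq (p : ℂ × ℂ) : nrm p = (rho p)⁻¹ • p := by
  unfold nrm
  refine Prod.ext ?_ ?_
  · simp only [Prod.smul_fst, Complex.real_smul, Complex.ofReal_inv]
    rw [div_eq_inv_mul]
  · simp only [Prod.smul_snd, Complex.real_smul, Complex.ofReal_inv]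
    rw [div_eq_inv_mul]

theorem K_SLH_nrm_smul (t : ℝ) (ht : 0 < t) (p : ℂ × ℂ) : nrm (t • p) = nrm p := by
  rw [K_SLH_nrm_eq, K_SLH_nrm_eq, K_SLH_rho_smul t ht, smul_smul, mul_inv, mul_comm t⁻¹,
    mul_assoc, inv_mul_cancel₀ ht.ne', mul_one]

theorem K_SLH_nrm_rho {p : ℂ × ℂ} (hp : p ≠ 0) : rho p • nrm p = p := by
  rw [K_SLH_nrm_eq, smul_smul, mul_inv_cancel₀ (K_SLH_rho_pos hp).ne', one_smul]

theorem K_SLH_rho_S3 {p : ℂ × ℂ} (hp : p ∈ S3) : rho p = 1 := by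
  unfold rho
  have h : ‖p.1‖ ^ 2 + ‖p.2‖ ^ 2 = 1 := hp
  rw [h, Real.sqrt_one]

theorem K_SLH_nrm_S3 {p : ℂ × ℂ} (hp : p ∈ S3) : nrm p = p := by
  rw [K_SLH_nrm_eq, K_SLH_rho_S3 hp, inv_one, one_smul]

theorem K_SLH_ne_of_S3 {p : ℂ × ℂ} (hp : p ∈ S3) : p ≠ 0 := by
  rintro rfl
  have h : ‖(0 : ℂ × ℂ).1‖ ^ 2 + ‖(0 : ℂ × ℂ).2‖ ^ 2 = 1 := hp
  simp at h

theorem K_SLH_mem_S3 {p : ℂ × ℂ} (hp : p ≠ 0) : nrm p ∈ S3 := by
  have h1 : rho (nrm p) = 1 := by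
    rw [K_SLH_nrm_eq, K_SLH_rho_smul _ (inv_pos.2 (K_SLH_rho_pos hp)),
      inv_mul_cancel₀ (K_SLH_rho_pos hp).ne']
  unfold rho at h1
  have h2 : ‖(nrm p).1‖ ^ 2 + ‖(nrm p).2‖ ^ 2 = 1 := by
    rw [Real.sqrt_eq_one] at h1
    exact h1
  exact h2

theorem K_SLH_inv_Th (p : ℂ × ℂ) : K_SLH_inv (Th p) = p := by
  unfold K_SLH_inv Th
  refine Prod.ext ?_ rfl
  simp only
  rcases eq_or_ne p.1 0 with h | h
  · rw [h]; simp
  · have hn : 0 < ‖p.1‖ := norm_pos_iff.2 h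
    have h1 : ‖p.1 * ((Real.sqrt ‖p.1‖ : ℝ) : ℂ)‖ = ‖p.1‖ ^ (3 / 2 : ℝ) := by
      rw [norm_mul, Complex.norm_real, Real.norm_of_nonneg (Real.sqrt_nonneg _), Real.sqrt_eq_rpow]
      nth_rewrite 1 [← Real.rpow_one ‖p.1‖]
      rw [← Real.rpow_add hn]
      norm_num
    rw [h1, ← Real.rpow_mul hn.le, mul_assoc, ← Complex.ofReal_mul, Real.sqrt_eq_rpow,
      ← Real.rpow_add hn]
    norm_num

theorem K_SLH_Th_inv (p : ℂ × ℂ) : Th (K_SLH_inv p) = p := by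
  unfold K_SLH_inv Th
  refine Prod.ext ?_ rfl
  simp only
  rcases eq_or_ne p.1 0 with h | h
  · rw [h]; simp
  · have hn : 0 < ‖p.1‖ := norm_pos_iff.2 h
    have h1 : ‖p.1 * ((‖p.1‖ ^ (-(1 / 3) : ℝ) : ℝ) : ℂ)‖ = ‖p.1‖ ^ (2 / 3 : ℝ) := by
      rw [norm_mul, Complex.norm_real, Real.norm_of_nonneg (by positivity)]
      nth_rewrite 1 [← Real.rpow_one ‖p.1‖]
      rw [← Real.rpow_add hn]
      norm_num
    rw [h1, Real.sqrt_eq_rpow, ← Real.rpow_mul hn.le, mul_assoc, ← Complex.ofReal_mul,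
      ← Real.rpow_add hn]
    norm_num

theorem K_SLH_Th_zero : Th (0 : ℂ × ℂ) = 0 := by
  unfold Th
  simp

theorem K_SLH_Th_ne {p : ℂ × ℂ} (hp : p ≠ 0) : Th p ≠ 0 := by
  intro h
  apply hp
  rw [← K_SLH_inv_Th p, h]
  unfold K_SLH_inv
  simp

theorem K_SLH_inv_ne {p : ℂ × ℂ} (hp : p ≠ 0) : K_SLH_inv p ≠ 0 := by
  intro h
  apply hp
  rw [← K_SLH_Th_inv p, h, K_SLH_Th_zero]

/-- weighted homogeneity -/
theorem K_SLH_Th_tub (t : ℝ) (ht : 0 < t) (l η : ℂ) :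
    Th (tub ((t : ℂ) * l) η) = (t ^ 3) • Th (tub l η) := by
  unfold Th tub
  refine Prod.ext ?_ ?_
  · simp only [Prod.smul_fst, Complex.real_smul]
    have h1 : ‖((t : ℂ) * l) ^ 2 * (3 + η)‖ = t ^ 2 * ‖l ^ 2 * (3 + η)‖ := by
      rw [mul_pow, mul_assoc, norm_mul, norm_pow, Complex.norm_real, Real.norm_of_nonneg ht.le]
    rw [h1, Real.sqrt_mul (sq_nonneg t), Real.sqrt_sq ht.le]
    push_cast
    ring
  · simp only [Prod.smul_snd, Complex.real_smul]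
    push_cast
    ring

theorem K_SLH_tub_ne {l η : ℂ} (hl : l ≠ 0) (hη : ‖η‖ < 1) : tub l η ≠ 0 := by
  intro h
  have h1 : l ^ 2 * (3 + η) = 0 := congrArg Prod.fst h
  rcases mul_eq_zero.1 h1 with h2 | h2
  · exact hl (by simpa using h2)
  · have h3 : η = -3 := by linear_combination h2
    rw [h3] at hη
    norm_num at hη

theorem K_SLH_kap {l η : ℂ} (hl : l ≠ 0) :
    nrm (Th (tub l η)) = kap (l / ((‖l‖ : ℝ) : ℂ)) η := by
  have hn : 0 < ‖l‖ := norm_pos_iff.2 hl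
  have hn' : ((‖l‖ : ℝ) : ℂ) ≠ 0 := by exact_mod_cast hn.ne'
  unfold kap
  have h1 : l = ((‖l‖ : ℝ) : ℂ) * (l / ((‖l‖ : ℝ) : ℂ)) := by
    field_simp
  nth_rewrite 1 [h1]
  rw [K_SLH_Th_tub _ hn, K_SLH_nrm_smul _ (by positivity)]

theorem K_SLH_of_kap {p : ℂ × ℂ} (hp : p ≠ 0) {l η : ℂ} (hl : ‖l‖ = 1) (hη : ‖η‖ < 1)
    (h : nrm (Th p) = kap l η) : ∃ l' : ℂ, l' ≠ 0 ∧ p = tub l' η := by
  have hl0 : l ≠ 0 := by
    rintro rfl
    simp at hl
  have hT : Th (tub l η) ≠ 0 := K_SLH_Th_ne (K_SLH_tub_ne hl0 hη)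
  have hP : Th p ≠ 0 := K_SLH_Th_ne hp
  have h1 := K_SLH_rho_pos hP
  have h2 := K_SLH_rho_pos hT
  set c : ℝ := rho (Th p) / rho (Th (tub l η)) with hc
  have hc0 : 0 < c := by positivity
  have h3 : Th p = c • Th (tub l η) := by
    rw [← K_SLH_nrm_rho hP, h]
    unfold kap
    rw [K_SLH_nrm_eq, smul_smul, ← div_eq_mul_inv]
  set t : ℝ := c ^ (1 / 3 : ℝ) with ht
  have ht0 : 0 < t := by positivity
  have ht3 : t ^ 3 = c := by
    rw [ht, ← Real.rpow_natCast, ← Real.rpow_mul hc0.le]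
    norm_num
  refine ⟨(t : ℂ) * l, mul_ne_zero (by exact_mod_cast ht0.ne') hl0, ?_⟩
  have h4 : Th p = Th (tub ((t : ℂ) * l) η) := by
    rw [K_SLH_Th_tub t ht0, ht3, h3]
  rw [← K_SLH_inv_Th p, h4, K_SLH_inv_Th]

theorem K_SLH_norm_div {l : ℂ} (hl : l ≠ 0) : ‖l / ((‖l‖ : ℝ) : ℂ)‖ = 1 := by
  rw [norm_div, Complex.norm_real, norm_norm, div_self (norm_ne_zero_iff.2 hl)]

theorem K_SLH_Dset_ne {p : ℂ × ℂ} (hp : p ∈ Dset) : p ≠ 0 := by
  rintro rfl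
  apply hp
  simp

/-- the cone over the trefoil is the discriminant -/
theorem K_SLH_Dset {p : ℂ × ℂ} (hp : p ≠ 0) : p ∈ Dset ↔ nrm (Th p) ∉ ctube 0 := by
  constructor
  · rintro hD ⟨l, η, hl, hη, h⟩
    have hη0 : η = 0 := norm_le_zero_iff.1 hη
    subst hη0
    obtain ⟨l', -, h1⟩ := K_SLH_of_kap hp hl (by simp) h
    apply hD
    rw [h1]
    unfold tub
    simp only
    ring
  · intro hN hD
    apply hN
    have h1 : p.1 ≠ 0 := by
      intro h0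
      apply hp
      rw [h0] at hD
      have h2 : p.2 = 0 := by
        have h3 : 27 * p.2 ^ 2 = 0 := by
          rw [← hD]; ring
        have h4 : p.2 ^ 2 = 0 := by
          rcases mul_eq_zero.1 h3 with h5 | h5
          · norm_num at h5
          · exact h5
        simpa using h4
      exact Prod.ext h0 h2
    have h2 : p.2 ≠ 0 := by
      intro h0
      rw [h0] at hD
      have h3 : 4 * p.1 ^ 3 = 0 := by
        rw [hD]; ring
      rcases mul_eq_zero.1 h3 with h5 | h5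
      · norm_num at h5
      · exact h1 (by simpa using h5)
    set l : ℂ := 3 * p.2 / (2 * p.1) with hl
    have hl0 : l ≠ 0 := by
      rw [hl]
      exact div_ne_zero (mul_ne_zero (by norm_num) h2) (mul_ne_zero (by norm_num) h1)
    have hll : l ^ 2 * 3 = p.1 := by
      rw [hl]
      field_simp
      linear_combination -hD
    have hlt : p = tub l 0 := by
      unfold tub
      refine Prod.ext ?_ ?_
      · simp only
        rw [add_zero, hll]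
      · simp only
        have h3 : l * (2 * p.1) = 3 * p.2 := by
          rw [hl]
          field_simp
        rw [sub_zero, mul_one]
        linear_combination (-(2 / 3) * l) * hll - (1 / 3) * h3
    refine ⟨l / ((‖l‖ : ℝ) : ℂ), 0, K_SLH_norm_div hl0, by simp, ?_⟩
    rw [← K_SLH_kap hl0, ← hlt]

theorem K_SLH_tcone {p : ℂ × ℂ} (hp : p ≠ 0) : p ∈ tcone ↔ nrm (Th p) ∈ ptube 0 := by
  constructor
  · rintro ⟨l, η, hl, hη0, hη, rfl⟩
    exact ⟨l / ((‖l‖ : ℝ) : ℂ), η, K_SLH_norm_div hl, norm_pos_iff.2 hη0, hη, K_SLH_kap hl⟩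
  · rintro ⟨l, η, hl, hη0, hη, h⟩
    obtain ⟨l', h0, h1⟩ := K_SLH_of_kap hp hl hη h
    exact ⟨l', η, h0, norm_pos_iff.1 hη0, hη, h1⟩

theorem K_SLH_cont_rho : Continuous rho := by
  unfold rho
  fun_prop

theorem K_SLH_cont_Th : Continuous Th := by
  unfold Th
  have h1 : Continuous fun p : ℂ × ℂ => ((Real.sqrt ‖p.1‖ : ℝ) : ℂ) :=
    Complex.continuous_ofReal.comp (Real.continuous_sqrt.comp (continuous_norm.comp continuous_fst))
  exact (continuous_fst.mul h1).prodMk continuous_snd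

theorem K_SLH_cont_aux : Continuous fun a : ℂ => a * ((‖a‖ ^ (-(1 / 3) : ℝ) : ℝ) : ℂ) := by
  rw [continuous_iff_continuousAt]
  intro a
  rcases eq_or_ne a 0 with h | h
  · subst h
    have h0 : (0 : ℂ) * ((‖(0 : ℂ)‖ ^ (-(1 / 3) : ℝ) : ℝ) : ℂ) = 0 := zero_mul _
    change Tendsto (fun a : ℂ => a * ((‖a‖ ^ (-(1 / 3) : ℝ) : ℝ) : ℂ)) (𝓝 0)
      (𝓝 ((0 : ℂ) * ((‖(0 : ℂ)‖ ^ (-(1 / 3) : ℝ) : ℝ) : ℂ)))
    rw [h0, tendsto_zero_iff_norm_tendsto_zero]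
    have h1 : (fun a : ℂ => ‖a * ((‖a‖ ^ (-(1 / 3) : ℝ) : ℝ) : ℂ)‖) = fun a => ‖a‖ ^ (2 / 3 : ℝ) := by
      funext a
      rcases eq_or_ne a 0 with h | h
      · rw [h]
        norm_num
      · have hn : 0 < ‖a‖ := norm_pos_iff.2 h
        rw [norm_mul, Complex.norm_real, Real.norm_of_nonneg (by positivity)]
        nth_rewrite 1 [← Real.rpow_one ‖a‖]
        rw [← Real.rpow_add hn]
        norm_num
    rw [h1]
    have h2 : Continuous fun a : ℂ => ‖a‖ ^ (2 / 3 : ℝ) :=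
      continuous_norm.rpow_const (fun _ => Or.inr (by norm_num))
    have h3 := h2.tendsto 0
    simpa using h3
  · have h1 : ContinuousAt (fun a : ℂ => ‖a‖ ^ (-(1 / 3) : ℝ)) a :=
      continuous_norm.continuousAt.rpow_const (Or.inl (norm_ne_zero_iff.2 h))
    exact continuousAt_id.mul (Complex.continuous_ofReal.continuousAt.comp h1)

theorem K_SLH_cont_inv : Continuous K_SLH_inv := by
  unfold K_SLH_inv
  exact (K_SLH_cont_aux.comp continuous_fst).prodMk continuous_snd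

theorem K_SLH_rexp_ne {p : ℂ × ℂ} (hp : p ≠ 0) (t : ℝ) : Real.exp t • p ≠ 0 :=
  smul_ne_zero (Real.exp_pos t).ne' hp

/-- the homeomorphism -/
noncomputable def K_SLH_homeo : ↥Dset ≃ₜ ↥((S3 \ ctube 0) ×ˢ univ : Set ((ℂ × ℂ) × ℝ)) where
  toFun p := ⟨(nrm (Th p), Real.log (rho (Th p))),
    ⟨⟨K_SLH_mem_S3 (K_SLH_Th_ne (K_SLH_Dset_ne p.2)),
      (K_SLH_Dset (K_SLH_Dset_ne p.2)).1 p.2⟩, mem_univ _⟩⟩
  invFun x := ⟨K_SLH_inv (Real.exp (x : (ℂ × ℂ) × ℝ).2 • (x : (ℂ × ℂ) × ℝ).1), by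
    have hx := x.2.1
    have h0 := K_SLH_ne_of_S3 hx.1
    rw [K_SLH_Dset (K_SLH_inv_ne (K_SLH_rexp_ne h0 _)), K_SLH_Th_inv,
      K_SLH_nrm_smul _ (Real.exp_pos _), K_SLH_nrm_S3 hx.1]
    exact hx.2⟩
  left_inv p := by
    have h0 := K_SLH_Th_ne (K_SLH_Dset_ne p.2)
    apply Subtype.ext
    simp only
    rw [Real.exp_log (K_SLH_rho_pos h0), K_SLH_nrm_rho h0, K_SLH_inv_Th]
  right_inv x := by
    have hx := x.2.1
    have h0 := K_SLH_ne_of_S3 hx.1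
    apply Subtype.ext
    refine Prod.ext ?_ ?_
    · simp only
      rw [K_SLH_Th_inv, K_SLH_nrm_smul _ (Real.exp_pos _), K_SLH_nrm_S3 hx.1]
    · simp only
      rw [K_SLH_Th_inv, K_SLH_rho_smul _ (Real.exp_pos _), K_SLH_rho_S3 hx.1, mul_one,
        Real.log_exp]
  continuous_toFun := by
    have hT : Continuous fun p : ↥Dset => Th (p : ℂ × ℂ) := K_SLH_cont_Th.comp continuous_subtype_val
    have hr : Continuous fun p : ↥Dset => rho (Th (p : ℂ × ℂ)) := K_SLH_cont_rho.comp hT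
    have hne : ∀ p : ↥Dset, rho (Th (p : ℂ × ℂ)) ≠ 0 := fun p =>
      (K_SLH_rho_pos (K_SLH_Th_ne (K_SLH_Dset_ne p.2))).ne'
    have hn : Continuous fun p : ↥Dset => nrm (Th (p : ℂ × ℂ)) := by
      simp only [K_SLH_nrm_eq]
      exact (hr.inv₀ hne).smul hT
    exact (hn.prodMk (hr.log hne)).subtype_mk _
  continuous_invFun := by
    refine Continuous.subtype_mk ?_ _
    refine K_SLH_cont_inv.comp ?_
    exact (Real.continuous_exp.comp (continuous_snd.comp continuous_subtype_val)).smul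
      (continuous_fst.comp continuous_subtype_val)

theorem stmt_K_SLH : Stmt_K_SLH := by
  refine ⟨K_SLH_homeo, fun p => ?_⟩
  have h0 := K_SLH_Dset_ne p.2
  rw [K_SLH_tcone h0]
  constructor
  · intro h
    exact ⟨h, mem_univ _⟩
  · intro h
    exact h.1

end Pool.KT
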