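import Pool.Agent.Work.MP_70ab54_kt.InterfaceK

/-!
# MP_70ab54, block K_ST (helper68)

Algebra and continuity of the stereographic projection.
-/

set_option autoImplicit false

namespace Pool.KT

open Set Complex Topology Filter
open scoped ContDiff

lemma K_ST_nsq_nonneg (x : R3) : 0 ≤ nsq x := by
  unfold nsq; positivity

lemma K_ST_pos (x : R3) : 0 < nsq x + 1 := by
  have := K_ST_nsq_nonneg x; linarith

lemma K_ST_nsq_pos {x : R3} (hx : x ≠ 0) : 0 < nsq x := by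
  rcases (K_ST_nsq_nonneg x).lt_or_eq with h | h
  · exact h
  · exfalso
    apply hx
    have h1 : ‖x.1‖ ^ 2 + x.2 ^ 2 = 0 := h.symm
    have h2 : ‖x.1‖ ^ 2 = 0 := by nlinarith [sq_nonneg ‖x.1‖, sq_nonneg x.2]
    have h3 : x.2 ^ 2 = 0 := by nlinarith [sq_nonneg ‖x.1‖, sq_nonneg x.2]
    have h4 : x.1 = 0 := by
      have := pow_eq_zero_iff (two_ne_zero) |>.1 h2
      exact norm_eq_zero.1 this
    have h5 : x.2 = 0 := pow_eq_zero_iff (two_ne_zero) |>.1 h3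
    exact Prod.ext h4 h5

/-- the second coordinate of `ist`, squared norm -/
lemma K_ST_snd_sq (x : R3) :
    ‖(ist x).2‖ ^ 2 = ((2 * x.2) ^ 2 + (nsq x - 1) ^ 2) / (nsq x + 1) ^ 2 := by
  have h0 : (nsq x + 1) ≠ 0 := (K_ST_pos x).ne'
  have e : (ist x).2 = (2 * (x.2 : ℂ) + I * ((nsq x - 1 : ℝ) : ℂ)) / ((nsq x + 1 : ℝ) : ℂ) := rfl
  rw [e, norm_div, div_pow]
  congr 1
  · rw [← Complex.normSq_eq_norm_sq, Complex.normSq_apply]
    simp
    ring
  · rw [Complex.norm_real, Real.norm_eq_abs, sq_abs]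

lemma K_ST_fst_sq (x : R3) :
    ‖(ist x).1‖ ^ 2 = 4 * ‖x.1‖ ^ 2 / (nsq x + 1) ^ 2 := by
  have e : (ist x).1 = 2 * x.1 / ((nsq x + 1 : ℝ) : ℂ) := rfl
  rw [e, norm_div, div_pow, norm_mul, mul_pow]
  congr 1
  · norm_num
  · rw [Complex.norm_real, Real.norm_eq_abs, sq_abs]

lemma K_ST_snd_re (x : R3) : (ist x).2.re = 2 * x.2 / (nsq x + 1) := by
  have e : (ist x).2 = (2 * (x.2 : ℂ) + I * ((nsq x - 1 : ℝ) : ℂ)) / ((nsq x + 1 : ℝ) : ℂ) := rfl
  rw [e, Complex.div_ofReal_re]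
  simp

lemma K_ST_snd_im (x : R3) : (ist x).2.im = (nsq x - 1) / (nsq x + 1) := by
  have e : (ist x).2 = (2 * (x.2 : ℂ) + I * ((nsq x - 1 : ℝ) : ℂ)) / ((nsq x + 1 : ℝ) : ℂ) := rfl
  rw [e, Complex.div_ofReal_im]
  simp

lemma K_ST_mem (x : R3) : ist x ∈ S3 := by
  have h0 : (nsq x + 1) ≠ 0 := (K_ST_pos x).ne'
  show ‖(ist x).1‖ ^ 2 + ‖(ist x).2‖ ^ 2 = 1
  rw [K_ST_snd_sq, K_ST_fst_sq, ← add_div, div_eq_one_iff_eq (by positivity)]
  have : nsq x = ‖x.1‖ ^ 2 + x.2 ^ 2 := rfl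
  rw [this]; ring

lemma K_ST_ne_pole (x : R3) : ist x ≠ pole := by
  intro h
  have h1 : (ist x).2.im = 1 := by rw [h]; simp [pole]
  rw [K_ST_snd_im, div_eq_one_iff_eq (K_ST_pos x).ne'] at h1
  linarith

lemma K_ST_rho_of_mem {p : ℂ × ℂ} (hp : p ∈ S3) : rho p = 1 := by
  have : ‖p.1‖ ^ 2 + ‖p.2‖ ^ 2 = 1 := hp
  unfold rho
  rw [this, Real.sqrt_one]

lemma K_ST_left (x : R3) : st (ist x) = x := by
  have h0 : (nsq x + 1) ≠ 0 := (K_ST_pos x).ne'
  have hr : rho (ist x) - (ist x).2.im = 2 / (nsq x + 1) := by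
    rw [K_ST_rho_of_mem (K_ST_mem x), K_ST_snd_im]
    field_simp
    ring
  have h2 : ((2 / (nsq x + 1) : ℝ) : ℂ) ≠ 0 := by
    rw [Ne, Complex.ofReal_eq_zero]; positivity
  refine Prod.ext ?_ ?_
  · show (ist x).1 / ((rho (ist x) - (ist x).2.im : ℝ) : ℂ) = x.1
    rw [hr]
    have e : (ist x).1 = 2 * x.1 / ((nsq x + 1 : ℝ) : ℂ) := rfl
    have h3 : ((nsq x + 1 : ℝ) : ℂ) ≠ 0 := by rw [Ne, Complex.ofReal_eq_zero]; exact h0
    rw [e, div_eq_iff h2, Complex.ofReal_div]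
    field_simp
    simp [mul_comm]
  · show (ist x).2.re / (rho (ist x) - (ist x).2.im) = x.2
    rw [hr, K_ST_snd_re]
    field_simp

lemma K_ST_pos_of_mem {p : ℂ × ℂ} (hp : p ∈ S3) (hne : p ≠ pole) : 0 < rho p - p.2.im := by
  rw [K_ST_rho_of_mem hp]
  have h1 : ‖p.1‖ ^ 2 + ‖p.2‖ ^ 2 = 1 := hp
  have h2 : ‖p.2‖ ^ 2 = p.2.re ^ 2 + p.2.im ^ 2 := by
    rw [← Complex.normSq_eq_norm_sq, Complex.normSq_apply]; ring
  rw [h2] at h1
  by_contra hcon
  push Not at hcon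
  have h3 : p.2.im ≥ 1 := by linarith
  have h4 : p.2.im ^ 2 ≤ 1 := by nlinarith [sq_nonneg ‖p.1‖, sq_nonneg p.2.re]
  have h5 : p.2.im = 1 := by nlinarith
  have h6 : ‖p.1‖ ^ 2 = 0 := by rw [h5] at h1; nlinarith [sq_nonneg ‖p.1‖, sq_nonneg p.2.re]
  have h7 : p.2.re ^ 2 = 0 := by rw [h5] at h1; nlinarith [sq_nonneg ‖p.1‖, sq_nonneg p.2.re]
  apply hne
  refine Prod.ext ?_ ?_
  · exact norm_eq_zero.1 (pow_eq_zero_iff (two_ne_zero) |>.1 h6)
  · apply Complex.ext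
    · show p.2.re = (pole).2.re
      rw [pow_eq_zero_iff (two_ne_zero) |>.1 h7]; simp [pole]
    · show p.2.im = (pole).2.im
      rw [h5]; simp [pole]

lemma K_ST_right {p : ℂ × ℂ} (hp : p ∈ S3) (hne : p ≠ pole) : ist (st p) = p := by
  have hpos := K_ST_pos_of_mem hp hne
  rw [K_ST_rho_of_mem hp] at hpos
  have h1 : ‖p.1‖ ^ 2 + ‖p.2‖ ^ 2 = 1 := hp
  have h2 : ‖p.2‖ ^ 2 = p.2.re ^ 2 + p.2.im ^ 2 := by
    rw [← Complex.normSq_eq_norm_sq, Complex.normSq_apply]; ring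
  rw [h2] at h1
  have hd : (1 - p.2.im) ≠ 0 := hpos.ne'
  have hst1 : (st p).1 = p.1 / ((1 - p.2.im : ℝ) : ℂ) := by
    show p.1 / ((rho p - p.2.im : ℝ) : ℂ) = _
    rw [K_ST_rho_of_mem hp]
  have hst2 : (st p).2 = p.2.re / (1 - p.2.im) := by
    show p.2.re / (rho p - p.2.im) = _
    rw [K_ST_rho_of_mem hp]
  have hN : nsq (st p) = (1 + p.2.im) / (1 - p.2.im) := by
    unfold nsq
    rw [hst1, hst2, norm_div, div_pow, Complex.norm_real, Real.norm_eq_abs, sq_abs, div_pow,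
      ← add_div, div_eq_div_iff (by positivity) hd]
    have : ‖p.1‖ ^ 2 = 1 - (p.2.re ^ 2 + p.2.im ^ 2) := by linarith
    rw [this]; ring
  have hN1 : nsq (st p) + 1 = 2 / (1 - p.2.im) := by
    rw [hN]; field_simp; ring
  have hN2 : nsq (st p) - 1 = 2 * p.2.im / (1 - p.2.im) := by
    rw [hN]; field_simp; ring
  have hdC : ((1 - p.2.im : ℝ) : ℂ) ≠ 0 := by rw [Ne, Complex.ofReal_eq_zero]; exact hd
  refine Prod.ext ?_ ?_
  · show 2 * (st p).1 / ((nsq (st p) + 1 : ℝ) : ℂ) = p.1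
    rw [hN1, hst1, Complex.ofReal_div]
    have : ((2 : ℝ) : ℂ) = 2 := by norm_num
    rw [this]
    field_simp
  · apply Complex.ext
    · rw [K_ST_snd_re, hN1, hst2]; field_simp
    · rw [K_ST_snd_im, hN1, hN2]; field_simp

lemma K_ST_rho_smul (p : ℂ × ℂ) (t : ℝ) (ht : 0 < t) : rho (t • p) = t * rho p := by
  unfold rho
  have h1 : ‖(t • p).1‖ = t * ‖p.1‖ := by
    show ‖t • p.1‖ = _
    rw [norm_smul, Real.norm_eq_abs, abs_of_pos ht]
  have h2 : ‖(t • p).2‖ = t * ‖p.2‖ := by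
    show ‖t • p.2‖ = _
    rw [norm_smul, Real.norm_eq_abs, abs_of_pos ht]
  rw [h1, h2]
  have : (t * ‖p.1‖) ^ 2 + (t * ‖p.2‖) ^ 2 = t ^ 2 * (‖p.1‖ ^ 2 + ‖p.2‖ ^ 2) := by ring
  rw [this, Real.sqrt_mul (by positivity), Real.sqrt_sq ht.le]

lemma K_ST_smul (p : ℂ × ℂ) (t : ℝ) (ht : 0 < t) : st (t • p) = st p := by
  have hr := K_ST_rho_smul p t ht
  have him : (t • p).2.im = t * p.2.im := by
    show (t • p.2).im = _
    simp
  have hre : (t • p).2.re = t * p.2.re := by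
    show (t • p.2).re = _
    simp
  refine Prod.ext ?_ ?_
  · show (t • p).1 / ((rho (t • p) - (t • p).2.im : ℝ) : ℂ) = p.1 / ((rho p - p.2.im : ℝ) : ℂ)
    rw [hr, him, ← mul_sub, Complex.ofReal_mul]
    have : (t • p).1 = (t : ℂ) * p.1 := by
      show t • p.1 = _
      simp
    rw [this]
    exact mul_div_mul_left _ _ (by rw [Ne, Complex.ofReal_eq_zero]; exact ht.ne')
  · show (t • p).2.re / (rho (t • p) - (t • p).2.im) = p.2.re / (rho p - p.2.im)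
    rw [hr, him, hre, ← mul_sub]
    exact mul_div_mul_left _ _ ht.ne'

lemma K_ST_nsq_inv {x : R3} (hx : x ≠ 0) : nsq (inv3 x) = (nsq x)⁻¹ := by
  have hN := K_ST_nsq_pos hx
  have e : nsq (inv3 x) = ‖x.1 / ((nsq x : ℝ) : ℂ)‖ ^ 2 + (x.2 / nsq x) ^ 2 := rfl
  rw [e, norm_div, div_pow, Complex.norm_real, Real.norm_eq_abs, sq_abs, div_pow, ← add_div]
  have : ‖x.1‖ ^ 2 + x.2 ^ 2 = nsq x := rfl
  rw [this, sq, div_mul_eq_div_div, div_self hN.ne', one_div]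

lemma K_ST_inv_ne {x : R3} (hx : x ≠ 0) : inv3 x ≠ 0 := by
  intro h
  have h1 := K_ST_nsq_inv hx
  rw [h] at h1
  have h2 : nsq (0 : R3) = 0 := by simp [nsq]
  rw [h2] at h1
  have := K_ST_nsq_pos hx
  have h3 : 0 < (nsq x)⁻¹ := inv_pos.2 this
  linarith

lemma K_ST_inv_inv {x : R3} (hx : x ≠ 0) : inv3 (inv3 x) = x := by
  have hN := K_ST_nsq_pos hx
  have hNC : ((nsq x : ℝ) : ℂ) ≠ 0 := by rw [Ne, Complex.ofReal_eq_zero]; exact hN.ne'
  refine Prod.ext ?_ ?_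
  · show (x.1 / ((nsq x : ℝ) : ℂ)) / ((nsq (inv3 x) : ℝ) : ℂ) = x.1
    rw [K_ST_nsq_inv hx, Complex.ofReal_inv]
    field_simp
  · show (x.2 / nsq x) / nsq (inv3 x) = x.2
    rw [K_ST_nsq_inv hx]
    field_simp

lemma K_ST_ist_inv {x : R3} (hx : x ≠ 0) : ist (inv3 x) = cj (ist x) := by
  have hN := K_ST_nsq_pos hx
  have hNC : ((nsq x : ℝ) : ℂ) ≠ 0 := by rw [Ne, Complex.ofReal_eq_zero]; exact hN.ne'
  have hN1 := K_ST_pos x
  have hN1C : ((nsq x : ℝ) : ℂ) + 1 ≠ 0 := by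
    have : ((nsq x + 1 : ℝ) : ℂ) ≠ 0 := by rw [Ne, Complex.ofReal_eq_zero]; exact hN1.ne'
    simpa using this
  have hN1C' : 1 + ((nsq x : ℝ) : ℂ) ≠ 0 := by rw [add_comm]; exact hN1C
  refine Prod.ext ?_ ?_
  · show 2 * (x.1 / ((nsq x : ℝ) : ℂ)) / ((nsq (inv3 x) + 1 : ℝ) : ℂ)
      = 2 * x.1 / ((nsq x + 1 : ℝ) : ℂ)
    rw [K_ST_nsq_inv hx]
    push_cast
    rw [div_eq_div_iff]
    · field_simp
      ring
    · rw [show ((nsq x : ℝ) : ℂ)⁻¹ + 1 = (1 + ((nsq x : ℝ) : ℂ)) / ((nsq x : ℝ) : ℂ) by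
        field_simp]
      exact div_ne_zero hN1C' hNC
    · exact hN1C
  · apply Complex.ext
    · rw [K_ST_snd_re, K_ST_nsq_inv hx]
      show 2 * (x.2 / nsq x) / ((nsq x)⁻¹ + 1) = ((starRingEnd ℂ) (ist x).2).re
      rw [Complex.conj_re, K_ST_snd_re]
      have : 1 + nsq x ≠ 0 := by linarith [hN1]
      field_simp
      ring
    · rw [K_ST_snd_im, K_ST_nsq_inv hx]
      show ((nsq x)⁻¹ - 1) / ((nsq x)⁻¹ + 1) = ((starRingEnd ℂ) (ist x).2).im
      rw [Complex.conj_im, K_ST_snd_im]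
      have h5 : 1 + nsq x ≠ 0 := by linarith [hN1]
      have h6 : nsq x + 1 ≠ 0 := by linarith [hN1]
      field_simp
      ring

lemma K_ST_nsq_cont : Continuous nsq := by
  unfold nsq
  fun_prop

lemma K_ST_ist_cont : Continuous ist := by
  have h1 : Continuous fun x : R3 => ((nsq x + 1 : ℝ) : ℂ) :=
    Complex.continuous_ofReal.comp (K_ST_nsq_cont.add continuous_const)
  have h2 : Continuous fun x : R3 => ((nsq x - 1 : ℝ) : ℂ) :=
    Complex.continuous_ofReal.comp (K_ST_nsq_cont.sub continuous_const)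
  have h0 : ∀ x : R3, ((nsq x + 1 : ℝ) : ℂ) ≠ 0 := fun x => by
    rw [Ne, Complex.ofReal_eq_zero]; exact (K_ST_pos x).ne'
  have e : ist = fun x : R3 => ((2 * x.1 / ((nsq x + 1 : ℝ) : ℂ),
    (2 * (x.2 : ℂ) + I * ((nsq x - 1 : ℝ) : ℂ)) / ((nsq x + 1 : ℝ) : ℂ)) : ℂ × ℂ) := rfl
  rw [e]
  refine Continuous.prodMk ?_ ?_
  · exact (continuous_const.mul continuous_fst).div h1 h0
  · refine Continuous.div ?_ h1 h0
    exact (continuous_const.mul (Complex.continuous_ofReal.comp continuous_snd)).add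
      (continuous_const.mul h2)

lemma K_ST_rho_cont : Continuous rho := by
  unfold rho
  fun_prop

lemma K_ST_st_cont : ContinuousOn st {p | 0 < rho p - p.2.im} := by
  have h1 : Continuous fun p : ℂ × ℂ => rho p - p.2.im :=
    K_ST_rho_cont.sub (Complex.continuous_im.comp continuous_snd)
  have e : st = fun p : ℂ × ℂ => ((p.1 / ((rho p - p.2.im : ℝ) : ℂ),
    p.2.re / (rho p - p.2.im)) : R3) := rfl
  rw [e]
  refine ContinuousOn.prodMk ?_ ?_
  · refine ContinuousOn.div continuous_fst.continuousOn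
      (Complex.continuous_ofReal.comp h1).continuousOn ?_
    intro p hp
    rw [Ne, Complex.ofReal_eq_zero]
    exact (show 0 < rho p - p.2.im from hp).ne'
  · refine ContinuousOn.div (Complex.continuous_re.comp continuous_snd).continuousOn
      h1.continuousOn ?_
    intro p hp
    exact (show 0 < rho p - p.2.im from hp).ne'

lemma K_ST_norm_sq_le (x : R3) : ‖x‖ ^ 2 ≤ nsq x := by
  have h : ‖x‖ = max ‖x.1‖ ‖x.2‖ := rfl
  rw [h]
  rcases le_total ‖x.1‖ ‖x.2‖ with h1 | h1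
  · rw [max_eq_right h1, Real.norm_eq_abs, sq_abs]
    unfold nsq
    nlinarith [sq_nonneg ‖x.1‖]
  · rw [max_eq_left h1]
    unfold nsq
    nlinarith [sq_nonneg x.2]

lemma K_ST_dist (x : R3) (hx : 0 < ‖x‖) : dist (ist x) pole ≤ 2 / ‖x‖ := by
  have hN := K_ST_norm_sq_le x
  have hN1 := K_ST_pos x
  rw [dist_eq_norm]
  have key : ∀ y : ℝ, 0 ≤ y → y ^ 2 ≤ 4 / (nsq x + 1) → y ≤ 2 / ‖x‖ := by
    intro y hy h
    have h2 : y ^ 2 ≤ (2 / ‖x‖) ^ 2 := by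
      refine h.trans ?_
      rw [div_pow]
      have : (2 : ℝ) ^ 2 = 4 := by norm_num
      rw [this]
      exact div_le_div_of_nonneg_left (by norm_num) (by positivity) (by linarith)
    exact (sq_le_sq₀ hy (by positivity)).1 h2
  have h1 : ‖(ist x - pole).1‖ ≤ 2 / ‖x‖ := by
    have e : (ist x - pole).1 = (ist x).1 := by
      show (ist x).1 - pole.1 = _
      simp [pole]
    rw [e]
    refine key _ (norm_nonneg _) ?_
    rw [K_ST_fst_sq, div_le_div_iff₀ (by positivity) hN1]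
    have : ‖x.1‖ ^ 2 ≤ nsq x := by unfold nsq; nlinarith [sq_nonneg x.2]
    nlinarith
  have h2 : ‖(ist x - pole).2‖ ≤ 2 / ‖x‖ := by
    refine key _ (norm_nonneg _) ?_
    have e : (ist x - pole).2 = (ist x).2 - I := rfl
    rw [e, ← Complex.normSq_eq_norm_sq, Complex.normSq_apply, Complex.sub_re, Complex.sub_im,
      K_ST_snd_re, K_ST_snd_im, Complex.I_re, Complex.I_im]
    have e2 : (nsq x - 1) / (nsq x + 1) - 1 = - 2 / (nsq x + 1) := by
      field_simp; ring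
    rw [e2, sub_zero]
    have e3 : 2 * x.2 / (nsq x + 1) * (2 * x.2 / (nsq x + 1)) +
      -2 / (nsq x + 1) * (-2 / (nsq x + 1)) = (4 * x.2 ^ 2 + 4) / (nsq x + 1) ^ 2 := by
      field_simp; ring
    rw [e3, div_le_div_iff₀ (by positivity) hN1]
    have : x.2 ^ 2 ≤ nsq x := by unfold nsq; nlinarith [sq_nonneg ‖x.1‖]
    nlinarith
  exact max_le h1 h2

lemma K_ST_tendsto : Tendsto ist (cocompact R3) (𝓝 pole) := by
  rw [tendsto_iff_dist_tendsto_zero]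
  have h1 : Tendsto (fun x : R3 => ‖x‖) (cocompact R3) atTop := tendsto_norm_cocompact_atTop
  have h2 : Tendsto (fun x : R3 => 2 / ‖x‖) (cocompact R3) (𝓝 0) :=
    Tendsto.div_atTop tendsto_const_nhds h1
  refine squeeze_zero' (Eventually.of_forall fun x => dist_nonneg) ?_ h2
  filter_upwards [h1.eventually (eventually_gt_atTop 0)] with x hx
  exact K_ST_dist x hx

theorem stmt_K_ST : Stmt_K_ST := by
  refine ⟨fun x => ⟨K_ST_mem x, K_ST_ne_pole x, K_ST_left x⟩, fun p hp hne => K_ST_right hp hne,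
    fun p t ht => K_ST_smul p t ht, fun x hx => ⟨K_ST_ist_inv hx, K_ST_inv_inv hx, K_ST_inv_ne hx⟩,
    ?_, K_ST_ist_cont, K_ST_st_cont, fun p hp hne => K_ST_pos_of_mem hp hne, K_ST_tendsto⟩
  refine Prod.ext ?_ ?_
  · show (ist 0).1 = pole.1
    have : (ist 0).1 = 2 * (0 : R3).1 / ((nsq 0 + 1 : ℝ) : ℂ) := rfl
    rw [this]; simp [pole]
  · apply Complex.ext
    · show ((starRingEnd ℂ) (ist 0).2).re = pole.2.re
      rw [Complex.conj_re, K_ST_snd_re]; simp [pole]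
    · show ((starRingEnd ℂ) (ist 0).2).im = pole.2.im
      rw [Complex.conj_im, K_ST_snd_im]; simp [pole, nsq]

end Pool.KT
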