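import Pool.Agent.Work.MP_70ab54_kt.InterfaceK
import Pool.Agent.Work.MP_70ab54_kt.KLoc

/-! # MP_70ab54: block K_STD (helper57) -/

set_option autoImplicit false

namespace Pool.KT

open Set Complex Topology Filter
open scoped ContDiff

theorem nsq_smooth_h57 : ContDiff ℝ ∞ nsq := by
  have h1 : ContDiff ℝ ∞ (fun x : R3 => ‖x.1‖ ^ 2) := (contDiff_norm_sq ℝ).comp contDiff_fst
  have h2 : ContDiff ℝ ∞ (fun x : R3 => x.2 ^ 2) := contDiff_snd.pow 2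
  exact h1.add h2

theorem nsq_nonneg_h57 (x : R3) : 0 ≤ nsq x := by
  unfold nsq; positivity

theorem nsq_pos_h57 (x : R3) (hx : x ≠ 0) : 0 < nsq x := by
  unfold nsq
  rcases eq_or_ne x.1 0 with h1 | h1
  · have h2 : x.2 ≠ 0 := fun h2 => hx (Prod.ext h1 h2)
    positivity
  · have : 0 < ‖x.1‖ := norm_pos_iff.2 h1
    positivity

theorem ofReal_smooth_h57 : ContDiff ℝ ∞ (fun t : ℝ => (t : ℂ)) := Complex.ofRealCLM.contDiff

theorem divc_h57 {E : Type} [NormedAddCommGroup E] [NormedSpace ℝ E] {f g : E → ℂ} {x : E}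
    (hf : ContDiffAt ℝ ∞ f x) (hg : ContDiffAt ℝ ∞ g x) (h : g x ≠ 0) :
    ContDiffAt ℝ ∞ (fun y => f y / g y) x := by
  simp only [div_eq_mul_inv]
  exact hf.mul (hg.inv h)

theorem divr_h57 {E : Type} [NormedAddCommGroup E] [NormedSpace ℝ E] {f g : E → ℝ} {x : E}
    (hf : ContDiffAt ℝ ∞ f x) (hg : ContDiffAt ℝ ∞ g x) (h : g x ≠ 0) :
    ContDiffAt ℝ ∞ (fun y => f y / g y) x := by
  simp only [div_eq_mul_inv]
  exact hf.mul (hg.inv h)

theorem ist_smooth_h57 : ContDiff ℝ ∞ ist := by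
  have h0 : ContDiff ℝ ∞ (fun x : R3 => ((nsq x + 1 : ℝ) : ℂ)) :=
    ofReal_smooth_h57.comp (nsq_smooth_h57.add contDiff_const)
  have hne : ∀ x : R3, ((nsq x + 1 : ℝ) : ℂ) ≠ 0 := by
    intro x
    have := nsq_nonneg_h57 x
    exact_mod_cast (by linarith : (0:ℝ) < nsq x + 1).ne'
  have h1 : ContDiff ℝ ∞ (fun x : R3 => 2 * x.1 / ((nsq x + 1 : ℝ) : ℂ)) := by
    have := (contDiff_const (c := (2:ℂ)) (𝕜 := ℝ) (E := R3) (n := ∞)).mul (contDiff_fst (𝕜 := ℝ) (E := ℂ) (F := ℝ) (n := ∞))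
    exact contDiff_iff_contDiffAt.2 fun x => divc_h57 this.contDiffAt h0.contDiffAt (hne x)
  have h2 : ContDiff ℝ ∞ (fun x : R3 => (2 * (x.2 : ℂ) + I * ((nsq x - 1 : ℝ) : ℂ)) / ((nsq x + 1 : ℝ) : ℂ)) := by
    have a1 : ContDiff ℝ ∞ (fun x : R3 => (2 : ℂ) * (x.2 : ℂ)) :=
      contDiff_const.mul (ofReal_smooth_h57.comp contDiff_snd)
    have a2 : ContDiff ℝ ∞ (fun x : R3 => I * ((nsq x - 1 : ℝ) : ℂ)) :=
      contDiff_const.mul (ofReal_smooth_h57.comp (nsq_smooth_h57.sub contDiff_const))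
    exact contDiff_iff_contDiffAt.2 fun x =>
      divc_h57 (a1.add a2).contDiffAt h0.contDiffAt (hne x)
  exact h1.prodMk h2

theorem rho_pos_h57 (p : ℂ × ℂ) (hp : p ≠ 0) : 0 < ‖p.1‖ ^ 2 + ‖p.2‖ ^ 2 := by
  rcases eq_or_ne p.1 0 with h1 | h1
  · have h2 : p.2 ≠ 0 := fun h2 => hp (Prod.ext h1 h2)
    have : 0 < ‖p.2‖ := norm_pos_iff.2 h2
    positivity
  · have : 0 < ‖p.1‖ := norm_pos_iff.2 h1
    positivity

theorem rho_smoothAt_h57 (p : ℂ × ℂ) (hp : p ≠ 0) : ContDiffAt ℝ ∞ rho p := by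
  have h1 : ContDiff ℝ ∞ (fun p : ℂ × ℂ => ‖p.1‖ ^ 2) := (contDiff_norm_sq ℝ).comp contDiff_fst
  have h2 : ContDiff ℝ ∞ (fun p : ℂ × ℂ => ‖p.2‖ ^ 2) := (contDiff_norm_sq ℝ).comp contDiff_snd
  exact (h1.add h2).contDiffAt.sqrt (rho_pos_h57 p hp).ne'

theorem ne_zero_of_reg_h57 (p : ℂ × ℂ) (hp : 0 < rho p - p.2.im) : p ≠ 0 := by
  rintro rfl
  simp [rho] at hp

theorem st_smoothAt_h57 (p : ℂ × ℂ) (hp : 0 < rho p - p.2.im) : ContDiffAt ℝ ∞ st p := by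
  have h0 := rho_smoothAt_h57 p (ne_zero_of_reg_h57 p hp)
  have him : ContDiffAt ℝ ∞ (fun q : ℂ × ℂ => q.2.im) p :=
    (Complex.imCLM.contDiff.comp contDiff_snd).contDiffAt
  have hre : ContDiffAt ℝ ∞ (fun q : ℂ × ℂ => q.2.re) p :=
    (Complex.reCLM.contDiff.comp contDiff_snd).contDiffAt
  have hd : ContDiffAt ℝ ∞ (fun q : ℂ × ℂ => rho q - q.2.im) p := h0.sub him
  have hdc : ContDiffAt ℝ ∞ (fun q : ℂ × ℂ => ((rho q - q.2.im : ℝ) : ℂ)) p :=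
    (ofReal_smooth_h57.contDiffAt).comp p hd
  have hne : ((rho p - p.2.im : ℝ) : ℂ) ≠ 0 := by exact_mod_cast hp.ne'
  exact (divc_h57 contDiffAt_fst hdc hne).prodMk (divr_h57 hre hd hp.ne')

theorem reg_open_h57 : IsOpen {p : ℂ × ℂ | 0 < rho p - p.2.im} := by
  have hc : Continuous rho := by
    unfold rho
    fun_prop
  exact isOpen_lt continuous_const (hc.sub (Complex.continuous_im.comp continuous_snd))

theorem inv3_smoothAt_h57 (x : R3) (hx : x ≠ 0) : ContDiffAt ℝ ∞ inv3 x := by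
  have h0 := nsq_pos_h57 x hx
  have hn := nsq_smooth_h57.contDiffAt (x := x)
  have hnc : ContDiffAt ℝ ∞ (fun y : R3 => ((nsq y : ℝ) : ℂ)) x :=
    (ofReal_smooth_h57.contDiffAt).comp x hn
  have hne : ((nsq x : ℝ) : ℂ) ≠ 0 := by exact_mod_cast h0.ne'
  exact (divc_h57 contDiffAt_fst hnc hne).prodMk (divr_h57 contDiffAt_snd hn h0.ne')

theorem ist_st_h57 (h : Stmt_K_ST) (p : ℂ × ℂ) (hp : 0 < rho p - p.2.im) :
    rho p • ist (st p) = p := by
  obtain ⟨-, h2, h3, -, -, -, -, -, -⟩ := h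
  have hp0 := ne_zero_of_reg_h57 p hp
  have hr0 := rho_pos_h57 p hp0
  have hr : 0 < rho p := Real.sqrt_pos.2 hr0
  have hrs : rho p ^ 2 = ‖p.1‖ ^ 2 + ‖p.2‖ ^ 2 := Real.sq_sqrt hr0.le
  have hq : (rho p)⁻¹ • p ∈ S3 := by
    show ‖(rho p)⁻¹ • p.1‖ ^ 2 + ‖(rho p)⁻¹ • p.2‖ ^ 2 = 1
    rw [norm_smul, norm_smul, Real.norm_eq_abs, abs_of_pos (inv_pos.2 hr), mul_pow, mul_pow,
      ← mul_add, ← hrs, inv_pow]
    exact inv_mul_cancel₀ (pow_ne_zero 2 hr.ne')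
  have hqp : (rho p)⁻¹ • p ≠ pole := by
    intro hh
    have h2' : (rho p)⁻¹ • p.2 = I := congrArg Prod.snd hh
    have h3' : (rho p)⁻¹ * p.2.im = 1 := by
      have := congrArg Complex.im h2'
      simpa using this
    have : p.2.im = rho p := by
      field_simp at h3'
      linarith
    linarith
  rw [← h3 p (rho p)⁻¹ (inv_pos.2 hr), h2 _ hq hqp, smul_smul, mul_inv_cancel₀ hr.ne', one_smul]

theorem stmt_K_STD (h : Stmt_K_ST) : Stmt_K_STD := by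
  refine ⟨?_, ?_, ist_smooth_h57, fun p hp => (rho_smoothAt_h57 p hp).contDiffWithinAt⟩
  · refine locDiffOn_of_leftInv (g := fun q : ℝ × R3 => q.1 • ist q.2) ?_ reg_open_h57 ?_ ?_ ?_
    · simp [Complex.finrank_real_complex]
    · intro p hp
      exact ((rho_smoothAt_h57 p (ne_zero_of_reg_h57 p hp)).prodMk
        (st_smoothAt_h57 p hp)).contDiffWithinAt
    · intro p _
      have : ContDiff ℝ ∞ (fun q : ℝ × R3 => q.1 • ist q.2) :=
        contDiff_fst.smul (ist_smooth_h57.comp contDiff_snd)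
      exact (this.differentiable (by simp)) _
    · intro p hp
      exact ist_st_h57 h p hp
  · refine locDiffOn_of_leftInv (g := inv3) rfl isOpen_compl_singleton ?_ ?_ ?_
    · intro x hx
      exact (inv3_smoothAt_h57 x hx).contDiffWithinAt
    · intro x hx
      exact (inv3_smoothAt_h57 _ (h.2.2.2.1 x hx).2.2).differentiableAt (by simp)
    · intro x hx
      exact (h.2.2.2.1 x hx).2.1

end Pool.KT
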