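import Pool.Agent.Work.MP_70ab54_kt.InterfaceK

/-!
# Block K_SY: from the roots to the coefficients of a cubic polynomial
-/

set_option autoImplicit false

namespace Pool.KT

open Set Complex Topology Filter

theorem sy_root1 (q : ℂ × ℂ) : q.1 ^ 3 = (sy q).1 * q.1 + (sy q).2 := by
  unfold sy
  ring

theorem sy_root2 (q : ℂ × ℂ) : q.2 ^ 3 = (sy q).1 * q.2 + (sy q).2 := by
  unfold sy
  ring

theorem sy_disc (q : ℂ × ℂ) : 4 * (sy q).1 ^ 3 - 27 * (sy q).2 ^ 2 =
    ((q.1 - q.2) * (2 * q.1 + q.2) * (q.1 + 2 * q.2)) ^ 2 := by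
  unfold sy
  ring

theorem continuous_sy : Continuous sy := by
  unfold sy
  fun_prop

/-- roots are bounded by the coefficients -/
theorem root_bound (x z w : ℂ) (C : ℝ) (hz : ‖z‖ ≤ C) (hw : ‖w‖ ≤ C) (h : x ^ 3 = z * x + w) :
    ‖x‖ ≤ 1 + C := by
  by_contra hcon
  push Not at hcon
  have hC : 0 ≤ C := (norm_nonneg z).trans hz
  have h1 : ‖x‖ ^ 3 ≤ C * ‖x‖ + C := by
    rw [← norm_pow, h]
    refine (norm_add_le _ _).trans ?_
    rw [norm_mul]
    have := mul_le_mul_of_nonneg_right hz (norm_nonneg x)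
    linarith
  nlinarith [mul_pos (show (0 : ℝ) < ‖x‖ by linarith) (show (0 : ℝ) < ‖x‖ - 1 - C by linarith),
    mul_nonneg hC (show (0 : ℝ) ≤ ‖x‖ by linarith), sq_nonneg (‖x‖ - 1),
    mul_nonneg (show (0 : ℝ) ≤ ‖x‖ by linarith) (mul_nonneg (show (0 : ℝ) ≤ ‖x‖ by linarith)
      (show (0 : ℝ) ≤ ‖x‖ - 1 - C by linarith))]

theorem isClosedMap_sy : IsClosedMap sy := by
  have hp : IsProperMap sy := by
    rw [isProperMap_iff_isCompact_preimage]
    refine ⟨continuous_sy, fun {K} hK => ?_⟩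
    refine Metric.isCompact_of_isClosed_isBounded (hK.isClosed.preimage continuous_sy) ?_
    obtain ⟨C, hC⟩ := hK.isBounded.exists_norm_le
    refine (Metric.isBounded_closedBall (x := (0 : ℂ × ℂ)) (r := 1 + C)).subset fun q hq => ?_
    have h1 := hC (sy q) hq
    rw [Metric.mem_closedBall, dist_zero_right, Prod.norm_def]
    rw [Prod.norm_def] at h1
    have hz := (le_max_left _ _).trans h1
    have hw := (le_max_right _ _).trans h1
    exact max_le (root_bound _ _ _ C hz hw (sy_root1 q)) (root_bound _ _ _ C hz hw (sy_root2 q))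
  exact hp.isClosedMap

theorem isLocalHomeomorphOn_sy : IsLocalHomeomorphOn sy (sy ⁻¹' Dset) := by
  intro q hq
  obtain ⟨x, y⟩ := q
  have hd : (x - y) * (2 * x + y) * (x + 2 * y) ≠ 0 := by
    intro h0
    apply hq
    have h := sy_disc (x, y)
    simp only at h
    rw [h0] at h
    linear_combination h
  have h1 : HasStrictFDerivAt (fun q : ℂ × ℂ => q.1) (ContinuousLinearMap.fst ℂ ℂ ℂ) (x, y) :=
    hasStrictFDerivAt_fst
  have h2 : HasStrictFDerivAt (fun q : ℂ × ℂ => q.2) (ContinuousLinearMap.snd ℂ ℂ ℂ) (x, y) :=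
    hasStrictFDerivAt_snd
  set L : (ℂ × ℂ) →L[ℂ] (ℂ × ℂ) :=
    (((2 * x + y) • ContinuousLinearMap.fst ℂ ℂ ℂ + (x + 2 * y) • ContinuousLinearMap.snd ℂ ℂ ℂ)).prod
      ((-(2 * x * y + y ^ 2)) • ContinuousLinearMap.fst ℂ ℂ ℂ +
        (-(x ^ 2 + 2 * x * y)) • ContinuousLinearMap.snd ℂ ℂ ℂ) with hL
  have hLs : HasStrictFDerivAt sy L (x, y) := by
    have h := (((h1.mul h1).add (h1.mul h2)).add (h2.mul h2)).prodMk
      (((h1.mul h2).mul (h1.add h2)).neg)
    have hf : sy = fun q : ℂ × ℂ => (((fun q : ℂ × ℂ => q.1) q * (fun q : ℂ × ℂ => q.1) q +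
        (fun q : ℂ × ℂ => q.1) q * (fun q : ℂ × ℂ => q.2) q +
        (fun q : ℂ × ℂ => q.2) q * (fun q : ℂ × ℂ => q.2) q,
        -((fun q : ℂ × ℂ => q.1) q * (fun q : ℂ × ℂ => q.2) q *
          ((fun q : ℂ × ℂ => q.1) q + (fun q : ℂ × ℂ => q.2) q))) : ℂ × ℂ) := by
      funext q
      unfold sy
      simp only
      refine Prod.ext ?_ ?_
      · simp only; ring
      · simp only
    rw [hf]
    refine h.congr_fderiv ?_
    refine ContinuousLinearMap.ext fun v => ?_
    refine Prod.ext ?_ ?_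
    · simp [hL]
      ring
    · simp [hL]
      ring
  have hinj : Function.Injective L := by
    rw [injective_iff_map_eq_zero]
    rintro ⟨u, v⟩ h0
    have e1 : (2 * x + y) * u + (x + 2 * y) * v = 0 := by
      have := congrArg Prod.fst h0
      simpa [hL] using this
    have e2 : -(2 * x * y + y ^ 2) * u + -(x ^ 2 + 2 * x * y) * v = 0 := by
      have := congrArg Prod.snd h0
      simpa [hL] using this
    have e3 : ((x - y) * (2 * x + y) * (x + 2 * y)) * u = 0 := by
      linear_combination (x ^ 2 + 2 * x * y) * e1 + (x + 2 * y) * e2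
    have e4 : ((x - y) * (2 * x + y) * (x + 2 * y)) * v = 0 := by
      linear_combination -(2 * x * y + y ^ 2) * e1 - (2 * x + y) * e2
    have hu := (mul_eq_zero.mp e3).resolve_left hd
    have hv := (mul_eq_zero.mp e4).resolve_left hd
    rw [hu, hv]
    rfl
  set e : (ℂ × ℂ) ≃L[ℂ] (ℂ × ℂ) :=
    (LinearEquiv.ofInjectiveEndo (L : (ℂ × ℂ) →ₗ[ℂ] (ℂ × ℂ)) hinj).toContinuousLinearEquiv with he
  have heL : (e : (ℂ × ℂ) →L[ℂ] (ℂ × ℂ)) = L := by
    ext v <;> rfl
  rw [← heL] at hLs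
  exact ⟨hLs.toOpenPartialHomeomorph sy, hLs.mem_toOpenPartialHomeomorph_source, by
    rw [HasStrictFDerivAt.toOpenPartialHomeomorph_coe]⟩

theorem stmt_K_SY : Stmt_K_SY := by
  have hfin : ∀ p : ℂ × ℂ, (sy ⁻¹' {p}).Finite := by
    intro p
    set P : Polynomial ℂ := Polynomial.X ^ 3 - Polynomial.C p.1 * Polynomial.X - Polynomial.C p.2
      with hP
    have hP0 : P ≠ 0 := by
      intro h0
      have := congrArg (fun Q : Polynomial ℂ => Q.coeff 3) h0
      simp [hP, Polynomial.coeff_X, Polynomial.coeff_C] at this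
    refine ((P.roots.toFinset ×ˢ P.roots.toFinset).finite_toSet).subset fun q hq => ?_
    have hq' : sy q = p := hq
    have h1 := sy_root1 q
    have h2 := sy_root2 q
    rw [hq'] at h1 h2
    have hr : ∀ x : ℂ, x ^ 3 = p.1 * x + p.2 → x ∈ P.roots.toFinset := by
      intro x hx
      rw [Multiset.mem_toFinset, Polynomial.mem_roots hP0, Polynomial.IsRoot.def]
      simp only [hP, Polynomial.eval_sub, Polynomial.eval_pow, Polynomial.eval_X,
        Polynomial.eval_mul, Polynomial.eval_C]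
      linear_combination hx
    rw [Finset.mem_coe, Finset.mem_product]
    exact ⟨hr _ h1, hr _ h2⟩
  refine ⟨isClosedMap_sy.isCoveringMapOn_of_isLocalHomeomorphOn (fun p _ => hfin p)
    isLocalHomeomorphOn_sy, fun p _ => ⟨hfin p, ?_⟩⟩
  -- a root
  obtain ⟨x, hx⟩ : ∃ x : ℂ, x ^ 3 = p.1 * x + p.2 := by
    obtain ⟨x, hx⟩ := IsAlgClosed.exists_root (Polynomial.X ^ 3 - Polynomial.C p.1 * Polynomial.X -
      Polynomial.C p.2 : Polynomial ℂ) (by
        have : (Polynomial.X ^ 3 - Polynomial.C p.1 * Polynomial.X -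
          Polynomial.C p.2 : Polynomial ℂ).degree = 3 := by compute_degree!
        rw [this]; norm_num)
    refine ⟨x, ?_⟩
    simp only [Polynomial.IsRoot.def, Polynomial.eval_sub, Polynomial.eval_pow, Polynomial.eval_X,
      Polynomial.eval_mul, Polynomial.eval_C] at hx
    linear_combination hx
  obtain ⟨r, hr⟩ := IsAlgClosed.exists_pow_nat_eq (4 * p.1 - 3 * x ^ 2) (n := 2) (by norm_num)
  refine ⟨(x, (-x + r) / 2), ?_⟩
  rw [mem_preimage, mem_singleton_iff]
  have e1 : (sy (x, (-x + r) / 2)).1 = p.1 := by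
    unfold sy
    simp only
    linear_combination hr / 4
  have e2 : (sy (x, (-x + r) / 2)).2 = p.2 := by
    have := sy_root1 (x, (-x + r) / 2)
    rw [e1] at this
    simp only at this
    linear_combination hx - this
  exact Prod.ext e1 e2

end Pool.KT
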