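import Pool.Agent.Work.MP_70ab54_kt.InterfaceK

/-!
# MP_70ab54, block K_TA: preimage of the tube in the six sheeted covering (helper40)
-/

set_option autoImplicit false

namespace Pool.KT

open Set Topology Filter Complex
open scoped ContDiff

theorem K_TA_sq (z : ℂ) : ‖z‖ ^ 2 = z.re ^ 2 + z.im ^ 2 := by
  rw [Complex.sq_norm, Complex.normSq_apply]
  ring

theorem K_TA_lt {a b : ℝ} (ha : 0 ≤ a) (hb : 0 ≤ b) : a < b ↔ a ^ 2 < b ^ 2 :=
  (pow_lt_pow_iff_left₀ ha hb two_ne_zero).symm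

/-- `(x - y)` small compared to the third root gives a point of the cone. -/
theorem K_TA_mem (x y t : ℂ) (hxy : x ≠ y) (hs : x + y + t = 0) (h : ‖x - y‖ < ‖t‖) :
    ∃ l η : ℂ, l ≠ 0 ∧ η ≠ 0 ∧ ‖η‖ < 1 ∧ x ^ 2 + x * y + y ^ 2 = l ^ 2 * (3 + η) ∧
      x * y * t = 2 * l ^ 3 * (1 - η) := by
  have ht : t ≠ 0 := by
    rintro rfl
    rw [norm_zero] at h
    exact absurd h (not_lt.mpr (norm_nonneg _))
  have hxy' : x - y ≠ 0 := sub_ne_zero.mpr hxy
  have hte : t = -x - y := by linear_combination hs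
  refine ⟨t / 2, ((x - y) / t) ^ 2, div_ne_zero ht two_ne_zero,
    pow_ne_zero 2 (div_ne_zero hxy' ht), ?_, ?_, ?_⟩
  · rw [norm_pow, norm_div]
    have h1 : ‖x - y‖ / ‖t‖ < 1 := by
      rw [div_lt_one (norm_pos_iff.mpr ht)]
      exact h
    have h2 : 0 ≤ ‖x - y‖ / ‖t‖ := by positivity
    nlinarith
  · have h3 : (t / 2) ^ 2 * (3 + ((x - y) / t) ^ 2) = (3 * t ^ 2 + (x - y) ^ 2) / 4 := by
      field_simp
      ring
    rw [h3, hte]
    ring
  · have h3 : 2 * (t / 2) ^ 3 * (1 - ((x - y) / t) ^ 2) = t * (t ^ 2 - (x - y) ^ 2) / 4 := by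
      field_simp
      ring
    rw [h3, hte]
    ring

/-- Converse: if `2 l = t`. -/
theorem K_TA_conv (x y t l η : ℂ) (hs : x + y + t = 0) (hl : l ≠ 0) (hη : ‖η‖ < 1)
    (h : x ^ 2 + x * y + y ^ 2 = l ^ 2 * (3 + η)) (ht : 2 * l = t) : ‖x - y‖ < ‖t‖ := by
  have hte : t = -x - y := by linear_combination hs
  have h1 : (x - y) ^ 2 = η * t ^ 2 := by
    have h2 : l = t / 2 := by linear_combination ht / 2
    rw [h2, hte] at h
    rw [hte]
    linear_combination 4 * h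
  have ht0 : t ≠ 0 := by
    rw [← ht]
    exact mul_ne_zero two_ne_zero hl
  rw [K_TA_lt (norm_nonneg _) (norm_nonneg _), ← norm_pow, h1, norm_mul, norm_pow]
  have h3 : 0 < ‖t‖ ^ 2 := by
    have := norm_pos_iff.mpr ht0
    positivity
  nlinarith

theorem K_TA_sy (x₁ x₂ x₃ : ℂ) (hs : x₁ + x₂ + x₃ = 0) (h12 : x₁ ≠ x₂) (h13 : x₁ ≠ x₃)
    (h23 : x₂ ≠ x₃) : sy (x₁, x₂) ∈ tcone ↔
      (‖x₁ - x₂‖ < ‖x₃‖ ∨ ‖x₁ - x₃‖ < ‖x₂‖ ∨ ‖x₂ - x₃‖ < ‖x₁‖) := by
  have e3 : x₃ = -x₁ - x₂ := by linear_combination hs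
  constructor
  · rintro ⟨l, η, hl, hη0, hη, hp⟩
    have hz : x₁ ^ 2 + x₁ * x₂ + x₂ ^ 2 = l ^ 2 * (3 + η) := congrArg Prod.fst hp
    have hw : -(x₁ * x₂ * (x₁ + x₂)) = 2 * l ^ 3 * (1 - η) := congrArg Prod.snd hp
    have hroot : (2 * l - x₁) * ((2 * l - x₂) * (2 * l - x₃)) = 0 := by
      rw [e3]
      linear_combination (-2 * l) * hz - hw
    rcases mul_eq_zero.mp hroot with h | h
    · right; right
      exact K_TA_conv x₂ x₃ x₁ l η (by linear_combination hs) hl hη (by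
        rw [← hz, e3]; ring) (by linear_combination h)
    · rcases mul_eq_zero.mp h with h | h
      · right; left
        exact K_TA_conv x₁ x₃ x₂ l η (by linear_combination hs) hl hη (by
          rw [← hz, e3]; ring) (by linear_combination h)
      · left
        exact K_TA_conv x₁ x₂ x₃ l η hs hl hη hz (by linear_combination h)
  · rintro (h | h | h)
    · obtain ⟨l, η, hl, hη0, hη, h1, h2⟩ := K_TA_mem x₁ x₂ x₃ h12 hs h
      refine ⟨l, η, hl, hη0, hη, Prod.ext ?_ ?_⟩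
      · exact h1
      · change -(x₁ * x₂ * (x₁ + x₂)) = 2 * l ^ 3 * (1 - η)
        rw [← h2, e3]; ring
    · obtain ⟨l, η, hl, hη0, hη, h1, h2⟩ := K_TA_mem x₁ x₃ x₂ h13 (by linear_combination hs) h
      refine ⟨l, η, hl, hη0, hη, Prod.ext ?_ ?_⟩
      · change x₁ ^ 2 + x₁ * x₂ + x₂ ^ 2 = l ^ 2 * (3 + η)
        rw [← h1, e3]; ring
      · change -(x₁ * x₂ * (x₁ + x₂)) = 2 * l ^ 3 * (1 - η)
        rw [← h2, e3]; ring
    · obtain ⟨l, η, hl, hη0, hη, h1, h2⟩ := K_TA_mem x₂ x₃ x₁ h23 (by linear_combination hs) h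
      refine ⟨l, η, hl, hη0, hη, Prod.ext ?_ ?_⟩
      · change x₁ ^ 2 + x₁ * x₂ + x₂ ^ 2 = l ^ 2 * (3 + η)
        rw [← h1, e3]; ring
      · change -(x₁ * x₂ * (x₁ + x₂)) = 2 * l ^ 3 * (1 - η)
        rw [← h2, e3]; ring

theorem K_TA_disc (d m : ℂ) (hd : d ≠ 0) :
    (‖d‖ < ‖d * (2 * m - 1) / 3‖ ↔ 3 / 2 < ‖m - 1 / 2‖) ∧
    (‖d * m‖ < ‖d * (2 - m) / 3‖ ↔ ‖m + 1 / 4‖ < 3 / 4) ∧
    (‖d * (m - 1)‖ < ‖d * (1 + m) / 3‖ ↔ ‖m - 5 / 4‖ < 3 / 4) := by
  have hd' : 0 < ‖d‖ := norm_pos_iff.mpr hd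
  have h3 : ‖(3 : ℂ)‖ = 3 := by simp
  have r1 : (3 : ℝ) = ((3 : ℝ) : ℝ) := rfl
  refine ⟨?_, ?_, ?_⟩
  · rw [norm_div, norm_mul, h3, lt_div_iff₀ (by norm_num), mul_lt_mul_iff_right₀ hd']
    rw [K_TA_lt (by norm_num) (norm_nonneg _), K_TA_lt (by norm_num) (norm_nonneg _), K_TA_sq,
      K_TA_sq]
    have e1 : (2 * m - 1).re = 2 * m.re - 1 := by simp
    have e2 : (2 * m - 1).im = 2 * m.im := by simp
    have e3 : (m - 1 / 2).re = m.re - 1 / 2 := by simp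
    have e4 : (m - 1 / 2).im = m.im := by simp
    rw [e1, e2, e3, e4]
    constructor <;> intro h <;> nlinarith
  · rw [norm_div, norm_mul, norm_mul, h3, lt_div_iff₀ (by norm_num), mul_assoc,
      mul_lt_mul_iff_right₀ hd']
    rw [K_TA_lt (by positivity) (norm_nonneg _), K_TA_lt (norm_nonneg _) (by norm_num), mul_pow,
      K_TA_sq, K_TA_sq, K_TA_sq]
    have e1 : (2 - m).re = 2 - m.re := by simp
    have e2 : (2 - m).im = -m.im := by simp
    have e3 : (m + 1 / 4).re = m.re + 1 / 4 := by simp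
    have e4 : (m + 1 / 4).im = m.im := by simp
    rw [e1, e2, e3, e4]
    constructor <;> intro h <;> nlinarith
  · rw [norm_div, norm_mul, norm_mul, h3, lt_div_iff₀ (by norm_num), mul_assoc,
      mul_lt_mul_iff_right₀ hd']
    rw [K_TA_lt (by positivity) (norm_nonneg _), K_TA_lt (norm_nonneg _) (by norm_num), mul_pow,
      K_TA_sq, K_TA_sq, K_TA_sq]
    have e1 : (m - 1).re = m.re - 1 := by simp
    have e2 : (m - 1).im = m.im := by simp
    have e3 : (m - 5 / 4).re = m.re - 5 / 4 := by simp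
    have e4 : (m - 5 / 4).im = m.im := by simp
    have e5 : (1 + m).re = 1 + m.re := by simp
    have e6 : (1 + m).im = m.im := by simp
    rw [e1, e2, e3, e4, e5, e6]
    constructor <;> intro h <;> nlinarith

theorem stmt_K_TA : Stmt_K_TA := by
  have a0 : endA 0 = {z | ‖z + 1 / 4‖ < 3 / 4} ∩ {z | z ≠ 0} := by simp [endA]
  have a1 : endA 1 = {z | ‖z - 5 / 4‖ < 3 / 4} ∩ {z | z ≠ 1} := by simp [endA]
  have a2 : endA 2 = {z | 3 / 2 < ‖z - 1 / 2‖} := by simp [endA]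
  have re_le : ∀ z : ℂ, |z.re| ≤ ‖z‖ := Complex.abs_re_le_norm
  have d01 : Disjoint (endA 0) (endA 1) := by
    rw [a0, a1, Set.disjoint_left]
    rintro z ⟨h1, -⟩ ⟨h2, -⟩
    have h1' := lt_of_le_of_lt (re_le _) h1
    have h2' := lt_of_le_of_lt (re_le _) h2
    rw [abs_lt] at h1' h2'
    have e1 : (z + 1 / 4).re = z.re + 1 / 4 := by simp
    have e2 : (z - 5 / 4).re = z.re - 5 / 4 := by simp
    rw [e1] at h1'
    rw [e2] at h2'
    linarith [h1'.2, h2'.1]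
  have d02 : Disjoint (endA 0) (endA 2) := by
    rw [a0, a2, Set.disjoint_left]
    rintro z ⟨h1, -⟩ h2
    have h1' : ‖z + 1 / 4‖ < 3 / 4 := h1
    have h2' : 3 / 2 < ‖z - 1 / 2‖ := h2
    have h3 : ‖z - 1 / 2‖ ≤ ‖z + 1 / 4‖ + ‖(3 / 4 : ℂ)‖ := by
      have : z - 1 / 2 = (z + 1 / 4) - 3 / 4 := by ring
      rw [this]
      exact norm_sub_le _ _
    have h4 : ‖(3 / 4 : ℂ)‖ = 3 / 4 := by simp
    linarith
  have d12 : Disjoint (endA 1) (endA 2) := by
    rw [a1, a2, Set.disjoint_left]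
    rintro z ⟨h1, -⟩ h2
    have h1' : ‖z - 5 / 4‖ < 3 / 4 := h1
    have h2' : 3 / 2 < ‖z - 1 / 2‖ := h2
    have h3 : ‖z - 1 / 2‖ ≤ ‖z - 5 / 4‖ + ‖(3 / 4 : ℂ)‖ := by
      have : z - 1 / 2 = (z - 5 / 4) + 3 / 4 := by ring
      rw [this]
      exact norm_add_le _ _
    have h4 : ‖(3 / 4 : ℂ)‖ = 3 / 4 := by simp
    linarith
  refine ⟨?_, ?_, ?_, ?_⟩
  · rintro ⟨d, m⟩ ⟨hd, hm0, hm1⟩
    change d ≠ 0 at hd
    change m ≠ 0 at hm0
    change m ≠ 1 at hm1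
    set x₁ : ℂ := -(d * (1 + m)) / 3 with hx₁
    set x₂ : ℂ := d * (2 - m) / 3 with hx₂
    set x₃ : ℂ := d * (2 * m - 1) / 3 with hx₃
    have e12 : x₁ - x₂ = -d := by rw [hx₁, hx₂]; ring
    have e13 : x₁ - x₃ = -(d * m) := by rw [hx₁, hx₃]; ring
    have e23 : x₂ - x₃ = -(d * (m - 1)) := by rw [hx₂, hx₃]; ring
    have hs : x₁ + x₂ + x₃ = 0 := by rw [hx₁, hx₂, hx₃]; ring
    have h12 : x₁ ≠ x₂ := by
      rw [← sub_ne_zero, e12]
      exact neg_ne_zero.mpr hd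
    have h13 : x₁ ≠ x₃ := by
      rw [← sub_ne_zero, e13]
      exact neg_ne_zero.mpr (mul_ne_zero hd hm0)
    have h23 : x₂ ≠ x₃ := by
      rw [← sub_ne_zero, e23]
      exact neg_ne_zero.mpr (mul_ne_zero hd (sub_ne_zero.mpr hm1))
    have hmain := K_TA_sy x₁ x₂ x₃ hs h12 h13 h23
    rw [e12, e13, e23, norm_neg, norm_neg, norm_neg] at hmain
    have hx₁' : ‖x₁‖ = ‖d * (1 + m) / 3‖ := by
      rw [hx₁, neg_div, norm_neg]
    rw [hx₁'] at hmain
    obtain ⟨c1, c2, c3⟩ := K_TA_disc d m hd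
    rw [c1, c2, c3] at hmain
    change sy (x₁, x₂) ∈ tcone ↔ _
    rw [hmain]
    constructor
    · rintro (h | h | h)
      · exact ⟨2, by rw [a2]; exact h⟩
      · exact ⟨0, by rw [a0]; exact ⟨h, hm0⟩⟩
      · exact ⟨1, by rw [a1]; exact ⟨h, hm1⟩⟩
    · rintro ⟨i, hi⟩
      fin_cases i
      · have hi' : m ∈ endA 0 := hi
        rw [a0] at hi'
        exact Or.inr (Or.inl hi'.1)
      · have hi' : m ∈ endA 1 := hi
        rw [a1] at hi'
        exact Or.inr (Or.inr hi'.1)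
      · have hi' : m ∈ endA 2 := hi
        rw [a2] at hi'
        exact Or.inl hi'
  · intro i
    fin_cases i
    · change IsOpen (endA 0)
      rw [a0]
      exact (isOpen_lt (by fun_prop) continuous_const).inter isOpen_ne
    · change IsOpen (endA 1)
      rw [a1]
      exact (isOpen_lt (by fun_prop) continuous_const).inter isOpen_ne
    · change IsOpen (endA 2)
      rw [a2]
      exact isOpen_lt continuous_const (by fun_prop)
  · intro i
    fin_cases i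
    · change endA 0 ⊆ C01
      rw [a0]
      rintro z ⟨h1, h2⟩
      refine ⟨h2, ?_⟩
      rintro rfl
      have h1' : ‖(1 : ℂ) + 1 / 4‖ < 3 / 4 := h1
      have h3 : ‖(1 : ℂ) + 1 / 4‖ = 5 / 4 := by
        have : (1 : ℂ) + 1 / 4 = ((5 / 4 : ℝ) : ℂ) := by push_cast; norm_num
        rw [this, Complex.norm_real, Real.norm_of_nonneg (by norm_num)]
      linarith
    · change endA 1 ⊆ C01
      rw [a1]
      rintro z ⟨h1, h2⟩
      refine ⟨?_, h2⟩
      rintro rfl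
      have h1' : ‖(0 : ℂ) - 5 / 4‖ < 3 / 4 := h1
      have h3 : ‖(0 : ℂ) - 5 / 4‖ = 5 / 4 := by
        rw [zero_sub, norm_neg]
        simp
      linarith
    · change endA 2 ⊆ C01
      rw [a2]
      intro z h1
      have h1' : 3 / 2 < ‖z - 1 / 2‖ := h1
      constructor
      · rintro rfl
        have h3 : ‖(0 : ℂ) - 1 / 2‖ = 1 / 2 := by
          rw [zero_sub, norm_neg]
          simp
        linarith
      · rintro rfl
        have h3 : ‖(1 : ℂ) - 1 / 2‖ = 1 / 2 := by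
          have : (1 : ℂ) - 1 / 2 = ((1 / 2 : ℝ) : ℂ) := by push_cast; norm_num
          rw [this, Complex.norm_real, Real.norm_of_nonneg (by norm_num)]
        linarith
  · intro i j hij
    fin_cases i <;> fin_cases j
    · exact absurd rfl hij
    · exact d01
    · exact d02
    · exact d01.symm
    · exact absurd rfl hij
    · exact d12
    · exact d02.symm
    · exact d12.symm
    · exact absurd rfl hij

end Pool.KT
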