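import Pool.Agent.Work.MP_70ab54_kt.InterfaceK

/-! # MP_70ab54: block K_TUBI (helper57) -/

set_option autoImplicit false

namespace Pool.KT

open Set Complex Topology Filter

theorem tubi_aux_h57 {l l' η η' : ℂ} (h : tub l η = tub l' η') (hl' : l' ≠ 0) (hη' : ‖η'‖ < 1)
    (hne : l ≠ l') : 2 * ‖l‖ - ‖l'‖ < ‖l'‖ := by
  have h1 : l ^ 2 * (3 + η) = l' ^ 2 * (3 + η') := congrArg Prod.fst h
  have h2 : 2 * l ^ 3 * (1 - η) = 2 * l' ^ 3 * (1 - η') := congrArg Prod.snd h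
  have h3 : (2 * l - 2 * l') * ((2 * l + l') ^ 2 - l' ^ 2 * η') = 0 := by
    linear_combination (2 * l) * h1 + h2
  have h4 : (2 * l + l') ^ 2 = l' ^ 2 * η' := by
    rcases mul_eq_zero.1 h3 with h5 | h5
    · exact absurd (mul_left_cancel₀ two_ne_zero (sub_eq_zero.1 h5)) hne
    · exact sub_eq_zero.1 h5
  have h5 : ‖2 * l + l'‖ ^ 2 = ‖l'‖ ^ 2 * ‖η'‖ := by
    rw [← norm_pow, h4, norm_mul, norm_pow]
  have hl0 : 0 < ‖l'‖ := norm_pos_iff.2 hl'
  have h6 : ‖2 * l + l'‖ < ‖l'‖ := by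
    have : ‖2 * l + l'‖ ^ 2 < ‖l'‖ ^ 2 := by
      rw [h5]
      have : 0 < ‖l'‖ ^ 2 := by positivity
      nlinarith
    exact lt_of_pow_lt_pow_left₀ 2 hl0.le this
  have h7 : 2 * ‖l‖ - ‖l'‖ ≤ ‖2 * l + l'‖ := by
    have h8 : ‖2 * l‖ ≤ ‖2 * l + l'‖ + ‖l'‖ := by
      have := norm_sub_le (2 * l + l') l'
      simpa using this
    rw [norm_mul, Complex.norm_ofNat] at h8
    linarith
  linarith

theorem stmt_K_TUBI : Stmt_K_TUBI := by
  intro l l' η η' hl hl' hη hη' h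
  have hll : l = l' := by
    by_contra hne
    have h1 := tubi_aux_h57 h hl' hη' hne
    have h2 := tubi_aux_h57 h.symm hl hη (Ne.symm hne)
    linarith
  refine ⟨hll, ?_⟩
  subst hll
  have h1 : l ^ 2 * (3 + η) = l ^ 2 * (3 + η') := congrArg Prod.fst h
  have h2 := mul_left_cancel₀ (pow_ne_zero 2 hl) h1
  exact add_left_cancel h2

end Pool.KT
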