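import Pool.Agent.Work.MP_70ab54_kt.D_FIN
import Pool.Agent.Work.MP_70ab54_kt.D_GAL
import Pool.Agent.Work.MP_70ab54_kt.D_COV
import Pool.Agent.Work.MP_70ab54_kt.D_UN
import Pool.Agent.Work.MP_70ab54_kt.D_CH
import Pool.Agent.Work.MP_70ab54_kt.K_ST
import Pool.Agent.Work.MP_70ab54_kt.K_NU
import Pool.Agent.Work.MP_70ab54_kt.K_NUC
import Pool.Agent.Work.MP_70ab54_kt.K_STD
import Pool.Agent.Work.MP_70ab54_kt.K_TUBI
import Pool.Agent.Work.MP_70ab54_kt.K_TUBD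
import Pool.Agent.Work.MP_70ab54_kt.K_POL
import Pool.Agent.Work.MP_70ab54_kt.K_FM
import Pool.Agent.Work.MP_70ab54_kt.K_KAP
import Pool.Agent.Work.MP_70ab54_kt.K_G1
import Pool.Agent.Work.MP_70ab54_kt.K_G2
import Pool.Agent.Work.MP_70ab54_kt.K_G
import Pool.Agent.Work.MP_70ab54_kt.K_J1
import Pool.Agent.Work.MP_70ab54_kt.K_H1
import Pool.Agent.Work.MP_70ab54_kt.K_H
import Pool.Agent.Work.MP_70ab54_kt.K_TOP
import Pool.Agent.Work.MP_70ab54_kt.K_EXP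
import Pool.Agent.Work.MP_70ab54_kt.K_GCH
import Pool.Agent.Work.MP_70ab54_kt.K_SL
import Pool.Agent.Work.MP_70ab54_kt.K_SLH
import Pool.Agent.Work.MP_70ab54_kt.K_COMP
import Pool.Agent.Work.MP_70ab54_kt.K_PROD
import Pool.Agent.Work.MP_70ab54_kt.K_SY
import Pool.Agent.Work.MP_70ab54_kt.K_M6
import Pool.Agent.Work.MP_70ab54_kt.K_TA
import Pool.Agent.Work.MP_70ab54_kt.K_Q1
import Pool.Agent.Work.MP_70ab54_kt.K_LAM
import Pool.Agent.Work.MP_70ab54_kt.K_COV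
import Pool.Agent.Work.MP_70ab54_kt.K_FIN

/-!
# MP_70ab54: Theorem D and the knot part, assembled (helper25)
-/

set_option autoImplicit false

namespace Pool.KT

theorem all_D : Stmt_D := stmt_D stmt_D_GAL stmt_D_COV (stmt_D_UN stmt_D_CH)

theorem all_NUC : Stmt_K_NUC := stmt_K_NUC stmt_K_ST (stmt_K_NU stmt_K_ST)

theorem all_K : Stmt_K := by
  have hST := stmt_K_ST
  have hNU := stmt_K_NU hST
  have hSTD := stmt_K_STD hST
  have hKAP := stmt_K_KAP hST stmt_K_TUBI stmt_K_TUBD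
  have hFM := stmt_K_FM hST hSTD stmt_K_TUBD (stmt_K_POL hST)
  have hJ1 := stmt_K_J1 hST hSTD hFM hKAP
  have hTOP := stmt_K_TOP hST hNU hKAP hJ1
  have hQ1 := stmt_K_Q1 stmt_K_COMP stmt_K_PROD (stmt_K_M6 stmt_K_SY) stmt_K_TA
    (stmt_K_LAM all_D)
  have hCOV := stmt_K_COV stmt_K_SLH stmt_K_GCH stmt_K_SL hQ1
  exact stmt_K_FIN hNU hFM (stmt_K_G stmt_K_G1 stmt_K_G2) hJ1 (stmt_K_H stmt_K_H1) hTOP
    (stmt_K_EXP hKAP) stmt_K_GCH hCOV

end Pool.KT
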