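import Pool.Agent.Work.MP_70ab54_kt.InterfaceG

/-!
# MP_70ab54: block BRG (`GoodCover` in terms of maps into the ambient space)
-/

set_option autoImplicit false

namespace Pool.KT

open Set Topology

theorem stmt_BRG : Stmt_BRG := by
  intro V _ X ι E hX
  constructor
  · rintro ⟨R, tR, q, hq, hs, hAE, hL⟩
    refine ⟨R, tR, fun r => (q r : V), ⟨?_, ?_⟩, ae_univ_iff.2 hAE, fun i => hL i⟩
    · exact IsCoveringMapOn.of_isCoveringMap_subtype hX (fun r => (q r).2) hq
    · ext x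
      constructor
      · rintro ⟨r, rfl⟩
        exact (q r).2
      · intro hx
        obtain ⟨r, hr⟩ := hs ⟨x, hx⟩
        exact ⟨r, congrArg Subtype.val hr⟩
  · rintro ⟨R, tR, q, ⟨hq, hr⟩, hAE, hL⟩
    have hmem : ∀ r, q r ∈ X := fun r => hr ▸ mem_range_self r
    have heq : q ⁻¹' X = univ := eq_univ_of_forall hmem
    let e : R ≃ₜ ↥(q ⁻¹' X) :=
      ((Homeomorph.setCongr heq).trans (Homeomorph.Set.univ R)).symm
    refine ⟨R, tR, X.restrictPreimage q ∘ e,
      hq.isCoveringMap_restrictPreimage.comp_homeomorph e, ?_, ae_univ_iff.1 hAE, fun i => hL i⟩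
    rintro ⟨x, hx⟩
    rw [← hr] at hx
    obtain ⟨r, rfl⟩ := hx
    exact ⟨r, rfl⟩

end Pool.KT
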