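import Pool.Agent.Work.MP_70ab54_kt.InterfaceG

/-!
# MP_70ab54: the amalgam covers the union (helper64)
-/

set_option autoImplicit false

namespace Pool.KT

open Set Topology

theorem CVG_even {V P W K I : Type} [TopologicalSpace V] [TopologicalSpace P]
    [TopologicalSpace W] [TopologicalSpace I] [Nonempty I] (p : P → V) (q : W → V)
    (a : K → P → W) (x : V) (h : IsEvenlyCovered p x I) (ha : ∀ k, IsOpenEmbedding (a k))
    (hi : ∀ k k' y y', a k y = a k' y' → k = k') (hq : ∀ k y, q (a k y) = p y)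
    (hcov : ∀ w, q w ∈ range p → ∃ k y, w = a k y) : IsEvenlyCovered q x (q ⁻¹' {x}) := by
  let _ : TopologicalSpace K := ⊥
  have : DiscreteTopology K := ⟨rfl⟩
  obtain ⟨inst, U, hxU, hU, hpU, H, hH⟩ := h
  have hUr : U ⊆ range p := by
    intro u hu
    have h1 := hH (H.symm (⟨u, hu⟩, Classical.arbitrary I))
    rw [H.apply_symm_apply] at h1
    exact ⟨_, h1.symm⟩
  have hpre : q ⁻¹' U = ⋃ k, a k '' (p ⁻¹' U) := by
    ext w
    constructor
    · intro hw
      obtain ⟨k, y, rfl⟩ := hcov w (hUr hw)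
      refine mem_iUnion.2 ⟨k, y, ?_, rfl⟩
      show p y ∈ U
      rw [← hq k y]
      exact hw
    · intro hw
      obtain ⟨k, y, hy, rfl⟩ := mem_iUnion.1 hw
      show q (a k y) ∈ U
      rw [hq]
      exact hy
  have hqU : IsOpen (q ⁻¹' U) := by
    rw [hpre]
    exact isOpen_iUnion fun k => (ha k).isOpenMap _ hpU
  -- the homeomorphism with the disjoint union
  let f : K × (p ⁻¹' U) → q ⁻¹' U := fun t => ⟨a t.1 t.2.1, by
    show q (a t.1 t.2.1) ∈ U
    rw [hq]
    exact t.2.2⟩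
  have fc : Continuous f := by
    refine Continuous.subtype_mk ?_ _
    rw [continuous_prod_of_discrete_left]
    intro k
    exact (ha k).continuous.comp continuous_subtype_val
  have fo : IsOpenMap f := by
    intro O hO
    have h1 : IsOpen (Subtype.val '' (f '' O)) := by
      have h2 : Subtype.val '' (f '' O) =
          ⋃ k, a k '' (Subtype.val '' {y : p ⁻¹' U | (k, y) ∈ O}) := by
        ext w
        constructor
        · rintro ⟨_, ⟨⟨k, y⟩, hky, rfl⟩, rfl⟩
          exact mem_iUnion.2 ⟨k, y.1, ⟨y, hky, rfl⟩, rfl⟩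
        · intro hw
          obtain ⟨k, _, ⟨y, hy, rfl⟩, rfl⟩ := mem_iUnion.1 hw
          exact ⟨f (k, y), ⟨(k, y), hy, rfl⟩, rfl⟩
      rw [h2]
      refine isOpen_iUnion fun k => (ha k).isOpenMap _ ?_
      refine hpU.isOpenMap_subtype_val _ ?_
      exact hO.preimage (Continuous.prodMk continuous_const continuous_id)
    have h3 : f '' O = Subtype.val ⁻¹' (Subtype.val '' (f '' O)) :=
      (preimage_image_eq _ Subtype.val_injective).symm
    rw [h3]
    exact h1.preimage continuous_subtype_val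
  have fb : Function.Bijective f := by
    constructor
    · rintro ⟨k, y⟩ ⟨k', y'⟩ hff
      have h1 : a k y.1 = a k' y'.1 := congrArg Subtype.val hff
      have h2 := hi k k' _ _ h1
      subst h2
      have h3 : y.1 = y'.1 := (ha k).injective h1
      exact Prod.ext rfl (Subtype.ext h3)
    · rintro ⟨w, hw⟩
      obtain ⟨k, y, hy⟩ := hcov w (hUr hw)
      subst hy
      refine ⟨(k, ⟨y, ?_⟩), rfl⟩
      show p y ∈ U
      rw [← hq k y]
      exact hw
  let e : K × (p ⁻¹' U) ≃ₜ q ⁻¹' U :=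
    (Equiv.ofBijective f fb).toHomeomorphOfContinuousOpen fc fo
  let sw : K × (U × I) ≃ₜ U × (K × I) :=
    { toFun := fun t => (t.2.1, (t.1, t.2.2))
      invFun := fun t => (t.2.1, (t.1, t.2.2))
      left_inv := fun _ => rfl
      right_inv := fun _ => rfl
      continuous_toFun := by fun_prop
      continuous_invFun := by fun_prop }
  have key : IsEvenlyCovered q x (K × I) := by
    refine ⟨inferInstance, U, hxU, hU, hqU,
      e.symm.trans (((Homeomorph.refl K).prodCongr H).trans sw), ?_⟩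
    intro w
    obtain ⟨t, rfl⟩ := e.surjective w
    show ((sw (((Homeomorph.refl K).prodCongr H) (e.symm (e t)))).1 : V) = q (e t).1
    rw [e.symm_apply_apply]
    show ((H t.2).1 : V) = q (a t.1 t.2.1)
    rw [hH, hq]
  exact key.to_isEvenlyCovered_preimage

theorem CVG : Stmt_CVG := by
  intro V P R Z I J NP NR W _ _ _ _ _ A B p r c lam mu th a b q hNP hNR hA hB hp hr hlam hmu hW
  have hrange : range q = A ∪ B := by
    ext x
    constructor
    · rintro ⟨w, rfl⟩
      rcases hW.cover w with ⟨v, y, h⟩ | ⟨u, y, h⟩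
      · left
        rw [h, hW.qa, ← hp.2]
        exact ⟨y, rfl⟩
      · right
        rw [h, hW.qb, ← hr.2]
        exact ⟨y, rfl⟩
    · rintro (hx | hx)
      · rw [← hp.2] at hx
        obtain ⟨y, rfl⟩ := hx
        obtain ⟨v⟩ := hNP
        exact ⟨a v y, hW.qa v y⟩
      · rw [← hr.2] at hx
        obtain ⟨y, rfl⟩ := hx
        obtain ⟨u⟩ := hNR
        exact ⟨b u y, hW.qb u y⟩
  refine ⟨?_, hrange⟩
  intro x hx
  by_cases hxA : x ∈ A
  · have hne : Nonempty (p ⁻¹' {x}) := by
      rw [← hp.2] at hxA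
      obtain ⟨y, hy⟩ := hxA
      exact ⟨⟨y, hy⟩⟩
    refine CVG_even p q a x (hp.1 x hxA) hW.ea hW.ia hW.qa ?_
    intro w hw
    rcases hW.cover w with ⟨v, y, h⟩ | ⟨u, y, h⟩
    · exact ⟨v, y, h⟩
    · have h1 : r y ∈ A ∩ B := by
        refine ⟨?_, ?_⟩
        · rw [← hW.qb u y, ← h, ← hp.2]; exact hw
        · rw [← hr.2]; exact ⟨y, rfl⟩
      obtain ⟨j, z, hz⟩ := hmu.cover y h1
      refine ⟨(th.symm (u, j)).1, lam (th.symm (u, j)).2 z, ?_⟩
      rw [h, hz, hW.glue]
      have h2 : th ((th.symm (u, j)).1, (th.symm (u, j)).2) = (u, j) := by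
        rw [Prod.mk.eta, Equiv.apply_symm_apply]
      rw [h2]
  · have hxB : x ∈ B := hx.resolve_left hxA
    have hne : Nonempty (r ⁻¹' {x}) := by
      rw [← hr.2] at hxB
      obtain ⟨y, hy⟩ := hxB
      exact ⟨⟨y, hy⟩⟩
    refine CVG_even r q b x (hr.1 x hxB) hW.eb hW.ib hW.qb ?_
    intro w hw
    rcases hW.cover w with ⟨v, y, h⟩ | ⟨u, y, h⟩
    · have h1 : p y ∈ A ∩ B := by
        refine ⟨?_, ?_⟩
        · rw [← hp.2]; exact ⟨y, rfl⟩
        · rw [← hW.qa v y, ← h, ← hr.2]; exact hw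
      obtain ⟨i, z, hz⟩ := hlam.cover y h1
      exact ⟨(th (v, i)).1, mu (th (v, i)).2 z, by rw [h, hz, hW.glue]⟩
    · exact ⟨u, y, h⟩

end Pool.KT
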