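import Pool.Agent.Work.MP_70ab54_kt.InterfaceG

/-!
# MP_70ab54: block DEG, decomposition of the preimage of `C` into sheets (helper55)
-/

set_option autoImplicit false

namespace Pool.KT

open Set Topology

/-- a connected subset of `D` which meets a relatively clopen subset of `D` is contained in it -/
theorem DEG_sub {P : Type} [TopologicalSpace P] {D s t : Set P} (hs : IsPreconnected s)
    (hsD : s ⊆ D) (hO : ∃ O, IsOpen O ∧ t = D ∩ O) (hF : ∃ F, IsClosed F ∧ t = D ∩ F)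
    (hne : (s ∩ t).Nonempty) : s ⊆ t := by
  obtain ⟨O, hO, htO⟩ := hO
  obtain ⟨F, hF, htF⟩ := hF
  intro x hx
  by_contra hxt
  have hxF : x ∈ Fᶜ := fun h => hxt (by rw [htF]; exact ⟨hsD hx, h⟩)
  obtain ⟨y, hys, hyt⟩ := hne
  have hyO : y ∈ O := by
    rw [htO] at hyt
    exact hyt.2
  have hcov : s ⊆ O ∪ Fᶜ := by
    intro z hz
    by_cases h : z ∈ F
    · left
      have : z ∈ t := by rw [htF]; exact ⟨hsD hz, h⟩
      rw [htO] at this
      exact this.2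
    · exact Or.inr h
  obtain ⟨z, hzs, hzO, hzF⟩ := hs O Fᶜ hO hF.isOpen_compl hcov ⟨y, hys, hyO⟩ ⟨x, hx, hxF⟩
  have hzt : z ∈ t := by rw [htO]; exact ⟨hsD hzs, hzO⟩
  rw [htF] at hzt
  exact hzF hzt.2

theorem DEG (h1 : Stmt_PCG) (h2 : Stmt_UNG) : Stmt_DEG := by
  classical
  intro V P Z _ _ _ _ A C p c hA hC hCA hCc hp hl hc aZ
  have cp : Continuous p := by
    rw [← continuousOn_univ]
    have := hp.1.continuousOn
    rwa [← hp.2, preimage_range] at this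
  have hD : IsOpen (p ⁻¹' C) := hC.preimage cp
  let K : Type := {s : Set P // s.Nonempty ∧ (∃ O, IsOpen O ∧ s = p ⁻¹' C ∩ O) ∧
    (∃ F, IsClosed F ∧ s = p ⁻¹' C ∩ F) ∧ AE s}
  have hmem : ∀ y, p y ∈ C → ∃ k : K, y ∈ k.1 := by
    intro y hy
    obtain ⟨s, hys, hs, ha⟩ := hl ⟨y, hy⟩
    have hys' : y ∈ (Subtype.val '' s : Set P) := ⟨⟨y, hy⟩, hys, rfl⟩
    refine ⟨⟨Subtype.val '' s, ⟨y, hys'⟩, ?_, ?_, ha.image_embedding IsEmbedding.subtypeVal⟩, hys'⟩
    · obtain ⟨O, hO, hOs⟩ := isOpen_induced_iff.1 hs.2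
      exact ⟨O, hO, by rw [← hOs, Subtype.image_preimage_coe]⟩
    · obtain ⟨F, hF, hFs⟩ := isClosed_induced_iff.1 hs.1
      exact ⟨F, hF, by rw [← hFs, Subtype.image_preimage_coe]⟩
  have hsub : ∀ k : K, k.1 ⊆ p ⁻¹' C := by
    intro k x hx
    obtain ⟨O, hO, hkO⟩ := k.2.2.1
    rw [hkO] at hx
    exact hx.1
  have hopen : ∀ k : K, IsOpen k.1 := by
    intro k
    obtain ⟨O, hO, hkO⟩ := k.2.2.1
    rw [hkO]
    exact hD.inter hO
  have hconn : ∀ k : K, IsPreconnected k.1 := fun k =>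
    k.2.2.2.2.isPathConnected.isConnected.isPreconnected
  have hex : ∀ k : K, ∃ h : Z ≃ₜ k.1, ∀ z, p (h z) = c z := by
    intro k
    exact h2 V Z k.1 C c (fun x : k.1 => p x) hC hc
      (h1 V P A C p hA hC hCA hCc hp.1 k.1 k.2.1 k.2.2.1 k.2.2.2.1) aZ
      (ae_univ_iff.2 k.2.2.2.2)
  choose H hH using hex
  obtain ⟨x0, hx0⟩ := hCc.nonempty
  obtain ⟨y0, hy0⟩ : x0 ∈ range p := by rw [hp.2]; exact hCA hx0
  obtain ⟨k0, -⟩ := hmem y0 (by rw [hy0]; exact hx0)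
  let e : Option {k : K // k ≠ k0} ≃ K := Equiv.optionSubtypeNe k0
  refine ⟨{k : K // k ≠ k0}, fun o z => (H (e o) z : P), ?_⟩
  refine
  { emb := fun o => (hopen (e o)).isOpenEmbedding_subtypeVal.comp (H (e o)).isOpenEmbedding
    inj := ?_
    proj := fun o z => hH (e o) z
    cover := ?_ }
  · intro o o' z z' h
    have h : (H (e o) z : P) = (H (e o') z' : P) := h
    have m1 : (H (e o) z : P) ∈ (e o).1 := (H (e o) z).2
    have m2 : (H (e o) z : P) ∈ (e o').1 := by rw [h]; exact (H (e o') z').2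
    have s1 : (e o).1 ⊆ (e o').1 := DEG_sub (hconn _) (hsub _) (e o').2.2.1 (e o').2.2.2.1
      ⟨_, m1, m2⟩
    have s2 : (e o').1 ⊆ (e o).1 := DEG_sub (hconn _) (hsub _) (e o).2.2.1 (e o).2.2.2.1
      ⟨_, m2, m1⟩
    exact e.injective (Subtype.ext (s1.antisymm s2))
  · intro x hx
    obtain ⟨k, hk⟩ := hmem x hx
    refine ⟨e.symm k, (H k).symm ⟨x, hk⟩, ?_⟩
    have : e (e.symm k) = k := e.apply_symm_apply k
    rw [this, (H k).apply_symm_apply]

end Pool.KT
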