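import Pool.Agent.Work.MP_70ab54_kt.InterfaceG

/-!
# MP_70ab54: block EXG (helper87)
-/

set_option autoImplicit false

namespace Pool.KT

open Set Topology

theorem stmt_EXG (h1 : Stmt_PCG) : Stmt_EXG := by
  intro V P _ _ _ A C p hA hC hCA hCc hp hL
  obtain ⟨x, hx⟩ := hCc.nonempty
  obtain ⟨y, hy⟩ : x ∈ range p := by rw [hp.2]; exact hCA hx
  have hyC : y ∈ p ⁻¹' C := by show p y ∈ C; rw [hy]; exact hx
  obtain ⟨t, hyt, ht, ha⟩ := hL ⟨y, hyC⟩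
  have hs : AE ↥(Subtype.val '' t : Set P) := ha.image_embedding IsEmbedding.subtypeVal
  refine ⟨↥(Subtype.val '' t : Set P), inferInstance, fun z => p z, ?_, ae_univ_iff.2 hs⟩
  refine h1 V P A C p hA hC hCA hCc hp.1 _ ⟨y, ⟨y, hyC⟩, hyt, rfl⟩ ?_ ?_
  · obtain ⟨O, hO, hO2⟩ := isOpen_induced_iff.1 ht.2
    refine ⟨O, hO, ?_⟩
    rw [← hO2, Subtype.image_preimage_coe]
  · obtain ⟨F, hF, hF2⟩ := isClosed_induced_iff.1 ht.1
    refine ⟨F, hF, ?_⟩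
    rw [← hF2, Subtype.image_preimage_coe]

end Pool.KT
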