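import Pool.Agent.Work.MP_70ab54_kt.InterfaceG

/-!
# MP_70ab54: a tree of open absolute extensors is an absolute extensor (helper64)
-/

set_option autoImplicit false

namespace Pool.KT

open Set Topology

theorem EXH_fin {W N : Type} [TopologicalSpace W] (S : N → Set W) (d : N → ℕ) (par : N → N)
    (root : N) (hop : ∀ n, IsOpen (S n)) (hS : ∀ n, AE (S n))
    (hd : ∀ n, n ≠ root → d (par n) < d n)
    (hI : ∀ n m, m ≠ n → d m ≤ d n → (S n ∩ S m).Nonempty → n ≠ root ∧ m = par n)
    (hP : ∀ n, n ≠ root → AE ↥(S n ∩ S (par n))) (k : ℕ) :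
    ∀ F : Finset N, F.card = k → root ∈ F → (∀ n ∈ F, n ≠ root → par n ∈ F) →
      AE ↥(⋃ n ∈ F, S n) := by
  classical
  induction k with
  | zero =>
    intro F hF hr
    rw [Finset.card_eq_zero] at hF
    subst hF
    exact absurd hr (Finset.notMem_empty _)
  | succ k ih =>
    intro F hF hr hcl
    rcases (F.erase root).eq_empty_or_nonempty with he | hne
    · have hFr : F = {root} := by
        rw [Finset.erase_eq_empty_iff] at he
        rcases he with h | h
        · rw [h] at hr; exact absurd hr (Finset.notMem_empty _)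
        · exact h
      have e : (⋃ n ∈ F, S n) = S root := by rw [hFr]; simp
      rw [e]
      exact hS root
    obtain ⟨n, hn, hmax⟩ := (F.erase root).exists_max_image d hne
    have hnr : n ≠ root := Finset.ne_of_mem_erase hn
    have hnF : n ∈ F := Finset.mem_of_mem_erase hn
    have hcl' : ∀ m ∈ F.erase n, m ≠ root → par m ∈ F.erase n := by
      intro m hm hmr
      have hmF : m ∈ F := Finset.mem_of_mem_erase hm
      refine Finset.mem_erase.2 ⟨?_, hcl m hmF hmr⟩
      intro h
      have h1 := hd m hmr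
      have h2 := hmax m (Finset.mem_erase.2 ⟨hmr, hmF⟩)
      rw [h] at h1
      omega
    have h1 : AE ↥(⋃ m ∈ F.erase n, S m) := by
      refine ih (F.erase n) ?_ (Finset.mem_erase.2 ⟨hnr.symm, hr⟩) hcl'
      rw [Finset.card_erase_of_mem hnF, hF]
      rfl
    have e1 : (⋃ m ∈ F, S m) = S n ∪ ⋃ m ∈ F.erase n, S m := by
      conv_lhs => rw [← Finset.insert_erase hnF]
      rw [Finset.set_biUnion_insert]
    have e2 : S n ∩ (⋃ m ∈ F.erase n, S m) = S n ∩ S (par n) := by
      ext x
      constructor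
      · rintro ⟨hx, hx2⟩
        rw [mem_iUnion₂] at hx2
        obtain ⟨m, hm, hxm⟩ := hx2
        have hmn : m ≠ n := Finset.ne_of_mem_erase hm
        have hmF : m ∈ F := Finset.mem_of_mem_erase hm
        have key : m = par n := by
          by_cases hmr : m = root
          · rcases le_total (d m) (d n) with h | h
            · exact (hI n m hmn h ⟨x, hx, hxm⟩).2
            · exact absurd hmr (hI m n hmn.symm h ⟨x, hxm, hx⟩).1
          · exact (hI n m hmn (hmax m (Finset.mem_erase.2 ⟨hmr, hmF⟩)) ⟨x, hx, hxm⟩).2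
        rw [key] at hxm
        exact ⟨hx, hxm⟩
      · rintro ⟨hx, hx2⟩
        refine ⟨hx, mem_iUnion₂.2 ⟨par n, ?_, hx2⟩⟩
        refine Finset.mem_erase.2 ⟨?_, hcl n hnF hnr⟩
        intro h
        have := hd n hnr
        rw [h] at this
        omega
    rw [e1]
    refine (hS n).union_open h1 ?_ (hop n) (isOpen_biUnion fun m _ => hop m)
    rw [e2]
    exact hP n hnr

theorem EXH : Stmt_EXH := by
  classical
  intro W N _ S d par root hop hS hcov hd hI hP
  rw [ae_univ_iff]
  let ι := {F : Finset N // root ∈ F ∧ ∀ n ∈ F, n ≠ root → par n ∈ F}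
  have hne : Nonempty ι := ⟨⟨{root}, Finset.mem_singleton_self _, fun n hn hnr =>
    absurd (Finset.mem_singleton.1 hn) hnr⟩⟩
  have hmem : ∀ k n, d n ≤ k → ∃ F : ι, n ∈ F.1 := by
    intro k
    induction k with
    | zero =>
      intro n hn
      by_cases h : n = root
      · exact ⟨⟨{root}, Finset.mem_singleton_self _, fun n hn hnr =>
          absurd (Finset.mem_singleton.1 hn) hnr⟩, by rw [h]; exact Finset.mem_singleton_self _⟩
      · have := hd n h
        omega
    | succ k ih =>
      intro n hn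
      by_cases h : n = root
      · exact ⟨⟨{root}, Finset.mem_singleton_self _, fun n hn hnr =>
          absurd (Finset.mem_singleton.1 hn) hnr⟩, by rw [h]; exact Finset.mem_singleton_self _⟩
      · obtain ⟨F, hF⟩ := ih (par n) (by have := hd n h; omega)
        refine ⟨⟨insert n F.1, Finset.mem_insert_of_mem F.2.1, ?_⟩, Finset.mem_insert_self _ _⟩
        intro m hm hmr
        rcases Finset.mem_insert.1 hm with h1 | h1
        · rw [h1]; exact Finset.mem_insert_of_mem hF
        · exact Finset.mem_insert_of_mem (F.2.2 m h1 hmr)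
  refine AE.of_directed (ι := ι) (fun F => ⋃ n ∈ F.1, S n) ?_ ?_ ?_
  · intro F G
    refine ⟨⟨F.1 ∪ G.1, Finset.mem_union_left _ F.2.1, ?_⟩, ?_, ?_⟩
    · intro m hm hmr
      rcases Finset.mem_union.1 hm with h | h
      · exact Finset.mem_union_left _ (F.2.2 m h hmr)
      · exact Finset.mem_union_right _ (G.2.2 m h hmr)
    · intro x hx
      obtain ⟨n, hn, hxn⟩ := mem_iUnion₂.1 hx
      exact mem_iUnion₂.2 ⟨n, Finset.mem_union_left _ hn, hxn⟩
    · intro x hx
      obtain ⟨n, hn, hxn⟩ := mem_iUnion₂.1 hx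
      exact mem_iUnion₂.2 ⟨n, Finset.mem_union_right _ hn, hxn⟩
  · intro F
    exact EXH_fin S d par root hop hS hd hI hP F.1.card F.1 rfl F.2.1 F.2.2
  · intro z
    have hz : z ∈ ⋃ n, S n := by rw [hcov]; exact mem_univ z
    obtain ⟨n, hn⟩ := mem_iUnion.1 hz
    obtain ⟨F, hF⟩ := hmem (d n) n le_rfl
    exact ⟨F, Filter.mem_of_superset ((hop n).mem_nhds hn) (fun x hx => mem_iUnion₂.2 ⟨n, hF, hx⟩)⟩

end Pool.KT
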