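import Pool.Agent.Work.MP_70ab54_kt.InterfaceG

/-!
# MP_70ab54: assembly of the two-piece theorem G (helper52)
-/

set_option autoImplicit false

namespace Pool.KT

open Set Topology

theorem GG (hBR : Stmt_BRG) (hEX : Stmt_EXG) (hDE : Stmt_DEG) (hTR : Stmt_TRG)
    (hAM : Stmt_AMG) (hCV : Stmt_CVG) (hLA : Stmt_LAG) (hAE : Stmt_AEG) : Stmt_G := by
  intro V _ _ A B ι E hA hB hC hE hgA hgB
  have hAB : IsOpen (A ∩ B) := hA.inter hB
  obtain ⟨P, tP, p, hp, aP, eP⟩ := (hBR V A (Option ι) _ hA).1 hgA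
  obtain ⟨R, tR, r, hr, aR, eR⟩ := (hBR V B Unit _ hB).1 hgB
  have lP : LAE (p ⁻¹' (A ∩ B)) := eP none
  have lR : LAE (r ⁻¹' (A ∩ B)) := eR ()
  obtain ⟨Z, tZ, c, hc, aZ⟩ := hEX V P A (A ∩ B) p hA hAB inter_subset_left hC hp lP
  obtain ⟨I, lam, hlam⟩ := hDE V P Z A (A ∩ B) p c hA hAB inter_subset_left hC hp lP hc aZ
  obtain ⟨J, mu, hmu⟩ := hDE V R Z B (A ∩ B) r c hB hAB inter_subset_right hC hr lR hc aZ
  obtain ⟨T⟩ := hTR I J
  have cp : Continuous p := by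
    rw [← continuousOn_univ]
    have := hp.1.continuousOn
    rwa [← hp.2, preimage_range] at this
  have cr : Continuous r := by
    rw [← continuousOn_univ]
    have := hr.1.continuousOn
    rwa [← hr.2, preimage_range] at this
  obtain ⟨W, tW, a, b, q, hW⟩ := hAM V P R Z (Option I) (Option J) T.NP T.NR (A ∩ B) p r c lam mu
    T.th cp cr hlam hmu
  refine (hBR V (A ∪ B) ι E (hA.union hB)).2 ⟨W, tW, q, ?_, ?_, fun i => ?_⟩
  · exact hCV V P R Z (Option I) (Option J) T.NP T.NR W A B p r c lam mu T.th a b q ⟨T.root⟩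
      ⟨(T.th (T.root, none)).1⟩ hA hB hp hr hlam hmu hW
  · exact hAE V P R Z I J W (A ∩ B) p r c T lam mu a b q aP aR aZ hlam hmu hW
  · exact hLA V P R Z (Option I) (Option J) T.NP T.NR W A B (E i) p r c lam mu T.th a b q hA hp.2
      hr.2 (hE i) hlam hmu hW (eP (some i))

end Pool.KT
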