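import Pool.Agent.Work.MP_70ab54_kt.InterfaceG

/-!
# MP_70ab54: block GLG, pushout of two open embeddings (helper96)
-/

set_option autoImplicit false

namespace Pool.KT

open Set Topology

/-- The gluing relation. -/
def GLG_rel {D X Y : Type} (f : D → X) (g : D → Y) : X ⊕ Y → X ⊕ Y → Prop
  | Sum.inl x, Sum.inl x' => x = x'
  | Sum.inr y, Sum.inr y' => y = y'
  | Sum.inl x, Sum.inr y => ∃ d, x = f d ∧ y = g d
  | Sum.inr y, Sum.inl x => ∃ d, x = f d ∧ y = g d

/-- The gluing setoid. -/
def GLG_setoid {D X Y : Type} (f : D → X) (g : D → Y) (hf : Function.Injective f)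
    (hg : Function.Injective g) : Setoid (X ⊕ Y) where
  r := GLG_rel f g
  iseqv := by
    refine ⟨?_, ?_, ?_⟩
    · rintro (x | y) <;> exact rfl
    · rintro (x | y) (x' | y') h
      · exact (h : x = x').symm
      · exact h
      · exact h
      · exact (h : y = y').symm
    · rintro (x | y) (x' | y') (x'' | y'') h h'
      · exact (h : x = x').trans h'
      · change x = x' at h; subst h; exact h'
      · obtain ⟨d, rfl, rfl⟩ := h
        obtain ⟨d', rfl, h2⟩ := h'
        change f d = f d'
        rw [hg h2]
      · change y' = y'' at h'; subst h'; exact h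
      · change x' = x'' at h'; subst h'; exact h
      · obtain ⟨d, rfl, rfl⟩ := h
        obtain ⟨d', h2, rfl⟩ := h'
        change g d = g d'
        rw [hf h2]
      · change y = y' at h; subst h; exact h'
      · exact (h : y = y').trans h'

theorem stmt_GLG : Stmt_GLG := by
  intro D X Y _ _ _ f g hf hg
  let S : Setoid (X ⊕ Y) := GLG_setoid f g hf.injective hg.injective
  have hrel : ∀ p q : X ⊕ Y, (Quotient.mk S p = Quotient.mk S q) ↔ GLG_rel f g p q := by
    intro p q
    exact ⟨fun h => Quotient.exact h, fun h => Quotient.sound h⟩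
  have hcont : Continuous (Quotient.mk S) := continuous_quot_mk
  have hopen : ∀ U : Set (Quotient S), IsOpen (Quotient.mk S ⁻¹' U) → IsOpen U := by
    intro U h
    exact (isQuotientMap_quot_mk (r := S.r)).isOpen_preimage.1 h
  have ea : IsOpenEmbedding (fun x : X => Quotient.mk S (Sum.inl x)) := by
    refine IsOpenEmbedding.of_continuous_injective_isOpenMap (hcont.comp continuous_inl) ?_ ?_
    · intro x x' h
      exact (hrel _ _).1 h
    · intro U hU
      refine hopen _ (isOpen_sum_iff.2 ⟨?_, ?_⟩)
      · convert hU using 1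
        ext x
        constructor
        · rintro ⟨x', hx', h⟩
          have h1 : x' = x := (hrel _ _).1 h
          rwa [← h1]
        · intro h
          exact ⟨x, h, rfl⟩
      · have h2 : IsOpen (g '' (f ⁻¹' U)) := hg.isOpenMap _ (hU.preimage hf.continuous)
        convert h2 using 1
        ext y
        constructor
        · rintro ⟨x', hx', h⟩
          obtain ⟨d, h3, h4⟩ : ∃ d, x' = f d ∧ y = g d := (hrel _ _).1 h
          exact ⟨d, by rw [mem_preimage, ← h3]; exact hx', h4.symm⟩
        · rintro ⟨d, hd, rfl⟩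
          exact ⟨f d, hd, (hrel _ _).2 ⟨d, rfl, rfl⟩⟩
  have eb : IsOpenEmbedding (fun y : Y => Quotient.mk S (Sum.inr y)) := by
    refine IsOpenEmbedding.of_continuous_injective_isOpenMap (hcont.comp continuous_inr) ?_ ?_
    · intro x x' h
      exact (hrel _ _).1 h
    · intro U hU
      refine hopen _ (isOpen_sum_iff.2 ⟨?_, ?_⟩)
      · have h2 : IsOpen (f '' (g ⁻¹' U)) := hf.isOpenMap _ (hU.preimage hg.continuous)
        convert h2 using 1
        ext x
        constructor
        · rintro ⟨y', hy', h⟩
          obtain ⟨d, h3, h4⟩ : ∃ d, x = f d ∧ y' = g d := (hrel _ _).1 h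
          exact ⟨d, by rw [mem_preimage, ← h4]; exact hy', h3.symm⟩
        · rintro ⟨d, hd, rfl⟩
          exact ⟨g d, hd, (hrel _ _).2 ⟨d, rfl, rfl⟩⟩
      · convert hU using 1
        ext y
        constructor
        · rintro ⟨y', hy', h⟩
          have h1 : y' = y := (hrel _ _).1 h
          rwa [← h1]
        · intro h
          exact ⟨y, h, rfl⟩
  refine ⟨Quotient S, inferInstance, _, _, ea, eb, ?_, ?_, ?_⟩
  · intro d
    exact (hrel _ _).2 ⟨d, rfl, rfl⟩
  · intro w
    induction w using Quotient.inductionOn with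
    | h p =>
      rcases p with x | y
      · exact Or.inl ⟨x, rfl⟩
      · exact Or.inr ⟨y, rfl⟩
  · intro x y h
    exact (hrel _ _).1 h

end Pool.KT
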