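import Pool.Agent.Work.MP_70ab54_kt.InterfaceG

/-!
# MP_70ab54: block PCG (helper87)
-/

set_option autoImplicit false

namespace Pool.KT

open Set Topology

/-- local form: over a path connected open neighbourhood inside `C`, a relatively clopen subset of
the preimage of `C` is a product -/
theorem PCG_local {V P : Type} [TopologicalSpace V] [LocallyPathConnectedSpace V]
    [TopologicalSpace P] {A C : Set V} {p : P → V} (hC : IsOpen C) (hCA : C ⊆ A)
    (hp : IsCoveringMapOn p A) {s : Set P} (hO : ∃ O, IsOpen O ∧ s = p ⁻¹' C ∩ O)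
    (hF : ∃ F, IsClosed F ∧ s = p ⁻¹' C ∩ F) {x : V} (hx : x ∈ C) :
    ∃ (J : Type) (_ : TopologicalSpace J) (_ : DiscreteTopology J) (N : Set V), IsOpen N ∧
      x ∈ N ∧ N ⊆ C ∧ IsOpen ((fun y : s => p y) ⁻¹' N) ∧
      ∃ H : (fun y : s => p y) ⁻¹' N ≃ₜ N × J, ∀ y, (H y).1.1 = p y := by
  obtain ⟨disc, U, hxU, hU, hpU, H, hH⟩ := hp x (hCA hx)
  obtain ⟨N, ⟨hN, hxN, hNc⟩, hNU⟩ := (isOpen_isPathConnected_basis x).mem_iff.1
    ((hU.inter hC).mem_nhds ⟨hxU, hx⟩)
  have hNU : N ⊆ U ∩ C := hNU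
  obtain ⟨O, hO, hsO⟩ := hO
  obtain ⟨F, hF, hsF⟩ := hF
  have hN1 : ∀ y : N, (y : V) ∈ U := fun y => (hNU y.2).1
  have hpH : ∀ (y : U) (i : p ⁻¹' {x}), p (H.symm (y, i)) = y := by
    intro y i
    rw [← hH, H.apply_symm_apply]
  -- the sheets over N
  let σ : p ⁻¹' {x} → N → P := fun i y => (H.symm (⟨y, hN1 y⟩, i) : P)
  have hσc : ∀ i, Continuous (σ i) := by
    intro i
    refine continuous_subtype_val.comp (H.symm.continuous.comp ?_)
    exact (continuous_subtype_val.subtype_mk _).prodMk continuous_const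
  have hσp : ∀ i y, p (σ i y) = y := fun i y => hpH _ _
  have : PreconnectedSpace N :=
    isPreconnected_iff_preconnectedSpace.1 hNc.isConnected.isPreconnected
  have hclop : ∀ i, IsClopen ((σ i) ⁻¹' s) := by
    intro i
    have e1 : (σ i) ⁻¹' s = (σ i) ⁻¹' O := by
      ext y
      rw [hsO]
      refine ⟨fun h => h.2, fun h => ⟨?_, h⟩⟩
      show p (σ i y) ∈ C
      rw [hσp]
      exact (hNU y.2).2
    have e2 : (σ i) ⁻¹' s = (σ i) ⁻¹' F := by
      ext y
      rw [hsF]
      refine ⟨fun h => h.2, fun h => ⟨?_, h⟩⟩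
      show p (σ i y) ∈ C
      rw [hσp]
      exact (hNU y.2).2
    refine ⟨?_, ?_⟩
    · rw [e2]; exact hF.preimage (hσc i)
    · rw [e1]; exact hO.preimage (hσc i)
  have hconst : ∀ i y y', σ i y ∈ s → σ i y' ∈ s := by
    intro i y y' h
    rcases isClopen_iff.1 (hclop i) with h0 | h0
    · have : y ∈ (σ i) ⁻¹' s := h
      rw [h0] at this
      exact this.elim
    · have : y' ∈ (σ i) ⁻¹' s := by rw [h0]; trivial
      exact this
  let J : Type := {i : p ⁻¹' {x} // σ i ⟨x, hxN⟩ ∈ s}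
  have hpUc : Continuous (fun e : p ⁻¹' U => p e) := by
    have : (fun e : p ⁻¹' U => p e) = fun e => ((H e).1 : V) := by
      funext e; exact (hH e).symm
    rw [this]
    exact continuous_subtype_val.comp (continuous_fst.comp H.continuous)
  have hpcont : ContinuousOn p (p ⁻¹' U) := by
    rw [continuousOn_iff_continuous_domRestrict]
    exact hpUc
  have hNopen : IsOpen (p ⁻¹' N) := by
    have h1 := hpcont.isOpen_inter_preimage hpU hN
    have h2 : p ⁻¹' U ∩ p ⁻¹' N = p ⁻¹' N := by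
      ext y
      exact ⟨fun h => h.2, fun h => ⟨(hNU h).1, h⟩⟩
    rwa [h2] at h1
  -- points of the preimage of N in the chart
  have hback : ∀ (e : P) (he : p e ∈ N), σ (H ⟨e, (hNU he).1⟩).2 ⟨p e, he⟩ = e := by
    intro e he
    have h1 : (⟨⟨p e, (hNU he).1⟩, (H ⟨e, (hNU he).1⟩).2⟩ : U × (p ⁻¹' {x})) =
        H ⟨e, (hNU he).1⟩ := by
      refine Prod.ext (Subtype.ext ?_) rfl
      exact (hH ⟨e, (hNU he).1⟩).symm
    show ((H.symm (⟨p e, _⟩, (H ⟨e, (hNU he).1⟩).2)) : P) = e
    rw [h1, H.symm_apply_apply]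
  refine ⟨J, inferInstance, inferInstance, N, hN, hxN, fun y hy => (hNU hy).2, ?_, ?_⟩
  · exact hNopen.preimage continuous_subtype_val
  · refine ⟨{
      toFun := fun e => (⟨p e.1, e.2⟩, ⟨(H ⟨e.1, (hNU e.2).1⟩).2, ?_⟩)
      invFun := fun q => ⟨⟨σ q.2.1 q.1, hconst _ _ _ q.2.2⟩, ?_⟩
      left_inv := ?_
      right_inv := ?_
      continuous_toFun := ?_
      continuous_invFun := ?_ }, fun y => rfl⟩
    · refine hconst _ ⟨p e.1, e.2⟩ _ ?_
      rw [hback e.1 e.2]
      exact e.1.2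
    · show p (σ q.2.1 q.1) ∈ N
      rw [hσp]
      exact q.1.2
    · intro e
      refine Subtype.ext (Subtype.ext ?_)
      exact hback e.1 e.2
    · intro q
      refine Prod.ext (Subtype.ext ?_) (Subtype.ext ?_)
      · exact hσp _ _
      · show (H ⟨σ q.2.1 q.1, _⟩).2 = q.2.1
        have : (⟨σ q.2.1 q.1, by show p (σ q.2.1 q.1) ∈ U; rw [hσp]; exact hN1 _⟩ : p ⁻¹' U) =
            H.symm (⟨q.1, hN1 q.1⟩, q.2.1) := Subtype.ext rfl
        rw [this, H.apply_symm_apply]
    · refine Continuous.prodMk ?_ ?_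
      · refine Continuous.subtype_mk ?_ _
        have : (fun e : (fun y : s => p y) ⁻¹' N => p e.1) =
          fun e => (fun z : p ⁻¹' U => p z) ⟨e.1, (hNU e.2).1⟩ := rfl
        rw [this]
        refine hpUc.comp ?_
        exact (continuous_subtype_val.comp continuous_subtype_val).subtype_mk _
      · refine Continuous.subtype_mk ?_ _
        refine continuous_snd.comp (H.continuous.comp ?_)
        exact (continuous_subtype_val.comp continuous_subtype_val).subtype_mk _
    · refine Continuous.subtype_mk (Continuous.subtype_mk ?_ _) _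
      show Continuous (fun q : N × J => (H.symm (⟨q.1, hN1 q.1⟩, q.2.1) : P))
      refine continuous_subtype_val.comp (H.symm.continuous.comp ?_)
      exact ((continuous_subtype_val.comp continuous_fst).subtype_mk _).prodMk
        (continuous_subtype_val.comp continuous_snd)

theorem stmt_PCG : Stmt_PCG := by
  intro V P _ _ _ A C p hA hC hCA hCc hp s hs hO hF
  refine ⟨?_, ?_⟩
  · intro x hx
    obtain ⟨J, _, _, N, hN, hxN, hNC, hNo, H, hH⟩ := PCG_local hC hCA hp hO hF hx
    exact IsEvenlyCovered.to_isEvenlyCovered_preimage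
      (I := J) ⟨inferInstance, N, hxN, hN, hNo, H, hH⟩
  · have hsub : range (fun x : s => p x) ⊆ C := by
      rintro _ ⟨y, rfl⟩
      obtain ⟨O, -, hsO⟩ := hO
      exact (hsO.subset y.2).1
    refine hsub.antisymm ?_
    have : PreconnectedSpace C :=
      isPreconnected_iff_preconnectedSpace.1 hCc.isConnected.isPreconnected
    have hlc : IsLocallyConstant (fun c : C => (c : V) ∈ range (fun x : s => p x)) := by
      rw [IsLocallyConstant.iff_exists_open]
      intro c
      obtain ⟨J, _, _, N, hN, hxN, hNC, hNo, H, hH⟩ := PCG_local hC hCA hp hO hF c.2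
      have key : ∀ y ∈ N, (y ∈ range (fun x : s => p x) ↔ Nonempty J) := by
        intro y hy
        constructor
        · rintro ⟨z, hz⟩
          exact ⟨(H ⟨z, by show p z ∈ N; rw [show p z = y from hz]; exact hy⟩).2⟩
        · rintro ⟨j⟩
          refine ⟨(H.symm (⟨y, hy⟩, j)).1, ?_⟩
          show p ((H.symm (⟨y, hy⟩, j)).1) = y
          rw [← hH, H.apply_symm_apply]
      refine ⟨Subtype.val ⁻¹' N, hN.preimage continuous_subtype_val, hxN, ?_⟩
      intro c' hc'
      exact propext ((key _ hc').trans (key _ hxN).symm)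
    obtain ⟨y0, hy0⟩ := hs
    intro y hy
    have h1 := hlc.apply_eq_of_preconnectedSpace ⟨y, hy⟩ ⟨p y0, hsub ⟨⟨y0, hy0⟩, rfl⟩⟩
    have h2 : (y ∈ range (fun x : s => p x)) = (p y0 ∈ range (fun x : s => p x)) := h1
    rw [h2]
    exact ⟨⟨y0, hy0⟩, rfl⟩

end Pool.KT
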