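import Pool.Agent.Work.MP_70ab54_kt.InterfaceS

/-!
# Block S_CLO: cones over compact sets are closed
-/

set_option autoImplicit false

namespace Pool.KT

open Set Topology
open scoped ContDiff

theorem S_CLO : Stmt_S_CLO := by
  intro d Φ K hC hK hKB
  have hcont : ContinuousOn Φ (cyl (Bd d)) := hC.loc.2.1.continuousOn
  have hsub : (Metric.sphere (0 : ℂ) 1) ×ˢ K ⊆ cyl (Bd d) := by
    rintro ⟨w, x⟩ ⟨hw, hx⟩
    refine ⟨?_, hKB hx⟩
    intro h0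
    have h0' : w = 0 := h0
    rw [mem_sphere_zero_iff_norm, h0', norm_zero] at hw
    exact zero_ne_one hw
  have hL : IsCompact (Φ '' ((Metric.sphere (0 : ℂ) 1) ×ˢ K)) :=
    ((isCompact_sphere (0 : ℂ) 1).prod hK).image_of_continuousOn (hcont.mono hsub)
  set L := Φ '' ((Metric.sphere (0 : ℂ) 1) ×ˢ K) with hLdef
  have hL0 : ∀ y ∈ L, y ≠ 0 := by
    rintro y ⟨q, hq, rfl⟩
    exact hC.ne q (hsub hq)
  set n : E5 → E5 := fun z => ‖z‖⁻¹ • z with hn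
  have hncont : ContinuousOn n {z : E5 | z ≠ 0} := by
    have h1 : ContinuousOn (fun z : E5 => ‖z‖⁻¹) {z : E5 | z ≠ 0} :=
      (continuous_norm (E := E5)).continuousOn.inv₀ fun z hz => norm_ne_zero_iff.mpr hz
    exact h1.smul continuousOn_id
  have hL' : IsCompact (n '' L) := hL.image_of_continuousOn (hncont.mono fun y hy => hL0 y hy)
  have hreg : ∀ z : E5, z ∈ reg Φ K ↔ ∃ t : ℝ, 0 < t ∧ ∃ y ∈ L, z = t • y := by
    intro z
    constructor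
    · rintro ⟨⟨w, x⟩, ⟨hw, hx⟩, rfl⟩
      have hw' : w ≠ 0 := hw
      have hpos : 0 < ‖w‖ := norm_pos_iff.mpr hw'
      have hmem : (‖w‖⁻¹ • w, x) ∈ (Metric.sphere (0 : ℂ) 1) ×ˢ K := by
        refine ⟨?_, hx⟩
        rw [mem_sphere_zero_iff_norm, norm_smul, norm_inv, norm_norm, inv_mul_cancel₀ hpos.ne']
      refine ⟨‖w‖, hpos, Φ (‖w‖⁻¹ • w, x), ⟨_, hmem, rfl⟩, ?_⟩
      rw [← hC.hom ‖w‖ hpos _ (hsub hmem)]
      simp only [smul_smul, mul_inv_cancel₀ hpos.ne', one_smul]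
    · rintro ⟨t, ht, y, ⟨q, hq, rfl⟩, rfl⟩
      rw [← hC.hom t ht q (hsub hq)]
      refine ⟨(t • q.1, q.2), ⟨?_, hq.2⟩, rfl⟩
      exact smul_ne_zero ht.ne' (hsub hq).1
  have hmain : ({0} ∪ reg Φ K)ᶜ = {z : E5 | z ≠ 0} ∩ n ⁻¹' (n '' L)ᶜ := by
    ext z
    simp only [mem_compl_iff, mem_union, mem_singleton_iff, not_or, mem_inter_iff, mem_preimage]
    constructor
    · rintro ⟨h0, h1⟩
      refine ⟨h0, ?_⟩
      rintro ⟨y, hy, hyz⟩
      apply h1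
      rw [hreg]
      have hy0 : 0 < ‖y‖ := norm_pos_iff.mpr (hL0 y hy)
      have hz0 : 0 < ‖z‖ := norm_pos_iff.mpr h0
      refine ⟨‖z‖ * ‖y‖⁻¹, by positivity, y, hy, ?_⟩
      have h2 : ‖y‖⁻¹ • y = ‖z‖⁻¹ • z := hyz
      rw [mul_smul, h2, smul_smul, mul_inv_cancel₀ hz0.ne', one_smul]
    · rintro ⟨h0, h1⟩
      refine ⟨h0, ?_⟩
      rw [hreg]
      rintro ⟨t, ht, y, hy, rfl⟩
      apply h1
      refine ⟨y, hy, ?_⟩
      have hy0 : 0 < ‖y‖ := norm_pos_iff.mpr (hL0 y hy)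
      change ‖y‖⁻¹ • y = ‖t • y‖⁻¹ • (t • y)
      rw [norm_smul, Real.norm_eq_abs, abs_of_pos ht, smul_smul, mul_inv, mul_right_comm,
        inv_mul_cancel₀ ht.ne', one_mul]
  rw [← isOpen_compl_iff, hmain]
  exact hncont.isOpen_inter_preimage isOpen_ne hL'.isClosed.isOpen_compl

end Pool.KT
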