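import Pool.Agent.Work.MP_70ab54_kt.InterfaceS
import Pool.Agent.Work.MP_70ab54_kt.KLoc

/-!
# MP_70ab54: block S_CON (a chart whose region misses the torus is transported to a chart)
-/

set_option autoImplicit false

namespace Pool.KT

open Set Topology
open scoped ContDiff

theorem S_CON : Stmt_S_CON := by
  intro d d' c Φ Φ' j J hS hC hd
  have hout : ∀ q ∈ cyl (Bd c), Φ' q ∉ reg Φ Ucirc := fun q hq h =>
    Set.disjoint_left.1 hd ⟨q, hq, rfl⟩ h
  have hm : MapsTo Φ' (cyl (Bd c)) ({0} ∪ reg Φ Ucirc)ᶜ := by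
    rintro q hq (h | h)
    · exact hC.ne q hq h
    · exact hout q hq h
  refine ⟨hC.pos, hS.loc.comp hC.loc hm, ?_, ?_, ?_⟩
  · intro q hq q' hq' h
    exact hC.inj hq hq' (hS.inj (hout q hq) (hout q' hq') h)
  · intro t ht q hq
    change J (Φ' (t • q.1, q.2)) = t • J (Φ' q)
    rw [hC.hom t ht q hq]
    exact hS.hom t ht _ (hout q hq)
  · intro q hq
    exact hS.ne _ (hout q hq) (hC.ne q hq)

end Pool.KT
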