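import Pool.Agent.Work.MP_70ab54_kt.InterfaceS

/-! # MP_70ab54: block S_CYL, good covers of cylinders (helper74) -/

set_option autoImplicit false

namespace Pool.KT

open Set Topology
open scoped ContDiff

/-- the product of the punctured plane with `O` -/
def S_CYL_e (O : Set R3) : {z : ℂ // z ≠ 0} × ↥O ≃ₜ ↥(cyl O) where
  toFun p := ⟨(p.1.1, p.2.1), p.1.2, p.2.2⟩
  invFun p := (⟨p.1.1, p.2.1⟩, ⟨p.1.2, p.2.2⟩)
  left_inv p := rfl
  right_inv p := rfl
  continuous_toFun := by
    refine Continuous.subtype_mk ?_ _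
    exact (continuous_subtype_val.comp continuous_fst).prodMk
      (continuous_subtype_val.comp continuous_snd)
  continuous_invFun := by
    refine Continuous.prodMk ?_ ?_
    · refine Continuous.subtype_mk ?_ _
      exact continuous_fst.comp continuous_subtype_val
    · refine Continuous.subtype_mk ?_ _
      exact continuous_snd.comp continuous_subtype_val

theorem S_CYL (hPROD : Stmt_K_PROD) : Stmt_S_CYL := by
  rintro O E - ⟨R, tR, q, hq, hs, hR, hL⟩
  let c : ℂ → {z : ℂ // z ≠ 0} := fun z => ⟨Complex.exp z, z.exp_ne_zero⟩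
  have hc : IsCoveringMap c := Complex.isCoveringMap_exp
  have hcs : Function.Surjective c := fun z =>
    ⟨Complex.log z.1, Subtype.ext (Complex.exp_log z.2)⟩
  have hp : IsCoveringMap (Prod.map c q) := hPROD ℂ {z : ℂ // z ≠ 0} R ↥O c q hc hq
  refine ⟨ℂ × R, inferInstance, S_CYL_e O ∘ Prod.map c q, hp.homeomorph_comp (S_CYL_e O),
    (S_CYL_e O).surjective.comp (hcs.prodMap hs), (ae_of_tietze ℂ).prod hR, fun i => ?_⟩
  let e : ℂ × ↥{r : R | (q r : R3) ∈ E} ≃ₜ
      ↥{r : ℂ × R | ((S_CYL_e O ∘ Prod.map c q) r : ℂ × R3) ∈ cyl E} :=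
    { toFun := fun p => ⟨(p.1, p.2.1), (c p.1).2, p.2.2⟩
      invFun := fun p => (p.1.1, ⟨p.1.2, p.2.2⟩)
      left_inv := fun p => rfl
      right_inv := fun p => rfl
      continuous_toFun := by
        refine Continuous.subtype_mk ?_ _
        exact continuous_fst.prodMk (continuous_subtype_val.comp continuous_snd)
      continuous_invFun := by
        refine Continuous.prodMk (continuous_fst.comp continuous_subtype_val) ?_
        refine Continuous.subtype_mk ?_ _
        exact continuous_snd.comp continuous_subtype_val }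
  exact (LAE.prod (ae_of_tietze ℂ).lae (hL i)).homeomorph e

end Pool.KT
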