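import Pool.Agent.Work.MP_70ab54_kt.InterfaceS

/-!
# MP_70ab54: block S_INV, smooth inverse of an injective local diffeomorphism (helper92)
-/

set_option autoImplicit false

namespace Pool.KT

open Set Topology Filter
open scoped ContDiff

theorem S_INV : Stmt_S_INV := by
  intro E F _ _ _ _ _ _ f W hf hinj
  classical
  have : Nonempty E := ⟨0⟩
  refine ⟨Function.invFunOn f W, fun x hx => hinj.leftInvOn_invFunOn hx, ?_⟩
  set g := Function.invFunOn f W with hg
  have hgf : ∀ x ∈ W, g (f x) = x := fun x hx => hinj.leftInvOn_invFunOn hx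
  have hopen : IsOpen (f '' W) := hf.isOpen_image
  have key : ∀ x ∈ W, ContDiffAt ℝ ∞ g (f x) := by
    intro x hx
    have hb := hf.2.2 x hx
    let L := ContinuousLinearEquiv.ofBijective (fderiv ℝ f x)
      (LinearMap.ker_eq_bot.2 hb.1) (LinearMap.range_eq_top.2 hb.2)
    have hL : (L : E →L[ℝ] F) = fderiv ℝ f x := by
      ext v; rfl
    have hd : HasFDerivAt f (L : E →L[ℝ] F) x := by
      rw [hL]; exact (hf.differentiableAt hx).hasFDerivAt
    have hc := hf.contDiffAt hx
    have hn : (∞ : WithTop ℕ∞) ≠ 0 := by simp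
    let e := hc.toOpenPartialHomeomorph f hd hn
    have hfx : f x ∈ e.target := hc.image_mem_toOpenPartialHomeomorph_target hd hn
    have hxs : x ∈ e.source := hc.mem_toOpenPartialHomeomorph_source hd hn
    have hex : e.symm (f x) = x := e.left_inv hxs
    have hsm : ContDiffAt ℝ ∞ e.symm (f x) := by
      apply e.contDiffAt_symm hfx (f₀' := L)
      · rw [hex]; exact hd
      · rw [hex]; exact hc
    refine hsm.congr_of_eventuallyEq ?_
    have h1 : ∀ᶠ y in 𝓝 (f x), y ∈ e.target := e.open_target.mem_nhds hfx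
    have h2 : ∀ᶠ y in 𝓝 (f x), e.symm y ∈ W := by
      have h3 : ContinuousAt e.symm (f x) := e.symm.continuousAt hfx
      have h4 := h3.preimage_mem_nhds (t := W) (by rw [hex]; exact hf.1.mem_nhds hx)
      exact h4
    filter_upwards [h1, h2] with y hy1 hy2
    have h5 : f (e.symm y) = y := e.right_inv hy1
    rw [← h5, hgf _ hy2, h5]
  refine ⟨hopen, ?_, ?_⟩
  · rintro _ ⟨x, hx, rfl⟩
    exact (key x hx).contDiffWithinAt
  · rintro _ ⟨x, hx, rfl⟩
    have hb := hf.2.2 x hx
    have h1 : DifferentiableAt ℝ g (f x) := (key x hx).differentiableAt (by simp)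
    have h2 : (fderiv ℝ g (f x)).comp (fderiv ℝ f x) = ContinuousLinearMap.id ℝ E := by
      rw [← fderiv_comp x h1 (hf.differentiableAt hx)]
      have h3 : (g ∘ f) =ᶠ[𝓝 x] id := by
        filter_upwards [hf.1.mem_nhds hx] with y hy using hgf y hy
      rw [h3.fderiv_eq, fderiv_id]
    have h3 : ∀ v, fderiv ℝ g (f x) (fderiv ℝ f x v) = v := fun v =>
      congrArg (fun T : E →L[ℝ] E => T v) h2
    constructor
    · intro a b hab
      obtain ⟨a', rfl⟩ := hb.2 a
      obtain ⟨b', rfl⟩ := hb.2 b
      rw [h3, h3] at hab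
      rw [hab]
    · intro v
      exact ⟨_, h3 v⟩

end Pool.KT
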