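import Pool.Agent.Work.MP_70ab54_kt.SLem

/-!
# MP_70ab54: block S_KN (helper52)
-/

set_option autoImplicit false

namespace Pool.KT

open Set Topology

theorem S_KN : Stmt_S_KN := by
  intro hK d hd
  obtain ⟨j, e₀, h1, h2, h3, h4, h5, h6, h7, h8⟩ := hK d hd
  exact ⟨j, e₀, h1, h2, fun e he hle => ⟨he, lt_of_le_of_lt hle h2, h3, h4, h5,
    (nu_mono he hle).trans h6, h7, (h8 e he hle).1, (h8 e he hle).2⟩⟩

end Pool.KT
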