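import Pool.Agent.Work.MP_70ab54_kt.InterfaceS

/-!
# MP_70ab54: block S_SP, the properties of the surgery map (helper92)
-/

set_option autoImplicit false

namespace Pool.KT

open Set Topology Filter
open scoped ContDiff

theorem ssp_union {E F : Type} [NormedAddCommGroup E] [NormedSpace ℝ E] [NormedAddCommGroup F]
    [NormedSpace ℝ F] {f : E → F} {A B W : Set E} (hA : LocDiffOn f A) (hB : LocDiffOn f B)
    (hW : IsOpen W) (h : W ⊆ A ∪ B) : LocDiffOn f W := by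
  refine ⟨hW, fun x hx => ?_, fun x hx => ?_⟩
  · rcases h hx with h | h
    · exact (hA.contDiffAt h).contDiffWithinAt
    · exact (hB.contDiffAt h).contDiffWithinAt
  · rcases h hx with h | h
    · exact hA.2.2 x h
    · exact hB.2.2 x h

theorem ssp_prod {j : R3 → R3} {U : Set R3} (hj : LocDiffOn j U) :
    LocDiffOn (fun q : ℂ × R3 => (q.1, j q.2)) {q | q.2 ∈ U} := by
  have ho : IsOpen {q : ℂ × R3 | q.2 ∈ U} := hj.1.preimage continuous_snd
  refine ⟨ho, ?_, ?_⟩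
  · exact contDiffOn_fst.prodMk (hj.2.1.comp contDiffOn_snd (fun q hq => hq))
  · intro q hq
    have h1 : HasFDerivAt (fun w : ℂ => w) (ContinuousLinearMap.id ℝ ℂ) q.1 := hasFDerivAt_id _
    have h2 : HasFDerivAt j (fderiv ℝ j q.2) q.2 := (hj.differentiableAt hq).hasFDerivAt
    have h3 : HasFDerivAt (fun q : ℂ × R3 => (q.1, j q.2))
        ((ContinuousLinearMap.id ℝ ℂ).prodMap (fderiv ℝ j q.2)) q := HasFDerivAt.prodMap q h1 h2
    rw [h3.fderiv]
    have hb := hj.2.2 q.2 hq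
    constructor
    · rintro ⟨a, b⟩ ⟨a', b'⟩ hab
      have e1 : a = a' := congrArg Prod.fst hab
      have e2 : fderiv ℝ j q.2 b = fderiv ℝ j q.2 b' := congrArg Prod.snd hab
      rw [e1, hb.1 e2]
    · rintro ⟨a, b⟩
      obtain ⟨b', rfl⟩ := hb.2 b
      exact ⟨(a, b'), rfl⟩

theorem ssp_Bd_open (d : ℝ) : IsOpen (Bd d) :=
  (isOpen_lt (continuous_fst.norm) continuous_const).inter
    (isOpen_lt (continuous_snd.abs) continuous_const)

theorem ssp_Ucirc_closed : IsClosed Ucirc :=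
  (isClosed_eq (continuous_fst.norm) continuous_const).inter
    (isClosed_eq continuous_snd continuous_const)

/-- the closed box -/
def ssp_K (d : ℝ) : Set R3 := Metric.closedBall (0 : ℂ) (1 + d) ×ˢ Metric.closedBall (0 : ℝ) d

theorem ssp_mem_K {d : ℝ} {x : R3} : x ∈ ssp_K d ↔ ‖x.1‖ ≤ 1 + d ∧ |x.2| ≤ d := by
  simp [ssp_K, Set.mem_prod, Real.norm_eq_abs]

theorem ssp_K_compact (d : ℝ) : IsCompact (ssp_K d) :=
  (isCompact_closedBall _ _).prod (isCompact_closedBall _ _)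

theorem ssp_Ucirc_compact : IsCompact Ucirc := by
  refine (ssp_K_compact 0).of_isClosed_subset ssp_Ucirc_closed ?_
  rintro x ⟨h1, h2⟩
  rw [ssp_mem_K, h1, h2]
  simp

theorem ssp_cyl_open {S : Set R3} (hS : IsOpen S) : IsOpen (cyl S) :=
  (isOpen_ne_fun continuous_fst continuous_const).inter (hS.preimage continuous_snd)

theorem S_SP (h1 : Stmt_S_INV) (h2 : Stmt_S_CLO) : Stmt_S_SP := by
  intro d d' e Φ j hd' hdd hΦ hj
  classical
  have hUd' : Ucirc ⊆ Bd d' := by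
    rintro x ⟨hx1, hx2⟩
    refine ⟨?_, ?_⟩
    · rw [hx1]; linarith
    · rw [hx2, abs_zero]; exact hd'
  have hBB : Bd d' ⊆ Bd d := fun x hx => ⟨by linarith [hx.1], by linarith [hx.2]⟩
  have hUd : Ucirc ⊆ Bd d := hUd'.trans hBB
  have hcyl : ∀ {S T : Set R3}, S ⊆ T → cyl S ⊆ cyl T := fun h q hq => ⟨hq.1, h hq.2⟩
  have hmap' : ∀ x ∈ Bd d', x ∉ Ucirc → j x ∈ Bd d' := by
    intro x hx hxU
    by_contra hn
    have h3 : j x ∉ Ucirc := fun h => hn (hUd' h)
    have h4 : j (j x) = j x := hj.out _ hn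
    have h5 : j x = x := hj.inj h3 hxU h4
    rw [h5] at hn
    exact hn hx
  have hmap : ∀ x ∈ Bd d, x ∉ Ucirc → j x ∈ Bd d := by
    intro x hx hxU
    by_cases h : x ∈ Bd d'
    · exact hBB (hmap' x h hxU)
    · rw [hj.out x h]; exact hx
  have hcomp : (j '' Ucircᶜ)ᶜ ⊆ Bd d' := by
    intro x hx
    by_contra hn
    exact hx ⟨x, fun h => hn (hUd' h), hj.out x hn⟩
  -- the map on the chart
  have hon : ∀ q ∈ cyl (Bd d), surg Φ d j (Φ q) = Φ (q.1, j q.2) := by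
    intro q hq
    have hex : ∃ q' ∈ cyl (Bd d), Φ q' = Φ q := ⟨q, hq, rfl⟩
    have hs := Classical.choose_spec hex
    have he : Classical.choose hex = q := hΦ.inj hs.1 hq hs.2
    unfold surg
    rw [dif_pos hex, he]
  have hout : ∀ y ∉ reg Φ (Bd d), surg Φ d j y = y := by
    intro y hy
    unfold surg
    rw [dif_neg]
    rintro ⟨q, hq, rfl⟩
    exact hy ⟨q, hq, rfl⟩
  have hoff : ∀ y ∉ reg Φ (Bd d'), surg Φ d j y = y := by
    intro y hy
    by_cases h : y ∈ reg Φ (Bd d)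
    · obtain ⟨q, hq, rfl⟩ := h
      have h3 : q.2 ∉ Bd d' := fun h => hy ⟨q, ⟨hq.1, h⟩, rfl⟩
      rw [hon q hq, hj.out _ h3]
    · exact hout y h
  have hcy : ∀ q ∈ cyl (Bd d), q.2 ∉ Ucirc → (q.1, j q.2) ∈ cyl (Bd d) := fun q hq hqU =>
    ⟨hq.1, hmap _ hq.2 hqU⟩
  -- position of a point
  have hcase : ∀ y ∉ reg Φ Ucirc, (∃ q ∈ cyl (Bd d), q.2 ∉ Ucirc ∧ Φ q = y) ∨
      y ∉ reg Φ (Bd d) := by
    intro y hy
    by_cases h : y ∈ reg Φ (Bd d)
    · obtain ⟨q, hq, rfl⟩ := h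
      exact Or.inl ⟨q, hq, fun h => hy ⟨q, ⟨hq.1, h⟩, rfl⟩, rfl⟩
    · exact Or.inr h
  have hne : ∀ y ∉ reg Φ Ucirc, y ≠ 0 → surg Φ d j y ≠ 0 := by
    intro y hy h0
    rcases hcase y hy with ⟨q, hq, hqU, rfl⟩ | h
    · rw [hon q hq]
      exact hΦ.ne _ (hcy q hq hqU)
    · rw [hout y h]
      exact h0
  refine ⟨hon, hoff, ?_, ?_, ?_, hne, ?_⟩
  · -- local diffeomorphism
    have hW : IsOpen ({0} ∪ reg Φ Ucirc)ᶜ :=
      (h2 d Φ Ucirc hΦ ssp_Ucirc_compact hUd).isOpen_compl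
    have hKd : ssp_K d' ⊆ Bd d := by
      intro x hx
      rw [ssp_mem_K] at hx
      exact ⟨by linarith [hx.1], by linarith [hx.2]⟩
    have hB : IsOpen ({0} ∪ reg Φ (ssp_K d'))ᶜ :=
      (h2 d Φ _ hΦ (ssp_K_compact d') hKd).isOpen_compl
    obtain ⟨g, hg, hgl⟩ := h1 _ _ Φ (cyl (Bd d)) hΦ.loc hΦ.inj
    have hCo : IsOpen (cyl (Bd d \ Ucirc)) :=
      ssp_cyl_open ((ssp_Bd_open d).sdiff ssp_Ucirc_closed)
    have hCs : cyl (Bd d \ Ucirc) ⊆ cyl (Bd d) := hcyl sdiff_subset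
    have hAo : IsOpen (reg Φ (Bd d \ Ucirc)) := (hΦ.loc.mono hCo hCs).isOpen_image
    have hgA : LocDiffOn g (reg Φ (Bd d \ Ucirc)) := hgl.mono hAo (image_mono hCs)
    have hF : LocDiffOn (fun q : ℂ × R3 => (q.1, j q.2)) (cyl (Bd d \ Ucirc)) :=
      (ssp_prod hj.loc).mono hCo (fun q hq => hq.2.2)
    have hΦF : LocDiffOn (fun q : ℂ × R3 => Φ (q.1, j q.2)) (cyl (Bd d \ Ucirc)) :=
      hΦ.loc.comp hF (fun q hq => hcy q (hCs hq) hq.2.2)
    have hJA : LocDiffOn (fun y => Φ ((g y).1, j (g y).2)) (reg Φ (Bd d \ Ucirc)) := by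
      refine hΦF.comp hgA ?_
      rintro _ ⟨q, hq, rfl⟩
      rw [hg q (hCs hq)]
      exact hq
    have hA : LocDiffOn (surg Φ d j) (reg Φ (Bd d \ Ucirc)) := by
      refine hJA.congr ?_
      rintro _ ⟨q, hq, rfl⟩
      simp only
      rw [hg q (hCs hq), hon q (hCs hq)]
    have hBl : LocDiffOn (surg Φ d j) ({0} ∪ reg Φ (ssp_K d'))ᶜ := by
      have hid : LocDiffOn (fun y : E5 => y) ({0} ∪ reg Φ (ssp_K d'))ᶜ := by
        refine ⟨hB, contDiffOn_id, fun x _ => ?_⟩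
        rw [show (fun y : E5 => y) = id from rfl, fderiv_id]
        exact Function.bijective_id
      refine hid.congr ?_
      intro y hy
      refine hoff y fun h => hy (Or.inr ?_)
      obtain ⟨q, hq, rfl⟩ := h
      refine ⟨q, ⟨hq.1, ?_⟩, rfl⟩
      rw [ssp_mem_K]
      exact ⟨hq.2.1.le, hq.2.2.le⟩
    refine ssp_union hA hBl hW ?_
    intro y hy
    by_cases h : y ∈ reg Φ (ssp_K d')
    · left
      obtain ⟨q, hq, rfl⟩ := h
      exact ⟨q, ⟨hq.1, hKd hq.2, fun h => hy (Or.inr ⟨q, ⟨hq.1, h⟩, rfl⟩)⟩, rfl⟩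
    · right
      rintro (h0 | h0)
      · exact hy (Or.inl h0)
      · exact h h0
  · -- injective
    intro y hy y' hy' hyy
    rcases hcase y hy with ⟨q, hq, hqU, rfl⟩ | h
    · rcases hcase y' hy' with ⟨q', hq', hqU', rfl⟩ | h'
      · rw [hon q hq, hon q' hq'] at hyy
        have h3 := hΦ.inj (hcy q hq hqU) (hcy q' hq' hqU') hyy
        have h4 : q.1 = q'.1 := (Prod.mk.inj h3).1
        have h5 : j q.2 = j q'.2 := (Prod.mk.inj h3).2
        have h6 : q.2 = q'.2 := hj.inj hqU hqU' h5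
        rw [Prod.ext h4 h6]
      · rw [hon q hq, hout y' h'] at hyy
        exact absurd ⟨_, hcy q hq hqU, hyy⟩ h'
    · rcases hcase y' hy' with ⟨q', hq', hqU', rfl⟩ | h'
      · rw [hon q' hq', hout y h] at hyy
        exact absurd ⟨_, hcy q' hq' hqU', hyy.symm⟩ h
      · rw [hout y h, hout y' h'] at hyy
        exact hyy
  · -- homogeneous
    intro t ht y hy
    rcases hcase y hy with ⟨q, hq, hqU, rfl⟩ | h
    · have h3 : (t • q.1, q.2) ∈ cyl (Bd d) := ⟨smul_ne_zero ht.ne' hq.1, hq.2⟩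
      have h4 := hon _ h3
      rw [← hΦ.hom t ht q hq, h4, hon q hq, ← hΦ.hom t ht _ (hcy q hq hqU)]
    · have h3 : t • y ∉ reg Φ (Bd d) := by
        rintro ⟨q, hq, hqy⟩
        apply h
        refine ⟨(t⁻¹ • q.1, q.2), ⟨smul_ne_zero (inv_ne_zero ht.ne') hq.1, hq.2⟩, ?_⟩
        rw [hΦ.hom _ (inv_pos.2 ht) q hq, hqy, smul_smul, inv_mul_cancel₀ ht.ne', one_smul]
      rw [hout y h, hout _ h3]
  · -- image
    ext z
    constructor
    · rintro ⟨y, hy, rfl⟩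
      have hyU : y ∉ reg Φ Ucirc := fun h => hy (Or.inr h)
      have hy0 : y ≠ 0 := fun h => hy (Or.inl h)
      rintro (h0 | ⟨q', hq', hqy⟩)
      · exact hne y hyU hy0 h0
      · have hq'd : q' ∈ cyl (Bd d) := ⟨hq'.1, hBB (hcomp hq'.2)⟩
        rcases hcase y hyU with ⟨q, hq, hqU, rfl⟩ | h
        · rw [hon q hq] at hqy
          have h3 := hΦ.inj hq'd (hcy q hq hqU) hqy
          apply hq'.2
          rw [h3]
          exact ⟨q.2, hqU, rfl⟩
        · rw [hout y h] at hqy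
          exact h ⟨q', hq'd, hqy⟩
    · intro hz
      have hz0 : z ≠ 0 := fun h => hz (Or.inl h)
      by_cases h : z ∈ reg Φ (Bd d)
      · obtain ⟨q, hq, rfl⟩ := h
        have h3 : q.2 ∈ j '' Ucircᶜ := by
          by_contra hn
          exact hz (Or.inr ⟨q, ⟨hq.1, hn⟩, rfl⟩)
        obtain ⟨x, hxU, hx⟩ := h3
        have hxd : x ∈ Bd d := by
          by_cases h4 : x ∈ Bd d'
          · exact hBB h4
          · rw [hj.out x h4] at hx
            rw [hx]; exact hq.2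
        have hxc : (q.1, x) ∈ cyl (Bd d) := ⟨hq.1, hxd⟩
        refine ⟨Φ (q.1, x), ?_, ?_⟩
        · rintro (h0 | ⟨q'', hq'', hqy⟩)
          · exact hΦ.ne _ hxc h0
          · have h5 := hΦ.inj (hcyl hUd hq'') hxc hqy
            apply hxU
            have h6 : q''.2 = x := congrArg Prod.snd h5
            rw [← h6]
            exact hq''.2
        · rw [hon _ hxc]
          show Φ (q.1, j x) = Φ q
          rw [hx]
      · refine ⟨z, ?_, hout z h⟩
        rintro (h0 | h0)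
        · exact hz0 h0
        · exact h (image_mono (hcyl hUd) h0)

end Pool.KT
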