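import Pool.Agent.Work.MP_70ab54_kt.SLem

/-!
# MP_70ab54: block S_STEP, one surgery (helper52)
-/

set_option autoImplicit false

namespace Pool.KT

open Set Topology

/-- an injective local diffeomorphism is a homeomorphism onto its image -/
theorem LocDiffOn.exists_homeomorph {E F : Type} [NormedAddCommGroup E] [NormedSpace ℝ E]
    [NormedAddCommGroup F] [NormedSpace ℝ F] [CompleteSpace E] [CompleteSpace F] {f : E → F}
    {W : Set E} (h : LocDiffOn f W) (hi : InjOn f W) :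
    ∃ k : ↥W ≃ₜ ↥(f '' W), ∀ x, (k x : F) = f x := by
  have hc : Continuous (fun x : W => f x) := continuousOn_iff_continuous_domRestrict.1 h.continuousOn
  have hinj : Function.Injective (fun x : W => f x) := fun x y hxy =>
    Subtype.ext (hi x.2 y.2 hxy)
  have ho : IsOpenMap (fun x : W => f x) := by
    intro O hO
    obtain ⟨O', hO', rfl⟩ := isOpen_induced_iff.1 hO
    have h1 : (fun x : W => f x) '' (Subtype.val ⁻¹' O') = f '' (W ∩ O') := by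
      ext y
      constructor
      · rintro ⟨x, hx, rfl⟩
        exact ⟨x, ⟨x.2, hx⟩, rfl⟩
      · rintro ⟨x, ⟨hx1, hx2⟩, rfl⟩
        exact ⟨⟨x, hx1⟩, hx2, rfl⟩
    rw [h1]
    exact (h.mono (h.1.inter hO') inter_subset_left).isOpen_image
  have he : IsOpenEmbedding (fun x : W => f x) :=
    IsOpenEmbedding.of_continuous_injective_isOpenMap hc hinj ho
  have hr : range (fun x : W => f x) = f '' W := by
    ext y
    constructor
    · rintro ⟨x, rfl⟩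
      exact ⟨x, x.2, rfl⟩
    · rintro ⟨x, hx, rfl⟩
      exact ⟨⟨x, hx⟩, rfl⟩
  exact ⟨he.isEmbedding.toHomeomorph.trans (Homeomorph.setCongr hr), fun x => rfl⟩

theorem S_STEP (hG : Stmt_G) (hH : Stmt_K_GCH) (hN : Stmt_K_NUC) (hC : Stmt_S_CYL) :
    Stmt_S_STEP := by
  intro d d' e Φ j J hd hΦ hj hJ K ι E hcl hK hE hcov
  have hUnu : Ucirc ⊆ nu e := Ucirc_subset_nu hj.e_pos
  have hBB : Bd d' ⊆ Bd d := Bd_mono hd.le
  have hnB : nu e ⊆ Bd d := hj.sub.trans hBB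
  have hUB : Ucirc ⊆ Bd d := hUnu.trans hnB
  have hOB : Oset j e ⊆ Bd d := hj.Oset_subset.trans hBB
  have hKT : ∀ k ∈ K, k ∉ reg Φ (nu e) := fun k hk hh => (disjoint_left.1 hK) hk hh
  have hKU : ∀ k ∈ K, k ∉ reg Φ Ucirc := fun k hk hh => hKT k hk (reg_mono Φ hUnu hh)
  have hMo : IsOpen ({0} ∪ reg Φ Ucirc ∪ K)ᶜ := hcl.isOpen_compl
  have hMD : ({0} ∪ reg Φ Ucirc ∪ K)ᶜ ⊆ ({0} ∪ reg Φ Ucirc)ᶜ :=
    compl_subset_compl.2 subset_union_left
  have hMU : ∀ y ∈ ({0} ∪ reg Φ Ucirc ∪ K)ᶜ, y ∉ reg Φ Ucirc := fun y hy hh =>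
    hy (Or.inl (Or.inr hh))
  have hM0 : ∀ y ∈ ({0} ∪ reg Φ Ucirc ∪ K)ᶜ, y ≠ 0 := fun y hy hh =>
    hy (Or.inl (Or.inl hh))
  have hMK : ∀ y ∈ ({0} ∪ reg Φ Ucirc ∪ K)ᶜ, y ∉ K := fun y hy hh => hy (Or.inr hh)
  have lM : LocDiffOn J ({0} ∪ reg Φ Ucirc ∪ K)ᶜ := hJ.loc.mono hMo hMD
  have iM : InjOn J ({0} ∪ reg Φ Ucirc ∪ K)ᶜ := hJ.inj.mono (fun y hy => hMU y hy)
  -- the tube
  have hTM : reg Φ (nu e \ Ucirc) ⊆ ({0} ∪ reg Φ Ucirc ∪ K)ᶜ := by
    rintro _ ⟨q, ⟨hq1, hq2⟩, rfl⟩ hh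
    have hqB : q ∈ cyl (Bd d) := ⟨hq1, hnB hq2.1⟩
    rcases hh with (hh | hh) | hh
    · exact hΦ.ne q hqB hh
    · exact hq2.2 ((hΦ.mem_reg hUB hqB).1 hh)
    · exact hKT _ hh ⟨q, ⟨hq1, hq2.1⟩, rfl⟩
  have oA : IsOpen (J '' ({0} ∪ reg Φ Ucirc ∪ K)ᶜ) := lM.isOpen_image
  have oB : IsOpen (reg Φ (Oset j e)) := hΦ.isOpen_reg hOB hj.open_O
  have him : J '' reg Φ (nu e \ Ucirc) = reg Φ (j '' (nu e \ Ucirc)) :=
    hJ.image_reg (sdiff_subset.trans hnB)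
  -- the intersection
  have hAB : J '' ({0} ∪ reg Φ Ucirc ∪ K)ᶜ ∩ reg Φ (Oset j e) = J '' reg Φ (nu e \ Ucirc) := by
    apply subset_antisymm
    · rintro y ⟨⟨m, hm, rfl⟩, hy⟩
      have h1 : J m ∈ reg Φ (Bd d) := reg_mono Φ hOB hy
      obtain ⟨q, hq, rfl⟩ := (hJ.mem_iff hj hd.le (hMU m hm)).1 h1
      refine ⟨Φ q, ⟨q, ⟨hq.1, ?_, ?_⟩, rfl⟩, rfl⟩
      · by_contra hc
        have hq2 : q.2 ∉ Ucirc := fun hh => hc (hUnu hh)
        rw [hJ.on q hq] at hy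
        have h2 := (hΦ.mem_reg hOB (q := (q.1, j q.2))
          ⟨hq.1, (hj.mem_Bd_iff hd.le hq2).2 hq.2⟩).1 hy
        exact h2 ⟨q.2, hc, rfl⟩
      · intro hh
        exact hMU _ hm ⟨q, ⟨hq.1, hh⟩, rfl⟩
    · intro y hy
      refine ⟨image_mono hTM hy, ?_⟩
      rw [him, ← hj.overlap] at hy
      exact reg_mono Φ inter_subset_left hy
  -- the union
  have hU : J '' ({0} ∪ reg Φ Ucirc ∪ K)ᶜ ∪ reg Φ (Oset j e) = ({0} ∪ J '' K)ᶜ := by
    apply subset_antisymm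
    · rintro y (⟨m, hm, rfl⟩ | hy)
      · rintro (hh | ⟨k, hk, hkm⟩)
        · exact hJ.ne m (hMU m hm) (hM0 m hm) hh
        · have := hJ.inj (hKU k hk) (hMU m hm) hkm
          exact hMK m hm (this ▸ hk)
      · rintro (hh | ⟨k, hk, hkm⟩)
        · have : y = 0 := hh
          exact hΦ.zero_notMem hOB (this ▸ hy)
        · have h1 : J k ∈ reg Φ (Bd d) := by rw [hkm]; exact reg_mono Φ hOB hy
          obtain ⟨q, hq, rfl⟩ := (hJ.mem_iff hj hd.le (hKU k hk)).1 h1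
          have hqn : q.2 ∉ nu e := fun hh => hKT _ hk ⟨q, ⟨hq.1, hh⟩, rfl⟩
          have hq2 : q.2 ∉ Ucirc := fun hh => hqn (hUnu hh)
          rw [← hkm, hJ.on q hq] at hy
          have h2 := (hΦ.mem_reg hOB (q := (q.1, j q.2))
            ⟨hq.1, (hj.mem_Bd_iff hd.le hq2).2 hq.2⟩).1 hy
          exact h2 ⟨q.2, hqn, rfl⟩
    · intro y hy
      by_cases h1 : y ∈ reg Φ (j '' Ucircᶜ)ᶜ
      · exact Or.inr (reg_mono Φ hj.compl_image_subset h1)
      · have h2 : y ∈ ({0} ∪ reg Φ (j '' Ucircᶜ)ᶜ)ᶜ := by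
          rintro (hh | hh)
          · exact hy (Or.inl hh)
          · exact h1 hh
        rw [← hJ.im] at h2
        obtain ⟨m, hm, rfl⟩ := h2
        refine Or.inl ⟨m, ?_, rfl⟩
        rintro (hh | hh)
        · exact hm hh
        · exact hy (Or.inr ⟨m, hh, rfl⟩)
  -- path connected
  have hpc : IsPathConnected
      (J '' ({0} ∪ reg Φ Ucirc ∪ K)ᶜ ∩ reg Φ (Oset j e)) := by
    rw [hAB]
    have h1 : IsPathConnected (cyl (nu e \ Ucirc)) := by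
      have h2 : cyl (nu e \ Ucirc) = ({0}ᶜ : Set ℂ) ×ˢ (nu e \ Ucirc) := by
        ext q
        exact Iff.rfl
      rw [h2]
      have h3 : IsPathConnected ({0}ᶜ : Set ℂ) := by
        apply isPathConnected_compl_singleton_of_one_lt_rank
        rw [Complex.rank_real_complex]
        exact Nat.one_lt_ofNat
      exact h3.prod (hN e hj.e_pos hj.e_lt)
    have h4 : IsPathConnected (reg Φ (nu e \ Ucirc)) :=
      h1.image' (hΦ.loc.continuousOn.mono (cyl_mono (sdiff_subset.trans hnB)))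
    exact h4.image' (lM.continuousOn.mono hTM)
  -- the good covers
  obtain ⟨k, hk⟩ := lM.exists_homeomorph iM
  have gA : GoodCover (J '' ({0} ∪ reg Φ Ucirc ∪ K)ᶜ) (fun o : Option ι => o.elim
      (J '' ({0} ∪ reg Φ Ucirc ∪ K)ᶜ ∩ reg Φ (Oset j e)) (fun i => J '' E i)) := by
    refine hH E5 E5 _ _ (Option ι) _ _ k ?_ hcov
    rintro (_ | i) x
    · show (x : E5) ∈ reg Φ (nu e \ Ucirc) ↔
        (k x : E5) ∈ J '' ({0} ∪ reg Φ Ucirc ∪ K)ᶜ ∩ reg Φ (Oset j e)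
      rw [hAB, hk]
      constructor
      · intro h
        exact ⟨x, h, rfl⟩
      · rintro ⟨y, hy, hyx⟩
        have := iM (hTM hy) x.2 hyx
        exact this ▸ hy
    · show (x : E5) ∈ E i ↔ (k x : E5) ∈ J '' E i
      rw [hk]
      constructor
      · intro h
        exact ⟨x, h, rfl⟩
      · rintro ⟨y, hy, hyx⟩
        have := iM (hE i hy) x.2 hyx
        exact this ▸ hy
  have lO : LocDiffOn Φ (cyl (Oset j e)) := by
    refine hΦ.loc.mono ?_ (cyl_mono hOB)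
    exact (isOpen_ne.preimage continuous_fst).inter (hj.open_O.preimage continuous_snd)
  obtain ⟨k', hk'⟩ := lO.exists_homeomorph (hΦ.inj.mono (cyl_mono hOB))
  have gB : GoodCover (reg Φ (Oset j e)) (fun _ : Unit =>
      J '' ({0} ∪ reg Φ Ucirc ∪ K)ᶜ ∩ reg Φ (Oset j e)) := by
    refine hH (ℂ × R3) E5 (cyl (Oset j e)) _ Unit (fun _ => cyl (j '' Ucircᶜ)) _ k' ?_
      (hC _ _ hj.open_O hj.good)
    intro _ x
    show (x : ℂ × R3) ∈ cyl (j '' Ucircᶜ) ↔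
        (k' x : E5) ∈ J '' ({0} ∪ reg Φ Ucirc ∪ K)ᶜ ∩ reg Φ (Oset j e)
    rw [hAB, hk', him, ← hj.overlap, hΦ.mem_reg (inter_subset_left.trans hOB)
      (cyl_mono hOB x.2)]
    constructor
    · intro h
      exact ⟨x.2.2, h.2⟩
    · intro h
      exact ⟨x.2.1, h.2⟩
  have hgood := hG E5 _ _ ι (fun i => J '' E i) oA oB hpc (fun i => image_mono (hE i)) gA gB
  rw [hU] at hgood
  refine ⟨?_, hgood⟩
  have ho := oA.union oB
  rw [hU] at ho
  exact isOpen_compl_iff.1 ho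

end Pool.KT
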