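import Pool.Agent.Work.MP_70ab54_kt.InterfaceG

/-!
# MP_70ab54, block TRG: the tree
-/

set_option autoImplicit false

namespace Pool.KT

open Set Topology

namespace TRG_

/-- Nodes of the tree: `true` for the nodes of the first kind, `false` for the second kind. -/
inductive Nd (I J : Type) : Bool → Type
  | root (b : Bool) : Nd I J b
  | toR (v : Nd I J true) (i : I) : Nd I J false
  | toP (u : Nd I J false) (j : J) : Nd I J true

variable {I J : Type}

/-- Distance from `root true`. -/
def dep : {b : Bool} → Nd I J b → ℕ
  | true, .root _ => 0
  | false, .root _ => 1
  | _, .toR v _ => dep v + 1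
  | _, .toP u _ => dep u + 1

/-- The edges seen from the first kind. -/
def fw : Nd I J true × Option I → Nd I J false × Option J
  | (v, some i) => (.toR v i, none)
  | (.root _, none) => (.root false, none)
  | (.toP u j, none) => (u, some j)

/-- The edges seen from the second kind. -/
def bw : Nd I J false × Option J → Nd I J true × Option I
  | (u, some j) => (.toP u j, none)
  | (.root _, none) => (.root true, none)
  | (.toR v i, none) => (v, some i)

/-- The equivalence. -/
def eqv : Nd I J true × Option I ≃ Nd I J false × Option J where
  toFun := fw
  invFun := bw
  left_inv := by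
    rintro ⟨v, o⟩
    cases o with
    | some i => rfl
    | none => cases v <;> rfl
  right_inv := by
    rintro ⟨u, o⟩
    cases o with
    | some i => rfl
    | none => cases u <;> rfl

/-- The tree. -/
def tree (I J : Type) : Tree I J where
  NP := Nd I J true
  NR := Nd I J false
  th := eqv
  dP := dep
  dR := dep
  root := .root true
  up := fun _ _ => rfl
  lt_up := fun v i => Nat.lt_succ_self (dep v)
  down := by
    intro v hv
    cases v with
    | root => exact absurd rfl hv
    | toP u j => exact Option.some_ne_none j
  lt_down := by
    intro v hv
    cases v with
    | root => exact absurd rfl hv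
    | toP u j => exact Nat.lt_succ_self (dep u)
  root_none := rfl
  lt_root := Nat.zero_lt_one

end TRG_

theorem TRG : Stmt_TRG := fun I J => ⟨TRG_.tree I J⟩

end Pool.KT
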