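import Pool.Agent.Work.MP_70ab54_kt.InterfaceG

/-!
# MP_70ab54: block UNG (helper87)
-/

set_option autoImplicit false

namespace Pool.KT

open Set Topology

theorem UNG_lpc {X Y : Type*} [TopologicalSpace X] [TopologicalSpace Y]
    [LocallyPathConnectedSpace Y] {f : X → Y} (hf : IsLocalHomeomorph f) :
    LocallyPathConnectedSpace X := by
  choose e he hfe using hf
  let _ : ChartedSpace Y X :=
    { atlas := range e
      chartAt := e
      mem_chart_source := he
      chart_mem_atlas := fun x => ⟨x, rfl⟩ }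
  exact ChartedSpace.locallyPathConnectedSpace Y X

/-- the corestriction of a covering of `C` is a covering map -/
theorem UNG_cov {V Z : Type} [TopologicalSpace V] [TopologicalSpace Z] {C : Set V} {c : Z → V}
    (h : CovOf C c) : ∃ q : Z → C, IsCoveringMap q ∧ Function.Surjective q ∧
      ∀ z, (q z : V) = c z := by
  have hm : ∀ z, c z ∈ C := fun z => h.2.subset ⟨z, rfl⟩
  have hu : c ⁻¹' C = univ := eq_univ_of_forall hm
  let g : Z ≃ₜ c ⁻¹' C := (Homeomorph.Set.univ Z).symm.trans (Homeomorph.setCongr hu.symm)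
  refine ⟨C.restrictPreimage c ∘ g, h.1.isCoveringMap_restrictPreimage.comp_homeomorph g, ?_, ?_⟩
  · rintro ⟨y, hy⟩
    obtain ⟨z, hz⟩ : y ∈ range c := by rw [h.2]; exact hy
    exact ⟨z, Subtype.ext hz⟩
  · intro z
    rfl

theorem stmt_UNG : Stmt_UNG := by
  intro V Z Z' _ _ _ _ C c c' hC h h' ha ha'
  obtain ⟨q, hq, hqs, hqc⟩ := UNG_cov h
  obtain ⟨q', hq', hqs', hqc'⟩ := UNG_cov h'
  have : LocallyPathConnectedSpace C := hC.locallyPathConnectedSpace
  have : LocallyPathConnectedSpace Z := UNG_lpc hq.isLocalHomeomorph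
  have : LocallyPathConnectedSpace Z' := UNG_lpc hq'.isLocalHomeomorph
  have sc : SimplyConnectedSpace Z := (ae_univ_iff.1 ha).simplyConnectedSpace
  have sc' : SimplyConnectedSpace Z' := (ae_univ_iff.1 ha').simplyConnectedSpace
  obtain ⟨z0⟩ := (ae_univ_iff.1 ha).nonempty
  obtain ⟨z0', hz0'⟩ := hqs' (q z0)
  obtain ⟨F, ⟨hF0, hF⟩, -⟩ := hq'.existsUnique_continuousMap_lifts ⟨q, hq.continuous⟩ z0 z0' hz0'
  obtain ⟨G, ⟨hG0, hG⟩, -⟩ := hq.existsUnique_continuousMap_lifts ⟨q', hq'.continuous⟩ z0' z0
    hz0'.symm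
  have hF1 : ∀ z, q' (F z) = q z := fun z => congrFun hF z
  have hG1 : ∀ z, q (G z) = q' z := fun z => congrFun hG z
  have e1 : (fun z => G (F z)) = id := by
    refine hq.eq_of_comp_eq (G.continuous.comp F.continuous) continuous_id ?_ z0 ?_
    · funext z
      show q (G (F z)) = q z
      rw [hG1, hF1]
    · show G (F z0) = z0
      rw [hF0, hG0]
  have e2 : (fun z => F (G z)) = id := by
    refine hq'.eq_of_comp_eq (F.continuous.comp G.continuous) continuous_id ?_ z0' ?_
    · funext z
      show q' (F (G z)) = q' z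
      rw [hF1, hG1]
    · show F (G z0') = z0'
      rw [hG0, hF0]
  refine ⟨{ toFun := F
            invFun := G
            left_inv := fun z => congrFun e1 z
            right_inv := fun z => congrFun e2 z
            continuous_toFun := F.continuous
            continuous_invFun := G.continuous }, fun z => ?_⟩
  show c' (F z) = c z
  rw [← hqc', hF1, hqc]

end Pool.KT
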