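import Pool.Agent.Work.MP_70ab54_kt.AllK
import Pool.Agent.Work.MP_70ab54_kt.GG
import Pool.Agent.Work.MP_70ab54_kt.BRG
import Pool.Agent.Work.MP_70ab54_kt.PCG
import Pool.Agent.Work.MP_70ab54_kt.UNG
import Pool.Agent.Work.MP_70ab54_kt.EXG
import Pool.Agent.Work.MP_70ab54_kt.DEG
import Pool.Agent.Work.MP_70ab54_kt.GLG
import Pool.Agent.Work.MP_70ab54_kt.TRG
import Pool.Agent.Work.MP_70ab54_kt.AMG
import Pool.Agent.Work.MP_70ab54_kt.CVG
import Pool.Agent.Work.MP_70ab54_kt.LAG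
import Pool.Agent.Work.MP_70ab54_kt.EXH
import Pool.Agent.Work.MP_70ab54_kt.AEG
import Pool.Agent.Work.MP_70ab54_kt.S_INV
import Pool.Agent.Work.MP_70ab54_kt.S_CLO
import Pool.Agent.Work.MP_70ab54_kt.S_SP
import Pool.Agent.Work.MP_70ab54_kt.S_CON
import Pool.Agent.Work.MP_70ab54_kt.S_CYL
import Pool.Agent.Work.MP_70ab54_kt.S_KN
import Pool.Agent.Work.MP_70ab54_kt.S_STEP

/-!
# MP_70ab54: the two-piece theorem and the surgery step, assembled (helper25)
-/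

set_option autoImplicit false

namespace Pool.KT

theorem all_G : Stmt_G :=
  GG stmt_BRG (stmt_EXG stmt_PCG) (DEG stmt_PCG stmt_UNG) TRG (AMG stmt_GLG) CVG stmt_LAG
    (AEG EXH)

theorem all_SP : Stmt_S_SP := S_SP S_INV S_CLO

theorem all_STEP : Stmt_S_STEP := S_STEP all_G stmt_K_GCH all_NUC (S_CYL stmt_K_PROD)

end Pool.KT
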