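import Pool.Agent.Work.MP_70ab54_kt.InterfaceC

/-!
# MP_70ab54: block C14 (the function `gg`)
-/

set_option autoImplicit false

namespace Pool.KT

open Set Topology

theorem stmt_C14 : Stmt_C14 := by
  refine ⟨fun C => ?_, ?_⟩
  · have hs : Real.sqrt ((3 / 2 * C) ^ 2 + 4) ^ 2 = (3 / 2 * C) ^ 2 + 4 :=
      Real.sq_sqrt (by positivity)
    have hgt : |3 / 2 * C| < Real.sqrt ((3 / 2 * C) ^ 2 + 4) := by
      apply Real.lt_sqrt_of_sq_lt
      rw [sq_abs]; linarith
    constructor
    · unfold gg
      have := le_abs_self (3 / 2 * C)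
      linarith
    · unfold gg
      nlinarith [hs]
  · unfold gg
    have h : ContDiff ℝ ((⊤ : ℕ∞) : WithTop ℕ∞) (fun C : ℝ => Real.sqrt ((3 / 2 * C) ^ 2 + 4)) := by
      refine ContDiff.sqrt ?_ ?_
      · exact ((contDiff_const.mul contDiff_id).pow 2).add contDiff_const
      · intro C; positivity
    exact (((contDiff_const.mul contDiff_id).neg).add h).div_const 2

end Pool.KT
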