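import Pool.Agent.Work.MP_70ab54_kt.InterfaceC

/-!
# MP_70ab54: block C15 (the parametrisation of `T_0`), helper98
-/

set_option autoImplicit false

namespace Pool.KT

open Set Topology

namespace C15aux

theorem f0_one (a b : ℝ) : f0 a b 1 =
    Real.sqrt (gg (Real.cos (2 * a) * Real.cos (2 * b)) /
      (1 + gg (Real.cos (2 * a) * Real.cos (2 * b)))) * Real.cos a := by
  simp [f0]

theorem f0_four (a b : ℝ) : f0 a b 4 =
    Real.sqrt (gg (Real.cos (2 * a) * Real.cos (2 * b)) /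
      (1 + gg (Real.cos (2 * a) * Real.cos (2 * b)))) * Real.sin a := by
  simp [f0]

theorem f0_two (a b : ℝ) : f0 a b 2 =
    Real.sqrt (1 / (1 + gg (Real.cos (2 * a) * Real.cos (2 * b)))) * Real.cos b := by
  simp [f0]

theorem f0_three (a b : ℝ) : f0 a b 3 =
    Real.sqrt (1 / (1 + gg (Real.cos (2 * a) * Real.cos (2 * b)))) * Real.sin b := by
  simp [f0]

theorem f0_zero (a b : ℝ) : f0 a b 0 = 0 := by
  simp [f0]

/-- The equation for the torus, in polar coordinates. -/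
theorem quad_eq {A B ca sa cb sb : ℝ} (ha : ca ^ 2 + sa ^ 2 = 1) (hb : cb ^ 2 + sb ^ 2 = 1) :
    (A * ca ^ 2 + A * sa ^ 2) ^ 2 - (B * cb ^ 2 + B * sb ^ 2) ^ 2 +
      3 / 2 * ((A * ca ^ 2 - A * sa ^ 2) * (B * cb ^ 2 - B * sb ^ 2)) =
    A ^ 2 - B ^ 2 + 3 / 2 * ((2 * ca ^ 2 - 1) * (2 * cb ^ 2 - 1)) * (A * B) := by
  have h1 : sa ^ 2 = 1 - ca ^ 2 := by linarith
  have h2 : sb ^ 2 = 1 - cb ^ 2 := by linarith
  rw [h1, h2]
  ring

/-- Uniqueness of the positive root. -/
theorem root_unique {p g g' : ℝ} (hg : 0 < g) (hg' : 0 < g') (h : g ^ 2 + p * g = 1)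
    (h' : g' ^ 2 + p * g' = 1) : g = g' := by
  have h1 : (g - g') * (g + g' + p) = 0 := by nlinarith
  rcases mul_eq_zero.1 h1 with h2 | h2
  · linarith
  · exfalso
    have h3 : p = -(g + g') := by linarith
    rw [h3] at h
    nlinarith [mul_pos hg hg']

/-- Polar coordinates. -/
theorem exists_polar (x y : ℝ) : ∃ a, x = Real.sqrt (x ^ 2 + y ^ 2) * Real.cos a ∧
    y = Real.sqrt (x ^ 2 + y ^ 2) * Real.sin a := by
  have hn : ‖(⟨x, y⟩ : ℂ)‖ = Real.sqrt (x ^ 2 + y ^ 2) := by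
    rw [Complex.norm_def, Complex.normSq_mk]
    congr 1
    ring
  refine ⟨Complex.arg ⟨x, y⟩, ?_, ?_⟩
  · rw [← hn, Complex.norm_mul_cos_arg]
  · rw [← hn, Complex.norm_mul_sin_arg]

end C15aux

open C15aux in
theorem stmt_C15 (h14 : Stmt_C14) : Stmt_C15 := by
  have hg : ∀ C, 0 < gg C := fun C => (h14.1 C).1
  have hgs := h14.2
  have hq : ∀ a b, ‖f0 a b‖ ^ 2 = 1 := by
    intro a b
    rw [EuclideanSpace.norm_sq_eq, Fin.sum_univ_five, f0_zero, f0_one, f0_two, f0_three, f0_four]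
    have h0 := hg (Real.cos (2 * a) * Real.cos (2 * b))
    have ha := Real.cos_sq_add_sin_sq a
    have hb := Real.cos_sq_add_sin_sq b
    simp only [Real.norm_eq_abs, sq_abs, mul_pow]
    rw [Real.sq_sqrt (div_pos h0 (by linarith)).le, Real.sq_sqrt (div_pos one_pos (by linarith)).le]
    have h1 : (1 + gg (Real.cos (2 * a) * Real.cos (2 * b))) ≠ 0 := by linarith
    generalize gg (Real.cos (2 * a) * Real.cos (2 * b)) = g at *
    have h2 : Real.sin a ^ 2 = 1 - Real.cos a ^ 2 := by linarith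
    have h3 : Real.sin b ^ 2 = 1 - Real.cos b ^ 2 := by linarith
    rw [h2, h3]
    field_simp
    ring
  have hn : ∀ a b, ‖f0 a b‖ = 1 := by
    intro a b
    have h1 := hq a b
    have h2 := norm_nonneg (f0 a b)
    nlinarith
  refine ⟨?_, hn, ?_, ?_, ?_⟩
  · -- smoothness
    have hC : ContDiff ℝ ((⊤ : ℕ∞) : WithTop ℕ∞)
        (fun p : ℝ × ℝ => Real.cos (2 * p.1) * Real.cos (2 * p.2)) :=
      (Real.contDiff_cos.comp (contDiff_const.mul contDiff_fst)).mul
        (Real.contDiff_cos.comp (contDiff_const.mul contDiff_snd))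
    have hG := hgs.comp hC
    have h1 : ContDiff ℝ ((⊤ : ℕ∞) : WithTop ℕ∞) (fun p : ℝ × ℝ =>
        Real.sqrt (gg (Real.cos (2 * p.1) * Real.cos (2 * p.2)) /
      (1 + gg (Real.cos (2 * p.1) * Real.cos (2 * p.2))))) := by
      refine ContDiff.sqrt (hG.div (contDiff_const.add hG) ?_) ?_
      · intro p
        have := hg (Real.cos (2 * p.1) * Real.cos (2 * p.2))
        exact (by linarith : (0 : ℝ) < 1 + gg (Real.cos (2 * p.1) * Real.cos (2 * p.2))).ne'
      · intro p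
        have := hg (Real.cos (2 * p.1) * Real.cos (2 * p.2))
        exact (div_pos this (by linarith)).ne'
    have h2 : ContDiff ℝ ((⊤ : ℕ∞) : WithTop ℕ∞) (fun p : ℝ × ℝ =>
        Real.sqrt (1 / (1 + gg (Real.cos (2 * p.1) * Real.cos (2 * p.2))))) := by
      refine ContDiff.sqrt (contDiff_const.div (contDiff_const.add hG) ?_) ?_
      · intro p
        have := hg (Real.cos (2 * p.1) * Real.cos (2 * p.2))
        exact (by linarith : (0 : ℝ) < 1 + gg (Real.cos (2 * p.1) * Real.cos (2 * p.2))).ne'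
      · intro p
        have := hg (Real.cos (2 * p.1) * Real.cos (2 * p.2))
        exact (div_pos one_pos (by linarith)).ne'
    rw [contDiff_euclidean]
    intro i
    fin_cases i
    · change ContDiff ℝ _ (fun p : ℝ × ℝ => f0 p.1 p.2 0)
      simp only [f0_zero]
      exact contDiff_const
    · change ContDiff ℝ _ (fun p : ℝ × ℝ => f0 p.1 p.2 1)
      simp only [f0_one]
      exact h1.mul (Real.contDiff_cos.comp contDiff_fst)
    · change ContDiff ℝ _ (fun p : ℝ × ℝ => f0 p.1 p.2 2)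
      simp only [f0_two]
      exact h2.mul (Real.contDiff_cos.comp contDiff_snd)
    · change ContDiff ℝ _ (fun p : ℝ × ℝ => f0 p.1 p.2 3)
      simp only [f0_three]
      exact h2.mul (Real.contDiff_sin.comp contDiff_snd)
    · change ContDiff ℝ _ (fun p : ℝ × ℝ => f0 p.1 p.2 4)
      simp only [f0_four]
      exact h1.mul (Real.contDiff_sin.comp contDiff_fst)
  · -- periodicity
    intro a b
    have hc : ∀ x : ℝ, Real.cos (2 * (x + 2 * Real.pi)) = Real.cos (2 * x) := by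
      intro x
      rw [show 2 * (x + 2 * Real.pi) = 2 * x + 2 * Real.pi + 2 * Real.pi by ring,
        Real.cos_add_two_pi, Real.cos_add_two_pi]
    constructor
    · unfold f0
      rw [hc, Real.cos_add_two_pi, Real.sin_add_two_pi]
    · unfold f0
      rw [hc, Real.cos_add_two_pi, Real.sin_add_two_pi]
  · -- on the torus
    intro a b
    refine ⟨?_, f0_zero a b, ?_⟩
    · intro h
      have := hn a b
      rw [h, norm_zero] at this
      exact zero_ne_one this
    · have h0 := hg (Real.cos (2 * a) * Real.cos (2 * b))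
      have heq := (h14.1 (Real.cos (2 * a) * Real.cos (2 * b))).2
      have ha := Real.cos_sq_add_sin_sq a
      have hb := Real.cos_sq_add_sin_sq b
      change (f0 a b 1 ^ 2 + f0 a b 4 ^ 2) ^ 2 - (f0 a b 2 ^ 2 + f0 a b 3 ^ 2) ^ 2 +
        3 / 2 * ((f0 a b 1 ^ 2 - f0 a b 4 ^ 2) * (f0 a b 2 ^ 2 - f0 a b 3 ^ 2)) = 0
      rw [f0_one, f0_two, f0_three, f0_four]
      simp only [mul_pow]
      rw [Real.sq_sqrt (div_pos h0 (by linarith)).le,
        Real.sq_sqrt (div_pos one_pos (by linarith)).le, quad_eq ha hb, ← Real.cos_two_mul,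
        ← Real.cos_two_mul]
      have h1 : (1 + gg (Real.cos (2 * a) * Real.cos (2 * b))) ≠ 0 := by linarith
      generalize gg (Real.cos (2 * a) * Real.cos (2 * b)) = g at *
      generalize Real.cos (2 * a) * Real.cos (2 * b) = C at *
      field_simp
      linarith
  · -- surjectivity
    rintro x ⟨hx0, hxm, hxq⟩
    change (x 1 ^ 2 + x 4 ^ 2) ^ 2 - (x 2 ^ 2 + x 3 ^ 2) ^ 2 +
        3 / 2 * ((x 1 ^ 2 - x 4 ^ 2) * (x 2 ^ 2 - x 3 ^ 2)) = 0 at hxq
    obtain ⟨a, ha1, ha2⟩ := exists_polar (x 1) (x 4)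
    obtain ⟨b, hb1, hb2⟩ := exists_polar (x 2) (x 3)
    have hA0 : 0 ≤ x 1 ^ 2 + x 4 ^ 2 := by positivity
    have hB0 : 0 ≤ x 2 ^ 2 + x 3 ^ 2 := by positivity
    have hnorm : ‖x‖ ^ 2 = (x 1 ^ 2 + x 4 ^ 2) + (x 2 ^ 2 + x 3 ^ 2) := by
      rw [EuclideanSpace.norm_sq_eq, Fin.sum_univ_five, hxm]
      simp only [Real.norm_eq_abs, sq_abs]
      ring
    have hpos : 0 < (x 1 ^ 2 + x 4 ^ 2) + (x 2 ^ 2 + x 3 ^ 2) := by
      rw [← hnorm]
      exact pow_pos (norm_pos_iff.2 hx0) 2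
    obtain ⟨A, hA⟩ : ∃ A, A = x 1 ^ 2 + x 4 ^ 2 := ⟨_, rfl⟩
    obtain ⟨B, hB⟩ : ∃ B, B = x 2 ^ 2 + x 3 ^ 2 := ⟨_, rfl⟩
    rw [← hA] at ha1 ha2 hA0 hnorm hpos
    rw [← hB] at hb1 hb2 hB0 hnorm hpos
    have ea := Real.cos_sq_add_sin_sq a
    have eb := Real.cos_sq_add_sin_sq b
    have hq' : A ^ 2 - B ^ 2 + 3 / 2 * (Real.cos (2 * a) * Real.cos (2 * b)) * (A * B) = 0 := by
      rw [Real.cos_two_mul, Real.cos_two_mul, ← quad_eq ea eb]
      have e1 : A * Real.cos a ^ 2 = x 1 ^ 2 := by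
        conv_rhs => rw [ha1]
        rw [mul_pow, Real.sq_sqrt hA0]
      have e2 : A * Real.sin a ^ 2 = x 4 ^ 2 := by
        conv_rhs => rw [ha2]
        rw [mul_pow, Real.sq_sqrt hA0]
      have e3 : B * Real.cos b ^ 2 = x 2 ^ 2 := by
        conv_rhs => rw [hb1]
        rw [mul_pow, Real.sq_sqrt hB0]
      have e4 : B * Real.sin b ^ 2 = x 3 ^ 2 := by
        conv_rhs => rw [hb2]
        rw [mul_pow, Real.sq_sqrt hB0]
      rw [e1, e2, e3, e4]
      exact hxq
    have hApos : 0 < A := by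
      rcases eq_or_lt_of_le hA0 with h | h
      · exfalso
        rw [← h] at hq' hpos
        nlinarith
      · exact h
    have hBpos : 0 < B := by
      rcases eq_or_lt_of_le hB0 with h | h
      · exfalso
        rw [← h] at hq' hpos
        nlinarith
      · exact h
    have hgAB : gg (Real.cos (2 * a) * Real.cos (2 * b)) = A / B := by
      refine root_unique (hg _) (div_pos hApos hBpos) (h14.1 _).2 ?_
      field_simp
      linarith
    have h1 : A / B / (1 + A / B) = A / ‖x‖ ^ 2 := by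
      rw [hnorm]
      field_simp
      ring
    have h2 : 1 / (1 + A / B) = B / ‖x‖ ^ 2 := by
      rw [hnorm]
      field_simp
      ring
    have hxn : 0 < ‖x‖ := norm_pos_iff.2 hx0
    have h3 : ‖x‖ * Real.sqrt (A / ‖x‖ ^ 2) = Real.sqrt A := by
      rw [Real.sqrt_div hA0, Real.sqrt_sq hxn.le, mul_div_cancel₀ _ hxn.ne']
    have h4 : ‖x‖ * Real.sqrt (B / ‖x‖ ^ 2) = Real.sqrt B := by
      rw [Real.sqrt_div hB0, Real.sqrt_sq hxn.le, mul_div_cancel₀ _ hxn.ne']
    refine ⟨a, b, ?_⟩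
    ext i
    rw [PiLp.smul_apply, smul_eq_mul]
    fin_cases i
    · change x 0 = ‖x‖ * f0 a b 0
      rw [f0_zero, hxm, mul_zero]
    · change x 1 = ‖x‖ * f0 a b 1
      rw [f0_one, hgAB, h1, ← mul_assoc, h3]
      exact ha1
    · change x 2 = ‖x‖ * f0 a b 2
      rw [f0_two, hgAB, h2, ← mul_assoc, h4]
      exact hb1
    · change x 3 = ‖x‖ * f0 a b 3
      rw [f0_three, hgAB, h2, ← mul_assoc, h4]
      exact hb2
    · change x 4 = ‖x‖ * f0 a b 4
      rw [f0_four, hgAB, h1, ← mul_assoc, h3]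
      exact ha2

end Pool.KT
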