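import Pool.Agent.Work.MP_70ab54_kt.InterfaceC

/-!
# MP_70ab54: block C16 (injectivity of the parametrisation of `T_0`), helper98
-/

set_option autoImplicit false

namespace Pool.KT

open Set Topology

namespace C16aux

theorem f0_one (a b : ℝ) : f0 a b 1 =
    Real.sqrt (gg (Real.cos (2 * a) * Real.cos (2 * b)) /
      (1 + gg (Real.cos (2 * a) * Real.cos (2 * b)))) * Real.cos a := by
  simp [f0]

theorem f0_four (a b : ℝ) : f0 a b 4 =
    Real.sqrt (gg (Real.cos (2 * a) * Real.cos (2 * b)) /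
      (1 + gg (Real.cos (2 * a) * Real.cos (2 * b)))) * Real.sin a := by
  simp [f0]

theorem f0_two (a b : ℝ) : f0 a b 2 =
    Real.sqrt (1 / (1 + gg (Real.cos (2 * a) * Real.cos (2 * b)))) * Real.cos b := by
  simp [f0]

theorem f0_three (a b : ℝ) : f0 a b 3 =
    Real.sqrt (1 / (1 + gg (Real.cos (2 * a) * Real.cos (2 * b)))) * Real.sin b := by
  simp [f0]

theorem f0_zero (a b : ℝ) : f0 a b 0 = 0 := by
  simp [f0]

theorem polar_inj {r r' a a' : ℝ} (hr : 0 < r) (hr' : 0 < r')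
    (h1 : r * Real.cos a = r' * Real.cos a') (h2 : r * Real.sin a = r' * Real.sin a') :
    Real.cos a = Real.cos a' ∧ Real.sin a = Real.sin a' := by
  have h3 : r ^ 2 = r' ^ 2 := by
    calc r ^ 2 = (r * Real.cos a) ^ 2 + (r * Real.sin a) ^ 2 := by
          rw [mul_pow, mul_pow, ← mul_add, Real.cos_sq_add_sin_sq, mul_one]
      _ = (r' * Real.cos a') ^ 2 + (r' * Real.sin a') ^ 2 := by rw [h1, h2]
      _ = r' ^ 2 := by rw [mul_pow, mul_pow, ← mul_add, Real.cos_sq_add_sin_sq, mul_one]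
  have h4 : r = r' := by
    rcases sq_eq_sq_iff_eq_or_eq_neg.1 h3 with h | h
    · exact h
    · linarith
  subst h4
  exact ⟨mul_left_cancel₀ hr.ne' h1, mul_left_cancel₀ hr.ne' h2⟩

end C16aux

open C16aux in
theorem stmt_C16 (h14 : Stmt_C14) : Stmt_C16 := by
  intro a b a' b' h
  have hg : ∀ C, 0 < gg C := fun C => (h14.1 C).1
  have hr1 : ∀ C, 0 < Real.sqrt (gg C / (1 + gg C)) := fun C =>
    Real.sqrt_pos.2 (div_pos (hg C) (by linarith [hg C]))
  have hr2 : ∀ C, 0 < Real.sqrt (1 / (1 + gg C)) := fun C =>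
    Real.sqrt_pos.2 (div_pos one_pos (by linarith [hg C]))
  have e1 : f0 a b 1 = f0 a' b' 1 := by rw [h]
  have e2 : f0 a b 2 = f0 a' b' 2 := by rw [h]
  have e3 : f0 a b 3 = f0 a' b' 3 := by rw [h]
  have e4 : f0 a b 4 = f0 a' b' 4 := by rw [h]
  rw [f0_one, f0_one] at e1
  rw [f0_two, f0_two] at e2
  rw [f0_three, f0_three] at e3
  rw [f0_four, f0_four] at e4
  obtain ⟨h1, h2⟩ := polar_inj (hr1 _) (hr1 _) e1 e4
  obtain ⟨h3, h4⟩ := polar_inj (hr2 _) (hr2 _) e2 e3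
  exact ⟨h1, h2, h3, h4⟩

end Pool.KT
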