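import Pool.Agent.Work.MP_70ab54_kt.InterfaceC

/-!
# MP_70ab54: block C17 (the parametrisation of `T_0` is an immersion), helper98
-/

set_option autoImplicit false

namespace Pool.KT

open Set Topology

namespace C17aux

theorem f0_one (a b : ℝ) : f0 a b 1 =
    Real.sqrt (gg (Real.cos (2 * a) * Real.cos (2 * b)) /
      (1 + gg (Real.cos (2 * a) * Real.cos (2 * b)))) * Real.cos a := by
  simp [f0]

theorem f0_four (a b : ℝ) : f0 a b 4 =
    Real.sqrt (gg (Real.cos (2 * a) * Real.cos (2 * b)) /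
      (1 + gg (Real.cos (2 * a) * Real.cos (2 * b)))) * Real.sin a := by
  simp [f0]

theorem f0_two (a b : ℝ) : f0 a b 2 =
    Real.sqrt (1 / (1 + gg (Real.cos (2 * a) * Real.cos (2 * b)))) * Real.cos b := by
  simp [f0]

theorem f0_three (a b : ℝ) : f0 a b 3 =
    Real.sqrt (1 / (1 + gg (Real.cos (2 * a) * Real.cos (2 * b)))) * Real.sin b := by
  simp [f0]

/-- If `R cos u` and `R sin u` have zero derivative in the direction `h`, so has `u`. -/
theorem polar_deriv {R : ℝ × ℝ → ℝ} {l : ℝ × ℝ →L[ℝ] ℝ} {p h : ℝ × ℝ}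
    (hR : DifferentiableAt ℝ R p) (hpos : 0 < R p)
    (h1 : fderiv ℝ (fun q => R q * Real.cos (l q)) p h = 0)
    (h2 : fderiv ℝ (fun q => R q * Real.sin (l q)) p h = 0) : l h = 0 := by
  have hl : HasFDerivAt (fun q : ℝ × ℝ => l q) l p := l.hasFDerivAt
  have e1 := (hR.hasFDerivAt.mul hl.cos).fderiv
  have e2 := (hR.hasFDerivAt.mul hl.sin).fderiv
  have e1' : fderiv ℝ (fun q => R q * Real.cos (l q)) p h =
      R p * (-Real.sin (l p) * l h) + Real.cos (l p) * fderiv ℝ R p h := by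
    change fderiv ℝ (R * fun q => Real.cos (l q)) p h = _
    rw [e1]
    simp [smul_eq_mul]
  have e2' : fderiv ℝ (fun q => R q * Real.sin (l q)) p h =
      R p * (Real.cos (l p) * l h) + Real.sin (l p) * fderiv ℝ R p h := by
    change fderiv ℝ (R * fun q => Real.sin (l q)) p h = _
    rw [e2]
    simp [smul_eq_mul]
  rw [e1'] at h1
  rw [e2'] at h2
  have h3 := Real.cos_sq_add_sin_sq (l p)
  have h4 : R p * l h = 0 := by
    calc R p * l h = R p * l h * (Real.cos (l p) ^ 2 + Real.sin (l p) ^ 2) := by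
          rw [h3, mul_one]
      _ = Real.cos (l p) * (R p * (Real.cos (l p) * l h) + Real.sin (l p) * fderiv ℝ R p h) -
          Real.sin (l p) * (R p * (-Real.sin (l p) * l h) + Real.cos (l p) * fderiv ℝ R p h) := by
          ring
      _ = 0 := by rw [h1, h2, mul_zero, mul_zero, sub_zero]
  exact (mul_eq_zero.1 h4).resolve_left hpos.ne'

end C17aux

open C17aux in
theorem stmt_C17 (h15 : Stmt_C15) (h14 : Stmt_C14) : Stmt_C17 := by
  intro a b
  have hg : ∀ C, 0 < gg C := fun C => (h14.1 C).1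
  have hgs := h14.2
  have hF : ContDiff ℝ ((⊤ : ℕ∞) : WithTop ℕ∞) (fun p : ℝ × ℝ => f0 p.1 p.2) := h15.1
  have hFd : DifferentiableAt ℝ (fun p : ℝ × ℝ => f0 p.1 p.2) (a, b) :=
    (hF.differentiable (by simp)).differentiableAt
  have hC : ContDiff ℝ ((⊤ : ℕ∞) : WithTop ℕ∞)
      (fun p : ℝ × ℝ => Real.cos (2 * p.1) * Real.cos (2 * p.2)) :=
    (Real.contDiff_cos.comp (contDiff_const.mul contDiff_fst)).mul
      (Real.contDiff_cos.comp (contDiff_const.mul contDiff_snd))
  have hG := hgs.comp hC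
  have hR1 : ContDiff ℝ ((⊤ : ℕ∞) : WithTop ℕ∞) (fun p : ℝ × ℝ =>
      Real.sqrt (gg (Real.cos (2 * p.1) * Real.cos (2 * p.2)) /
    (1 + gg (Real.cos (2 * p.1) * Real.cos (2 * p.2))))) := by
    refine ContDiff.sqrt (hG.div (contDiff_const.add hG) ?_) ?_
    · intro p
      have := hg (Real.cos (2 * p.1) * Real.cos (2 * p.2))
      exact (by linarith : (0 : ℝ) < 1 + gg (Real.cos (2 * p.1) * Real.cos (2 * p.2))).ne'
    · intro p
      have := hg (Real.cos (2 * p.1) * Real.cos (2 * p.2))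
      exact (div_pos this (by linarith)).ne'
  have hR2 : ContDiff ℝ ((⊤ : ℕ∞) : WithTop ℕ∞) (fun p : ℝ × ℝ =>
      Real.sqrt (1 / (1 + gg (Real.cos (2 * p.1) * Real.cos (2 * p.2))))) := by
    refine ContDiff.sqrt (contDiff_const.div (contDiff_const.add hG) ?_) ?_
    · intro p
      have := hg (Real.cos (2 * p.1) * Real.cos (2 * p.2))
      exact (by linarith : (0 : ℝ) < 1 + gg (Real.cos (2 * p.1) * Real.cos (2 * p.2))).ne'
    · intro p
      have := hg (Real.cos (2 * p.1) * Real.cos (2 * p.2))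
      exact (div_pos one_pos (by linarith)).ne'
  -- coordinates of the derivative
  have hcoord : ∀ (i : Fin 5) (h : ℝ × ℝ),
      fderiv ℝ (fun p : ℝ × ℝ => f0 p.1 p.2 i) (a, b) h =
        fderiv ℝ (fun p : ℝ × ℝ => f0 p.1 p.2) (a, b) h i := by
    intro i h
    have h1 := ((EuclideanSpace.proj (𝕜 := ℝ) i).hasFDerivAt.comp (a, b)
      hFd.hasFDerivAt).fderiv
    have h2 : fderiv ℝ (fun p : ℝ × ℝ => f0 p.1 p.2 i) (a, b) =
      (EuclideanSpace.proj (𝕜 := ℝ) i).comp
        (fderiv ℝ (fun p : ℝ × ℝ => f0 p.1 p.2) (a, b)) := h1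
    rw [h2]
    rfl
  rw [injective_iff_map_eq_zero]
  intro h hh
  have hz : ∀ i : Fin 5, fderiv ℝ (fun p : ℝ × ℝ => f0 p.1 p.2 i) (a, b) h = 0 := by
    intro i
    rw [hcoord, hh]
    rfl
  have z1 := hz 1
  have z2 := hz 2
  have z3 := hz 3
  have z4 := hz 4
  simp only [f0_one] at z1
  simp only [f0_two] at z2
  simp only [f0_three] at z3
  simp only [f0_four] at z4
  have d1 : h.1 = 0 := by
    have := polar_deriv (l := ContinuousLinearMap.fst ℝ ℝ ℝ) (p := (a, b)) (h := h)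
      ((hR1.differentiable (by simp)).differentiableAt)
      (Real.sqrt_pos.2 (div_pos (hg _) (by linarith [hg (Real.cos (2 * a) * Real.cos (2 * b))])))
      z1 z4
    exact this
  have d2 : h.2 = 0 := by
    have := polar_deriv (l := ContinuousLinearMap.snd ℝ ℝ ℝ) (p := (a, b)) (h := h)
      ((hR2.differentiable (by simp)).differentiableAt)
      (Real.sqrt_pos.2 (div_pos one_pos (by linarith [hg (Real.cos (2 * a) * Real.cos (2 * b))])))
      z2 z3
    exact this
  exact Prod.ext d1 d2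

end Pool.KT
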