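import Pool.Agent.Work.MP_70ab54_kt.InterfaceC

/-!
# MP_70ab54: block C19 (cone immersion), helper98
-/

set_option autoImplicit false

namespace Pool.KT

open Set Topology

theorem stmt_C19 (h15 : Stmt_C15) (h17 : Stmt_C17) : Stmt_C19 := by
  intro a b c h hch
  have hF : ContDiff ℝ ((⊤ : ℕ∞) : WithTop ℕ∞) (fun p : ℝ × ℝ => f0 p.1 p.2) := h15.1
  have hFd : DifferentiableAt ℝ (fun p : ℝ × ℝ => f0 p.1 p.2) (a, b) :=
    (hF.differentiable (by simp)).differentiableAt
  -- the derivative is orthogonal to the position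
  have horth : inner ℝ (f0 a b) (fderiv ℝ (fun p : ℝ × ℝ => f0 p.1 p.2) (a, b) h) = 0 := by
    have h1 : (fun p : ℝ × ℝ => inner ℝ (f0 p.1 p.2) (f0 p.1 p.2)) = fun _ => (1 : ℝ) := by
      funext p
      rw [real_inner_self_eq_norm_sq, h15.2.1, one_pow]
    have h2 := (hFd.hasFDerivAt.inner ℝ hFd.hasFDerivAt).fderiv
    rw [h1] at h2
    have h3 := congrArg (fun L : ℝ × ℝ →L[ℝ] ℝ => L h) h2
    simp only [fderiv_fun_const, Pi.zero_apply, _root_.zero_apply,
      ContinuousLinearMap.comp_apply, ContinuousLinearMap.prod_apply,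
      fderivInnerCLM_apply] at h3
    rw [real_inner_comm (f0 a b)] at h3
    linarith
  have hc : c = 0 := by
    have h1 := congrArg (fun v => inner ℝ (f0 a b) v) hch
    simp only [inner_add_right, inner_smul_right, horth, inner_zero_right, add_zero,
      real_inner_self_eq_norm_sq, h15.2.1, one_pow, mul_one] at h1
    exact h1
  refine ⟨hc, ?_⟩
  rw [hc, zero_smul, zero_add] at hch
  exact (injective_iff_map_eq_zero _).1 (h17 a b) h hch

end Pool.KT
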