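import Pool.Agent.Work.MP_70ab54_kt.InterfaceD

/-!
# Theorem D: common lemmas on orbits and on the folding map (helper53)
-/

set_option autoImplicit false

namespace Pool.KT

open Set Topology

/-! ### Orbits -/

section orb

variable {S W : Type} {R : S → W → W} {T T' : Set S} {w w' w'' : W}

theorem gorb_refl (R : S → W → W) (T : Set S) (w : W) : w ∈ gorb R T w :=
  Relation.ReflTransGen.refl

theorem gorb_step {s : S} (hs : s ∈ T) (h : w' ∈ gorb R T w) : R s w' ∈ gorb R T w :=
  Relation.ReflTransGen.tail h ⟨s, hs, rfl⟩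

theorem gorb_mono (hT : T ⊆ T') : gorb R T w ⊆ gorb R T' w := by
  intro u h
  induction h with
  | refl => exact gorb_refl _ _ _
  | tail _ hs ih =>
    obtain ⟨s, hs, rfl⟩ := hs
    exact gorb_step (hT hs) ih

theorem gorb_trans (h : w' ∈ gorb R T w) (h' : w'' ∈ gorb R T w') : w'' ∈ gorb R T w :=
  Relation.ReflTransGen.trans h h'

theorem gorb_symm (hR : ∀ s w, R s (R s w) = w) (h : w' ∈ gorb R T w) : w ∈ gorb R T w' := by
  induction h with
  | refl => exact gorb_refl _ _ _
  | @tail b c _ hs ih =>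
    obtain ⟨s, hs, rfl⟩ := hs
    refine gorb_trans ?_ ih
    have := gorb_step (R := R) hs (gorb_refl R T (R s b))
    rwa [hR] at this

theorem gorb_eq (hR : ∀ s w, R s (R s w) = w) (h : w' ∈ gorb R T w) :
    gorb R T w' = gorb R T w :=
  Subset.antisymm (fun _ h' => gorb_trans h h') (fun _ h' => gorb_trans (gorb_symm hR h) h')

/-- induction on the orbit -/
theorem gorb_induction {P : W → Prop} (h0 : P w) (h1 : ∀ s ∈ T, ∀ u ∈ gorb R T w, P u → P (R s u))
    (h : w' ∈ gorb R T w) : P w' := by
  induction h with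
  | refl => exact h0
  | tail hu hs ih =>
    obtain ⟨s, hs, rfl⟩ := hs
    exact h1 s hs _ hu ih

end orb

/-! ### Folding -/

section fold

variable {V : Type} [TopologicalSpace V] {ι S : Type} {D : ReflData V ι}

theorem D_units_mul_self (g : ι → ℤˣ) : g * g = 1 := by
  funext i
  exact Int.units_mul_self (g i)

theorem D_act_one (x : V) : D.act 1 x = x := D.act_fix 1 x (fun _ _ => rfl)

theorem D_act_act (g : ι → ℤˣ) (x : V) : D.act g (D.act g x) = x := by
  rw [D.act_mul, D_units_mul_self, D_act_one]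

theorem D_unit_cases (u : ℤˣ) : ((u : ℤ) : ℝ) = 1 ∨ ((u : ℤ) : ℝ) = -1 := by
  rcases Int.units_eq_one_or u with h | h
  · left; rw [h]; simp
  · right; rw [h]; simp

theorem D_unit_eq_of_nonneg {u v : ℤˣ} {t : ℝ} (ht : t ≠ 0) (hu : 0 ≤ ((u : ℤ) : ℝ) * t)
    (hv : 0 ≤ ((v : ℤ) : ℝ) * t) : u = v := by
  rcases Int.units_eq_one_or u with h | h <;> rcases Int.units_eq_one_or v with h' | h'
  · rw [h, h']
  · rw [h] at hu
    rw [h'] at hv
    simp at hu hv
    exact absurd (le_antisymm hv hu) ht
  · rw [h] at hu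
    rw [h'] at hv
    simp at hu hv
    exact absurd (le_antisymm hu hv) ht
  · rw [h, h']

theorem D_adm_iff (g : ι → ℤˣ) (x : V) : Adm D g x ↔ D.act g x ∈ D.Q := by
  constructor
  · intro h i
    rw [D.h_act]
    exact h i
  · intro h i
    have := h i
    rwa [D.h_act] at this

theorem D_adm_sgv (x : V) : Adm D (D.sgv x) x := by
  intro i
  unfold ReflData.sgv
  split_ifs with h
  · simp; exact h.le
  · simp; exact not_lt.1 h

theorem D_fold_mem_Q (x : V) : D.fold x ∈ D.Q := (D_adm_iff _ _).1 (D_adm_sgv x)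

theorem D_fold_of_adm {g : ι → ℤˣ} {x : V} (h : Adm D g x) : D.fold x = D.act g x := by
  have h1 : D.act (g * D.sgv x) x = x := by
    refine D.act_fix _ _ fun i hi => ?_
    have := D_unit_eq_of_nonneg hi (h i) (D_adm_sgv x i)
    show g i * D.sgv x i = 1
    rw [this]
    exact Int.units_mul_self _
  have h2 : D.act g (D.act (g * D.sgv x) x) = D.act (D.sgv x) x := by
    rw [D.act_mul, ← mul_assoc, D_units_mul_self, one_mul]
  rw [h1] at h2
  exact h2.symm

theorem D_adm_act {q : V} (hq : q ∈ D.Q) (g : ι → ℤˣ) : Adm D g (D.act g q) := by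
  rw [D_adm_iff, D_act_act]
  exact hq

theorem D_fold_act_Q {q : V} (hq : q ∈ D.Q) (g : ι → ℤˣ) : D.fold (D.act g q) = q := by
  rw [D_fold_of_adm (D_adm_act hq g), D_act_act]

theorem D_fold_Q {q : V} (hq : q ∈ D.Q) : D.fold q = q := by
  have := D_fold_act_Q hq 1
  rwa [D_act_one] at this

theorem D_h_fold (x : V) (i : ι) : D.h i (D.fold x) = 0 ↔ D.h i x = 0 := by
  unfold ReflData.fold
  rw [D.h_act]
  rcases D_unit_cases (D.sgv x i) with h | h <;> rw [h] <;> simp

theorem D_fold_cont [Finite ι] : Continuous D.fold := by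
  refine (locallyFinite_of_finite (fun g : ι → ℤˣ => {x | Adm D g x})).continuous ?_ ?_ ?_
  · refine eq_univ_of_forall fun x => mem_iUnion.2 ⟨D.sgv x, D_adm_sgv x⟩
  · intro g
    have : {x | Adm D g x} = ⋂ i, {x | 0 ≤ ((g i : ℤ) : ℝ) * D.h i x} := by
      ext x
      simp only [mem_iInter]
      exact Iff.rfl
    rw [this]
    exact isClosed_iInter fun i => isClosed_le continuous_const (continuous_const.mul (D.h_cont i))
  · intro g
    exact (D.act_cont g).continuousOn.congr fun x hx => D_fold_of_adm hx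

end fold

section mirrors

variable {V : Type} [TopologicalSpace V] {ι S : Type} {D : ReflData V ι} {ty : S → ι}
  {cm : S → S → Prop} {X : Set V} {m : S → Set V}

theorem D_fold_mem (hM : MirrorData D ty cm X m) {x : V} (hx : x ∈ X) : D.fold x ∈ X :=
  hM.inv _ _ hx

theorem D_stp_h (hM : MirrorData D ty cm X m) {x : V} {s : S} (hs : s ∈ stp D m x) :
    D.h (ty s) x = 0 := (D_h_fold x _).1 (hM.sub s _ hs).2.2

theorem D_stp_cover (hM : MirrorData D ty cm X m) {x : V} (hx : x ∈ X) {i : ι}
    (hi : D.h i x = 0) : ∃ s ∈ stp D m x, ty s = i := by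
  obtain ⟨s, hs, h⟩ := hM.cover _ (D_fold_mem hM hx) (D_fold_mem_Q x) i ((D_h_fold x i).2 hi)
  exact ⟨s, h, hs⟩

theorem D_stp_inj (hM : MirrorData D ty cm X m) {x : V} {s t : S} (hs : s ∈ stp D m x)
    (ht : t ∈ stp D m x) (h : ty s = ty t) : s = t := hM.disj s t h _ hs ht

theorem D_stp_cm (hM : MirrorData D ty cm X m) {x : V} {s t : S} (hs : s ∈ stp D m x)
    (ht : t ∈ stp D m x) (h : s ≠ t) : cm s t := hM.comm s t h _ hs ht

/-- the points whose mirrors are among the mirrors of `x₀` -/
theorem D_isOpen_stp [Finite ι] [Finite S] (hM : MirrorData D ty cm X m) (A : Set S) :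
    IsOpen {x : X | stp D m x ⊆ A} := by
  have h1 : {x : X | stp D m x ⊆ A}ᶜ = ⋃ s ∈ Aᶜ, {x : X | D.fold x ∈ m s} := by
    ext x
    simp only [mem_compl_iff, mem_iUnion, exists_prop]
    constructor
    · intro h
      obtain ⟨s, hs, hsA⟩ := not_subset.1 h
      exact ⟨s, hsA, hs⟩
    · rintro ⟨s, hsA, hs⟩ h
      exact hsA (h hs)
  rw [← isClosed_compl_iff, h1]
  refine (Set.toFinite _).isClosed_biUnion fun s _ => ?_
  obtain ⟨C, hC, e⟩ := hM.closed s
  have h2 : {x : X | D.fold x ∈ m s} = (fun x : X => D.fold x) ⁻¹' C := by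
    ext x
    show D.fold x ∈ m s ↔ D.fold x ∈ C
    rw [e]
    exact ⟨fun h => h.2, fun h => ⟨D_fold_mem hM x.2, h⟩⟩
  rw [h2]
  exact hC.preimage (D_fold_cont.comp continuous_subtype_val)

end mirrors

/-! ### Signs along orbits -/

section signs

variable {V : Type} [TopologicalSpace V] {ι S : Type} {D : ReflData V ι} {ty : S → ι}
  {cm : S → S → Prop} {G : Gal ty cm} {X : Set V} {m : S → Set V}

/-- admissibility is constant on the orbits of the mirrors of `x` -/
theorem D_adm_orb {T : Set S} {x : V} (hT : ∀ s ∈ T, D.h (ty s) x = 0) {w w' : G.W}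
    (h : w' ∈ gorb G.R T w) (hw : Adm D (G.sg w) x) : Adm D (G.sg w') x := by
  refine gorb_induction (P := fun u => Adm D (G.sg u) x) hw ?_ h
  intro s hs u _ hu i
  by_cases hi : i = ty s
  · rw [hi, hT s hs, mul_zero]
  · rw [G.sg_R_ne s u i hi]
    exact hu i

/-- two elements of a coset of a clique differ by one generator or not -/
theorem D_sep {A : Set S} (hA : ∀ s ∈ A, ∀ t ∈ A, s ≠ t → cm s t) {s : S} (hs : s ∈ A)
    {w w' : G.W} (h : w' ∈ gorb G.R A w) :
    w' ∈ gorb G.R (A \ {s}) w ∨ G.R s w' ∈ gorb G.R (A \ {s}) w := by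
  refine gorb_induction
    (P := fun u => u ∈ gorb G.R (A \ {s}) w ∨ G.R s u ∈ gorb G.R (A \ {s}) w)
    (Or.inl (gorb_refl _ _ _)) ?_ h
  intro t ht u _ hu
  by_cases hts : t = s
  · rw [hts]
    rcases hu with hu | hu
    · right
      rw [G.R_R]
      exact hu
    · left
      exact hu
  · rcases hu with hu | hu
    · left
      exact gorb_step ⟨ht, hts⟩ hu
    · right
      rw [G.R_comm s t u (hA s hs t ht (Ne.symm hts))]
      exact gorb_step ⟨ht, hts⟩ hu

/-- removal of the generators along which the signs agree -/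
theorem D_uniq {A : Set S} (hA : ∀ s ∈ A, ∀ t ∈ A, s ≠ t → cm s t)
    (hty : ∀ s ∈ A, ∀ t ∈ A, ty s = ty t → s = t) {w w' : G.W} (h : w' ∈ gorb G.R A w)
    (C : Finset S) (hC : ∀ s ∈ C, s ∈ A → G.sg w' (ty s) = G.sg w (ty s)) :
    w' ∈ gorb G.R (A \ C) w := by
  classical
  induction C using Finset.induction_on with
  | empty => simpa using h
  | insert s C hs ih =>
    have ih' := ih (fun t ht => hC t (Finset.mem_insert_of_mem ht))
    have e : A \ (insert s C : Finset S) = (A \ C) \ {s} := by
      ext t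
      simp only [mem_sdiff, Finset.coe_insert, mem_insert_iff, mem_singleton_iff]
      tauto
    rw [e]
    by_cases hsA : s ∈ A
    · rcases D_sep (G := G) (A := A \ C) (fun a ha b hb => hA a ha.1 b hb.1)
        (s := s) ⟨hsA, hs⟩ ih' with h1 | h1
      · exact h1
      · exfalso
        have h2 : G.sg (G.R s w') (ty s) = G.sg w (ty s) := by
          refine gorb_induction (P := fun u => G.sg u (ty s) = G.sg w (ty s)) rfl ?_ h1
          intro t ht u _ hu
          rw [G.sg_R_ne t u (ty s) ?_]
          · exact hu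
          · intro he
            exact ht.2 (hty t ht.1.1 s hsA he.symm)
        rw [G.sg_R, hC s (Finset.mem_insert_self _ _) hsA] at h2
        rcases Int.units_eq_one_or (G.sg w (ty s)) with h3 | h3 <;> rw [h3] at h2 <;>
          revert h2 <;> decide
    · have e2 : (A \ C) \ {s} = A \ C := by
        ext t
        simp only [mem_sdiff, mem_singleton_iff]
        constructor
        · exact fun h => h.1
        · intro h
          refine ⟨h, ?_⟩
          rintro rfl
          exact hsA h.1
      rw [e2]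
      exact ih'

/-- prescribing the signs -/
theorem D_exists_sg (C : Finset S) (hty : ∀ s ∈ C, ∀ t ∈ C, ty s = ty t → s = t)
    (ε : ι → ℤˣ) (w : G.W) : ∃ w' ∈ gorb G.R (C : Set S) w, (∀ s ∈ C, G.sg w' (ty s) = ε (ty s)) ∧
      ∀ i, (∀ s ∈ C, ty s ≠ i) → G.sg w' i = G.sg w i := by
  classical
  induction C using Finset.induction_on with
  | empty => exact ⟨w, gorb_refl _ _ _, by simp, fun _ _ => rfl⟩
  | insert s C hs ih =>
    obtain ⟨w', h1, h2, h3⟩ := ih (fun a ha b hb =>
      hty a (Finset.mem_insert_of_mem ha) b (Finset.mem_insert_of_mem hb))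
    have hmono : (C : Set S) ⊆ (insert s C : Finset S) := by
      intro t ht
      exact Finset.mem_coe.2 (Finset.mem_insert_of_mem (Finset.mem_coe.1 ht))
    by_cases he : G.sg w' (ty s) = ε (ty s)
    · refine ⟨w', gorb_mono hmono h1, ?_, ?_⟩
      · intro t ht
        rcases Finset.mem_insert.1 ht with rfl | ht
        · exact he
        · exact h2 t ht
      · intro i hi
        exact h3 i (fun t ht => hi t (Finset.mem_insert_of_mem ht))
    · refine ⟨G.R s w', gorb_step (Finset.mem_coe.2 (Finset.mem_insert_self _ _))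
        (gorb_mono hmono h1), ?_, ?_⟩
      · intro t ht
        rcases Finset.mem_insert.1 ht with rfl | ht
        · rw [G.sg_R]
          rcases Int.units_eq_one_or (G.sg w' (ty t)) with h4 | h4 <;>
            rcases Int.units_eq_one_or (ε (ty t)) with h5 | h5 <;> rw [h4, h5] at he <;>
            rw [h4, h5]
          · exact absurd rfl he
          · simp
          · exact absurd rfl he
        · rw [G.sg_R_ne s w' (ty t) ?_]
          · exact h2 t ht
          · intro h6
            have := hty t (Finset.mem_insert_of_mem ht) s (Finset.mem_insert_self _ _) h6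
            rw [this] at ht
            exact hs ht
      · intro i hi
        rw [G.sg_R_ne s w' i (Ne.symm (hi s (Finset.mem_insert_self _ _)))]
        exact h3 i (fun t ht => hi t (Finset.mem_insert_of_mem ht))

end signs

end Pool.KT
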