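import Pool.Agent.Work.MP_70ab54_kt.DLem

/-!
# Block D_FIN: Theorem D (helper53)
-/

set_option autoImplicit false

namespace Pool.KT

open Set Topology

variable {V : Type} [TopologicalSpace V] {ι S : Type} {D : ReflData V ι} {ty : S → ι}
  {cm : S → S → Prop} {G : Gal ty cm} {X : Set V} {m : S → Set V}

/-- the preimage of an invariant set is `LAE` when the parts over the cosets are `AE` -/
theorem D_FIN_lae (E : Set V) (hE : ∀ g, ∀ x ∈ E, D.act g x ∈ E) (T : Set S)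
    (hT : ∀ s, s ∉ T → ∀ x ∈ m s, x ∉ E)
    (h : ∀ w : G.W, AE ({y | y.1.1 ∈ E ∧ y.1.2 ⊆ gorb G.R T w} : Set (Dev D G X m))) :
    LAE ({y | ((y.p : X) : V) ∈ E} : Set (Dev D G X m)) := by
  rintro ⟨y, hy⟩
  obtain ⟨w, hw1, hw2⟩ := y.2.2
  have hstp : ∀ z : Dev D G X m, z.1.1 ∈ E → stp D m z.1.1 ⊆ T := by
    intro z hz s hs
    by_contra hsT
    exact hT s hsT _ hs (hE _ _ hz)
  have hop : IsOpen {z : Dev D G X m | z.1.2 ⊆ gorb G.R T w} := by
    intro z hz
    exact ⟨univ, isOpen_univ, mem_univ _, fun z' _ h => h.trans hz⟩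
  have hop2 : IsOpen {z : Dev D G X m | z.1.2 ∩ gorb G.R T w = ∅} := by
    intro z hz
    refine ⟨univ, isOpen_univ, mem_univ _, fun z' _ h => ?_⟩
    exact subset_empty_iff.1 ((inter_subset_inter_left _ h).trans_eq hz)
  have hcl : ∀ z : Dev D G X m, z.1.1 ∈ E → (z.1.2 ⊆ gorb G.R T w ↔
      ¬ z.1.2 ∩ gorb G.R T w = ∅) := by
    intro z hz
    obtain ⟨u, hu1, hu2⟩ := z.2.2
    constructor
    · intro h1 h2
      have : u ∈ z.1.2 ∩ gorb G.R T w := by
        have h3 : u ∈ z.1.2 := by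
          rw [hu2]
          exact gorb_refl _ _ _
        exact ⟨h3, h1 h3⟩
      rw [h2] at this
      exact this
    · intro h1 v hv
      obtain ⟨a, ha1, ha2⟩ := nonempty_iff_ne_empty.2 h1
      rw [hu2] at ha1 hv
      have h3 : v ∈ gorb G.R (stp D m z.1.1) a := by
        rw [gorb_eq G.R_R ha1]
        exact hv
      exact gorb_trans ha2 (gorb_mono (hstp z hz) h3)
  refine ⟨{z | z.1.1.2 ⊆ gorb G.R T w}, ?_, ⟨?_, ?_⟩, ?_⟩
  · show y.1.2 ⊆ gorb G.R T w
    rw [hw2]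
    exact gorb_mono (hstp y hy)
  · rw [← isOpen_compl_iff]
    have : ({z | z.1.1.2 ⊆ gorb G.R T w} : Set ({y | ((y.p : X) : V) ∈ E} :
        Set (Dev D G X m)))ᶜ = Subtype.val ⁻¹' {z : Dev D G X m | z.1.2 ∩ gorb G.R T w = ∅} := by
      ext z
      have := hcl z.1 z.2
      simp only [mem_compl_iff, mem_preimage]
      constructor
      · intro h1
        by_contra h2
        exact h1 (this.2 h2)
      · intro h1 h2
        exact this.1 h2 h1
    rw [this]
    exact hop2.preimage continuous_subtype_val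
  · exact hop.preimage continuous_subtype_val
  · have hA := h w
    refine hA.of_retract ⟨fun z => ⟨z.1.1, z.1.2, z.2⟩, ?_⟩ ⟨fun z => ⟨⟨z.1, z.2.1⟩, z.2.2⟩, ?_⟩ ?_
    · exact (continuous_subtype_val.comp continuous_subtype_val).subtype_mk _
    · exact (continuous_subtype_val.subtype_mk _).subtype_mk _
    · intro z
      rfl

theorem stmt_D (h1 : Stmt_D_GAL) (h2 : Stmt_D_COV) (h3 : Stmt_D_UN) : Stmt_D := by
  intro V ι S _ _ _ D ty cm X m hM hA κ E T hE hT hS
  obtain ⟨G⟩ := h1 S ι ty cm hM.symm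
  obtain ⟨hc, hs⟩ := h2 V ι S D ty cm X m G hM
  refine ⟨Dev D G X m, Dev.top, Dev.p, hc, hs, ?_, fun k => ?_⟩
  · have h4 := h3 V ι S D ty cm X m G hM univ (fun _ _ _ => mem_univ _) univ
      (fun s hs => absurd (mem_univ s) hs)
      (fun A hA1 _ => by rw [univ_inter]; exact hA A hA1) G.one
    have h5 : ({y | y.1.1 ∈ univ ∧ y.1.2 ⊆ gorb G.R univ G.one} : Set (Dev D G X m)) = univ := by
      refine eq_univ_of_forall fun y => ⟨mem_univ _, fun w _ => ?_⟩
      exact G.gen w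
    rw [h5] at h4
    exact ae_univ_iff.1 h4
  · exact D_FIN_lae (E k) (hE k) (T k) (hT k)
      (h3 V ι S D ty cm X m G hM (E k) (hE k) (T k) (hT k) (hS k))

end Pool.KT
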