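import Mathlib

/-!
# Definitions for the project MP_70ab54_gt (torus in the 4-sphere with aspherical complement)

`NC Y` : every map of the boundary of a cube of dimension at least 2 into `Y` extends to the cube.
`WC Y` : weakly contractible.
-/

set_option autoImplicit false

namespace Pool.KT

/-- the boundary of the unit cube -/
def bdry (n : ℕ) : Set (Fin n → unitInterval) := {x | ∃ i, x i = 0 ∨ x i = 1}

/-- every map of the boundary of a cube of dimension at least two extends -/
def NC (Y : Type*) [TopologicalSpace Y] : Prop :=
  ∀ n, 2 ≤ n → ∀ f : C(bdry n, Y), ∃ g : C(Fin n → unitInterval, Y), ∀ x : bdry n, g x = f x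

/-- weakly contractible -/
def WC (Y : Type*) [TopologicalSpace Y] : Prop := NC Y ∧ PathConnectedSpace Y

end Pool.KT
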