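import Pool.Agent.Work.MP_70ab54_kt.Cover

/-!
# MP_70ab54: the two-piece theorem G (helper52), interface

`Stmt_G`: a covering of `A ∪ B` with absolute extensor total space is built from such coverings of
`A` and of `B` when all pieces of both preimages of `A ∩ B` are absolute extensors.

Blocks: BRG, PCG, UNG, EXG, DEG (decomposition of the preimage of `A ∩ B`), GLG (pushout of two
open embeddings), TRG (the tree), AMG (the amalgam), CVG, LAG (the ends), EXH (exhaustion of the
tree), GG (assembly: `Stmt_G`).
-/

set_option autoImplicit false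

namespace Pool.KT

open Set Topology

/-- `q : R → V` is a surjective covering of the subspace `X` of `V` (for `X` open in `V`) -/
def CovOf {V R : Type} [TopologicalSpace V] [TopologicalSpace R] (X : Set V) (q : R → V) : Prop :=
  IsCoveringMapOn q X ∧ range q = X

/-- **G** -/
def Stmt_G : Prop :=
  ∀ (V : Type) [TopologicalSpace V] [LocallyPathConnectedSpace V] (A B : Set V) (ι : Type)
    (E : ι → Set V), IsOpen A → IsOpen B → IsPathConnected (A ∩ B) → (∀ i, E i ⊆ A) →
    GoodCover A (fun o : Option ι => o.elim (A ∩ B) E) →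
    GoodCover B (fun _ : Unit => A ∩ B) → GoodCover (A ∪ B) E

/-- BRG: `GoodCover` in terms of maps into `V`.
Hint: `q = Subtype.val ∘ q'`; `IsCoveringMapOn.of_isCoveringMap_subtype` and
`IsCoveringMapOn.isCoveringMap_restrictPreimage` (with `q ⁻¹' X = univ`, `comp_homeomorph`). -/
def Stmt_BRG : Prop :=
  ∀ (V : Type) [TopologicalSpace V] (X : Set V) (ι : Type) (E : ι → Set V), IsOpen X →
    (GoodCover X E ↔ ∃ (R : Type) (_ : TopologicalSpace R) (q : R → V), CovOf X q ∧
      AE (univ : Set R) ∧ ∀ i, LAE (q ⁻¹' E i))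

/-- PCG: a nonempty relatively clopen subset of the preimage of a path connected open set is a
covering of it.
Hint: over a path connected open `N ∋ x` inside an evenly covered set and inside `C`, every sheet
is connected, hence inside `s` or disjoint from `s`; so `s ∩ p⁻¹ N ≃ N × {sheets in s}`.
Surjectivity: the image of `s` is open, and its complement in `C` is open; `C` is connected. -/
def Stmt_PCG : Prop :=
  ∀ (V P : Type) [TopologicalSpace V] [LocallyPathConnectedSpace V] [TopologicalSpace P]
    (A C : Set V) (p : P → V), IsOpen A → IsOpen C → C ⊆ A → IsPathConnected C →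
    IsCoveringMapOn p A → ∀ s : Set P, s.Nonempty → (∃ O, IsOpen O ∧ s = p ⁻¹' C ∩ O) →
    (∃ F, IsClosed F ∧ s = p ⁻¹' C ∩ F) → CovOf C (fun x : s => p x)

/-- UNG: uniqueness of coverings with absolute extensor total space (helper64's T7).
Hint: `AE univ` gives `SimplyConnectedSpace` (`AE.cae`, `CAE.simplyConnectedSpace`); total spaces
are locally path connected; `IsCoveringMap.existsUnique_continuousMap_lifts` in both directions. -/
def Stmt_UNG : Prop :=
  ∀ (V Z Z' : Type) [TopologicalSpace V] [LocallyPathConnectedSpace V] [TopologicalSpace Z]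
    [TopologicalSpace Z'] (C : Set V) (c : Z → V) (c' : Z' → V), IsOpen C → CovOf C c →
    CovOf C c' → AE (univ : Set Z) → AE (univ : Set Z') → ∃ h : Z ≃ₜ Z', ∀ z, c' (h z) = c z

/-- EXG: existence of the universal covering of `C` (from one piece of the preimage; use
`Stmt_PCG`). -/
def Stmt_EXG : Prop :=
  ∀ (V P : Type) [TopologicalSpace V] [LocallyPathConnectedSpace V] [TopologicalSpace P]
    (A C : Set V) (p : P → V), IsOpen A → IsOpen C → C ⊆ A → IsPathConnected C → CovOf A p →
    LAE (p ⁻¹' C) → ∃ (Z : Type) (_ : TopologicalSpace Z) (c : Z → V), CovOf C c ∧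
      AE (univ : Set Z)

/-- The family `lam i : Z → P`, `i : I`, of open embeddings with disjoint images, with union of the
images the preimage of `C` under `p : P → V`, and `p ∘ lam i = c` -/
structure Sheets {V P Z I : Type} [TopologicalSpace V] [TopologicalSpace P] [TopologicalSpace Z]
    (C : Set V) (p : P → V) (c : Z → V) (lam : I → Z → P) : Prop where
  emb : ∀ i, IsOpenEmbedding (lam i)
  inj : ∀ i i' z z', lam i z = lam i' z' → i = i'
  proj : ∀ i z, p (lam i z) = c z
  cover : ∀ x, p x ∈ C → ∃ i z, x = lam i z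

/-- DEG: decomposition of the preimage of `C` into copies of the universal covering.
Hint: the index set is the set of all `s ⊆ p⁻¹ C` which are relatively clopen in `p⁻¹ C`, nonempty,
and `AE`; two of them which meet are equal (they are connected); `Stmt_PCG` and `Stmt_UNG` for
each of them.  Choose one of them as `none` (`Equiv.optionSubtypeNe`). -/
def Stmt_DEG : Prop :=
  ∀ (V P Z : Type) [TopologicalSpace V] [LocallyPathConnectedSpace V] [TopologicalSpace P]
    [TopologicalSpace Z] (A C : Set V) (p : P → V) (c : Z → V), IsOpen A → IsOpen C → C ⊆ A →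
    IsPathConnected C → CovOf A p → LAE (p ⁻¹' C) → CovOf C c → AE (univ : Set Z) →
    ∃ (I : Type) (lam : Option I → Z → P), Sheets C p c lam

/-- GLG: pushout of two open embeddings.
Hint: quotient of `X ⊕ Y` by the relation `x ~ x'` iff equal, `y ~ y'` iff equal,
`x ~ y` iff `∃ d, x = f d ∧ y = g d`. -/
def Stmt_GLG : Prop :=
  ∀ (D X Y : Type) [TopologicalSpace D] [TopologicalSpace X] [TopologicalSpace Y] (f : D → X)
    (g : D → Y), IsOpenEmbedding f → IsOpenEmbedding g →
    ∃ (W : Type) (_ : TopologicalSpace W) (a : X → W) (b : Y → W), IsOpenEmbedding a ∧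
      IsOpenEmbedding b ∧ (∀ d, a (f d) = b (g d)) ∧ (∀ w, (∃ x, w = a x) ∨ ∃ y, w = b y) ∧
      ∀ x y, a x = b y → ∃ d, x = f d ∧ y = g d

/-- The tree: `NP`, `NR` are the two kinds of vertices, the edges are `NP × Option I`, equivalently
`NR × Option J`; `dP`, `dR` are the distances from `root : NP` -/
structure Tree (I J : Type) where
  NP : Type
  NR : Type
  th : NP × Option I ≃ NR × Option J
  dP : NP → ℕ
  dR : NR → ℕ
  root : NP
  /-- the edges `(v, some i)` lead to children -/
  up : ∀ v i, (th (v, some i)).2 = none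
  lt_up : ∀ v i, dP v < dR (th (v, some i)).1
  /-- the edge `(v, none)` leads to the parent, except for the root -/
  down : ∀ v, v ≠ root → (th (v, none)).2 ≠ none
  lt_down : ∀ v, v ≠ root → dR (th (v, none)).1 < dP v
  root_none : (th (root, none)).2 = none
  lt_root : dP root < dR (th (root, none)).1

/-- TRG: existence of the tree.
Hint: `inductive Nd (I J : Type) : Bool → Type | root (b) : Nd b | toR (v : Nd true) (i : I) :
Nd false | toP (u : Nd false) (j : J) : Nd true`, `NP = Nd I J true`, `NR = Nd I J false`;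
`th (v, some i) = (toR v i, none)`, `th (root, none) = (root, none)`,
`th (toP u j, none) = (u, some j)`; depth of `root true` is 0, of `root false` is 1, and each
`toR`, `toP` adds 1. -/
def Stmt_TRG : Prop := ∀ I J : Type, Nonempty (Tree I J)

/-- the amalgam of copies `a v` of `P` and copies `b u` of `R` along copies of `Z` -/
structure Amal {V P R Z I J NP NR W : Type} [TopologicalSpace V] [TopologicalSpace P]
    [TopologicalSpace R] [TopologicalSpace Z] [TopologicalSpace W] (p : P → V) (r : R → V)
    (lam : I → Z → P) (mu : J → Z → R) (th : NP × I ≃ NR × J) (a : NP → P → W) (b : NR → R → W)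
    (q : W → V) : Prop where
  ea : ∀ v, IsOpenEmbedding (a v)
  eb : ∀ u, IsOpenEmbedding (b u)
  ia : ∀ v v' x x', a v x = a v' x' → v = v'
  ib : ∀ u u' y y', b u y = b u' y' → u = u'
  glue : ∀ v i z, a v (lam i z) = b (th (v, i)).1 (mu (th (v, i)).2 z)
  only : ∀ v x u y, a v x = b u y → ∃ i z, x = lam i z ∧ (th (v, i)).1 = u ∧
    y = mu (th (v, i)).2 z
  cover : ∀ w, (∃ v x, w = a v x) ∨ ∃ u y, w = b u y
  cont : Continuous q
  qa : ∀ v x, q (a v x) = p x
  qb : ∀ u y, q (b u y) = r y

/-- AMG: existence of the amalgam.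
Hint: `Stmt_GLG` for `D = Σ _ : NP × I, Z`, `X = Σ _ : NP, P`, `Y = Σ _ : NR, R` (disjoint unions),
`f ⟨(v,i), z⟩ = ⟨v, lam i z⟩`, `g ⟨(v,i), z⟩ = ⟨(th (v,i)).1, mu (th (v,i)).2 z⟩`. -/
def Stmt_AMG : Prop :=
  ∀ (V P R Z I J NP NR : Type) [TopologicalSpace V] [TopologicalSpace P] [TopologicalSpace R]
    [TopologicalSpace Z] (C : Set V) (p : P → V) (r : R → V) (c : Z → V) (lam : I → Z → P)
    (mu : J → Z → R) (th : NP × I ≃ NR × J), Continuous p → Continuous r →
    Sheets C p c lam → Sheets C r c mu →
    ∃ (W : Type) (_ : TopologicalSpace W) (a : NP → P → W) (b : NR → R → W) (q : W → V),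
      Amal p r lam mu th a b q

/-- CVG: the amalgam covers `A ∪ B`.
Hint: `q⁻¹ A` is the disjoint union of the open copies `a v '' P`, so over an evenly covered set
`U ⊆ A` of `p`, `q⁻¹ U ≃ NP × p⁻¹ U ≃ U × (NP × fibre)`. Same for `B`. (`NP` nonempty, `NR`
nonempty for the range.) -/
def Stmt_CVG : Prop :=
  ∀ (V P R Z I J NP NR W : Type) [TopologicalSpace V] [TopologicalSpace P] [TopologicalSpace R]
    [TopologicalSpace Z] [TopologicalSpace W] (A B : Set V) (p : P → V) (r : R → V) (c : Z → V)
    (lam : I → Z → P) (mu : J → Z → R) (th : NP × I ≃ NR × J) (a : NP → P → W)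
    (b : NR → R → W) (q : W → V), Nonempty NP → Nonempty NR → IsOpen A → IsOpen B → CovOf A p →
    CovOf B r → Sheets (A ∩ B) p c lam → Sheets (A ∩ B) r c mu → Amal p r lam mu th a b q →
    CovOf (A ∪ B) q

/-- LAG: the ends in the amalgam. -/
def Stmt_LAG : Prop :=
  ∀ (V P R Z I J NP NR W : Type) [TopologicalSpace V] [TopologicalSpace P] [TopologicalSpace R]
    [TopologicalSpace Z] [TopologicalSpace W] (A B E : Set V) (p : P → V) (r : R → V) (c : Z → V)
    (lam : I → Z → P) (mu : J → Z → R) (th : NP × I ≃ NR × J) (a : NP → P → W)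
    (b : NR → R → W) (q : W → V), IsOpen A → range p = A → range r = B → E ⊆ A →
    Sheets (A ∩ B) p c lam → Sheets (A ∩ B) r c mu → Amal p r lam mu th a b q →
    LAE (p ⁻¹' E) → LAE (q ⁻¹' E)

/-- EXH: a space which is a tree of open absolute extensors.
Hint: for a finite set `F` of nodes containing `root` and closed under `par`, the union of the
`S n`, `n ∈ F`, is `AE` by induction on the cardinality (remove a node of maximal `d`,
`AE.union_open`). These unions are directed; a compact set lies in one of them; and every map of a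
compact set into `W` has compact image. -/
def Stmt_EXH : Prop :=
  ∀ (W N : Type) [TopologicalSpace W] (S : N → Set W) (d : N → ℕ) (par : N → N) (root : N),
    (∀ n, IsOpen (S n)) → (∀ n, AE (S n)) → (⋃ n, S n) = univ →
    (∀ n, n ≠ root → d (par n) < d n) →
    (∀ n m, m ≠ n → d m ≤ d n → (S n ∩ S m).Nonempty → n ≠ root ∧ m = par n) →
    (∀ n, n ≠ root → AE ↥(S n ∩ S (par n))) → AE (univ : Set W)

/-- AEG: the amalgam over a tree is an absolute extensor.
Hint: `Stmt_EXH` with `N = T.NP ⊕ T.NR`, `S` the ranges of the `a v`, `b u`,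
`par (inl v) = inr (th (v,none)).1`, `par (inr u) = inl (th.symm (u,none)).1`. -/
def Stmt_AEG : Prop :=
  ∀ (V P R Z I J W : Type) [TopologicalSpace V] [TopologicalSpace P] [TopologicalSpace R]
    [TopologicalSpace Z] [TopologicalSpace W] (C : Set V) (p : P → V) (r : R → V) (c : Z → V)
    (T : Tree I J) (lam : Option I → Z → P) (mu : Option J → Z → R) (a : T.NP → P → W)
    (b : T.NR → R → W) (q : W → V), AE (univ : Set P) → AE (univ : Set R) → AE (univ : Set Z) →
    Sheets C p c lam → Sheets C r c mu → Amal p r lam mu T.th a b q → AE (univ : Set W)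

end Pool.KT
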