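import Pool.Agent.Work.MP_70ab54_kt.KDefs

/-!
# MP_70ab54: knot part, interface (helper44)

Output: `Stmt_K`.  Block `K_X` is a file `Pool/Agent/Work/MP_70ab54_kt/K_X.lean` with
`theorem stmt_K_X (h1 : Stmt_K_Y) ... : Stmt_K_X`.
-/

set_option autoImplicit false

namespace Pool.KT

open Set Complex Topology Filter
open scoped ContDiff

/-! ### 1. Stereographic projection -/

/-- algebra and continuity of `st`, `ist`, `inv3` -/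
def Stmt_K_ST : Prop :=
  (∀ x : R3, ist x ∈ S3 ∧ ist x ≠ pole ∧ st (ist x) = x) ∧
  (∀ p ∈ S3, p ≠ pole → ist (st p) = p) ∧
  (∀ (p : ℂ × ℂ) (t : ℝ), 0 < t → st (t • p) = st p) ∧
  (∀ x : R3, x ≠ 0 → ist (inv3 x) = cj (ist x) ∧ inv3 (inv3 x) = x ∧ inv3 x ≠ 0) ∧
  cj (ist 0) = pole ∧
  Continuous ist ∧ ContinuousOn st {p | 0 < rho p - p.2.im} ∧
  (∀ p : ℂ × ℂ, p ∈ S3 → p ≠ pole → 0 < rho p - p.2.im) ∧
  Tendsto ist (cocompact R3) (𝓝 pole)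

/-- the tubes `nu ε` in spherical coordinates; they shrink to the circle -/
def Stmt_K_NU : Prop :=
  (∀ ε : ℝ, IsOpen (nu ε)) ∧
  (∀ (ε : ℝ) (x : R3), 0 < ε → (x ∈ nu ε ↔ ‖(ist x).2‖ < ε)) ∧
  (∀ x : R3, x ∈ Ucirc ↔ (ist x).2 = 0) ∧
  IsClosed Ucirc ∧
  (∀ W : Set R3, IsOpen W → Ucirc ⊆ W → ∃ ε₀ : ℝ, 0 < ε₀ ∧ ε₀ < 1 ∧
    ∀ ε : ℝ, 0 < ε → ε ≤ ε₀ → nu ε ⊆ W)

/-- the punctured tube is path connected -/
def Stmt_K_NUC : Prop := ∀ ε : ℝ, 0 < ε → ε < 1 → IsPathConnected (nu ε \ Ucirc)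

/-- `p ↦ (rho p, st p)` is a local diffeomorphism; `inv3` and `ist` are smooth -/
def Stmt_K_STD : Prop :=
  LocDiffOn (fun p : ℂ × ℂ => ((rho p, st p) : ℝ × R3)) {p | 0 < rho p - p.2.im} ∧
  LocDiffOn inv3 ({0}ᶜ : Set R3) ∧ ContDiff ℝ ∞ ist ∧ ContDiffOn ℝ ∞ rho {p | p ≠ 0}

/-! ### 2. The tube -/

/-- injectivity of the tube -/
def Stmt_K_TUBI : Prop :=
  ∀ l l' η η' : ℂ, l ≠ 0 → l' ≠ 0 → ‖η‖ < 1 → ‖η'‖ < 1 → tub l η = tub l' η' → l = l' ∧ η = η'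

/-- `tub` and `Th` are local diffeomorphisms -/
def Stmt_K_TUBD : Prop :=
  LocDiffOn (fun q : ℂ × ℂ => tub q.1 q.2) {q | q.1 ≠ 0 ∧ ‖q.2‖ < 1} ∧
  LocDiffOn Th {p | p.1 ≠ 0}

/-- polar coordinates of the complement of the circle are a local diffeomorphism -/
def Stmt_K_POL : Prop :=
  ∀ φ : R3 → ℂ × ℂ, (φ = ist ∨ φ = fun x => cj (ist x)) →
    LocDiffOn (fun q : ℝ × R3 => (((q.1 : ℂ) * (polar (φ q.2)).1, (polar (φ q.2)).2) : ℂ × ℂ))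
      {q | 0 < q.1 ∧ q.2 ∉ Ucirc}

/-- the tube maps are local diffeomorphisms -/
def Stmt_K_FM : Prop := LocDiffOn fm Ucircᶜ ∧ LocDiffOn fh Ucircᶜ

/-- the tube in the sphere -/
def Stmt_K_KAP : Prop :=
  (∀ l η : ℂ, ‖l‖ = 1 → ‖η‖ < 1 → kap l η ∈ S3 ∧ (kap l η).1 ≠ 0) ∧
  (∀ l l' η η' : ℂ, ‖l‖ = 1 → ‖l'‖ = 1 → ‖η‖ < 1 → ‖η'‖ < 1 → kap l η = kap l' η' →
    l = l' ∧ η = η') ∧
  ContinuousOn (fun q : ℂ × ℂ => kap q.1 q.2) {q | ‖q.1‖ = 1 ∧ ‖q.2‖ < 1} ∧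
  (∀ W : Set (ℂ × ℂ), IsOpen W → ∃ W' : Set (ℂ × ℂ), IsOpen W' ∧
    (fun q : ℂ × ℂ => kap q.1 q.2) '' (W ∩ {q | ‖q.1‖ = 1 ∧ ‖q.2‖ < 1}) = W' ∩ S3) ∧
  (∀ p ∈ S3, p.2 ≠ 0 → ist (Fm p) = kap (p.2 / ((‖p.2‖ : ℝ) : ℂ)) p.1) ∧
  (∀ l η : ℂ, ‖l‖ = 1 → ‖η‖ < 1 → ∃ p ∈ S3, p.2 ≠ 0 ∧ p.2 / ((‖p.2‖ : ℝ) : ℂ) = l ∧ p.1 = η ∧
    ‖p.2‖ = Real.sqrt (1 - ‖η‖ ^ 2))

/-! ### 3. Straightening a germ -/

/-- small perturbations of the identity are diffeomorphisms -/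
def Stmt_K_G1 : Prop :=
  ∀ p : R3 → R3, ContDiff ℝ ∞ p → LipschitzWith (1 / 2) p → (∃ C : ℝ, ∀ x, ‖p x‖ ≤ C) →
    ∃ H : R3 ≃ₜ R3, IsDiffeo3 H ∧ ∀ x, H x = x + p x

/-- cutting off a germ which is tangent to the identity -/
def Stmt_K_G2 : Prop :=
  ∀ (g : R3 → R3) (W : Set R3), IsOpen W → (0 : R3) ∈ W → ContDiffOn ℝ ∞ g W → g 0 = 0 →
    fderiv ℝ g 0 = ContinuousLinearMap.id ℝ R3 →
    ∃ p : R3 → R3, ContDiff ℝ ∞ p ∧ LipschitzWith (1 / 2) p ∧ (∃ C : ℝ, ∀ x, ‖p x‖ ≤ C) ∧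
      ∀ᶠ y in 𝓝 (0 : R3), y + p y = g y

/-- straightening a germ by a global diffeomorphism -/
def Stmt_K_G : Prop :=
  ∀ (f : R3 → R3) (W : Set R3), (0 : R3) ∈ W → LocDiffOn f W →
    ∃ G : R3 ≃ₜ R3, IsDiffeo3 G ∧ ∀ᶠ y in 𝓝 (0 : R3), G (f y) = y

/-! ### 4. The re-embedding -/

/-- first version of `j`: identity off a large ball -/
def Stmt_K_J1 : Prop :=
  ∀ G : R3 ≃ₜ R3, IsDiffeo3 G → (∀ᶠ y in 𝓝 (0 : R3), G (fh y) = y) →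
    LocDiffOn (fun x => inv3 (G (fm x))) Ucircᶜ ∧
    InjOn (fun x => inv3 (G (fm x))) Ucircᶜ ∧
    (∀ x ∉ Ucirc, G (fm x) ≠ 0) ∧
    ∃ R : ℝ, 1 < R ∧ ∀ x : R3, R < ‖x‖ → inv3 (G (fm x)) = x

/-- one dimensional squeezing -/
def Stmt_K_H1 : Prop :=
  ∀ a b R : ℝ, 0 < a → a < b → b < R → ∃ γ : ℝ ≃ₜ ℝ, ContDiff ℝ ∞ (fun t => γ t) ∧
    ContDiff ℝ ∞ (fun t => γ.symm t) ∧ StrictMono (fun t => γ t) ∧ (∀ t, γ (-t) = -γ t) ∧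
    (∀ t, |t| ≤ a → γ t = t) ∧ (∀ t, |t| ≤ R → |γ t| < b)

/-- squeezing a large ball into a thin box, identity near the circle -/
def Stmt_K_H : Prop :=
  ∀ δ R : ℝ, 0 < δ → ∃ h : R3 ≃ₜ R3, IsDiffeo3 h ∧
    (∃ W : Set R3, IsOpen W ∧ Ucirc ⊆ W ∧ (∀ x ∈ W, h x = x)) ∧
    ∀ x : R3, ‖x‖ ≤ R → h x ∈ Bd δ

/-! ### 5. Topology of the complement -/

/-- the complement of the image is the complement of a closed tube in the sphere -/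
def Stmt_K_TOP : Prop :=
  ∀ G : R3 ≃ₜ R3, IsDiffeo3 G → (∀ᶠ y in 𝓝 (0 : R3), G (fh y) = y) →
    ∀ ε : ℝ, 0 < ε → ε < 1 →
    ∃ Φ : ↥(Oset (fun x => inv3 (G (fm x))) ε) ≃ₜ ↥(S3 \ ctube (Real.sqrt (1 - ε ^ 2))),
      ∀ x : ↥(Oset (fun x => inv3 (G (fm x))) ε),
        ((x : R3) ∈ (fun x => inv3 (G (fm x))) '' Ucircᶜ ↔
          ((Φ x : ℂ × ℂ) ∈ ptube (Real.sqrt (1 - ε ^ 2))))

/-- radial stretching of the tube -/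
def Stmt_K_EXP : Prop :=
  ∀ r : ℝ, 0 ≤ r → r < 1 → ∃ h : ↥(S3 \ ctube r) ≃ₜ ↥(S3 \ ctube 0),
    ∀ x : ↥(S3 \ ctube r), ((x : ℂ × ℂ) ∈ ptube r ↔ (h x : ℂ × ℂ) ∈ ptube 0)

/-- transport of good covers by homeomorphisms -/
def Stmt_K_GCH : Prop :=
  ∀ (V V' : Type) [TopologicalSpace V] [TopologicalSpace V'] (X : Set V) (X' : Set V') (ι : Type)
    (E : ι → Set V) (E' : ι → Set V') (h : ↥X ≃ₜ ↥X'),
    (∀ (i : ι) (x : ↥X), ((x : V) ∈ E i ↔ (h x : V') ∈ E' i)) → GoodCover X E → GoodCover X' E'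

/-- a good cover of `X × ℝ` restricts to a good cover of `X` -/
def Stmt_K_SL : Prop :=
  ∀ (V : Type) [TopologicalSpace V] (X : Set V) (ι : Type) (E : ι → Set V),
    GoodCover (X ×ˢ univ : Set (V × ℝ)) (fun i => E i ×ˢ univ) → GoodCover X E

/-- the discriminant complement is the product of the trefoil complement with the line -/
def Stmt_K_SLH : Prop :=
  ∃ h : ↥Dset ≃ₜ ↥((S3 \ ctube 0) ×ˢ univ : Set ((ℂ × ℂ) × ℝ)),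
    ∀ p : ↥Dset, ((p : ℂ × ℂ) ∈ tcone ↔ (h p : (ℂ × ℂ) × ℝ) ∈ (ptube 0) ×ˢ (univ : Set ℝ))

/-! ### 6. The covering of the discriminant complement -/

/-- composition with a finite covering -/
def Stmt_K_COMP : Prop :=
  ∀ (E Y X : Type) [TopologicalSpace E] [TopologicalSpace Y] [TopologicalSpace X] (p : E → Y)
    (q : Y → X), IsCoveringMap p → IsCoveringMap q → (∀ x, (q ⁻¹' {x}).Finite) →
    IsCoveringMap (q ∘ p)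

/-- products of coverings -/
def Stmt_K_PROD : Prop :=
  ∀ (E Y E' Y' : Type) [TopologicalSpace E] [TopologicalSpace Y] [TopologicalSpace E']
    [TopologicalSpace Y'] (p : E → Y) (q : E' → Y'), IsCoveringMap p → IsCoveringMap q →
    IsCoveringMap (Prod.map p q)

/-- the map from roots to coefficients is a finite covering over the discriminant complement -/
def Stmt_K_SY : Prop :=
  IsCoveringMapOn sy Dset ∧ ∀ p ∈ Dset, (sy ⁻¹' {p}).Finite ∧ (sy ⁻¹' {p}).Nonempty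

/-- the six sheeted covering with total space `E6` -/
def Stmt_K_M6 : Prop :=
  ∃ m : ↥E6 → ↥Dset, (∀ q, (m q : ℂ × ℂ) = sy (e6 q)) ∧ IsCoveringMap m ∧
    Function.Surjective m ∧ ∀ y, (m ⁻¹' {y}).Finite

/-- preimage of the tube in the six sheeted covering -/
def Stmt_K_TA : Prop :=
  (∀ q ∈ E6, (sy (e6 q) ∈ tcone ↔ ∃ i, q.2 ∈ endA i)) ∧ (∀ i, IsOpen (endA i)) ∧
    (∀ i, endA i ⊆ C01) ∧ (∀ i j, i ≠ j → Disjoint (endA i) (endA j))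

/-- good cover of the doubly punctured plane (from Theorem D) -/
def Stmt_K_LAM : Prop := GoodCover C01 endA

/-- good cover of the discriminant complement -/
def Stmt_K_Q1 : Prop := GoodCover Dset (fun _ : Unit => tcone)

/-- good cover of the trefoil complement -/
def Stmt_K_COV : Prop := GoodCover (S3 \ ctube 0) (fun _ : Unit => ptube 0)

/-! ### 7. The output -/

/-- OUTPUT of the knot part -/
def Stmt_K : Prop :=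
  ∀ δ : ℝ, 0 < δ → ∃ (j : R3 → R3) (ε : ℝ), 0 < ε ∧ ε < 1 ∧ LocDiffOn j Ucircᶜ ∧
    InjOn j Ucircᶜ ∧ (∀ x ∉ Bd δ, j x = x) ∧ nu ε ⊆ Bd δ ∧ IsOpen (j '' Ucircᶜ) ∧
    (∀ ε' : ℝ, 0 < ε' → ε' ≤ ε → IsOpen (Oset j ε') ∧
      GoodCover (Oset j ε') (fun _ : Unit => j '' Ucircᶜ))

end Pool.KT
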