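import Pool.Agent.Work.MP_70ab54_kt.KLoc
import Pool.Agent.Work.MP_70ab54_kt.InterfaceK
import Pool.Agent.Work.MP_70ab54_kt.InterfaceG
import Pool.Agent.Work.MP_70ab54_kt.Geo

/-!
# MP_70ab54: the surgery step and the composition of the four surgeries (helper52), interface

A chart `Φ : ℂ × R3 → E5` is defined on `cyl (Bd d) = {(w, x) | w ≠ 0, x ∈ Bd d}` and homogeneous of
degree one in `w`.  `reg Φ S = Φ '' cyl S`.  The surgery map `surg Φ d j` is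
`Φ (w, x) ↦ Φ (w, j x)` on `reg Φ (Bd d)` and the identity elsewhere.

Blocks: S_INV, S_CLO, S_SP (properties of `surg`), S_CON (new charts), S_CYL, S_STEP (one surgery),
S_COMP (all four).
-/

set_option autoImplicit false

namespace Pool.KT

open Set Topology
open scoped ContDiff

/-- `{(w, x) | w ≠ 0, x ∈ S}` -/
def cyl (S : Set R3) : Set (ℂ × R3) := {q | q.1 ≠ 0 ∧ q.2 ∈ S}

/-- the region of a chart -/
def reg (Φ : ℂ × R3 → E5) (S : Set R3) : Set E5 := Φ '' cyl S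

/-- charts -/
structure Chart (d : ℝ) (Φ : ℂ × R3 → E5) : Prop where
  pos : 0 < d
  loc : LocDiffOn Φ (cyl (Bd d))
  inj : InjOn Φ (cyl (Bd d))
  hom : ∀ t : ℝ, 0 < t → ∀ q ∈ cyl (Bd d), Φ (t • q.1, q.2) = t • Φ q
  ne : ∀ q ∈ cyl (Bd d), Φ q ≠ 0

/-- the re-embedding of the complement of the circle; see `Stmt_K` -/
structure Knot (d e : ℝ) (j : R3 → R3) : Prop where
  e_pos : 0 < e
  e_lt : e < 1
  loc : LocDiffOn j Ucircᶜ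
  inj : InjOn j Ucircᶜ
  out : ∀ x ∉ Bd d, j x = x
  sub : nu e ⊆ Bd d
  open_im : IsOpen (j '' Ucircᶜ)
  open_O : IsOpen (Oset j e)
  good : GoodCover (Oset j e) (fun _ : Unit => j '' Ucircᶜ)

open Classical in
/-- the surgery map -/
noncomputable def surg (Φ : ℂ × R3 → E5) (d : ℝ) (j : R3 → R3) (y : E5) : E5 :=
  if h : ∃ q ∈ cyl (Bd d), Φ q = y then Φ ((Classical.choose h).1, j (Classical.choose h).2) else y

/-- S_KN: the knot part delivers `Knot`, for all small `e`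
(`nu e' ⊆ nu e` for `0 < e' ≤ e`). -/
def Stmt_S_KN : Prop :=
  Stmt_K → ∀ d : ℝ, 0 < d → ∃ (j : R3 → R3) (e₀ : ℝ), 0 < e₀ ∧ e₀ < 1 ∧
    ∀ e : ℝ, 0 < e → e ≤ e₀ → Knot d e j

/-- S_INV: the inverse of an injective local diffeomorphism.
Hint: `g = Function.invFunOn f W`; at `f x` it agrees locally with the local inverse of the inverse
function theorem (`ContDiffAt.toOpenPartialHomeomorph`, `ContDiffAt.to_localInverse`). -/
def Stmt_S_INV : Prop :=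
  ∀ (E F : Type) [NormedAddCommGroup E] [NormedSpace ℝ E] [CompleteSpace E]
    [NormedAddCommGroup F] [NormedSpace ℝ F] [CompleteSpace F] (f : E → F) (W : Set E),
    LocDiffOn f W → InjOn f W → ∃ g : F → E, (∀ x ∈ W, g (f x) = x) ∧ LocDiffOn g (f '' W)

/-- S_CLO: cones over compact sets are closed.
Hint: `L = {y/‖y‖ : y ∈ Φ '' ({‖w‖ = 1} ×ˢ K)}` is compact and `z ≠ 0` lies in `reg Φ K` iff
`z/‖z‖ ∈ L` (homogeneity). -/
def Stmt_S_CLO : Prop :=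
  ∀ (d : ℝ) (Φ : ℂ × R3 → E5) (K : Set R3), Chart d Φ → IsCompact K → K ⊆ Bd d →
    IsClosed ({0} ∪ reg Φ K)

/-- the properties of the surgery map which are used -/
structure SP (Φ : ℂ × R3 → E5) (d d' : ℝ) (j : R3 → R3) (J : E5 → E5) : Prop where
  on : ∀ q ∈ cyl (Bd d), J (Φ q) = Φ (q.1, j q.2)
  off : ∀ y ∉ reg Φ (Bd d'), J y = y
  loc : LocDiffOn J ({0} ∪ reg Φ Ucirc)ᶜ
  inj : InjOn J (reg Φ Ucirc)ᶜ
  hom : ∀ t : ℝ, 0 < t → ∀ y ∉ reg Φ Ucirc, J (t • y) = t • J y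
  ne : ∀ y ∉ reg Φ Ucirc, y ≠ 0 → J y ≠ 0
  im : J '' ({0} ∪ reg Φ Ucirc)ᶜ = ({0} ∪ reg Φ (j '' Ucircᶜ)ᶜ)ᶜ

/-- S_SP: the surgery map has these properties.
Hints: `j` maps `Bd d' \ Ucirc` into `Bd d'` and `Bd d \ Ucirc` into `Bd d` (injectivity and
`j = id` off `Bd d'`); `J = Φ ∘ (id × j) ∘ Φ⁻¹` on the open set `reg Φ (Bd d \ Ucirc)` and `J = id`
on the open set `({0} ∪ reg Φ (closure (Bd d')))ᶜ` (`Stmt_S_CLO`, `d' < d`), these two sets cover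
`({0} ∪ reg Φ Ucirc)ᶜ`. -/
def Stmt_S_SP : Prop :=
  ∀ (d d' e : ℝ) (Φ : ℂ × R3 → E5) (j : R3 → R3), 0 < d' → d' < d → Chart d Φ → Knot d' e j →
    SP Φ d d' j (surg Φ d j)

/-- S_CON: a chart whose region misses the torus is transported to a chart. -/
def Stmt_S_CON : Prop :=
  ∀ (d d' c : ℝ) (Φ Φ' : ℂ × R3 → E5) (j : R3 → R3) (J : E5 → E5), SP Φ d d' j J → Chart c Φ' →
    Disjoint (reg Φ' (Bd c)) (reg Φ Ucirc) → Chart c (J ∘ Φ')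

/-- S_CYL: good covers of cylinders.
Hint: `Complex.isCoveringMap_exp`, `Stmt_K_PROD`, `Stmt_K_GCH` (or `Stmt_BRG`); total space
`ℂ × R`, `AE.prod`. -/
def Stmt_S_CYL : Prop :=
  ∀ (O : Set R3) (E : Set R3), IsOpen O → GoodCover O (fun _ : Unit => E) →
    GoodCover (cyl O) (fun _ : Unit => cyl E)

/-- S_STEP: one surgery.  `T = reg Φ Ucirc` is the torus which disappears, `K` the rest; the end of
`T` is `reg Φ (nu e \ Ucirc)`.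
Hints: `M = ({0} ∪ T ∪ K)ᶜ`, `A = J '' M`, `B = reg Φ (Oset j e)`, `Oset j e ⊆ Bd d'`,
`A ∩ B = J '' reg Φ (nu e \ Ucirc) = reg Φ (j '' (nu e \ Ucirc))`, `A ∪ B = ({0} ∪ J '' K)ᶜ`;
`Stmt_G`; covers of `A` and `B` by `Stmt_K_GCH` from `M` (homeomorphism `J`) and `cyl (Oset j e)`
(homeomorphism `Φ`, `Stmt_S_CYL`); `A ∩ B` path connected by `Stmt_K_NUC`. -/
def Stmt_S_STEP : Prop :=
  ∀ (d d' e : ℝ) (Φ : ℂ × R3 → E5) (j : R3 → R3) (J : E5 → E5), d' < d → Chart d Φ →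
    Knot d' e j → SP Φ d d' j J → ∀ (K : Set E5) (ι : Type) (E : ι → Set E5),
    IsClosed ({0} ∪ reg Φ Ucirc ∪ K) → Disjoint K (reg Φ (nu e)) →
    (∀ i, E i ⊆ ({0} ∪ reg Φ Ucirc ∪ K)ᶜ) →
    GoodCover ({0} ∪ reg Φ Ucirc ∪ K)ᶜ
      (fun o : Option ι => o.elim (reg Φ (nu e \ Ucirc)) E) →
    IsClosed ({0} ∪ J '' K) ∧ GoodCover ({0} ∪ J '' K)ᶜ (fun i => J '' E i)

/-- the position of the four charts and of `T0`.  `N_m = reg (Φ m) (Bd d)`. -/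
structure Table (d e : ℝ) (Φ : Fin 5 → ℂ × R3 → E5) (T0 : Set E5) : Prop where
  ch : ∀ m, m ≠ 0 → Chart d (Φ m)
  n14 : Disjoint (reg (Φ 1) (Bd d)) (reg (Φ 4) (Bd d))
  n23 : Disjoint (reg (Φ 2) (Bd d)) (reg (Φ 3) (Bd d))
  n2t1 : Disjoint (reg (Φ 2) (Bd d)) (reg (Φ 1) (nu e))
  n3t4 : Disjoint (reg (Φ 3) (Bd d)) (reg (Φ 4) (nu e))
  n1t3 : Disjoint (reg (Φ 1) (Bd d)) (reg (Φ 3) (nu e))
  n4t2 : Disjoint (reg (Φ 4) (Bd d)) (reg (Φ 2) (nu e))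
  /-- separation of slices in the chart 1 -/
  sep1 : ∃ S : Set ℂ, (∀ q ∈ cyl (Bd d), Φ 1 q ∈ reg (Φ 3) (Bd d) → q.1 ∈ S) ∧
    ∀ q ∈ cyl (Bd d), Φ 1 q ∈ reg (Φ 2) (Bd d) → q.1 ∉ S
  /-- separation of slices in the chart 4 -/
  sep4 : ∃ S : Set ℂ, (∀ q ∈ cyl (Bd d), Φ 4 q ∈ reg (Φ 2) (Bd d) → q.1 ∈ S) ∧
    ∀ q ∈ cyl (Bd d), Φ 4 q ∈ reg (Φ 3) (Bd d) → q.1 ∉ S
  /-- `T0` is off the tubes -/
  t0 : ∀ m, m ≠ 0 → Disjoint T0 (reg (Φ m) (nu e))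
  t0_zero : (0 : E5) ∉ T0
  t0_closed : IsClosed ({0} ∪ T0)

/-- the composition of the four surgeries -/
noncomputable def Jtot (d : ℝ) (j : R3 → R3) (Φ : Fin 5 → ℂ × R3 → E5) : E5 → E5 :=
  surg (surg (Φ 4) d j ∘ Φ 3) d j ∘ surg (surg (Φ 1) d j ∘ Φ 2) d j ∘
    surg (Φ 4) d j ∘ surg (Φ 1) d j

/-- complement of the four tori -/
def Lset (Φ : Fin 5 → ℂ × R3 → E5) : Set E5 :=
  {x | x ≠ 0 ∧ ∀ m, m ≠ 0 → x ∉ reg (Φ m) Ucirc}

/-- output of the four surgeries -/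
structure JOut (L T0 : Set E5) (J : E5 → E5) : Prop where
  loc : LocDiffOn J L
  inj : InjOn J L
  hom : ∀ t : ℝ, 0 < t → ∀ y ∈ L, J (t • y) = t • J y
  ne : ∀ y ∈ L, J y ≠ 0
  closed : IsClosed ({0} ∪ J '' T0)
  good : GoodCover ({0} ∪ J '' T0)ᶜ (fun _ : Empty => (∅ : Set E5))

/-- S_COMP: the four surgeries (order: chart `Φ 1`, chart `Φ 4`, chart `J₁ ∘ Φ 2`,
chart `J₄ ∘ Φ 3`). -/
def Stmt_S_COMP : Prop :=
  ∀ (d d' e : ℝ) (Φ : Fin 5 → ℂ × R3 → E5) (T0 : Set E5) (j : R3 → R3), 0 < d' → d' < d →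
    Knot d' e j → Table d e Φ T0 →
    GoodCover (Lset Φ \ T0) (fun i : Fin 4 => reg (Φ i.succ) (nu e \ Ucirc)) →
    JOut (Lset Φ) T0 (Jtot d j Φ)

end Pool.KT
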