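import Pool.Agent.Work.MP_70ab54_kt.TableInst
import Pool.Agent.Work.MP_70ab54_kt.Final

/-!
# MP_70ab54: from the four surgeries to `Stmt_J` (helper91)
-/

set_option autoImplicit false

namespace Pool.KT

open Set Topology
open scoped ContDiff

theorem Bd_mono {d d' : ℝ} (h : d ≤ d') : Bd d ⊆ Bd d' := by
  rintro x ⟨h1, h2⟩
  exact ⟨h1.trans_le (by linarith), h2.trans_le h⟩

theorem stmt_J_of (c1 : Stmt_C1) (c2 : Stmt_C2) (c3 : Stmt_C3) (c4 : Stmt_C4) (c5 : Stmt_C5)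
    (c7 : Stmt_C7) (c8 : Stmt_C8) (c9 : Stmt_C9) (c11 : Stmt_C11) (c12 : Stmt_C12)
    (k : Stmt_K) (kn : Stmt_S_KN) (q7 : Stmt_Q7) (sc : Stmt_S_COMP) : Stmt_J := by
  have hd : 0 < dd / 2 := by have := dd_pos; positivity
  have hd' : dd / 2 < dd := by have := dd_pos; linarith
  obtain ⟨j, e, he, he1, hK⟩ := kn k (dd / 2) hd
  have hkn : Knot (dd / 2) e j := hK e he le_rfl
  have hsub : nu e ⊆ Bd dd := hkn.sub.trans (Bd_mono hd'.le)
  have hT : Table dd e PhiC (Tor 0) := table_inst c1 c2 c3 c4 c7 c8 c9 c11 c12 he he1 hsub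
  have hJ := sc dd (dd / 2) e PhiC (Tor 0) j hd hd' hkn hT
    (goodCover_fin4 c1 c2 c5 (q7 e he he1 hsub))
  refine ⟨Jtot dd j PhiC, Lset PhiC, hJ.loc.1, tor0_subset_lset c1 c2 c5 c11, hJ.loc.2.1, hJ.inj,
    fun x hx => ⟨hJ.ne x hx, (hJ.loc.2.2 x hx).injective⟩,
    fun x hx t ht => ⟨lset_smul c1 c2 c3 hx ht, hJ.hom t ht x hx⟩, ?_⟩
  have h : {x : E5 | x ≠ 0} \ Jtot dd j PhiC '' Tor 0 =
      ({0} ∪ Jtot dd j PhiC '' Tor 0)ᶜ := by
    ext x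
    simp [not_or]
  rw [h]
  exact hJ.good

end Pool.KT
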