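import Pool.Agent.Work.MP_70ab54_kt.Cover

/-!
# MP_70ab54: knot part, definitions (helper44)

`R3 = ℂ × ℝ`, points `x = (v, s)`.  The unit circle `Ucirc`, thin boxes `Bd δ`, round tubes `nu ε`.
Stereographic coordinates `st`, `ist` between the unit sphere `S3` of `ℂ × ℂ` (pole `(0, I)`)
and `R3`.  The tube `kap l η`, `‖l‖ = 1`, `‖η‖ < 1`, around the trefoil `kap l 0`.
-/

set_option autoImplicit false

namespace Pool.KT

open Set Complex
open scoped ContDiff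

abbrev R3 : Type := ℂ × ℝ

/-- squared euclidean norm -/
noncomputable def nsq (x : R3) : ℝ := ‖x.1‖ ^ 2 + x.2 ^ 2

/-- the unit circle in the plane `s = 0` -/
def Ucirc : Set R3 := {x | ‖x.1‖ = 1 ∧ x.2 = 0}

/-- thin box around the closed unit disc -/
def Bd (δ : ℝ) : Set R3 := {x | ‖x.1‖ < 1 + δ ∧ |x.2| < δ}

/-- round tube around the unit circle -/
def nu (ε : ℝ) : Set R3 :=
  {x | (2 * x.2) ^ 2 + (nsq x - 1) ^ 2 < ε ^ 2 * (nsq x + 1) ^ 2}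

/-- the complement of the re-embedded complement of the tube -/
def Oset (j : R3 → R3) (ε : ℝ) : Set R3 := (j '' (nu ε)ᶜ)ᶜ

/-- euclidean norm on `ℂ × ℂ` -/
noncomputable def rho (p : ℂ × ℂ) : ℝ := Real.sqrt (‖p.1‖ ^ 2 + ‖p.2‖ ^ 2)

/-- unit sphere of `ℂ × ℂ` -/
def S3 : Set (ℂ × ℂ) := {p | ‖p.1‖ ^ 2 + ‖p.2‖ ^ 2 = 1}

/-- the pole of the stereographic projection -/
noncomputable def pole : ℂ × ℂ := (0, I)

/-- inverse stereographic projection -/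
noncomputable def ist (x : R3) : ℂ × ℂ :=
  (2 * x.1 / ((nsq x + 1 : ℝ) : ℂ),
    (2 * (x.2 : ℂ) + I * ((nsq x - 1 : ℝ) : ℂ)) / ((nsq x + 1 : ℝ) : ℂ))

/-- stereographic projection from the pole `(0, I)`, homogeneous of degree 0 -/
noncomputable def st (p : ℂ × ℂ) : R3 :=
  (p.1 / ((rho p - p.2.im : ℝ) : ℂ), p.2.re / (rho p - p.2.im))

/-- inversion in the unit sphere of `R3` -/
noncomputable def inv3 (x : R3) : R3 := (x.1 / ((nsq x : ℝ) : ℂ), x.2 / nsq x)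

/-- conjugation in the second coordinate -/
noncomputable def cj (p : ℂ × ℂ) : ℂ × ℂ := (p.1, (starRingEnd ℂ) p.2)

/-- if `y ^ 2 = l ^ 2 η` and `(z, w) = tub l η` then `X ^ 3 - z X - w` has the roots
`-l + y, -l - y, 2 l` -/
noncomputable def tub (l η : ℂ) : ℂ × ℂ := (l ^ 2 * (3 + η), 2 * l ^ 3 * (1 - η))

/-- from weighted to homogeneous scaling -/
noncomputable def Th (p : ℂ × ℂ) : ℂ × ℂ := (p.1 * ((Real.sqrt ‖p.1‖ : ℝ) : ℂ), p.2)

/-- radial projection to the sphere -/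
noncomputable def nrm (p : ℂ × ℂ) : ℂ × ℂ := (p.1 / ((rho p : ℝ) : ℂ), p.2 / ((rho p : ℝ) : ℂ))

/-- the tube around the trefoil in the sphere: `‖l‖ = 1`, `‖η‖ < 1` -/
noncomputable def kap (l η : ℂ) : ℂ × ℂ := nrm (Th (tub l η))

/-- angular coordinate and disc coordinate of the complement of `b = 0` -/
noncomputable def polar (p : ℂ × ℂ) : ℂ × ℂ :=
  (p.2 / ((‖p.2‖ : ℝ) : ℂ), p.1 / ((rho p : ℝ) : ℂ))

/-- the tube map on the complement of `b = 0` in `ℂ × ℂ`, values in `R3` -/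
noncomputable def Fm (p : ℂ × ℂ) : R3 := st (Th (tub (polar p).1 (polar p).2))

/-- the tube map on `R3` minus the circle -/
noncomputable def fm (x : R3) : R3 := Fm (ist x)

/-- the tube map near infinity, in inverted coordinates -/
noncomputable def fh (y : R3) : R3 := Fm (cj (ist y))

/-- closed tube of radius `r` around the trefoil in the sphere (for `r = 0` the trefoil) -/
def ctube (r : ℝ) : Set (ℂ × ℂ) := {p | ∃ l η : ℂ, ‖l‖ = 1 ∧ ‖η‖ ≤ r ∧ p = kap l η}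

/-- open tube minus closed tube of radius `r` -/
def ptube (r : ℝ) : Set (ℂ × ℂ) := {p | ∃ l η : ℂ, ‖l‖ = 1 ∧ r < ‖η‖ ∧ ‖η‖ < 1 ∧ p = kap l η}

/-- the discriminant complement -/
def Dset : Set (ℂ × ℂ) := {p | 4 * p.1 ^ 3 ≠ 27 * p.2 ^ 2}

/-- the cone over the punctured tube -/
def tcone : Set (ℂ × ℂ) := {p | ∃ l η : ℂ, l ≠ 0 ∧ η ≠ 0 ∧ ‖η‖ < 1 ∧ p = tub l η}

/-- symmetric functions of the roots `x₁, x₂, -x₁-x₂` -/
noncomputable def sy (p : ℂ × ℂ) : ℂ × ℂ :=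
  (p.1 ^ 2 + p.1 * p.2 + p.2 ^ 2, -(p.1 * p.2 * (p.1 + p.2)))

/-- the roots with `x₂ - x₁ = d`, `x₃ - x₁ = d m`, sum zero -/
noncomputable def e6 (q : ℂ × ℂ) : ℂ × ℂ := (-(q.1 * (1 + q.2)) / 3, q.1 * (2 - q.2) / 3)

/-- `d ≠ 0`, `m ≠ 0, 1` -/
def E6 : Set (ℂ × ℂ) := {q | q.1 ≠ 0 ∧ q.2 ≠ 0 ∧ q.2 ≠ 1}

/-- the doubly punctured plane -/
def C01 : Set ℂ := {z | z ≠ 0 ∧ z ≠ 1}

/-- the three round ends of the doubly punctured plane -/
def endA (i : Fin 3) : Set ℂ :=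
  if i = 0 then {z | ‖z + 1 / 4‖ < 3 / 4} ∩ {z | z ≠ 0}
  else if i = 1 then {z | ‖z - 5 / 4‖ < 3 / 4} ∩ {z | z ≠ 1}
  else {z | 3 / 2 < ‖z - 1 / 2‖}

/-- `G` is a smooth diffeomorphism of `R3` -/
def IsDiffeo3 (G : R3 ≃ₜ R3) : Prop :=
  ContDiff ℝ ∞ (fun x => G x) ∧ ContDiff ℝ ∞ (fun x => G.symm x)

/-- `f` is a local diffeomorphism at the points of the open set `W` -/
def LocDiffOn {E F : Type} [NormedAddCommGroup E] [NormedSpace ℝ E] [NormedAddCommGroup F]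
    [NormedSpace ℝ F] (f : E → F) (W : Set E) : Prop :=
  IsOpen W ∧ ContDiffOn ℝ ∞ f W ∧ ∀ x ∈ W, Function.Bijective (fderiv ℝ f x)

end Pool.KT
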