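import Pool.Agent.Work.MP_70ab54_kt.InterfaceK

set_option autoImplicit false

namespace Pool.KT

open Set Complex Topology Filter

theorem stmt_K_COV (h1 : Stmt_K_SLH) (h2 : Stmt_K_GCH) (h3 : Stmt_K_SL) (h4 : Stmt_K_Q1) :
    Stmt_K_COV := by
  obtain ⟨h, hh⟩ := h1
  have h5 := h2 (ℂ × ℂ) ((ℂ × ℂ) × ℝ) Dset ((S3 \ ctube 0) ×ˢ univ) Unit (fun _ => tcone)
    (fun _ => (ptube 0) ×ˢ (univ : Set ℝ)) h (fun _ x => hh x) h4
  exact h3 (ℂ × ℂ) (S3 \ ctube 0) Unit (fun _ => ptube 0) h5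

end Pool.KT
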