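import Pool.Agent.Work.MP_70ab54_kt.InterfaceK

/-!
# MP_70ab54, block K_EXP: radial stretching of the tube (helper36)
-/

set_option autoImplicit false

namespace Pool.KT

open Set Topology Filter

/-- parameter domain of the tube -/
def K_EXP_D : Set (ℂ × ℂ) := {q | ‖q.1‖ = 1 ∧ ‖q.2‖ < 1}

/-- the tube map on pairs -/
noncomputable def K_EXP_k (q : ℂ × ℂ) : ℂ × ℂ := kap q.1 q.2

open Classical in
/-- apply `φ` to the disc coordinate in the tube, identity outside -/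
noncomputable def K_EXP_F (φ : ℂ → ℂ) (p : ℂ × ℂ) : ℂ × ℂ :=
  if p ∈ K_EXP_k '' K_EXP_D then
    K_EXP_k ((Function.invFunOn K_EXP_k K_EXP_D p).1, φ (Function.invFunOn K_EXP_k K_EXP_D p).2)
  else p

lemma K_EXP_injOn (h1 : Stmt_K_KAP) : InjOn K_EXP_k K_EXP_D := by
  intro q hq q' hq' h
  obtain ⟨a, b⟩ := h1.2.1 q.1 q'.1 q.2 q'.2 hq.1 hq'.1 hq.2 hq'.2 h
  exact Prod.ext a b

lemma K_EXP_inv (h1 : Stmt_K_KAP) {q : ℂ × ℂ} (hq : q ∈ K_EXP_D) :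
    Function.invFunOn K_EXP_k K_EXP_D (K_EXP_k q) = q :=
  (K_EXP_injOn h1).leftInvOn_invFunOn hq

lemma K_EXP_F_k (h1 : Stmt_K_KAP) (φ : ℂ → ℂ) {q : ℂ × ℂ} (hq : q ∈ K_EXP_D) :
    K_EXP_F φ (K_EXP_k q) = K_EXP_k (q.1, φ q.2) := by
  unfold K_EXP_F
  rw [if_pos (mem_image_of_mem _ hq), K_EXP_inv h1 hq]

lemma K_EXP_F_out (φ : ℂ → ℂ) {p : ℂ × ℂ} (hp : p ∉ K_EXP_k '' K_EXP_D) :
    K_EXP_F φ p = p := by
  unfold K_EXP_F
  rw [if_neg hp]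

lemma K_EXP_cont (h1 : Stmt_K_KAP) : ContinuousOn K_EXP_k K_EXP_D := h1.2.2.1

lemma K_EXP_open (h1 : Stmt_K_KAP) {W : Set (ℂ × ℂ)} (hW : IsOpen W) :
    ∃ W' : Set (ℂ × ℂ), IsOpen W' ∧ K_EXP_k '' (W ∩ K_EXP_D) = W' ∩ S3 := h1.2.2.2.1 W hW

lemma K_EXP_S3 (h1 : Stmt_K_KAP) {q : ℂ × ℂ} (hq : q ∈ K_EXP_D) : K_EXP_k q ∈ S3 :=
  (h1.1 q.1 q.2 hq.1 hq.2).1

lemma K_EXP_contInv (h1 : Stmt_K_KAP) :
    ContinuousOn (Function.invFunOn K_EXP_k K_EXP_D) (K_EXP_k '' K_EXP_D) := by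
  rw [continuousOn_iff']
  intro t ht
  obtain ⟨W', hW', h⟩ := K_EXP_open h1 ht
  refine ⟨W', hW', ?_⟩
  ext p
  constructor
  · rintro ⟨hp, q, hq, rfl⟩
    refine ⟨?_, mem_image_of_mem _ hq⟩
    rw [mem_preimage, K_EXP_inv h1 hq] at hp
    have : K_EXP_k q ∈ W' ∩ S3 := by
      rw [← h]
      exact ⟨q, ⟨hp, hq⟩, rfl⟩
    exact this.1
  · rintro ⟨hp, q, hq, rfl⟩
    refine ⟨?_, mem_image_of_mem _ hq⟩
    have : K_EXP_k q ∈ K_EXP_k '' (t ∩ K_EXP_D) := by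
      rw [h]
      exact ⟨hp, K_EXP_S3 h1 hq⟩
    obtain ⟨q', ⟨hq't, hq'⟩, he⟩ := this
    rw [mem_preimage, K_EXP_inv h1 hq, ← K_EXP_injOn h1 hq' hq he]
    exact hq't

lemma K_EXP_closed (h1 : Stmt_K_KAP) {c : ℝ} (hc : c < 1) : IsClosed (ctube c) := by
  have h : ctube c = K_EXP_k '' (Metric.sphere (0 : ℂ) 1 ×ˢ Metric.closedBall (0 : ℂ) c) := by
    ext p
    constructor
    · rintro ⟨l, η, hl, hη, rfl⟩
      exact ⟨(l, η), ⟨by simpa using hl, by simpa using hη⟩, rfl⟩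
    · rintro ⟨⟨l, η⟩, ⟨hl, hη⟩, rfl⟩
      exact ⟨l, η, by simpa using hl, by simpa using hη, rfl⟩
  rw [h]
  refine (IsCompact.image_of_continuousOn
    ((isCompact_sphere _ _).prod (isCompact_closedBall _ _)) ((K_EXP_cont h1).mono ?_)).isClosed
  rintro ⟨l, η⟩ ⟨hl, hη⟩
  exact ⟨by simpa using hl, lt_of_le_of_lt (by simpa using hη) hc⟩

lemma K_EXP_notin (h1 : Stmt_K_KAP) {a : ℝ} (ha : a < 1) {q : ℂ × ℂ} (hq : q ∈ K_EXP_D) :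
    K_EXP_k q ∉ ctube a ↔ a < ‖q.2‖ := by
  rw [← not_le]
  refine not_congr ⟨?_, fun h => ⟨q.1, q.2, hq.1, h, rfl⟩⟩
  rintro ⟨l, η, hl, hη, he⟩
  have : q = (l, η) := K_EXP_injOn h1 hq ⟨hl, lt_of_le_of_lt hη ha⟩ he
  rw [this]
  exact hη

lemma K_EXP_sub {a : ℝ} (ha : a < 1) {p : ℂ × ℂ} (hp : p ∉ K_EXP_k '' K_EXP_D) : p ∉ ctube a := by
  rintro ⟨l, η, hl, hη, rfl⟩
  exact hp ⟨(l, η), ⟨hl, lt_of_le_of_lt hη ha⟩, rfl⟩

lemma K_EXP_contF (h1 : Stmt_K_KAP) {a b c : ℝ} (hc : c < 1) {φ : ℂ → ℂ}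
    (hφ : ∀ η : ℂ, a < ‖η‖ → ‖η‖ < 1 → b < ‖φ η‖ ∧ ‖φ η‖ < 1)
    (hφc : ContinuousOn φ {η | a < ‖η‖}) (hφi : ∀ η : ℂ, c ≤ ‖η‖ → φ η = η) :
    ContinuousOn (K_EXP_F φ) (S3 \ ctube a) := by
  obtain ⟨W', hW', hWe⟩ := K_EXP_open h1 (W := {q : ℂ × ℂ | a < ‖q.2‖})
    (isOpen_lt continuous_const (by fun_prop))
  have hT : ContinuousOn (K_EXP_F φ) (K_EXP_k '' ({q : ℂ × ℂ | a < ‖q.2‖} ∩ K_EXP_D)) := by
    have hi : ContinuousOn (Function.invFunOn K_EXP_k K_EXP_D)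
        (K_EXP_k '' ({q : ℂ × ℂ | a < ‖q.2‖} ∩ K_EXP_D)) :=
      (K_EXP_contInv h1).mono (image_mono inter_subset_right)
    have hmaps : MapsTo (Function.invFunOn K_EXP_k K_EXP_D)
        (K_EXP_k '' ({q : ℂ × ℂ | a < ‖q.2‖} ∩ K_EXP_D)) ({q : ℂ × ℂ | a < ‖q.2‖} ∩ K_EXP_D) := by
      rintro _ ⟨q, hq, rfl⟩
      rw [K_EXP_inv h1 hq.2]
      exact hq
    have h2 : ContinuousOn (fun q : ℂ × ℂ => (q.1, φ q.2))
        ({q : ℂ × ℂ | a < ‖q.2‖} ∩ K_EXP_D) := by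
      refine continuousOn_fst.prodMk (hφc.comp continuousOn_snd ?_)
      intro q hq
      exact hq.1
    have h3 : MapsTo (fun q : ℂ × ℂ => (q.1, φ q.2))
        ({q : ℂ × ℂ | a < ‖q.2‖} ∩ K_EXP_D) K_EXP_D := by
      intro q hq
      exact ⟨hq.2.1, (hφ q.2 hq.1 hq.2.2).2⟩
    have h4 := (K_EXP_cont h1).comp (h2.comp hi hmaps) (h3.comp hmaps)
    refine h4.congr ?_
    rintro _ ⟨q, hq, rfl⟩
    rw [K_EXP_F_k h1 φ hq.2]
    simp only [Function.comp_apply]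
    rw [K_EXP_inv h1 hq.2]
  have hO : ContinuousOn (K_EXP_F φ) (S3 \ ctube c) := by
    refine continuousOn_id.congr ?_
    intro p hp
    by_cases hpt : p ∈ K_EXP_k '' K_EXP_D
    · obtain ⟨q, hq, rfl⟩ := hpt
      have := (K_EXP_notin h1 hc hq).1 hp.2
      rw [K_EXP_F_k h1 φ hq, hφi _ this.le]
      rfl
    · exact K_EXP_F_out φ hpt
  intro p hp
  by_cases hpc : p ∈ ctube c
  · obtain ⟨l, η, hl, hη, rfl⟩ := hpc
    have hq : ((l, η) : ℂ × ℂ) ∈ K_EXP_D := ⟨hl, lt_of_le_of_lt hη hc⟩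
    have hη' : a < ‖η‖ := by
      by_contra hcon
      exact hp.2 ⟨l, η, hl, not_lt.1 hcon, rfl⟩
    have hmem : kap l η ∈ K_EXP_k '' ({q : ℂ × ℂ | a < ‖q.2‖} ∩ K_EXP_D) :=
      ⟨(l, η), ⟨hη', hq⟩, rfl⟩
    refine (hT _ hmem).mono_of_mem_nhdsWithin ?_
    rw [mem_nhdsWithin]
    refine ⟨W', hW', ?_, ?_⟩
    · rw [hWe] at hmem
      exact hmem.1
    · rintro x ⟨hx1, hx2⟩
      rw [hWe]
      exact ⟨hx1, hx2.1⟩
  · refine (hO p ⟨hp.1, hpc⟩).mono_of_mem_nhdsWithin ?_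
    rw [mem_nhdsWithin]
    refine ⟨(ctube c)ᶜ, (K_EXP_closed h1 hc).isOpen_compl, hpc, ?_⟩
    rintro x ⟨hx1, hx2⟩
    exact ⟨hx2.1, hx1⟩

lemma K_EXP_maps (h1 : Stmt_K_KAP) {a b : ℝ} (ha : a < 1) (hb : b < 1) {φ : ℂ → ℂ}
    (hφ : ∀ η : ℂ, a < ‖η‖ → ‖η‖ < 1 → b < ‖φ η‖ ∧ ‖φ η‖ < 1) {p : ℂ × ℂ}
    (hp : p ∈ S3 \ ctube a) : K_EXP_F φ p ∈ S3 \ ctube b := by
  by_cases hpt : p ∈ K_EXP_k '' K_EXP_D
  · obtain ⟨q, hq, rfl⟩ := hpt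
    have h2 := (K_EXP_notin h1 ha hq).1 hp.2
    have h3 := hφ _ h2 hq.2
    have h4 : ((q.1, φ q.2) : ℂ × ℂ) ∈ K_EXP_D := ⟨hq.1, h3.2⟩
    rw [K_EXP_F_k h1 φ hq]
    exact ⟨K_EXP_S3 h1 h4, (K_EXP_notin h1 hb h4).2 h3.1⟩
  · rw [K_EXP_F_out φ hpt]
    exact ⟨hp.1, K_EXP_sub hb hpt⟩

lemma K_EXP_left (h1 : Stmt_K_KAP) {a b : ℝ} (ha : a < 1) {φ ψ : ℂ → ℂ}
    (hφ : ∀ η : ℂ, a < ‖η‖ → ‖η‖ < 1 → b < ‖φ η‖ ∧ ‖φ η‖ < 1)
    (hψφ : ∀ η : ℂ, a < ‖η‖ → ‖η‖ < 1 → ψ (φ η) = η) {p : ℂ × ℂ}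
    (hp : p ∈ S3 \ ctube a) : K_EXP_F ψ (K_EXP_F φ p) = p := by
  by_cases hpt : p ∈ K_EXP_k '' K_EXP_D
  · obtain ⟨q, hq, rfl⟩ := hpt
    have h2 := (K_EXP_notin h1 ha hq).1 hp.2
    have h3 := hφ _ h2 hq.2
    have h4 : ((q.1, φ q.2) : ℂ × ℂ) ∈ K_EXP_D := ⟨hq.1, h3.2⟩
    rw [K_EXP_F_k h1 φ hq, K_EXP_F_k h1 ψ h4, hψφ _ h2 hq.2]
  · rw [K_EXP_F_out φ hpt, K_EXP_F_out ψ hpt]

/-- radial maps of the disc -/
noncomputable def K_EXP_rad (m : ℝ → ℝ) (η : ℂ) : ℂ := ((m ‖η‖ / ‖η‖ : ℝ) : ℂ) * η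

lemma K_EXP_norm_rad (m : ℝ → ℝ) {η : ℂ} (h0 : 0 < ‖η‖) (hm : 0 ≤ m ‖η‖) :
    ‖K_EXP_rad m η‖ = m ‖η‖ := by
  unfold K_EXP_rad
  rw [norm_mul, Complex.norm_real, Real.norm_eq_abs, abs_of_nonneg (by positivity)]
  field_simp

lemma K_EXP_rad_rad (m n : ℝ → ℝ) {η : ℂ} (h0 : 0 < ‖η‖) (hm : 0 < m ‖η‖)
    (hn : n (m ‖η‖) = ‖η‖) : K_EXP_rad n (K_EXP_rad m η) = η := by
  have h1 := K_EXP_norm_rad m h0 hm.le
  conv_lhs => unfold K_EXP_rad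
  rw [show ((m ‖η‖ / ‖η‖ : ℝ) : ℂ) * η = K_EXP_rad m η from rfl, h1, hn]
  unfold K_EXP_rad
  rw [← mul_assoc, ← Complex.ofReal_mul]
  have : ‖η‖ / m ‖η‖ * (m ‖η‖ / ‖η‖) = 1 := by field_simp
  rw [this]
  simp

lemma K_EXP_rad_cont {m : ℝ → ℝ} (hm : Continuous m) {a : ℝ} (ha : 0 ≤ a) :
    ContinuousOn (K_EXP_rad m) {η | a < ‖η‖} := by
  unfold K_EXP_rad
  refine ContinuousOn.mul ?_ continuousOn_id
  refine Complex.continuous_ofReal.comp_continuousOn ?_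
  refine ContinuousOn.div (by fun_prop) (by fun_prop) ?_
  intro η hη
  exact (lt_of_le_of_lt ha hη).ne'

theorem stmt_K_EXP (h1 : Stmt_K_KAP) : Stmt_K_EXP := by
  intro r hr0 hr1
  set c : ℝ := (1 + r) / 2 with hc
  have hc1 : c < 1 := by rw [hc]; linarith
  have hcr : r < c := by rw [hc]; linarith
  set k : ℝ := (1 + r) / (1 - r) with hk
  have h1r : 0 < 1 - r := by linarith
  have hk1 : 1 ≤ k := by rw [hk, le_div_iff₀ h1r]; linarith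
  have hk0 : 0 < k := by linarith
  have hkc : k * (c - r) = c := by rw [hk, hc]; field_simp; ring
  let m : ℝ → ℝ := fun t => min (k * (t - r)) t
  let n : ℝ → ℝ := fun u => max (r + u / k) u
  have hm : Continuous m := by fun_prop
  have hn : Continuous n := by fun_prop
  have hkr : k * (1 - r) = 1 + r := by rw [hk]; field_simp
  have hmi : ∀ t, c ≤ t → m t = t := by
    intro t ht
    refine min_eq_right ?_
    nlinarith
  have hms : ∀ t, t ≤ c → m t = k * (t - r) := by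
    intro t ht
    refine min_eq_left ?_
    nlinarith
  have hni : ∀ u, c ≤ u → n u = u := by
    intro u hu
    refine max_eq_right ?_
    rw [← sub_nonneg]
    have : u - (r + u / k) = (k * (u - r) - u) / k := by field_simp; ring
    rw [this]
    refine div_nonneg ?_ hk0.le
    nlinarith
  have hns : ∀ u, u ≤ c → n u = r + u / k := by
    intro u hu
    refine max_eq_left ?_
    rw [← sub_nonneg]
    have : r + u / k - u = (u - k * (u - r)) / k := by field_simp; ring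
    rw [this]
    refine div_nonneg ?_ hk0.le
    nlinarith
  have hmpos : ∀ t, r < t → 0 < m t := by
    intro t ht
    refine lt_min (mul_pos hk0 (by linarith)) (by linarith)
  have hm1 : ∀ t, t < 1 → m t < 1 := fun t ht => lt_of_le_of_lt (min_le_right _ _) ht
  have hnpos : ∀ u, 0 < u → r < n u := by
    intro u hu
    refine lt_of_lt_of_le ?_ (le_max_left _ _)
    have : 0 < u / k := by positivity
    linarith
  have hn1 : ∀ u, u < 1 → n u < 1 := by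
    intro u hu
    by_cases h : u ≤ c
    · rw [hns u h]
      have h2 : u / k ≤ c / k := by gcongr
      have h3 : c / k = c - r := by
        rw [div_eq_iff hk0.ne']
        linarith
      linarith
    · rw [hni u (not_le.1 h).le]
      exact hu
  have hnm : ∀ t, r < t → n (m t) = t := by
    intro t ht
    by_cases h : t ≤ c
    · rw [hms t h, hns]
      · field_simp
        ring
      · nlinarith
    · rw [hmi t (not_le.1 h).le, hni t (not_le.1 h).le]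
  have hmn : ∀ u, 0 < u → m (n u) = u := by
    intro u hu
    by_cases h : u ≤ c
    · rw [hns u h, hms]
      · field_simp
        ring
      · have h2 : u / k ≤ c / k := by gcongr
        have h3 : c / k = c - r := by
          rw [div_eq_iff hk0.ne']
          linarith
        linarith
    · rw [hni u (not_le.1 h).le, hmi u (not_le.1 h).le]
  have hφ : ∀ η : ℂ, r < ‖η‖ → ‖η‖ < 1 → 0 < ‖K_EXP_rad m η‖ ∧ ‖K_EXP_rad m η‖ < 1 := by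
    intro η h2 h3
    rw [K_EXP_norm_rad m (lt_of_le_of_lt hr0 h2) (hmpos _ h2).le]
    exact ⟨hmpos _ h2, hm1 _ h3⟩
  have hψ : ∀ η : ℂ, 0 < ‖η‖ → ‖η‖ < 1 → r < ‖K_EXP_rad n η‖ ∧ ‖K_EXP_rad n η‖ < 1 := by
    intro η h2 h3
    have h4 := hnpos _ h2
    rw [K_EXP_norm_rad n h2 (by linarith)]
    exact ⟨h4, hn1 _ h3⟩
  have hid : ∀ (l : ℝ → ℝ) (η : ℂ), c ≤ ‖η‖ → l ‖η‖ = ‖η‖ → K_EXP_rad l η = η := by
    intro l η h2 h3
    unfold K_EXP_rad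
    have : ‖η‖ ≠ 0 := by linarith
    rw [h3, div_self this]
    simp
  refine ⟨{
    toFun := fun x => ⟨K_EXP_F (K_EXP_rad m) x, K_EXP_maps h1 hr1 zero_lt_one hφ x.2⟩
    invFun := fun x => ⟨K_EXP_F (K_EXP_rad n) x, K_EXP_maps h1 zero_lt_one hr1 hψ x.2⟩
    left_inv := fun x => Subtype.ext (K_EXP_left h1 hr1 hφ (fun η h2 h3 =>
      K_EXP_rad_rad m n (lt_of_le_of_lt hr0 h2) (hmpos _ h2) (hnm _ h2)) x.2)
    right_inv := fun x => Subtype.ext (K_EXP_left h1 zero_lt_one hψ (fun η h2 h3 =>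
      K_EXP_rad_rad n m h2 (lt_of_le_of_lt hr0 (hnpos _ h2)) (hmn _ h2)) x.2)
    continuous_toFun := ?_
    continuous_invFun := ?_ }, ?_⟩
  · refine Continuous.subtype_mk ?_ _
    exact (K_EXP_contF h1 hc1 hφ (K_EXP_rad_cont hm hr0)
      (fun η h2 => hid m η h2 (hmi _ h2))).domRestrict
  · refine Continuous.subtype_mk ?_ _
    exact (K_EXP_contF h1 hc1 hψ (K_EXP_rad_cont hn le_rfl)
      (fun η h2 => hid n η h2 (hni _ h2))).domRestrict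
  · rintro ⟨x, hx⟩
    show x ∈ ptube r ↔ K_EXP_F (K_EXP_rad m) x ∈ ptube 0
    constructor
    · rintro ⟨l, η, hl, h2, h3, rfl⟩
      have hq : ((l, η) : ℂ × ℂ) ∈ K_EXP_D := ⟨hl, h3⟩
      have := K_EXP_F_k h1 (K_EXP_rad m) hq
      exact ⟨l, K_EXP_rad m η, hl, (hφ η h2 h3).1, (hφ η h2 h3).2, this⟩
    · rintro ⟨l, ζ, hl, h2, h3, he⟩
      by_cases hpt : x ∈ K_EXP_k '' K_EXP_D
      · obtain ⟨q, hq, rfl⟩ := hpt
        exact ⟨q.1, q.2, hq.1, (K_EXP_notin h1 hr1 hq).1 hx.2, hq.2, rfl⟩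
      · exfalso
        rw [K_EXP_F_out _ hpt] at he
        exact hpt ⟨(l, ζ), ⟨hl, h3⟩, he.symm⟩

end Pool.KT
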