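import Pool.Agent.Work.MP_70ab54_kt.InterfaceK

/-! # MP_70ab54: block K_TUBD (helper57) -/

set_option autoImplicit false

namespace Pool.KT

open Set Complex Topology Filter
open scoped ContDiff

/-- a linear map of `ℂ × ℂ` with nonzero determinant is bijective -/
theorem bij_det_h57 (a b c d : ℂ) (hdet : a * d - b * c ≠ 0) (T : ℂ × ℂ → ℂ × ℂ)
    (hT : ∀ q, T q = (a * q.1 + b * q.2, c * q.1 + d * q.2)) : Function.Bijective T := by
  constructor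
  · intro x y hxy
    rw [hT, hT] at hxy
    have h1 : a * x.1 + b * x.2 = a * y.1 + b * y.2 := congrArg Prod.fst hxy
    have h2 : c * x.1 + d * x.2 = c * y.1 + d * y.2 := congrArg Prod.snd hxy
    have e1 : (a * d - b * c) * (x.1 - y.1) = 0 := by linear_combination d * h1 - b * h2
    have e2 : (a * d - b * c) * (x.2 - y.2) = 0 := by linear_combination a * h2 - c * h1
    refine Prod.ext ?_ ?_
    · exact sub_eq_zero.1 ((mul_eq_zero.1 e1).resolve_left hdet)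
    · exact sub_eq_zero.1 ((mul_eq_zero.1 e2).resolve_left hdet)
  · intro y
    refine ⟨((d * y.1 - b * y.2) / (a * d - b * c), (a * y.2 - c * y.1) / (a * d - b * c)), ?_⟩
    rw [hT]
    refine Prod.ext ?_ ?_
    · show a * ((d * y.1 - b * y.2) / (a * d - b * c)) + b * ((a * y.2 - c * y.1) / (a * d - b * c))
        = y.1
      rw [mul_div_assoc', mul_div_assoc', ← add_div, div_eq_iff hdet]
      ring
    · show c * ((d * y.1 - b * y.2) / (a * d - b * c)) + d * ((a * y.2 - c * y.1) / (a * d - b * c))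
        = y.2
      rw [mul_div_assoc', mul_div_assoc', ← add_div, div_eq_iff hdet]
      ring

theorem tub_locDiff_h57 :
    LocDiffOn (fun q : ℂ × ℂ => tub q.1 q.2) {q | q.1 ≠ 0 ∧ ‖q.2‖ < 1} := by
  have hsm : ContDiff ℝ ∞ (fun q : ℂ × ℂ => tub q.1 q.2) := by
    unfold tub
    fun_prop
  refine ⟨?_, hsm.contDiffOn, ?_⟩
  · apply IsOpen.inter
    · exact isOpen_ne_fun continuous_fst continuous_const
    · exact isOpen_lt (continuous_norm.comp continuous_snd) continuous_const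
  · rintro ⟨l, η⟩ ⟨hl, hη⟩
    have hl' : l ≠ 0 := hl
    have hη' : ‖η‖ < 1 := hη
    -- complex derivative
    have h1 : HasFDerivAt (fun q : ℂ × ℂ => q.1 ^ 2 * (3 + q.2))
        ((l ^ 2) • (ContinuousLinearMap.snd ℂ ℂ ℂ) +
          (3 + η) • ((2 * l) • (ContinuousLinearMap.fst ℂ ℂ ℂ))) (l, η) := by
      have a1 : HasFDerivAt (fun q : ℂ × ℂ => q.1) (ContinuousLinearMap.fst ℂ ℂ ℂ) (l, η) :=
        hasFDerivAt_fst
      have a2 : HasFDerivAt (fun q : ℂ × ℂ => q.2) (ContinuousLinearMap.snd ℂ ℂ ℂ) (l, η) :=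
        hasFDerivAt_snd
      have a3 := (a1.pow 2).fun_mul (a2.const_add (3 : ℂ))
      simpa using a3
    have h2 : HasFDerivAt (fun q : ℂ × ℂ => 2 * q.1 ^ 3 * (1 - q.2))
        ((2 * l ^ 3) • (-(ContinuousLinearMap.snd ℂ ℂ ℂ)) +
          (1 - η) • ((2 : ℂ) • ((3 * l ^ 2) • (ContinuousLinearMap.fst ℂ ℂ ℂ)))) (l, η) := by
      have a1 : HasFDerivAt (fun q : ℂ × ℂ => q.1) (ContinuousLinearMap.fst ℂ ℂ ℂ) (l, η) :=
        hasFDerivAt_fst
      have a2 : HasFDerivAt (fun q : ℂ × ℂ => q.2) (ContinuousLinearMap.snd ℂ ℂ ℂ) (l, η) :=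
        hasFDerivAt_snd
      have a3 := ((a1.pow 3).const_mul (2 : ℂ)).fun_mul (a2.const_sub (1 : ℂ))
      simpa using a3
    have h3 := (h1.prodMk h2).restrictScalars ℝ
    have h4 : fderiv ℝ (fun q : ℂ × ℂ => tub q.1 q.2) (l, η) = _ := h3.fderiv
    rw [h4]
    refine bij_det_h57 (2 * l * (3 + η)) (l ^ 2) (6 * l ^ 2 * (1 - η)) (-(2 * l ^ 3)) ?_ _ ?_
    · have e : 2 * l * (3 + η) * -(2 * l ^ 3) - l ^ 2 * (6 * l ^ 2 * (1 - η))
          = 2 * l ^ 4 * (η - 9) := by ring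
      rw [e]
      refine mul_ne_zero (mul_ne_zero two_ne_zero (pow_ne_zero 4 hl')) ?_
      intro h
      have : η = 9 := sub_eq_zero.1 h
      rw [this] at hη'
      norm_num at hη'
    · intro q
      refine Prod.ext ?_ ?_
      · simp only [ContinuousLinearMap.coe_restrictScalars', ContinuousLinearMap.prod_apply,
          add_apply, smul_apply,
          ContinuousLinearMap.coe_fst', ContinuousLinearMap.coe_snd', smul_eq_mul]
        ring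
      · simp only [ContinuousLinearMap.coe_restrictScalars', ContinuousLinearMap.prod_apply,
          add_apply, smul_apply,
          neg_apply,
          ContinuousLinearMap.coe_fst', ContinuousLinearMap.coe_snd', smul_eq_mul]
        ring

/-- the inverse of `Th` -/
noncomputable def Thi_h57 (p : ℂ × ℂ) : ℂ × ℂ :=
  (p.1 * ((‖p.1‖ ^ (-(1 / 3) : ℝ) : ℝ) : ℂ), p.2)

theorem Thi_Th_h57 (p : ℂ × ℂ) (hp : p.1 ≠ 0) : Thi_h57 (Th p) = p := by
  have h0 : 0 < ‖p.1‖ := norm_pos_iff.2 hp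
  refine Prod.ext ?_ rfl
  show p.1 * ((Real.sqrt ‖p.1‖ : ℝ) : ℂ) *
    ((‖p.1 * ((Real.sqrt ‖p.1‖ : ℝ) : ℂ)‖ ^ (-(1 / 3) : ℝ) : ℝ) : ℂ) = p.1
  have h1 : ‖p.1 * ((Real.sqrt ‖p.1‖ : ℝ) : ℂ)‖ = ‖p.1‖ ^ (3 / 2 : ℝ) := by
    rw [norm_mul, Complex.norm_real, Real.norm_eq_abs, abs_of_nonneg (Real.sqrt_nonneg _),
      Real.sqrt_eq_rpow]
    nth_rewrite 1 [← Real.rpow_one ‖p.1‖]
    rw [← Real.rpow_add h0]
    norm_num
  rw [h1, mul_assoc, ← Complex.ofReal_mul]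
  have h2 : Real.sqrt ‖p.1‖ * (‖p.1‖ ^ (3 / 2 : ℝ)) ^ (-(1 / 3) : ℝ) = 1 := by
    rw [← Real.rpow_mul h0.le, Real.sqrt_eq_rpow, ← Real.rpow_add h0]
    norm_num
  rw [h2]
  simp

theorem Th_smooth_h57 (p : ℂ × ℂ) (hp : p.1 ≠ 0) : ContDiffAt ℝ ∞ Th p := by
  have h0 : 0 < ‖p.1‖ := norm_pos_iff.2 hp
  have hn : ContDiffAt ℝ ∞ (fun q : ℂ × ℂ => ‖q.1‖) p := contDiffAt_fst.norm ℝ hp
  have hs : ContDiffAt ℝ ∞ (fun q : ℂ × ℂ => Real.sqrt ‖q.1‖) p := hn.sqrt h0.ne'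
  have hc : ContDiffAt ℝ ∞ (fun q : ℂ × ℂ => ((Real.sqrt ‖q.1‖ : ℝ) : ℂ)) p :=
    (Complex.ofRealCLM.contDiff.contDiffAt).comp p hs
  exact (contDiffAt_fst.mul hc).prodMk contDiffAt_snd

theorem Thi_smooth_h57 (p : ℂ × ℂ) (hp : p.1 ≠ 0) : ContDiffAt ℝ ∞ Thi_h57 p := by
  have h0 : 0 < ‖p.1‖ := norm_pos_iff.2 hp
  have hn : ContDiffAt ℝ ∞ (fun q : ℂ × ℂ => ‖q.1‖) p := contDiffAt_fst.norm ℝ hp
  have hs : ContDiffAt ℝ ∞ (fun q : ℂ × ℂ => ‖q.1‖ ^ (-(1 / 3) : ℝ)) p :=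
    hn.rpow_const_of_ne h0.ne'
  have hc : ContDiffAt ℝ ∞ (fun q : ℂ × ℂ => ((‖q.1‖ ^ (-(1 / 3) : ℝ) : ℝ) : ℂ)) p :=
    (Complex.ofRealCLM.contDiff.contDiffAt).comp p hs
  exact (contDiffAt_fst.mul hc).prodMk contDiffAt_snd

theorem Th_locDiff_h57 : LocDiffOn Th {p | p.1 ≠ 0} := by
  have hopen : IsOpen {p : ℂ × ℂ | p.1 ≠ 0} := isOpen_ne_fun continuous_fst continuous_const
  refine ⟨hopen, fun p hp => (Th_smooth_h57 p hp).contDiffWithinAt, ?_⟩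
  intro p hp
  have hp' : p.1 ≠ 0 := hp
  have h0 : 0 < ‖p.1‖ := norm_pos_iff.2 hp'
  have hne : (Th p).1 ≠ 0 := by
    show p.1 * ((Real.sqrt ‖p.1‖ : ℝ) : ℂ) ≠ 0
    refine mul_ne_zero hp' ?_
    exact_mod_cast (Real.sqrt_pos.2 h0).ne'
  have d1 : HasFDerivAt Th (fderiv ℝ Th p) p :=
    ((Th_smooth_h57 p hp').differentiableAt (by simp)).hasFDerivAt
  have d2 : HasFDerivAt Thi_h57 (fderiv ℝ Thi_h57 (Th p)) (Th p) :=
    ((Thi_smooth_h57 (Th p) hne).differentiableAt (by simp)).hasFDerivAt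
  have d3 := d2.comp p d1
  have hev : (Thi_h57 ∘ Th) =ᶠ[𝓝 p] id := by
    filter_upwards [hopen.mem_nhds hp] with q hq
    exact Thi_Th_h57 q hq
  have d4 : HasFDerivAt (id : ℂ × ℂ → ℂ × ℂ) ((fderiv ℝ Thi_h57 (Th p)).comp (fderiv ℝ Th p)) p :=
    d3.congr_of_eventuallyEq hev.symm
  have d5 : (fderiv ℝ Thi_h57 (Th p)).comp (fderiv ℝ Th p) = ContinuousLinearMap.id ℝ (ℂ × ℂ) :=
    d4.unique (hasFDerivAt_id p)
  have hinj : Function.Injective (fderiv ℝ Th p) := by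
    intro x y hxy
    have h1 := congrArg (fderiv ℝ Thi_h57 (Th p)) hxy
    have e1 : ∀ z, fderiv ℝ Thi_h57 (Th p) (fderiv ℝ Th p z) = z := fun z => by
      have := congrArg (fun T : (ℂ × ℂ) →L[ℝ] (ℂ × ℂ) => T z) d5
      simpa using this
    rwa [e1, e1] at h1
  have hinj' : Function.Injective ((fderiv ℝ Th p : (ℂ × ℂ) →L[ℝ] (ℂ × ℂ)) :
      (ℂ × ℂ) →ₗ[ℝ] (ℂ × ℂ)) := hinj
  exact ⟨hinj, (LinearMap.injective_iff_surjective).1 hinj'⟩

theorem stmt_K_TUBD : Stmt_K_TUBD := ⟨tub_locDiff_h57, Th_locDiff_h57⟩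

end Pool.KT
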