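import Pool.Agent.Work.MP_70ab54_kt.Cover
import Pool.Agent.Work.MP_783066_gt.NoRetract

/-!
# MP_70ab54: maps of the 2-sphere into the complement of the standard torus (helper25)

`SphExt X`: every continuous map of the unit sphere of `ℝ³` into `X` extends to the unit ball.
It holds for spaces with a covering by an absolute extensor and fails for the complement of the
standard torus in the 4-sphere.
-/

set_option autoImplicit false

namespace Pool.KT

open Set Metric Topology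

/-- three dimensional euclidean space -/
abbrev E3 : Type := EuclideanSpace ℝ (Fin 3)

/-- every map of the two-sphere extends to the ball -/
def SphExt (X : Type*) [TopologicalSpace X] : Prop :=
  ∀ φ : C(sphere (0 : E3) 1, X), ∃ g : C(closedBall (0 : E3) 1, X),
    ∀ x : sphere (0 : E3) 1, g ⟨x.1, sphere_subset_closedBall x.2⟩ = φ x

theorem SphExt.homeomorph {X Y : Type*} [TopologicalSpace X] [TopologicalSpace Y]
    (h : SphExt X) (e : X ≃ₜ Y) : SphExt Y := by
  intro φ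
  obtain ⟨g, hg⟩ := h ((⟨e.symm, e.symm.continuous⟩ : C(Y, X)).comp φ)
  refine ⟨(⟨e, e.continuous⟩ : C(X, Y)).comp g, fun x => ?_⟩
  show e (g _) = φ x
  rw [hg x]
  exact e.apply_symm_apply _

theorem SphExt.of_retract {X Y : Type*} [TopologicalSpace X] [TopologicalSpace Y]
    (h : SphExt X) (i : C(Y, X)) (r : C(X, Y)) (hri : ∀ y, r (i y) = y) : SphExt Y := by
  intro φ
  obtain ⟨g, hg⟩ := h (i.comp φ)
  refine ⟨r.comp g, fun x => ?_⟩
  show r (g _) = φ x
  rw [hg x]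
  exact hri _

theorem SphExt.of_ae {X : Type*} [TopologicalSpace X] (h : AE X) : SphExt X := by
  intro φ
  have hA : IsClosed {b : closedBall (0 : E3) 1 | ‖(b : E3)‖ = 1} :=
    isClosed_eq (by fun_prop) continuous_const
  have : CompactSpace (closedBall (0 : E3) 1) :=
    isCompact_iff_compactSpace.1 (isCompact_closedBall _ _)
  obtain ⟨g, hg⟩ := h (closedBall (0 : E3) 1) {b | ‖(b : E3)‖ = 1} hA
    (φ.comp ⟨fun a => ⟨(a : closedBall (0 : E3) 1).1, mem_sphere_zero_iff_norm.2 a.2⟩,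
      by fun_prop⟩)
  refine ⟨g, fun x => ?_⟩
  have := hg ⟨⟨x.1, sphere_subset_closedBall x.2⟩, mem_sphere_zero_iff_norm.1 x.2⟩
  exact this

/-- the map of the plane onto the sphere which sends the circle to the pole -/
noncomputable def gam (z : ℂ) : E3 :=
  !₂[2 * Real.sqrt (1 - min (‖z‖ ^ 2) 1) * z.re, 2 * Real.sqrt (1 - min (‖z‖ ^ 2) 1) * z.im,
    2 * min (‖z‖ ^ 2) 1 - 1]

lemma gam_0 (z : ℂ) : gam z 0 = 2 * Real.sqrt (1 - min (‖z‖ ^ 2) 1) * z.re := rfl
lemma gam_1 (z : ℂ) : gam z 1 = 2 * Real.sqrt (1 - min (‖z‖ ^ 2) 1) * z.im := rfl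
lemma gam_2 (z : ℂ) : gam z 2 = 2 * min (‖z‖ ^ 2) 1 - 1 := rfl

lemma gam_cont : Continuous gam := by
  have h : Continuous (fun z : ℂ => (gam z).ofLp) := by
    refine continuous_pi fun i => ?_
    fin_cases i
    · show Continuous fun z : ℂ => 2 * Real.sqrt (1 - min (‖z‖ ^ 2) 1) * z.re
      have := Complex.continuous_re
      fun_prop
    · show Continuous fun z : ℂ => 2 * Real.sqrt (1 - min (‖z‖ ^ 2) 1) * z.im
      have := Complex.continuous_im
      fun_prop
    · show Continuous fun z : ℂ => 2 * min (‖z‖ ^ 2) 1 - 1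
      fun_prop
  exact (PiLp.continuous_toLp 2 (fun _ : Fin 3 => ℝ)).comp h

lemma norm_sq_complex (z : ℂ) : ‖z‖ ^ 2 = z.re ^ 2 + z.im ^ 2 := by
  rw [← Complex.normSq_eq_norm_sq, Complex.normSq_apply]; ring

lemma gam_norm (z : ℂ) : ‖gam z‖ = 1 := by
  have h0 : min (‖z‖ ^ 2) 1 ≤ 1 := min_le_right _ _
  have h1 : (0 : ℝ) ≤ min (‖z‖ ^ 2) 1 := le_min (by positivity) (by norm_num)
  have hs := Real.sq_sqrt (show (0 : ℝ) ≤ 1 - min (‖z‖ ^ 2) 1 by linarith)
  rw [EuclideanSpace.norm_eq, Real.sqrt_eq_one]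
  simp only [Fin.sum_univ_three, Real.norm_eq_abs, sq_abs, gam_0, gam_1, gam_2]
  have e1 : (2 * Real.sqrt (1 - min (‖z‖ ^ 2) 1) * z.re) ^ 2 +
      (2 * Real.sqrt (1 - min (‖z‖ ^ 2) 1) * z.im) ^ 2 =
      4 * (1 - min (‖z‖ ^ 2) 1) * ‖z‖ ^ 2 := by
    rw [norm_sq_complex]
    rw [norm_sq_complex] at hs
    linear_combination 4 * (z.re ^ 2 + z.im ^ 2) * hs
  rw [e1]
  rcases le_total (‖z‖ ^ 2) 1 with h | h
  · rw [min_eq_left h]; ring
  · rw [min_eq_right h]; ring

lemma gam_circle {z w : ℂ} (hz : ‖z‖ = 1) (hw : ‖w‖ = 1) : gam z = gam w := by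
  ext i
  fin_cases i
  · show gam z 0 = gam w 0
    rw [gam_0, gam_0, hz, hw]; simp
  · show gam z 1 = gam w 1
    rw [gam_1, gam_1, hz, hw]; simp
  · show gam z 2 = gam w 2
    rw [gam_2, gam_2, hz, hw]

lemma gam_inj {z w : ℂ} (hz : ‖z‖ ≤ 1) (hw : ‖w‖ ≤ 1) (h : gam z = gam w) :
    z = w ∨ (‖z‖ = 1 ∧ ‖w‖ = 1) := by
  have hz2 : ‖z‖ ^ 2 ≤ 1 := by nlinarith [norm_nonneg z]
  have hw2 : ‖w‖ ^ 2 ≤ 1 := by nlinarith [norm_nonneg w]
  have h2 : gam z 2 = gam w 2 := by rw [h]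
  have h0 : gam z 0 = gam w 0 := by rw [h]
  have h1 : gam z 1 = gam w 1 := by rw [h]
  rw [gam_2, gam_2, min_eq_left hz2, min_eq_left hw2] at h2
  have hzw : ‖z‖ ^ 2 = ‖w‖ ^ 2 := by linarith
  rw [gam_0, gam_0, min_eq_left hz2, min_eq_left hw2, hzw] at h0
  rw [gam_1, gam_1, min_eq_left hz2, min_eq_left hw2, hzw] at h1
  rcases eq_or_lt_of_le hw with hw1 | hw1
  · right
    refine ⟨?_, hw1⟩
    rw [hw1] at hzw
    nlinarith [norm_nonneg z]
  · left
    have hpos : 0 < Real.sqrt (1 - ‖w‖ ^ 2) := Real.sqrt_pos.2 (by nlinarith [norm_nonneg w])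
    apply Complex.ext
    · exact mul_left_cancel₀ (by positivity) h0
    · exact mul_left_cancel₀ (by positivity) h1

lemma gam_surj {x : E3} (hx : ‖x‖ = 1) : ∃ z : ℂ, ‖z‖ ≤ 1 ∧ gam z = x := by
  have hsum : x 0 ^ 2 + x 1 ^ 2 + x 2 ^ 2 = 1 := by
    have := EuclideanSpace.norm_eq x
    rw [hx] at this
    have h2 := this.symm
    rw [Real.sqrt_eq_one] at h2
    simpa [Fin.sum_univ_three, Real.norm_eq_abs, sq_abs] using h2
  have hx2 : x 2 ≤ 1 := by nlinarith [sq_nonneg (x 0), sq_nonneg (x 1)]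
  have hx2' : -1 ≤ x 2 := by nlinarith [sq_nonneg (x 0), sq_nonneg (x 1)]
  rcases eq_or_lt_of_le hx2 with h1 | h1
  · refine ⟨1, by simp, ?_⟩
    have h00 : x 0 = 0 := by rw [h1] at hsum; nlinarith [sq_nonneg (x 0), sq_nonneg (x 1)]
    have h01 : x 1 = 0 := by rw [h1] at hsum; nlinarith [sq_nonneg (x 0), sq_nonneg (x 1)]
    ext i
    fin_cases i
    · show gam 1 0 = x 0
      rw [gam_0, h00]; simp
    · show gam 1 1 = x 1
      rw [gam_1, h01]; simp
    · show gam 1 2 = x 2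
      rw [gam_2, h1]; norm_num
  · -- `‖z‖² = (1 + x₂)/2`
    set s : ℝ := Real.sqrt ((1 - x 2) / 2) with hs
    have hs2 : s ^ 2 = (1 - x 2) / 2 := Real.sq_sqrt (by linarith)
    have hspos : 0 < s := Real.sqrt_pos.2 (by linarith)
    have hz : ‖(⟨x 0 / (2 * s), x 1 / (2 * s)⟩ : ℂ)‖ ^ 2 = (1 + x 2) / 2 := by
      rw [norm_sq_complex]
      simp only
      rw [div_pow, div_pow, ← add_div, mul_pow, hs2]
      have : x 0 ^ 2 + x 1 ^ 2 = (1 - x 2) * (1 + x 2) := by nlinarith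
      rw [this]
      have h3 : 1 - x 2 ≠ 0 := by linarith
      field_simp
    have hz1 : ‖(⟨x 0 / (2 * s), x 1 / (2 * s)⟩ : ℂ)‖ ^ 2 ≤ 1 := by rw [hz]; linarith
    refine ⟨⟨x 0 / (2 * s), x 1 / (2 * s)⟩, ?_, ?_⟩
    · nlinarith [norm_nonneg (⟨x 0 / (2 * s), x 1 / (2 * s)⟩ : ℂ)]
    · have hm : 1 - min (‖(⟨x 0 / (2 * s), x 1 / (2 * s)⟩ : ℂ)‖ ^ 2) 1 = (1 - x 2) / 2 := by
        rw [min_eq_left hz1, hz]; ring
      ext i
      fin_cases i
      · show gam _ 0 = x 0
        rw [gam_0, hm, ← hs]; simp only; field_simp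
      · show gam _ 1 = x 1
        rw [gam_1, hm, ← hs]; simp only; field_simp
      · show gam _ 2 = x 2
        rw [gam_2, min_eq_left hz1, hz]; ring

/-- spaces covered by an absolute extensor -/
theorem SphExt.of_cover {X R : Type} [TopologicalSpace X] [TopologicalSpace R] {q : R → X}
    (cov : IsCoveringMap q) (hsurj : Function.Surjective q) (hR : AE R) : SphExt X := by
  intro φ
  let γ : C(ℂ, sphere (0 : E3) 1) :=
    ⟨fun z => ⟨gam z, mem_sphere_zero_iff_norm.2 (gam_norm z)⟩, gam_cont.subtype_mk _⟩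
  obtain ⟨e, he⟩ := hsurj (φ (γ 1))
  obtain ⟨G, ⟨hG0, hG1⟩, -⟩ := cov.existsUnique_continuousMap_lifts (φ.comp γ) 1 e he
  have hGq : ∀ z, q (G z) = φ (γ z) := fun z => congrFun hG1 z
  -- constant on the circle
  have hcirc : ∀ z w : ℂ, ‖z‖ = 1 → ‖w‖ = 1 → G z = G w := by
    intro z w hz hw
    have hconn : IsPreconnected (sphere (0 : ℂ) 1) := isPreconnected_sphere (by
      rw [Complex.rank_real_complex]; norm_num) _ _
    refine cov.constOn_of_comp hconn G.continuous.continuousOn ?_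
      (mem_sphere_zero_iff_norm.2 hz) (mem_sphere_zero_iff_norm.2 hw)
    intro a ha b hb
    show q (G a) = q (G b)
    rw [hGq, hGq]
    congr 1
    exact Subtype.ext (gam_circle (mem_sphere_zero_iff_norm.1 ha) (mem_sphere_zero_iff_norm.1 hb))
  -- the quotient map from the disc to the sphere
  let π : C(closedBall (0 : ℂ) 1, sphere (0 : E3) 1) := γ.comp ⟨Subtype.val, continuous_subtype_val⟩
  have : CompactSpace (closedBall (0 : ℂ) 1) :=
    isCompact_iff_compactSpace.1 (isCompact_closedBall _ _)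
  have hπs : Function.Surjective π := by
    intro x
    obtain ⟨z, hz, hzx⟩ := gam_surj (mem_sphere_zero_iff_norm.1 x.2)
    exact ⟨⟨z, mem_closedBall_zero_iff.2 hz⟩, Subtype.ext hzx⟩
  have hπq : IsQuotientMap π := (π.continuous.isClosedMap).isQuotientMap π.continuous hπs
  let G' : C(closedBall (0 : ℂ) 1, R) := G.comp ⟨Subtype.val, continuous_subtype_val⟩
  have hfac : ∀ a b : closedBall (0 : ℂ) 1, π a = π b → G' a = G' b := by
    intro a b hab
    have h1 : gam a = gam b := congrArg Subtype.val hab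
    rcases gam_inj (mem_closedBall_zero_iff.1 a.2) (mem_closedBall_zero_iff.1 b.2) h1 with h | h
    · show G a = G b
      rw [h]
    · exact hcirc _ _ h.1 h.2
  let φ' : C(sphere (0 : E3) 1, R) := hπq.lift G' (fun a b hab => hfac a b hab)
  have hφ' : ∀ a, φ' (π a) = G' a := fun a => by
    have := hπq.lift_comp G' (fun a b hab => hfac a b hab)
    exact congrArg (fun f : C(closedBall (0 : ℂ) 1, R) => f a) this
  have hqφ : ∀ x, q (φ' x) = φ x := by
    intro x
    obtain ⟨a, rfl⟩ := hπs x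
    rw [hφ']
    exact hGq a
  obtain ⟨g, hg⟩ := SphExt.of_ae hR φ'
  refine ⟨(⟨q, cov.continuous⟩ : C(R, X)).comp g, fun x => ?_⟩
  show q (g _) = φ x
  rw [hg x, hqφ]

/-! ### the standard torus -/

/-- the four-sphere -/
abbrev S4 : Type := sphere (0 : EuclideanSpace ℝ (Fin 5)) 1

/-- the standard torus in the four-sphere: the boundary of the solid torus
`x₀² + x₁² ≤ 1/2` of the equatorial three-sphere `x₄ = 0` -/
def stdTorus : Set S4 :=
  {x | x.1 0 ^ 2 + x.1 1 ^ 2 = 1 / 2 ∧ x.1 2 ^ 2 + x.1 3 ^ 2 = 1 / 2 ∧ x.1 4 = 0}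

lemma S4_sum (x : S4) : x.1 0 ^ 2 + x.1 1 ^ 2 + x.1 2 ^ 2 + x.1 3 ^ 2 + x.1 4 ^ 2 = 1 := by
  have h1 := mem_sphere_zero_iff_norm.1 x.2
  have := EuclideanSpace.norm_eq x.1
  rw [h1] at this
  have h2 := this.symm
  rw [Real.sqrt_eq_one] at h2
  simpa [Fin.sum_univ_five, Real.norm_eq_abs, sq_abs] using h2

/-- no extension of the translated inclusion of the sphere -/
lemma no_ext (p : E3) (hp : ‖p‖ < 1) (G : E3 → E3) (hG : ContinuousOn G (closedBall 0 1))
    (h1 : ∀ x, ‖x‖ = 1 → G x = x - p) (h2 : ∀ x, ‖x‖ ≤ 1 → G x ≠ 0) : False := by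
  -- homotopy to the identity of the sphere
  set K : E3 → E3 := fun x => if ‖x‖ ≤ 1 / 2 then G ((2 : ℝ) • x)
    else ‖x‖⁻¹ • x - (2 - 2 * ‖x‖) • p with hK
  have hKc : Continuous K := by
    refine continuous_if_le continuous_norm continuous_const ?_ ?_ ?_
    · refine hG.comp (by fun_prop) ?_
      intro x hx
      simp only [mem_ofPred_eq] at hx
      rw [mem_closedBall_zero_iff, norm_smul]
      norm_num
      linarith
    · have hne : ∀ x ∈ {x : E3 | 1 / 2 ≤ ‖x‖}, ‖x‖ ≠ 0 := by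
        intro x hx
        simp only [mem_ofPred_eq] at hx
        intro h0; rw [h0] at hx; norm_num at hx
      exact ((continuous_norm.continuousOn.inv₀ hne).smul continuousOn_id).sub
        ((by fun_prop : Continuous fun x : E3 => (2 - 2 * ‖x‖) • p).continuousOn)
    · intro x hx
      rw [h1]
      · rw [hx]; norm_num
      · rw [norm_smul, hx]; norm_num
  have hK0 : ∀ x, ‖x‖ ≤ 1 → K x ≠ 0 := by
    intro x hx
    simp only [hK]
    split_ifs with h
    · apply h2
      rw [norm_smul]; norm_num; linarith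
    · push Not at h
      have hx0 : ‖x‖ ≠ 0 := by intro h0; rw [h0] at h; norm_num at h
      intro h0
      rw [sub_eq_zero] at h0
      have h3 : ‖‖x‖⁻¹ • x‖ = 1 := by rw [norm_smul, norm_inv, norm_norm, inv_mul_cancel₀ hx0]
      rw [h0, norm_smul, Real.norm_eq_abs, abs_of_nonneg (by linarith)] at h3
      nlinarith [norm_nonneg p]
  refine Pool.Agent.Work.MP_783066_gt.no_retraction (E := E3) (fun x => ‖K x‖⁻¹ • K x) ?_ ?_ ?_
  · exact ContinuousOn.smul (ContinuousOn.inv₀ hKc.norm.continuousOn (fun x hx =>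
      norm_ne_zero_iff.2 (hK0 x (mem_closedBall_zero_iff.1 hx)))) hKc.continuousOn
  · intro x hx
    have : K x = x := by
      simp only [hK]
      rw [if_neg (by rw [hx]; norm_num), hx]; norm_num
    simp only [this, hx]; norm_num
  · intro x hx
    have := norm_ne_zero_iff.2 (hK0 x hx)
    rw [norm_smul, norm_inv, norm_norm, inv_mul_cancel₀ this]

/-- the two-sphere `x₀ = x₁ = 0` does not bound in the complement of the standard torus -/
theorem not_sphExt_std : ¬ SphExt ↥(stdTorusᶜ : Set S4) := by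
  intro hS
  have hnorm : ∀ x : E3, ‖x‖ = 1 → x 0 ^ 2 + x 1 ^ 2 + x 2 ^ 2 = 1 := by
    intro x hx
    have := EuclideanSpace.norm_eq x
    rw [hx] at this
    have h2 := this.symm
    rw [Real.sqrt_eq_one] at h2
    simpa [Fin.sum_univ_three, Real.norm_eq_abs, sq_abs] using h2
  -- inclusion of the sphere
  let j : E3 → EuclideanSpace ℝ (Fin 5) := fun x => !₂[0, 0, x 0, x 1, x 2]
  have hjc : Continuous j := by
    have h : Continuous (fun x : E3 => (j x).ofLp) := by
      refine continuous_pi fun i => ?_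
      fin_cases i
      · exact continuous_const
      · exact continuous_const
      · exact (EuclideanSpace.proj (𝕜 := ℝ) (0 : Fin 3)).continuous
      · exact (EuclideanSpace.proj (𝕜 := ℝ) (1 : Fin 3)).continuous
      · exact (EuclideanSpace.proj (𝕜 := ℝ) (2 : Fin 3)).continuous
    exact (PiLp.continuous_toLp 2 (fun _ : Fin 5 => ℝ)).comp h
  have hjS : ∀ x : E3, ‖x‖ = 1 → j x ∈ sphere (0 : EuclideanSpace ℝ (Fin 5)) 1 := by
    intro x hx
    rw [mem_sphere_zero_iff_norm, EuclideanSpace.norm_eq, Real.sqrt_eq_one]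
    have := hnorm x hx
    simp only [Fin.sum_univ_five, Real.norm_eq_abs, sq_abs]
    show (0 : ℝ) ^ 2 + 0 ^ 2 + x 0 ^ 2 + x 1 ^ 2 + x 2 ^ 2 = 1
    linarith
  have hjT : ∀ (x : E3) (hx : ‖x‖ = 1), (⟨j x, hjS x hx⟩ : S4) ∈ (stdTorusᶜ : Set S4) := by
    intro x hx h
    have h0 : (0 : ℝ) ^ 2 + 0 ^ 2 = 1 / 2 := h.1
    norm_num at h0
  let φ : C(sphere (0 : E3) 1, ↥(stdTorusᶜ : Set S4)) :=
    ⟨fun x => ⟨⟨j x.1, hjS x.1 (mem_sphere_zero_iff_norm.1 x.2)⟩,
      hjT x.1 (mem_sphere_zero_iff_norm.1 x.2)⟩,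
      Continuous.subtype_mk (Continuous.subtype_mk (hjc.comp continuous_subtype_val) _) _⟩
  obtain ⟨g, hg⟩ := hS φ
  -- the map to `ℝ³ - 0`
  let c : ℝ := Real.sqrt (1 / 2)
  have hc2 : c ^ 2 = 1 / 2 := Real.sq_sqrt (by norm_num)
  have hc0 : 0 ≤ c := Real.sqrt_nonneg _
  let F : EuclideanSpace ℝ (Fin 5) → E3 := fun y => !₂[y 2 - c, y 3, y 4]
  have hFc : Continuous F := by
    have h : Continuous (fun y : EuclideanSpace ℝ (Fin 5) => (F y).ofLp) := by
      refine continuous_pi fun i => ?_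
      fin_cases i
      · exact (EuclideanSpace.proj (𝕜 := ℝ) (2 : Fin 5)).continuous.sub continuous_const
      · exact (EuclideanSpace.proj (𝕜 := ℝ) (3 : Fin 5)).continuous
      · exact (EuclideanSpace.proj (𝕜 := ℝ) (4 : Fin 5)).continuous
    exact (PiLp.continuous_toLp 2 (fun _ : Fin 3 => ℝ)).comp h
  have hF0 : ∀ y : S4, y ∈ (stdTorusᶜ : Set S4) → F y.1 ≠ 0 := by
    intro y hy h0
    have e0 : y.1 2 - c = 0 := congrArg (fun z : E3 => z 0) h0
    have e1 : y.1 3 = 0 := congrArg (fun z : E3 => z 1) h0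
    have e2 : y.1 4 = 0 := congrArg (fun z : E3 => z 2) h0
    apply hy
    have hs := S4_sum y
    have e3 : y.1 2 = c := by linarith
    rw [e1, e2, e3, hc2] at hs
    refine ⟨by linarith, ?_, e2⟩
    rw [e1, e3, hc2]; norm_num
  -- extend `g` to all of `E3` by the retraction of the ball
  let ρ : E3 → closedBall (0 : E3) 1 := fun x => ⟨(max 1 ‖x‖)⁻¹ • x, by
    rw [mem_closedBall_zero_iff, norm_smul, norm_inv, Real.norm_eq_abs,
      abs_of_pos (lt_of_lt_of_le one_pos (le_max_left _ _)),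
      inv_mul_le_iff₀ (lt_of_lt_of_le one_pos (le_max_left _ _)), mul_one]
    exact le_max_right _ _⟩
  have hρc : Continuous ρ := by
    refine Continuous.subtype_mk ?_ _
    refine Continuous.smul (Continuous.inv₀ (continuous_const.max continuous_norm) ?_)
      continuous_id
    intro x
    exact (lt_of_lt_of_le one_pos (le_max_left _ _)).ne'
  have hρ : ∀ x : E3, ∀ hx : ‖x‖ ≤ 1, ρ x = ⟨x, mem_closedBall_zero_iff.2 hx⟩ := by
    intro x hx
    apply Subtype.ext
    show (max 1 ‖x‖)⁻¹ • x = x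
    rw [max_eq_left hx]; simp
  refine no_ext !₂[c, 0, 0] ?_ (fun x => F (g (ρ x)).1.1) ?_ ?_ ?_
  · rw [EuclideanSpace.norm_eq]
    simp only [Fin.sum_univ_three, Real.norm_eq_abs, sq_abs]
    show Real.sqrt (c ^ 2 + 0 ^ 2 + 0 ^ 2) < 1
    rw [hc2, Real.sqrt_lt' one_pos]; norm_num
  · exact (hFc.comp (continuous_subtype_val.comp (continuous_subtype_val.comp
      (g.continuous.comp hρc)))).continuousOn
  · intro x hx
    have h3 : ρ x = ⟨x, mem_closedBall_zero_iff.2 hx.le⟩ := hρ x hx.le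
    have h4 := hg ⟨x, mem_sphere_zero_iff_norm.2 hx⟩
    simp only [h3]
    have h5 : g ⟨x, mem_closedBall_zero_iff.2 hx.le⟩ =
      φ ⟨x, mem_sphere_zero_iff_norm.2 hx⟩ := h4
    rw [h5]
    show F (j x) = x - !₂[c, 0, 0]
    ext i
    fin_cases i
    · rfl
    · show x 1 = x 1 - 0
      ring
    · show x 2 = x 2 - 0
      ring
  · intro x hx
    exact hF0 _ (g (ρ x)).2

end Pool.KT
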