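import Pool.Agent.Work.MP_70ab54_kt.InterfaceG

/-!
# MP_70ab54: the ends in the amalgam (helper35)
-/

set_option autoImplicit false

namespace Pool.KT

open Set Topology

theorem stmt_LAG : Stmt_LAG := by
  intro V P R Z I J NP NR W _ _ _ _ _ A B E p r c lam mu th a b q hA hp hr hE hlam hmu hW hl
  have cov : ∀ w : W, q w ∈ E → ∃ v x, w = a v x := by
    intro w hw
    rcases hW.cover w with ⟨v, x, h⟩ | ⟨u, y, rfl⟩
    · exact ⟨v, x, h⟩
    · rw [hW.qb] at hw
      have h1 : r y ∈ A ∩ B := ⟨hE hw, hr ▸ mem_range_self y⟩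
      obtain ⟨j, z, rfl⟩ := hmu.cover y h1
      obtain ⟨⟨v, i⟩, hvi⟩ := th.surjective (u, j)
      refine ⟨v, lam i z, ?_⟩
      rw [hW.glue, hvi]
  apply LAE.of_cover
  rintro ⟨w, hw⟩
  obtain ⟨v, x, hvx⟩ := cov w hw
  refine ⟨{w' : ↥(q ⁻¹' E) | (w' : W) ∈ range (a v)}, ⟨x, hvx.symm⟩, ⟨?_, ?_⟩, ?_⟩
  · rw [← isOpen_compl_iff]
    have : {w' : ↥(q ⁻¹' E) | (w' : W) ∈ range (a v)}ᶜ =
        ⋃ v' : {v' : NP // v' ≠ v}, {w' : ↥(q ⁻¹' E) | (w' : W) ∈ range (a v')} := by
      ext w'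
      simp only [mem_compl_iff, mem_iUnion]
      constructor
      · intro h
        obtain ⟨v', x', hx'⟩ := cov w' w'.2
        refine ⟨⟨v', ?_⟩, x', hx'.symm⟩
        rintro rfl
        exact h ⟨x', hx'.symm⟩
      · rintro ⟨⟨v', hv'⟩, x', hx'⟩ ⟨x2, hx2⟩
        exact hv' (hW.ia v' v x' x2 (hx'.trans hx2.symm))
    rw [this]
    exact isOpen_iUnion fun v' =>
      (hW.ea v').isOpen_range.preimage continuous_subtype_val
  · exact (hW.ea v).isOpen_range.preimage continuous_subtype_val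
  · let f : ↥(p ⁻¹' E) → ↥{w' : ↥(q ⁻¹' E) | (w' : W) ∈ range (a v)} := fun x =>
      ⟨⟨a v x, by
        show q (a v x) ∈ E
        rw [hW.qa]
        exact x.2⟩, ⟨x, rfl⟩⟩
    have hcont : Continuous f := by
      refine Continuous.subtype_mk (Continuous.subtype_mk ?_ _) _
      exact (hW.ea v).continuous.comp continuous_subtype_val
    have hemb : IsEmbedding f := by
      refine IsEmbedding.of_comp hcont
        (continuous_subtype_val.comp continuous_subtype_val) ?_
      exact (hW.ea v).isEmbedding.comp IsEmbedding.subtypeVal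
    have hsurj : Function.Surjective f := by
      rintro ⟨⟨w', hw'⟩, x', hx'⟩
      have hx2 : a v x' = w' := hx'
      subst hx2
      refine ⟨⟨x', ?_⟩, rfl⟩
      show p x' ∈ E
      rw [← hW.qa v x']
      exact hw'
    exact hl.homeomorph (hemb.toHomeomorphOfSurjective hsurj)

end Pool.KT
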