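import Pool.Agent.Work.MP_70ab54_kt.InterfaceQ
import Pool.Agent.Work.MP_70ab54_kt.InterfaceK
import Pool.Agent.Work.MP_70ab54_kt.C1
import Pool.Agent.Work.MP_70ab54_kt.C4
import Pool.Agent.Work.MP_70ab54_kt.C10
import Pool.Agent.Work.MP_70ab54_kt.C12
import Pool.Agent.Work.MP_70ab54_kt.C13

/-!
# MP_70ab54, block Q5: the ends (helper83)
-/

set_option autoImplicit false

namespace Pool.KT

open Set Topology

/-- the radius is small if the tube lies in the thin box -/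
theorem Q5_small (e : ℝ) (h : nu e ⊆ Bd dd) :
    e ^ 2 * (20201 / 10000) ^ 2 ≤ (201 / 10000) ^ 2 := by
  by_contra hc
  push Not at hc
  have h1 : (((101 / 100 : ℝ) : ℂ), (0 : ℝ)) ∈ nu e := by
    show (2 * (0 : ℝ)) ^ 2 + (nsq (((101 / 100 : ℝ) : ℂ), (0 : ℝ)) - 1) ^ 2 <
      e ^ 2 * (nsq (((101 / 100 : ℝ) : ℂ), (0 : ℝ)) + 1) ^ 2
    have h2 : nsq (((101 / 100 : ℝ) : ℂ), (0 : ℝ)) = 10201 / 10000 := by
      simp only [nsq]
      rw [Complex.norm_real, Real.norm_of_nonneg (by norm_num)]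
      norm_num
    rw [h2]
    norm_num at hc ⊢
    linarith
  obtain ⟨h3, -⟩ := h h1
  have h4 : ‖((((101 / 100 : ℝ) : ℂ), (0 : ℝ)) : R3).1‖ = 101 / 100 := by
    show ‖((101 / 100 : ℝ) : ℂ)‖ = 101 / 100
    rw [Complex.norm_real, Real.norm_of_nonneg (by norm_num)]
  rw [h4] at h3
  unfold dd at h3
  norm_num at h3

/-- points of a small tube are not too close to the axis -/
theorem Q5_lower (e : ℝ) (h : nu e ⊆ Bd dd) (p : R3) (hp : p ∈ nu e) : 1 - dd < ‖p.1‖ := by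
  have he := Q5_small e h
  by_contra hc
  push Not at hc
  have hV0 : 0 ≤ ‖p.1‖ := norm_nonneg _
  have hV1 : ‖p.1‖ ≤ 99 / 100 := by
    have : (1 : ℝ) - dd = 99 / 100 := by unfold dd; norm_num
    rwa [this] at hc
  have hV : ‖p.1‖ ^ 2 ≤ 9801 / 10000 := by nlinarith
  have hp' : (2 * p.2) ^ 2 + (‖p.1‖ ^ 2 + p.2 ^ 2 - 1) ^ 2 <
      e ^ 2 * (‖p.1‖ ^ 2 + p.2 ^ 2 + 1) ^ 2 := hp
  set V := ‖p.1‖ ^ 2 with hVdef
  set S := p.2 ^ 2 with hSdef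
  have hV' : 0 ≤ V := by positivity
  have hS' : 0 ≤ S := by positivity
  have h1 : (1 - e ^ 2) * (V + S + 1) ^ 2 < 4 * V := by nlinarith
  have h2 : 1 - 40401 / 408080401 ≤ 1 - e ^ 2 := by
    norm_num at he
    linarith
  have h3 : (1 - 40401 / 408080401) * (V + S + 1) ^ 2 ≤ (1 - e ^ 2) * (V + S + 1) ^ 2 :=
    mul_le_mul_of_nonneg_right h2 (sq_nonneg _)
  have h4 : (V + 1) ^ 2 ≤ (V + S + 1) ^ 2 := by nlinarith
  have h5 : (1 - 40401 / 408080401) * (V + 1) ^ 2 < 4 * V := by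
    have h6 : (1 - 40401 / 408080401 : ℝ) * (V + 1) ^ 2 ≤
        (1 - 40401 / 408080401) * (V + S + 1) ^ 2 :=
      mul_le_mul_of_nonneg_left h4 (by norm_num)
    linarith
  nlinarith [sq_nonneg (V - 9801 / 10000)]

theorem Q5_sub_Nn (m : Fin 5) (e : ℝ) (h : nu e ⊆ Bd dd) : EndS m e ⊆ Nn m dd := by
  rintro x ⟨hw, hp, -⟩
  exact ⟨hw, Q5_lower e h _ hp, (h hp).1, (h hp).2⟩

theorem Q5_sub_Mt (m : Fin 5) (hm : m ≠ 0) (e : ℝ) (h : nu e ⊆ Bd dd) : EndS m e ⊆ Mt := by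
  intro x hx
  have hx' := Q5_sub_Nn m e h hx
  refine ⟨?_, fun n hn => ?_⟩
  · rintro rfl
    exact hx.1 (Wc_zero m)
  · rcases eq_or_ne m n with rfl | hmn
    · exact hx.2.2 (((stmt_C5 m hm x).2).1 hn).2
    · exact Set.disjoint_left.1 (C11_Nn_Tor m n hm hmn) hx' hn

/-- the ends in the coordinates `u` -/
theorem Q5_iff (m : Fin 5) (hm : m ≠ 0) (e : ℝ) (he : 0 < e) (he1 : e < 1) (x : E5) :
    x ∈ EndS m e ↔
      (1 - e ^ 2) * (64 * (sq x 0 + sq x (2 * m)) + (49 * sq x (3 * m) + 36 * sq x (4 * m)) +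
        sq x m) ^ 2 <
      4 * (64 * (sq x 0 + sq x (2 * m))) * (49 * sq x (3 * m) + 36 * sq x (4 * m)) ∧
      x ∉ Tor m := by
  rw [← stmt_C18 m hm e he he1 x]
  constructor
  · rintro ⟨hw, hp, hU⟩
    exact ⟨⟨hw, hp⟩, fun h => hU (((stmt_C5 m hm x).2).1 h).2⟩
  · rintro ⟨⟨hw, hp⟩, hT⟩
    exact ⟨hw, hp, fun h => hT (((stmt_C5 m hm x).2).2 ⟨hw, h⟩)⟩

theorem Q5_coord (i : Fin 5) : Continuous (fun x : E5 => sq x i) := by
  unfold sq
  fun_prop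

theorem Q5_open (m : Fin 5) (hm : m ≠ 0) (e : ℝ) (he : 0 < e) (he1 : e < 1) :
    IsOpen (EndS m e) := by
  have h1 : EndS m e = {x : E5 |
      (1 - e ^ 2) * (64 * (sq x 0 + sq x (2 * m)) + (49 * sq x (3 * m) + 36 * sq x (4 * m)) +
        sq x m) ^ 2 <
      4 * (64 * (sq x 0 + sq x (2 * m))) * (49 * sq x (3 * m) + 36 * sq x (4 * m))} ∩
      (Tor m ∪ {0})ᶜ := by
    ext x
    rw [Q5_iff m hm e he he1 x]
    constructor
    · rintro ⟨h, hT⟩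
      refine ⟨h, ?_⟩
      rintro (h' | h')
      · exact hT h'
      · rw [mem_singleton_iff] at h'
        subst h'
        simp [sq] at h
    · rintro ⟨h, hT⟩
      exact ⟨h, fun h' => hT (Or.inl h')⟩
  rw [h1]
  have c0 := Q5_coord 0
  have c1 := Q5_coord m
  have c2 := Q5_coord (2 * m)
  have c3 := Q5_coord (3 * m)
  have c4 := Q5_coord (4 * m)
  refine (isOpen_lt ?_ ?_).inter (stmt_C12.1 m).isOpen_compl
  · fun_prop
  · fun_prop

theorem Q5_refl (m : Fin 5) (hm : m ≠ 0) (e : ℝ) (he : 0 < e) (he1 : e < 1) (i : Fin 5) (x : E5) :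
    x ∈ EndS m e ↔ refl i x ∈ EndS m e := by
  obtain ⟨-, hs, -, -, -, hT, -⟩ := stmt_C13 i
  rw [Q5_iff m hm e he he1, Q5_iff m hm e he he1, hs x, ← hT m x]

theorem Q5_image (m : Fin 5) (hm : m ≠ 0) (e : ℝ) :
    EndS m e = (fun q : ℂ × R3 => Psi m q.1 q.2) '' (({0}ᶜ : Set ℂ) ×ˢ (nu e \ Ucirc)) := by
  ext x
  constructor
  · rintro ⟨hw, hp⟩
    exact ⟨(Wc m x, Pc m x), ⟨hw, hp⟩, stmt_C2 m hm x hw⟩
  · rintro ⟨⟨w, p⟩, ⟨hw, hp⟩, rfl⟩
    have hw' : w ≠ 0 := hw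
    refine ⟨?_, ?_⟩
    · show Wc m (Psi m w p) ≠ 0
      rw [C1_Wc m hm]; exact hw'
    · show Pc m (Psi m w p) ∈ nu e \ Ucirc
      rw [C1_Pc m hm w hw']; exact hp

theorem Q5_path (hnuc : Stmt_K_NUC) (m : Fin 5) (hm : m ≠ 0) (e : ℝ) (he : 0 < e) (he1 : e < 1) :
    IsPathConnected (EndS m e) := by
  rw [Q5_image m hm e]
  have h1 : IsPathConnected ({0}ᶜ : Set ℂ) := by
    refine isPathConnected_compl_singleton_of_one_lt_rank ?_ 0
    rw [Complex.rank_real_complex]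
    exact Cardinal.one_lt_two
  refine (h1.prod (hnuc e he he1)).image' ?_
  refine ((stmt_C4 m hm).1.continuousOn).mono ?_
  rintro q ⟨hq, -⟩
  exact hq

theorem stmt_Q5 (hnuc : Stmt_K_NUC) : Stmt_Q5 := by
  intro m hm e he he1 h
  exact ⟨fun x hx => ⟨Q5_sub_Mt m hm e h hx, Q5_sub_Nn m e h hx⟩, Q5_open m hm e he he1,
    Q5_refl m hm e he he1, Q5_path hnuc m hm e he he1⟩

end Pool.KT
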