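import Pool.Agent.Work.MP_70ab54_kt.InterfaceS

/-!
# MP_70ab54: basic lemmas for the surgery blocks (helper52)

`nu_mono`, `Ucirc_subset_nu`, `Ucirc_subset_Bd`, `Bd_mono`, `Knot.mem_Bd_iff`, `Knot.Oset_subset`,
`reg_mono`, `Chart.mem_reg`, `Chart.zero_notMem`, `Chart.disjoint_reg`, `SP.mem_iff`,
`SP.image_reg`, `Chart.smul_mem_reg`.
-/

set_option autoImplicit false

namespace Pool.KT

open Set Topology

theorem nu_mono {e e' : ℝ} (he : 0 < e) (h : e ≤ e') : nu e ⊆ nu e' := by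
  intro x hx
  have hx' : (2 * x.2) ^ 2 + (nsq x - 1) ^ 2 < e ^ 2 * (nsq x + 1) ^ 2 := hx
  show (2 * x.2) ^ 2 + (nsq x - 1) ^ 2 < e' ^ 2 * (nsq x + 1) ^ 2
  have h2 : e ^ 2 ≤ e' ^ 2 := pow_le_pow_left₀ he.le h 2
  exact hx'.trans_le (mul_le_mul_of_nonneg_right h2 (sq_nonneg _))

theorem Ucirc_subset_nu {e : ℝ} (he : 0 < e) : Ucirc ⊆ nu e := by
  intro x hx
  obtain ⟨h1, h2⟩ := hx
  show (2 * x.2) ^ 2 + (nsq x - 1) ^ 2 < e ^ 2 * (nsq x + 1) ^ 2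
  unfold nsq
  rw [h1, h2]
  have : 0 < e ^ 2 := by positivity
  nlinarith

theorem Ucirc_subset_Bd {d : ℝ} (hd : 0 < d) : Ucirc ⊆ Bd d := by
  intro x hx
  obtain ⟨h1, h2⟩ := hx
  refine ⟨?_, ?_⟩
  · rw [h1]; linarith
  · rw [h2, abs_zero]; exact hd

theorem Bd_mono {d d' : ℝ} (h : d' ≤ d) : Bd d' ⊆ Bd d := fun x hx =>
  ⟨lt_of_lt_of_le hx.1 (by linarith), lt_of_lt_of_le hx.2 h⟩

theorem Knot.Ucirc_subset {d e : ℝ} {j : R3 → R3} (h : Knot d e j) : Ucirc ⊆ Bd d :=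
  (Ucirc_subset_nu h.e_pos).trans h.sub

/-- `j` preserves the boxes containing `Bd d'` -/
theorem Knot.mem_Bd_iff {d d' e : ℝ} {j : R3 → R3} (h : Knot d' e j) (hd : d' ≤ d) {x : R3}
    (hx : x ∉ Ucirc) : j x ∈ Bd d ↔ x ∈ Bd d := by
  have key : ∀ B : Set R3, Bd d' ⊆ B → ∀ y ∉ Ucirc, y ∈ B → j y ∈ B := by
    intro B hB y hy hyB
    by_contra hc
    have h1 : j y ∉ Bd d' := fun hh => hc (hB hh)
    have h2 : j (j y) = j y := h.out _ h1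
    have h3 : j y ∉ Ucirc := fun hh => h1 (h.Ucirc_subset hh)
    have h4 : j y = y := h.inj h3 hy h2
    rw [h4] at hc
    exact hc hyB
  constructor
  · intro hj
    by_contra hc
    have h1 : x ∉ Bd d' := fun hh => hc (Bd_mono hd hh)
    rw [h.out x h1] at hj
    exact hc hj
  · exact key (Bd d) (Bd_mono hd) x hx

theorem Knot.Oset_subset {d e : ℝ} {j : R3 → R3} (h : Knot d e j) : Oset j e ⊆ Bd d := by
  intro x hx
  by_contra hc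
  exact hx ⟨x, fun hh => hc (h.sub hh), h.out x hc⟩

/-- points outside of the image of `j` are in the box -/
theorem Knot.compl_image_subset {d e : ℝ} {j : R3 → R3} (h : Knot d e j) :
    (j '' Ucircᶜ)ᶜ ⊆ Oset j e := by
  intro x hx hc
  obtain ⟨y, hy, rfl⟩ := hc
  exact hx ⟨y, fun hh => hy (Ucirc_subset_nu h.e_pos hh), rfl⟩

/-- the overlap -/
theorem Knot.overlap {d e : ℝ} {j : R3 → R3} (h : Knot d e j) :
    Oset j e ∩ j '' Ucircᶜ = j '' (nu e \ Ucirc) := by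
  ext x
  constructor
  · rintro ⟨hx, y, hy, rfl⟩
    refine ⟨y, ⟨?_, hy⟩, rfl⟩
    by_contra hc
    exact hx ⟨y, hc, rfl⟩
  · rintro ⟨y, ⟨hy1, hy2⟩, rfl⟩
    refine ⟨?_, y, hy2, rfl⟩
    rintro ⟨z, hz, hzy⟩
    have hz2 : z ∉ Ucirc := fun hh => hz (Ucirc_subset_nu h.e_pos hh)
    exact hz ((h.inj hz2 hy2 hzy) ▸ hy1)

theorem cyl_mono {S S' : Set R3} (h : S ⊆ S') : cyl S ⊆ cyl S' := fun _ hq => ⟨hq.1, h hq.2⟩

theorem reg_mono (Φ : ℂ × R3 → E5) {S S' : Set R3} (h : S ⊆ S') : reg Φ S ⊆ reg Φ S' :=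
  image_mono (cyl_mono h)

theorem Chart.mem_reg {d : ℝ} {Φ : ℂ × R3 → E5} (h : Chart d Φ) {S : Set R3} (hS : S ⊆ Bd d)
    {q : ℂ × R3} (hq : q ∈ cyl (Bd d)) : Φ q ∈ reg Φ S ↔ q.2 ∈ S := by
  constructor
  · rintro ⟨q', hq', he⟩
    have := h.inj (cyl_mono hS hq') hq he
    rw [← this]
    exact hq'.2
  · intro hh
    exact ⟨q, ⟨hq.1, hh⟩, rfl⟩

theorem Chart.zero_notMem {d : ℝ} {Φ : ℂ × R3 → E5} (h : Chart d Φ) {S : Set R3}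
    (hS : S ⊆ Bd d) : (0 : E5) ∉ reg Φ S := by
  rintro ⟨q, hq, h0⟩
  exact h.ne q (cyl_mono hS hq) h0

theorem Chart.isOpen_reg {d : ℝ} {Φ : ℂ × R3 → E5} (h : Chart d Φ) {S : Set R3}
    (hS : S ⊆ Bd d) (hO : IsOpen S) : IsOpen (reg Φ S) := by
  have ho : IsOpen (cyl S) :=
    (isOpen_ne.preimage continuous_fst).inter (hO.preimage continuous_snd)
  exact (h.loc.mono ho (cyl_mono hS)).isOpen_image

/-- homogeneity of the regions -/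
theorem Chart.smul_mem_reg {d : ℝ} {Φ : ℂ × R3 → E5} (h : Chart d Φ) {S : Set R3}
    (hS : S ⊆ Bd d) {t : ℝ} (ht : 0 < t) {y : E5} : t • y ∈ reg Φ S ↔ y ∈ reg Φ S := by
  have key : ∀ s : ℝ, 0 < s → ∀ z ∈ reg Φ S, s • z ∈ reg Φ S := by
    rintro s hs _ ⟨q, hq, rfl⟩
    refine ⟨(s • q.1, q.2), ⟨?_, hq.2⟩, h.hom s hs q (cyl_mono hS hq)⟩
    exact smul_ne_zero hs.ne' hq.1
  refine ⟨fun hy => ?_, key t ht y⟩
  have := key t⁻¹ (inv_pos.2 ht) _ hy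
  rwa [smul_smul, inv_mul_cancel₀ ht.ne', one_smul] at this

/-- the surgery map preserves the region of the chart -/
theorem SP.mem_iff {d d' e : ℝ} {Φ : ℂ × R3 → E5} {j : R3 → R3} {J : E5 → E5}
    (hJ : SP Φ d d' j J) (hj : Knot d' e j) (hd : d' ≤ d) {y : E5}
    (hy : y ∉ reg Φ Ucirc) : J y ∈ reg Φ (Bd d) ↔ y ∈ reg Φ (Bd d) := by
  constructor
  · intro h
    by_contra hc
    rw [hJ.off y (fun hh => hc (reg_mono Φ (Bd_mono hd) hh))] at h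
    exact hc h
  · rintro ⟨q, hq, rfl⟩
    have hq2 : q.2 ∉ Ucirc := fun hh => hy ⟨q, ⟨hq.1, hh⟩, rfl⟩
    rw [hJ.on q hq]
    exact ⟨(q.1, j q.2), ⟨hq.1, (hj.mem_Bd_iff hd hq2).2 hq.2⟩, rfl⟩

/-- images of regions of the chart -/
theorem SP.image_reg {d d' : ℝ} {Φ : ℂ × R3 → E5} {j : R3 → R3} {J : E5 → E5}
    (hJ : SP Φ d d' j J) {S : Set R3} (hS : S ⊆ Bd d) : J '' reg Φ S = reg Φ (j '' S) := by
  ext y
  constructor
  · rintro ⟨_, ⟨q, hq, rfl⟩, rfl⟩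
    rw [hJ.on q (cyl_mono hS hq)]
    exact ⟨(q.1, j q.2), ⟨hq.1, q.2, hq.2, rfl⟩, rfl⟩
  · rintro ⟨⟨w, x⟩, ⟨hw, z, hz, hzx⟩, rfl⟩
    refine ⟨Φ (w, z), ⟨(w, z), ⟨hw, hz⟩, rfl⟩, ?_⟩
    rw [hJ.on (w, z) ⟨hw, hS hz⟩]
    simp only at hzx
    rw [hzx]

end Pool.KT
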