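import Pool.Agent.Work.MP_70ab54_gt.AE3
import Pool.Agent.Work.MP_70ab54_kt.Geo

/-!
# MP_70ab54: the strata of the chamber are absolute extensors (helper81), part 1

In the coordinates `u = x^2` a stratum is (closed face of the orthant) ∩ (open set), star shaped
about a point of the relative interior of the face.
-/

set_option autoImplicit false
set_option linter.all false

namespace Pool.KT

open Set Topology

/-- `qf m` is continuous -/
theorem continuous_qf (m : Fin 5) : Continuous (qf m) := by
  unfold qf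
  by_cases h : m = 0
  · simp only [h, if_true]
    fun_prop
  · simp only [h, if_false]
    fun_prop

/-- twice the polar form of `qf 0` -/
noncomputable def Bq (c y : Fin 5 → ℝ) : ℝ :=
  2 * ((c 1 + c 4) * (y 1 + y 4)) - 2 * ((c 2 + c 3) * (y 2 + y 3)) +
    3 / 2 * ((c 1 - c 4) * (y 2 - y 3) + (y 1 - y 4) * (c 2 - c 3))

theorem qf_zero_comb (c y : Fin 5 → ℝ) (a b : ℝ) :
    qf 0 (a • c + b • y) = a ^ 2 * qf 0 c + a * b * Bq c y + b ^ 2 * qf 0 y := by
  simp only [qf, Bq, if_true, Pi.add_apply, Pi.smul_apply, smul_eq_mul]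
  ring

theorem qf_comb {m : Fin 5} (hm : m ≠ 0) (c y : Fin 5 → ℝ) (a b : ℝ) :
    qf m (a • c + b • y) = a * qf m c + b * qf m y := by
  simp only [qf, hm, if_false, Pi.add_apply, Pi.smul_apply, smul_eq_mul]
  ring

/-- the face of the orthant belonging to a pattern -/
def Fac (τ : Fin 5 → Option Bool) : Set (Fin 5 → ℝ) :=
  {u | (∀ i, 0 ≤ u i) ∧ ∀ m, τ m ≠ none → u m = 0}

/-- the retraction on the face -/
noncomputable def facR (τ : Fin 5 → Option Bool) (u : Fin 5 → ℝ) : Fin 5 → ℝ :=
  fun m => if τ m = none then max (u m) 0 else 0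

theorem continuous_facR (τ : Fin 5 → Option Bool) : Continuous (facR τ) := by
  refine continuous_pi fun m => ?_
  unfold facR
  by_cases h : τ m = none
  · simp only [h, if_true]
    exact (continuous_apply m).max continuous_const
  · simp only [h, if_false]
    exact continuous_const

theorem facR_mem (τ : Fin 5 → Option Bool) (u : Fin 5 → ℝ) : facR τ u ∈ Fac τ := by
  refine ⟨fun i => ?_, fun m hm => ?_⟩
  · unfold facR
    split_ifs
    · exact le_max_right _ _
    · exact le_rfl
  · unfold facR
    rw [if_neg hm]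

theorem facR_id (τ : Fin 5 → Option Bool) : ∀ u ∈ Fac τ, facR τ u = u := by
  intro u hu
  funext m
  unfold facR
  split_ifs with h
  · exact max_eq_left (hu.1 m)
  · exact (hu.2 m h).symm

/-- relatively open star shaped subsets of faces are absolute extensors -/
theorem ae_fac (τ : Fin 5 → Option Bool) {W : Set (Fin 5 → ℝ)} (hW : IsOpen W) {c : Fin 5 → ℝ}
    (hc : c ∈ Fac τ ∩ W) (hs : StarConvex ℝ c (Fac τ ∩ W)) : AE ↥(Fac τ ∩ W) :=
  ae_of_retr_starConvex (facR τ) (continuous_facR τ) (facR_mem τ) (facR_id τ) hW hc hs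

/-- the open set belonging to a pattern -/
def OpU (τ : Fin 5 → Option Bool) : Set (Fin 5 → ℝ) :=
  {u | u ≠ 0 ∧ (∀ m, τ m = none → ¬ (u m = 0 ∧ qf m u = 0)) ∧
    (∀ m, τ m = some true → 0 < qf m u) ∧ (∀ m, τ m = some false → qf m u < 0)}

theorem isOpen_OpU (τ : Fin 5 → Option Bool) : IsOpen (OpU τ) := by
  have h1 : OpU τ = {u | u ≠ 0} ∩ ((⋂ m : Fin 5, {u | τ m = none → ¬ (u m = 0 ∧ qf m u = 0)}) ∩
      ((⋂ m : Fin 5, {u | τ m = some true → 0 < qf m u}) ∩
       (⋂ m : Fin 5, {u | τ m = some false → qf m u < 0}))) := by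
    ext u
    simp only [OpU, mem_setOf_eq, mem_inter_iff, mem_iInter]
  rw [h1]
  refine isOpen_ne.inter (IsOpen.inter ?_ (IsOpen.inter ?_ ?_))
  · refine isOpen_iInter_of_finite fun m => ?_
    by_cases h : τ m = none
    · have : {u : Fin 5 → ℝ | τ m = none → ¬ (u m = 0 ∧ qf m u = 0)} =
          ({u | u m = 0} ∩ {u | qf m u = 0})ᶜ := by
        ext u
        simp only [h, mem_setOf_eq, mem_compl_iff, mem_inter_iff, true_implies]
      rw [this]
      exact ((isClosed_eq (continuous_apply m) continuous_const).inter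
        (isClosed_eq (continuous_qf m) continuous_const)).isOpen_compl
    · have : {u : Fin 5 → ℝ | τ m = none → ¬ (u m = 0 ∧ qf m u = 0)} = univ := by
        ext u
        simp only [h, mem_setOf_eq, mem_univ, false_implies]
      rw [this]
      exact isOpen_univ
  · refine isOpen_iInter_of_finite fun m => ?_
    by_cases h : τ m = some true
    · have : {u : Fin 5 → ℝ | τ m = some true → 0 < qf m u} = {u | 0 < qf m u} := by
        ext u
        simp only [h, mem_setOf_eq, true_implies]
      rw [this]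
      exact isOpen_lt continuous_const (continuous_qf m)
    · have : {u : Fin 5 → ℝ | τ m = some true → 0 < qf m u} = univ := by
        ext u
        simp only [h, mem_setOf_eq, mem_univ, false_implies]
      rw [this]
      exact isOpen_univ
  · refine isOpen_iInter_of_finite fun m => ?_
    by_cases h : τ m = some false
    · have : {u : Fin 5 → ℝ | τ m = some false → qf m u < 0} = {u | qf m u < 0} := by
        ext u
        simp only [h, mem_setOf_eq, true_implies]
      rw [this]
      exact isOpen_lt (continuous_qf m) continuous_const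
    · have : {u : Fin 5 → ℝ | τ m = some false → qf m u < 0} = univ := by
        ext u
        simp only [h, mem_setOf_eq, mem_univ, false_implies]
      rw [this]
      exact isOpen_univ

theorem opt_cases (o : Option Bool) (h : o ≠ none) : o = some true ∨ o = some false := by
  rcases o with _ | b
  · exact absurd rfl h
  · rcases b with _ | _
    · exact Or.inr rfl
    · exact Or.inl rfl

theorem StrU_eq (τ : Fin 5 → Option Bool) : StrU τ = Fac τ ∩ OpU τ := by
  ext u
  constructor
  · rintro ⟨h1, h2, h3, h4, h5⟩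
    refine ⟨⟨h1, fun m hm => ?_⟩, h2, h3, fun m hm => (h4 m hm).2, fun m hm => (h5 m hm).2⟩
    rcases opt_cases _ hm with h | h
    · exact (h4 m h).1
    · exact (h5 m h).1
  · rintro ⟨⟨h1, h1'⟩, h2, h3, h4, h5⟩
    exact ⟨h1, h2, h3, fun m hm => ⟨h1' m (by rw [hm]; exact Option.some_ne_none _), h4 m hm⟩,
      fun m hm => ⟨h1' m (by rw [hm]; exact Option.some_ne_none _), h5 m hm⟩⟩

/-- the stratum has a center -/
def HasCenter (τ : Fin 5 → Option Bool) : Prop :=
  ∃ y ∈ StrU τ, (∀ m, τ m = none → 0 < y m) ∧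
    ∀ x ∈ StrU τ, ∀ t : ℝ, 0 ≤ t → t ≤ 1 → (1 - t) • x + t • y ∈ StrU τ

theorem HasCenter.ae {τ : Fin 5 → Option Bool} (h : HasCenter τ) : AE (StrU τ) := by
  obtain ⟨y, hy, _, hs⟩ := h
  rw [StrU_eq] at hy ⊢
  refine ae_fac τ (isOpen_OpU τ) hy ?_
  intro x hx a b ha hb hab
  have h1 := hs x (by rw [StrU_eq]; exact hx) a ha (by linarith)
  rw [StrU_eq] at h1
  have h2 : b = 1 - a := by linarith
  rw [h2, add_comm]
  exact h1

/-- membership criterion -/
theorem mem_StrU {τ : Fin 5 → Option Bool} {u : Fin 5 → ℝ} (h1 : ∀ m, τ m = none → 0 < u m)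
    (h2 : ∀ m, τ m ≠ none → u m = 0) (h3 : ∀ m, τ m = some true → 0 < qf m u)
    (h4 : ∀ m, τ m = some false → qf m u < 0) : u ∈ StrU τ := by
  have hu0 : u ≠ 0 := by
    intro hu
    by_cases h : τ 0 = none
    · have := h1 0 h
      rw [hu] at this
      exact lt_irrefl _ this
    · have hq : qf 0 u = 0 := by
        rw [hu]
        simp [qf]
      rcases opt_cases _ h with h' | h'
      · have := h3 0 h'
        rw [hq] at this
        exact lt_irrefl _ this
      · have := h4 0 h'
        rw [hq] at this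
        exact lt_irrefl _ this
  rw [StrU_eq]
  refine ⟨⟨fun i => ?_, h2⟩, hu0, fun m hm h => ?_, h3, h4⟩
  · by_cases h : τ i = none
    · exact (h1 i h).le
    · exact (h2 i h).ge
  · exact (h1 m hm).ne' h.1

/-- the star criterion -/
theorem center_of (τ : Fin 5 → Option Bool) (c : Fin 5 → ℝ)
    (hpos : ∀ m, τ m = none → 0 < c m) (h0 : ∀ m, τ m ≠ none → c m = 0)
    (ht : ∀ m, τ m = some true → 0 < qf m c) (hf : ∀ m, τ m = some false → qf m c < 0)
    (hBt : τ 0 = some true → ∀ y ∈ StrU τ, 0 ≤ Bq c y)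
    (hBf : τ 0 = some false → ∀ y ∈ StrU τ, Bq c y ≤ 0) : HasCenter τ := by
  refine ⟨c, mem_StrU hpos h0 ht hf, hpos, ?_⟩
  intro y hy' t ht0 ht1
  have hy : y ∈ Fac τ ∩ OpU τ := by rw [← StrU_eq]; exact hy'
  have hb : 0 ≤ 1 - t := by linarith
  rcases ht0.eq_or_lt with ha0 | ha0
  · rw [← ha0, sub_zero, zero_smul, one_smul, add_zero]
    exact hy'
  · rw [add_comm]
    refine mem_StrU (fun m hm => ?_) (fun m hm => ?_) (fun m hm => ?_) (fun m hm => ?_)
    · have h1 := mul_pos ha0 (hpos m hm)
      have h2 := mul_nonneg hb (hy.1.1 m)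
      show 0 < t * c m + (1 - t) * y m
      linarith
    · show t * c m + (1 - t) * y m = 0
      rw [h0 m hm, hy.1.2 m hm]
      ring
    · by_cases hm0 : m = 0
      · subst hm0
        rw [qf_zero_comb]
        have h1 := mul_pos (pow_pos ha0 2) (ht 0 hm)
        have h2 := mul_nonneg (mul_nonneg ha0.le hb) (hBt hm y hy')
        have h3 := mul_nonneg (sq_nonneg (1 - t)) (hy.2.2.2.1 0 hm).le
        linarith
      · rw [qf_comb hm0]
        have h1 := mul_pos ha0 (ht m hm)
        have h2 := mul_nonneg hb (hy.2.2.2.1 m hm).le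
        linarith
    · by_cases hm0 : m = 0
      · subst hm0
        rw [qf_zero_comb]
        have h1 := mul_pos (pow_pos ha0 2) (neg_pos.2 (hf 0 hm))
        have h2 := mul_nonneg (mul_nonneg ha0.le hb) (neg_nonneg.2 (hBf hm y hy'))
        have h3 := mul_nonneg (sq_nonneg (1 - t)) (neg_nonneg.2 (hy.2.2.2.2 0 hm).le)
        linarith
      · rw [qf_comb hm0]
        have h1 := mul_pos ha0 (neg_pos.2 (hf m hm))
        have h2 := mul_nonneg hb (neg_nonneg.2 (hy.2.2.2.2 m hm).le)
        linarith

end Pool.KT
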