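import Pool.Agent.Work.MP_70ab54_kt.StrataA

/-!
# MP_70ab54: the strata of the chamber are absolute extensors (helper81), part 2

The 76 nonempty strata with explicit centers.
-/

set_option autoImplicit false
set_option linter.all false

namespace Pool.KT

open Set Topology

theorem two_P {y : Fin 5 → ℝ} (h : ∀ i, 0 ≤ y i) (hq : 0 < qf 0 y) :
    y 2 + y 3 ≤ 2 * (y 1 + y 4) := by
  by_contra hc
  push Not at hc
  have h1 := h 1
  have h2 := h 2
  have h3 := h 3
  have h4 := h 4
  simp only [qf, if_true] at hq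
  have e1 : (y 1 - y 4) * (y 2 - y 3) ≤ (y 1 + y 4) * (y 2 + y 3) := by
    nlinarith [mul_nonneg h1 h3, mul_nonneg h4 h2]
  nlinarith [mul_nonneg (add_nonneg h1 h4) (sub_nonneg.2 hc.le), mul_pos (sub_pos.2 hc)
    (sub_pos.2 hc), mul_nonneg (add_nonneg h2 h3) (sub_nonneg.2 hc.le)]

theorem two_N {y : Fin 5 → ℝ} (h : ∀ i, 0 ≤ y i) (hq : qf 0 y < 0) :
    y 1 + y 4 ≤ 2 * (y 2 + y 3) := by
  by_contra hc
  push Not at hc
  have h1 := h 1
  have h2 := h 2
  have h3 := h 3
  have h4 := h 4
  simp only [qf, if_true] at hq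
  have e1 : - ((y 1 + y 4) * (y 2 + y 3)) ≤ (y 1 - y 4) * (y 2 - y 3) := by
    nlinarith [mul_nonneg h1 h2, mul_nonneg h4 h3]
  nlinarith [mul_nonneg (add_nonneg h1 h4) (sub_nonneg.2 hc.le), mul_pos (sub_pos.2 hc)
    (sub_pos.2 hc), mul_nonneg (add_nonneg h2 h3) (sub_nonneg.2 hc.le)]

theorem st_ooooo : HasCenter ![none, none, none, none, none] := by
  refine center_of _ ![1, 1, 1, 1, 1] ?_ ?_ ?_ ?_ ?_ ?_
  · simp [Fin.forall_fin_succ] <;> norm_num
  · simp [Fin.forall_fin_succ] <;> norm_num
  · simp [Fin.forall_fin_succ, qf] <;> norm_num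
  · simp [Fin.forall_fin_succ, qf] <;> norm_num
  · simp
  · simp

theorem st_oooot : HasCenter ![none, none, none, none, some true] := by
  refine center_of _ ![1, 1, 1, 1, 0] ?_ ?_ ?_ ?_ ?_ ?_
  · simp [Fin.forall_fin_succ] <;> norm_num
  · simp [Fin.forall_fin_succ] <;> norm_num
  · simp [Fin.forall_fin_succ, qf] <;> norm_num
  · simp [Fin.forall_fin_succ, qf] <;> norm_num
  · simp
  · simp

theorem st_oooof : HasCenter ![none, none, none, none, some false] := by
  refine center_of _ ![1, 1, 2, 1, 0] ?_ ?_ ?_ ?_ ?_ ?_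
  · simp [Fin.forall_fin_succ] <;> norm_num
  · simp [Fin.forall_fin_succ] <;> norm_num
  · simp [Fin.forall_fin_succ, qf] <;> norm_num
  · simp [Fin.forall_fin_succ, qf] <;> norm_num
  · simp
  · simp

theorem st_oooto : HasCenter ![none, none, none, some true, none] := by
  refine center_of _ ![1, 1, 1, 0, 1] ?_ ?_ ?_ ?_ ?_ ?_
  · simp [Fin.forall_fin_succ] <;> norm_num
  · simp [Fin.forall_fin_succ] <;> norm_num
  · simp [Fin.forall_fin_succ, qf] <;> norm_num
  · simp [Fin.forall_fin_succ, qf] <;> norm_num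
  · simp
  · simp

theorem st_ooott : HasCenter ![none, none, none, some true, some true] := by
  refine center_of _ ![2, 1, 1, 0, 0] ?_ ?_ ?_ ?_ ?_ ?_
  · simp [Fin.forall_fin_succ] <;> norm_num
  · simp [Fin.forall_fin_succ] <;> norm_num
  · simp [Fin.forall_fin_succ, qf] <;> norm_num
  · simp [Fin.forall_fin_succ, qf] <;> norm_num
  · simp
  · simp

theorem st_oootf : HasCenter ![none, none, none, some true, some false] := by
  refine center_of _ ![1, 1, 1, 0, 0] ?_ ?_ ?_ ?_ ?_ ?_
  · simp [Fin.forall_fin_succ] <;> norm_num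
  · simp [Fin.forall_fin_succ] <;> norm_num
  · simp [Fin.forall_fin_succ, qf] <;> norm_num
  · simp [Fin.forall_fin_succ, qf] <;> norm_num
  · simp
  · simp

theorem st_ooofo : HasCenter ![none, none, none, some false, none] := by
  refine center_of _ ![1, 1, 1, 0, 2] ?_ ?_ ?_ ?_ ?_ ?_
  · simp [Fin.forall_fin_succ] <;> norm_num
  · simp [Fin.forall_fin_succ] <;> norm_num
  · simp [Fin.forall_fin_succ, qf] <;> norm_num
  · simp [Fin.forall_fin_succ, qf] <;> norm_num
  · simp
  · simp

theorem st_oooff : HasCenter ![none, none, none, some false, some false] := by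
  refine center_of _ ![1, 1, 4, 0, 0] ?_ ?_ ?_ ?_ ?_ ?_
  · simp [Fin.forall_fin_succ] <;> norm_num
  · simp [Fin.forall_fin_succ] <;> norm_num
  · simp [Fin.forall_fin_succ, qf] <;> norm_num
  · simp [Fin.forall_fin_succ, qf] <;> norm_num
  · simp
  · simp

theorem st_ootoo : HasCenter ![none, none, some true, none, none] := by
  refine center_of _ ![1, 1, 0, 1, 1] ?_ ?_ ?_ ?_ ?_ ?_
  · simp [Fin.forall_fin_succ] <;> norm_num
  · simp [Fin.forall_fin_succ] <;> norm_num
  · simp [Fin.forall_fin_succ, qf] <;> norm_num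
  · simp [Fin.forall_fin_succ, qf] <;> norm_num
  · simp
  · simp

theorem st_ootot : HasCenter ![none, none, some true, none, some true] := by
  refine center_of _ ![2, 1, 0, 1, 0] ?_ ?_ ?_ ?_ ?_ ?_
  · simp [Fin.forall_fin_succ] <;> norm_num
  · simp [Fin.forall_fin_succ] <;> norm_num
  · simp [Fin.forall_fin_succ, qf] <;> norm_num
  · simp [Fin.forall_fin_succ, qf] <;> norm_num
  · simp
  · simp

theorem st_ootto : HasCenter ![none, none, some true, some true, none] := by
  refine center_of _ ![1, 1, 0, 0, 1] ?_ ?_ ?_ ?_ ?_ ?_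
  · simp [Fin.forall_fin_succ] <;> norm_num
  · simp [Fin.forall_fin_succ] <;> norm_num
  · simp [Fin.forall_fin_succ, qf] <;> norm_num
  · simp [Fin.forall_fin_succ, qf] <;> norm_num
  · simp
  · simp

theorem st_oottt : HasCenter ![none, none, some true, some true, some true] := by
  refine center_of _ ![1, 1, 0, 0, 0] ?_ ?_ ?_ ?_ ?_ ?_
  · simp [Fin.forall_fin_succ] <;> norm_num
  · simp [Fin.forall_fin_succ] <;> norm_num
  · simp [Fin.forall_fin_succ, qf] <;> norm_num
  · simp [Fin.forall_fin_succ, qf] <;> norm_num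
  · simp
  · simp

theorem st_ootfo : HasCenter ![none, none, some true, some false, none] := by
  refine center_of _ ![1, 1, 0, 0, 3] ?_ ?_ ?_ ?_ ?_ ?_
  · simp [Fin.forall_fin_succ] <;> norm_num
  · simp [Fin.forall_fin_succ] <;> norm_num
  · simp [Fin.forall_fin_succ, qf] <;> norm_num
  · simp [Fin.forall_fin_succ, qf] <;> norm_num
  · simp
  · simp

theorem st_oofoo : HasCenter ![none, none, some false, none, none] := by
  refine center_of _ ![1, 2, 0, 1, 1] ?_ ?_ ?_ ?_ ?_ ?_
  · simp [Fin.forall_fin_succ] <;> norm_num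
  · simp [Fin.forall_fin_succ] <;> norm_num
  · simp [Fin.forall_fin_succ, qf] <;> norm_num
  · simp [Fin.forall_fin_succ, qf] <;> norm_num
  · simp
  · simp

theorem st_oofot : HasCenter ![none, none, some false, none, some true] := by
  refine center_of _ ![1, 1, 0, 1, 0] ?_ ?_ ?_ ?_ ?_ ?_
  · simp [Fin.forall_fin_succ] <;> norm_num
  · simp [Fin.forall_fin_succ] <;> norm_num
  · simp [Fin.forall_fin_succ, qf] <;> norm_num
  · simp [Fin.forall_fin_succ, qf] <;> norm_num
  · simp
  · simp

theorem st_oofof : HasCenter ![none, none, some false, none, some false] := by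
  refine center_of _ ![1, 4, 0, 1, 0] ?_ ?_ ?_ ?_ ?_ ?_
  · simp [Fin.forall_fin_succ] <;> norm_num
  · simp [Fin.forall_fin_succ] <;> norm_num
  · simp [Fin.forall_fin_succ, qf] <;> norm_num
  · simp [Fin.forall_fin_succ, qf] <;> norm_num
  · simp
  · simp

theorem st_oofto : HasCenter ![none, none, some false, some true, none] := by
  refine center_of _ ![1, 3, 0, 0, 1] ?_ ?_ ?_ ?_ ?_ ?_
  · simp [Fin.forall_fin_succ] <;> norm_num
  · simp [Fin.forall_fin_succ] <;> norm_num
  · simp [Fin.forall_fin_succ, qf] <;> norm_num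
  · simp [Fin.forall_fin_succ, qf] <;> norm_num
  · simp
  · simp

theorem st_ooftt : HasCenter ![none, none, some false, some true, some true] := by
  refine center_of _ ![2, 3, 0, 0, 0] ?_ ?_ ?_ ?_ ?_ ?_
  · simp [Fin.forall_fin_succ] <;> norm_num
  · simp [Fin.forall_fin_succ] <;> norm_num
  · simp [Fin.forall_fin_succ, qf] <;> norm_num
  · simp [Fin.forall_fin_succ, qf] <;> norm_num
  · simp
  · simp

theorem st_ooftf : HasCenter ![none, none, some false, some true, some false] := by
  refine center_of _ ![1, 2, 0, 0, 0] ?_ ?_ ?_ ?_ ?_ ?_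
  · simp [Fin.forall_fin_succ] <;> norm_num
  · simp [Fin.forall_fin_succ] <;> norm_num
  · simp [Fin.forall_fin_succ, qf] <;> norm_num
  · simp [Fin.forall_fin_succ, qf] <;> norm_num
  · simp
  · simp

theorem st_otooo : HasCenter ![none, some true, none, none, none] := by
  refine center_of _ ![1, 0, 1, 1, 1] ?_ ?_ ?_ ?_ ?_ ?_
  · simp [Fin.forall_fin_succ] <;> norm_num
  · simp [Fin.forall_fin_succ] <;> norm_num
  · simp [Fin.forall_fin_succ, qf] <;> norm_num
  · simp [Fin.forall_fin_succ, qf] <;> norm_num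
  · simp
  · simp

theorem st_otoot : HasCenter ![none, some true, none, none, some true] := by
  refine center_of _ ![1, 0, 1, 1, 0] ?_ ?_ ?_ ?_ ?_ ?_
  · simp [Fin.forall_fin_succ] <;> norm_num
  · simp [Fin.forall_fin_succ] <;> norm_num
  · simp [Fin.forall_fin_succ, qf] <;> norm_num
  · simp [Fin.forall_fin_succ, qf] <;> norm_num
  · simp
  · simp

theorem st_otoof : HasCenter ![none, some true, none, none, some false] := by
  refine center_of _ ![1, 0, 3, 1, 0] ?_ ?_ ?_ ?_ ?_ ?_
  · simp [Fin.forall_fin_succ] <;> norm_num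
  · simp [Fin.forall_fin_succ] <;> norm_num
  · simp [Fin.forall_fin_succ, qf] <;> norm_num
  · simp [Fin.forall_fin_succ, qf] <;> norm_num
  · simp
  · simp

theorem st_ototo : HasCenter ![none, some true, none, some true, none] := by
  refine center_of _ ![2, 0, 1, 0, 1] ?_ ?_ ?_ ?_ ?_ ?_
  · simp [Fin.forall_fin_succ] <;> norm_num
  · simp [Fin.forall_fin_succ] <;> norm_num
  · simp [Fin.forall_fin_succ, qf] <;> norm_num
  · simp [Fin.forall_fin_succ, qf] <;> norm_num
  · simp
  · simp

theorem st_otott : HasCenter ![none, some true, none, some true, some true] := by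
  refine center_of _ ![1, 0, 1, 0, 0] ?_ ?_ ?_ ?_ ?_ ?_
  · simp [Fin.forall_fin_succ] <;> norm_num
  · simp [Fin.forall_fin_succ] <;> norm_num
  · simp [Fin.forall_fin_succ, qf] <;> norm_num
  · simp [Fin.forall_fin_succ, qf] <;> norm_num
  · simp
  · simp

theorem st_ototf : HasCenter ![none, some true, none, some true, some false] := by
  refine center_of _ ![2, 0, 3, 0, 0] ?_ ?_ ?_ ?_ ?_ ?_
  · simp [Fin.forall_fin_succ] <;> norm_num
  · simp [Fin.forall_fin_succ] <;> norm_num
  · simp [Fin.forall_fin_succ, qf] <;> norm_num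
  · simp [Fin.forall_fin_succ, qf] <;> norm_num
  · simp
  · simp

theorem st_otofo : HasCenter ![none, some true, none, some false, none] := by
  refine center_of _ ![1, 0, 1, 0, 1] ?_ ?_ ?_ ?_ ?_ ?_
  · simp [Fin.forall_fin_succ] <;> norm_num
  · simp [Fin.forall_fin_succ] <;> norm_num
  · simp [Fin.forall_fin_succ, qf] <;> norm_num
  · simp [Fin.forall_fin_succ, qf] <;> norm_num
  · simp
  · simp

theorem st_otoff : HasCenter ![none, some true, none, some false, some false] := by
  refine center_of _ ![1, 0, 2, 0, 0] ?_ ?_ ?_ ?_ ?_ ?_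
  · simp [Fin.forall_fin_succ] <;> norm_num
  · simp [Fin.forall_fin_succ] <;> norm_num
  · simp [Fin.forall_fin_succ, qf] <;> norm_num
  · simp [Fin.forall_fin_succ, qf] <;> norm_num
  · simp
  · simp

theorem st_ottoo : HasCenter ![none, some true, some true, none, none] := by
  refine center_of _ ![2, 0, 0, 1, 1] ?_ ?_ ?_ ?_ ?_ ?_
  · simp [Fin.forall_fin_succ] <;> norm_num
  · simp [Fin.forall_fin_succ] <;> norm_num
  · simp [Fin.forall_fin_succ, qf] <;> norm_num
  · simp [Fin.forall_fin_succ, qf] <;> norm_num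
  · simp
  · simp

theorem st_ottot : HasCenter ![none, some true, some true, none, some true] := by
  refine center_of _ ![1, 0, 0, 1, 0] ?_ ?_ ?_ ?_ ?_ ?_
  · simp [Fin.forall_fin_succ] <;> norm_num
  · simp [Fin.forall_fin_succ] <;> norm_num
  · simp [Fin.forall_fin_succ, qf] <;> norm_num
  · simp [Fin.forall_fin_succ, qf] <;> norm_num
  · simp
  · simp

theorem st_ottto : HasCenter ![none, some true, some true, some true, none] := by
  refine center_of _ ![1, 0, 0, 0, 1] ?_ ?_ ?_ ?_ ?_ ?_
  · simp [Fin.forall_fin_succ] <;> norm_num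
  · simp [Fin.forall_fin_succ] <;> norm_num
  · simp [Fin.forall_fin_succ, qf] <;> norm_num
  · simp [Fin.forall_fin_succ, qf] <;> norm_num
  · simp
  · simp

theorem st_otttt : HasCenter ![none, some true, some true, some true, some true] := by
  refine center_of _ ![1, 0, 0, 0, 0] ?_ ?_ ?_ ?_ ?_ ?_
  · simp [Fin.forall_fin_succ] <;> norm_num
  · simp [Fin.forall_fin_succ] <;> norm_num
  · simp [Fin.forall_fin_succ, qf] <;> norm_num
  · simp [Fin.forall_fin_succ, qf] <;> norm_num
  · simp
  · simp

theorem st_ottfo : HasCenter ![none, some true, some true, some false, none] := by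
  refine center_of _ ![2, 0, 0, 0, 3] ?_ ?_ ?_ ?_ ?_ ?_
  · simp [Fin.forall_fin_succ] <;> norm_num
  · simp [Fin.forall_fin_succ] <;> norm_num
  · simp [Fin.forall_fin_succ, qf] <;> norm_num
  · simp [Fin.forall_fin_succ, qf] <;> norm_num
  · simp
  · simp

theorem st_ofooo : HasCenter ![none, some false, none, none, none] := by
  refine center_of _ ![1, 0, 1, 2, 1] ?_ ?_ ?_ ?_ ?_ ?_
  · simp [Fin.forall_fin_succ] <;> norm_num
  · simp [Fin.forall_fin_succ] <;> norm_num
  · simp [Fin.forall_fin_succ, qf] <;> norm_num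
  · simp [Fin.forall_fin_succ, qf] <;> norm_num
  · simp
  · simp

theorem st_ofoot : HasCenter ![none, some false, none, none, some true] := by
  refine center_of _ ![1, 0, 1, 3, 0] ?_ ?_ ?_ ?_ ?_ ?_
  · simp [Fin.forall_fin_succ] <;> norm_num
  · simp [Fin.forall_fin_succ] <;> norm_num
  · simp [Fin.forall_fin_succ, qf] <;> norm_num
  · simp [Fin.forall_fin_succ, qf] <;> norm_num
  · simp
  · simp

theorem st_ofofo : HasCenter ![none, some false, none, some false, none] := by
  refine center_of _ ![1, 0, 1, 0, 4] ?_ ?_ ?_ ?_ ?_ ?_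
  · simp [Fin.forall_fin_succ] <;> norm_num
  · simp [Fin.forall_fin_succ] <;> norm_num
  · simp [Fin.forall_fin_succ, qf] <;> norm_num
  · simp [Fin.forall_fin_succ, qf] <;> norm_num
  · simp
  · simp

theorem st_oftoo : HasCenter ![none, some false, some true, none, none] := by
  refine center_of _ ![1, 0, 0, 1, 1] ?_ ?_ ?_ ?_ ?_ ?_
  · simp [Fin.forall_fin_succ] <;> norm_num
  · simp [Fin.forall_fin_succ] <;> norm_num
  · simp [Fin.forall_fin_succ, qf] <;> norm_num
  · simp [Fin.forall_fin_succ, qf] <;> norm_num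
  · simp
  · simp

theorem st_oftot : HasCenter ![none, some false, some true, none, some true] := by
  refine center_of _ ![2, 0, 0, 3, 0] ?_ ?_ ?_ ?_ ?_ ?_
  · simp [Fin.forall_fin_succ] <;> norm_num
  · simp [Fin.forall_fin_succ] <;> norm_num
  · simp [Fin.forall_fin_succ, qf] <;> norm_num
  · simp [Fin.forall_fin_succ, qf] <;> norm_num
  · simp
  · simp

theorem st_oftfo : HasCenter ![none, some false, some true, some false, none] := by
  refine center_of _ ![1, 0, 0, 0, 2] ?_ ?_ ?_ ?_ ?_ ?_
  · simp [Fin.forall_fin_succ] <;> norm_num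
  · simp [Fin.forall_fin_succ] <;> norm_num
  · simp [Fin.forall_fin_succ, qf] <;> norm_num
  · simp [Fin.forall_fin_succ, qf] <;> norm_num
  · simp
  · simp

theorem st_offoo : HasCenter ![none, some false, some false, none, none] := by
  refine center_of _ ![1, 0, 0, 4, 1] ?_ ?_ ?_ ?_ ?_ ?_
  · simp [Fin.forall_fin_succ] <;> norm_num
  · simp [Fin.forall_fin_succ] <;> norm_num
  · simp [Fin.forall_fin_succ, qf] <;> norm_num
  · simp [Fin.forall_fin_succ, qf] <;> norm_num
  · simp
  · simp

theorem st_offot : HasCenter ![none, some false, some false, none, some true] := by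
  refine center_of _ ![1, 0, 0, 2, 0] ?_ ?_ ?_ ?_ ?_ ?_
  · simp [Fin.forall_fin_succ] <;> norm_num
  · simp [Fin.forall_fin_succ] <;> norm_num
  · simp [Fin.forall_fin_succ, qf] <;> norm_num
  · simp [Fin.forall_fin_succ, qf] <;> norm_num
  · simp
  · simp

theorem st_toooo : HasCenter ![some true, none, none, none, none] := by
  refine center_of _ ![0, 2, 1, 1, 2] ?_ ?_ ?_ ?_ ?_ ?_
  · simp [Fin.forall_fin_succ] <;> norm_num
  · simp [Fin.forall_fin_succ] <;> norm_num
  · simp [Fin.forall_fin_succ, qf] <;> norm_num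
  · simp [Fin.forall_fin_succ, qf] <;> norm_num
  · intro _ y hy
    have k0 := hy.1
    have k1 := two_P hy.1 (hy.2.2.2.1 0 rfl).2
    simp [Bq] <;> linarith [k0 0, k0 1, k0 2, k0 3, k0 4]
  · simp

theorem st_tooof : HasCenter ![some true, none, none, none, some false] := by
  refine center_of _ ![0, 6, 1, 1, 0] ?_ ?_ ?_ ?_ ?_ ?_
  · simp [Fin.forall_fin_succ] <;> norm_num
  · simp [Fin.forall_fin_succ] <;> norm_num
  · simp [Fin.forall_fin_succ, qf] <;> norm_num
  · simp [Fin.forall_fin_succ, qf] <;> norm_num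
  · intro _ y hy
    have k0 := hy.1
    have k1 := two_P hy.1 (hy.2.2.2.1 0 rfl).2
    obtain ⟨y4, q4⟩ := hy.2.2.2.2 4 rfl
    simp [qf] at q4
    simp [Bq] <;> linarith [k0 0, k0 1, k0 2, k0 3, k0 4]
  · simp

theorem st_tooto : HasCenter ![some true, none, none, some true, none] := by
  refine center_of _ ![0, 2, 1, 0, 1] ?_ ?_ ?_ ?_ ?_ ?_
  · simp [Fin.forall_fin_succ] <;> norm_num
  · simp [Fin.forall_fin_succ] <;> norm_num
  · simp [Fin.forall_fin_succ, qf] <;> norm_num
  · simp [Fin.forall_fin_succ, qf] <;> norm_num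
  · intro _ y hy
    have k0 := hy.1
    have k1 := two_P hy.1 (hy.2.2.2.1 0 rfl).2
    obtain ⟨y3, q3⟩ := hy.2.2.2.1 3 rfl
    simp [qf] at q3
    simp [Bq] <;> linarith [k0 0, k0 1, k0 2, k0 3, k0 4]
  · simp

theorem st_tootf : HasCenter ![some true, none, none, some true, some false] := by
  refine center_of _ ![0, 1, 1, 0, 0] ?_ ?_ ?_ ?_ ?_ ?_
  · simp [Fin.forall_fin_succ] <;> norm_num
  · simp [Fin.forall_fin_succ] <;> norm_num
  · simp [Fin.forall_fin_succ, qf] <;> norm_num
  · simp [Fin.forall_fin_succ, qf] <;> norm_num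
  · intro _ y hy
    have k0 := hy.1
    have k1 := two_P hy.1 (hy.2.2.2.1 0 rfl).2
    obtain ⟨y3, q3⟩ := hy.2.2.2.1 3 rfl
    obtain ⟨y4, q4⟩ := hy.2.2.2.2 4 rfl
    simp [qf] at q3 q4
    simp [Bq] <;> linarith [k0 0, k0 1, k0 2, k0 3, k0 4]
  · simp

theorem st_toofo : HasCenter ![some true, none, none, some false, none] := by
  refine center_of _ ![0, 2, 1, 0, 2] ?_ ?_ ?_ ?_ ?_ ?_
  · simp [Fin.forall_fin_succ] <;> norm_num
  · simp [Fin.forall_fin_succ] <;> norm_num
  · simp [Fin.forall_fin_succ, qf] <;> norm_num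
  · simp [Fin.forall_fin_succ, qf] <;> norm_num
  · intro _ y hy
    have k0 := hy.1
    have k1 := two_P hy.1 (hy.2.2.2.1 0 rfl).2
    obtain ⟨y3, q3⟩ := hy.2.2.2.2 3 rfl
    simp [qf] at q3
    simp [Bq] <;> linarith [k0 0, k0 1, k0 2, k0 3, k0 4]
  · simp

theorem st_tooff : HasCenter ![some true, none, none, some false, some false] := by
  refine center_of _ ![0, 13, 24, 0, 0] ?_ ?_ ?_ ?_ ?_ ?_
  · simp [Fin.forall_fin_succ] <;> norm_num
  · simp [Fin.forall_fin_succ] <;> norm_num
  · simp [Fin.forall_fin_succ, qf] <;> norm_num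
  · simp [Fin.forall_fin_succ, qf] <;> norm_num
  · intro _ y hy
    have k0 := hy.1
    have k1 := two_P hy.1 (hy.2.2.2.1 0 rfl).2
    obtain ⟨y3, q3⟩ := hy.2.2.2.2 3 rfl
    obtain ⟨y4, q4⟩ := hy.2.2.2.2 4 rfl
    simp [qf] at q3 q4
    simp [Bq] <;> linarith [k0 0, k0 1, k0 2, k0 3, k0 4]
  · simp

theorem st_totoo : HasCenter ![some true, none, some true, none, none] := by
  refine center_of _ ![0, 1, 0, 1, 2] ?_ ?_ ?_ ?_ ?_ ?_
  · simp [Fin.forall_fin_succ] <;> norm_num
  · simp [Fin.forall_fin_succ] <;> norm_num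
  · simp [Fin.forall_fin_succ, qf] <;> norm_num
  · simp [Fin.forall_fin_succ, qf] <;> norm_num
  · intro _ y hy
    have k0 := hy.1
    have k1 := two_P hy.1 (hy.2.2.2.1 0 rfl).2
    obtain ⟨y2, q2⟩ := hy.2.2.2.1 2 rfl
    simp [qf] at q2
    simp [Bq] <;> linarith [k0 0, k0 1, k0 2, k0 3, k0 4]
  · simp

theorem st_totto : HasCenter ![some true, none, some true, some true, none] := by
  refine center_of _ ![0, 1, 0, 0, 1] ?_ ?_ ?_ ?_ ?_ ?_
  · simp [Fin.forall_fin_succ] <;> norm_num
  · simp [Fin.forall_fin_succ] <;> norm_num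
  · simp [Fin.forall_fin_succ, qf] <;> norm_num
  · simp [Fin.forall_fin_succ, qf] <;> norm_num
  · intro _ y hy
    have k0 := hy.1
    have k1 := two_P hy.1 (hy.2.2.2.1 0 rfl).2
    obtain ⟨y2, q2⟩ := hy.2.2.2.1 2 rfl
    obtain ⟨y3, q3⟩ := hy.2.2.2.1 3 rfl
    simp [qf] at q2 q3
    simp [Bq] <;> linarith [k0 0, k0 1, k0 2, k0 3, k0 4]
  · simp

theorem st_totfo : HasCenter ![some true, none, some true, some false, none] := by
  refine center_of _ ![0, 1, 0, 0, 2] ?_ ?_ ?_ ?_ ?_ ?_
  · simp [Fin.forall_fin_succ] <;> norm_num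
  · simp [Fin.forall_fin_succ] <;> norm_num
  · simp [Fin.forall_fin_succ, qf] <;> norm_num
  · simp [Fin.forall_fin_succ, qf] <;> norm_num
  · intro _ y hy
    have k0 := hy.1
    have k1 := two_P hy.1 (hy.2.2.2.1 0 rfl).2
    obtain ⟨y2, q2⟩ := hy.2.2.2.1 2 rfl
    obtain ⟨y3, q3⟩ := hy.2.2.2.2 3 rfl
    simp [qf] at q2 q3
    simp [Bq] <;> linarith [k0 0, k0 1, k0 2, k0 3, k0 4]
  · simp

theorem st_tofoo : HasCenter ![some true, none, some false, none, none] := by
  refine center_of _ ![0, 2, 0, 1, 2] ?_ ?_ ?_ ?_ ?_ ?_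
  · simp [Fin.forall_fin_succ] <;> norm_num
  · simp [Fin.forall_fin_succ] <;> norm_num
  · simp [Fin.forall_fin_succ, qf] <;> norm_num
  · simp [Fin.forall_fin_succ, qf] <;> norm_num
  · intro _ y hy
    have k0 := hy.1
    have k1 := two_P hy.1 (hy.2.2.2.1 0 rfl).2
    obtain ⟨y2, q2⟩ := hy.2.2.2.2 2 rfl
    simp [qf] at q2
    simp [Bq] <;> linarith [k0 0, k0 1, k0 2, k0 3, k0 4]
  · simp

theorem st_tofof : HasCenter ![some true, none, some false, none, some false] := by
  refine center_of _ ![0, 3, 0, 1, 0] ?_ ?_ ?_ ?_ ?_ ?_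
  · simp [Fin.forall_fin_succ] <;> norm_num
  · simp [Fin.forall_fin_succ] <;> norm_num
  · simp [Fin.forall_fin_succ, qf] <;> norm_num
  · simp [Fin.forall_fin_succ, qf] <;> norm_num
  · intro _ y hy
    have k0 := hy.1
    have k1 := two_P hy.1 (hy.2.2.2.1 0 rfl).2
    obtain ⟨y2, q2⟩ := hy.2.2.2.2 2 rfl
    obtain ⟨y4, q4⟩ := hy.2.2.2.2 4 rfl
    simp [qf] at q2 q4
    simp [Bq] <;> linarith [k0 0, k0 1, k0 2, k0 3, k0 4]
  · simp

theorem st_tofto : HasCenter ![some true, none, some false, some true, none] := by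
  refine center_of _ ![0, 2, 0, 0, 1] ?_ ?_ ?_ ?_ ?_ ?_
  · simp [Fin.forall_fin_succ] <;> norm_num
  · simp [Fin.forall_fin_succ] <;> norm_num
  · simp [Fin.forall_fin_succ, qf] <;> norm_num
  · simp [Fin.forall_fin_succ, qf] <;> norm_num
  · intro _ y hy
    have k0 := hy.1
    have k1 := two_P hy.1 (hy.2.2.2.1 0 rfl).2
    obtain ⟨y2, q2⟩ := hy.2.2.2.2 2 rfl
    obtain ⟨y3, q3⟩ := hy.2.2.2.1 3 rfl
    simp [qf] at q2 q3
    simp [Bq] <;> linarith [k0 0, k0 1, k0 2, k0 3, k0 4]
  · simp

theorem st_toftf : HasCenter ![some true, none, some false, some true, some false] := by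
  refine center_of _ ![0, 1, 0, 0, 0] ?_ ?_ ?_ ?_ ?_ ?_
  · simp [Fin.forall_fin_succ] <;> norm_num
  · simp [Fin.forall_fin_succ] <;> norm_num
  · simp [Fin.forall_fin_succ, qf] <;> norm_num
  · simp [Fin.forall_fin_succ, qf] <;> norm_num
  · intro _ y hy
    have k0 := hy.1
    have k1 := two_P hy.1 (hy.2.2.2.1 0 rfl).2
    obtain ⟨y2, q2⟩ := hy.2.2.2.2 2 rfl
    obtain ⟨y3, q3⟩ := hy.2.2.2.1 3 rfl
    obtain ⟨y4, q4⟩ := hy.2.2.2.2 4 rfl
    simp [qf] at q2 q3 q4
    simp [Bq] <;> linarith [k0 0, k0 1, k0 2, k0 3, k0 4]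
  · simp

theorem st_tfooo : HasCenter ![some true, some false, none, none, none] := by
  refine center_of _ ![0, 0, 1, 1, 6] ?_ ?_ ?_ ?_ ?_ ?_
  · simp [Fin.forall_fin_succ] <;> norm_num
  · simp [Fin.forall_fin_succ] <;> norm_num
  · simp [Fin.forall_fin_succ, qf] <;> norm_num
  · simp [Fin.forall_fin_succ, qf] <;> norm_num
  · intro _ y hy
    have k0 := hy.1
    have k1 := two_P hy.1 (hy.2.2.2.1 0 rfl).2
    obtain ⟨y1, q1⟩ := hy.2.2.2.2 1 rfl
    simp [qf] at q1
    simp [Bq] <;> linarith [k0 0, k0 1, k0 2, k0 3, k0 4]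
  · simp

theorem st_tfofo : HasCenter ![some true, some false, none, some false, none] := by
  refine center_of _ ![0, 0, 1, 0, 3] ?_ ?_ ?_ ?_ ?_ ?_
  · simp [Fin.forall_fin_succ] <;> norm_num
  · simp [Fin.forall_fin_succ] <;> norm_num
  · simp [Fin.forall_fin_succ, qf] <;> norm_num
  · simp [Fin.forall_fin_succ, qf] <;> norm_num
  · intro _ y hy
    have k0 := hy.1
    have k1 := two_P hy.1 (hy.2.2.2.1 0 rfl).2
    obtain ⟨y1, q1⟩ := hy.2.2.2.2 1 rfl
    obtain ⟨y3, q3⟩ := hy.2.2.2.2 3 rfl
    simp [qf] at q1 q3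
    simp [Bq] <;> linarith [k0 0, k0 1, k0 2, k0 3, k0 4]
  · simp

theorem st_tftoo : HasCenter ![some true, some false, some true, none, none] := by
  refine center_of _ ![0, 0, 0, 1, 1] ?_ ?_ ?_ ?_ ?_ ?_
  · simp [Fin.forall_fin_succ] <;> norm_num
  · simp [Fin.forall_fin_succ] <;> norm_num
  · simp [Fin.forall_fin_succ, qf] <;> norm_num
  · simp [Fin.forall_fin_succ, qf] <;> norm_num
  · intro _ y hy
    have k0 := hy.1
    have k1 := two_P hy.1 (hy.2.2.2.1 0 rfl).2
    obtain ⟨y1, q1⟩ := hy.2.2.2.2 1 rfl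
    obtain ⟨y2, q2⟩ := hy.2.2.2.1 2 rfl
    simp [qf] at q1 q2
    simp [Bq] <;> linarith [k0 0, k0 1, k0 2, k0 3, k0 4]
  · simp

theorem st_tftfo : HasCenter ![some true, some false, some true, some false, none] := by
  refine center_of _ ![0, 0, 0, 0, 1] ?_ ?_ ?_ ?_ ?_ ?_
  · simp [Fin.forall_fin_succ] <;> norm_num
  · simp [Fin.forall_fin_succ] <;> norm_num
  · simp [Fin.forall_fin_succ, qf] <;> norm_num
  · simp [Fin.forall_fin_succ, qf] <;> norm_num
  · intro _ y hy
    have k0 := hy.1
    have k1 := two_P hy.1 (hy.2.2.2.1 0 rfl).2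
    obtain ⟨y1, q1⟩ := hy.2.2.2.2 1 rfl
    obtain ⟨y2, q2⟩ := hy.2.2.2.1 2 rfl
    obtain ⟨y3, q3⟩ := hy.2.2.2.2 3 rfl
    simp [qf] at q1 q2 q3
    simp [Bq] <;> linarith [k0 0, k0 1, k0 2, k0 3, k0 4]
  · simp

theorem st_tffoo : HasCenter ![some true, some false, some false, none, none] := by
  refine center_of _ ![0, 0, 0, 24, 13] ?_ ?_ ?_ ?_ ?_ ?_
  · simp [Fin.forall_fin_succ] <;> norm_num
  · simp [Fin.forall_fin_succ] <;> norm_num
  · simp [Fin.forall_fin_succ, qf] <;> norm_num
  · simp [Fin.forall_fin_succ, qf] <;> norm_num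
  · intro _ y hy
    have k0 := hy.1
    have k1 := two_P hy.1 (hy.2.2.2.1 0 rfl).2
    obtain ⟨y1, q1⟩ := hy.2.2.2.2 1 rfl
    obtain ⟨y2, q2⟩ := hy.2.2.2.2 2 rfl
    simp [qf] at q1 q2
    simp [Bq] <;> linarith [k0 0, k0 1, k0 2, k0 3, k0 4]
  · simp

theorem st_foooo : HasCenter ![some false, none, none, none, none] := by
  refine center_of _ ![0, 1, 2, 2, 1] ?_ ?_ ?_ ?_ ?_ ?_
  · simp [Fin.forall_fin_succ] <;> norm_num
  · simp [Fin.forall_fin_succ] <;> norm_num
  · simp [Fin.forall_fin_succ, qf] <;> norm_num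
  · simp [Fin.forall_fin_succ, qf] <;> norm_num
  · simp
  · intro _ y hy
    have k0 := hy.1
    have k1 := two_N hy.1 (hy.2.2.2.2 0 rfl).2
    simp [Bq] <;> linarith [k0 0, k0 1, k0 2, k0 3, k0 4]

theorem st_fooot : HasCenter ![some false, none, none, none, some true] := by
  refine center_of _ ![0, 1, 1, 2, 0] ?_ ?_ ?_ ?_ ?_ ?_
  · simp [Fin.forall_fin_succ] <;> norm_num
  · simp [Fin.forall_fin_succ] <;> norm_num
  · simp [Fin.forall_fin_succ, qf] <;> norm_num
  · simp [Fin.forall_fin_succ, qf] <;> norm_num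
  · simp
  · intro _ y hy
    have k0 := hy.1
    have k1 := two_N hy.1 (hy.2.2.2.2 0 rfl).2
    obtain ⟨y4, q4⟩ := hy.2.2.2.1 4 rfl
    simp [qf] at q4
    simp [Bq] <;> linarith [k0 0, k0 1, k0 2, k0 3, k0 4]

theorem st_fooof : HasCenter ![some false, none, none, none, some false] := by
  refine center_of _ ![0, 1, 2, 2, 0] ?_ ?_ ?_ ?_ ?_ ?_
  · simp [Fin.forall_fin_succ] <;> norm_num
  · simp [Fin.forall_fin_succ] <;> norm_num
  · simp [Fin.forall_fin_succ, qf] <;> norm_num
  · simp [Fin.forall_fin_succ, qf] <;> norm_num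
  · simp
  · intro _ y hy
    have k0 := hy.1
    have k1 := two_N hy.1 (hy.2.2.2.2 0 rfl).2
    obtain ⟨y4, q4⟩ := hy.2.2.2.2 4 rfl
    simp [qf] at q4
    simp [Bq] <;> linarith [k0 0, k0 1, k0 2, k0 3, k0 4]

theorem st_foofo : HasCenter ![some false, none, none, some false, none] := by
  refine center_of _ ![0, 1, 6, 0, 1] ?_ ?_ ?_ ?_ ?_ ?_
  · simp [Fin.forall_fin_succ] <;> norm_num
  · simp [Fin.forall_fin_succ] <;> norm_num
  · simp [Fin.forall_fin_succ, qf] <;> norm_num
  · simp [Fin.forall_fin_succ, qf] <;> norm_num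
  · simp
  · intro _ y hy
    have k0 := hy.1
    have k1 := two_N hy.1 (hy.2.2.2.2 0 rfl).2
    obtain ⟨y3, q3⟩ := hy.2.2.2.2 3 rfl
    simp [qf] at q3
    simp [Bq] <;> linarith [k0 0, k0 1, k0 2, k0 3, k0 4]

theorem st_fooff : HasCenter ![some false, none, none, some false, some false] := by
  refine center_of _ ![0, 1, 3, 0, 0] ?_ ?_ ?_ ?_ ?_ ?_
  · simp [Fin.forall_fin_succ] <;> norm_num
  · simp [Fin.forall_fin_succ] <;> norm_num
  · simp [Fin.forall_fin_succ, qf] <;> norm_num
  · simp [Fin.forall_fin_succ, qf] <;> norm_num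
  · simp
  · intro _ y hy
    have k0 := hy.1
    have k1 := two_N hy.1 (hy.2.2.2.2 0 rfl).2
    obtain ⟨y3, q3⟩ := hy.2.2.2.2 3 rfl
    obtain ⟨y4, q4⟩ := hy.2.2.2.2 4 rfl
    simp [qf] at q3 q4
    simp [Bq] <;> linarith [k0 0, k0 1, k0 2, k0 3, k0 4]

theorem st_fofoo : HasCenter ![some false, none, some false, none, none] := by
  refine center_of _ ![0, 1, 0, 6, 1] ?_ ?_ ?_ ?_ ?_ ?_
  · simp [Fin.forall_fin_succ] <;> norm_num
  · simp [Fin.forall_fin_succ] <;> norm_num
  · simp [Fin.forall_fin_succ, qf] <;> norm_num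
  · simp [Fin.forall_fin_succ, qf] <;> norm_num
  · simp
  · intro _ y hy
    have k0 := hy.1
    have k1 := two_N hy.1 (hy.2.2.2.2 0 rfl).2
    obtain ⟨y2, q2⟩ := hy.2.2.2.2 2 rfl
    simp [qf] at q2
    simp [Bq] <;> linarith [k0 0, k0 1, k0 2, k0 3, k0 4]

theorem st_fofot : HasCenter ![some false, none, some false, none, some true] := by
  refine center_of _ ![0, 1, 0, 1, 0] ?_ ?_ ?_ ?_ ?_ ?_
  · simp [Fin.forall_fin_succ] <;> norm_num
  · simp [Fin.forall_fin_succ] <;> norm_num
  · simp [Fin.forall_fin_succ, qf] <;> norm_num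
  · simp [Fin.forall_fin_succ, qf] <;> norm_num
  · simp
  · intro _ y hy
    have k0 := hy.1
    have k1 := two_N hy.1 (hy.2.2.2.2 0 rfl).2
    obtain ⟨y2, q2⟩ := hy.2.2.2.2 2 rfl
    obtain ⟨y4, q4⟩ := hy.2.2.2.1 4 rfl
    simp [qf] at q2 q4
    simp [Bq] <;> linarith [k0 0, k0 1, k0 2, k0 3, k0 4]

theorem st_fofof : HasCenter ![some false, none, some false, none, some false] := by
  refine center_of _ ![0, 24, 0, 13, 0] ?_ ?_ ?_ ?_ ?_ ?_
  · simp [Fin.forall_fin_succ] <;> norm_num
  · simp [Fin.forall_fin_succ] <;> norm_num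
  · simp [Fin.forall_fin_succ, qf] <;> norm_num
  · simp [Fin.forall_fin_succ, qf] <;> norm_num
  · simp
  · intro _ y hy
    have k0 := hy.1
    have k1 := two_N hy.1 (hy.2.2.2.2 0 rfl).2
    obtain ⟨y2, q2⟩ := hy.2.2.2.2 2 rfl
    obtain ⟨y4, q4⟩ := hy.2.2.2.2 4 rfl
    simp [qf] at q2 q4
    simp [Bq] <;> linarith [k0 0, k0 1, k0 2, k0 3, k0 4]

theorem st_ftooo : HasCenter ![some false, some true, none, none, none] := by
  refine center_of _ ![0, 0, 2, 1, 1] ?_ ?_ ?_ ?_ ?_ ?_
  · simp [Fin.forall_fin_succ] <;> norm_num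
  · simp [Fin.forall_fin_succ] <;> norm_num
  · simp [Fin.forall_fin_succ, qf] <;> norm_num
  · simp [Fin.forall_fin_succ, qf] <;> norm_num
  · simp
  · intro _ y hy
    have k0 := hy.1
    have k1 := two_N hy.1 (hy.2.2.2.2 0 rfl).2
    obtain ⟨y1, q1⟩ := hy.2.2.2.1 1 rfl
    simp [qf] at q1
    simp [Bq] <;> linarith [k0 0, k0 1, k0 2, k0 3, k0 4]

theorem st_ftoot : HasCenter ![some false, some true, none, none, some true] := by
  refine center_of _ ![0, 0, 1, 1, 0] ?_ ?_ ?_ ?_ ?_ ?_
  · simp [Fin.forall_fin_succ] <;> norm_num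
  · simp [Fin.forall_fin_succ] <;> norm_num
  · simp [Fin.forall_fin_succ, qf] <;> norm_num
  · simp [Fin.forall_fin_succ, qf] <;> norm_num
  · simp
  · intro _ y hy
    have k0 := hy.1
    have k1 := two_N hy.1 (hy.2.2.2.2 0 rfl).2
    obtain ⟨y1, q1⟩ := hy.2.2.2.1 1 rfl
    obtain ⟨y4, q4⟩ := hy.2.2.2.1 4 rfl
    simp [qf] at q1 q4
    simp [Bq] <;> linarith [k0 0, k0 1, k0 2, k0 3, k0 4]

theorem st_ftoof : HasCenter ![some false, some true, none, none, some false] := by
  refine center_of _ ![0, 0, 2, 1, 0] ?_ ?_ ?_ ?_ ?_ ?_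
  · simp [Fin.forall_fin_succ] <;> norm_num
  · simp [Fin.forall_fin_succ] <;> norm_num
  · simp [Fin.forall_fin_succ, qf] <;> norm_num
  · simp [Fin.forall_fin_succ, qf] <;> norm_num
  · simp
  · intro _ y hy
    have k0 := hy.1
    have k1 := two_N hy.1 (hy.2.2.2.2 0 rfl).2
    obtain ⟨y1, q1⟩ := hy.2.2.2.1 1 rfl
    obtain ⟨y4, q4⟩ := hy.2.2.2.2 4 rfl
    simp [qf] at q1 q4
    simp [Bq] <;> linarith [k0 0, k0 1, k0 2, k0 3, k0 4]

theorem st_ftofo : HasCenter ![some false, some true, none, some false, none] := by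
  refine center_of _ ![0, 0, 1, 0, 1] ?_ ?_ ?_ ?_ ?_ ?_
  · simp [Fin.forall_fin_succ] <;> norm_num
  · simp [Fin.forall_fin_succ] <;> norm_num
  · simp [Fin.forall_fin_succ, qf] <;> norm_num
  · simp [Fin.forall_fin_succ, qf] <;> norm_num
  · simp
  · intro _ y hy
    have k0 := hy.1
    have k1 := two_N hy.1 (hy.2.2.2.2 0 rfl).2
    obtain ⟨y1, q1⟩ := hy.2.2.2.1 1 rfl
    obtain ⟨y3, q3⟩ := hy.2.2.2.2 3 rfl
    simp [qf] at q1 q3
    simp [Bq] <;> linarith [k0 0, k0 1, k0 2, k0 3, k0 4]

theorem st_ftoff : HasCenter ![some false, some true, none, some false, some false] := by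
  refine center_of _ ![0, 0, 1, 0, 0] ?_ ?_ ?_ ?_ ?_ ?_
  · simp [Fin.forall_fin_succ] <;> norm_num
  · simp [Fin.forall_fin_succ] <;> norm_num
  · simp [Fin.forall_fin_succ, qf] <;> norm_num
  · simp [Fin.forall_fin_succ, qf] <;> norm_num
  · simp
  · intro _ y hy
    have k0 := hy.1
    have k1 := two_N hy.1 (hy.2.2.2.2 0 rfl).2
    obtain ⟨y1, q1⟩ := hy.2.2.2.1 1 rfl
    obtain ⟨y3, q3⟩ := hy.2.2.2.2 3 rfl
    obtain ⟨y4, q4⟩ := hy.2.2.2.2 4 rfl
    simp [qf] at q1 q3 q4
    simp [Bq] <;> linarith [k0 0, k0 1, k0 2, k0 3, k0 4]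

theorem st_ffooo : HasCenter ![some false, some false, none, none, none] := by
  refine center_of _ ![0, 0, 2, 2, 1] ?_ ?_ ?_ ?_ ?_ ?_
  · simp [Fin.forall_fin_succ] <;> norm_num
  · simp [Fin.forall_fin_succ] <;> norm_num
  · simp [Fin.forall_fin_succ, qf] <;> norm_num
  · simp [Fin.forall_fin_succ, qf] <;> norm_num
  · simp
  · intro _ y hy
    have k0 := hy.1
    have k1 := two_N hy.1 (hy.2.2.2.2 0 rfl).2
    obtain ⟨y1, q1⟩ := hy.2.2.2.2 1 rfl
    simp [qf] at q1
    simp [Bq] <;> linarith [k0 0, k0 1, k0 2, k0 3, k0 4]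

theorem st_ffoot : HasCenter ![some false, some false, none, none, some true] := by
  refine center_of _ ![0, 0, 1, 2, 0] ?_ ?_ ?_ ?_ ?_ ?_
  · simp [Fin.forall_fin_succ] <;> norm_num
  · simp [Fin.forall_fin_succ] <;> norm_num
  · simp [Fin.forall_fin_succ, qf] <;> norm_num
  · simp [Fin.forall_fin_succ, qf] <;> norm_num
  · simp
  · intro _ y hy
    have k0 := hy.1
    have k1 := two_N hy.1 (hy.2.2.2.2 0 rfl).2
    obtain ⟨y1, q1⟩ := hy.2.2.2.2 1 rfl
    obtain ⟨y4, q4⟩ := hy.2.2.2.1 4 rfl
    simp [qf] at q1 q4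
    simp [Bq] <;> linarith [k0 0, k0 1, k0 2, k0 3, k0 4]

theorem st_ffofo : HasCenter ![some false, some false, none, some false, none] := by
  refine center_of _ ![0, 0, 13, 0, 24] ?_ ?_ ?_ ?_ ?_ ?_
  · simp [Fin.forall_fin_succ] <;> norm_num
  · simp [Fin.forall_fin_succ] <;> norm_num
  · simp [Fin.forall_fin_succ, qf] <;> norm_num
  · simp [Fin.forall_fin_succ, qf] <;> norm_num
  · simp
  · intro _ y hy
    have k0 := hy.1
    have k1 := two_N hy.1 (hy.2.2.2.2 0 rfl).2
    obtain ⟨y1, q1⟩ := hy.2.2.2.2 1 rfl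
    obtain ⟨y3, q3⟩ := hy.2.2.2.2 3 rfl
    simp [qf] at q1 q3
    simp [Bq] <;> linarith [k0 0, k0 1, k0 2, k0 3, k0 4]

theorem st_fffoo : HasCenter ![some false, some false, some false, none, none] := by
  refine center_of _ ![0, 0, 0, 3, 1] ?_ ?_ ?_ ?_ ?_ ?_
  · simp [Fin.forall_fin_succ] <;> norm_num
  · simp [Fin.forall_fin_succ] <;> norm_num
  · simp [Fin.forall_fin_succ, qf] <;> norm_num
  · simp [Fin.forall_fin_succ, qf] <;> norm_num
  · simp
  · intro _ y hy
    have k0 := hy.1
    have k1 := two_N hy.1 (hy.2.2.2.2 0 rfl).2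
    obtain ⟨y1, q1⟩ := hy.2.2.2.2 1 rfl
    obtain ⟨y2, q2⟩ := hy.2.2.2.2 2 rfl
    simp [qf] at q1 q2
    simp [Bq] <;> linarith [k0 0, k0 1, k0 2, k0 3, k0 4]

theorem st_fffot : HasCenter ![some false, some false, some false, none, some true] := by
  refine center_of _ ![0, 0, 0, 1, 0] ?_ ?_ ?_ ?_ ?_ ?_
  · simp [Fin.forall_fin_succ] <;> norm_num
  · simp [Fin.forall_fin_succ] <;> norm_num
  · simp [Fin.forall_fin_succ, qf] <;> norm_num
  · simp [Fin.forall_fin_succ, qf] <;> norm_num
  · simp
  · intro _ y hy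
    have k0 := hy.1
    have k1 := two_N hy.1 (hy.2.2.2.2 0 rfl).2
    obtain ⟨y1, q1⟩ := hy.2.2.2.2 1 rfl
    obtain ⟨y2, q2⟩ := hy.2.2.2.2 2 rfl
    obtain ⟨y4, q4⟩ := hy.2.2.2.1 4 rfl
    simp [qf] at q1 q2 q4
    simp [Bq] <;> linarith [k0 0, k0 1, k0 2, k0 3, k0 4]

theorem hasCenter (τ : Fin 5 → Option Bool) (h : PClq τ) : HasCenter τ := by
  obtain ⟨a0, a1, a2, a3, a4, rfl⟩ : ∃ a0 a1 a2 a3 a4, τ = ![a0, a1, a2, a3, a4] :=
    ⟨τ 0, τ 1, τ 2, τ 3, τ 4, by
      funext i
      fin_cases i <;> rfl⟩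
  rcases a0 with _ | (_ | _) <;> rcases a1 with _ | (_ | _) <;> rcases a2 with _ | (_ | _) <;>
    rcases a3 with _ | (_ | _) <;> rcases a4 with _ | (_ | _)
  · exact st_ooooo
  · exact st_oooof
  · exact st_oooot
  · exact st_ooofo
  · exact st_oooff
  · exact absurd (h 3 4 false true (by decide) rfl rfl) (by decide)
  · exact st_oooto
  · exact st_oootf
  · exact st_ooott
  · exact st_oofoo
  · exact st_oofof
  · exact st_oofot
  · exact absurd (h 2 3 false false (by decide) rfl rfl) (by decide)
  · exact absurd (h 2 3 false false (by decide) rfl rfl) (by decide)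
  · exact absurd (h 2 3 false false (by decide) rfl rfl) (by decide)
  · exact st_oofto
  · exact st_ooftf
  · exact st_ooftt
  · exact st_ootoo
  · exact absurd (h 2 4 true false (by decide) rfl rfl) (by decide)
  · exact st_ootot
  · exact st_ootfo
  · exact absurd (h 2 4 true false (by decide) rfl rfl) (by decide)
  · exact absurd (h 3 4 false true (by decide) rfl rfl) (by decide)
  · exact st_ootto
  · exact absurd (h 2 4 true false (by decide) rfl rfl) (by decide)
  · exact st_oottt
  · exact st_ofooo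
  · exact absurd (h 1 4 false false (by decide) rfl rfl) (by decide)
  · exact st_ofoot
  · exact st_ofofo
  · exact absurd (h 1 4 false false (by decide) rfl rfl) (by decide)
  · exact absurd (h 3 4 false true (by decide) rfl rfl) (by decide)
  · exact absurd (h 1 3 false true (by decide) rfl rfl) (by decide)
  · exact absurd (h 1 3 false true (by decide) rfl rfl) (by decide)
  · exact absurd (h 1 3 false true (by decide) rfl rfl) (by decide)
  · exact st_offoo
  · exact absurd (h 1 4 false false (by decide) rfl rfl) (by decide)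
  · exact st_offot
  · exact absurd (h 2 3 false false (by decide) rfl rfl) (by decide)
  · exact absurd (h 1 4 false false (by decide) rfl rfl) (by decide)
  · exact absurd (h 2 3 false false (by decide) rfl rfl) (by decide)
  · exact absurd (h 1 3 false true (by decide) rfl rfl) (by decide)
  · exact absurd (h 1 3 false true (by decide) rfl rfl) (by decide)
  · exact absurd (h 1 3 false true (by decide) rfl rfl) (by decide)
  · exact st_oftoo
  · exact absurd (h 1 4 false false (by decide) rfl rfl) (by decide)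
  · exact st_oftot
  · exact st_oftfo
  · exact absurd (h 1 4 false false (by decide) rfl rfl) (by decide)
  · exact absurd (h 3 4 false true (by decide) rfl rfl) (by decide)
  · exact absurd (h 1 3 false true (by decide) rfl rfl) (by decide)
  · exact absurd (h 1 3 false true (by decide) rfl rfl) (by decide)
  · exact absurd (h 1 3 false true (by decide) rfl rfl) (by decide)
  · exact st_otooo
  · exact st_otoof
  · exact st_otoot
  · exact st_otofo
  · exact st_otoff
  · exact absurd (h 3 4 false true (by decide) rfl rfl) (by decide)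
  · exact st_ototo
  · exact st_ototf
  · exact st_otott
  · exact absurd (h 1 2 true false (by decide) rfl rfl) (by decide)
  · exact absurd (h 1 2 true false (by decide) rfl rfl) (by decide)
  · exact absurd (h 1 2 true false (by decide) rfl rfl) (by decide)
  · exact absurd (h 1 2 true false (by decide) rfl rfl) (by decide)
  · exact absurd (h 1 2 true false (by decide) rfl rfl) (by decide)
  · exact absurd (h 1 2 true false (by decide) rfl rfl) (by decide)
  · exact absurd (h 1 2 true false (by decide) rfl rfl) (by decide)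
  · exact absurd (h 1 2 true false (by decide) rfl rfl) (by decide)
  · exact absurd (h 1 2 true false (by decide) rfl rfl) (by decide)
  · exact st_ottoo
  · exact absurd (h 2 4 true false (by decide) rfl rfl) (by decide)
  · exact st_ottot
  · exact st_ottfo
  · exact absurd (h 2 4 true false (by decide) rfl rfl) (by decide)
  · exact absurd (h 3 4 false true (by decide) rfl rfl) (by decide)
  · exact st_ottto
  · exact absurd (h 2 4 true false (by decide) rfl rfl) (by decide)
  · exact st_otttt
  · exact st_foooo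
  · exact st_fooof
  · exact st_fooot
  · exact st_foofo
  · exact st_fooff
  · exact absurd (h 3 4 false true (by decide) rfl rfl) (by decide)
  · exact absurd (h 0 3 false true (by decide) rfl rfl) (by decide)
  · exact absurd (h 0 3 false true (by decide) rfl rfl) (by decide)
  · exact absurd (h 0 3 false true (by decide) rfl rfl) (by decide)
  · exact st_fofoo
  · exact st_fofof
  · exact st_fofot
  · exact absurd (h 2 3 false false (by decide) rfl rfl) (by decide)
  · exact absurd (h 2 3 false false (by decide) rfl rfl) (by decide)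
  · exact absurd (h 2 3 false false (by decide) rfl rfl) (by decide)
  · exact absurd (h 0 3 false true (by decide) rfl rfl) (by decide)
  · exact absurd (h 0 3 false true (by decide) rfl rfl) (by decide)
  · exact absurd (h 0 3 false true (by decide) rfl rfl) (by decide)
  · exact absurd (h 0 2 false true (by decide) rfl rfl) (by decide)
  · exact absurd (h 0 2 false true (by decide) rfl rfl) (by decide)
  · exact absurd (h 0 2 false true (by decide) rfl rfl) (by decide)
  · exact absurd (h 0 2 false true (by decide) rfl rfl) (by decide)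
  · exact absurd (h 0 2 false true (by decide) rfl rfl) (by decide)
  · exact absurd (h 0 2 false true (by decide) rfl rfl) (by decide)
  · exact absurd (h 0 2 false true (by decide) rfl rfl) (by decide)
  · exact absurd (h 0 2 false true (by decide) rfl rfl) (by decide)
  · exact absurd (h 0 2 false true (by decide) rfl rfl) (by decide)
  · exact st_ffooo
  · exact absurd (h 1 4 false false (by decide) rfl rfl) (by decide)
  · exact st_ffoot
  · exact st_ffofo
  · exact absurd (h 1 4 false false (by decide) rfl rfl) (by decide)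
  · exact absurd (h 3 4 false true (by decide) rfl rfl) (by decide)
  · exact absurd (h 0 3 false true (by decide) rfl rfl) (by decide)
  · exact absurd (h 0 3 false true (by decide) rfl rfl) (by decide)
  · exact absurd (h 0 3 false true (by decide) rfl rfl) (by decide)
  · exact st_fffoo
  · exact absurd (h 1 4 false false (by decide) rfl rfl) (by decide)
  · exact st_fffot
  · exact absurd (h 2 3 false false (by decide) rfl rfl) (by decide)
  · exact absurd (h 1 4 false false (by decide) rfl rfl) (by decide)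
  · exact absurd (h 2 3 false false (by decide) rfl rfl) (by decide)
  · exact absurd (h 0 3 false true (by decide) rfl rfl) (by decide)
  · exact absurd (h 0 3 false true (by decide) rfl rfl) (by decide)
  · exact absurd (h 0 3 false true (by decide) rfl rfl) (by decide)
  · exact absurd (h 0 2 false true (by decide) rfl rfl) (by decide)
  · exact absurd (h 0 2 false true (by decide) rfl rfl) (by decide)
  · exact absurd (h 0 2 false true (by decide) rfl rfl) (by decide)
  · exact absurd (h 0 2 false true (by decide) rfl rfl) (by decide)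
  · exact absurd (h 0 2 false true (by decide) rfl rfl) (by decide)
  · exact absurd (h 0 2 false true (by decide) rfl rfl) (by decide)
  · exact absurd (h 0 2 false true (by decide) rfl rfl) (by decide)
  · exact absurd (h 0 2 false true (by decide) rfl rfl) (by decide)
  · exact absurd (h 0 2 false true (by decide) rfl rfl) (by decide)
  · exact st_ftooo
  · exact st_ftoof
  · exact st_ftoot
  · exact st_ftofo
  · exact st_ftoff
  · exact absurd (h 3 4 false true (by decide) rfl rfl) (by decide)
  · exact absurd (h 0 3 false true (by decide) rfl rfl) (by decide)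
  · exact absurd (h 0 3 false true (by decide) rfl rfl) (by decide)
  · exact absurd (h 0 3 false true (by decide) rfl rfl) (by decide)
  · exact absurd (h 1 2 true false (by decide) rfl rfl) (by decide)
  · exact absurd (h 1 2 true false (by decide) rfl rfl) (by decide)
  · exact absurd (h 1 2 true false (by decide) rfl rfl) (by decide)
  · exact absurd (h 1 2 true false (by decide) rfl rfl) (by decide)
  · exact absurd (h 1 2 true false (by decide) rfl rfl) (by decide)
  · exact absurd (h 1 2 true false (by decide) rfl rfl) (by decide)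
  · exact absurd (h 0 3 false true (by decide) rfl rfl) (by decide)
  · exact absurd (h 0 3 false true (by decide) rfl rfl) (by decide)
  · exact absurd (h 0 3 false true (by decide) rfl rfl) (by decide)
  · exact absurd (h 0 2 false true (by decide) rfl rfl) (by decide)
  · exact absurd (h 0 2 false true (by decide) rfl rfl) (by decide)
  · exact absurd (h 0 2 false true (by decide) rfl rfl) (by decide)
  · exact absurd (h 0 2 false true (by decide) rfl rfl) (by decide)
  · exact absurd (h 0 2 false true (by decide) rfl rfl) (by decide)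
  · exact absurd (h 0 2 false true (by decide) rfl rfl) (by decide)
  · exact absurd (h 0 2 false true (by decide) rfl rfl) (by decide)
  · exact absurd (h 0 2 false true (by decide) rfl rfl) (by decide)
  · exact absurd (h 0 2 false true (by decide) rfl rfl) (by decide)
  · exact st_toooo
  · exact st_tooof
  · exact absurd (h 0 4 true true (by decide) rfl rfl) (by decide)
  · exact st_toofo
  · exact st_tooff
  · exact absurd (h 0 4 true true (by decide) rfl rfl) (by decide)
  · exact st_tooto
  · exact st_tootf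
  · exact absurd (h 0 4 true true (by decide) rfl rfl) (by decide)
  · exact st_tofoo
  · exact st_tofof
  · exact absurd (h 0 4 true true (by decide) rfl rfl) (by decide)
  · exact absurd (h 2 3 false false (by decide) rfl rfl) (by decide)
  · exact absurd (h 2 3 false false (by decide) rfl rfl) (by decide)
  · exact absurd (h 0 4 true true (by decide) rfl rfl) (by decide)
  · exact st_tofto
  · exact st_toftf
  · exact absurd (h 0 4 true true (by decide) rfl rfl) (by decide)
  · exact st_totoo
  · exact absurd (h 2 4 true false (by decide) rfl rfl) (by decide)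
  · exact absurd (h 0 4 true true (by decide) rfl rfl) (by decide)
  · exact st_totfo
  · exact absurd (h 2 4 true false (by decide) rfl rfl) (by decide)
  · exact absurd (h 0 4 true true (by decide) rfl rfl) (by decide)
  · exact st_totto
  · exact absurd (h 2 4 true false (by decide) rfl rfl) (by decide)
  · exact absurd (h 0 4 true true (by decide) rfl rfl) (by decide)
  · exact st_tfooo
  · exact absurd (h 1 4 false false (by decide) rfl rfl) (by decide)
  · exact absurd (h 0 4 true true (by decide) rfl rfl) (by decide)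
  · exact st_tfofo
  · exact absurd (h 1 4 false false (by decide) rfl rfl) (by decide)
  · exact absurd (h 0 4 true true (by decide) rfl rfl) (by decide)
  · exact absurd (h 1 3 false true (by decide) rfl rfl) (by decide)
  · exact absurd (h 1 3 false true (by decide) rfl rfl) (by decide)
  · exact absurd (h 0 4 true true (by decide) rfl rfl) (by decide)
  · exact st_tffoo
  · exact absurd (h 1 4 false false (by decide) rfl rfl) (by decide)
  · exact absurd (h 0 4 true true (by decide) rfl rfl) (by decide)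
  · exact absurd (h 2 3 false false (by decide) rfl rfl) (by decide)
  · exact absurd (h 1 4 false false (by decide) rfl rfl) (by decide)
  · exact absurd (h 0 4 true true (by decide) rfl rfl) (by decide)
  · exact absurd (h 1 3 false true (by decide) rfl rfl) (by decide)
  · exact absurd (h 1 3 false true (by decide) rfl rfl) (by decide)
  · exact absurd (h 0 4 true true (by decide) rfl rfl) (by decide)
  · exact st_tftoo
  · exact absurd (h 1 4 false false (by decide) rfl rfl) (by decide)
  · exact absurd (h 0 4 true true (by decide) rfl rfl) (by decide)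
  · exact st_tftfo
  · exact absurd (h 1 4 false false (by decide) rfl rfl) (by decide)
  · exact absurd (h 0 4 true true (by decide) rfl rfl) (by decide)
  · exact absurd (h 1 3 false true (by decide) rfl rfl) (by decide)
  · exact absurd (h 1 3 false true (by decide) rfl rfl) (by decide)
  · exact absurd (h 0 4 true true (by decide) rfl rfl) (by decide)
  · exact absurd (h 0 1 true true (by decide) rfl rfl) (by decide)
  · exact absurd (h 0 1 true true (by decide) rfl rfl) (by decide)
  · exact absurd (h 0 1 true true (by decide) rfl rfl) (by decide)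
  · exact absurd (h 0 1 true true (by decide) rfl rfl) (by decide)
  · exact absurd (h 0 1 true true (by decide) rfl rfl) (by decide)
  · exact absurd (h 0 1 true true (by decide) rfl rfl) (by decide)
  · exact absurd (h 0 1 true true (by decide) rfl rfl) (by decide)
  · exact absurd (h 0 1 true true (by decide) rfl rfl) (by decide)
  · exact absurd (h 0 1 true true (by decide) rfl rfl) (by decide)
  · exact absurd (h 0 1 true true (by decide) rfl rfl) (by decide)
  · exact absurd (h 0 1 true true (by decide) rfl rfl) (by decide)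
  · exact absurd (h 0 1 true true (by decide) rfl rfl) (by decide)
  · exact absurd (h 0 1 true true (by decide) rfl rfl) (by decide)
  · exact absurd (h 0 1 true true (by decide) rfl rfl) (by decide)
  · exact absurd (h 0 1 true true (by decide) rfl rfl) (by decide)
  · exact absurd (h 0 1 true true (by decide) rfl rfl) (by decide)
  · exact absurd (h 0 1 true true (by decide) rfl rfl) (by decide)
  · exact absurd (h 0 1 true true (by decide) rfl rfl) (by decide)
  · exact absurd (h 0 1 true true (by decide) rfl rfl) (by decide)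
  · exact absurd (h 0 1 true true (by decide) rfl rfl) (by decide)
  · exact absurd (h 0 1 true true (by decide) rfl rfl) (by decide)
  · exact absurd (h 0 1 true true (by decide) rfl rfl) (by decide)
  · exact absurd (h 0 1 true true (by decide) rfl rfl) (by decide)
  · exact absurd (h 0 1 true true (by decide) rfl rfl) (by decide)
  · exact absurd (h 0 1 true true (by decide) rfl rfl) (by decide)
  · exact absurd (h 0 1 true true (by decide) rfl rfl) (by decide)
  · exact absurd (h 0 1 true true (by decide) rfl rfl) (by decide)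

theorem strU_ae (τ : Fin 5 → Option Bool) (h : PClq τ) : AE (StrU τ) := (hasCenter τ h).ae

end Pool.KT
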