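import Pool.Agent.Work.MP_70ab54_kt.StrataB

/-!
# MP_70ab54: emptiness of the strata which are not cliques (helper81)
-/

set_option autoImplicit false

namespace Pool.KT
open Set Topology

/-- sign condition -/
def sgnc (b : Bool) (q : ℝ) : Prop := if b then 0 < q else q < 0

theorem pair_empty (m n : Fin 5) (b c : Bool) (hmn : m < n) (hadj : ¬ adj (m, b) (n, c))
    (u : Fin 5 → ℝ) (hu : ∀ i, 0 ≤ u i) (h1 : u m = 0) (h2 : u n = 0) (h3 : sgnc b (qf m u))
    (h4 : sgnc c (qf n u)) : False := by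
  have u0 := hu 0
  have u1 := hu 1
  have u2 := hu 2
  have u3 := hu 3
  have u4 := hu 4
  fin_cases m <;> fin_cases n <;> first | (exact absurd hmn (by decide)) | skip
  all_goals rcases b with _ | _ <;> rcases c with _ | _ <;> first | (exact hadj (by decide)) | skip
  all_goals simp [sgnc, qf] at h1 h2 h3 h4
  all_goals simp [h1, h2] at h3 h4
  all_goals first
    | linarith
    | nlinarith [mul_nonneg u1 u2, mul_nonneg u1 u3, mul_nonneg u1 u4, mul_nonneg u2 u3,
        mul_nonneg u2 u4, mul_nonneg u3 u4, mul_nonneg u1 u1, mul_nonneg u2 u2, mul_nonneg u3 u3,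
        mul_nonneg u4 u4, mul_nonneg u1 (sub_nonneg.2 h4.le), mul_nonneg u2 (sub_nonneg.2 h4.le),
        mul_nonneg u3 (sub_nonneg.2 h4.le), mul_nonneg u4 (sub_nonneg.2 h4.le),
        mul_nonneg (sub_nonneg.2 h4.le) (sub_nonneg.2 h4.le)]

theorem adj_symm {s t : Mir} (h : adj s t) : adj t s :=
  ⟨h.1.symm, fun hd => h.2 hd.symm⟩

theorem sgnc_of_str {τ : Fin 5 → Option Bool} {u : Fin 5 → ℝ} (hu : u ∈ StrU τ) {m : Fin 5}
    {b : Bool} (hm : τ m = some b) : u m = 0 ∧ sgnc b (qf m u) := by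
  rcases b with _ | _
  · exact hu.2.2.2.2 m hm
  · exact hu.2.2.2.1 m hm

theorem strU_empty (τ : Fin 5 → Option Bool) (h : ¬ PClq τ) : StrU τ = ∅ := by
  by_contra hne
  obtain ⟨u, hu⟩ := nonempty_iff_ne_empty.2 hne
  refine h fun m n b c hmn hm hn => ?_
  by_contra hadj
  obtain ⟨m0, mq⟩ := sgnc_of_str hu hm
  obtain ⟨n0, nq⟩ := sgnc_of_str hu hn
  rcases lt_or_gt_of_ne hmn with hlt | hgt
  · exact pair_empty m n b c hlt hadj u hu.1 m0 n0 mq nq
  · exact pair_empty n m c b hgt (fun h' => hadj (adj_symm h')) u hu.1 n0 m0 nq mq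

theorem strU_cases (τ : Fin 5 → Option Bool) : AE (StrU τ) ∨ StrU τ = ∅ := by
  by_cases h : PClq τ
  · exact Or.inl (strU_ae τ h)
  · exact Or.inr (strU_empty τ h)

end Pool.KT
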