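import Pool.Agent.Work.MP_70ab54_kt.InterfaceC
import Pool.Agent.Work.MP_70ab54_kt.InterfaceQ
import Pool.Agent.Work.MP_70ab54_kt.InterfaceS

/-!
# MP_70ab54: the four charts form a `Table` (helper91)

`PhiC m (w, p) = Psi m w p`, thickness `dd`.  `table_inst`: the position of the charts from the
C-statements.  `lset_diff`: `Lset PhiC \ Tor 0 = Mt`.  `reg_end`: the ends.
-/

set_option autoImplicit false

namespace Pool.KT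

open Set Topology
open scoped ContDiff

/-- the charts -/
noncomputable def PhiC (m : Fin 5) (q : ℂ × R3) : E5 := Psi m q.1 q.2

theorem dd_pos : 0 < dd := by unfold dd; norm_num

theorem dd_lt : dd < 1 := by unfold dd; norm_num

/-- regions of the charts in terms of `Wc`, `Pc` -/
theorem reg_PhiC (c1 : Stmt_C1) (c2 : Stmt_C2) {m : Fin 5} (hm : m ≠ 0) (S : Set R3) :
    reg (PhiC m) S = {x | Wc m x ≠ 0 ∧ Pc m x ∈ S} := by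
  ext x
  constructor
  · rintro ⟨q, hq, rfl⟩
    obtain ⟨h1, h2, _⟩ := c1 m hm q.1 hq.1 q.2
    exact ⟨by rw [show Wc m (PhiC m q) = q.1 from h1]; exact hq.1,
      by rw [show Pc m (PhiC m q) = q.2 from h2]; exact hq.2⟩
  · intro hx
    exact ⟨(Wc m x, Pc m x), ⟨hx.1, hx.2⟩, c2 m hm x hx.1⟩

theorem reg_Bd (c1 : Stmt_C1) (c2 : Stmt_C2) {m : Fin 5} (hm : m ≠ 0) (d : ℝ) :
    reg (PhiC m) (Bd d) = Om m d := by
  rw [reg_PhiC c1 c2 hm]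
  ext x
  exact Iff.rfl

theorem reg_Ucirc (c1 : Stmt_C1) (c2 : Stmt_C2) (c5 : Stmt_C5) {m : Fin 5} (hm : m ≠ 0) :
    reg (PhiC m) Ucirc = Tor m := by
  rw [reg_PhiC c1 c2 hm]
  ext x
  exact ((c5 m hm x).2).symm

theorem reg_end (c1 : Stmt_C1) (c2 : Stmt_C2) {m : Fin 5} (hm : m ≠ 0) (e : ℝ) :
    reg (PhiC m) (nu e \ Ucirc) = EndS m e := by
  rw [reg_PhiC c1 c2 hm]
  rfl

/-- a thin round tube lies in the thick neighbourhood of the circle -/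
theorem nu_annulus {e d : ℝ} (he : 0 < e) (he1 : e < 1) (hd : 0 < d) (h : nu e ⊆ Bd d) {p : R3}
    (hp : p ∈ nu e) : 1 - d < ‖p.1‖ ∧ ‖p.1‖ < 1 + d ∧ |p.2| < d := by
  refine ⟨?_, h hp⟩
  by_contra hc
  rw [not_lt] at hc
  have hp' : (2 * p.2) ^ 2 + (nsq p - 1) ^ 2 < e ^ 2 * (nsq p + 1) ^ 2 := hp
  have hn0 : 0 ≤ ‖p.1‖ := norm_nonneg _
  have hs0 : 0 ≤ p.2 ^ 2 := sq_nonneg _
  have hnsq : nsq p = ‖p.1‖ ^ 2 + p.2 ^ 2 := rfl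
  -- `r = ‖p.1‖` is positive
  have hr : (1 - e ^ 2) * (‖p.1‖ ^ 2 + p.2 ^ 2 + 1) ^ 2 < 4 * ‖p.1‖ ^ 2 := by
    rw [hnsq] at hp'
    nlinarith
  have he2 : 0 < 1 - e ^ 2 := by nlinarith
  have hrpos : 0 < ‖p.1‖ := by
    rcases hn0.lt_or_eq with h0 | h0
    · exact h0
    · exfalso
      rw [← h0] at hr
      nlinarith [sq_nonneg ((0 : ℝ) ^ 2 + p.2 ^ 2 + 1)]
  have hr1 : (1 - e ^ 2) * (‖p.1‖ ^ 2 + 1) ^ 2 < 4 * ‖p.1‖ ^ 2 := by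
    have : (1 - e ^ 2) * (‖p.1‖ ^ 2 + 1) ^ 2 ≤
        (1 - e ^ 2) * (‖p.1‖ ^ 2 + p.2 ^ 2 + 1) ^ 2 := by
      apply mul_le_mul_of_nonneg_left _ he2.le
      nlinarith [sq_nonneg ‖p.1‖]
    linarith
  -- the reflected point `1 / r`
  have hq : (((‖p.1‖⁻¹ : ℝ) : ℂ), (0 : ℝ)) ∈ nu e := by
    show (2 * (0 : ℝ)) ^ 2 + (nsq (((‖p.1‖⁻¹ : ℝ) : ℂ), (0 : ℝ)) - 1) ^ 2 <
      e ^ 2 * (nsq (((‖p.1‖⁻¹ : ℝ) : ℂ), (0 : ℝ)) + 1) ^ 2
    have h1 : nsq (((‖p.1‖⁻¹ : ℝ) : ℂ), (0 : ℝ)) = (‖p.1‖ ^ 2)⁻¹ := by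
      unfold nsq
      simp
    rw [h1]
    have h2 : 0 < ‖p.1‖ ^ 2 := by positivity
    set R : ℝ := ‖p.1‖ ^ 2 with hR
    have h3 : (2 * (0 : ℝ)) ^ 2 + (R⁻¹ - 1) ^ 2 = (R⁻¹) ^ 2 * (1 - R) ^ 2 := by
      field_simp
      ring
    have h4 : e ^ 2 * (R⁻¹ + 1) ^ 2 = (R⁻¹) ^ 2 * (e ^ 2 * (1 + R) ^ 2) := by
      field_simp
      try ring
    rw [h3, h4]
    apply mul_lt_mul_of_pos_left _ (by positivity)
    nlinarith
  have h5 := (h hq).1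
  have h6 : ‖((‖p.1‖⁻¹ : ℝ) : ℂ)‖ = ‖p.1‖⁻¹ := by simp
  have h7 : ‖p.1‖⁻¹ < 1 + d := by
    rw [← h6]; exact h5
  have h8 : 1 < (1 + d) * ‖p.1‖ := by
    have := mul_lt_mul_of_pos_right h7 hrpos
    rwa [inv_mul_cancel₀ hrpos.ne'] at this
  nlinarith

theorem reg_nu_subset (c1 : Stmt_C1) (c2 : Stmt_C2) {m : Fin 5} (hm : m ≠ 0) {e : ℝ} (he : 0 < e)
    (he1 : e < 1) (h : nu e ⊆ Bd dd) : reg (PhiC m) (nu e) ⊆ Nn m dd := by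
  rw [reg_PhiC c1 c2 hm]
  rintro x ⟨h1, h2⟩
  exact ⟨h1, nu_annulus he he1 dd_pos h h2⟩

theorem isOpen_Bd (d : ℝ) : IsOpen (Bd d) := by
  have h1 : IsOpen {x : R3 | ‖x.1‖ < 1 + d} :=
    isOpen_lt (continuous_fst.norm) continuous_const
  have h2 : IsOpen {x : R3 | |x.2| < d} :=
    isOpen_lt (continuous_snd.abs) continuous_const
  exact h1.inter h2

theorem isOpen_cyl {S : Set R3} (hS : IsOpen S) : IsOpen (cyl S) := by
  have h1 : IsOpen {q : ℂ × R3 | q.1 ≠ 0} := isOpen_ne_fun continuous_fst continuous_const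
  exact h1.inter (hS.preimage continuous_snd)

theorem chart_PhiC (c1 : Stmt_C1) (c3 : Stmt_C3) (c4 : Stmt_C4) {m : Fin 5}
    (hm : m ≠ 0) : Chart dd (PhiC m) := by
  obtain ⟨s1, s2, s3⟩ := c4 m hm
  have hopen : IsOpen {x : E5 | Wc m x ≠ 0} :=
    isOpen_ne_fun s2.continuous continuous_const
  have hleft : ∀ q ∈ cyl (Bd dd), (fun x : E5 => (Wc m x, Pc m x)) (PhiC m q) = q := by
    intro q hq
    obtain ⟨h1, h2, _⟩ := c1 m hm q.1 hq.1 q.2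
    exact Prod.ext h1 h2
  refine ⟨dd_pos, ?_, ?_, ?_, ?_⟩
  · refine locDiffOn_of_leftInv (g := fun x : E5 => (Wc m x, Pc m x)) ?_
      (isOpen_cyl (isOpen_Bd dd)) (s1.mono fun q hq => hq.1) ?_ hleft
    · simp [Complex.finrank_real_complex]
    · intro q hq
      obtain ⟨h1, _, _⟩ := c1 m hm q.1 hq.1 q.2
      have hmem : PhiC m q ∈ {x : E5 | Wc m x ≠ 0} := by
        show Wc m (PhiC m q) ≠ 0
        rw [show Wc m (PhiC m q) = q.1 from h1]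
        exact hq.1
      refine DifferentiableAt.prodMk (s2.contDiffAt.differentiableAt (by simp)) ?_
      exact (s3.contDiffAt (hopen.mem_nhds hmem)).differentiableAt (by simp)
  · intro q hq q' hq' h
    rw [← hleft q hq, ← hleft q' hq', h]
  · intro t ht q _
    exact (c3 m hm t ht).1 q.1 q.2
  · intro q hq
    exact (c1 m hm q.1 hq.1 q.2).2.2

theorem table_inst (c1 : Stmt_C1) (c2 : Stmt_C2) (c3 : Stmt_C3) (c4 : Stmt_C4)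
    (c7 : Stmt_C7) (c8 : Stmt_C8) (c9 : Stmt_C9) (c11 : Stmt_C11) (c12 : Stmt_C12) {e : ℝ}
    (he : 0 < e) (he1 : e < 1) (h : nu e ⊆ Bd dd) : Table dd e PhiC (Tor 0) := by
  have hOO : ∀ m n : Fin 5, m ≠ 0 → n ≠ 0 → Disjoint (Om m dd) (Om n dd) →
      Disjoint (reg (PhiC m) (Bd dd)) (reg (PhiC n) (Bd dd)) := by
    intro m n hm hn hd
    rw [reg_Bd c1 c2 hm, reg_Bd c1 c2 hn]
    exact hd
  have hON : ∀ m n : Fin 5, m ≠ 0 → n ≠ 0 → Disjoint (Om m dd) (Nn n dd) →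
      Disjoint (reg (PhiC m) (Bd dd)) (reg (PhiC n) (nu e)) := by
    intro m n hm hn hd
    rw [reg_Bd c1 c2 hm]
    exact hd.mono_right (reg_nu_subset c1 c2 hn he he1 h)
  have h1 : (1 : Fin 5) ≠ 0 := by decide
  have h2 : (2 : Fin 5) ≠ 0 := by decide
  have h3 : (3 : Fin 5) ≠ 0 := by decide
  have h4 : (4 : Fin 5) ≠ 0 := by decide
  refine ⟨fun m hm => chart_PhiC c1 c3 c4 hm, hOO 1 4 h1 h4 (c7 1 h1), hOO 2 3 h2 h3 (c7 2 h2),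
    hON 2 1 h2 h1 (c8 2 h2), hON 3 4 h3 h4 (c8 3 h3), hON 1 3 h1 h3 (c8 1 h1),
    hON 4 2 h4 h2 (c8 4 h4), ?_, ?_, ?_, ?_, ?_⟩
  · refine ⟨{w | (w.re / 7) ^ 2 < (w.im / 6) ^ 2}, ?_, ?_⟩
    · intro q hq hx
      obtain ⟨hw, _, _⟩ := c1 1 h1 q.1 hq.1 q.2
      have hO : PhiC 1 q ∈ Om 3 dd := by rw [← reg_Bd c1 c2 h3]; exact hx
      have hO' : PhiC 1 q ∈ Om 1 dd := by
        rw [← reg_Bd c1 c2 h1]; exact ⟨q, hq, rfl⟩
      have := c9 3 h3 (PhiC 1 q) ⟨hO, hO'⟩ 3 (by decide)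
      have e1 : (Wc 1 (PhiC 1 q)).re = 7 * (PhiC 1 q) 3 := rfl
      have e2 : (Wc 1 (PhiC 1 q)).im = 6 * (PhiC 1 q) 4 := rfl
      rw [show Wc 1 (PhiC 1 q) = q.1 from hw] at e1 e2
      show (q.1.re / 7) ^ 2 < (q.1.im / 6) ^ 2
      rw [e1, e2]
      have e3 : ((3 : Fin 5) * 3) = 4 := by decide
      rw [e3] at this
      nlinarith
    · intro q hq hx
      obtain ⟨hw, _, _⟩ := c1 1 h1 q.1 hq.1 q.2
      have hO : PhiC 1 q ∈ Om 2 dd := by rw [← reg_Bd c1 c2 h2]; exact hx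
      have hO' : PhiC 1 q ∈ Om 1 dd := by
        rw [← reg_Bd c1 c2 h1]; exact ⟨q, hq, rfl⟩
      have := c9 1 h1 (PhiC 1 q) ⟨hO', hO⟩ 4 (by decide)
      have e1 : (Wc 1 (PhiC 1 q)).re = 7 * (PhiC 1 q) 3 := rfl
      have e2 : (Wc 1 (PhiC 1 q)).im = 6 * (PhiC 1 q) 4 := rfl
      rw [show Wc 1 (PhiC 1 q) = q.1 from hw] at e1 e2
      show ¬ (q.1.re / 7) ^ 2 < (q.1.im / 6) ^ 2
      rw [e1, e2]
      have e3 : ((3 : Fin 5) * 1) = 3 := by decide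
      rw [e3] at this
      nlinarith
  · refine ⟨{w | (w.re / 7) ^ 2 < (w.im / 6) ^ 2}, ?_, ?_⟩
    · intro q hq hx
      obtain ⟨hw, _, _⟩ := c1 4 h4 q.1 hq.1 q.2
      have hO : PhiC 4 q ∈ Om 2 dd := by rw [← reg_Bd c1 c2 h2]; exact hx
      have hO' : PhiC 4 q ∈ Om 4 dd := by
        rw [← reg_Bd c1 c2 h4]; exact ⟨q, hq, rfl⟩
      have := c9 2 h2 (PhiC 4 q) ⟨hO, hO'⟩ 2 (by decide)
      have e1 : (Wc 4 (PhiC 4 q)).re = 7 * (PhiC 4 q) 2 := rfl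
      have e2 : (Wc 4 (PhiC 4 q)).im = 6 * (PhiC 4 q) 1 := rfl
      rw [show Wc 4 (PhiC 4 q) = q.1 from hw] at e1 e2
      show (q.1.re / 7) ^ 2 < (q.1.im / 6) ^ 2
      rw [e1, e2]
      have e3 : ((3 : Fin 5) * 2) = 1 := by decide
      rw [e3] at this
      nlinarith
    · intro q hq hx
      obtain ⟨hw, _, _⟩ := c1 4 h4 q.1 hq.1 q.2
      have hO : PhiC 4 q ∈ Om 3 dd := by rw [← reg_Bd c1 c2 h3]; exact hx
      have hO' : PhiC 4 q ∈ Om 4 dd := by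
        rw [← reg_Bd c1 c2 h4]; exact ⟨q, hq, rfl⟩
      have := c9 4 h4 (PhiC 4 q) ⟨hO', hO⟩ 1 (by decide)
      have e1 : (Wc 4 (PhiC 4 q)).re = 7 * (PhiC 4 q) 2 := rfl
      have e2 : (Wc 4 (PhiC 4 q)).im = 6 * (PhiC 4 q) 1 := rfl
      rw [show Wc 4 (PhiC 4 q) = q.1 from hw] at e1 e2
      show ¬ (q.1.re / 7) ^ 2 < (q.1.im / 6) ^ 2
      rw [e1, e2]
      have e3 : ((3 : Fin 5) * 4) = 2 := by decide
      rw [e3] at this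
      nlinarith
  · intro m hm
    exact ((c11.2.2.1 m 0 hm hm).mono_left (reg_nu_subset c1 c2 hm he he1 h)).symm
  · exact fun h0 => h0.1 rfl
  · rw [union_comm]
    exact c12.1 0

theorem lset_diff (c1 : Stmt_C1) (c2 : Stmt_C2) (c5 : Stmt_C5) :
    Lset PhiC \ Tor 0 = Mt := by
  ext x
  constructor
  · rintro ⟨⟨h0, h1⟩, h2⟩
    refine ⟨h0, fun m => ?_⟩
    by_cases hm : m = 0
    · rw [hm]; exact h2
    · rw [← reg_Ucirc c1 c2 c5 hm]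
      exact h1 m hm
  · rintro ⟨h0, h1⟩
    refine ⟨⟨h0, fun m hm => ?_⟩, h1 0⟩
    rw [reg_Ucirc c1 c2 c5 hm]
    exact h1 m

theorem tor0_subset_lset (c1 : Stmt_C1) (c2 : Stmt_C2) (c5 : Stmt_C5) (c11 : Stmt_C11) :
    Tor 0 ⊆ Lset PhiC := by
  intro x hx
  refine ⟨hx.1, fun m hm => ?_⟩
  rw [reg_Ucirc c1 c2 c5 hm]
  exact fun h => (Set.disjoint_left.1 (c11.1 m 0 hm)) h hx

/-- `Lset` is open and conical -/
theorem isOpen_lset (c1 : Stmt_C1) (c2 : Stmt_C2) (c5 : Stmt_C5) (c12 : Stmt_C12) :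
    IsOpen (Lset PhiC) := by
  have h : Lset PhiC = ⋂ m : Fin 5, {x | x ≠ 0 ∧ (m ≠ 0 → x ∉ Tor m)} := by
    ext x
    constructor
    · rintro ⟨h0, h1⟩
      refine mem_iInter.2 fun m => ⟨h0, fun hm => ?_⟩
      rw [← reg_Ucirc c1 c2 c5 hm]
      exact h1 m hm
    · intro hx
      have hx' := mem_iInter.1 hx
      refine ⟨(hx' 0).1, fun m hm => ?_⟩
      rw [reg_Ucirc c1 c2 c5 hm]
      exact (hx' m).2 hm
  rw [h]
  refine isOpen_iInter_of_finite fun m => ?_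
  by_cases hm : m = 0
  · have : {x : E5 | x ≠ 0 ∧ (m ≠ 0 → x ∉ Tor m)} = {x | x ≠ 0} := by
      ext x; simp [hm]
    rw [this]
    exact isOpen_ne
  · have : {x : E5 | x ≠ 0 ∧ (m ≠ 0 → x ∉ Tor m)} = (Tor m ∪ {0})ᶜ := by
      ext x
      simp only [mem_compl_iff, mem_union, mem_singleton_iff, not_or]
      exact ⟨fun hx => ⟨hx.2 hm, hx.1⟩, fun hx => ⟨hx.2, fun _ => hx.1⟩⟩
    rw [this]
    exact (c12.1 m).isOpen_compl

theorem lset_smul (c1 : Stmt_C1) (c2 : Stmt_C2) (c3 : Stmt_C3) {x : E5} (hx : x ∈ Lset PhiC)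
    {t : ℝ} (ht : 0 < t) : t • x ∈ Lset PhiC := by
  refine ⟨smul_ne_zero ht.ne' hx.1, fun m hm h => hx.2 m hm ?_⟩
  rw [reg_PhiC c1 c2 hm] at h ⊢
  obtain ⟨h1, h2⟩ := h
  obtain ⟨e1, e2⟩ := (c3 m hm t ht).2 x
  rw [e1] at h1
  rw [e2] at h2
  exact ⟨fun h => h1 (by rw [h, smul_zero]), h2⟩

/-- reindexing the ends -/
theorem goodCover_fin4 (c1 : Stmt_C1) (c2 : Stmt_C2) (c5 : Stmt_C5) {e : ℝ}
    (h : GoodCover Mt (fun m : {m : Fin 5 // m ≠ 0} => EndS m.1 e)) :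
    GoodCover (Lset PhiC \ Tor 0) (fun i : Fin 4 => reg (PhiC i.succ) (nu e \ Ucirc)) := by
  rw [lset_diff c1 c2 c5]
  obtain ⟨R, iR, q, hq, hs, hR, hE⟩ := h
  refine ⟨R, iR, q, hq, hs, hR, fun i => ?_⟩
  show LAE ↥{r : R | (q r : E5) ∈ reg (PhiC i.succ) (nu e \ Ucirc)}
  rw [reg_end c1 c2 (Fin.succ_ne_zero i)]
  exact hE ⟨i.succ, Fin.succ_ne_zero i⟩

end Pool.KT
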