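import Pool.Agent.Work.MP_70ab54_kt.WC

/-!
# Unions of weakly contractible open sets (project MP_70ab54_gt), part A
-/

set_option autoImplicit false

namespace Pool.KT

open Set Topology

variable {X : Type*} [TopologicalSpace X]

/-! ### radial coordinates in the cube -/

section radial

variable {ι : Type} [Fintype ι]

/-- the centre of the cube -/
noncomputable def ctr (ι : Type) : ι → ℝ := fun _ => 1 / 2

/-- the radial coordinate -/
noncomputable def rad (x : ι → ℝ) : ℝ := 2 * ‖x - ctr ι‖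

lemma continuous_rad : Continuous (rad (ι := ι)) := by
  unfold rad; fun_prop

lemma rad_nonneg (x : ι → ℝ) : 0 ≤ rad x := by unfold rad; positivity

lemma mem_cube_iff {x : ι → ℝ} : x ∈ cube ι ↔ rad x ≤ 1 := by
  have h : rad x ≤ 1 ↔ ‖x - ctr ι‖ ≤ 1 / 2 := by
    unfold rad
    constructor <;> intro h <;> linarith
  rw [h, pi_norm_le_iff_of_nonneg (by norm_num)]
  refine forall_congr' fun i => ?_
  simp only [Pi.sub_apply, ctr, Real.norm_eq_abs, abs_le]
  constructor
  · rintro ⟨h1, h2⟩; constructor <;> linarith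
  · rintro ⟨h1, h2⟩; constructor <;> linarith

lemma mem_bdc_iff {x : ι → ℝ} : x ∈ bdc ι ↔ rad x = 1 := by
  constructor
  · rintro ⟨h1, i, hi⟩
    refine le_antisymm (mem_cube_iff.1 h1) ?_
    have h2 := norm_le_pi_norm (x - ctr ι) i
    have h3 : ‖(x - ctr ι) i‖ = 1 / 2 := by
      simp only [Pi.sub_apply, ctr, Real.norm_eq_abs]
      rcases hi with hi | hi <;> rw [hi] <;> norm_num
    unfold rad
    linarith
  · intro h
    have h1 : x ∈ cube ι := mem_cube_iff.2 h.le
    refine ⟨h1, ?_⟩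
    by_contra hcon
    push Not at hcon
    have h2 : ‖x - ctr ι‖ < 1 / 2 := by
      rw [pi_norm_lt_iff (by norm_num)]
      intro i
      obtain ⟨a, b⟩ := h1 i
      obtain ⟨c, d⟩ := hcon i
      have a' : 0 < x i := lt_of_le_of_ne a (Ne.symm c)
      have b' : x i < 1 := lt_of_le_of_ne b d
      simp only [Pi.sub_apply, ctr, Real.norm_eq_abs, abs_lt]
      constructor <;> linarith
    unfold rad at h
    linarith

/-- point on the ray through `x` -/
noncomputable def scl (s : ℝ) (x : ι → ℝ) : ι → ℝ := ctr ι + s • (x - ctr ι)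

lemma rad_scl {s : ℝ} (hs : 0 ≤ s) (x : ι → ℝ) : rad (scl s x) = s * rad x := by
  unfold rad scl
  rw [add_sub_cancel_left, norm_smul, Real.norm_eq_abs, abs_of_nonneg hs]
  ring

/-- Homotopy extension for (cube, boundary). -/
theorem extend_of_homotopy {Z : Set X} {f : (ι → ℝ) → X} {H : (ι → ℝ) × ℝ → X}
    {g1 : (ι → ℝ) → X} (hH : ContinuousOn H (bdc ι ×ˢ Icc (0 : ℝ) 1))
    (hHZ : MapsTo H (bdc ι ×ˢ Icc (0 : ℝ) 1) Z) (h0 : ∀ x ∈ bdc ι, H (x, 0) = f x)
    (hg : ContinuousOn g1 (cube ι)) (hgZ : MapsTo g1 (cube ι) Z)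
    (h1 : ∀ x ∈ bdc ι, g1 x = H (x, 1)) :
    ∃ g : (ι → ℝ) → X, ContinuousOn g (cube ι) ∧ MapsTo g (cube ι) Z ∧ EqOn g f (bdc ι) := by
  set A : Set (ι → ℝ) := {x | rad x ≤ 1 / 2} with hA
  set B : Set (ι → ℝ) := {x | 1 / 2 ≤ rad x ∧ rad x ≤ 1} with hB
  have cA : IsClosed A := isClosed_le continuous_rad continuous_const
  have cB : IsClosed B := (isClosed_le continuous_const continuous_rad).inter
    (isClosed_le continuous_rad continuous_const)
  set a : (ι → ℝ) → X := fun x => g1 (scl 2 x) with ha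
  set b : (ι → ℝ) → X := fun x => H (scl (rad x)⁻¹ x, 2 * (1 - rad x)) with hb
  have hscl2 : ∀ x ∈ A, scl 2 x ∈ cube ι := by
    intro x hx
    rw [mem_cube_iff, rad_scl (by norm_num)]
    have : rad x ≤ 1 / 2 := hx
    linarith
  have hsclb : ∀ x ∈ B, scl (rad x)⁻¹ x ∈ bdc ι := by
    intro x hx
    have h2 : 0 < rad x := by
      have : 1 / 2 ≤ rad x := hx.1
      linarith
    rw [mem_bdc_iff, rad_scl (by positivity), inv_mul_cancel₀ h2.ne']
  have hI : ∀ x ∈ B, 2 * (1 - rad x) ∈ Icc (0 : ℝ) 1 := by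
    intro x hx
    obtain ⟨h3, h4⟩ := hx
    constructor <;> linarith
  have ca : ContinuousOn a A := by
    refine hg.comp (Continuous.continuousOn ?_) hscl2
    unfold scl; fun_prop
  have cb : ContinuousOn b B := by
    refine hH.comp ?_ fun x hx => ⟨hsclb x hx, hI x hx⟩
    refine ContinuousOn.prodMk ?_ ?_
    · unfold scl
      have hsub : ContinuousOn (fun x : ι → ℝ => x - ctr ι) B :=
        (continuous_id.sub continuous_const).continuousOn
      have hinv : ContinuousOn (fun x : ι → ℝ => (rad x)⁻¹) B := by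
        refine continuous_rad.continuousOn.inv₀ fun x hx => ?_
        have : 1 / 2 ≤ rad x := hx.1
        linarith
      exact continuousOn_const.add fun x hx => (hinv x hx).smul (hsub x hx)
    · exact (continuous_const.mul (continuous_const.sub continuous_rad)).continuousOn
  have e : EqOn a b (A ∩ B) := by
    rintro x ⟨hxA, hxB⟩
    have hr : rad x = 1 / 2 := le_antisymm hxA hxB.1
    simp only [ha, hb, hr]
    have h2 : scl (1 / 2)⁻¹ x ∈ bdc ι := by
      have := hsclb x hxB; rwa [hr] at this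
    norm_num at h2 ⊢
    rw [h1 _ h2]
  have hcube : cube ι = A ∪ B := by
    ext x
    rw [mem_cube_iff]
    constructor
    · intro h
      rcases le_total (rad x) (1 / 2) with h' | h'
      · exact Or.inl h'
      · exact Or.inr ⟨h', h⟩
    · rintro (h | h)
      · have : rad x ≤ 1 / 2 := h
        linarith
      · exact h.2
  refine ⟨gl A a b, ?_, ?_, ?_⟩
  · rw [hcube]; exact continuousOn_gl cA cB ca cb e
  · intro x hx
    by_cases h : x ∈ A
    · rw [gl_of_mem h]; exact hgZ (hscl2 x h)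
    · rw [gl_of_notMem h]
      have hxB : x ∈ B := by rw [hcube] at hx; exact hx.resolve_left h
      exact hHZ ⟨hsclb x hxB, hI x hxB⟩
  · intro x hx
    have hr : rad x = 1 := mem_bdc_iff.1 hx
    have hnA : x ∉ A := fun h => by
      have : rad x ≤ 1 / 2 := h
      linarith
    rw [gl_of_notMem hnA]
    simp only [hb, hr, sub_self, mul_zero, inv_one]
    have : scl 1 x = x := by unfold scl; simp
    rw [this]
    exact h0 x hx

end radial

/-! ### the union theorem -/

lemma cell_mono {ι : Type} {N : ℕ} {c d : ι → ℕ} (h : leC c d) : cell N c ⊆ cell N d := by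
  intro x hx i
  obtain ⟨h1, h2⟩ := hx i
  obtain ⟨h3, h4⟩ := h i
  constructor
  · refine le_trans ?_ h1
    unfold lo; gcongr
  · refine le_trans h2 ?_
    unfold hi; gcongr

/-- the cell carrying a boundary point lies in the boundary -/
lemma cell_car_subset_bdc {ι : Type} {N : ℕ} (hN : 0 < N) {x : ι → ℝ} (hx : x ∈ bdc ι) :
    cell N (car N x) ⊆ bdc ι := by
  have hN' : (0 : ℝ) < N := by exact_mod_cast hN
  intro y hy
  refine ⟨cell_subset_cube hN (car_InC hx.1) hy, ?_⟩
  obtain ⟨_, i, hi'⟩ := hx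
  refine ⟨i, ?_⟩
  obtain ⟨h1, h2⟩ := hy i
  rcases hi' with h | h
  · left
    have : car N x i = 0 := by simp [car, car1, h]
    rw [this] at h1 h2
    simp [lo, hi] at h1 h2
    exact le_antisymm h2 h1
  · right
    have : car N x i = 2 * N := by
      simp only [car, car1, h, mul_one, Nat.floor_natCast, Nat.ceil_natCast]; ring
    rw [this] at h1 h2
    have e1 : lo N (2 * N) = 1 := by
      unfold lo
      rw [Nat.mul_div_cancel_left _ (by norm_num)]
      field_simp
    have e2 : hi N (2 * N) = 1 := by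
      rw [hi_even (by omega), e1]
    rw [e1] at h1
    rw [e2] at h2
    exact le_antisymm h2 h1

lemma dist_le_of_mem_cell {ι : Type} [Fintype ι] {N : ℕ} (hN : 0 < N) {d : ι → ℕ} {x y : ι → ℝ}
    (hx : x ∈ cell N d) (hy : y ∈ cell N d) : dist x y ≤ 1 / N := by
  have hN' : (0 : ℝ) < N := by exact_mod_cast hN
  rw [dist_pi_le_iff (by positivity)]
  intro i
  obtain ⟨h1, h2⟩ := hx i
  obtain ⟨h3, h4⟩ := hy i
  have h5 : hi N (d i) ≤ lo N (d i) + 1 / N := by
    by_cases h : d i % 2 = 1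
    · rw [hi_odd h]
    · rw [hi_even h]
      have : (0 : ℝ) ≤ 1 / N := by positivity
      linarith
  rw [Real.dist_eq, abs_le]
  constructor <;> linarith

/-- **Union theorem** for weakly contractible open sets. -/
theorem SWC.union {U V : Set X} (hU : IsOpen U) (hV : IsOpen V) (wU : SWC U) (wV : SWC V)
    (wW : SWC (U ∩ V)) : SWC (U ∪ V) := by
  classical
  intro ι _ f hf hfZ
  -- Lebesgue number
  obtain ⟨δ, hδ, hleb⟩ : ∃ δ > 0, ∀ x ∈ bdc ι, (∀ y ∈ bdc ι, dist x y < δ → f y ∈ U) ∨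
      (∀ y ∈ bdc ι, dist x y < δ → f y ∈ V) := by
    obtain ⟨O, hO, hOe⟩ := continuousOn_iff'.1 hf U hU
    obtain ⟨P, hP, hPe⟩ := continuousOn_iff'.1 hf V hV
    have hcov : bdc ι ⊆ ⋃ b : Bool, (if b then O else P) := by
      intro x hx
      rcases hfZ hx with h | h
      · have : x ∈ f ⁻¹' U ∩ bdc ι := ⟨h, hx⟩
        rw [hOe] at this
        exact mem_iUnion.2 ⟨true, by simpa using this.1⟩
      · have : x ∈ f ⁻¹' V ∩ bdc ι := ⟨h, hx⟩
        rw [hPe] at this
        exact mem_iUnion.2 ⟨false, by simpa using this.1⟩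
    obtain ⟨δ, hδ, h⟩ := lebesgue_number_lemma_of_metric (isCompact_bdc ι)
      (c := fun b : Bool => if b then O else P) (fun b => by cases b <;> simp [hO, hP]) hcov
    refine ⟨δ, hδ, fun x hx => ?_⟩
    obtain ⟨b, hb⟩ := h x hx
    cases b with
    | true =>
      left
      intro y hy hxy
      have h1 : y ∈ O := by
        have := hb (Metric.mem_ball'.2 hxy)
        simpa using this
      have h2 : y ∈ f ⁻¹' U ∩ bdc ι := by rw [hOe]; exact ⟨h1, hy⟩
      exact h2.1
    | false =>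
      right
      intro y hy hxy
      have h1 : y ∈ P := by
        have := hb (Metric.mem_ball'.2 hxy)
        simpa using this
      have h2 : y ∈ f ⁻¹' V ∩ bdc ι := by rw [hPe]; exact ⟨h1, hy⟩
      exact h2.1
  obtain ⟨N, hNpos, hNδ⟩ : ∃ N : ℕ, 0 < N ∧ 1 / (N : ℝ) < δ := by
    obtain ⟨n, hn⟩ := exists_nat_one_div_lt hδ
    exact ⟨n + 1, Nat.succ_pos _, by push_cast; exact hn⟩
  set A : (ι → ℕ) → Prop := fun c => InC N c ∧ cell N c ⊆ bdc ι ∧ MapsTo f (cell N c) U with hA
  set B : (ι → ℕ) → Prop := fun c => InC N c ∧ cell N c ⊆ bdc ι ∧ MapsTo f (cell N c) V with hB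
  set L : (ι → ℕ) → Prop := fun c => A c ∧ B c with hL
  have dA : Down A := fun c d h hd => ⟨down_InC N c d h hd.1, (cell_mono h).trans hd.2.1,
    fun x hx => hd.2.2 (cell_mono h hx)⟩
  have dB : Down B := fun c d h hd => ⟨down_InC N c d h hd.1, (cell_mono h).trans hd.2.1,
    fun x hx => hd.2.2 (cell_mono h hx)⟩
  have dL : Down L := fun c d h hd => ⟨dA c d h hd.1, dB c d h hd.2⟩
  have rA : ∀ x ∈ real N A, x ∈ bdc ι ∧ f x ∈ U := fun x hx =>
    ⟨hx.2.2.1 (mem_cell_car hNpos hx.1), hx.2.2.2 (mem_cell_car hNpos hx.1)⟩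
  have rB : ∀ x ∈ real N B, x ∈ bdc ι ∧ f x ∈ V := fun x hx =>
    ⟨hx.2.2.1 (mem_cell_car hNpos hx.1), hx.2.2.2 (mem_cell_car hNpos hx.1)⟩
  have hcover : bdc ι = real N B ∪ real N A := by
    ext x
    constructor
    · intro hx
      have hsub := cell_car_subset_bdc hNpos hx
      have hmem := mem_cell_car hNpos hx.1
      have hd : ∀ y ∈ cell N (car N x), dist x y < δ := fun y hy =>
        (dist_le_of_mem_cell hNpos hmem hy).trans_lt hNδ
      rcases hleb x hx with h | h
      · right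
        exact ⟨hx.1, car_InC hx.1, hsub, fun y hy => h y (hsub hy) (hd y hy)⟩
      · left
        exact ⟨hx.1, car_InC hx.1, hsub, fun y hy => h y (hsub hy) (hd y hy)⟩
    · rintro (h | h)
      · exact (rB x h).1
      · exact (rA x h).1
  have hfB : ContinuousOn f (real N B) := hf.mono fun x hx => (rB x hx).1
  obtain ⟨H, hH, hHV, hH0, hH1, hHL⟩ := push (inter_subset_right : U ∩ V ⊆ V) wV wW hNpos dL _ B dB
    (fun c hc => hc.2) (fun c hc => hc.1) rfl f hfB (fun x hx => (rB x hx).2)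
    (fun x hx => ⟨(rA x ⟨hx.1, hx.2.1⟩).2, (rB x ⟨hx.1, hx.2.2⟩).2⟩)
  -- extend the homotopy by the constant one
  set H' : (ι → ℝ) × ℝ → X := gl (real N B ×ˢ univ) H (fun q => f q.1) with hH'
  have hH'B : ∀ x ∈ real N B, ∀ t, H' (x, t) = H (x, t) := fun x hx t =>
    gl_of_mem (show (x, t) ∈ real N B ×ˢ (univ : Set ℝ) from ⟨hx, mem_univ _⟩)
  have hH'A : ∀ x, x ∉ real N B → ∀ t, H' (x, t) = f x := fun x hx t =>
    gl_of_notMem (show (x, t) ∉ real N B ×ˢ (univ : Set ℝ) from fun h => hx h.1)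
  have cH' : ContinuousOn H' (bdc ι ×ˢ Icc (0 : ℝ) 1) := by
    have c1 : IsClosed (real N B ×ˢ Icc (0 : ℝ) 1) := (isClosed_real hNpos dB).prod isClosed_Icc
    have c2 : IsClosed (real N A ×ˢ Icc (0 : ℝ) 1) := (isClosed_real hNpos dA).prod isClosed_Icc
    have hset : bdc ι ×ˢ Icc (0 : ℝ) 1 =
        (real N B ×ˢ Icc (0 : ℝ) 1) ∪ (real N A ×ˢ Icc (0 : ℝ) 1) := by
      conv_lhs => rw [hcover]
      rw [Set.union_prod]
    rw [hset]
    refine ContinuousOn.union_of_isClosed ?_ ?_ c1 c2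
    · exact hH.congr fun q hq => hH'B q.1 hq.1 q.2
    · have hfA : ContinuousOn (fun q : (ι → ℝ) × ℝ => f q.1) (real N A ×ˢ Icc (0 : ℝ) 1) :=
        hf.comp continuous_fst.continuousOn fun q hq => (rA q.1 hq.1).1
      refine hfA.congr fun q hq => ?_
      by_cases h : q.1 ∈ real N B
      · rw [show q = (q.1, q.2) from rfl, hH'B _ h,
          hHL q.1 ⟨h.1, hq.1.2, h.2⟩ q.2]
      · exact hH'A _ h _
  have h1U : ∀ x ∈ bdc ι, H' (x, 1) ∈ U := by
    intro x hx
    by_cases h : x ∈ real N B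
    · rw [hH'B x h]; exact (hH1 x h).1
    · rw [hH'A x h]
      have : x ∈ real N A := by rw [hcover] at hx; exact hx.resolve_left h
      exact (rA x this).2
  obtain ⟨g1, hg1, hg1U, hg1e⟩ := wU ι (fun x => H' (x, 1))
    (cH'.comp (continuous_id.prodMk continuous_const).continuousOn
      fun x hx => ⟨hx, by norm_num, le_rfl⟩) h1U
  refine extend_of_homotopy (Z := U ∪ V) cH' ?_ ?_ hg1 (fun x hx => Or.inl (hg1U hx)) hg1e
  · rintro ⟨x, t⟩ ⟨hx, ht⟩
    simp only at hx ht
    by_cases h : x ∈ real N B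
    · rw [hH'B x h]; exact Or.inr (hHV ⟨h, ht⟩)
    · rw [hH'A x h]; exact hfZ hx
  · intro x hx
    by_cases h : x ∈ real N B
    · rw [hH'B x h]; exact hH0 x h
    · exact hH'A x h 0

end Pool.KT
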