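import Pool.Agent.Work.MP_70ab54_kt.Defs

/-!
# Weakly contractible sets (project MP_70ab54_gt), part A

`SWC Z`: every map of the boundary of a cube into `Z` extends to the cube.
-/

set_option autoImplicit false

namespace Pool.KT

open Set Topology

/-- the closed unit cube -/
def cube (ι : Type) : Set (ι → ℝ) := {x | ∀ i, 0 ≤ x i ∧ x i ≤ 1}

/-- the boundary of the unit cube -/
def bdc (ι : Type) : Set (ι → ℝ) := {x | x ∈ cube ι ∧ ∃ i, x i = 0 ∨ x i = 1}

/-- Weakly contractible subset: every map from the boundary of a cube into `Z` extends to the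
cube (for the empty cube: `Z` is nonempty). -/
def SWC {X : Type*} [TopologicalSpace X] (Z : Set X) : Prop :=
  ∀ (ι : Type) [Fintype ι] (f : (ι → ℝ) → X), ContinuousOn f (bdc ι) → MapsTo f (bdc ι) Z →
    ∃ g : (ι → ℝ) → X, ContinuousOn g (cube ι) ∧ MapsTo g (cube ι) Z ∧ EqOn g f (bdc ι)

lemma bdc_subset (ι : Type) : bdc ι ⊆ cube ι := fun _ hx => hx.1

lemma isClosed_cube (ι : Type) : IsClosed (cube ι) := by
  have : cube ι = ⋂ i, {x : ι → ℝ | 0 ≤ x i ∧ x i ≤ 1} := by
    ext x; simp [cube]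
  rw [this]
  refine isClosed_iInter fun i => ?_
  exact (isClosed_le continuous_const (continuous_apply i)).inter
    (isClosed_le (continuous_apply i) continuous_const)

lemma isClosed_bdc (ι : Type) [Finite ι] : IsClosed (bdc ι) := by
  have : bdc ι = cube ι ∩ ⋃ i, {x : ι → ℝ | x i = 0 ∨ x i = 1} := by
    ext x; simp [bdc]
  rw [this]
  refine (isClosed_cube ι).inter (isClosed_iUnion_of_finite fun i => ?_)
  exact (isClosed_eq (continuous_apply i) continuous_const).union
    (isClosed_eq (continuous_apply i) continuous_const)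

lemma cube_eq_pi (ι : Type) : cube ι = Set.univ.pi fun _ => Set.Icc (0 : ℝ) 1 := by
  ext x
  simp only [cube, Set.mem_setOf_eq, Set.mem_pi, Set.mem_univ, true_implies, Set.mem_Icc]

lemma isCompact_cube (ι : Type) : IsCompact (cube ι) := by
  rw [cube_eq_pi]
  exact isCompact_univ_pi fun _ => isCompact_Icc

lemma isCompact_bdc (ι : Type) [Finite ι] : IsCompact (bdc ι) :=
  (isCompact_cube ι).of_isClosed_subset (isClosed_bdc ι) (bdc_subset ι)

/-! ### gluing functions on closed sets -/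

section glue

variable {α β : Type*} [TopologicalSpace α] [TopologicalSpace β]

open Classical in
/-- the function `f` on `A` and `g` elsewhere -/
noncomputable def gl (A : Set α) (f g : α → β) : α → β := fun x => if x ∈ A then f x else g x

lemma gl_of_mem {A : Set α} {f g : α → β} {x : α} (h : x ∈ A) : gl A f g x = f x := if_pos h

lemma gl_of_notMem {A : Set α} {f g : α → β} {x : α} (h : x ∉ A) : gl A f g x = g x := if_neg h

lemma gl_of_mem_right {A B : Set α} {f g : α → β} (h : EqOn f g (A ∩ B)) {x : α} (hx : x ∈ B) :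
    gl A f g x = g x := by
  by_cases hA : x ∈ A
  · rw [gl_of_mem hA]; exact h ⟨hA, hx⟩
  · exact gl_of_notMem hA

lemma continuousOn_gl {A B : Set α} (hA : IsClosed A) (hB : IsClosed B) {f g : α → β}
    (hf : ContinuousOn f A) (hg : ContinuousOn g B) (h : EqOn f g (A ∩ B)) :
    ContinuousOn (gl A f g) (A ∪ B) := by
  refine ContinuousOn.union_of_isClosed ?_ ?_ hA hB
  · exact hf.congr fun x hx => gl_of_mem hx
  · exact hg.congr fun x hx => gl_of_mem_right h hx

end glue

/-! ### the grid -/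

section grid

variable {ι : Type}

/-- carrier of a real number in the grid of mesh `1/N`: even numbers are grid points, odd numbers
are grid intervals -/
noncomputable def car1 (N : ℕ) (t : ℝ) : ℕ := ⌊N * t⌋₊ + ⌈N * t⌉₊

/-- carrier of a point -/
noncomputable def car (N : ℕ) (x : ι → ℝ) : ι → ℕ := fun i => car1 N (x i)

/-- lower end -/
noncomputable def lo (N k : ℕ) : ℝ := ((k / 2 : ℕ) : ℝ) / N

/-- upper end -/
noncomputable def hi (N k : ℕ) : ℝ := (((k + 1) / 2 : ℕ) : ℝ) / N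

/-- closed cell -/
def cell (N : ℕ) (d : ι → ℕ) : Set (ι → ℝ) := {x | ∀ i, lo N (d i) ≤ x i ∧ x i ≤ hi N (d i)}

/-- one-dimensional face relation -/
def le1 (c d : ℕ) : Prop := d / 2 ≤ c / 2 ∧ (c + 1) / 2 ≤ (d + 1) / 2

lemma le1_refl (c : ℕ) : le1 c c := ⟨le_rfl, le_rfl⟩

lemma le1_trans {a b c : ℕ} (h : le1 a b) (h' : le1 b c) : le1 a c :=
  ⟨h'.1.trans h.1, h.2.trans h'.2⟩

/-- face relation -/
def leC (c d : ι → ℕ) : Prop := ∀ i, le1 (c i) (d i)

lemma leC_refl (c : ι → ℕ) : leC c c := fun i => le1_refl _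

lemma leC_trans {a b c : ι → ℕ} (h : leC a b) (h' : leC b c) : leC a c :=
  fun i => le1_trans (h i) (h' i)

/-- a real number lies in the grid interval `k` iff its carrier is a face -/
lemma mem_Icc_iff {N : ℕ} (hN : 0 < N) {t : ℝ} (ht : 0 ≤ t) (k : ℕ) :
    (lo N k ≤ t ∧ t ≤ hi N k) ↔ le1 (car1 N t) k := by
  have hN' : (0 : ℝ) < N := by exact_mod_cast hN
  have hNt : 0 ≤ (N : ℝ) * t := by positivity
  have h1 : lo N k ≤ t ↔ k / 2 ≤ ⌊(N : ℝ) * t⌋₊ := by
    rw [lo, div_le_iff₀ hN', Nat.le_floor_iff hNt, mul_comm]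
  have h2 : t ≤ hi N k ↔ ⌈(N : ℝ) * t⌉₊ ≤ (k + 1) / 2 := by
    rw [hi, le_div_iff₀ hN', Nat.ceil_le, mul_comm]
  rw [h1, h2, le1, car1]
  have h3 : ⌊(N : ℝ) * t⌋₊ ≤ ⌈(N : ℝ) * t⌉₊ := Nat.floor_le_ceil _
  have h4 : ⌈(N : ℝ) * t⌉₊ ≤ ⌊(N : ℝ) * t⌋₊ + 1 := Nat.ceil_le_floor_add_one _
  omega

lemma mem_cell_iff {N : ℕ} (hN : 0 < N) {x : ι → ℝ} (hx : x ∈ cube ι) (d : ι → ℕ) :
    x ∈ cell N d ↔ leC (car N x) d := by
  simp only [cell, mem_setOf_eq, leC, car]
  exact forall_congr' fun i => mem_Icc_iff hN (hx i).1 (d i)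

lemma mem_cell_car {N : ℕ} (hN : 0 < N) {x : ι → ℝ} (hx : x ∈ cube ι) : x ∈ cell N (car N x) :=
  (mem_cell_iff hN hx _).2 (leC_refl _)

lemma isClosed_cell (N : ℕ) (d : ι → ℕ) : IsClosed (cell N d) := by
  have : cell N d = ⋂ i, {x : ι → ℝ | lo N (d i) ≤ x i ∧ x i ≤ hi N (d i)} := by
    ext x; simp [cell]
  rw [this]
  refine isClosed_iInter fun i => ?_
  exact (isClosed_le continuous_const (continuous_apply i)).inter
    (isClosed_le (continuous_apply i) continuous_const)

lemma car1_le {N : ℕ} {t : ℝ} (h1 : t ≤ 1) : car1 N t ≤ 2 * N := by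
  have h : (N : ℝ) * t ≤ N := by
    have : (0 : ℝ) ≤ N := by positivity
    nlinarith
  have a1 : ⌊(N : ℝ) * t⌋₊ ≤ N := by
    have := Nat.floor_le_floor h
    simpa using this
  have a2 : ⌈(N : ℝ) * t⌉₊ ≤ N := by
    rw [Nat.ceil_le]; exact h
  rw [car1]; omega

/-- the realisation of a family of cells closed under faces -/
def real (N : ℕ) (K : (ι → ℕ) → Prop) : Set (ι → ℝ) := {x | x ∈ cube ι ∧ K (car N x)}

/-- closed under faces -/
def Down (K : (ι → ℕ) → Prop) : Prop := ∀ c d, leC c d → K d → K c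

lemma cell_subset_real {N : ℕ} (hN : 0 < N) {K : (ι → ℕ) → Prop} (hK : Down K) {d : ι → ℕ}
    (hd : K d) : cube ι ∩ cell N d ⊆ real N K := fun x hx =>
  ⟨hx.1, hK _ _ ((mem_cell_iff hN hx.1 d).1 hx.2) hd⟩

/-- the finite set of cells of the cube -/
noncomputable def allCells (ι : Type) [Fintype ι] (N : ℕ) : Finset (ι → ℕ) := by
  classical
  exact Fintype.piFinset fun _ => Finset.range (2 * N + 1)

lemma car_mem_allCells [Fintype ι] {N : ℕ} {x : ι → ℝ} (hx : x ∈ cube ι) :
    car N x ∈ allCells ι N := by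
  classical
  rw [allCells, Fintype.mem_piFinset]
  intro i
  rw [Finset.mem_range, Nat.lt_succ_iff]
  exact car1_le (hx i).2

lemma isClosed_real [Fintype ι] {N : ℕ} (hN : 0 < N) {K : (ι → ℕ) → Prop} (hK : Down K) :
    IsClosed (real N K) := by
  classical
  have : real N K = ⋃ d ∈ (allCells ι N).filter K, cube ι ∩ cell N d := by
    ext x
    simp only [mem_iUnion, Finset.mem_filter, exists_prop]
    constructor
    · rintro ⟨h1, h2⟩
      exact ⟨car N x, ⟨car_mem_allCells h1, h2⟩, h1, mem_cell_car hN h1⟩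
    · rintro ⟨d, ⟨_, h2⟩, h3⟩
      exact cell_subset_real hN hK h2 h3
  rw [this]
  exact isClosed_biUnion_finset fun d _ => (isClosed_cube ι).inter (isClosed_cell N d)

/-- all coordinates are at most `2N` -/
def InC (N : ℕ) (c : ι → ℕ) : Prop := ∀ i, c i ≤ 2 * N

lemma down_InC (N : ℕ) : Down (InC (ι := ι) N) := by
  intro c d h hd i
  have h1 := (h i).2
  have h2 := hd i
  omega

lemma mem_allCells [Fintype ι] {N : ℕ} {c : ι → ℕ} : c ∈ allCells ι N ↔ InC N c := by
  classical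
  rw [allCells, Fintype.mem_piFinset]
  simp only [Finset.mem_range, Nat.lt_succ_iff, InC]

lemma car_InC {N : ℕ} {x : ι → ℝ} (hx : x ∈ cube ι) : InC N (car N x) := fun i =>
  car1_le (hx i).2

/-- dimension of a cell -/
noncomputable def dimC [Fintype ι] (c : ι → ℕ) : ℕ := by
  classical
  exact (Finset.univ.filter fun i => c i % 2 = 1).card

lemma le1_even {c d : ℕ} (h : le1 c d) (hd : d % 2 = 0) : c = d := by
  obtain ⟨h1, h2⟩ := h
  omega

lemma le1_odd {c d : ℕ} (h : le1 c d) (hc : c % 2 = 1) (hd : d % 2 = 1) : c = d := by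
  obtain ⟨h1, h2⟩ := h
  omega

lemma dimC_lt [Fintype ι] {c d : ι → ℕ} (h : leC c d) (hne : c ≠ d) : dimC c < dimC d := by
  classical
  unfold dimC
  apply Finset.card_lt_card
  rw [Finset.ssubset_iff_of_subset]
  · obtain ⟨i, hi⟩ := Function.ne_iff.1 hne
    refine ⟨i, ?_, ?_⟩
    · simp only [Finset.mem_filter, Finset.mem_univ, true_and]
      by_contra hcon
      exact hi (le1_even (h i) (by omega))
    · simp only [Finset.mem_filter, Finset.mem_univ, true_and]
      intro hc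
      have hd : d i % 2 = 1 := by
        by_contra hcon
        exact hi (le1_even (h i) (by omega))
      exact hi (le1_odd (h i) hc hd)
  · intro i hi
    simp only [Finset.mem_filter, Finset.mem_univ, true_and] at hi ⊢
    by_contra hcon
    have := le1_even (h i) (by omega)
    omega

/-! ### parametrisation of a cell -/

/-- free directions of a cell -/
abbrev Fr (d : ι → ℕ) : Type := {i : ι // d i % 2 = 1}

open Classical in
/-- parametrisation of a cell by a cube -/
noncomputable def par (N : ℕ) (d : ι → ℕ) (u : Fr d → ℝ) : ι → ℝ := fun i =>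
  if h : d i % 2 = 1 then lo N (d i) + u ⟨i, h⟩ / N else lo N (d i)

/-- the inverse of the parametrisation -/
noncomputable def rap (N : ℕ) (d : ι → ℕ) (x : ι → ℝ) : Fr d → ℝ := fun j =>
  N * (x j - lo N (d j))

lemma continuous_par (N : ℕ) (d : ι → ℕ) : Continuous (par N d) := by
  refine continuous_pi fun i => ?_
  unfold par
  by_cases h : d i % 2 = 1
  · simp only [h, dite_true]
    exact continuous_const.add ((continuous_apply _).div_const _)
  · simp only [h, dite_false]
    exact continuous_const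

lemma continuous_rap (N : ℕ) (d : ι → ℕ) : Continuous (rap N d) := by
  refine continuous_pi fun j => ?_
  exact continuous_const.mul ((continuous_apply _).sub continuous_const)

lemma hi_odd {N k : ℕ} (hk : k % 2 = 1) : hi N k = lo N k + 1 / N := by
  unfold hi lo
  have : (k + 1) / 2 = k / 2 + 1 := by omega
  rw [this]; push_cast; ring

lemma hi_even {N k : ℕ} (hk : ¬ k % 2 = 1) : hi N k = lo N k := by
  unfold hi lo
  have : (k + 1) / 2 = k / 2 := by omega
  rw [this]

lemma rap_par {N : ℕ} (hN : 0 < N) (d : ι → ℕ) (u : Fr d → ℝ) : rap N d (par N d u) = u := by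
  have hN' : (0 : ℝ) < N := by exact_mod_cast hN
  funext j
  simp only [rap, par, j.2, dite_true]
  field_simp
  ring

lemma par_rap {N : ℕ} (hN : 0 < N) (d : ι → ℕ) {x : ι → ℝ} (hx : x ∈ cell N d) :
    par N d (rap N d x) = x := by
  have hN' : (0 : ℝ) < N := by exact_mod_cast hN
  funext i
  by_cases h : d i % 2 = 1
  · simp only [par, rap, h, dite_true]
    field_simp
    ring
  · simp only [par, h, dite_false]
    obtain ⟨h1, h2⟩ := hx i
    rw [hi_even h] at h2
    exact le_antisymm h1 h2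

lemma par_mem_cell {N : ℕ} (hN : 0 < N) (d : ι → ℕ) {u : Fr d → ℝ} (hu : u ∈ cube (Fr d)) :
    par N d u ∈ cell N d := by
  have hN' : (0 : ℝ) < N := by exact_mod_cast hN
  intro i
  by_cases h : d i % 2 = 1
  · simp only [par, h, dite_true]
    obtain ⟨h1, h2⟩ := hu ⟨i, h⟩
    rw [hi_odd h]
    constructor
    · have : 0 ≤ u ⟨i, h⟩ / N := by positivity
      linarith
    · have : u ⟨i, h⟩ / N ≤ 1 / N := by gcongr
      linarith
  · simp only [par, h, dite_false]
    rw [hi_even h]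
    exact ⟨le_rfl, le_rfl⟩

lemma rap_mem_cube {N : ℕ} (hN : 0 < N) (d : ι → ℕ) {x : ι → ℝ} (hx : x ∈ cell N d) :
    rap N d x ∈ cube (Fr d) := by
  have hN' : (0 : ℝ) < N := by exact_mod_cast hN
  intro j
  obtain ⟨h1, h2⟩ := hx j
  rw [hi_odd j.2] at h2
  simp only [rap]
  constructor
  · have : 0 ≤ x j - lo N (d j) := by linarith
    positivity
  · have : x j - lo N (d j) ≤ 1 / N := by linarith
    calc (N : ℝ) * (x j - lo N (d j)) ≤ N * (1 / N) := by gcongr
      _ = 1 := by field_simp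

lemma cell_subset_cube {N : ℕ} (hN : 0 < N) {d : ι → ℕ} (hd : InC N d) : cell N d ⊆ cube ι := by
  have hN' : (0 : ℝ) < N := by exact_mod_cast hN
  intro x hx i
  obtain ⟨h1, h2⟩ := hx i
  constructor
  · have : 0 ≤ lo N (d i) := by unfold lo; positivity
    linarith
  · have : hi N (d i) ≤ 1 := by
      unfold hi
      rw [div_le_one hN']
      have := hd i
      exact_mod_cast (by omega : (d i + 1) / 2 ≤ N)
    linarith

/-- interior points of the cell have carrier `d` -/
lemma car_eq_of_notMem_bdc {N : ℕ} (hN : 0 < N) {d : ι → ℕ} {x : ι → ℝ} (hx : x ∈ cell N d)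
    (hxc : x ∈ cube ι) (hb : rap N d x ∉ bdc (Fr d)) : car N x = d := by
  have hN' : (0 : ℝ) < N := by exact_mod_cast hN
  have hle := (mem_cell_iff hN hxc d).1 hx
  funext i
  by_cases h : d i % 2 = 1
  · have hr := rap_mem_cube hN d hx
    have h0 : rap N d x ⟨i, h⟩ ≠ 0 := fun hh => hb ⟨hr, ⟨i, h⟩, Or.inl hh⟩
    have h1 : rap N d x ⟨i, h⟩ ≠ 1 := fun hh => hb ⟨hr, ⟨i, h⟩, Or.inr hh⟩
    have h0' : 0 < rap N d x ⟨i, h⟩ := lt_of_le_of_ne (hr _).1 h0.symm
    have h1' : rap N d x ⟨i, h⟩ < 1 := lt_of_le_of_ne (hr _).2 h1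
    simp only [rap] at h0' h1'
    have e : (N : ℝ) * lo N (d i) = ((d i / 2 : ℕ) : ℝ) := by unfold lo; field_simp
    have a0 : ((d i / 2 : ℕ) : ℝ) < N * x i := by rw [← e]; nlinarith
    have a1 : (N : ℝ) * x i < ((d i / 2 : ℕ) : ℝ) + 1 := by rw [← e]; nlinarith
    have f1 : ⌊(N : ℝ) * x i⌋₊ = d i / 2 :=
      (Nat.floor_eq_iff (le_trans (by positivity) a0.le)).2 ⟨a0.le, a1⟩
    have f2 : ⌈(N : ℝ) * x i⌉₊ = d i / 2 + 1 := by
      rw [Nat.ceil_eq_iff (by omega)]
      constructor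
      · push_cast [Nat.add_sub_cancel]; exact a0
      · push_cast; exact a1.le
    simp only [car, car1, f1, f2]
    omega
  · exact le1_even (hle i) (by omega)

/-- boundary points of the cell have a smaller carrier -/
lemma car_ne_of_mem_bdc {N : ℕ} (hN : 0 < N) {d : ι → ℕ} {x : ι → ℝ}
    (hb : rap N d x ∈ bdc (Fr d)) : car N x ≠ d := by
  have hN' : (0 : ℝ) < N := by exact_mod_cast hN
  intro he
  obtain ⟨_, ⟨i, h⟩, hi⟩ := hb
  have e : (N : ℝ) * lo N (d i) = ((d i / 2 : ℕ) : ℝ) := by unfold lo; field_simp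
  have hc : car1 N (x i) = d i := congrFun he i
  simp only [rap, mul_sub, e] at hi
  rcases hi with h0 | h1
  · have : (N : ℝ) * x i = ((d i / 2 : ℕ) : ℝ) := by linarith
    rw [car1, this, Nat.floor_natCast, Nat.ceil_natCast] at hc
    omega
  · have : (N : ℝ) * x i = ((d i / 2 + 1 : ℕ) : ℝ) := by push_cast; linarith
    rw [car1, this, Nat.floor_natCast, Nat.ceil_natCast] at hc
    omega

end grid

/-! ### pushing a map into a smaller set, cell by cell -/

section push

variable {X : Type*} [TopologicalSpace X]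

/-- the point `(u,t)` of `ℝ^(Option J)` -/
def join {J : Type} (u : J → ℝ) (t : ℝ) : Option J → ℝ := fun o => o.elim t u

lemma continuous_join {J : Type} : Continuous fun q : (J → ℝ) × ℝ => join q.1 q.2 := by
  refine continuous_pi fun o => ?_
  cases o with
  | none => exact continuous_snd
  | some j => exact (continuous_apply j).comp continuous_fst

lemma join_mem_cube {J : Type} {u : J → ℝ} {t : ℝ} (hu : u ∈ cube J) (ht : t ∈ Icc (0 : ℝ) 1) :
    join u t ∈ cube (Option J) := by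
  intro o
  cases o with
  | none => exact ht
  | some j => exact hu j

lemma join_self {J : Type} (v : Option J → ℝ) : join (fun j => v (some j)) (v none) = v := by
  funext o
  cases o <;> rfl

variable {ι : Type}

/-- one step: extend the deformation over one more cell -/
lemma push_step [Fintype ι] {V W : Set X} (hWV : W ⊆ V) (hV : SWC V) (hW : SWC W) {N : ℕ}
    (hN : 0 < N) {K' K'' : (ι → ℕ) → Prop} {d : ι → ℕ} (hd : InC N d)
    (hK' : Down K') (hK'' : Down K'') (hKd : K' d) (hiff : ∀ c, K'' c ↔ K' c ∧ c ≠ d)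
    {f : (ι → ℝ) → X} (hf : ContinuousOn f (real N K')) (hfV : MapsTo f (real N K') V)
    {H : (ι → ℝ) × ℝ → X} (hH : ContinuousOn H (real N K'' ×ˢ Icc (0 : ℝ) 1))
    (hHV : MapsTo H (real N K'' ×ˢ Icc (0 : ℝ) 1) V) (hH0 : ∀ x ∈ real N K'', H (x, 0) = f x)
    (hH1 : ∀ x ∈ real N K'', H (x, 1) ∈ W) :
    ∃ H' : (ι → ℝ) × ℝ → X, ContinuousOn H' (real N K' ×ˢ Icc (0 : ℝ) 1) ∧
      MapsTo H' (real N K' ×ˢ Icc (0 : ℝ) 1) V ∧ (∀ x ∈ real N K', H' (x, 0) = f x) ∧
      (∀ x ∈ real N K', H' (x, 1) ∈ W) ∧ ∀ x ∈ real N K'', ∀ t, H' (x, t) = H (x, t) := by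
  classical
  have hcc := cell_subset_cube hN hd
  have hCK : cell N d ⊆ real N K' := fun x hx => cell_subset_real hN hK' hKd ⟨hcc hx, hx⟩
  -- boundary of the cell
  have hpar : ∀ u ∈ bdc (Fr d), par N d u ∈ real N K'' := by
    intro u hu
    have h1 := par_mem_cell hN d hu.1
    refine ⟨hcc h1, (hiff _).2 ⟨(hCK h1).2, ?_⟩⟩
    apply car_ne_of_mem_bdc hN
    rw [rap_par hN]; exact hu
  have hparK : ∀ u ∈ cube (Fr d), par N d u ∈ real N K' := fun u hu =>
    hCK (par_mem_cell hN d hu)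
  -- the map at time one
  obtain ⟨g1, hg1, hg1W, hg1e⟩ := hW (Fr d) (fun u => H (par N d u, 1))
    (hH.comp ((continuous_par N d).prodMk continuous_const).continuousOn
      fun u hu => ⟨hpar u hu, by norm_num, le_rfl⟩)
    (fun u hu => hH1 _ (hpar u hu))
  -- the three closed parts of the boundary of the cube over the cell
  set A0 : Set (Option (Fr d) → ℝ) := {v | v ∈ cube _ ∧ v none = 0} with hA0
  set A1 : Set (Option (Fr d) → ℝ) := {v | v ∈ cube _ ∧ v none = 1} with hA1
  set A2 : Set (Option (Fr d) → ℝ) := {v | v ∈ cube _ ∧ (fun j => v (some j)) ∈ bdc (Fr d)}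
    with hA2
  have hsome : Continuous fun v : Option (Fr d) → ℝ => fun j => v (some j) :=
    continuous_pi fun j => continuous_apply _
  have cA0 : IsClosed A0 := (isClosed_cube _).inter
    (isClosed_eq (continuous_apply none) continuous_const)
  have cA1 : IsClosed A1 := (isClosed_cube _).inter
    (isClosed_eq (continuous_apply none) continuous_const)
  have cA2 : IsClosed A2 := (isClosed_cube _).inter ((isClosed_bdc (Fr d)).preimage hsome)
  have hbd : bdc (Option (Fr d)) = A0 ∪ (A1 ∪ A2) := by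
    ext v
    constructor
    · rintro ⟨hv, o, ho⟩
      cases o with
      | none =>
        rcases ho with h | h
        · exact Or.inl ⟨hv, h⟩
        · exact Or.inr (Or.inl ⟨hv, h⟩)
      | some j => exact Or.inr (Or.inr ⟨hv, fun j => hv (some j), j, ho⟩)
    · rintro (h | h | h)
      · exact ⟨h.1, none, Or.inl h.2⟩
      · exact ⟨h.1, none, Or.inr h.2⟩
      · obtain ⟨h1, h2, j, hj⟩ := h
        exact ⟨h1, some j, hj⟩
  set a0 : (Option (Fr d) → ℝ) → X := fun v => f (par N d fun j => v (some j)) with ha0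
  set a1 : (Option (Fr d) → ℝ) → X := fun v => g1 fun j => v (some j) with ha1
  set a2 : (Option (Fr d) → ℝ) → X := fun v => H (par N d fun j => v (some j), v none) with ha2
  have hsc : ∀ {v : Option (Fr d) → ℝ}, v ∈ cube _ → (fun j => v (some j)) ∈ cube (Fr d) :=
    fun hv j => hv (some j)
  have ca0 : ContinuousOn a0 A0 :=
    hf.comp ((continuous_par N d).comp hsome).continuousOn fun v hv => hparK _ (hsc hv.1)
  have ca1 : ContinuousOn a1 A1 := hg1.comp hsome.continuousOn fun v hv => hsc hv.1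
  have ca2 : ContinuousOn a2 A2 :=
    hH.comp (((continuous_par N d).comp hsome).prodMk (continuous_apply none)).continuousOn
      fun v hv => ⟨hpar _ hv.2, hv.1 none⟩
  have e12 : EqOn a1 a2 (A1 ∩ A2) := by
    rintro v ⟨h1, h2⟩
    simp only [ha1, ha2, h1.2]
    exact hg1e h2.2
  have c12 := continuousOn_gl cA1 cA2 ca1 ca2 e12
  have e012 : EqOn a0 (gl A1 a1 a2) (A0 ∩ (A1 ∪ A2)) := by
    rintro v ⟨h1, h2⟩
    have hn1 : v ∉ A1 := fun h => by
      have := h.2; rw [h1.2] at this; norm_num at this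
    have h3 : v ∈ A2 := h2.resolve_left hn1
    rw [gl_of_notMem hn1]
    simp only [ha0, ha2, h1.2]
    exact (hH0 _ (hpar _ h3.2)).symm
  have c012 := continuousOn_gl cA0 (cA1.union cA2) ca0 c12 e012
  rw [← hbd] at c012
  have hmaps : MapsTo (gl A0 a0 (gl A1 a1 a2)) (bdc (Option (Fr d))) V := by
    intro v hv
    by_cases h0 : v ∈ A0
    · rw [gl_of_mem h0]; exact hfV (hparK _ (hsc h0.1))
    · rw [gl_of_notMem h0]
      rw [hbd] at hv
      by_cases h1 : v ∈ A1
      · rw [gl_of_mem h1]; exact hWV (hg1W (hsc h1.1))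
      · rw [gl_of_notMem h1]
        have h2 : v ∈ A2 := (hv.resolve_left h0).resolve_left h1
        exact hHV ⟨hpar _ h2.2, h2.1 none⟩
  obtain ⟨F, hF, hFV, hFe⟩ := hV (Option (Fr d)) _ c012 hmaps
  -- values of F on the boundary
  have F0 : ∀ u ∈ cube (Fr d), F (join u 0) = f (par N d u) := by
    intro u hu
    have hm : join u 0 ∈ A0 := ⟨join_mem_cube hu (by norm_num), rfl⟩
    rw [hFe (by rw [hbd]; exact Or.inl hm), gl_of_mem hm]
    rfl
  have F1 : ∀ u ∈ cube (Fr d), F (join u 1) = g1 u := by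
    intro u hu
    have hm : join u 1 ∈ A1 := ⟨join_mem_cube hu (by norm_num), rfl⟩
    have hm0 : join u 1 ∉ A0 := fun h => by
      have := h.2; simp [join] at this
    rw [hFe (by rw [hbd]; exact Or.inr (Or.inl hm)), gl_of_notMem hm0, gl_of_mem hm]
    rfl
  have F2 : ∀ u ∈ bdc (Fr d), ∀ t ∈ Icc (0 : ℝ) 1, F (join u t) = H (par N d u, t) := by
    intro u hu t ht
    have hm : join u t ∈ A2 := ⟨join_mem_cube hu.1 ht, hu⟩
    by_cases h0 : t = 0
    · subst h0
      rw [F0 u hu.1, hH0 _ (hpar u hu)]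
    by_cases h1 : t = 1
    · subst h1
      rw [F1 u hu.1]; exact hg1e hu
    have hm0 : join u t ∉ A0 := fun h => h0 h.2
    have hm1 : join u t ∉ A1 := fun h => h1 h.2
    rw [hFe (by rw [hbd]; exact Or.inr (Or.inr hm)), gl_of_notMem hm0, gl_of_notMem hm1]
    rfl
  -- the new deformation
  set Q : (ι → ℝ) × ℝ → X := fun q => F (join (rap N d q.1) q.2) with hQ
  have cQ : ContinuousOn Q (cell N d ×ˢ Icc (0 : ℝ) 1) :=
    hF.comp (continuous_join.comp (((continuous_rap N d).comp continuous_fst).prodMk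
      continuous_snd)).continuousOn fun q hq => join_mem_cube (rap_mem_cube hN d hq.1) hq.2
  have hKK : real N K' = real N K'' ∪ cell N d := by
    ext x
    constructor
    · rintro ⟨h1, h2⟩
      by_cases h : car N x = d
      · right
        rw [← h]; exact mem_cell_car hN h1
      · exact Or.inl ⟨h1, (hiff _).2 ⟨h2, h⟩⟩
    · rintro (h | h)
      · exact ⟨h.1, ((hiff _).1 h.2).1⟩
      · exact hCK h
  have hcommon : ∀ x, x ∈ real N K'' → x ∈ cell N d → rap N d x ∈ bdc (Fr d) := by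
    intro x h1 h2
    by_contra hcon
    exact ((hiff _).1 h1.2).2 (car_eq_of_notMem_bdc hN h2 h1.1 hcon)
  have eQ : EqOn H Q ((real N K'' ×ˢ Icc (0 : ℝ) 1) ∩ (cell N d ×ˢ Icc (0 : ℝ) 1)) := by
    rintro ⟨x, t⟩ ⟨⟨h1, h2⟩, h3, _⟩
    simp only [hQ]
    rw [F2 _ (hcommon x h1 h3) t h2, par_rap hN d h3]
  have cl1 : IsClosed (real N K'' ×ˢ Icc (0 : ℝ) 1) := (isClosed_real hN hK'').prod isClosed_Icc
  have cl2 : IsClosed (cell N d ×ˢ Icc (0 : ℝ) 1) := (isClosed_cell N d).prod isClosed_Icc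
  have cfin := continuousOn_gl cl1 cl2 hH cQ eQ
  have hset : real N K' ×ˢ Icc (0 : ℝ) 1 =
      (real N K'' ×ˢ Icc (0 : ℝ) 1) ∪ (cell N d ×ˢ Icc (0 : ℝ) 1) := by
    rw [hKK, Set.union_prod]
  refine ⟨fun q => gl (real N K'') (fun x => H (x, q.2)) (fun x => Q (x, q.2)) q.1,
    ?_, ?_, ?_, ?_, ?_⟩
  · rw [hset]
    refine cfin.congr ?_
    rintro ⟨x, t⟩ hq
    have ht : t ∈ Icc (0 : ℝ) 1 := by
      rcases hq with h | h <;> exact h.2
    by_cases hx : x ∈ real N K''
    · have hm : (x, t) ∈ real N K'' ×ˢ Icc (0 : ℝ) 1 := ⟨hx, ht⟩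
      simp only [gl_of_mem hx, gl_of_mem hm]
    · have hm : (x, t) ∉ real N K'' ×ˢ Icc (0 : ℝ) 1 := fun h => hx h.1
      simp only [gl_of_notMem hx, gl_of_notMem hm]
  · rintro ⟨x, t⟩ ⟨hx, ht⟩
    simp only at hx ht ⊢
    by_cases h : x ∈ real N K''
    · rw [gl_of_mem h]; exact hHV ⟨h, ht⟩
    · rw [gl_of_notMem h]
      have hc : x ∈ cell N d := by
        rw [hKK] at hx; exact hx.resolve_left h
      exact hFV (join_mem_cube (rap_mem_cube hN d hc) ht)
  · intro x hx
    by_cases h : x ∈ real N K''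
    · simp only [gl_of_mem h]; exact hH0 x h
    · simp only [gl_of_notMem h]
      have hc : x ∈ cell N d := by
        rw [hKK] at hx; exact hx.resolve_left h
      simp only [hQ]
      rw [F0 _ (rap_mem_cube hN d hc), par_rap hN d hc]
  · intro x hx
    by_cases h : x ∈ real N K''
    · simp only [gl_of_mem h]; exact hH1 x h
    · simp only [gl_of_notMem h]
      have hc : x ∈ cell N d := by
        rw [hKK] at hx; exact hx.resolve_left h
      simp only [hQ]
      rw [F1 _ (rap_mem_cube hN d hc)]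
      exact hg1W (rap_mem_cube hN d hc)
  · intro x hx t
    simp only [gl_of_mem hx]

/-- **Pushing lemma.** -/
theorem push [Fintype ι] {V W : Set X} (hWV : W ⊆ V) (hV : SWC V) (hW : SWC W) {N : ℕ}
    (hN : 0 < N) {L : (ι → ℕ) → Prop} (hL : Down L) (m : ℕ) :
    ∀ (K : (ι → ℕ) → Prop), Down K → (∀ c, L c → K c) → (∀ c, K c → InC N c) →
    Set.ncard {c | InC N c ∧ K c ∧ ¬ L c} = m →
    ∀ f : (ι → ℝ) → X, ContinuousOn f (real N K) → MapsTo f (real N K) V →
    MapsTo f (real N L) W →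
    ∃ H : (ι → ℝ) × ℝ → X, ContinuousOn H (real N K ×ˢ Icc (0 : ℝ) 1) ∧
      MapsTo H (real N K ×ˢ Icc (0 : ℝ) 1) V ∧ (∀ x ∈ real N K, H (x, 0) = f x) ∧
      (∀ x ∈ real N K, H (x, 1) ∈ W) ∧ ∀ x ∈ real N L, ∀ t, H (x, t) = f x := by
  classical
  have hfin : ∀ K : (ι → ℕ) → Prop, {c | InC N c ∧ K c ∧ ¬ L c}.Finite := by
    intro K
    refine (allCells ι N).finite_toSet.subset fun c hc => ?_
    exact mem_allCells.2 hc.1
  induction m with
  | zero =>
    intro K hK hLK hKI hcard f hf hfV hfW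
    have hempty : {c | InC N c ∧ K c ∧ ¬ L c} = ∅ := by
      rwa [Set.ncard_eq_zero (hfin K)] at hcard
    have hKL : ∀ c, K c → L c := by
      intro c hc
      by_contra hcon
      have : c ∈ {c | InC N c ∧ K c ∧ ¬ L c} := ⟨hKI c hc, hc, hcon⟩
      rw [hempty] at this
      exact this
    have hreal : ∀ x ∈ real N K, x ∈ real N L := fun x hx => ⟨hx.1, hKL _ hx.2⟩
    refine ⟨fun q => f q.1, hf.comp continuous_fst.continuousOn fun q hq => hq.1,
      fun q hq => hfV hq.1, fun x _ => rfl, fun x hx => hfW (hreal x hx), fun x _ t => rfl⟩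
  | succ m ih =>
    intro K hK hLK hKI hcard f hf hfV hfW
    have hne : {c | InC N c ∧ K c ∧ ¬ L c}.Nonempty := by
      rw [← Set.ncard_pos (hfin K), hcard]; omega
    obtain ⟨d, hdm, hdmax⟩ := Set.exists_max_image _ dimC (hfin K) hne
    obtain ⟨hdI, hdK, hdL⟩ := hdm
    set K'' : (ι → ℕ) → Prop := fun c => K c ∧ c ≠ d with hK''
    have hdown : Down K'' := by
      intro c c' hcc' hc'
      refine ⟨hK c c' hcc' hc'.1, ?_⟩
      rintro rfl
      have h1 : ¬ L c' := fun h => hdL (hL _ _ hcc' h)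
      have h2 := hdmax c' ⟨hKI _ hc'.1, hc'.1, h1⟩
      have h3 := dimC_lt hcc' (Ne.symm hc'.2)
      omega
    have hLK'' : ∀ c, L c → K'' c := fun c hc => ⟨hLK c hc, fun h => hdL (h ▸ hc)⟩
    have hcard'' : Set.ncard {c | InC N c ∧ K'' c ∧ ¬ L c} = m := by
      have : {c | InC N c ∧ K'' c ∧ ¬ L c} = {c | InC N c ∧ K c ∧ ¬ L c} \ {d} := by
        ext c
        simp only [hK'', Set.mem_setOf_eq, Set.mem_diff, Set.mem_singleton_iff]
        tauto
      have hmem : d ∈ {c | InC N c ∧ K c ∧ ¬ L c} := ⟨hdI, hdK, hdL⟩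
      rw [this, Set.ncard_diff_singleton_of_mem hmem, hcard]
      rfl
    have hsub : real N K'' ⊆ real N K := fun x hx => ⟨hx.1, hx.2.1⟩
    obtain ⟨H, hH, hHV, hH0, hH1, hHL⟩ := ih K'' hdown hLK'' (fun c hc => hKI c hc.1) hcard'' f
      (hf.mono hsub) (fun x hx => hfV (hsub hx)) hfW
    obtain ⟨H', a1, a2, a3, a4, a5⟩ := push_step hWV hV hW hN hdI hK hdown hdK
      (fun c => Iff.rfl) hf hfV hH hHV hH0 hH1
    refine ⟨H', a1, a2, a3, a4, fun x hx t => ?_⟩
    rw [a5 x ⟨hx.1, hLK'' _ hx.2⟩ t, hHL x hx t]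

end push

end Pool.KT
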